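import Pool.Agent.Helper61.HO.InnerIdeal

/-!
# RO-61  The abelian triple system, with products of three `ad` equal to `0`

The same statement as `exists_isAb` (`HO/InnerIdeal.lean`) with one more clause. PROOF. Copy the proof of `exists_isAb` (with the private lemmas). With the notations there
(`a x = lie K (lie K x)`, `x` in the space `Y` of the operators with a star, `(ad K)³ = 0` on `Y`, `lie_nil`): for `x, y, z, v ∈ Y`
`lie (a x) (lie (a y) (lie (a z) v)) = a (lie x (lie y (a (lie (a z) v))))` (`n2`), and `a (lie (a z) v) = 0`: by the Leibniz rule `ad K` twice on `lie (a z) v`: the terms with `ad K (a z) = 0` vanish,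
there remains `lie (a z) (a v) = 0` (`n1`). So the clause holds for the elements `a x`, and for their limits by continuity (three closed conditions, one after the other, as for `comm` and `tri` in the
original proof: the elements of `𝔅` are in the closure of `{a x}`).
-/

set_option autoImplicit false

open Filter Topology

namespace Pool.Agent.Helper61.HP

universe u

variable {E : Type u} [NormedAddCommGroup E] [NormedSpace ℂ E] [CompleteSpace E]
  {𝔥 : Set (E →L[ℂ] E)}

omit [CompleteSpace E] in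
private theorem ii_neg_lie (A B : E →L[ℂ] E) : lie A B = -lie B A := by
  unfold lie
  abel

theorem exists_isAb3 (hh : HLie 𝔥) (hnab : ∃ A ∈ 𝔥, ∃ B ∈ 𝔥, A * B ≠ B * A) {ε : ℝ} (hε : 0 < ε) :
    ∃ (h : E →L[ℂ] E) (𝔅 : Submodule ℂ (E →L[ℂ] E)), IsAb 𝔥 h ε 𝔅 ∧
      (∀ K₁ ∈ 𝔅, ∀ K₂ ∈ 𝔅, ∀ K₃ ∈ 𝔅, ∀ k l, Pr 𝔥 k l → lie K₁ (lie K₂ (lie K₃ k)) = 0) ∧
      ∃ K K', Pr 𝔥 K K' ∧ K ≠ 0 ∧ ‖lie h K - K‖ ≤ ε * ‖K‖ ∧ lie K (lie K K') ∈ 𝔅 := by
  obtain ⟨C, hC, hCb⟩ := exists_spec_const.{u}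
  obtain ⟨A, hA, B, hB, hAB⟩ := hnab
  set η : ℝ := min (1 / 4) (ε / (4 * (C + 1))) with hη
  have hη0 : 0 < η := lt_min (by norm_num) (by positivity)
  have hη4 : η ≤ 1 / 4 := min_le_left _ _
  have hηε : η ≤ ε / (4 * (C + 1)) := min_le_right _ _
  have hCη : 2 * C * η ≤ ε := by
    have h1 : η * (4 * (C + 1)) ≤ ε := by
      rwa [le_div_iff₀ (by positivity)] at hηε
    nlinarith
  obtain ⟨H, c, hH, hc, hY, K, K', hK, hK0, hKs⟩ := exists_gap hh hA hB hAB hη0 (by linarith)
  set a : ℝ := (1 - η) * c with ha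
  have hηc : η * c ≤ 1 / 4 * c := mul_le_mul_of_nonneg_right hη4 hc.le
  have hηc0 : 0 < η * c := mul_pos hη0 hc
  have ha1 : a = c - η * c := by rw [ha]; ring
  have hHh : Herm H := hh.herm H hH
  have hHad : Herm (adL H) := herm_adL hHh
  obtain ⟨Y, hYc, hYm⟩ := exists_ysub hh
  have hsp : ∀ y ∈ Y, SpIn (adL H) (-c) c y := by
    intro y hy
    obtain ⟨L, hL⟩ := (hYm y).1 hy
    exact hY y L hL
  have hKY : K ∈ Y := (hYm K).2 ⟨K', hK⟩
  have hK'Y : K' ∈ Y := (hYm K').2 ⟨K, Pr.symm hh hK⟩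
  have hlieY : ∀ x ∈ Y, ∀ y ∈ Y, lie x y ∈ Y := by
    intro x hx y hy
    obtain ⟨L, hL⟩ := (hYm x).1 hx
    obtain ⟨L', hL'⟩ := (hYm y).1 hy
    exact (hYm _).2 ⟨_, Pr.lie hh hL hL'⟩
  have s1 : ∀ y ∈ Y, SpIn (adL H) (a - c) c (lie K y) := by
    intro y hy
    have h1 := SpIn.lie hHh (by linarith : a ≤ c) (by linarith : -c ≤ c) hKs (hsp y hy)
    have h2 := hsp _ (hlieY K hKY y hy)
    have h3 : max (a + -c) (-c) = a - c := by
      rw [max_eq_left (by linarith)]
      ring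
    have h4 : min (c + c) c = c := min_eq_right (by linarith)
    have h5 := SpIn.inter h1 h2 hHad (by rw [h3, h4]; linarith)
    rwa [h3, h4] at h5
  have s2 : ∀ y ∈ Y, SpIn (adL H) (2 * a - c) c (lie K (lie K y)) := by
    intro y hy
    have h1 := SpIn.lie hHh (by linarith : a ≤ c) (by linarith : a - c ≤ c) hKs (s1 y hy)
    have h2 := hsp _ (hlieY K hKY _ (hlieY K hKY y hy))
    have h3 : max (a + (a - c)) (-c) = 2 * a - c := by
      rw [max_eq_left (by linarith)]
      ring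
    have h4 : min (c + c) c = c := min_eq_right (by linarith)
    have h5 := SpIn.inter h1 h2 hHad (by rw [h3, h4]; linarith)
    rwa [h3, h4] at h5
  have s3 : ∀ y ∈ Y, lie K (lie K (lie K y)) = 0 := by
    intro y hy
    have h1 := SpIn.lie hHh (by linarith : a ≤ c) (by linarith : 2 * a - c ≤ c) hKs (s2 y hy)
    have h2 := hsp _ (hlieY K hKY _ (hlieY K hKY _ (hlieY K hKY y hy)))
    exact SpIn.disjoint h2 h1 hHad (by linarith)
  -- the Lie algebra
  let _ : LieRing (E →L[ℂ] E) := LieRing.ofAssociativeRing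
  let YL : LieSubalgebra ℂ (E →L[ℂ] E) :=
    { Y with
      lie_mem' := by
        intro x y hx hy
        exact hlieY x hx y hy }
  have hnil := lie_nil (L := YL) (K := ⟨K, hKY⟩) (by
    intro y
    apply Subtype.ext
    exact s3 y.1 y.2)
  have n1 : ∀ x ∈ Y, ∀ y ∈ Y, lie (lie K (lie K x)) (lie K (lie K y)) = 0 := by
    intro x hx y hy
    exact congrArg Subtype.val (hnil.1 ⟨x, hx⟩ ⟨y, hy⟩)
  have n2 : ∀ x ∈ Y, ∀ y ∈ Y, ∀ z ∈ Y, lie (lie K (lie K x)) (lie (lie K (lie K y)) z) =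
      lie K (lie K (lie x (lie y (lie K (lie K z))))) := by
    intro x hx y hy z hz
    exact congrArg Subtype.val (hnil.2 ⟨x, hx⟩ ⟨y, hy⟩ ⟨z, hz⟩)
  -- the abelian triple system
  let Φ : (E →L[ℂ] E) →L[ℂ] (E →L[ℂ] E) := (adL K) * (adL K)
  have hΦ : ∀ x, Φ x = lie K (lie K x) := by
    intro x
    change adL K (adL K x) = lie K (lie K x)
    rw [adL_apply, adL_apply]
  let W : Submodule ℂ (E →L[ℂ] E) := Y.map (Φ : (E →L[ℂ] E) →ₗ[ℂ] (E →L[ℂ] E))
  have hW : ∀ x, x ∈ W ↔ ∃ y ∈ Y, lie K (lie K y) = x := by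
    intro x
    rw [Submodule.mem_map]
    constructor
    · rintro ⟨y, hy, h⟩
      exact ⟨y, hy, by rw [← h]; exact (hΦ y).symm⟩
    · rintro ⟨y, hy, h⟩
      exact ⟨y, hy, by rw [← h]; exact hΦ y⟩
  have hcl : ∀ S : Set (E →L[ℂ] E), IsClosed S → (∀ y ∈ Y, lie K (lie K y) ∈ S) →
      ∀ x ∈ W.topologicalClosure, x ∈ S := by
    intro S hS h x hx
    have h1 : (W : Set (E →L[ℂ] E)) ⊆ S := by
      intro x hx
      obtain ⟨y, hy, rfl⟩ := (hW x).1 hx
      exact h y hy
    rw [← SetLike.mem_coe, Submodule.topologicalClosure_coe] at hx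
    exact closure_minimal h1 hS hx
  have hWcl : ∀ y ∈ Y, lie K (lie K y) ∈ W.topologicalClosure := fun y hy =>
    W.le_topologicalClosure ((hW _).2 ⟨y, hy, rfl⟩)
  have hc0 : ((c : ℝ) : ℂ) ≠ 0 := by exact_mod_cast hc.ne'
  have hnear : ∀ x : E →L[ℂ] E, SpIn (adL H) (2 * a - c) c x →
      ‖lie (((c⁻¹ : ℝ) : ℂ) • H) x - x‖ ≤ ε * ‖x‖ := by
    intro x hx
    have h1 : SpIn (adL H) (c - 2 * (η * c)) (c + 2 * (η * c)) x :=
      SpIn.mono hx (by linarith) (by linarith)
    have h2 := hCb (E →L[ℂ] E) (adL H) c (2 * (η * c)) x hHad (by linarith) h1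
    have h3 : lie (((c⁻¹ : ℝ) : ℂ) • H) x - x = ((c⁻¹ : ℝ) : ℂ) • (adL H x - (c : ℂ) • x) := by
      rw [adL_apply, smul_sub, smul_smul]
      have h4 : ((c⁻¹ : ℝ) : ℂ) * (c : ℂ) = 1 := by
        rw [Complex.ofReal_inv, inv_mul_cancel₀ hc0]
      rw [h4, one_smul]
      unfold lie
      rw [smul_mul_assoc, mul_smul_comm, smul_sub]
    rw [h3, norm_smul, Complex.norm_real, norm_inv, Real.norm_eq_abs, abs_of_pos hc]
    calc c⁻¹ * ‖adL H x - (c : ℂ) • x‖ ≤ c⁻¹ * (C * (2 * (η * c)) * ‖x‖) :=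
          mul_le_mul_of_nonneg_left h2 (by positivity)
      _ = 2 * C * η * ‖x‖ := by field_simp
      _ ≤ ε * ‖x‖ := mul_le_mul_of_nonneg_right hCη (norm_nonneg _)
  have hlc : ∀ B : E →L[ℂ] E, Continuous (fun x : E →L[ℂ] E => lie x B) := by
    intro B
    unfold lie
    exact (continuous_id.mul continuous_const).sub (continuous_const.mul continuous_id)
  have hlc' : ∀ B : E →L[ℂ] E, Continuous (fun x : E →L[ℂ] E => lie B x) := by
    intro B
    unfold lie
    exact (continuous_const.mul continuous_id).sub (continuous_id.mul continuous_const)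
  have hleib : ∀ x y : E →L[ℂ] E, lie K (lie x y) = lie (lie K x) y + lie x (lie K y) := by
    intro x y
    unfold lie
    noncomm_ring
  have hzero : ∀ B : E →L[ℂ] E, lie (0 : E →L[ℂ] E) B = 0 := by
    intro B
    unfold lie
    simp
  have hzero' : ∀ B : E →L[ℂ] E, lie B (0 : E →L[ℂ] E) = 0 := by
    intro B
    unfold lie
    simp
  have haz : ∀ z ∈ Y, ∀ v ∈ Y, lie K (lie K (lie (lie K (lie K z)) v)) = 0 := by
    intro z hz v hv
    rw [hleib (lie K (lie K z)) v, s3 z hz, hzero, zero_add,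
      hleib (lie K (lie K z)) (lie K v), s3 z hz, hzero, zero_add]
    exact n1 z hz v hv
  have t0 : ∀ x ∈ Y, ∀ y ∈ Y, ∀ z ∈ Y, ∀ v ∈ Y,
      lie (lie K (lie K x)) (lie (lie K (lie K y)) (lie (lie K (lie K z)) v)) = 0 := by
    intro x hx y hy z hz v hv
    rw [n2 x hx y hy _ (hlieY _ (hlieY K hKY _ (hlieY K hKY z hz)) v hv), haz z hz v hv, hzero',
      hzero', hzero', hzero']
  have t1 : ∀ x ∈ W.topologicalClosure, ∀ y ∈ Y, ∀ z ∈ Y, ∀ v ∈ Y,
      lie x (lie (lie K (lie K y)) (lie (lie K (lie K z)) v)) = 0 := by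
    intro x hx y hy z hz v hv
    refine hcl {x | lie x (lie (lie K (lie K y)) (lie (lie K (lie K z)) v)) = 0} ?_ ?_ x hx
    · exact isClosed_eq (hlc _) continuous_const
    · intro w hw
      exact t0 w hw y hy z hz v hv
  have t2 : ∀ x ∈ W.topologicalClosure, ∀ y ∈ W.topologicalClosure, ∀ z ∈ Y, ∀ v ∈ Y,
      lie x (lie y (lie (lie K (lie K z)) v)) = 0 := by
    intro x hx y hy z hz v hv
    refine hcl {y | lie x (lie y (lie (lie K (lie K z)) v)) = 0} ?_ ?_ y hy
    · exact isClosed_eq ((hlc' x).comp (hlc _)) continuous_const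
    · intro w hw
      exact t1 x hx w hw z hz v hv
  have t3 : ∀ x ∈ W.topologicalClosure, ∀ y ∈ W.topologicalClosure,
      ∀ z ∈ W.topologicalClosure, ∀ v ∈ Y, lie x (lie y (lie z v)) = 0 := by
    intro x hx y hy z hz v hv
    refine hcl {z | lie x (lie y (lie z v)) = 0} ?_ ?_ z hz
    · exact isClosed_eq ((hlc' x).comp ((hlc' y).comp (hlc v))) continuous_const
    · intro w hw
      exact t2 x hx y hy w hw v hv
  refine ⟨((c⁻¹ : ℝ) : ℂ) • H, W.topologicalClosure, ?_,
    fun K₁ h₁ K₂ h₂ K₃ h₃ k l hkl => t3 K₁ h₁ K₂ h₂ K₃ h₃ k ((hYm k).2 ⟨l, hkl⟩),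
    K, K', hK, hK0, ?_, hWcl K' hK'Y⟩
  · refine ⟨hh.smul _ H hH, W.isClosed_topologicalClosure, ?_, ?_, ?_, ?_⟩
    · intro x hx
      exact (hYm x).1 (hcl (Y : Set (E →L[ℂ] E)) hYc
        (fun y hy => hlieY K hKY _ (hlieY K hKY y hy)) x hx)
    · intro x hx z hz
      have h1 : ∀ y ∈ Y, ∀ x ∈ W.topologicalClosure,
          x * lie K (lie K y) = lie K (lie K y) * x := by
        intro y hy x hx
        refine hcl {x | x * lie K (lie K y) = lie K (lie K y) * x} ?_ ?_ x hx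
        · exact isClosed_eq (continuous_id.mul continuous_const)
            (continuous_const.mul continuous_id)
        · intro w hw
          have h2 := n1 w hw y hy
          have h3 : lie K (lie K w) * lie K (lie K y) - lie K (lie K y) * lie K (lie K w) = 0 := h2
          exact sub_eq_zero.1 h3
      refine hcl {z | x * z = z * x} ?_ (fun y hy => h1 y hy x hx) z hz
      exact isClosed_eq (continuous_const.mul continuous_id) (continuous_id.mul continuous_const)
    · intro x hx y y' hyy z hz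
      have hy' : y' ∈ Y := (hYm y').2 ⟨y, Pr.symm hh hyy⟩
      have h1 : ∀ w ∈ Y, ∀ x ∈ W.topologicalClosure,
          lie (lie x y') (lie K (lie K w)) ∈ W.topologicalClosure := by
        intro w hw x hx
        refine hcl {x | lie (lie x y') (lie K (lie K w)) ∈ W.topologicalClosure} ?_ ?_ x hx
        · exact W.isClosed_topologicalClosure.preimage ((hlc (lie K (lie K w))).comp (hlc y'))
        · intro v hv
          change lie (lie (lie K (lie K v)) y') (lie K (lie K w)) ∈ W.topologicalClosure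
          rw [ii_neg_lie, n2 w hw v hv y' hy']
          refine Submodule.neg_mem _ (hWcl _ ?_)
          exact hlieY w hw _ (hlieY v hv _ (hlieY K hKY _ (hlieY K hKY y' hy')))
      refine hcl {z | lie (lie x y') z ∈ W.topologicalClosure} ?_ (fun w hw => h1 w hw x hx) z hz
      exact W.isClosed_topologicalClosure.preimage (hlc' (lie x y'))
    · intro x hx
      exact hnear x (hcl {y | SpIn (adL H) (2 * a - c) c y} (SpIn.closed _ _ _)
        (fun y hy => s2 y hy) x hx)
  · exact hnear K (SpIn.mono hKs (by linarith) le_rfl)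

end Pool.Agent.Helper61.HP
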