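import Pool.Agent.Helper61.RO.RKey

/-!
# RO-22  The parallelogram law from the key theorem

PROOF of `block_par`. Fix a unit vector `x` of the block `j` (`j ≠ i`). For `f` in the block `i` choose `u f ∈ 𝓛 i j` with `u f x = f` (`rkey`, scaled; `u 0 = 0`).
`b f f' = - dj x (u f f')`. If `u, u' ∈ 𝓛 i j`, `u x = u' x`, then `(u - u') x = 0`, `u - u'` is skew, and `dj x ((u - u') z) = 0` for all `z` (`Sk.dj_ker`). So
`b` does not depend on the choice and is additive in `f` (`u f + u f'` is a choice for `f + f'`) and linear in `f'`. `b f f = ‖f‖²`: for `f ≠ 0` take `u = ‖f‖ • W`,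
`W x = f / ‖f‖ =: r`, `W r = - x`: `b f f = - ‖f‖² dj x (W r) = ‖f‖²`. So `‖f + g‖² + ‖f - g‖² = b (f+g) (f+g) + b (f-g) (f-g) = 2 ‖f‖² + 2 ‖g‖²`.

PROOF of `pyth`. `f` in the block `i`, `g` in the block `j`, `h` in the block `k`: `‖f + g + h‖² = ‖f‖² + ‖g‖² + ‖h‖²`. Step: for unit `r`, `x` in the blocks `i`, `j` and `W` from
`rkey`: `rx t W x = cos t x + sin t r`, `rx t W` fixes `h` (`kills`) and is isometric: `‖a x + b r + h‖ = ‖√(a² + b²) x + h‖`; then the same for `x` and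
`h / ‖h‖`. Use `rx_of_cube` for `W` (`W * W * W = - W`).

`par_of_frame`: decompose `x` and `y` (`RFrame.decomp`), `pyth`, `block_par` for the three blocks.
-/

set_option autoImplicit false

open Filter Topology

namespace Pool.Agent.Helper61.RO

universe u

variable {E : Type u} [NormedAddCommGroup E] [NormedSpace ℝ E] [CompleteSpace E]
  {p : Fin 3 → (E →L[ℝ] E)} {𝓛 : Fin 3 → Fin 3 → Set (E →L[ℝ] E)} {i j k : Fin 3}

/-- every vector of a block is a multiple of a unit vector of the block -/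
private theorem unit_of (hne : ∀ i, ∃ z, p i z = z ∧ z ≠ 0) {f : E} (hf : p i f = f) :
    ∃ r : E, p i r = r ∧ ‖r‖ = 1 ∧ f = ‖f‖ • r := by
  have hu : ∀ z : E, p i z = z → z ≠ 0 → p i (‖z‖⁻¹ • z) = ‖z‖⁻¹ • z ∧ ‖‖z‖⁻¹ • z‖ = 1 := by
    intro z hz hz0
    refine ⟨by rw [map_smul, hz], ?_⟩
    rw [norm_smul, norm_inv, norm_norm, inv_mul_cancel₀ (norm_ne_zero_iff.mpr hz0)]
  by_cases h0 : f = 0
  · obtain ⟨z, hz, hz0⟩ := hne i
    refine ⟨‖z‖⁻¹ • z, (hu z hz hz0).1, (hu z hz hz0).2, ?_⟩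
    rw [h0, norm_zero, zero_smul]
  · refine ⟨‖f‖⁻¹ • f, (hu f hf h0).1, (hu f hf h0).2, ?_⟩
    rw [smul_smul, mul_inv_cancel₀ (norm_ne_zero_iff.mpr h0), one_smul]

private theorem exists_third (i : Fin 3) : ∃ j k : Fin 3, i ≠ j ∧ i ≠ k ∧ j ≠ k := by
  fin_cases i
  · exact ⟨1, 2, by decide, by decide, by decide⟩
  · exact ⟨0, 2, by decide, by decide, by decide⟩
  · exact ⟨0, 1, by decide, by decide, by decide⟩

theorem block_par (hN : RNice E) (hF : RFrame p 𝓛) (hne : ∀ i, ∃ z, p i z = z ∧ z ≠ 0)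
    {f g : E} (hf : p i f = f) (hg : p i g = g) :
    ‖f + g‖ ^ 2 + ‖f - g‖ ^ 2 = 2 * (‖f‖ ^ 2 + ‖g‖ ^ 2) := by
  obtain ⟨j, k, hij, hik, hjk⟩ := exists_third i
  obtain ⟨z, hz, -⟩ := hne j
  obtain ⟨x, hx, hx1, -⟩ := unit_of hne hz
  have hx0 : x ≠ 0 := by
    rintro rfl
    rw [norm_zero] at hx1
    exact zero_ne_one hx1
  -- operators which map `x` to a given vector of the block
  have hch : ∀ f : E, p i f = f → ∃ u ∈ 𝓛 i j, u x = f ∧ dj x (u f) = -‖f‖ ^ 2 := by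
    intro f hf
    obtain ⟨r, hr, hr1, hfr⟩ := unit_of hne hf
    obtain ⟨W, hW, hWx, hWr⟩ := rkey hN hF hij hik hjk (hne k) hx hr hx1 hr1
    refine ⟨‖f‖ • W, (hF.link i j hij).smul _ _ hW.mem, ?_, ?_⟩
    · rw [ContinuousLinearMap.smul_apply, hWx, ← hfr]
    · rw [ContinuousLinearMap.smul_apply]
      have h1 : W f = ‖f‖ • (-x) := by
        conv_lhs => rw [hfr]
        rw [map_smul, hWr]
      rw [h1, smul_smul, map_smul, map_neg, dj_self, hx1, smul_eq_mul]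
      ring
  have hind : ∀ u ∈ 𝓛 i j, ∀ u' ∈ 𝓛 i j, u x = u' x → ∀ y, dj x (u y) = dj x (u' y) := by
    intro u hu u' hu' h y
    have hs : Sk (u - u') := (hF.link i j hij).sk _ ((hF.link i j hij).sub hu hu')
    have h1 : (u - u') x = 0 := by rw [ContinuousLinearMap.sub_apply, h, sub_self]
    have h2 := hs.dj_ker hN hx0 h1 y
    rw [ContinuousLinearMap.sub_apply, map_sub] at h2
    linarith
  obtain ⟨u, hu, hux, huf⟩ := hch f hf
  obtain ⟨v, hv, hvx, hvg⟩ := hch g hg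
  obtain ⟨w, hw, hwx, hwf⟩ := hch (f + g) (by rw [map_add, hf, hg])
  obtain ⟨w', hw', hwx', hwf'⟩ := hch (f - g) (by rw [map_sub, hf, hg])
  have h1 := hind w hw (u + v) ((hF.link i j hij).add _ hu _ hv)
    (by rw [ContinuousLinearMap.add_apply, hwx, hux, hvx]) (f + g)
  have h2 := hind w' hw' (u - v) ((hF.link i j hij).sub hu hv)
    (by rw [ContinuousLinearMap.sub_apply, hwx', hux, hvx]) (f - g)
  rw [hwf, ContinuousLinearMap.add_apply] at h1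
  rw [hwf', ContinuousLinearMap.sub_apply] at h2
  simp only [map_add, map_sub] at h1 h2
  rw [huf, hvg] at h1 h2
  linarith

private theorem rot (hN : RNice E) (hF : RFrame p 𝓛) (hne : ∀ i, ∃ z, p i z = z ∧ z ≠ 0)
    (hij : i ≠ j) (hik : i ≠ k) (hjk : j ≠ k) {x r h : E} (hx : p j x = x) (hr : p i r = r)
    (hh : p k h = h) (hx1 : ‖x‖ = 1) (hr1 : ‖r‖ = 1) (a b : ℝ) :
    ‖b • r + a • x + h‖ = ‖√(a ^ 2 + b ^ 2) • x + h‖ := by
  obtain ⟨W, hW, hWx, hWr⟩ := rkey hN hF hij hik hjk (hne k) hx hr hx1 hr1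
  have hWh : W h = 0 := hF.kills hij hik.symm hjk.symm hW.mem hh
  have hs : Sk W := (hF.link i j hij).sk _ hW.mem
  obtain ⟨t, ht1, ht2⟩ : ∃ t : ℝ, √(a ^ 2 + b ^ 2) * Real.cos t = a ∧
      √(a ^ 2 + b ^ 2) * Real.sin t = b := by
    have hn : ‖(⟨a, b⟩ : ℂ)‖ = √(a ^ 2 + b ^ 2) := by
      rw [Complex.norm_def, Complex.normSq_mk, pow_two, pow_two]
    refine ⟨Complex.arg ⟨a, b⟩, ?_, ?_⟩
    · rw [← hn, Complex.norm_mul_cos_arg]
    · rw [← hn, Complex.norm_mul_sin_arg]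
  set R := √(a ^ 2 + b ^ 2) with hR
  have h1 : rx t W x = Real.cos t • x + Real.sin t • r := by
    rw [rx_of_cube hW.cube]
    simp only [ContinuousLinearMap.add_apply, ContinuousLinearMap.smul_apply,
      ContinuousLinearMap.mul_apply, ContinuousLinearMap.one_apply]
    rw [hWx, hWr, smul_neg, sub_smul, one_smul]
    abel
  have h2 : rx t W (R • x + h) = b • r + a • x + h := by
    rw [map_add, map_smul, h1, rx_apply_of_ker hWh, smul_add, smul_smul, smul_smul, ht1, ht2,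
      add_comm (a • x)]
  rw [← h2, hs.norm_rx]

theorem pyth (hN : RNice E) (hF : RFrame p 𝓛) (hne : ∀ i, ∃ z, p i z = z ∧ z ≠ 0)
    (hij : i ≠ j) (hik : i ≠ k) (hjk : j ≠ k) {f g h : E} (hf : p i f = f) (hg : p j g = g)
    (hh : p k h = h) : ‖f + g + h‖ ^ 2 = ‖f‖ ^ 2 + ‖g‖ ^ 2 + ‖h‖ ^ 2 := by
  obtain ⟨r, hr, hr1, hfr⟩ := unit_of hne hf
  obtain ⟨x, hx, hx1, hgx⟩ := unit_of hne hg
  obtain ⟨q, hq, hq1, hhq⟩ := unit_of hne hh
  have h1 := rot hN hF hne hij hik hjk hx hr hh hx1 hr1 ‖g‖ ‖f‖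
  rw [← hfr, ← hgx] at h1
  have h2 := rot hN hF hne hjk.symm hik.symm hij.symm hx hq (map_zero (p i)) hx1 hq1
    √(‖g‖ ^ 2 + ‖f‖ ^ 2) ‖h‖
  rw [← hhq, add_zero, add_zero, add_comm h] at h2
  rw [h1, h2, norm_smul, hx1, mul_one, Real.norm_eq_abs, sq_abs, Real.sq_sqrt (by positivity),
    Real.sq_sqrt (by positivity)]
  ring

theorem par_of_frame (hN : RNice E) (hF : RFrame p 𝓛) (hne : ∀ i, ∃ z, p i z = z ∧ z ≠ 0)
    (x y : E) : ‖x + y‖ ^ 2 + ‖x - y‖ ^ 2 = 2 * (‖x‖ ^ 2 + ‖y‖ ^ 2) := by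
  have h01 : (0 : Fin 3) ≠ 1 := by decide
  have h02 : (0 : Fin 3) ≠ 2 := by decide
  have h12 : (1 : Fin 3) ≠ 2 := by decide
  have key : ∀ z : E, ‖z‖ ^ 2 = ‖p 0 z‖ ^ 2 + ‖p 1 z‖ ^ 2 + ‖p 2 z‖ ^ 2 := by
    intro z
    have h := pyth hN hF hne h01 h02 h12 (hF.idem_apply (i := 0) z) (hF.idem_apply (i := 1) z)
      (hF.idem_apply (i := 2) z)
    rw [← hF.decomp h01 h02 h12 z] at h
    exact h
  have hb : ∀ i : Fin 3, ‖p i (x + y)‖ ^ 2 + ‖p i (x - y)‖ ^ 2 =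
      2 * (‖p i x‖ ^ 2 + ‖p i y‖ ^ 2) := by
    intro i
    rw [map_add, map_sub]
    exact block_par hN hF hne (hF.idem_apply x) (hF.idem_apply y)
  have h0 := hb 0
  have h1 := hb 1
  have h2 := hb 2
  rw [key (x + y), key (x - y), key x, key y]
  linarith

end Pool.Agent.Helper61.RO
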