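import Pool.Agent.Helper61.RO.FrameA
import Pool.Agent.Helper61.RO.RQuad

/-!
# RO-26  Case (alpha)

PROOF. `par_of_frame` for `frame_of_alpha` and `pa_ne`.
-/

set_option autoImplicit false

open Filter Topology

namespace Pool.Agent.Helper61.RO

universe u

variable {E : Type u} [NormedAddCommGroup E] [NormedSpace ℝ E] [CompleteSpace E]
  [TopologicalSpace.SeparableSpace E] {D₁ D₂ : E →L[ℝ] E}

theorem par_of_alpha (hN : RNice E) (htr : RTrans E) (h : AlphaData D₁ D₂) (x y : E) :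
    ‖x + y‖ ^ 2 + ‖x - y‖ ^ 2 = 2 * (‖x‖ ^ 2 + ‖y‖ ^ 2) :=
  par_of_frame hN (frame_of_alpha hN htr h) (pa_ne h) x y

end Pool.Agent.Helper61.RO
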