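import Pool.Agent.Helper61.RO.Joint

/-!
# RO-76  Tripotents with largest weight one

PROOFS.
* `cub3`: `S = lie w w'` has the weights `- 1, 0, 1`: `S = p 1 - p (-1)` (`Grad.sum`, `eig`), `S * S * S = S`, so `cx a = i S` satisfies `cx a ^ 3 = - cx a`, and `a ≠ 0` as `S ≠ 0` (`top`). (`cx_mul`, `cx_inj`.)
* `alpha_pair`: `S S' = ∑ i j (p i q j)` over `i, j ∈ {-1, 0, 1}`, all terms are `0` by `joint` (`|i| + |j| > 1` if `i, j ≠ 0`); the same for `S' S`.
-/

set_option autoImplicit false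

open Filter Topology

namespace Pool.Agent.Helper61.RO

universe u

variable {E : Type u} [NormedAddCommGroup E] [NormedSpace ℝ E] [CompleteSpace E]
  {𝔠 : Set (E →L[ℝ] E)} {w w' e e₁ f f₁ : Cx E →L[ℂ] Cx E} {M' : ℕ}
  {p q r : ℤ → Cx E →L[ℂ] Cx E} {a b c a' b' c' : E →L[ℝ] E}

omit [CompleteSpace E] in
private theorem icc_one (g : ℤ → Cx E →L[ℂ] Cx E) :
    ∑ j ∈ Finset.Icc (-((1 : ℕ) : ℤ)) ((1 : ℕ) : ℤ), g j = g (-1) + g 0 + g 1 := by
  have h1 : Finset.Icc (-((1 : ℕ) : ℤ)) ((1 : ℕ) : ℤ) = {-1, 0, 1} := by decide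
  rw [h1, Finset.sum_insert (by decide), Finset.sum_insert (by decide), Finset.sum_singleton]
  abel

omit [CompleteSpace E] in
/-- `S = p 1 - p (-1)` -/
private theorem spec_eq (hs : Spec w w' 1 p) : HP.lie w w' = p 1 - p (-1) := by
  have h1 := hs.grad.sum
  rw [icc_one] at h1
  have h2 : HP.lie w w' = HP.lie w w' * (p (-1) + p 0 + p 1) := by rw [h1, mul_one]
  rw [h2, mul_add, mul_add, hs.grad.eig, hs.grad.eig, hs.grad.eig]
  push_cast
  rw [zero_smul, one_smul, neg_smul, one_smul]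
  abel

omit [CompleteSpace E] in
private theorem spec_cube (hs : Spec w w' 1 p) :
    HP.lie w w' * HP.lie w w' * HP.lie w w' = HP.lie w w' := by
  have h1 := spec_eq hs
  have h2 : HP.lie w w' * HP.lie w w' = p 1 + p (-1) := by
    nth_rewrite 2 [h1]
    rw [mul_sub, hs.grad.eig, hs.grad.eig]
    push_cast
    rw [one_smul, neg_smul, one_smul, sub_neg_eq_add]
  rw [h2]
  nth_rewrite 1 [h1]
  rw [add_mul, mul_sub, mul_sub, hs.grad.idem, hs.grad.idem, hs.grad.orth 1 (-1) (by decide),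
    hs.grad.orth (-1) 1 (by decide), h1]
  abel

omit [CompleteSpace E] in
private theorem spec_ne (hs : Spec w w' 1 p) : HP.lie w w' ≠ 0 := by
  intro h
  have h1 := hs.grad.eig 1
  rw [h, zero_mul] at h1
  push_cast at h1
  rw [one_smul] at h1
  apply hs.top
  rw [Nat.cast_one]
  exact h1.symm

omit [CompleteSpace E] in
theorem Spec.cub3 (hs : Spec w w' 1 p) (ht : Tri w w' a b c) (ha : Sk a) : Cub3 a := by
  have hI : Complex.I * (Complex.I * Complex.I) = -Complex.I := by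
    rw [Complex.I_mul_I]
    ring
  refine ⟨ha, ?_, ?_⟩
  · apply cx_inj
    rw [cx_neg, cx_mul, cx_mul, ht.ea]
    simp only [smul_mul_assoc, mul_smul_comm, smul_smul]
    rw [spec_cube hs, hI, neg_smul]
  · intro h
    have h1 := ht.ea
    rw [h, cx_zero] at h1
    exact spec_ne hs ((smul_eq_zero.mp h1.symm).resolve_left Complex.I_ne_zero)

theorem alpha_pair (hN : RNice E) (h𝔠 : RLie 𝔠) (he : TT 𝔠 e e₁) (hf : TT 𝔠 f f₁)
    (ho : Orth e e₁ f f₁) (hse : Spec e e₁ 1 p) (hsf : Spec f f₁ 1 q)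
    (hsef : Spec (e + f) (e₁ + f₁) M' r) (hM : M' ≤ 1) (hte : Tri e e₁ a b c)
    (htf : Tri f f₁ a' b' c') : Cub3 a ∧ Cub3 a' ∧ a * a' = 0 ∧ a' * a = 0 := by
  have ha : Sk a := by
    have h := hse.grad.herm
    unfold Sk
    rw [hte.ea]
    exact h
  have ha' : Sk a' := by
    have h := hsf.grad.herm
    unfold Sk
    rw [htf.ea]
    exact h
  obtain ⟨j1, j2, -⟩ := joint hN h𝔠 he hf ho hse hsf hsef hM
  have key : ∀ i j : ℤ, |i| = 1 → |j| = 1 → p i * q j = 0 := by
    intro i j hi hj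
    apply j2
    rw [hi, hj]
    norm_num
  have h1 : HP.lie e e₁ * HP.lie f f₁ = 0 := by
    rw [spec_eq hse, spec_eq hsf, sub_mul, mul_sub, mul_sub, key 1 1 (by norm_num) (by norm_num),
      key 1 (-1) (by norm_num) (by norm_num), key (-1) 1 (by norm_num) (by norm_num),
      key (-1) (-1) (by norm_num) (by norm_num), sub_self]
  have h2 : HP.lie f f₁ * HP.lie e e₁ = 0 := by
    rw [spec_eq hse, spec_eq hsf, sub_mul, mul_sub, mul_sub, ← j1, ← j1, ← j1, ← j1,
      key 1 1 (by norm_num) (by norm_num),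
      key 1 (-1) (by norm_num) (by norm_num), key (-1) 1 (by norm_num) (by norm_num),
      key (-1) (-1) (by norm_num) (by norm_num), sub_self]
  refine ⟨hse.cub3 hte ha, hsf.cub3 htf ha', ?_, ?_⟩
  · apply cx_inj
    rw [cx_mul, hte.ea, htf.ea, smul_mul_assoc, mul_smul_comm, h1, smul_zero, smul_zero, cx_zero]
  · apply cx_inj
    rw [cx_mul, hte.ea, htf.ea, smul_mul_assoc, mul_smul_comm, h2, smul_zero, smul_zero, cx_zero]

end Pool.Agent.Helper61.RO
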