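import Pool.Agent.Helper61.RO.Defs

/-!
# RO-03  The real exponentials `rx t D = exp (t D)`

The same statements as in `HP/ExpApi.lean` (and `HP/Rot.lean`) with real scalars; the proofs can be copied (replace
`((t : ℝ) : ℂ) • D` by `t • D`).

* `rx_of_cube`: `f t = 1 + sin t D + (1 - cos t) D D` satisfies `f 0 = 1`, `f' t = cos t D + sin t D D = D f t` (as
  `D D D = - D`), so the derivative of `rx (-t) D * f t` vanishes (compare `Trip.ex_eq` in `HP/Rot.lean`).
-/

set_option autoImplicit false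

open Filter Topology

namespace Pool.Agent.Helper61.RO

universe u

variable {E : Type u} [NormedAddCommGroup E] [NormedSpace ℝ E] [CompleteSpace E]

/-- the algebra of operators as an algebra over the rationals -/
private noncomputable local instance rxApiRat : NormedAlgebra ℚ (E →L[ℝ] E) :=
  NormedAlgebra.restrictScalars ℚ ℝ (E →L[ℝ] E)

theorem rx_zero (D : E →L[ℝ] E) : rx 0 D = 1 := by
  unfold rx
  rw [zero_smul, NormedSpace.exp_zero]

theorem rx_add_op {A B : E →L[ℝ] E} (h : A * B = B * A) (t : ℝ) :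
    rx t (A + B) = rx t A * rx t B := by
  unfold rx
  rw [smul_add]
  have hc : Commute A B := h
  exact NormedSpace.exp_add_of_commute ((hc.smul_left _).smul_right _)

theorem rx_add (s t : ℝ) (D : E →L[ℝ] E) : rx (s + t) D = rx s D * rx t D := by
  unfold rx
  rw [add_smul]
  exact NormedSpace.exp_add_of_commute (((Commute.refl D).smul_left _).smul_right _)

theorem rx_mul_neg (t : ℝ) (D : E →L[ℝ] E) : rx t D * rx (-t) D = 1 := by
  rw [← rx_add, add_neg_cancel, rx_zero]

theorem rx_neg_mul (t : ℝ) (D : E →L[ℝ] E) : rx (-t) D * rx t D = 1 := by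
  rw [← rx_add, neg_add_cancel, rx_zero]

theorem rx_neg_op (t : ℝ) (D : E →L[ℝ] E) : rx t (-D) = rx (-t) D := by
  unfold rx
  rw [smul_neg, neg_smul]

theorem rx_smul_op (s t : ℝ) (D : E →L[ℝ] E) : rx t (s • D) = rx (t * s) D := by
  unfold rx
  rw [smul_smul]

theorem rx_comm {A D : E →L[ℝ] E} (h : A * D = D * A) (t : ℝ) : A * rx t D = rx t D * A := by
  unfold rx
  have h2 : SemiconjBy A (t • D) (t • D) := by
    unfold SemiconjBy
    rw [mul_smul_comm, smul_mul_assoc, h]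
  exact h2.exp_right

theorem rx_anti {A D : E →L[ℝ] E} (h : A * D = -(D * A)) (t : ℝ) :
    A * rx t D = rx (-t) D * A := by
  unfold rx
  have h2 : SemiconjBy A (t • D) ((-t) • D) := by
    unfold SemiconjBy
    rw [mul_smul_comm, smul_mul_assoc, h, neg_smul, smul_neg]
  exact h2.exp_right

theorem rx_hasSum (t : ℝ) (D : E →L[ℝ] E) :
    HasSum (fun n : ℕ => ((n.factorial : ℝ)⁻¹) • (t • D) ^ n) (rx t D) := by
  unfold rx
  exact NormedSpace.exp_series_hasSum_exp' (t • D)

theorem rx_apply_of_ker {D : E →L[ℝ] E} {x : E} (h : D x = 0) (t : ℝ) : rx t D x = x := by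
  have h1 := (ContinuousLinearMap.apply ℝ E x).hasSum (rx_hasSum t D)
  have h2 : ∀ n : ℕ, n ≠ 0 → (ContinuousLinearMap.apply ℝ E x)
      (((n.factorial : ℝ)⁻¹) • (t • D) ^ n) = 0 := by
    intro n hn
    obtain ⟨m, rfl⟩ := Nat.exists_eq_succ_of_ne_zero hn
    rw [pow_succ]
    change ((((m + 1).factorial : ℝ))⁻¹) • (((t • D) ^ m) (t • D x)) = 0
    rw [h, smul_zero, map_zero, smul_zero]
  have h3 := h1.unique (hasSum_single 0 h2)
  rw [ContinuousLinearMap.apply_apply, ContinuousLinearMap.apply_apply] at h3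
  rw [h3]
  simp

theorem rx_hasDerivAt (D : E →L[ℝ] E) (t : ℝ) :
    HasDerivAt (fun s : ℝ => rx s D) (D * rx t D) t := by
  unfold rx
  exact hasDerivAt_exp_smul_const' (𝕂 := ℝ) D t

/-- remainder of the exponential series -/
private theorem rx_remainder (D : E →L[ℝ] E) (t : ℝ) (k : ℕ) :
    ‖rx t D - ∑ i ∈ Finset.range k, ((i.factorial : ℝ)⁻¹) • (t • D) ^ i‖ ≤
      (|t| * ‖D‖) ^ k * Real.exp (|t| * ‖D‖) := by
  have h1 := (hasSum_nat_add_iff' k).2 (rx_hasSum t D)
  have hr : HasSum (fun n : ℕ => (|t| * ‖D‖) ^ n / n.factorial) (Real.exp (|t| * ‖D‖)) := by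
    rw [Real.exp_eq_exp_ℝ]
    exact NormedSpace.expSeries_div_hasSum_exp (|t| * ‖D‖)
  refine h1.norm_le_of_bounded (hr.mul_left ((|t| * ‖D‖) ^ k)) fun n => ?_
  have hy : ‖t • D‖ = |t| * ‖D‖ := by
    rw [norm_smul, Real.norm_eq_abs]
  rw [norm_smul, norm_inv, Real.norm_natCast]
  have h2 : ‖(t • D) ^ (n + k)‖ ≤ (|t| * ‖D‖) ^ (n + k) := by
    rcases Nat.eq_zero_or_pos (n + k) with h0 | h0
    · rw [h0, pow_zero, pow_zero]
      exact ContinuousLinearMap.norm_id_le
    · have h2 := norm_pow_le' (t • D) h0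
      rwa [hy] at h2
  have h3 : ((n + k).factorial : ℝ)⁻¹ ≤ (n.factorial : ℝ)⁻¹ := by
    apply inv_anti₀ (by exact_mod_cast n.factorial_pos)
    exact_mod_cast Nat.factorial_le (Nat.le_add_right n k)
  calc ((n + k).factorial : ℝ)⁻¹ * ‖(t • D) ^ (n + k)‖
      ≤ (n.factorial : ℝ)⁻¹ * (|t| * ‖D‖) ^ (n + k) :=
        mul_le_mul h3 h2 (norm_nonneg _) (by positivity)
    _ = (|t| * ‖D‖) ^ k * ((|t| * ‖D‖) ^ n / n.factorial) := by
        rw [pow_add]
        ring

theorem rx_taylor (D : E →L[ℝ] E) (t : ℝ) :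
    ‖rx t D - 1 - t • D‖ ≤ t ^ 2 * ‖D‖ ^ 2 * Real.exp (|t| * ‖D‖) := by
  have h := rx_remainder D t 2
  have e : rx t D - 1 - t • D =
      rx t D - ∑ i ∈ Finset.range 2, ((i.factorial : ℝ)⁻¹) • (t • D) ^ i := by
    simp [Finset.sum_range_succ]
    abel
  rw [e]
  refine h.trans (le_of_eq ?_)
  rw [mul_pow, sq_abs]

theorem rx_taylor_two (D : E →L[ℝ] E) (t : ℝ) :
    ‖rx t D - 1 - t • D - (t ^ 2 / 2) • (D * D)‖ ≤
      |t| ^ 3 * ‖D‖ ^ 3 * Real.exp (|t| * ‖D‖) := by
  have h := rx_remainder D t 3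
  have e : rx t D - 1 - t • D - (t ^ 2 / 2) • (D * D) =
      rx t D - ∑ i ∈ Finset.range 3, ((i.factorial : ℝ)⁻¹) • (t • D) ^ i := by
    have e2 : (t ^ 2 / 2) • (D * D) = ((Nat.factorial 2 : ℕ) : ℝ)⁻¹ • (t • D) ^ 2 := by
      rw [smul_pow, smul_smul, pow_two D]
      congr 1
      push_cast [Nat.factorial]
      ring
    rw [Finset.sum_range_succ, Finset.sum_range_succ, Finset.sum_range_succ, Finset.sum_range_zero,
      e2]
    simp
    abel
  rw [e]
  refine h.trans (le_of_eq ?_)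
  rw [mul_pow]

theorem rx_conj {S S' : E →L[ℝ] E} (h : S' * S = 1) (h' : S * S' = 1) (t : ℝ) (D : E →L[ℝ] E) :
    S * rx t D * S' = rx t (S * D * S') := by
  unfold rx
  have h1 := NormedSpace.exp_units_conj (⟨S, S', h', h⟩ : (E →L[ℝ] E)ˣ) (t • D)
  have h2 : t • (S * D * S') = S * (t • D) * S' := by
    rw [mul_smul_comm, smul_mul_assoc]
  rw [h2]
  exact h1.symm

theorem mul_rx_of_zero {A B : E →L[ℝ] E} (h : A * B = 0) (t : ℝ) : A * rx t B = A := by
  have hd : ∀ s : ℝ, HasDerivAt (fun s : ℝ => A * rx s B) 0 s := by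
    intro s
    have h1 := (rx_hasDerivAt B s).const_mul A
    rwa [← mul_assoc, h, zero_mul] at h1
  have h2 := is_const_of_deriv_eq_zero (fun s => (hd s).differentiableAt)
    (fun s => (hd s).deriv) t 0
  rwa [rx_zero, mul_one] at h2

theorem rx_mul_of_zero {A B : E →L[ℝ] E} (h : B * A = 0) (t : ℝ) : rx t B * A = A := by
  ext x
  have h1 : B (A x) = 0 := DFunLike.congr_fun h x
  exact rx_apply_of_ker h1 t

theorem rx_of_cube {D : E →L[ℝ] E} (h : D * D * D = -D) (t : ℝ) :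
    rx t D = 1 + Real.sin t • D + (1 - Real.cos t) • (D * D) := by
  set f : ℝ → E →L[ℝ] E := fun t =>
    1 + Real.sin t • D + (1 - Real.cos t) • (D * D) with hf
  have hWf : ∀ s, D * f s = Real.cos s • D + Real.sin s • (D * D) := by
    intro s
    simp only [hf, mul_add, mul_smul_comm, mul_one]
    rw [← mul_assoc, h, smul_neg, sub_smul, one_smul]
    abel
  have hd : ∀ s, HasDerivAt f (D * f s) s := by
    intro s
    have h1 := ((Real.hasDerivAt_cos s).const_sub 1).smul_const (D * D)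
    have h2 := (Real.hasDerivAt_sin s).smul_const D
    rw [hWf]
    have h3 := (h2.const_add (1 : E →L[ℝ] E)).add h1
    rw [neg_neg] at h3
    exact h3
  have hg : ∀ s, HasDerivAt (fun s : ℝ => rx (-s) D * f s) 0 s := by
    intro s
    have h1 : HasDerivAt (fun s : ℝ => rx (-s) D) (-(D * rx (-s) D)) s := by
      have h3 := (rx_hasDerivAt D (-s)).scomp s (hasDerivAt_neg s)
      rwa [neg_one_smul] at h3
    have h2 := h1.mul (hd s)
    have h3 : -(D * rx (-s) D) * f s + rx (-s) D * (D * f s) = 0 := by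
      rw [rx_comm (A := D) (D := D) rfl, neg_mul, mul_assoc, neg_add_cancel]
    rwa [h3] at h2
  have h2 := is_const_of_deriv_eq_zero (fun s => (hg s).differentiableAt)
    (fun s => (hg s).deriv) t 0
  have hf0 : f 0 = 1 := by
    simp [hf]
  simp only [neg_zero, rx_zero, one_mul, hf0] at h2
  calc rx t D = rx t D * (rx (-t) D * f t) := by rw [h2, mul_one]
    _ = f t := by rw [← mul_assoc, rx_mul_neg, one_mul]

theorem rx_pi_of_cube {D : E →L[ℝ] E} (h : D * D * D = -D) :
    rx Real.pi D = 1 + (2 : ℝ) • (D * D) := by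
  rw [rx_of_cube h, Real.sin_pi, Real.cos_pi, zero_smul, add_zero]
  norm_num

theorem rx_pi_div_two_of_cube {D : E →L[ℝ] E} (h : D * D * D = -D) :
    rx (Real.pi / 2) D = 1 + D + D * D := by
  rw [rx_of_cube h, Real.sin_pi_div_two, Real.cos_pi_div_two, one_smul, sub_zero, one_smul]

private theorem norm_rx_le (D : E →L[ℝ] E) (t : ℝ) : ‖rx t D‖ ≤ Real.exp (|t| * ‖D‖) := by
  have h := rx_remainder D t 0
  rwa [Finset.sum_range_zero, sub_zero, pow_zero, one_mul] at h

/-- continuity of the exponential on bounded sets -/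
theorem norm_rx_sub_le (A B : E →L[ℝ] E) (t : ℝ) :
    ‖rx t A - rx t B‖ ≤ |t| * ‖A - B‖ * Real.exp (|t| * (‖A‖ + ‖B‖)) := by
  set g : ℝ → E →L[ℝ] E := fun s => rx (s * t) A * rx ((1 - s) * t) B with hg
  set g' : ℝ → E →L[ℝ] E := fun s => t • (rx (s * t) A * (A - B) * rx ((1 - s) * t) B) with hg'
  have hd : ∀ s, HasDerivAt g (g' s) s := by
    intro s
    have h1 : HasDerivAt (fun s : ℝ => rx (s * t) A) (t • (A * rx (s * t) A)) s := by
      have h0 : HasDerivAt (fun s : ℝ => s * t) t s := by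
        simpa using (hasDerivAt_id s).mul_const t
      exact (rx_hasDerivAt A (s * t)).scomp s h0
    have h2 : HasDerivAt (fun s : ℝ => rx ((1 - s) * t) B) ((-t) • (B * rx ((1 - s) * t) B)) s := by
      have h0 : HasDerivAt (fun s : ℝ => (1 - s) * t) (-t) s := by
        simpa using ((hasDerivAt_id s).const_sub 1).mul_const t
      exact (rx_hasDerivAt B ((1 - s) * t)).scomp s h0
    have h3 := h1.mul h2
    refine h3.congr_deriv ?_
    change _ = t • (rx (s * t) A * (A - B) * rx ((1 - s) * t) B)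
    rw [rx_comm (A := A) (D := A) rfl, neg_smul, mul_neg, smul_mul_assoc, mul_smul_comm,
      ← sub_eq_add_neg, ← smul_sub, mul_sub (rx (s * t) A), sub_mul (rx (s * t) A * A),
      mul_assoc (rx (s * t) A) B]
  have hb : ∀ s ∈ Set.Ico (0 : ℝ) 1,
      ‖g' s‖ ≤ |t| * ‖A - B‖ * Real.exp (|t| * (‖A‖ + ‖B‖)) := by
    intro s hs
    have h1 : ‖rx (s * t) A‖ ≤ Real.exp (|t| * ‖A‖) := by
      refine (norm_rx_le A (s * t)).trans (Real.exp_le_exp.2 ?_)
      rw [abs_mul, abs_of_nonneg hs.1]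
      have h5 : s * |t| ≤ 1 * |t| := mul_le_mul_of_nonneg_right hs.2.le (abs_nonneg t)
      rw [one_mul] at h5
      exact mul_le_mul_of_nonneg_right h5 (norm_nonneg A)
    have h2 : ‖rx ((1 - s) * t) B‖ ≤ Real.exp (|t| * ‖B‖) := by
      refine (norm_rx_le B ((1 - s) * t)).trans (Real.exp_le_exp.2 ?_)
      rw [abs_mul, abs_of_nonneg (by linarith [hs.2] : (0 : ℝ) ≤ 1 - s)]
      have h5 : (1 - s) * |t| ≤ 1 * |t| :=
        mul_le_mul_of_nonneg_right (by linarith [hs.1]) (abs_nonneg t)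
      rw [one_mul] at h5
      exact mul_le_mul_of_nonneg_right h5 (norm_nonneg B)
    have h3 : ‖rx (s * t) A * (A - B) * rx ((1 - s) * t) B‖ ≤
        Real.exp (|t| * ‖A‖) * ‖A - B‖ * Real.exp (|t| * ‖B‖) := by
      refine (norm_mul_le _ _).trans ?_
      refine mul_le_mul ((norm_mul_le _ _).trans ?_) h2 (norm_nonneg _) (by positivity)
      exact mul_le_mul_of_nonneg_right h1 (norm_nonneg _)
    calc ‖g' s‖ = |t| * ‖rx (s * t) A * (A - B) * rx ((1 - s) * t) B‖ := by
          rw [hg', norm_smul, Real.norm_eq_abs]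
      _ ≤ |t| * (Real.exp (|t| * ‖A‖) * ‖A - B‖ * Real.exp (|t| * ‖B‖)) :=
          mul_le_mul_of_nonneg_left h3 (abs_nonneg t)
      _ = |t| * ‖A - B‖ * Real.exp (|t| * (‖A‖ + ‖B‖)) := by
          rw [mul_add |t|, Real.exp_add]
          ring
  have h1 := norm_image_sub_le_of_norm_deriv_le_segment_01'
    (fun s _ => (hd s).hasDerivWithinAt) hb
  have e1 : g 1 = rx t A := by
    simp only [hg, one_mul, sub_self, zero_mul, rx_zero, mul_one]
  have e0 : g 0 = rx t B := by
    simp only [hg, zero_mul, sub_zero, one_mul, rx_zero]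
  rwa [e1, e0] at h1

end Pool.Agent.Helper61.RO
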