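import Pool.Agent.Helper61.RO.CxRefl
import Pool.Agent.Helper61.RO.RxApi
import Pool.Agent.Helper61.HP.SkewConj
import Pool.Agent.Helper61.HO.HermNorm

/-!
# RO-04  Skew operators of a real Banach space

`Sk D` means that `cx D` is skew in the sense of project HP (`HP.Skew`, in the complex Banach space `Cx E`).

PROOFS.
* `Sk.zero`, `add`, `neg`, `sub`, `smul`, `br`: the corresponding statements of HP (`Skew.add`, ..., `Skew.lie`) and
  `cx_add`, ..., `cx_mul`.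
* `Sk.norm_rx`: `Skew.norm_ex` for `cx D` and the vector `io x`, `cx_rx`, `cx_io`, `norm_io`.
* `sk_of_norm_rx`: the `rx t D` are surjective isometries (`rx_mul_neg`), so for `x : Cx E`:
  `‖ex t (cx D) x‖ = ‖cx (rx t D) x‖ ≤ ‖cx (rx t D)‖ ‖x‖ = ‖rx t D‖ ‖x‖ ≤ ‖x‖` (`norm_cx`); `skew_of_norm_ex`.
* `Sk.iso`: the isometry `rx t D` with inverse `rx (-t) D`.
* `Sk.cj`: `Skew.conj` with `S = cx T`, `norm_cx_iso`. `Sk.conj_rx`: `Skew.conj_ex`.
* `Sk.apply_norming`: `ev φ` is norming for `io x` (`norm_ev_le`, `ev_io`, `norm_io`).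
* `Sk.sq_nonpos`: `1/2 (rx t D + rx (-t) D) = 1 + (t²/2) D D + O(t³)` (`rx_taylor_two` for `t` and `-t`) maps `x` to a vector
  of norm `≤ ‖x‖`, so `‖x‖ ≥ φ(...) = ‖x‖ + (t²/2) φ (D D x) - C |t|³`. Divide by `t²`, `t → 0`.
* `Sk.ker_sq`: `rx t D x = x + t D x` by the series, has norm `‖x‖` for all `t`, so `D x = 0`.
* `Sk.ulim`: `RULim.cx`, `Skew.ulim`. `sk_closed`: `rulim_of_tendsto`.
* `Sk.semisimple`: if `D (D² + k²)² y = 0` then `D (D² + k²) y = 0`: it is enough to show: `(D² + k²)² z = 0` implies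
  `(D² + k²) z = 0` (`k ≠ 0`). Let `w = (D² + k²) z`, `(D² + k²) w = 0`. On the span of `z, Dz, w, Dw` the group `rx t D` is
  explicit and `rx t D z` contains the unbounded term `(t / (2 k)) sin(k t) w ...` unless `w = 0`. Alternative (shorter): in
  `Cx E` the operator `H = i cx D` is hermitian and `(H - k)² u = 0` implies `(H - k) u = 0` (`HP.herm_sq_ker` applied to
  the hermitian operator `H - k`), and `(D² + k²) = - (H - k) (H + k)`.
-/

set_option autoImplicit false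

open Filter Topology

namespace Pool.Agent.Helper61.RO

universe u

variable {E : Type u} [NormedAddCommGroup E] [NormedSpace ℝ E] [CompleteSpace E]
  {A B D K : E →L[ℝ] E}

theorem Sk.zero : Sk (0 : E →L[ℝ] E) := by
  unfold Sk
  rw [cx_zero]
  exact HP.Skew.zero

theorem Sk.add (hA : Sk A) (hB : Sk B) : Sk (A + B) := by
  unfold Sk at *
  rw [cx_add]
  exact HP.Skew.add hA hB

theorem Sk.neg (hA : Sk A) : Sk (-A) := by
  unfold Sk at *
  rw [cx_neg]
  exact HP.Skew.neg hA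

theorem Sk.sub (hA : Sk A) (hB : Sk B) : Sk (A - B) := by
  unfold Sk at *
  rw [cx_sub]
  exact HP.Skew.sub hA hB

theorem Sk.smul (hA : Sk A) (t : ℝ) : Sk (t • A) := by
  unfold Sk at *
  rw [cx_smul]
  exact HP.Skew.smul hA t

theorem Sk.br (hA : Sk A) (hB : Sk B) : Sk (br A B) := by
  unfold Sk at *
  unfold RO.br
  rw [cx_sub, cx_mul, cx_mul]
  exact HP.Skew.lie hA hB

theorem Sk.norm_rx (hD : Sk D) (t : ℝ) (x : E) : ‖rx t D x‖ = ‖x‖ := by
  rw [← norm_io (rx t D x), ← cx_io, cx_rx, HP.Skew.norm_ex hD, norm_io]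

theorem Sk.norm_rx_le (hD : Sk D) (t : ℝ) : ‖rx t D‖ ≤ 1 := by
  refine ContinuousLinearMap.opNorm_le_bound _ zero_le_one fun x => ?_
  rw [one_mul]
  exact (hD.norm_rx t x).le

theorem sk_of_norm_rx (h : ∀ (t : ℝ) (x : E), ‖rx t D x‖ = ‖x‖) : Sk D := by
  unfold Sk
  refine HP.skew_of_norm_ex fun t x => ?_
  rw [← cx_rx]
  refine (ContinuousLinearMap.le_opNorm _ x).trans ?_
  rw [norm_cx]
  have h1 : ‖rx t D‖ ≤ 1 := by
    refine ContinuousLinearMap.opNorm_le_bound _ zero_le_one fun x => ?_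
    rw [one_mul]
    exact (h t x).le
  calc ‖rx t D‖ * ‖x‖ ≤ 1 * ‖x‖ := mul_le_mul_of_nonneg_right h1 (norm_nonneg x)
    _ = ‖x‖ := one_mul _

/-- an isometry from an isometric operator with an inverse -/
private theorem exists_iso {S S' : E →L[ℝ] E} (h : S' * S = 1) (h' : S * S' = 1)
    (hn : ∀ x, ‖S x‖ = ‖x‖) : ∃ T : E ≃ₗᵢ[ℝ] E, (∀ x, T x = S x) ∧ ∀ x, T.symm x = S' x := by
  have e1 : ∀ x, S' (S x) = x := fun x => by
    have := congrArg (fun f : E →L[ℝ] E => f x) h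
    simpa using this
  have e2 : ∀ x, S (S' x) = x := fun x => by
    have := congrArg (fun f : E →L[ℝ] E => f x) h'
    simpa using this
  let e : E ≃ₗ[ℝ] E := LinearEquiv.ofLinear (S : E →ₗ[ℝ] E) (S' : E →ₗ[ℝ] E)
    (by ext x; exact e2 x) (by ext x; exact e1 x)
  exact ⟨⟨e, fun x => hn x⟩, fun x => rfl, fun x => rfl⟩

theorem Sk.iso (hD : Sk D) (t : ℝ) :
    ∃ T : E ≃ₗᵢ[ℝ] E, (∀ x, T x = rx t D x) ∧ ∀ x, T.symm x = rx (-t) D x :=
  exists_iso (rx_neg_mul t D) (rx_mul_neg t D) (hD.norm_rx t)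

theorem cj_apply (T : E ≃ₗᵢ[ℝ] E) (D : E →L[ℝ] E) (x : E) : cj T D x = T (D (T.symm x)) := by
  rfl

theorem cj_add (T : E ≃ₗᵢ[ℝ] E) (A B : E →L[ℝ] E) : cj T (A + B) = cj T A + cj T B := by
  ext x
  simp [cj_apply]

theorem cj_smul (T : E ≃ₗᵢ[ℝ] E) (t : ℝ) (A : E →L[ℝ] E) : cj T (t • A) = t • cj T A := by
  ext x
  simp [cj_apply]

theorem cj_mul (T : E ≃ₗᵢ[ℝ] E) (A B : E →L[ℝ] E) : cj T (A * B) = cj T A * cj T B := by
  ext x
  simp [cj_apply]

theorem cj_symm (T : E ≃ₗᵢ[ℝ] E) (A : E →L[ℝ] E) : cj T.symm (cj T A) = A := by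
  ext x
  simp [cj_apply]

theorem cj_trans (T S : E ≃ₗᵢ[ℝ] E) (A : E →L[ℝ] E) : cj (T.trans S) A = cj S (cj T A) := by
  ext x
  simp [cj_apply]

private theorem norm_cj_le (T : E ≃ₗᵢ[ℝ] E) (A : E →L[ℝ] E) : ‖cj T A‖ ≤ ‖A‖ := by
  refine ContinuousLinearMap.opNorm_le_bound _ (norm_nonneg _) fun x => ?_
  rw [cj_apply, T.norm_map]
  have h := A.le_opNorm (T.symm x)
  rwa [T.symm.norm_map] at h

theorem norm_cj (T : E ≃ₗᵢ[ℝ] E) (A : E →L[ℝ] E) : ‖cj T A‖ = ‖A‖ := by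
  refine le_antisymm (norm_cj_le T A) ?_
  have h := norm_cj_le T.symm (RO.cj T A)
  rwa [cj_symm] at h

theorem Sk.cj (hD : Sk D) (T : E ≃ₗᵢ[ℝ] E) : Sk (cj T D) := by
  unfold Sk at *
  unfold RO.cj
  rw [cx_mul, cx_mul]
  refine HP.Skew.conj hD ?_ ?_ (norm_cx_iso T)
  · rw [← cx_mul, ← cx_one]
    congr 1
    ext x
    simp
  · rw [← cx_mul, ← cx_one]
    congr 1
    ext x
    simp

theorem Sk.conj_rx (hD : Sk D) (hK : Sk K) (s : ℝ) : Sk (rx s K * D * rx (-s) K) := by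
  unfold Sk at *
  rw [cx_mul, cx_mul, cx_rx, cx_rx]
  exact HP.Skew.conj_ex hD hK s

theorem Sk.norm_conj_le (hK : Sk K) (s : ℝ) (Z : E →L[ℝ] E) :
    ‖rx s K * Z * rx (-s) K‖ ≤ ‖Z‖ := by
  rw [← norm_cx, ← norm_cx Z, cx_mul, cx_mul, cx_rx, cx_rx]
  exact HP.Skew.norm_conj_le hK s (cx Z)

/-- conjugation by an isometric involution -/
theorem Sk.conj_inv {S : E →L[ℝ] E} (hD : Sk D) (hS : S * S = 1) (hn : ∀ x, ‖S x‖ = ‖x‖) :
    Sk (S * D * S) := by
  obtain ⟨T, hT, hT'⟩ := exists_iso hS hS hn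
  have h := hD.cj T
  have e : RO.cj T D = S * D * S := by
    ext x
    rw [cj_apply, hT, hT']
    rfl
  rwa [e] at h

theorem Sk.apply_norming (hD : Sk D) {x : E} {φ : StrongDual ℝ E} (hφ : RNorming φ x) :
    φ (D x) = 0 := by
  have h1 : HP.Norming (ev φ) (io x) := by
    refine ⟨(norm_ev_le φ).trans hφ.1, ?_⟩
    rw [ev_io, norm_io, hφ.2]
  have h2 := hD (io x) (ev φ) h1
  rw [cx_io, ev_io, Complex.ofReal_re] at h2
  exact h2

theorem Sk.sq_nonpos (hD : Sk D) {x : E} {φ : StrongDual ℝ E} (hφ : RNorming φ x) :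
    φ (D (D x)) ≤ 0 := by
  by_contra hcon
  push Not at hcon
  set a : ℝ := φ (D (D x)) with ha
  have hle : ∀ y : E, φ y ≤ ‖y‖ := fun y => by
    have h1 := φ.le_opNorm y
    have h2 : ‖φ‖ * ‖y‖ ≤ 1 * ‖y‖ := mul_le_mul_of_nonneg_right hφ.1 (norm_nonneg y)
    have h3 : φ y ≤ ‖φ y‖ := le_abs_self _
    linarith
  have hneg : ∀ y : E, -‖y‖ ≤ φ y := fun y => by
    have h1 := hle (-y)
    rw [map_neg, norm_neg] at h1
    linarith
  set C : ℝ := 2 * (‖D‖ ^ 3 * Real.exp ‖D‖ * ‖x‖) with hC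
  have hC0 : 0 ≤ C := by positivity
  have key : ∀ t : ℝ, 0 < t → t ≤ 1 → a ≤ t * C := by
    intro t ht0 ht1
    have hrem : ∀ s : ℝ, |s| = t → -(t ^ 3 * ‖D‖ ^ 3 * Real.exp ‖D‖ * ‖x‖) ≤
        φ (rx s D x) - φ x - s * φ (D x) - (s ^ 2 / 2) * a := by
      intro s hs
      have h1 := rx_taylor_two D s
      set R : E →L[ℝ] E := rx s D - 1 - s • D - (s ^ 2 / 2) • (D * D) with hR
      have h2 : φ (R x) = φ (rx s D x) - φ x - s * φ (D x) - (s ^ 2 / 2) * a := by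
        rw [hR]
        simp only [ContinuousLinearMap.sub_apply, ContinuousLinearMap.one_apply,
          ContinuousLinearMap.smul_apply, ContinuousLinearMap.mul_apply, map_sub, map_smul,
          smul_eq_mul]
        rfl
      rw [← h2]
      have h3 : ‖R x‖ ≤ t ^ 3 * ‖D‖ ^ 3 * Real.exp ‖D‖ * ‖x‖ := by
        refine (R.le_opNorm x).trans (mul_le_mul_of_nonneg_right ?_ (norm_nonneg x))
        refine h1.trans ?_
        rw [hs]
        refine mul_le_mul_of_nonneg_left (Real.exp_le_exp.mpr ?_) (by positivity)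
        calc t * ‖D‖ ≤ 1 * ‖D‖ := mul_le_mul_of_nonneg_right ht1 (norm_nonneg D)
          _ = ‖D‖ := one_mul _
      have h4 := hneg (R x)
      linarith
    have h5 := hrem t (abs_of_pos ht0)
    have h6 := hrem (-t) (by rw [abs_neg, abs_of_pos ht0])
    have h7 : φ (rx t D x) ≤ ‖x‖ := by
      have := hle (rx t D x)
      rwa [hD.norm_rx] at this
    have h8 : φ (rx (-t) D x) ≤ ‖x‖ := by
      have := hle (rx (-t) D x)
      rwa [hD.norm_rx] at this
    have h9 := hφ.2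
    have h10 : t ^ 2 * a ≤ t ^ 2 * (t * C) := by
      rw [hC]
      nlinarith
    exact le_of_mul_le_mul_left h10 (by positivity)
  have hC1 : 0 < 2 * (C + 1) := by linarith
  have ht : 0 < min 1 (a / (2 * (C + 1))) := lt_min one_pos (by positivity)
  have h1 := key _ ht (min_le_left _ _)
  have h2 : min 1 (a / (2 * (C + 1))) * C ≤ a / (2 * (C + 1)) * C :=
    mul_le_mul_of_nonneg_right (min_le_right _ _) hC0
  have h3 : a / (2 * (C + 1)) * C < a := by
    rw [div_mul_eq_mul_div, div_lt_iff₀ hC1]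
    nlinarith
  linarith

private theorem herm_cx (hD : Sk D) : HP.Herm (Complex.I • cx D) := by
  unfold HP.Herm
  rw [smul_smul, Complex.I_mul_I, neg_one_smul]
  exact HP.Skew.neg hD

theorem Sk.ker_sq (hD : Sk D) {x : E} (h : D (D x) = 0) : D x = 0 := by
  have h1 : (Complex.I • cx D) ((Complex.I • cx D) (io x)) = 0 := by
    rw [ContinuousLinearMap.smul_apply, ContinuousLinearMap.smul_apply, map_smul, cx_io, cx_io, h,
      io_zero, smul_zero, smul_zero]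
  have h2 := HP.herm_sq_ker (herm_cx hD) h1
  rw [ContinuousLinearMap.smul_apply, cx_io] at h2
  have h3 : io (D x) = 0 := (smul_eq_zero.1 h2).resolve_left Complex.I_ne_zero
  exact io_inj (h3.trans io_zero.symm)

theorem Sk.eq_zero_of_sq (hD : Sk D) (h : D * D = 0) : D = 0 := by
  ext x
  refine hD.ker_sq ?_
  have h1 := congrArg (fun f : E →L[ℝ] E => f x) h
  simpa using h1

theorem Sk.semisimple (hN : RNice E) (hD : Sk D) {k : ℝ} (hk : k ≠ 0) {z : E}
    (h : D (D (D (D z))) + (2 * k ^ 2) • D (D z) + k ^ 4 • z = 0) : D (D z) + k ^ 2 • z = 0 := by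
  have hid : HP.Herm (((k : ℝ) : ℂ) • (1 : Cx E →L[ℂ] Cx E)) := HP.Herm.smul HP.Herm.one k
  set H : Cx E →L[ℂ] Cx E := Complex.I • cx D with hH
  have hHh : HP.Herm H := herm_cx hD
  set P : Cx E →L[ℂ] Cx E := H - ((k : ℝ) : ℂ) • (1 : Cx E →L[ℂ] Cx E) with hP
  set Q : Cx E →L[ℂ] Cx E := H + ((k : ℝ) : ℂ) • (1 : Cx E →L[ℂ] Cx E) with hQ
  have hPh : HP.Herm P := hHh.sub hid
  have hQh : HP.Herm Q := hHh.add hid
  have hHH : ∀ y, H (H y) = -cx D (cx D y) := by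
    intro y
    rw [hH, ContinuousLinearMap.smul_apply, ContinuousLinearMap.smul_apply, map_smul, smul_smul,
      Complex.I_mul_I, neg_one_smul]
  have hPa : ∀ y, P y = H y - ((k : ℝ) : ℂ) • y := fun y => rfl
  have hQa : ∀ y, Q y = H y + ((k : ℝ) : ℂ) • y := fun y => rfl
  have hPQ : ∀ y, P (Q y) = -(cx D (cx D y) + ((k ^ 2 : ℝ) : ℂ) • y) := by
    intro y
    rw [hPa, hQa, map_add, map_smul, hHH, smul_add, smul_smul, ← Complex.ofReal_mul, pow_two]
    abel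
  have hQP : ∀ y, Q (P y) = P (Q y) := by
    intro y
    rw [hQa (P y), hPa (Q y), hPa y, hQa y]
    simp only [map_sub, map_add, map_smul, smul_sub, smul_add]
    abel
  have h1 : P (Q (P (Q (io z)))) = 0 := by
    rw [hPQ, hPQ]
    have e : cx D (cx D (io z)) + ((k ^ 2 : ℝ) : ℂ) • io z = io (D (D z) + k ^ 2 • z) := by
      rw [cx_io, cx_io, io_add, io_smul]
    rw [e, map_neg, map_neg, smul_neg, ← neg_add, neg_neg, cx_io, cx_io, ← io_smul, ← io_add,
      ← io_zero]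
    congr 1
    rw [← h]
    simp only [map_add, map_smul, smul_add, smul_smul]
    have e2 : (2 * k ^ 2) • D (D z) = k ^ 2 • D (D z) + k ^ 2 • D (D z) := by
      rw [← add_smul]
      congr 1
      ring
    have e3 : k ^ 4 • z = (k ^ 2 * k ^ 2) • z := by
      congr 1
      ring
    rw [e2, e3]
    abel
  have h2 : P (P (Q (Q (io z)))) = 0 := by
    rw [← hQP (Q (io z))]
    exact h1
  have h3 := HP.herm_sq_ker hPh h2
  have h4 : Q (Q (P (io z))) = 0 := by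
    rw [hQP, hQP]
    exact h3
  have h5 := HP.herm_sq_ker hQh h4
  rw [hQP, hPQ, cx_io, cx_io, ← io_smul, ← io_add, neg_eq_zero, ← io_zero] at h5
  exact io_inj h5

theorem Sk.ulim (hN : RNice E) {D : ℕ → E →L[ℝ] E} {L : E →L[ℝ] E} (hD : ∀ n, Sk (D n))
    (h : RULim D L) : Sk L :=
  HP.Skew.ulim (fun n => hD n) (RULim.cx hN h)

theorem sk_closed (hN : RNice E) {D : ℕ → E →L[ℝ] E} {L : E →L[ℝ] E} (hD : ∀ n, Sk (D n))
    (h : Tendsto D atTop (𝓝 L)) : Sk L :=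
  Sk.ulim hN hD (rulim_of_tendsto h)

/-! ### Operators with `D ^ 3 = - D` -/

theorem Cub3.norm_refl (hD : Cub3 D) (x : E) : ‖x + (2 : ℝ) • D (D x)‖ = ‖x‖ := by
  have h := hD.sk.norm_rx Real.pi x
  rw [rx_pi_of_cube hD.cube] at h
  exact h

theorem Cub3.proj (hD : Cub3 D) : (D * D) * (D * D) = -(D * D) := by
  rw [← mul_assoc, hD.cube, neg_mul]

theorem Cub3.cj (hD : Cub3 D) (T : E ≃ₗᵢ[ℝ] E) : Cub3 (RO.cj T D) := by
  refine ⟨hD.sk.cj T, ?_, fun h => hD.ne ?_⟩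
  · rw [← cj_mul, ← cj_mul, hD.cube, ← neg_one_smul ℝ D, cj_smul, neg_one_smul]
  · rw [← norm_eq_zero, ← norm_cj T D, h, norm_zero]

theorem Cub3.norm_proj_le (hD : Cub3 D) (x : E) : ‖D (D x)‖ ≤ ‖x‖ ∧ ‖x + D (D x)‖ ≤ ‖x‖ := by
  have h := hD.norm_refl x
  constructor
  · have e : D (D x) = (1 / 2 : ℝ) • ((x + (2 : ℝ) • D (D x)) - x) := by
      rw [add_sub_cancel_left, smul_smul]
      norm_num
    rw [e, norm_smul]
    have h1 := norm_sub_le (x + (2 : ℝ) • D (D x)) x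
    rw [h] at h1
    rw [Real.norm_eq_abs, abs_of_pos (by norm_num : (0 : ℝ) < 1 / 2)]
    linarith
  · have e : x + D (D x) = (1 / 2 : ℝ) • (x + (x + (2 : ℝ) • D (D x))) := by
      rw [smul_add, smul_add, smul_smul, ← add_assoc, ← add_smul]
      norm_num
    rw [e, norm_smul]
    have h1 := norm_add_le x (x + (2 : ℝ) • D (D x))
    rw [h] at h1
    rw [Real.norm_eq_abs, abs_of_pos (by norm_num : (0 : ℝ) < 1 / 2)]
    linarith

end Pool.Agent.Helper61.RO
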