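import Pool.Agent.Helper61.RO.DefsA
import Pool.Agent.Helper61.RO.SkApi

/-!
# RO-23  The blocks of two orthogonal cubs

PROOFS. All identities follow from `D₁ D₁ D₁ = - D₁`, `D₂ D₂ D₂ = - D₂`, `D₁ D₂ = 0 = D₂ D₁` (`noncomm_ring` after rewriting, `fin_cases i`).
* `pa_sgn`: `x - 2 p i x`: for `i = 0, 1`: `Cub3.norm_refl`; for `i = 2`: `1 - 2 p 2 = - (1 - 2 p 0) (1 - 2 p 1)`.
* `pa_ne`: `D₁ ≠ 0`, `D₁ = - D₁ D₁ D₁` (so `D₁ D₁ ≠ 0`), a vector of the form `p 0 y ≠ 0`; the same for `D₂`; the common kernel vector for `i = 2`.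
* `off_sk`: for a skew `B` and `i ≠ j` the operator `p i B p j + p j B p i` is skew. `s i = 1 - 2 p i` is an isometric involution, so `s i B s i` is skew
  (`Sk.conj_inv`), and `p i B (1 - p i) + (1 - p i) B p i = (1/2) (B - s i B s i) =: C`; in the same way `p j C (1 - p j) + (1 - p j) C p j` (for `i ≠ j`) is
  `p i B p j + p j B p i`.
-/

set_option autoImplicit false

open Filter Topology

namespace Pool.Agent.Helper61.RO

universe u

variable {E : Type u} [NormedAddCommGroup E] [NormedSpace ℝ E]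
  {D₁ D₂ : E →L[ℝ] E}

private theorem b23_a (h : AlphaData D₁ D₂) : D₁ * D₁ * (D₁ * D₁) = -(D₁ * D₁) := by
  rw [← mul_assoc, h.cub₁.cube, neg_mul]

private theorem b23_b (h : AlphaData D₁ D₂) : D₂ * D₂ * (D₂ * D₂) = -(D₂ * D₂) := by
  rw [← mul_assoc, h.cub₂.cube, neg_mul]

private theorem b23_ab (h : AlphaData D₁ D₂) : D₁ * D₁ * (D₂ * D₂) = 0 := by
  rw [mul_assoc, ← mul_assoc D₁ D₂, h.mul, zero_mul, mul_zero]

private theorem b23_ba (h : AlphaData D₁ D₂) : D₂ * D₂ * (D₁ * D₁) = 0 := by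
  rw [mul_assoc, ← mul_assoc D₂ D₁, h.mul', zero_mul, mul_zero]

private theorem b23_p0 (D₁ D₂ : E →L[ℝ] E) : pa D₁ D₂ 0 = -(D₁ * D₁) := rfl

private theorem b23_p1 (D₁ D₂ : E →L[ℝ] E) : pa D₁ D₂ 1 = -(D₂ * D₂) := rfl

private theorem b23_p2 (D₁ D₂ : E →L[ℝ] E) : pa D₁ D₂ 2 = 1 + D₁ * D₁ + D₂ * D₂ := rfl

private theorem b23_cases (i : Fin 3) : i = 0 ∨ i = 1 ∨ i = 2 := by
  fin_cases i <;> simp

private theorem b23_half {X Y : E →L[ℝ] E} (h : Y = X + X) : (1 / 2 : ℝ) • Y = X := by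
  rw [h, ← two_smul ℝ X, smul_smul]
  norm_num

private theorem b23_cj [CompleteSpace E] {p B : E →L[ℝ] E} (hp : p * p = p)
    (hs : ∀ x, ‖x - (2 : ℝ) • p x‖ = ‖x‖) (hB : Sk B) :
    Sk (p * B * (1 - p) + (1 - p) * B * p) := by
  have h1 : (1 - (p + p)) * (1 - (p + p)) = (1 : E →L[ℝ] E) := by
    have h2 : (1 - (p + p)) * (1 - (p + p)) =
        1 - (p + p) - (p + p) + (p * p + p * p + (p * p + p * p)) := by noncomm_ring
    rw [h2, hp]
    abel
  have h2 : ∀ x, ‖(1 - (p + p)) x‖ = ‖x‖ := by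
    intro x
    have h3 : (1 - (p + p)) x = x - (2 : ℝ) • p x := by
      rw [two_smul]
      rfl
    rw [h3, hs]
  have h3 := (hB.sub (hB.conj_inv h1 h2)).smul (1 / 2)
  have h4 : B - (1 - (p + p)) * B * (1 - (p + p)) =
      (p * B * (1 - p) + (1 - p) * B * p) + (p * B * (1 - p) + (1 - p) * B * p) := by
    noncomm_ring
  rw [b23_half h4] at h3
  exact h3

theorem pa_idem (h : AlphaData D₁ D₂) (i : Fin 3) : pa D₁ D₂ i * pa D₁ D₂ i = pa D₁ D₂ i := by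
  have ha := b23_a h
  have hb := b23_b h
  have hab := b23_ab h
  have hba := b23_ba h
  rcases b23_cases i with rfl | rfl | rfl
  · rw [b23_p0, neg_mul_neg, ha]
  · rw [b23_p1, neg_mul_neg, hb]
  · rw [b23_p2]
    have h1 : (1 + D₁ * D₁ + D₂ * D₂) * (1 + D₁ * D₁ + D₂ * D₂) =
        1 + D₁ * D₁ + D₂ * D₂ + (D₁ * D₁ + D₁ * D₁ * (D₁ * D₁) + D₁ * D₁ * (D₂ * D₂)) +
          (D₂ * D₂ + D₂ * D₂ * (D₁ * D₁) + D₂ * D₂ * (D₂ * D₂)) := by noncomm_ring
    rw [h1, ha, hb, hab, hba]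
    abel

theorem pa_orth (h : AlphaData D₁ D₂) {i j : Fin 3} (hij : i ≠ j) :
    pa D₁ D₂ i * pa D₁ D₂ j = 0 := by
  have ha := b23_a h
  have hb := b23_b h
  have hab := b23_ab h
  have hba := b23_ba h
  rcases b23_cases i with rfl | rfl | rfl <;> rcases b23_cases j with rfl | rfl | rfl
  · exact absurd rfl hij
  · rw [b23_p0, b23_p1, neg_mul_neg, hab]
  · rw [b23_p0, b23_p2, mul_add, mul_add, mul_one, neg_mul, neg_mul, ha, hab]
    abel
  · rw [b23_p0, b23_p1, neg_mul_neg, hba]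
  · exact absurd rfl hij
  · rw [b23_p1, b23_p2, mul_add, mul_add, mul_one, neg_mul, neg_mul, hb, hba]
    abel
  · rw [b23_p0, b23_p2, add_mul, add_mul, one_mul, mul_neg, mul_neg, ha, hba]
    abel
  · rw [b23_p1, b23_p2, add_mul, add_mul, one_mul, mul_neg, mul_neg, hb, hab]
    abel
  · exact absurd rfl hij

theorem pa_sum (h : AlphaData D₁ D₂) : pa D₁ D₂ 0 + pa D₁ D₂ 1 + pa D₁ D₂ 2 = 1 := by
  rw [b23_p0, b23_p1, b23_p2]
  abel

theorem pa_sgn [CompleteSpace E] (h : AlphaData D₁ D₂) (i : Fin 3) (x : E) :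
    ‖x - (2 : ℝ) • pa D₁ D₂ i x‖ = ‖x‖ := by
  rcases b23_cases i with rfl | rfl | rfl
  · have h1 : x - (2 : ℝ) • pa D₁ D₂ 0 x = x + (2 : ℝ) • D₁ (D₁ x) := by
      have h2 : pa D₁ D₂ 0 x = -(D₁ (D₁ x)) := rfl
      rw [h2, smul_neg, sub_neg_eq_add]
    rw [h1, h.cub₁.norm_refl]
  · have h1 : x - (2 : ℝ) • pa D₁ D₂ 1 x = x + (2 : ℝ) • D₂ (D₂ x) := by
      have h2 : pa D₁ D₂ 1 x = -(D₂ (D₂ x)) := rfl
      rw [h2, smul_neg, sub_neg_eq_add]
    rw [h1, h.cub₂.norm_refl]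
  · have h0 : D₁ (D₂ (D₂ x)) = 0 := by
      have h1 := congrArg (fun T : E →L[ℝ] E => T (D₂ x)) h.mul
      exact h1
    have h1 : x - (2 : ℝ) • pa D₁ D₂ 2 x =
        -((x + (2 : ℝ) • D₂ (D₂ x)) + (2 : ℝ) • D₁ (D₁ (x + (2 : ℝ) • D₂ (D₂ x)))) := by
      have h2 : pa D₁ D₂ 2 x = x + D₁ (D₁ x) + D₂ (D₂ x) := rfl
      rw [h2, map_add, map_smul, h0, smul_zero, add_zero]
      module
    rw [h1, norm_neg, h.cub₁.norm_refl, h.cub₂.norm_refl]

theorem pa_ne (h : AlphaData D₁ D₂) (i : Fin 3) : ∃ z, pa D₁ D₂ i z = z ∧ z ≠ 0 := by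
  have key : ∀ D : E →L[ℝ] E, Cub3 D → ∃ y, D (D y) ≠ 0 := by
    intro D hD
    by_contra hcon
    push Not at hcon
    apply hD.ne
    have h1 : D * D = 0 := by
      ext y
      exact hcon y
    have h2 := hD.cube
    rw [h1, zero_mul] at h2
    exact (neg_eq_zero.mp h2.symm)
  have hid : ∀ y, pa D₁ D₂ i (pa D₁ D₂ i y) = pa D₁ D₂ i y := by
    intro y
    exact congrArg (fun T : E →L[ℝ] E => T y) (pa_idem h i)
  rcases b23_cases i with rfl | rfl | rfl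
  · obtain ⟨y, hy⟩ := key D₁ h.cub₁
    exact ⟨pa D₁ D₂ 0 y, hid y, neg_ne_zero.mpr hy⟩
  · obtain ⟨y, hy⟩ := key D₂ h.cub₂
    exact ⟨pa D₁ D₂ 1 y, hid y, neg_ne_zero.mpr hy⟩
  · obtain ⟨x, h1, h2, h3⟩ := h.ker
    refine ⟨x, ?_, h3⟩
    have h4 : pa D₁ D₂ 2 x = x + D₁ (D₁ x) + D₂ (D₂ x) := rfl
    rw [h4, h1, h2, map_zero, map_zero, add_zero, add_zero]

theorem off_sk [CompleteSpace E] (h : AlphaData D₁ D₂) {i j : Fin 3} (hij : i ≠ j)
    {B : E →L[ℝ] E} (hB : Sk B) :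
    pa D₁ D₂ i * B * pa D₁ D₂ j + pa D₁ D₂ j * B * pa D₁ D₂ i ∈ Lof (pa D₁ D₂) i j := by
  have hpi := pa_idem h i
  have hpj := pa_idem h j
  have hpq := pa_orth h hij
  have hqp := pa_orth h hij.symm
  have hsi := pa_sgn h i
  have hsj := pa_sgn h j
  set p := pa D₁ D₂ i with hp
  set q := pa D₁ D₂ j with hq
  have hC := b23_cj hpi hsi hB
  set C := p * B * (1 - p) + (1 - p) * B * p with hCdef
  have e1 : q * C = q * B * p := by
    have h1 : q * C = (q * p) * B * (1 - p) + (q - q * p) * B * p := by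
      rw [hCdef]
      noncomm_ring
    rw [h1, hqp, zero_mul, zero_mul, zero_add, sub_zero]
  have e2 : C * q = p * B * q := by
    have h1 : C * q = p * B * (q - p * q) + (1 - p) * B * (p * q) := by
      rw [hCdef]
      noncomm_ring
    rw [h1, hpq, sub_zero, mul_zero, add_zero]
  have e3 : q * C * q = 0 := by rw [e1, mul_assoc, hpq, mul_zero]
  have e4 : q * C * (1 - q) + (1 - q) * C * q = p * B * q + q * B * p := by
    have h1 : q * C * (1 - q) + (1 - q) * C * q = q * C + C * q - (q * C * q + q * C * q) := by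
      noncomm_ring
    rw [h1, e3, e1, e2]
    abel
  have h1 := b23_cj hpj hsj hC
  rw [e4] at h1
  refine ⟨h1, ?_⟩
  change p * B * q + q * B * p = p * (p * B * q + q * B * p) * q + q * (p * B * q + q * B * p) * p
  have h2 : p * (p * B * q + q * B * p) * q + q * (p * B * q + q * B * p) * p =
      (p * p) * B * (q * q) + (p * q) * B * (p * q) + ((q * p) * B * (q * p) + (q * q) * B * (p * p)) := by
    noncomm_ring
  rw [h2, hpi, hpj, hpq, hqp]
  simp only [zero_mul, mul_zero, add_zero, zero_add]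

end Pool.Agent.Helper61.RO
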