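import Pool.Agent.Helper61.RO.SqSmall

/-!
# RO-50  From bounded control of the tangent space to norm continuous local transitivity

`x` a unit vector such that for all `v` with `dj x v = 0` and `η > 0` there is a skew `B` with `‖B‖ ≤ C ‖v‖`, `‖B x - v‖ < η`.

PROOF of `halving` (`C ≥ 1` without loss). `δ₁` from `smooth_dj` for `1/8`; `d₀ = min δ₁ (1 / (32 C²))`-type. Let `T` be an isometry, `z = T x`, `0 < d = ‖z - y‖ ≤ d₀`. `v = y - dj z y • z`: `dj z v = 0`,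
`‖v‖ ≤ ‖y - z‖ + |1 - dj z y| ≤ 2 d`. `v' = T⁻¹ v`: `dj x v' = dj z v = 0` (`dj_iso`). `B'` with `‖B'‖ ≤ C ‖v'‖ ≤ 2 C d`, `‖B' x - v'‖ < d / 8`; `B = cj T B'`, `‖B z - v‖ < d / 8`. `S = rx 1 B` (an isometry, `Sk.iso`).
`‖S w - w‖ ≤ ‖B w‖ ≤ 2 C d ‖w‖` (`Sk.rx_sub_le`). `‖S z - z - B z‖ ≤ ‖B (B z)‖ ≤ 4 C² d² ≤ d / 8` (`Sk.rx_taylor_one`). `z + v - y = (1 - dj z y) z` has norm `≤ d / 8` (`smooth_dj`). So `‖S z - y‖ ≤ 3 d / 8 ≤ d / 2`. (If `d = 0`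
take `S = 1`.)

PROOF of `point_of_control`. `ε > 0`; `δ = min d₀ (ε / (4 C))`. `‖y - x‖ < δ`, `η > 0`: `T 0 = 1`, `T (k+1) = S k ∘ T k`; `d k = ‖T k x - y‖ ≤ 2^(-k) δ`, `‖T (k+1) w - T k w‖ ≤ 2 C d k ‖w‖` (`T k w` has norm `‖w‖`), so
`‖T k w - w‖ ≤ 4 C δ ‖w‖ ≤ ε ‖w‖`. Take `k` with `2^(-k) δ ≤ η`.
-/

set_option autoImplicit false

open Filter Topology

namespace Pool.Agent.Helper61.RO

universe u

variable {E : Type u} [NormedAddCommGroup E] [NormedSpace ℝ E] [CompleteSpace E] {x : E}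

theorem halving (hN : RNice E) (hx : ‖x‖ = 1) {C : ℝ} (hC : 0 < C)
    (h : ∀ v, dj x v = 0 → ∀ η : ℝ, 0 < η → ∃ B : E →L[ℝ] E, Sk B ∧ ‖B‖ ≤ C * ‖v‖ ∧ ‖B x - v‖ < η) :
    ∃ (d₀ C' : ℝ), 0 < d₀ ∧ 0 < C' ∧ ∀ (T : E ≃ₗᵢ[ℝ] E) (y : E), ‖y‖ = 1 → ‖T x - y‖ ≤ d₀ →
      ∃ S : E ≃ₗᵢ[ℝ] E, (∀ w, ‖S w - w‖ ≤ C' * ‖T x - y‖ * ‖w‖) ∧
        ‖S (T x) - y‖ ≤ ‖T x - y‖ / 2 := by
  obtain ⟨δ₁, hδ₁, hs⟩ := smooth_dj hN (ε := 1 / 8) (by norm_num)
  have hx0 : x ≠ 0 := norm_ne_zero_iff.1 (by rw [hx]; exact one_ne_zero)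
  refine ⟨min δ₁ (1 / (32 * C ^ 2)), 2 * C, lt_min hδ₁ (by positivity), by positivity, ?_⟩
  intro T y hy hd₀
  obtain ⟨z, hz⟩ : ∃ z, z = T x := ⟨_, rfl⟩
  obtain ⟨d, hd⟩ : ∃ d, d = ‖T x - y‖ := ⟨_, rfl⟩
  rw [← hd] at hd₀ ⊢
  have hdz : ‖z - y‖ = d := by rw [hz, hd]
  have hdz' : ‖y - z‖ = d := by rw [norm_sub_rev, hdz]
  rw [← hz]
  have hz1 : ‖z‖ = 1 := by rw [hz, T.norm_map, hx]
  have hd1 : d ≤ δ₁ := hd₀.trans (min_le_left _ _)
  have hd2 : d ≤ 1 / (32 * C ^ 2) := hd₀.trans (min_le_right _ _)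
  have hdn : 0 ≤ d := by rw [hd]; exact norm_nonneg _
  rcases hdn.eq_or_lt with h0 | hpos
  · refine ⟨LinearIsometryEquiv.refl ℝ E, fun w => ?_, ?_⟩
    · rw [LinearIsometryEquiv.coe_refl, id, sub_self, norm_zero, ← h0]
      simp
    · rw [LinearIsometryEquiv.coe_refl, id, hdz, ← h0]
      simp
  -- the tangent vector
  obtain ⟨v, hv⟩ : ∃ v, v = y - dj z y • z := ⟨_, rfl⟩
  have hzz : dj z z = 1 := by rw [dj_self, hz1]
  have hv0 : dj z v = 0 := by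
    rw [hv, map_sub, map_smul, hzz, smul_eq_mul, mul_one, sub_self]
  have hg1 : 0 ≤ 1 - dj z y := by
    have h1 := (abs_le.1 (dj_le z y)).2
    rw [hy] at h1
    linarith
  have hg2 : 1 - dj z y ≤ d := by
    have h1 := (abs_le.1 (dj_le z (z - y))).2
    rw [map_sub, hzz, hdz] at h1
    exact h1
  have hvn : ‖v‖ ≤ 2 * d := by
    have e : v = (y - z) + (1 - dj z y) • z := by
      rw [hv, sub_smul, one_smul]
      abel
    rw [e]
    refine (norm_add_le _ _).trans ?_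
    rw [norm_smul, hz1, Real.norm_eq_abs, abs_of_nonneg hg1, hdz', mul_one]
    linarith
  obtain ⟨v', hv'⟩ : ∃ v', v' = T.symm v := ⟨_, rfl⟩
  have hTv' : T v' = v := by rw [hv', T.apply_symm_apply]
  have hv'n : ‖v'‖ = ‖v‖ := by rw [hv', T.symm.norm_map]
  have hv'0 : dj x v' = 0 := by
    rw [← dj_iso hN T hx0, hTv', ← hz, hv0]
  obtain ⟨B', hB', hB'n, hB'x⟩ := h v' hv'0 (d / 8) (by positivity)
  obtain ⟨B, hB⟩ : ∃ B, B = cj T B' := ⟨_, rfl⟩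
  have hBs : Sk B := by rw [hB]; exact hB'.cj T
  have hBn : ‖B‖ ≤ 2 * C * d := by
    rw [hB, norm_cj]
    refine hB'n.trans ?_
    rw [hv'n]
    have := mul_le_mul_of_nonneg_left hvn hC.le
    linarith
  have hBz : ‖B z - v‖ ≤ d / 8 := by
    have e : B z - v = T (B' x - v') := by
      rw [hB, cj_apply, hz, T.symm_apply_apply, map_sub, hTv']
    rw [e, T.norm_map]
    exact hB'x.le
  obtain ⟨S, hS, _⟩ := hBs.iso 1
  have hBw : ∀ w, ‖B w‖ ≤ 2 * C * d * ‖w‖ := fun w =>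
    (B.le_opNorm w).trans (mul_le_mul_of_nonneg_right hBn (norm_nonneg w))
  refine ⟨S, fun w => ?_, ?_⟩
  · have h1 := hBs.rx_sub_le 1 w
    rw [abs_one, one_mul, ← hS] at h1
    exact h1.trans (hBw w)
  · have h1 := hBs.rx_taylor_one z
    rw [← hS] at h1
    have h2 : ‖B (B z)‖ ≤ d / 8 := by
      refine (hBw (B z)).trans ?_
      have h3 := hBw z
      rw [hz1, mul_one] at h3
      have h4 : 2 * C * d * ‖B z‖ ≤ 2 * C * d * (2 * C * d) :=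
        mul_le_mul_of_nonneg_left h3 (by positivity)
      refine h4.trans ?_
      have h5 : d * (32 * C ^ 2) ≤ 1 := by
        have := mul_le_mul_of_nonneg_right hd2 (by positivity : 0 ≤ 32 * C ^ 2)
        rwa [one_div, inv_mul_cancel₀ (by positivity)] at this
      have h6 : 2 * C * d * (2 * C * d) = d / 8 * (d * (32 * C ^ 2)) := by ring
      rw [h6]
      calc d / 8 * (d * (32 * C ^ 2)) ≤ d / 8 * 1 := mul_le_mul_of_nonneg_left h5 (by positivity)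
        _ = d / 8 := mul_one _
    have h3 : ‖z + v - y‖ ≤ d / 8 := by
      have e : z + v - y = (1 - dj z y) • z := by
        rw [hv, sub_smul, one_smul]
        abel
      rw [e, norm_smul, hz1, mul_one, Real.norm_eq_abs, abs_of_nonneg hg1]
      have h4 := hs z y hz1 hy (by rw [hdz']; exact hd1)
      rw [hdz'] at h4
      linarith
    have e : S z - y = (S z - z - B z) + (B z - v) + (z + v - y) := by abel
    rw [e]
    have h4 := norm_add_le ((S z - z - B z) + (B z - v)) (z + v - y)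
    have h5 := norm_add_le (S z - z - B z) (B z - v)
    linarith

theorem point_of_control (hN : RNice E) (hx : ‖x‖ = 1) {C : ℝ} (hC : 0 < C)
    (h : ∀ v, dj x v = 0 → ∀ η : ℝ, 0 < η → ∃ B : E →L[ℝ] E, Sk B ∧ ‖B‖ ≤ C * ‖v‖ ∧ ‖B x - v‖ < η)
    {ε : ℝ} (hε : 0 < ε) :
    ∃ δ : ℝ, 0 < δ ∧ ∀ y, ‖y‖ = 1 → ‖y - x‖ < δ → ∀ η : ℝ, 0 < η →
      ∃ T : E ≃ₗᵢ[ℝ] E, (∀ w, ‖T w - w‖ ≤ ε * ‖w‖) ∧ ‖T x - y‖ ≤ η := by
  obtain ⟨d₀, C', hd₀, hC', H⟩ := halving hN hx hC h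
  refine ⟨min d₀ (ε / (2 * C')), lt_min hd₀ (by positivity), fun y hy hyx η hη => ?_⟩
  obtain ⟨D, hD⟩ : ∃ D, D = ‖x - y‖ := ⟨_, rfl⟩
  have hD0 : 0 ≤ D := by rw [hD]; exact norm_nonneg _
  rw [norm_sub_rev, ← hD] at hyx
  have hD1 : D ≤ d₀ := (hyx.trans_le (min_le_left _ _)).le
  have hD2 : D ≤ ε / (2 * C') := (hyx.trans_le (min_le_right _ _)).le
  have hD3 : 2 * C' * D ≤ ε := by
    have := mul_le_mul_of_nonneg_left hD2 (by positivity : 0 ≤ 2 * C')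
    rwa [mul_div_cancel₀ _ (by positivity)] at this
  have key : ∀ k : ℕ, ∃ T : E ≃ₗᵢ[ℝ] E, (∀ w, ‖T w - w‖ ≤ 2 * C' * D * (1 - (1 / 2) ^ k) * ‖w‖) ∧
      ‖T x - y‖ ≤ (1 / 2) ^ k * D := by
    intro k
    induction k with
    | zero =>
      refine ⟨LinearIsometryEquiv.refl ℝ E, fun w => ?_, ?_⟩
      · rw [LinearIsometryEquiv.coe_refl, id, sub_self, norm_zero]
        simp
      · rw [LinearIsometryEquiv.coe_refl, id, ← hD]
        simp
    | succ k ih =>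
      obtain ⟨T, hT1, hT2⟩ := ih
      have hk1 : ((1 : ℝ) / 2) ^ k ≤ 1 := pow_le_one₀ (by norm_num) (by norm_num)
      have hk0 : (0 : ℝ) ≤ (1 / 2) ^ k := by positivity
      have hTd : ‖T x - y‖ ≤ d₀ := by
        refine hT2.trans ?_
        calc (1 / 2) ^ k * D ≤ 1 * D := mul_le_mul_of_nonneg_right hk1 hD0
          _ ≤ d₀ := by rw [one_mul]; exact hD1
      obtain ⟨S, hS1, hS2⟩ := H T y hy hTd
      refine ⟨T.trans S, fun w => ?_, ?_⟩
      · have e : (T.trans S) w - w = (S (T w) - T w) + (T w - w) := by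
          rw [LinearIsometryEquiv.trans_apply]
          abel
        rw [e]
        refine (norm_add_le _ _).trans ?_
        have h1 := hS1 (T w)
        rw [T.norm_map] at h1
        have h2 := hT1 w
        have h3 : C' * ‖T x - y‖ * ‖w‖ ≤ C' * ((1 / 2) ^ k * D) * ‖w‖ :=
          mul_le_mul_of_nonneg_right (mul_le_mul_of_nonneg_left hT2 hC'.le) (norm_nonneg w)
        have h4 : 2 * C' * D * (1 - (1 / 2) ^ (k + 1)) * ‖w‖ =
            C' * ((1 / 2) ^ k * D) * ‖w‖ + 2 * C' * D * (1 - (1 / 2) ^ k) * ‖w‖ := by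
          rw [pow_succ]
          ring
        rw [h4]
        linarith
      · rw [LinearIsometryEquiv.trans_apply]
        refine hS2.trans ?_
        rw [pow_succ]
        linarith
  obtain ⟨k, hk⟩ := exists_pow_lt_of_lt_one (show 0 < η / (D + 1) by positivity)
    (show (1 : ℝ) / 2 < 1 by norm_num)
  obtain ⟨T, hT1, hT2⟩ := key k
  refine ⟨T, fun w => (hT1 w).trans ?_, hT2.trans ?_⟩
  · have hk0 : (0 : ℝ) ≤ (1 / 2) ^ k := by positivity
    refine mul_le_mul_of_nonneg_right ?_ (norm_nonneg w)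
    have h1 : 2 * C' * D * (1 - (1 / 2) ^ k) ≤ 2 * C' * D * 1 :=
      mul_le_mul_of_nonneg_left (by linarith) (by positivity)
    linarith
  · have h1 : (1 / 2) ^ k * D ≤ η / (D + 1) * D := mul_le_mul_of_nonneg_right hk.le hD0
    have h2 : η / (D + 1) * D ≤ η := by
      rw [div_mul_eq_mul_div, div_le_iff₀ (by positivity)]
      nlinarith
    exact h1.trans h2

end Pool.Agent.Helper61.RO
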