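import Pool.Agent.Helper61.RO.DecSeq

/-!
# RO-38  Norm continuity of the conjugates in the extremal case

PROOF of `conj_tendsto_third`: `cj (T n) c → c` in norm. Write `a' = cj (T n) a`, `b'`, `c'` (all bounded by `1`), `o(1)` for sequences of operators tending to `0` in norm.
`dec_seq` for `(a, b, c)`, `(b, c, a)` (`Quat.cyc`, `Ext.cyc`): `a' = a + C + o(1)`, `b' = b + C' + o(1)`, with bounded `C`, `C'` commuting with `a, b, c`. `dec_seq` for the
sequence `(T n)⁻¹` (it also converges strongly to `1`: `‖T⁻¹ x - x‖ = ‖x - T x‖`): `cj (T n)⁻¹ a = a + F + o(1)`, `F` commutes with `b`; conjugating with `T n` (`norm_cj`):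
`a = a' + G + o(1)`, `G = cj (T n) F` commutes with `b'`. So `G = - C + o(1)` and `[C, b'] = o(1)`, hence `[C, b + C'] = [C, C'] = o(1)`. Now `a' b' - b' a' = 2 c'`
(`cj_mul`, `a b - b a = 2 c`), and `[a', b'] = [a + C, b + C'] + o(1) = 2 c + [a, C'] + [C, b] + [C, C'] + o(1) = 2 c + o(1)`. So `c' = c + o(1)`.

`conj_tendsto`: apply this to the triple `(b, c, a)`.

`rig_of_ext`: suppose that `Rig a` fails for some `ε`. `z k` a dense sequence of `E`. For every `n` there is `T n` with `‖T n (z i) - z i‖ < 1 / (n + 1)` for `i ≤ n` and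
`‖cj (T n) a - a‖ ≥ ε`. Then `T n x → x` for all `x` (density, `T n` isometric): contradiction to `conj_tendsto`.
-/

set_option autoImplicit false

open Filter Topology

namespace Pool.Agent.Helper61.RO

universe u

variable {E : Type u} [NormedAddCommGroup E] [NormedSpace ℝ E] [CompleteSpace E]
  {a b c : E →L[ℝ] E}

omit [CompleteSpace E] in
/-- commutators are small if one factor is small -/
private theorem r38_br_le {A B : E →L[ℝ] E} {s t : ℝ} (hA : ‖A‖ ≤ s) (hB : ‖B‖ ≤ 1)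
    (hs : t = 2 * s) : ‖A * B - B * A‖ ≤ t := by
  have h1 : ‖A * B‖ ≤ s := by
    calc ‖A * B‖ ≤ ‖A‖ * ‖B‖ := norm_mul_le _ _
      _ ≤ s * 1 := mul_le_mul hA hB (norm_nonneg _) ((norm_nonneg _).trans hA)
      _ = s := mul_one s
  have h2 : ‖B * A‖ ≤ s := by
    calc ‖B * A‖ ≤ ‖B‖ * ‖A‖ := norm_mul_le _ _
      _ ≤ 1 * s := mul_le_mul hB hA (norm_nonneg _) zero_le_one
      _ = s := one_mul s
  calc ‖A * B - B * A‖ ≤ ‖A * B‖ + ‖B * A‖ := norm_sub_le _ _
    _ ≤ t := by linarith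

private theorem r38_cj_sub (T : E ≃ₗᵢ[ℝ] E) (A B : E →L[ℝ] E) :
    cj T (A - B) = cj T A - cj T B := by
  ext x
  simp [cj_apply]

theorem conj_tendsto_third (hN : RNice E) (h : Quat a b c) (hE : Ext a b c)
    {T : ℕ → E ≃ₗᵢ[ℝ] E} (hT : ∀ x, Tendsto (fun n => T n x) atTop (𝓝 x)) :
    Tendsto (fun n => cj (T n) c) atTop (𝓝 c) := by
  obtain ⟨C, hC, hr⟩ := dec_seq hN h hE hT
  obtain ⟨C', hC', hs⟩ := dec_seq hN h.cyc (Ext.cyc h hE) hT
  have hT' : ∀ x, Tendsto (fun n => (T n).symm x) atTop (𝓝 x) := by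
    intro x
    rw [tendsto_iff_norm_sub_tendsto_zero]
    have h1 := tendsto_iff_norm_sub_tendsto_zero.1 (hT x)
    refine h1.congr fun n => ?_
    rw [← (T n).norm_map ((T n).symm x - x), map_sub, (T n).apply_symm_apply, norm_sub_rev]
  obtain ⟨F, hF, hw⟩ := dec_seq (T := fun n => (T n).symm) hN h hE hT'
  have han : ‖a‖ ≤ 1 := h.cub.norm_le
  have hbn : ‖b‖ ≤ 1 := h.cyc.cub.norm_le
  rw [tendsto_iff_norm_sub_tendsto_zero]
  have hr' := (tendsto_zero_iff_norm_tendsto_zero.1 hr)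
  have hs' := (tendsto_zero_iff_norm_tendsto_zero.1 hs)
  have hw' := (tendsto_zero_iff_norm_tendsto_zero.1 hw)
  have hlim : Tendsto (fun n => ‖cj (T n) b - b - C' n‖ + 2 * ‖cj (T n) a - a - C n‖ +
      ‖cj (T n).symm a - a - F n‖) atTop (𝓝 0) := by
    have h1 := (hs'.add (hr'.const_mul 2)).add hw'
    simpa using h1
  refine squeeze_zero (fun n => norm_nonneg _) (fun n => ?_) hlim
  -- the four operators
  obtain ⟨r, hrd⟩ : ∃ r : E →L[ℝ] E, r = cj (T n) a - a - C n := ⟨_, rfl⟩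
  obtain ⟨s, hsd⟩ : ∃ s : E →L[ℝ] E, s = cj (T n) b - b - C' n := ⟨_, rfl⟩
  obtain ⟨w, hwd⟩ : ∃ w : E →L[ℝ] E, w = cj (T n).symm a - a - F n := ⟨_, rfl⟩
  rw [← hrd, ← hsd, ← hwd]
  have hb' : ‖cj (T n) b‖ ≤ 1 := by rw [norm_cj]; exact hbn
  have hcw : cj (T n) w = a - cj (T n) a - cj (T n) (F n) := by
    rw [hwd, r38_cj_sub, r38_cj_sub]
    congr 2
    exact cj_symm (T n).symm a
  have hnw : ‖cj (T n) w‖ = ‖w‖ := norm_cj _ _
  -- the commutator of `C` and `b'`
  have hG : cj (T n) (F n) * cj (T n) b = cj (T n) b * cj (T n) (F n) := by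
    rw [← cj_mul, ← cj_mul, (hF n).2.1]
  have hCG : C n + cj (T n) (F n) = -(r + cj (T n) w) := by
    rw [hrd, hcw]
    abel
  have hCb : C n * cj (T n) b - cj (T n) b * C n =
      -(r + cj (T n) w) * cj (T n) b - cj (T n) b * -(r + cj (T n) w) := by
    rw [← hCG, add_mul, mul_add, hG]
    abel
  -- the commutator of `a` and `b`
  have hab : a * b - b * a = (2 : ℝ) • c := by
    rw [h.ab, h.ba, two_smul, sub_neg_eq_add]
  have hab' : cj (T n) a * cj (T n) b - cj (T n) b * cj (T n) a = (2 : ℝ) • cj (T n) c := by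
    rw [← cj_mul, ← cj_mul, ← r38_cj_sub, hab, cj_smul]
  have ea : cj (T n) a = a + C n + r := by rw [hrd]; abel
  have eb : cj (T n) b = b + C' n + s := by rw [hsd]; abel
  have hab2 : a * cj (T n) b - cj (T n) b * a = (2 : ℝ) • c + (a * s - s * a) := by
    rw [← hab, eb, mul_add, mul_add, add_mul, add_mul, (hC' n).2.2]
    abel
  have hkey : (2 : ℝ) • (cj (T n) c - c) = (a * s - s * a) +
      (-(r + cj (T n) w) * cj (T n) b - cj (T n) b * -(r + cj (T n) w)) +
      (r * cj (T n) b - cj (T n) b * r) := by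
    rw [smul_sub, ← hab', ← hCb]
    have e1 : cj (T n) a * cj (T n) b - cj (T n) b * cj (T n) a =
        (a * cj (T n) b - cj (T n) b * a) + (C n * cj (T n) b - cj (T n) b * C n) +
          (r * cj (T n) b - cj (T n) b * r) := by
      conv_lhs => rw [ea]
      rw [add_mul, add_mul, mul_add, mul_add]
      abel
    rw [e1, hab2]
    abel
  have hn1 : ‖a * s - s * a‖ ≤ 2 * ‖s‖ := by
    rw [norm_sub_rev]
    exact r38_br_le le_rfl han rfl
  have hn2 : ‖-(r + cj (T n) w) * cj (T n) b - cj (T n) b * -(r + cj (T n) w)‖ ≤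
      2 * (‖r‖ + ‖w‖) := by
    refine r38_br_le ?_ hb' rfl
    rw [norm_neg]
    calc ‖r + cj (T n) w‖ ≤ ‖r‖ + ‖cj (T n) w‖ := norm_add_le _ _
      _ = ‖r‖ + ‖w‖ := by rw [hnw]
  have hn3 : ‖r * cj (T n) b - cj (T n) b * r‖ ≤ 2 * ‖r‖ := r38_br_le le_rfl hb' rfl
  have hn : 2 * ‖cj (T n) c - c‖ ≤ 2 * ‖s‖ + 2 * (‖r‖ + ‖w‖) + 2 * ‖r‖ := by
    have e2 : 2 * ‖cj (T n) c - c‖ = ‖(2 : ℝ) • (cj (T n) c - c)‖ := by
      rw [norm_smul, Real.norm_eq_abs, abs_of_pos (by norm_num : (0 : ℝ) < 2)]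
    rw [e2, hkey]
    calc _ ≤ ‖(a * s - s * a) +
          (-(r + cj (T n) w) * cj (T n) b - cj (T n) b * -(r + cj (T n) w))‖ +
          ‖r * cj (T n) b - cj (T n) b * r‖ := norm_add_le _ _
      _ ≤ (‖a * s - s * a‖ +
          ‖-(r + cj (T n) w) * cj (T n) b - cj (T n) b * -(r + cj (T n) w)‖) +
          ‖r * cj (T n) b - cj (T n) b * r‖ := by
            gcongr
            exact norm_add_le _ _
      _ ≤ 2 * ‖s‖ + 2 * (‖r‖ + ‖w‖) + 2 * ‖r‖ := by linarith
  linarith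

theorem conj_tendsto (hN : RNice E) (h : Quat a b c) (hE : Ext a b c)
    {T : ℕ → E ≃ₗᵢ[ℝ] E} (hT : ∀ x, Tendsto (fun n => T n x) atTop (𝓝 x)) :
    Tendsto (fun n => cj (T n) a) atTop (𝓝 a) :=
  conj_tendsto_third hN h.cyc (Ext.cyc h hE) hT

theorem rig_of_ext [TopologicalSpace.SeparableSpace E] (hN : RNice E) (h : Quat a b c)
    (hE : Ext a b c) : Rig a := by
  by_contra hR
  unfold Rig at hR
  push Not at hR
  obtain ⟨ε, hε, hT⟩ := hR
  have hch : ∀ n : ℕ, ∃ T : E ≃ₗᵢ[ℝ] E,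
      (∀ i : Fin (n + 1), ‖T (TopologicalSpace.denseSeq E i) - TopologicalSpace.denseSeq E i‖ <
        1 / ((n : ℝ) + 1)) ∧ ε ≤ ‖cj T a - a‖ := fun n =>
    hT (n + 1) (fun i => TopologicalSpace.denseSeq E i) (1 / ((n : ℝ) + 1)) (by positivity)
  choose T hTz hTε using hch
  have hTx : ∀ x, Tendsto (fun n => T n x) atTop (𝓝 x) := by
    intro x
    rw [Metric.tendsto_atTop]
    intro δ hδ
    have hd := TopologicalSpace.denseRange_denseSeq E
    obtain ⟨k, hk⟩ : ∃ k, dist x (TopologicalSpace.denseSeq E k) < δ / 3 :=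
      Metric.denseRange_iff.1 hd x (δ / 3) (by linarith)
    obtain ⟨N, hN'⟩ := exists_nat_one_div_lt (show (0 : ℝ) < δ / 3 by linarith)
    refine ⟨max N k, fun n hn => ?_⟩
    have hnN : N ≤ n := (le_max_left _ _).trans hn
    have hnk : k ≤ n := (le_max_right _ _).trans hn
    have h1 := hTz n ⟨k, by omega⟩
    have h2 : (1 : ℝ) / ((n : ℝ) + 1) ≤ 1 / ((N : ℝ) + 1) := by
      apply one_div_le_one_div_of_le (by positivity)
      have : (N : ℝ) ≤ n := by exact_mod_cast hnN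
      linarith
    rw [dist_eq_norm] at hk ⊢
    have h3 : T n x - x = T n (x - TopologicalSpace.denseSeq E k) +
        (T n (TopologicalSpace.denseSeq E k) - TopologicalSpace.denseSeq E k) +
        -(x - TopologicalSpace.denseSeq E k) := by
      rw [map_sub]
      abel
    have h4 : ‖T n x - x‖ ≤ ‖T n (x - TopologicalSpace.denseSeq E k)‖ +
        ‖T n (TopologicalSpace.denseSeq E k) - TopologicalSpace.denseSeq E k‖ +
        ‖-(x - TopologicalSpace.denseSeq E k)‖ := by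
      rw [h3]
      exact norm_add₃_le
    rw [(T n).norm_map, norm_neg] at h4
    have h5 : ‖T n (TopologicalSpace.denseSeq E k) - TopologicalSpace.denseSeq E k‖ <
        1 / ((n : ℝ) + 1) := h1
    linarith
  have hlim := tendsto_iff_norm_sub_tendsto_zero.1 (conj_tendsto hN h hE hTx)
  have := ge_of_tendsto' hlim hTε
  linarith

end Pool.Agent.Helper61.RO
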