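import Pool.Agent.Helper61.RO.Control
import Pool.Agent.Helper61.RO.Halving
import Pool.Agent.Helper61.RO.RigSeq
import Pool.Agent.Helper53.BM.MH.Point

/-!
# RO-51  Case (C)

PROOF of `par_of_rig`. `x₀` a unit vector of the kernel; `control`, `point_of_control` and `Helper53.BM.parallelogram_of_point` (`PointMod x₀ δ ε`: `T` is an isometry, so the two-sided estimate is clear).
`par_of_ext`: `rig_of_ext`.
-/

set_option autoImplicit false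

open Filter Topology

namespace Pool.Agent.Helper61.RO

universe u

variable {E : Type u} [NormedAddCommGroup E] [NormedSpace ℝ E] [CompleteSpace E]
  [TopologicalSpace.SeparableSpace E] {D a b c : E →L[ℝ] E}

theorem par_of_rig (hN : RNice E) (htr : RTrans E) (hD : Cub3 D) (hR : Rig D)
    (hK : ∃ x, D x = 0 ∧ x ≠ 0) (x y : E) :
    ‖x + y‖ ^ 2 + ‖x - y‖ ^ 2 = 2 * (‖x‖ ^ 2 + ‖y‖ ^ 2) := by
  obtain ⟨C, hC, hctl⟩ := control hN htr hD hR hK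
  obtain ⟨z, hz, hz0⟩ := hK
  have hzn : 0 < ‖z‖ := norm_pos_iff.2 hz0
  obtain ⟨x₀, hx₀, hDx₀⟩ : ∃ x₀ : E, ‖x₀‖ = 1 ∧ D x₀ = 0 := by
    refine ⟨(‖z‖⁻¹) • z, ?_, ?_⟩
    · rw [norm_smul, norm_inv, norm_norm, inv_mul_cancel₀ hzn.ne']
    · rw [map_smul, hz, smul_zero]
  refine Helper53.BM.parallelogram_of_point hx₀ (fun ε hε => ?_) x y
  obtain ⟨δ, hδ, h⟩ := point_of_control hN hx₀ hC (hctl x₀ hx₀ hDx₀) hε
  refine ⟨δ, hδ, fun y hy hyx η hη => ?_⟩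
  obtain ⟨T, hT1, hT2⟩ := h y hy hyx η hη
  refine ⟨((T : E ≃L[ℝ] E) : E →L[ℝ] E), fun z => hT1 z, hT2, fun z => ?_⟩
  have h1 : ‖((T : E ≃L[ℝ] E) : E →L[ℝ] E) z‖ = ‖z‖ := T.norm_map z
  have h2 : 0 ≤ η * ‖z‖ := mul_nonneg hη.le (norm_nonneg z)
  rw [h1]
  constructor <;> linarith

theorem par_of_ext (hN : RNice E) (htr : RTrans E) (h : Quat a b c) (hE : Ext a b c)
    (hK : ∃ x, a x = 0 ∧ x ≠ 0) (x y : E) :
    ‖x + y‖ ^ 2 + ‖x - y‖ ^ 2 = 2 * (‖x‖ ^ 2 + ‖y‖ ^ 2) :=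
  par_of_rig hN htr h.cub (rig_of_ext hN h hE) hK x y

end Pool.Agent.Helper61.RO
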