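import Pool.Agent.Helper61.RO.Defs

/-!
# Definitions for case (C) (project RO, MP_cc72b1_an)

`Quat a b c`: three skew operators which act as quaternion units on `ran a` and vanish on `ker a`. `Ext a b c`: the eigenspace `- 4` of
`(ad a)²` on the skew operators is the span of `b`, `c`. `Lo D`: the skew operators which exchange `ran D` and `ker D` (`D ^ 3 = - D`,
projections `- D D` and `1 + D D`). `Rig D`: the map `T ↦ T D T⁻¹` is continuous at `1` from the strong topology to the norm.
-/

set_option autoImplicit false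

open Filter Topology

namespace Pool.Agent.Helper61.RO

universe u

variable {E : Type u} [NormedAddCommGroup E] [NormedSpace ℝ E]

/-- quaternionic triples of skew operators -/
structure Quat (a b c : E →L[ℝ] E) : Prop where
  ska : Sk a
  skb : Sk b
  skc : Sk c
  cube : a * a * a = -a
  ab : a * b = c
  bc : b * c = a
  ca : c * a = b
  ba : b * a = -c
  cb : c * b = -a
  ac : a * c = -b
  ne : a ≠ 0

/-- the extremal case -/
def Ext (a b c : E →L[ℝ] E) : Prop :=
  ∀ B : E →L[ℝ] E, Sk B → br a (br a B) = -((4 : ℝ) • B) → ∃ s t : ℝ, B = s • b + t • c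

/-- off-diagonal skew operators -/
def Lo (D : E →L[ℝ] E) : Set (E →L[ℝ] E) :=
  {u | Sk u ∧ u = -(D * D) * u * (1 + D * D) - (1 + D * D) * u * (D * D)}

/-- conjugation of `D` is norm continuous at the identity -/
def Rig (D : E →L[ℝ] E) : Prop :=
  ∀ ε : ℝ, 0 < ε → ∃ (n : ℕ) (v : Fin n → E) (η : ℝ), 0 < η ∧
    ∀ T : E ≃ₗᵢ[ℝ] E, (∀ i, ‖T (v i) - v i‖ < η) → ‖cj T D - D‖ < ε

end Pool.Agent.Helper61.RO
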