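import Pool.Agent.Helper61.RO.Defs

/-!
# RO-06  The Baire category lemma for finite tuples

PROOF. As in `HP/Micro.lean` (copy it), for tuples: let `z k`, `k ∈ ℕ`, be a dense sequence of the separable space `Fin n → E`
(sup norm), `G k = {T | ‖(T (u i))_i - z k‖ < η / 2}`, `A k = {T x | T ∈ G k}`. The `A k` cover the unit sphere `S` by transitivity, so by Baire
the closure of some `A k` contains `S ∩ ball y₀ r`, `y₀ ∈ S`. Choose `T₀ ∈ G k` with `‖T₀ x - y₀‖ < r / 2`, `δ = r / 2`. For unit `y` with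
`‖y - x‖ < δ` there is `T ∈ G k` with `‖T x - T₀ y‖ < η'`, and `T₀⁻¹ T` is as required.
-/

set_option autoImplicit false

open Filter Topology

namespace Pool.Agent.Helper61.RO

universe u

variable {E : Type u} [NormedAddCommGroup E] [NormedSpace ℝ E] [CompleteSpace E]
  [TopologicalSpace.SeparableSpace E]

theorem rmicro (htr : RTrans E) {x : E} (hx : ‖x‖ = 1) {n : ℕ} (u : Fin n → E) {η : ℝ}
    (hη : 0 < η) :
    ∃ δ : ℝ, 0 < δ ∧ ∀ y : E, ‖y‖ = 1 → ‖y - x‖ < δ → ∀ η' : ℝ, 0 < η' →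
      ∃ T : E ≃ₗᵢ[ℝ] E, ‖T x - y‖ < η' ∧ ∀ i, ‖T (u i) - u i‖ < η := by
  have hcl : IsClosed (Metric.sphere (0 : E) 1) := Metric.isClosed_sphere
  haveI : CompleteSpace (Metric.sphere (0 : E) 1) := hcl.completeSpace_coe
  haveI : Nonempty (Metric.sphere (0 : E) 1) := ⟨⟨x, by rw [mem_sphere_zero_iff_norm]; exact hx⟩⟩
  haveI : Nonempty (Fin n → E) := ⟨0⟩
  let z : ℕ → Fin n → E := TopologicalSpace.denseSeq (Fin n → E)
  let A : ℕ → Set (Metric.sphere (0 : E) 1) := fun k =>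
    {y | ∃ T : E ≃ₗᵢ[ℝ] E, (∀ i, ‖T (u i) - z k i‖ < η / 2) ∧ T x = y}
  have hU : ⋃ k, closure (A k) = Set.univ := by
    rw [Set.eq_univ_iff_forall]
    intro y
    have hy : ‖(y : E)‖ = 1 := by
      have := y.2
      rwa [mem_sphere_zero_iff_norm] at this
    obtain ⟨T, hT⟩ := htr x y hx hy
    obtain ⟨k, hk⟩ := (TopologicalSpace.denseRange_denseSeq (Fin n → E)).exists_dist_lt
      (fun i => T (u i)) (half_pos hη)
    have hk' : ∀ i, ‖T (u i) - z k i‖ < η / 2 := by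
      intro i
      have h1 := (dist_pi_lt_iff (half_pos hη)).1 hk i
      rwa [dist_eq_norm] at h1
    exact Set.mem_iUnion.2 ⟨k, subset_closure ⟨T, hk', hT⟩⟩
  obtain ⟨k, y₀, hy₀⟩ := nonempty_interior_of_iUnion_of_closed (fun k => isClosed_closure) hU
  rw [mem_interior_iff_mem_nhds, Metric.mem_nhds_iff] at hy₀
  obtain ⟨r, hr, hball⟩ := hy₀
  have hy₀c : y₀ ∈ closure (A k) := hball (Metric.mem_ball_self hr)
  rw [Metric.mem_closure_iff] at hy₀c
  obtain ⟨b, ⟨T₀, hT₀, hT₀b⟩, hb⟩ := hy₀c (r / 2) (half_pos hr)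
  rw [Subtype.dist_eq, ← hT₀b, dist_eq_norm] at hb
  refine ⟨r / 2, half_pos hr, fun y hy hyx η' hη' => ?_⟩
  have hT₀y : ‖T₀ y‖ = 1 := by rw [T₀.norm_map, hy]
  have h1 : (⟨T₀ y, by rw [mem_sphere_zero_iff_norm]; exact hT₀y⟩ : Metric.sphere (0 : E) 1) ∈
      closure (A k) := by
    apply hball
    rw [Metric.mem_ball, Subtype.dist_eq, dist_eq_norm]
    have h2 : T₀ y - (y₀ : E) = T₀ (y - x) - ((y₀ : E) - T₀ x) := by
      rw [map_sub]
      abel
    calc ‖T₀ y - (y₀ : E)‖ = ‖T₀ (y - x) - ((y₀ : E) - T₀ x)‖ := by rw [h2]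
      _ ≤ ‖T₀ (y - x)‖ + ‖(y₀ : E) - T₀ x‖ := norm_sub_le _ _
      _ < r / 2 + r / 2 := by
          rw [T₀.norm_map]
          exact add_lt_add hyx hb
      _ = r := add_halves r
  rw [Metric.mem_closure_iff] at h1
  obtain ⟨c, ⟨T, hT, hTc⟩, hc⟩ := h1 η' hη'
  rw [Subtype.dist_eq, ← hTc, dist_eq_norm] at hc
  refine ⟨T.trans T₀.symm, ?_, fun i => ?_⟩
  · have h3 : (T.trans T₀.symm) x - y = T₀.symm (T x - T₀ y) := by
      rw [map_sub, T₀.symm_apply_apply]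
      rfl
    rw [h3, T₀.symm.norm_map, ← norm_neg, neg_sub]
    exact hc
  · have h3 : (T.trans T₀.symm) (u i) - u i = T₀.symm (T (u i) - T₀ (u i)) := by
      rw [map_sub, T₀.symm_apply_apply]
      rfl
    rw [h3, T₀.symm.norm_map]
    have h4 : T (u i) - T₀ (u i) = (T (u i) - z k i) - (T₀ (u i) - z k i) := by abel
    rw [h4]
    calc _ ≤ ‖T (u i) - z k i‖ + ‖T₀ (u i) - z k i‖ := norm_sub_le _ _
      _ < η / 2 + η / 2 := add_lt_add (hT i) (hT₀ i)
      _ = η := add_halves η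

end Pool.Agent.Helper61.RO
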