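import Pool.Agent.Helper61.RO.Rigidity
import Pool.Agent.Helper61.RO.RMicro
import Pool.Agent.Helper61.RO.DefsC

/-!
# RO-44  The centraliser of a rigid cub acts almost transitively on the sphere of its kernel

PROOF of `cent_local`. `ε₀`, `C` from `rigidity`; `n, v, η` from `Rig D` for `ε₀`; `δ` from `rmicro` for `x`, `v`, `η`. Let `y` be a unit vector, `D y = 0`, `‖y - x‖ < δ`, `η₁ > 0`. `T` with
`‖T x - y‖ < η'`, `η' = η₁ / (1 + C)`, `‖T (v i) - v i‖ < η`. `D' = cj T D` is a cub, `‖D' - D‖ ≤ ε₀`, `‖D' y‖ = ‖D' (y - T x)‖ ≤ η'` (`D' (T x) = T (D x) = 0`, `‖D'‖ ≤ 1`). `V` from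
`rigidity`: `cj V (cj T D) = D`, i.e. `T.trans V` commutes with `D` (`cj_trans`), `‖V (T x) - y‖ ≤ ‖T x - y‖ + ‖V y - y‖ ≤ η' + C η' = η₁`.

PROOF of `cent_trans`. Let `x ∼ y` (unit vectors of `K = ker D`) mean: for all `η > 0` there is `V` with `cj V D = D`, `‖V x - y‖ < η`. This is an equivalence relation (`cj V.symm D = D`). If
`y = - x`: `V = - 1` (`LinearIsometryEquiv.neg`). Otherwise the segment from `x` to `y` does not contain `0`, `z t = ((1 - t) x + t y) / ‖..‖`, `t ∈ [0, 1]`, is a continuous path of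
unit vectors of `K`; the set `{t | x ∼ z t}` is open in `[0, 1]` and its complement too (`cent_local` at `z t`), so it is `[0, 1]` (connectedness).
-/

set_option autoImplicit false

open Filter Topology

namespace Pool.Agent.Helper61.RO

universe u

variable {E : Type u} [NormedAddCommGroup E] [NormedSpace ℝ E] [CompleteSpace E]
  [TopologicalSpace.SeparableSpace E] {D : E →L[ℝ] E} {x y : E}

theorem cent_local (htr : RTrans E) (hD : Cub3 D) (hR : Rig D) (hx : ‖x‖ = 1) (hDx : D x = 0) :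
    ∃ δ : ℝ, 0 < δ ∧ ∀ y, ‖y‖ = 1 → D y = 0 → ‖y - x‖ < δ → ∀ η : ℝ, 0 < η →
      ∃ V : E ≃ₗᵢ[ℝ] E, cj V D = D ∧ ‖V x - y‖ < η := by
  obtain ⟨ε₀, C, hε₀, hC, hrig⟩ := rigidity (E := E)
  obtain ⟨n, v, η, hη, hcont⟩ := hR ε₀ hε₀
  obtain ⟨δ, hδ, hm⟩ := rmicro htr hx v hη
  refine ⟨δ, hδ, fun y hy hDy hyx η₁ hη₁ => ?_⟩
  have h1C : 0 < 1 + C := by linarith
  obtain ⟨T, hT, hTv⟩ := hm y hy hyx (η₁ / (1 + C)) (div_pos hη₁ h1C)
  have hD' : Cub3 (cj T D) := hD.cj T
  obtain ⟨V, hV, hVk⟩ := hrig D (cj T D) hD hD' (hcont T hTv).le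
  have h2 : ‖cj T D y‖ ≤ ‖T x - y‖ := by
    have h3 : cj T D y = cj T D (y - T x) := by
      rw [map_sub, cj_apply T D (T x), T.symm_apply_apply, hDx, map_zero, sub_zero]
    rw [h3]
    calc ‖cj T D (y - T x)‖ ≤ ‖cj T D‖ * ‖y - T x‖ := (cj T D).le_opNorm _
      _ ≤ 1 * ‖y - T x‖ := mul_le_mul_of_nonneg_right hD'.norm_le (norm_nonneg _)
      _ = ‖T x - y‖ := by rw [one_mul, norm_sub_rev]
  refine ⟨T.trans V, ?_, ?_⟩
  · rw [cj_trans, hV]
  · have h4 : (T.trans V) x - y = V (T x - y) + (V y - y) := by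
      rw [LinearIsometryEquiv.trans_apply, map_sub]
      abel
    rw [h4]
    have h5 : ‖V y - y‖ ≤ C * ‖T x - y‖ :=
      (hVk y hDy).trans (mul_le_mul_of_nonneg_left h2 hC.le)
    have h6 : (1 + C) * ‖T x - y‖ < η₁ := by
      rw [lt_div_iff₀ h1C] at hT
      linarith
    calc ‖V (T x - y) + (V y - y)‖ ≤ ‖V (T x - y)‖ + ‖V y - y‖ := norm_add_le _ _
      _ ≤ ‖T x - y‖ + C * ‖T x - y‖ := by
          rw [V.norm_map]
          linarith
      _ = (1 + C) * ‖T x - y‖ := by ring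
      _ < η₁ := h6

/-- `b` is in the closure of the orbit of `a` under the centraliser of `D` -/
def CRel (D : E →L[ℝ] E) (a b : E) : Prop :=
  ∀ η : ℝ, 0 < η → ∃ V : E ≃ₗᵢ[ℝ] E, cj V D = D ∧ ‖V a - b‖ < η

omit [TopologicalSpace.SeparableSpace E] in
theorem CRel.refl (D : E →L[ℝ] E) (a : E) : CRel D a a := by
  intro η hη
  refine ⟨LinearIsometryEquiv.refl ℝ E, ?_, ?_⟩
  · ext w
    rw [cj_apply]
    rfl
  · simpa using hη

omit [TopologicalSpace.SeparableSpace E] in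
theorem CRel.symm {a b : E} (h : CRel D a b) : CRel D b a := by
  intro η hη
  obtain ⟨V, hV, hVa⟩ := h η hη
  refine ⟨V.symm, ?_, ?_⟩
  · have h1 := cj_symm V D
    rw [hV] at h1
    exact h1
  · have h2 : V.symm b - a = V.symm (b - V a) := by
      rw [map_sub, V.symm_apply_apply]
    rw [h2, V.symm.norm_map, norm_sub_rev]
    exact hVa

omit [TopologicalSpace.SeparableSpace E] in
theorem CRel.trans {a b c : E} (h : CRel D a b) (h' : CRel D b c) : CRel D a c := by
  intro η hη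
  obtain ⟨V, hV, hVa⟩ := h (η / 2) (half_pos hη)
  obtain ⟨W, hW, hWa⟩ := h' (η / 2) (half_pos hη)
  refine ⟨V.trans W, ?_, ?_⟩
  · rw [cj_trans, hV, hW]
  · have h4 : (V.trans W) a - c = W (V a - b) + (W b - c) := by
      rw [LinearIsometryEquiv.trans_apply, map_sub]
      abel
    rw [h4]
    calc ‖W (V a - b) + (W b - c)‖ ≤ ‖W (V a - b)‖ + ‖W b - c‖ := norm_add_le _ _
      _ < η / 2 + η / 2 := by
          rw [W.norm_map]
          linarith
      _ = η := by ring

omit [TopologicalSpace.SeparableSpace E] in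
theorem CRel.neg (D : E →L[ℝ] E) (a : E) : CRel D a (-a) := by
  intro η hη
  refine ⟨LinearIsometryEquiv.neg ℝ, ?_, ?_⟩
  · ext w
    rw [cj_apply]
    simp
  · simpa using hη

theorem cent_trans (htr : RTrans E) (hD : Cub3 D) (hR : Rig D) (hx : ‖x‖ = 1) (hDx : D x = 0)
    (hy : ‖y‖ = 1) (hDy : D y = 0) {η : ℝ} (hη : 0 < η) :
    ∃ V : E ≃ₗᵢ[ℝ] E, cj V D = D ∧ ‖V x - y‖ < η := by
  suffices h : CRel D x y from h η hη
  by_cases hxy : y = -x
  · rw [hxy]
    exact CRel.neg D x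
  have : PreconnectedSpace (Set.Icc (0 : ℝ) 1) := Subtype.preconnectedSpace isPreconnected_Icc
  let w : Set.Icc (0 : ℝ) 1 → E := fun t => (1 - (t : ℝ)) • x + (t : ℝ) • y
  have hw : Continuous w := by
    have h1 : Continuous fun t : Set.Icc (0 : ℝ) 1 => (t : ℝ) := continuous_subtype_val
    exact ((continuous_const.sub h1).smul continuous_const).add (h1.smul continuous_const)
  have hw0 : ∀ t, w t ≠ 0 := by
    intro t h0
    have ht0 := t.2.1
    have ht1 := t.2.2
    have h1 : (t : ℝ) • y = -((1 - (t : ℝ)) • x) := by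
      rw [eq_neg_iff_add_eq_zero, add_comm]
      exact h0
    have h2 := congrArg (fun z : E => ‖z‖) h1
    simp only [norm_neg, norm_smul, hx, hy, mul_one, Real.norm_eq_abs] at h2
    rw [abs_of_nonneg ht0, abs_of_nonneg (by linarith)] at h2
    have h3 : (t : ℝ) = 1 / 2 := by linarith
    rw [h3] at h1
    apply hxy
    have h4 : (1 - (1 / 2 : ℝ)) = 1 / 2 := by norm_num
    rw [h4, ← smul_neg] at h1
    exact smul_right_injective E (by norm_num : (1 / 2 : ℝ) ≠ 0) h1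
  let z : Set.Icc (0 : ℝ) 1 → E := fun t => ‖w t‖⁻¹ • w t
  have hz : Continuous z := (hw.norm.inv₀ (fun t => norm_ne_zero_iff.2 (hw0 t))).smul hw
  have hz1 : ∀ t, ‖z t‖ = 1 := by
    intro t
    simp only [z]
    rw [norm_smul, norm_inv, norm_norm, inv_mul_cancel₀ (norm_ne_zero_iff.2 (hw0 t))]
  have hzD : ∀ t, D (z t) = 0 := by
    intro t
    simp only [z, w]
    rw [map_smul, map_add, map_smul, map_smul, hDx, hDy]
    simp
  have hloc : ∀ t, ∀ᶠ s in 𝓝 t, CRel D (z t) (z s) := by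
    intro t
    obtain ⟨δ, hδ, h1⟩ := cent_local htr hD hR (hz1 t) (hzD t)
    have h2 : ∀ᶠ s in 𝓝 t, dist (z s) (z t) < δ :=
      (hz.continuousAt (x := t)).eventually (Metric.ball_mem_nhds (z t) hδ)
    filter_upwards [h2] with s hs
    rw [dist_eq_norm] at hs
    exact fun η' hη' => h1 (z s) (hz1 s) (hzD s) hs η' hη'
  have hclopen : IsClopen {t | CRel D x (z t)} := by
    constructor
    · rw [← isOpen_compl_iff, isOpen_iff_mem_nhds]
      intro t ht
      filter_upwards [hloc t] with s hs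
      exact fun h3 => ht (CRel.trans h3 hs.symm)
    · rw [isOpen_iff_mem_nhds]
      intro t ht
      filter_upwards [hloc t] with s hs
      exact CRel.trans ht hs
  have h0 : z ⟨0, by norm_num, by norm_num⟩ = x := by
    simp [z, w, hx]
  have h1 : z ⟨1, by norm_num, by norm_num⟩ = y := by
    simp [z, w, hy]
  have huniv := hclopen.eq_univ ⟨⟨0, by norm_num, by norm_num⟩, by
    change CRel D x (z _)
    rw [h0]
    exact CRel.refl D x⟩
  have h2 : (⟨1, by norm_num, by norm_num⟩ : Set.Icc (0 : ℝ) 1) ∈ {t | CRel D x (z t)} := by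
    rw [huniv]
    exact Set.mem_univ _
  have h3 : CRel D x (z ⟨1, by norm_num, by norm_num⟩) := h2
  rw [h1] at h3
  exact h3

end Pool.Agent.Helper61.RO
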