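import Pool.Agent.Helper61.RO.SkApi

/-!
# RO-05  Norming functionals of a uniformly convex and uniformly smooth real space

PROOFS.
* `rnorming_dj`: the choice in `exists_dual_vector''`. `RNorming.norm_eq`: `‖x‖ = φ x ≤ ‖φ‖ ‖x‖`.
* `RNorming.eq` (uniqueness, `x ≠ 0`): scale to `‖x‖ = 1`. If `φ h > ψ h` for some `h` of norm `δ` (`δ` from `hN.smooth ε`), then
  `‖x + h‖ + ‖x - h‖ ≥ φ (x + h) + ψ (x - h) = 2 + φ h - ψ h`, so `φ h - ψ h ≤ ε δ` for all `h`, `‖h‖ = δ`, i.e. `‖φ - ψ‖ ≤ ε`; all `ε`.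
* `dj_unif`: `x`, `y` unit, `‖x - y‖ ≤ ε δ / 4`-type: `φ = dj x`, `ψ = dj y`, `‖h‖ = δ`: `φ (x + h) + ψ (x - h) ≤ 2 + ε δ`, and
  `ψ x ≥ 1 - ‖x - y‖`, so `φ h - ψ h ≤ ε δ + ‖x - y‖ ≤ 2 ε δ`.
* `dj_unif_inv`: `‖x + y‖ ≥ dj x (x + y) ≥ 1 + dj y y - ‖dj x - dj y‖ = 2 - ‖dj x - dj y‖`; `hN.convex`.
* `dj_surj`: a functional `φ ≠ 0` attains its norm at a unit vector `x` (reflexivity: `exists_dual_vector''` for `φ` in the
  dual space gives a bidual vector of norm `≤ 1`, which is a vector of `E` by `hN.refl`); `φ / ‖φ‖` is norming for `x`, so it is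
  `dj x` by uniqueness.
* `dj_iso`: `(dj x) ∘ T⁻¹` is norming for `T x`. `dj_smul`, `dj_neg`: the same.
* `Sk.dj_ker`: `D x = 0`: `rx t D x = x` (`rx_apply_of_ker`), `Sk.iso`, `dj_iso`: `dj x (rx t D y) = dj x y` for all `t`; the derivative
  at `0` (`rx_hasDerivAt`) is `dj x (D y) = 0`.
* `Cub3.dj_ker`: the special case; `dj x (y + D (D y)) = dj x y`.
* `smooth_dj`: from `hN.smooth`: `‖x‖ = ‖y‖ = 1`, `‖y - x‖ ≤ δ`: with `h = y - x`: `‖x + h‖ = 1`, `‖x - h‖ ≥ dj x (x - h) = 1 - dj x h`.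
-/

set_option autoImplicit false

open Filter Topology

namespace Pool.Agent.Helper61.RO

universe u

variable {E : Type u} [NormedAddCommGroup E] [NormedSpace ℝ E]

theorem rnorming_dj (x : E) : RNorming (dj x) x := by
  have h := (exists_dual_vector'' ℝ x).choose_spec
  exact ⟨h.1, h.2.trans (by simp)⟩

theorem dj_self (x : E) : dj x x = ‖x‖ := (rnorming_dj x).2

theorem norm_dj_le (x : E) : ‖dj x‖ ≤ 1 := (rnorming_dj x).1

private theorem dja_le {φ : StrongDual ℝ E} (h : ‖φ‖ ≤ 1) (y : E) : |φ y| ≤ ‖y‖ := by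
  have h1 := φ.le_opNorm y
  rw [Real.norm_eq_abs] at h1
  have h2 : ‖φ‖ * ‖y‖ ≤ 1 * ‖y‖ := mul_le_mul_of_nonneg_right h (norm_nonneg y)
  linarith

theorem dj_le (x y : E) : |dj x y| ≤ ‖y‖ := dja_le (norm_dj_le x) y

theorem norm_dj {x : E} (hx : x ≠ 0) : ‖dj x‖ = 1 := by
  have h0 : 0 < ‖x‖ := norm_pos_iff.2 hx
  have h1 := (dj x).le_opNorm x
  rw [dj_self, Real.norm_eq_abs, abs_of_pos h0] at h1
  have h2 := norm_dj_le x
  have h3 : 1 ≤ ‖dj x‖ := by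
    by_contra hc
    push Not at hc
    have h4 : ‖dj x‖ * ‖x‖ < 1 * ‖x‖ := mul_lt_mul_of_pos_right hc h0
    linarith
  linarith

private theorem dja_unif (hN : RNice E) {ε : ℝ} (hε : 0 < ε) : ∃ δ : ℝ, 0 < δ ∧ ∀ x y : E,
    ‖x‖ = 1 → ‖y‖ = 1 → ∀ φ ψ : StrongDual ℝ E, RNorming φ x → RNorming ψ y →
      ‖φ - ψ‖ ≤ ε + ‖x - y‖ / δ := by
  obtain ⟨δ, hδ, h⟩ := hN.smooth ε hε
  refine ⟨δ, hδ, fun x y hx hy φ ψ hφ hψ => ?_⟩
  have key : ∀ z : E, (φ - ψ) z ≤ (ε + ‖x - y‖ / δ) * ‖z‖ := by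
    intro z
    by_cases hz : z = 0
    · rw [hz, map_zero, norm_zero, mul_zero]
    have hz0 : 0 < ‖z‖ := norm_pos_iff.2 hz
    have hn : ‖(δ / ‖z‖) • z‖ = δ := by
      rw [norm_smul, Real.norm_eq_abs, abs_of_pos (div_pos hδ hz0)]
      field_simp
    have h1 := h x ((δ / ‖z‖) • z) hx hn.le
    rw [hn] at h1
    have h2 := (le_abs_self _).trans (dja_le hφ.1 (x + (δ / ‖z‖) • z))
    have h3 := (le_abs_self _).trans (dja_le hψ.1 (x - (δ / ‖z‖) • z))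
    have h4 := (abs_le.1 (dja_le hψ.1 (x - y))).1
    rw [map_add, map_smul, hφ.2, hx, smul_eq_mul] at h2
    rw [map_sub, map_smul, smul_eq_mul] at h3
    rw [map_sub, hψ.2, hy] at h4
    have h5 : (δ / ‖z‖) * (φ z - ψ z) ≤ ε * δ + ‖x - y‖ := by linarith
    have h6 : φ z - ψ z = (‖z‖ / δ) * ((δ / ‖z‖) * (φ z - ψ z)) := by
      field_simp
    have h7 : (‖z‖ / δ) * ((δ / ‖z‖) * (φ z - ψ z)) ≤ (‖z‖ / δ) * (ε * δ + ‖x - y‖) :=
      mul_le_mul_of_nonneg_left h5 (div_nonneg hz0.le hδ.le)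
    have h8 : (‖z‖ / δ) * (ε * δ + ‖x - y‖) = (ε + ‖x - y‖ / δ) * ‖z‖ := by
      field_simp
    rw [sub_apply, ← h8, h6]
    exact h7
  have h0 : 0 ≤ ε + ‖x - y‖ / δ := add_nonneg hε.le (div_nonneg (norm_nonneg _) hδ.le)
  refine ContinuousLinearMap.opNorm_le_bound _ h0 fun z => ?_
  rw [Real.norm_eq_abs, abs_le]
  constructor
  · have h1 := key (-z)
    rw [map_neg, norm_neg] at h1
    linarith
  · exact key z

theorem RNorming.eq (hN : RNice E) {x : E} (hx : x ≠ 0) {φ ψ : StrongDual ℝ E}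
    (hφ : RNorming φ x) (hψ : RNorming ψ x) : φ = ψ := by
  have h0 : 0 < ‖x‖ := norm_pos_iff.2 hx
  have hn : ‖(‖x‖⁻¹) • x‖ = 1 := by
    rw [norm_smul, norm_inv, norm_norm, inv_mul_cancel₀ h0.ne']
  have hs : ∀ {χ : StrongDual ℝ E}, RNorming χ x → RNorming χ ((‖x‖⁻¹) • x) := by
    intro χ hχ
    refine ⟨hχ.1, ?_⟩
    rw [map_smul, hχ.2, hn, smul_eq_mul, inv_mul_cancel₀ h0.ne']
  have h1 : ∀ ε : ℝ, 0 < ε → ‖φ - ψ‖ ≤ ε := by
    intro ε hε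
    obtain ⟨δ, _, h⟩ := dja_unif hN hε
    have h2 := h _ _ hn hn φ ψ (hs hφ) (hs hψ)
    rwa [sub_self, norm_zero, zero_div, add_zero] at h2
  have h2 : ‖φ - ψ‖ ≤ 0 := le_of_forall_pos_le_add fun ε hε => by
    rw [zero_add]
    exact h1 ε hε
  exact sub_eq_zero.1 (norm_le_zero_iff.1 h2)

theorem dj_eq (hN : RNice E) {x : E} (hx : x ≠ 0) {φ : StrongDual ℝ E} (hφ : RNorming φ x) :
    dj x = φ := RNorming.eq hN hx (rnorming_dj x) hφ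

theorem dj_smul (hN : RNice E) {x : E} (hx : x ≠ 0) {t : ℝ} (ht : 0 < t) : dj (t • x) = dj x := by
  refine dj_eq hN (smul_ne_zero ht.ne' hx) ⟨norm_dj_le x, ?_⟩
  rw [map_smul, dj_self, norm_smul, Real.norm_eq_abs, abs_of_pos ht, smul_eq_mul]

theorem dj_neg (hN : RNice E) {x : E} (hx : x ≠ 0) : dj (-x) = -dj x := by
  refine dj_eq hN (neg_ne_zero.2 hx) ⟨?_, ?_⟩
  · rw [norm_neg]
    exact norm_dj_le x
  · rw [neg_apply, map_neg, neg_neg, dj_self, norm_neg]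

theorem dj_iso (hN : RNice E) (T : E ≃ₗᵢ[ℝ] E) {x : E} (hx : x ≠ 0) (y : E) :
    dj (T x) (T y) = dj x y := by
  have hTx : T x ≠ 0 := fun h => hx (by
    have h1 := T.norm_map x
    rw [h, norm_zero] at h1
    exact norm_eq_zero.1 h1.symm)
  have h : RNorming ((dj x).comp ((T.symm : E ≃L[ℝ] E) : E →L[ℝ] E)) (T x) := by
    refine ⟨ContinuousLinearMap.opNorm_le_bound _ zero_le_one fun z => ?_, ?_⟩
    · have h1 := dj_le x (T.symm z)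
      rw [T.symm.norm_map] at h1
      rw [one_mul, Real.norm_eq_abs]
      exact h1
    · have h1 : ((dj x).comp ((T.symm : E ≃L[ℝ] E) : E →L[ℝ] E)) (T x) = dj x (T.symm (T x)) := rfl
      rw [h1, T.symm_apply_apply, dj_self, T.norm_map]
  rw [dj_eq hN hTx h]
  have h1 : ((dj x).comp ((T.symm : E ≃L[ℝ] E) : E →L[ℝ] E)) (T y) = dj x (T.symm (T y)) := rfl
  rw [h1, T.symm_apply_apply]

theorem dj_unif (hN : RNice E) {ε : ℝ} (hε : 0 < ε) : ∃ δ : ℝ, 0 < δ ∧ ∀ x y : E, ‖x‖ = 1 →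
    ‖y‖ = 1 → ‖x - y‖ < δ → ‖dj x - dj y‖ < ε := by
  obtain ⟨δ, hδ, h⟩ := dja_unif hN (half_pos hε)
  refine ⟨ε / 2 * δ, mul_pos (half_pos hε) hδ, fun x y hx hy hxy => ?_⟩
  have h1 := h x y hx hy _ _ (rnorming_dj x) (rnorming_dj y)
  have h2 : ‖x - y‖ / δ < ε / 2 := (div_lt_iff₀ hδ).2 hxy
  linarith

theorem dj_unif_inv (hN : RNice E) {ε : ℝ} (hε : 0 < ε) : ∃ δ : ℝ, 0 < δ ∧ ∀ x y : E, ‖x‖ = 1 →
    ‖y‖ = 1 → ‖dj x - dj y‖ < δ → ‖x - y‖ < ε := by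
  obtain ⟨δ, hδ, h⟩ := hN.convex ε hε
  refine ⟨δ, hδ, fun x y hx hy hxy => ?_⟩
  by_contra hc
  push Not at hc
  have h1 := h x y hx hy hc
  have h2 := (le_abs_self _).trans (dj_le x (x + y))
  rw [map_add, dj_self, hx] at h2
  have h3 := (abs_le.1 ((Real.norm_eq_abs _) ▸ (dj x - dj y).le_opNorm y)).1
  rw [sub_apply, dj_self, hy, mul_one] at h3
  linarith

theorem dj_surj (hN : RNice E) {φ : StrongDual ℝ E} (hφ : φ ≠ 0) :
    ∃ x : E, ‖x‖ = 1 ∧ φ = ‖φ‖ • dj x := by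
  obtain ⟨F, hF1, hF2⟩ := exists_dual_vector'' ℝ φ
  obtain ⟨x, hx⟩ := hN.refl F
  have h0 : 0 < ‖φ‖ := norm_pos_iff.2 hφ
  have hφx : φ x = ‖φ‖ := by
    rw [← hx φ]
    simpa using hF2
  have h1 : ‖x‖ ≤ 1 := by
    have h2 := (le_abs_self _).trans (dja_le hF1 (dj x))
    rw [hx, dj_self] at h2
    exact h2.trans (norm_dj_le x)
  have h2 : 1 ≤ ‖x‖ := by
    have h3 := φ.le_opNorm x
    rw [hφx, norm_norm] at h3
    by_contra hc
    push Not at hc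
    have h4 : ‖φ‖ * ‖x‖ < ‖φ‖ * 1 := mul_lt_mul_of_pos_left hc h0
    linarith
  have h3 : ‖x‖ = 1 := le_antisymm h1 h2
  have hx0 : x ≠ 0 := norm_ne_zero_iff.1 (by rw [h3]; exact one_ne_zero)
  refine ⟨x, h3, ?_⟩
  have h4 : dj x = ‖φ‖⁻¹ • φ := by
    refine dj_eq hN hx0 ⟨?_, ?_⟩
    · rw [norm_smul, norm_inv, norm_norm, inv_mul_cancel₀ h0.ne']
    · rw [smul_apply, hφx, h3, smul_eq_mul, inv_mul_cancel₀ h0.ne']
  rw [h4, smul_smul, mul_inv_cancel₀ h0.ne', one_smul]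

theorem smooth_dj (hN : RNice E) {ε : ℝ} (hε : 0 < ε) : ∃ δ : ℝ, 0 < δ ∧ ∀ x y : E, ‖x‖ = 1 →
    ‖y‖ = 1 → ‖y - x‖ ≤ δ → 1 - dj x y ≤ ε * ‖y - x‖ := by
  obtain ⟨δ, hδ, h⟩ := hN.smooth ε hε
  refine ⟨δ, hδ, fun x y hx hy hxy => ?_⟩
  have h1 := h x (y - x) hx hxy
  rw [add_sub_cancel, hy] at h1
  have h2 := (le_abs_self _).trans (dj_le x (x - (y - x)))
  rw [map_sub, map_sub, dj_self, hx] at h2
  linarith

/-- strict convexity -/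
theorem rotund_of_nice (hN : RNice E) {x y : E} (hx : ‖x‖ = 1) (hy : ‖y‖ = 1)
    (h : ‖x + y‖ = 2) : x = y := by
  by_contra hc
  obtain ⟨δ, hδ, h1⟩ := hN.convex ‖x - y‖ (norm_pos_iff.2 (sub_ne_zero.2 hc))
  have h2 := h1 x y hx hy le_rfl
  linarith

variable [CompleteSpace E]

theorem Sk.dj_apply {D : E →L[ℝ] E} (hD : Sk D) (x : E) : dj x (D x) = 0 :=
  hD.apply_norming (rnorming_dj x)

theorem Sk.dj_sq {D : E →L[ℝ] E} (hD : Sk D) (x : E) : dj x (D (D x)) ≤ 0 :=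
  hD.sq_nonpos (rnorming_dj x)

theorem Sk.dj_rx (hN : RNice E) {D : E →L[ℝ] E} (hD : Sk D) {x : E} (hx : x ≠ 0) (t : ℝ) (y : E) :
    dj (rx t D x) (rx t D y) = dj x y := by
  obtain ⟨T, hT, _⟩ := hD.iso t
  rw [← hT x, ← hT y]
  exact dj_iso hN T hx y

theorem Sk.dj_ker (hN : RNice E) {D : E →L[ℝ] E} (hD : Sk D) {x : E} (hx : x ≠ 0)
    (h : D x = 0) (y : E) : dj x (D y) = 0 := by
  have h1 : ∀ t : ℝ, dj x (rx t D y) = dj x y := by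
    intro t
    have h2 := hD.dj_rx hN hx t y
    rwa [rx_apply_of_ker h] at h2
  have h2 : HasDerivAt (fun s : ℝ => rx s D y) (D y) 0 := by
    have h3 := (rx_hasDerivAt D 0).clm_apply (hasDerivAt_const (0 : ℝ) y)
    rw [rx_zero, mul_one, map_zero, add_zero] at h3
    exact h3
  have h3 : HasDerivAt (fun s : ℝ => dj x (rx s D y)) (dj x (D y)) 0 :=
    (dj x).hasFDerivAt.comp_hasDerivAt (0 : ℝ) h2
  have h4 : (fun s : ℝ => dj x (rx s D y)) = fun _ => dj x y := funext h1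
  rw [h4] at h3
  exact h3.unique (hasDerivAt_const (0 : ℝ) (dj x y))

end Pool.Agent.Helper61.RO
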