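import Pool.Agent.Helper61.RO.SkApi
import Pool.Agent.Helper61.RO.DjApi

/-!
# RO-98  Spaces in which all skew operators have scalar squares

PROOF. Write `D ↦ s D` for a number with `D * D = s D • 1`. For `D` skew, `D ≠ 0`: `s < 0` (`x ≠ 0`: `dj x (D (D x)) = s ‖x‖ ≤ 0` by `Sk.dj_sq`; `s = 0` gives `D = 0` by `Sk.eq_zero_of_sq`); so `D / √(- s)` is skew with square `- 1`. For skew `A`, `B`: `A * B + B * A = (A + B)² - A² - B²` is a scalar.
If all skew operators are `0`: first case. Otherwise let `J` be skew, `J * J = - 1`. If all skew operators are multiples of `J`: second case. Otherwise let `A` be skew, not a multiple of `J`; `A J + J A = 2 α`, `K₀ = A + α J` satisfies `K₀ J + J K₀ = 2 α - 2 α = 0`, `K₀ ≠ 0`, normalise: `K` skew, `K * K = - 1`, `J K = - K J`.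
`J * K = (1/2) br J K` is skew. Let `B` be skew; subtract multiples of `J`, `K`, `J K` such that `B' = B - r J - s K - t J K` anticommutes with `J`, `K` and `J K` (`B J + J B = 2 β`: `r = - β`, as `J J + J J = - 2`, and `K`, `J K` anticommute with `J`; the same for `K` and `J K`). But `B'` anticommuting with `J` and `K` commutes with `J K`, so `J K B' = 0` and `B' = 0`
(`(J K)(J K) = - 1`). Third case. The converse inclusions: `Sk.add`, `Sk.smul`.
-/

set_option autoImplicit false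

open Filter Topology

namespace Pool.Agent.Helper61.RO

universe u

variable {E : Type u} [NormedAddCommGroup E] [NormedSpace ℝ E] [CompleteSpace E]

private theorem clsf_neg {D : E →L[ℝ] E} (hD : Sk D) (h0 : D ≠ 0) {s : ℝ}
    (hs : D * D = s • (1 : E →L[ℝ] E)) : s < 0 := by
  have hx : ∃ x, D x ≠ 0 := by
    by_contra h
    push Not at h
    exact h0 (ContinuousLinearMap.ext fun x => h x)
  obtain ⟨x, hx⟩ := hx
  have hx0 : x ≠ 0 := fun h => hx (by rw [h, map_zero])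
  have hpos : 0 < ‖x‖ := norm_pos_iff.2 hx0
  have h1 : D (D x) = s • x := by
    have := congrArg (fun f : E →L[ℝ] E => f x) hs
    simpa using this
  have h2 := hD.dj_sq x
  rw [h1, map_smul, dj_self, smul_eq_mul] at h2
  have h3 : s ≤ 0 := by
    by_contra hc
    push Not at hc
    have := mul_pos hc hpos
    linarith
  refine lt_of_le_of_ne h3 fun h4 => h0 (hD.eq_zero_of_sq ?_)
  rw [hs, h4, zero_smul]

private theorem clsf_norm (hsc : ∀ D : E →L[ℝ] E, Sk D → ∃ s : ℝ, D * D = s • (1 : E →L[ℝ] E))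
    {D : E →L[ℝ] E} (hD : Sk D) (h0 : D ≠ 0) :
    ∃ r : ℝ, r ≠ 0 ∧ Sk (r • D) ∧ (r • D) * (r • D) = -1 := by
  obtain ⟨s, hs⟩ := hsc D hD
  have hneg := clsf_neg hD h0 hs
  have hpos : 0 < -s := by linarith
  have hsq : 0 < Real.sqrt (-s) := Real.sqrt_pos.2 hpos
  refine ⟨(Real.sqrt (-s))⁻¹, inv_ne_zero hsq.ne', hD.smul _, ?_⟩
  rw [smul_mul_smul_comm, hs, smul_smul]
  have h1 : (Real.sqrt (-s))⁻¹ * (Real.sqrt (-s))⁻¹ * s = -1 := by
    rw [← mul_inv, Real.mul_self_sqrt hpos.le, inv_neg, neg_mul, inv_mul_cancel₀ hneg.ne]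
  rw [h1, neg_smul, one_smul]

private theorem clsf_anti (hsc : ∀ D : E →L[ℝ] E, Sk D → ∃ s : ℝ, D * D = s • (1 : E →L[ℝ] E))
    {A B : E →L[ℝ] E} (hA : Sk A) (hB : Sk B) :
    ∃ α : ℝ, A * B + B * A = α • (1 : E →L[ℝ] E) := by
  obtain ⟨s1, h1⟩ := hsc (A + B) (hA.add hB)
  obtain ⟨s2, h2⟩ := hsc A hA
  obtain ⟨s3, h3⟩ := hsc B hB
  refine ⟨s1 - s2 - s3, ?_⟩
  rw [sub_smul, sub_smul, ← h1, ← h2, ← h3]
  noncomm_ring

private theorem clsf_main {J K L B : E →L[ℝ] E} (hJ : J * J = -1) (hK : K * K = -1)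
    (hJK : J * K = -(K * J)) (hL : L = J * K) {β γ δ : ℝ}
    (h1 : B * J + J * B = β • (1 : E →L[ℝ] E)) (h2 : B * K + K * B = γ • (1 : E →L[ℝ] E))
    (h3 : B * L + L * B = δ • (1 : E →L[ℝ] E)) :
    B = (-(β / 2)) • J + (-(γ / 2)) • K + (-(δ / 2)) • L := by
  have hLJ : L * J = K := by
    rw [hL, hJK, neg_mul, mul_assoc, hJ, mul_neg, mul_one, neg_neg]
  have hJL : J * L = -K := by
    rw [hL, ← mul_assoc, hJ, neg_mul, one_mul]
  have hLK : L * K = -J := by
    rw [hL, mul_assoc, hK, mul_neg, mul_one]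
  have hKL : K * L = J := by
    rw [hL, hJK, mul_neg, ← mul_assoc, hK, neg_mul, one_mul, neg_neg]
  have hLL : L * L = -1 := by
    nth_rewrite 1 [hL]
    rw [mul_assoc, hKL, hJ]
  have hKJ : K * J = -(J * K) := by rw [hJK, neg_neg]
  set B' : E →L[ℝ] E := B + (β / 2) • J + (γ / 2) • K + (δ / 2) • L with hB'
  have a1 : B' * J + J * B' = 0 := by
    have e : B' * J + J * B' = (B * J + J * B) + (β / 2) • (J * J + J * J) +
        (γ / 2) • (K * J + J * K) + (δ / 2) • (L * J + J * L) := by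
      rw [hB']
      simp only [add_mul, mul_add, smul_mul_assoc, mul_smul_comm, smul_add]
      abel
    rw [e, h1, hJ, hKJ, hLJ, hJL]
    module
  have a2 : B' * K + K * B' = 0 := by
    have e : B' * K + K * B' = (B * K + K * B) + (β / 2) • (J * K + K * J) +
        (γ / 2) • (K * K + K * K) + (δ / 2) • (L * K + K * L) := by
      rw [hB']
      simp only [add_mul, mul_add, smul_mul_assoc, mul_smul_comm, smul_add]
      abel
    rw [e, h2, hK, hKJ, hLK, hKL]
    module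
  have a3 : B' * L + L * B' = 0 := by
    have e : B' * L + L * B' = (B * L + L * B) + (β / 2) • (J * L + L * J) +
        (γ / 2) • (K * L + L * K) + (δ / 2) • (L * L + L * L) := by
      rw [hB']
      simp only [add_mul, mul_add, smul_mul_assoc, mul_smul_comm, smul_add]
      abel
    rw [e, h3, hLL, hKL, hLK, hJL, hLJ]
    module
  have c1 : J * B' = -(B' * J) := by
    rw [eq_neg_iff_add_eq_zero, add_comm]
    exact a1
  have c2 : K * B' = -(B' * K) := by
    rw [eq_neg_iff_add_eq_zero, add_comm]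
    exact a2
  have c3 : L * B' = B' * L := by
    rw [hL, mul_assoc, c2, mul_neg, ← mul_assoc, c1, neg_mul, neg_neg, mul_assoc]
  have c4 : L * B' = 0 := by
    rw [← c3] at a3
    have h4 : (2 : ℝ) • (L * B') = 0 := by rw [two_smul]; exact a3
    exact (smul_eq_zero.1 h4).resolve_left (by norm_num)
  have c5 : B' = 0 := by
    have h5 : L * (L * B') = 0 := by rw [c4, mul_zero]
    rw [← mul_assoc, hLL, neg_mul, one_mul, neg_eq_zero] at h5
    exact h5
  have e : B = B' + ((-(β / 2)) • J + (-(γ / 2)) • K + (-(δ / 2)) • L) := by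
    rw [hB']
    module
  rw [e, c5, zero_add]

theorem classify (hsc : ∀ D : E →L[ℝ] E, Sk D → ∃ s : ℝ, D * D = s • (1 : E →L[ℝ] E)) :
    (∀ D : E →L[ℝ] E, Sk D → D = 0) ∨
      (∃ J : E →L[ℝ] E, J * J = -1 ∧ ∀ D : E →L[ℝ] E, Sk D ↔ ∃ t : ℝ, D = t • J) ∨
      ∃ J K : E →L[ℝ] E, J * J = -1 ∧ K * K = -1 ∧ J * K = -(K * J) ∧
        ∀ D : E →L[ℝ] E, Sk D ↔ ∃ r s t : ℝ, D = r • J + s • K + t • (J * K) := by
  by_cases h0 : ∀ D : E →L[ℝ] E, Sk D → D = 0
  · exact Or.inl h0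
  refine Or.inr ?_
  push Not at h0
  obtain ⟨D₀, hD₀, hD₀0⟩ := h0
  obtain ⟨J, hJs, hJ⟩ : ∃ J : E →L[ℝ] E, Sk J ∧ J * J = -1 := by
    obtain ⟨r, _, h2, h3⟩ := clsf_norm hsc hD₀ hD₀0
    exact ⟨_, h2, h3⟩
  by_cases h1 : ∀ D : E →L[ℝ] E, Sk D → ∃ t : ℝ, D = t • J
  · refine Or.inl ⟨J, hJ, fun D => ⟨h1 D, ?_⟩⟩
    rintro ⟨t, rfl⟩
    exact hJs.smul t
  refine Or.inr ?_
  push Not at h1
  obtain ⟨A, hA, hAJ⟩ := h1
  obtain ⟨α, hα⟩ := clsf_anti hsc hA hJs
  set K₀ : E →L[ℝ] E := A + (α / 2) • J with hK₀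
  have hK₀s : Sk K₀ := hA.add (hJs.smul _)
  have hK₀J : K₀ * J + J * K₀ = 0 := by
    have e : K₀ * J + J * K₀ = (A * J + J * A) + (α / 2) • (J * J + J * J) := by
      rw [hK₀]
      simp only [add_mul, mul_add, smul_mul_assoc, mul_smul_comm, smul_add]
      abel
    rw [e, hα, hJ]
    module
  have hK₀0 : K₀ ≠ 0 := by
    intro h
    refine hAJ (-(α / 2)) ?_
    have : A = K₀ + (-(α / 2)) • J := by
      rw [hK₀]
      module
    rw [this, h, zero_add]
  clear_value K₀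
  obtain ⟨K, hKs, hK, hJK⟩ : ∃ K : E →L[ℝ] E, Sk K ∧ K * K = -1 ∧ J * K = -(K * J) := by
    obtain ⟨r', _, h2, h3⟩ := clsf_norm hsc hK₀s hK₀0
    refine ⟨_, h2, h3, ?_⟩
    rw [eq_neg_iff_add_eq_zero, mul_smul_comm, smul_mul_assoc, ← smul_add, add_comm (J * K₀), hK₀J,
      smul_zero]
  have hLs : Sk (J * K) := by
    have h2 := (hJs.br hKs).smul (1 / 2)
    have e : (1 / 2 : ℝ) • br J K = J * K := by
      have e2 : K * J = -(J * K) := by rw [hJK, neg_neg]
      unfold br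
      rw [e2]
      module
    rwa [e] at h2
  refine ⟨J, K, hJ, hK, hJK, fun B => ⟨fun hB => ?_, ?_⟩⟩
  · obtain ⟨β, hβ⟩ := clsf_anti hsc hB hJs
    obtain ⟨γ, hγ⟩ := clsf_anti hsc hB hKs
    obtain ⟨δ, hδ⟩ := clsf_anti hsc hB hLs
    exact ⟨_, _, _, clsf_main hJ hK hJK rfl hβ hγ hδ⟩
  · rintro ⟨x, y, z, rfl⟩
    exact ((hJs.smul x).add (hKs.smul y)).add (hLs.smul z)

end Pool.Agent.Helper61.RO
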