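import Pool.Agent.Helper61.RO.Pencil

/-!
# RO-49  Bounded control of the tangent space

PROOF. `C` from `sur`, `c₀` from `pencil`, `C₂ = 4 C + 8 / c₀ + 1`. `x` a unit vector of `K`, `‖y‖ = 1` (scale; `y = 0` is trivial), `dj x y = 0`. `𝒜 = {B x | Sk B, ‖B‖ ≤ C₂}` is convex, symmetric. Suppose that `y` is not in
the closure of `𝒜`. Hahn-Banach (`geometric_hahn_banach_closed_point` for the closed convex set `closure 𝒜` and the point `y`): a functional `ψ₁` and `s` with `ψ₁ a < s < ψ₁ y` on `𝒜`. `ψ = ψ₁ - ψ₁ x • dj x`: `ψ x = 0`, `ψ y = ψ₁ y`,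
`ψ (B x) = ψ₁ (B x)` (`Sk.dj_apply`), so `ψ (B x) < ψ y ≤ ‖ψ‖ =: n` for all skew `B`, `‖B‖ ≤ C₂`; `n > 0`. `p = - D D`, `q = 1 + D D`; `n ≤ ‖ψ ∘ p‖ + ‖ψ ∘ q‖`.
(a) `‖ψ ∘ p‖ ≥ n / 2`: there is a unit (or norm `≤ 1`) vector `z` with `ψ (p z) ≥ n / 4`; `f = p z` is in the block, `‖f‖ ≤ 1`; `u ∈ Lo D`, `u x = f`, `‖u‖ ≤ C`; `B = (C₂ / C) u`: `ψ (B x) ≥ C₂ n / (4 C) ≥ n`. Contradiction.
(b) `‖ψ ∘ q‖ ≥ n / 2`: `(ψ ∘ q) (D z) = 0`, `(ψ ∘ q) x = ψ x = 0`. `pencil`: `u, v` with `c₀ n / 2 ≤ |ψ (q (u (v x))) - ψ (q (v (u x)))| = |ψ (w x)|`, `w = br u v`, `D (w x) = 0` (`lo_br`), `‖w‖ ≤ 2`. `B = ± (C₂ / 2) w`: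
`ψ (B x) ≥ C₂ c₀ n / 4 ≥ n`. Contradiction.
-/

set_option autoImplicit false

open Filter Topology

namespace Pool.Agent.Helper61.RO

universe u

variable {E : Type u} [NormedAddCommGroup E] [NormedSpace ℝ E] [CompleteSpace E]
  [TopologicalSpace.SeparableSpace E] {D : E →L[ℝ] E}

omit [CompleteSpace E] [TopologicalSpace.SeparableSpace E] in
private theorem ctl_vec {φ : StrongDual ℝ E} {r : ℝ} (h : r < ‖φ‖) :
    ∃ z : E, ‖z‖ ≤ 1 ∧ r ≤ φ z := by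
  obtain ⟨z, hz, hz'⟩ := φ.exists_lt_apply_of_lt_opNorm h
  rw [Real.norm_eq_abs] at hz'
  rcases le_total 0 (φ z) with h0 | h0
  · rw [abs_of_nonneg h0] at hz'
    exact ⟨z, hz.le, hz'.le⟩
  · rw [abs_of_nonpos h0] at hz'
    refine ⟨-z, by rw [norm_neg]; exact hz.le, ?_⟩
    rw [map_neg]
    exact hz'.le

theorem control (hN : RNice E) (htr : RTrans E) (hD : Cub3 D) (hR : Rig D)
    (hK : ∃ x, D x = 0 ∧ x ≠ 0) :
    ∃ C : ℝ, 0 < C ∧ ∀ x, ‖x‖ = 1 → D x = 0 → ∀ y, dj x y = 0 → ∀ η : ℝ, 0 < η →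
      ∃ B : E →L[ℝ] E, Sk B ∧ ‖B‖ ≤ C * ‖y‖ ∧ ‖B x - y‖ < η := by
  obtain ⟨C, hC, hsur⟩ := sur hN htr hD hR hK
  obtain ⟨c₀, hc₀, hpen⟩ := pencil hN htr hD hR hK
  have hC2 : 0 < 4 * C + 8 / c₀ + 1 := by positivity
  refine ⟨4 * C + 8 / c₀ + 1, hC2, fun x hx hDx y hy η hη => ?_⟩
  set C₂ : ℝ := 4 * C + 8 / c₀ + 1 with hC₂
  by_contra hcon
  push Not at hcon
  -- the convex set
  have hconv : Convex ℝ {a : E | ∃ B : E →L[ℝ] E, Sk B ∧ ‖B‖ ≤ C₂ * ‖y‖ ∧ B x = a} := by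
    rintro a ⟨B, hB, hBn, hBx⟩ a' ⟨B', hB', hBn', hBx'⟩ s t hs ht hst
    refine ⟨s • B + t • B', (hB.smul s).add (hB'.smul t), ?_, ?_⟩
    · calc ‖s • B + t • B'‖ ≤ ‖s • B‖ + ‖t • B'‖ := norm_add_le _ _
        _ = s * ‖B‖ + t * ‖B'‖ := by
            rw [norm_smul, norm_smul, Real.norm_eq_abs, Real.norm_eq_abs, abs_of_nonneg hs,
              abs_of_nonneg ht]
        _ ≤ s * (C₂ * ‖y‖) + t * (C₂ * ‖y‖) :=
            add_le_add (mul_le_mul_of_nonneg_left hBn hs) (mul_le_mul_of_nonneg_left hBn' ht)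
        _ = C₂ * ‖y‖ := by rw [← add_mul, hst, one_mul]
    · change s • B x + t • B' x = _
      rw [hBx, hBx']
  have hyn : y ∉ closure {a : E | ∃ B : E →L[ℝ] E, Sk B ∧ ‖B‖ ≤ C₂ * ‖y‖ ∧ B x = a} := by
    intro h
    obtain ⟨a, ⟨B, hB, hBn, hBx⟩, ha⟩ := Metric.mem_closure_iff.1 h η hη
    have h1 := hcon B hB hBn
    rw [hBx, ← dist_eq_norm, dist_comm] at h1
    linarith
  obtain ⟨ψ₁, s, hs1, hs2⟩ := geometric_hahn_banach_closed_point hconv.closure isClosed_closure hyn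
  obtain ⟨ψ, hψ⟩ : ∃ ψ : StrongDual ℝ E, ψ = ψ₁ - (ψ₁ x) • dj x := ⟨_, rfl⟩
  have hψa : ∀ z, ψ z = ψ₁ z - ψ₁ x * dj x z := by
    intro z
    rw [hψ]
    rfl
  have hψx : ψ x = 0 := by rw [hψa, dj_self, hx, mul_one, sub_self]
  have hψB : ∀ B : E →L[ℝ] E, Sk B → ‖B‖ ≤ C₂ * ‖y‖ → ψ (B x) < ‖ψ‖ * ‖y‖ := by
    intro B hB hBn
    have h1 : ψ₁ (B x) < s := hs1 _ (subset_closure ⟨B, hB, hBn, rfl⟩)
    have h2 : ψ (B x) = ψ₁ (B x) := by rw [hψa, hB.dj_apply, mul_zero, sub_zero]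
    have h3 : ψ y = ψ₁ y := by rw [hψa, hy, mul_zero, sub_zero]
    have h4 : ψ y ≤ ‖ψ‖ * ‖y‖ := (le_abs_self _).trans (ψ.le_opNorm y)
    linarith
  have hpos : 0 < ‖ψ‖ * ‖y‖ := by
    have h1 := hψB 0 Sk.zero (by rw [norm_zero]; positivity)
    rwa [zero_apply, map_zero] at h1
  have hy0 : 0 ≤ ‖y‖ := norm_nonneg y
  have hn0 : 0 < ‖ψ‖ := by
    rcases (norm_nonneg ψ).lt_or_eq with h | h
    · exact h
    · rw [← h, zero_mul] at hpos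
      exact absurd hpos (lt_irrefl _)
  have hyp : 0 < ‖y‖ := by
    rcases hy0.lt_or_eq with h | h
    · exact h
    · rw [← h, mul_zero] at hpos
      exact absurd hpos (lt_irrefl _)
  -- the two parts of the functional
  obtain ⟨ψp, hψp⟩ : ∃ φ : StrongDual ℝ E, φ = -(ψ.comp (D * D)) := ⟨_, rfl⟩
  obtain ⟨ψq, hψq⟩ : ∃ φ : StrongDual ℝ E, φ = ψ + ψ.comp (D * D) := ⟨_, rfl⟩
  have hpa : ∀ z, ψp z = -(ψ (D (D z))) := by intro z; rw [hψp]; rfl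
  have hqa : ∀ z, ψq z = ψ z + ψ (D (D z)) := by intro z; rw [hψq]; rfl
  have hDDD : ∀ z, D (D (D z)) = -(D z) := by
    intro z
    have h1 := congrArg (fun K : E →L[ℝ] E => K z) hD.cube
    exact h1
  have hsum : ‖ψ‖ ≤ ‖ψp‖ + ‖ψq‖ := by
    have h1 : ψ = ψp + ψq := by
      rw [hψp, hψq]
      abel
    calc ‖ψ‖ = ‖ψp + ψq‖ := by rw [← h1]
      _ ≤ ‖ψp‖ + ‖ψq‖ := norm_add_le _ _
  have hcase : ‖ψ‖ / 4 < ‖ψp‖ ∨ ‖ψ‖ / 2 ≤ ‖ψq‖ := by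
    by_contra hc
    push Not at hc
    linarith [hc.1, hc.2]
  rcases hcase with ha | hb
  · obtain ⟨z, hz1, hz2⟩ := ctl_vec ha
    obtain ⟨f, hf⟩ : ∃ f : E, f = -(D (D z)) := ⟨_, rfl⟩
    have hff : D (D f) = -f := by
      rw [hf, map_neg, map_neg, hDDD]
    have hfn : ‖f‖ ≤ 1 := by
      rw [hf, norm_neg]
      exact (hD.norm_proj_le z).1.trans hz1
    have hfψ : ‖ψ‖ / 4 ≤ ψ f := by
      rw [hf, map_neg, ← hpa]
      exact hz2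
    obtain ⟨u, hu, hux, hun⟩ := hsur x hx hDx f hff
    have hun' : ‖u‖ ≤ C := hun.trans (mul_le_of_le_one_right hC.le hfn)
    have h1 := hψB ((C₂ * ‖y‖ / C) • u) (hu.1.smul _) (by
      rw [norm_smul, Real.norm_eq_abs, abs_of_nonneg (by positivity)]
      calc C₂ * ‖y‖ / C * ‖u‖ ≤ C₂ * ‖y‖ / C * C :=
            mul_le_mul_of_nonneg_left hun' (by positivity)
        _ = C₂ * ‖y‖ := by field_simp)
    rw [smul_apply, hux, map_smul, smul_eq_mul] at h1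
    have h2 : C₂ * ‖y‖ / C * (‖ψ‖ / 4) ≤ C₂ * ‖y‖ / C * ψ f :=
      mul_le_mul_of_nonneg_left hfψ (by positivity)
    have h3 : ‖ψ‖ * ‖y‖ ≤ C₂ * ‖y‖ / C * (‖ψ‖ / 4) := by
      have h4 : 4 * C ≤ C₂ := by
        have : 0 < 8 / c₀ := by positivity
        rw [hC₂]; linarith
      have h5 : C₂ * ‖y‖ / C * (‖ψ‖ / 4) = (C₂ / (4 * C)) * (‖ψ‖ * ‖y‖) := by
        field_simp
      rw [h5]
      have h6 : 1 ≤ C₂ / (4 * C) := by
        rw [le_div_iff₀ (by positivity), one_mul]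
        exact h4
      exact le_mul_of_one_le_left hpos.le h6
    linarith
  · obtain ⟨u, hu, v, hv, hun, hvn, huv⟩ := hpen x hx hDx ψq (fun z => by
      rw [hqa, hDDD, map_neg, add_neg_cancel]) (by
      rw [hqa, hDx, map_zero, map_zero, add_zero, hψx])
    have hw : ψq (u (v x)) - ψq (v (u x)) = ψ (br u v x) := by
      have h1 : br u v x = u (v x) - v (u x) := rfl
      rw [← map_sub, ← h1, hqa, h1, lo_br hD hu hv hDx, map_zero, map_zero, add_zero]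
    rw [hw] at huv
    have hskw : Sk (br u v) := hu.1.br hv.1
    have hwn : ‖br u v‖ ≤ 2 := by
      calc ‖br u v‖ ≤ ‖u * v‖ + ‖v * u‖ := norm_sub_le _ _
        _ ≤ ‖u‖ * ‖v‖ + ‖v‖ * ‖u‖ := add_le_add (norm_mul_le _ _) (norm_mul_le _ _)
        _ ≤ 1 * 1 + 1 * 1 := add_le_add
            (mul_le_mul hun hvn (norm_nonneg _) zero_le_one)
            (mul_le_mul hvn hun (norm_nonneg _) zero_le_one)
        _ = 2 := by norm_num
    have hkey : ∀ e : ℝ, |e| = 1 → e * ψ (br u v x) * (C₂ * ‖y‖ / 2) < ‖ψ‖ * ‖y‖ := by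
      intro e he
      have h1 := hψB ((e * (C₂ * ‖y‖ / 2)) • br u v) (hskw.smul _) (by
        rw [norm_smul, Real.norm_eq_abs, abs_mul, he, one_mul,
          abs_of_nonneg (by positivity)]
        calc C₂ * ‖y‖ / 2 * ‖br u v‖ ≤ C₂ * ‖y‖ / 2 * 2 :=
              mul_le_mul_of_nonneg_left hwn (by positivity)
          _ = C₂ * ‖y‖ := by ring)
      rw [smul_apply, map_smul, smul_eq_mul] at h1
      linarith
    have h1 : |ψ (br u v x)| * (C₂ * ‖y‖ / 2) < ‖ψ‖ * ‖y‖ := by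
      rcases le_total 0 (ψ (br u v x)) with h0 | h0
      · rw [abs_of_nonneg h0]
        have := hkey 1 (by norm_num)
        rwa [one_mul] at this
      · rw [abs_of_nonpos h0]
        have := hkey (-1) (by norm_num)
        rwa [neg_one_mul] at this
    have h2 : c₀ * (‖ψ‖ / 2) ≤ |ψ (br u v x)| :=
      (mul_le_mul_of_nonneg_left hb hc₀.le).trans huv
    have h3 : c₀ * (‖ψ‖ / 2) * (C₂ * ‖y‖ / 2) ≤ |ψ (br u v x)| * (C₂ * ‖y‖ / 2) :=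
      mul_le_mul_of_nonneg_right h2 (by positivity)
    have h4 : ‖ψ‖ * ‖y‖ ≤ c₀ * (‖ψ‖ / 2) * (C₂ * ‖y‖ / 2) := by
      have h5 : 8 / c₀ ≤ C₂ := by rw [hC₂]; linarith
      have h6 : 8 ≤ C₂ * c₀ := by
        rw [div_le_iff₀ hc₀] at h5
        exact h5
      have h7 : c₀ * (‖ψ‖ / 2) * (C₂ * ‖y‖ / 2) = (C₂ * c₀ / 4) * (‖ψ‖ * ‖y‖) := by ring
      rw [h7]
      exact le_mul_of_one_le_left hpos.le (by linarith)
    linarith

end Pool.Agent.Helper61.RO
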