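import Pool.Agent.Helper61.RO.Defs

/-!
# RO-01  The complexification of a real Banach space

`Cx E = (E* →L[ℝ] ℂ)`, `(io x).ap φ = φ x`, `(cx D x).ap φ = x.ap (φ ∘ D)`.

PROOFS. Almost everything is by `Cx.ext'` and unfolding (`rfl`, `simp`).
* `norm_io`: `‖io x‖ = sup_{‖φ‖ ≤ 1} |φ x| = ‖x‖` (`exists_dual_vector''` for `≥`, `le_opNorm` for `≤`).
* `norm_cx_le`: `‖tr D‖ ≤ ‖D‖`; `le_norm_cx`: `‖D x‖ = ‖io (D x)‖ = ‖cx D (io x)‖ ≤ ‖cx D‖ ‖x‖`.
* `cx_exp`: `cx` is a continuous ring homomorphism which is real-linear: `map_exp` for the ring homomorphism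
  (`NormedSpace.map_exp` or `NormedSpace.exp` as a `HasSum` and `HasSum.map`; note `cx (t • D) = (t : ℂ) • cx D` and
  `exp` in a `ℂ`-algebra and in an `ℝ`-algebra is the same series, see how HP uses `NormedSpace.exp`).
* `norm_re_le`: for `x = io a + i io b` choose `φ` with `‖φ‖ ≤ 1`, `φ a = ‖a‖`: `‖a‖ = Re (x.ap φ) ≤ ‖x.ap φ‖ ≤ ‖x‖`;
  `norm_im_le`: the imaginary part.
-/

set_option autoImplicit false

open Filter Topology

namespace Pool.Agent.Helper61.RO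

universe u

variable {E : Type u} [NormedAddCommGroup E] [NormedSpace ℝ E]

theorem Cx.ext' {x y : Cx E} (h : ∀ φ : StrongDual ℝ E, x.ap φ = y.ap φ) : x = y := by
  exact (ContinuousLinearMap.ext h : x.ap = y.ap)

theorem Cx.ap_add (x y : Cx E) (φ : StrongDual ℝ E) : (x + y).ap φ = x.ap φ + y.ap φ := by
  rfl

theorem Cx.ap_smul (c : ℂ) (x : Cx E) (φ : StrongDual ℝ E) : (c • x).ap φ = c * x.ap φ := by
  rfl

theorem Cx.norm_ap_le (x : Cx E) (φ : StrongDual ℝ E) : ‖x.ap φ‖ ≤ ‖x‖ * ‖φ‖ := by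
  exact x.ap.le_opNorm φ

theorem io_ap (x : E) (φ : StrongDual ℝ E) : (io x).ap φ = ((φ x : ℝ) : ℂ) := by
  rfl

theorem ev_apply (φ : StrongDual ℝ E) (x : Cx E) : ev φ x = x.ap φ := by
  rfl

theorem norm_ev_le (φ : StrongDual ℝ E) : ‖ev φ‖ ≤ ‖φ‖ := by
  exact LinearMap.mkContinuous_norm_le _ (norm_nonneg _) _

theorem ev_io (φ : StrongDual ℝ E) (x : E) : ev φ (io x) = ((φ x : ℝ) : ℂ) := by
  rfl

theorem norm_io (x : E) : ‖io x‖ = ‖x‖ := by
  apply le_antisymm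
  · refine ContinuousLinearMap.opNorm_le_bound (io x).ap (norm_nonneg _) fun φ => ?_
    rw [io_ap, Complex.norm_real, mul_comm]
    exact φ.le_opNorm x
  · obtain ⟨g, hg, hgx⟩ := exists_dual_vector'' ℝ x
    have h1 := Cx.norm_ap_le (io x) g
    rw [io_ap, hgx] at h1
    have h2 : ‖((((‖x‖ : ℝ) : ℝ)) : ℂ)‖ = ‖x‖ := by
      rw [Complex.norm_real, norm_norm]
    have h3 : ‖x‖ ≤ ‖io x‖ * ‖g‖ := by
      rw [← h2]
      exact h1
    refine h3.trans ?_
    exact mul_le_of_le_one_right (norm_nonneg _) hg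

theorem io_add (x y : E) : io (x + y) = io x + io y := by
  apply Cx.ext'
  intro φ
  rw [Cx.ap_add, io_ap, io_ap, io_ap, map_add, Complex.ofReal_add]

theorem io_zero : io (0 : E) = 0 := by
  apply Cx.ext'
  intro φ
  rw [io_ap, map_zero]
  rfl

theorem io_neg (x : E) : io (-x) = -io x := by
  rw [eq_neg_iff_add_eq_zero, ← io_add, neg_add_cancel, io_zero]

theorem io_sub (x y : E) : io (x - y) = io x - io y := by
  rw [sub_eq_add_neg, sub_eq_add_neg, io_add, io_neg]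

theorem io_smul (t : ℝ) (x : E) : io (t • x) = (t : ℂ) • io x := by
  apply Cx.ext'
  intro φ
  rw [Cx.ap_smul, io_ap, io_ap, map_smul, smul_eq_mul, Complex.ofReal_mul]

theorem io_inj {x y : E} (h : io x = io y) : x = y := by
  have h1 : ‖x - y‖ = 0 := by
    rw [← norm_io, io_sub, h, sub_self, norm_zero]
  exact sub_eq_zero.1 (norm_eq_zero.1 h1)

theorem norm_re_le (a b : E) : ‖a‖ ≤ ‖io a + Complex.I • io b‖ := by
  obtain ⟨g, hg, hga⟩ := exists_dual_vector'' ℝ a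
  have h1 := Cx.norm_ap_le (io a + Complex.I • io b) g
  have h2 : ((io a + Complex.I • io b).ap g).re = ‖a‖ := by
    rw [Cx.ap_add, Cx.ap_smul, io_ap, io_ap, hga]
    simp
  calc ‖a‖ = ((io a + Complex.I • io b).ap g).re := h2.symm
    _ ≤ ‖(io a + Complex.I • io b).ap g‖ := Complex.re_le_norm _
    _ ≤ ‖io a + Complex.I • io b‖ * ‖g‖ := h1
    _ ≤ ‖io a + Complex.I • io b‖ := mul_le_of_le_one_right (norm_nonneg _) hg

theorem norm_im_le (a b : E) : ‖b‖ ≤ ‖io a + Complex.I • io b‖ := by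
  obtain ⟨g, hg, hgb⟩ := exists_dual_vector'' ℝ b
  have h1 := Cx.norm_ap_le (io a + Complex.I • io b) g
  have h2 : ((io a + Complex.I • io b).ap g).im = ‖b‖ := by
    rw [Cx.ap_add, Cx.ap_smul, io_ap, io_ap, hgb]
    simp
  calc ‖b‖ = ((io a + Complex.I • io b).ap g).im := h2.symm
    _ ≤ ‖(io a + Complex.I • io b).ap g‖ := Complex.im_le_norm _
    _ ≤ ‖io a + Complex.I • io b‖ * ‖g‖ := h1
    _ ≤ ‖io a + Complex.I • io b‖ := mul_le_of_le_one_right (norm_nonneg _) hg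

theorem re_im_unique {a b a' b' : E} (h : io a + Complex.I • io b = io a' + Complex.I • io b') :
    a = a' ∧ b = b' := by
  have h1 : io (a - a') + Complex.I • io (b - b') = 0 := by
    rw [io_sub, io_sub, smul_sub]
    have h2 := sub_eq_zero.2 h
    rw [← h2]
    abel
  have h3 := norm_re_le (a - a') (b - b')
  have h4 := norm_im_le (a - a') (b - b')
  rw [h1, norm_zero] at h3 h4
  exact ⟨sub_eq_zero.1 (norm_le_zero_iff.1 h3), sub_eq_zero.1 (norm_le_zero_iff.1 h4)⟩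

theorem cx_ap (D : E →L[ℝ] E) (x : Cx E) (φ : StrongDual ℝ E) :
    (cx D x).ap φ = x.ap (φ.comp D) := by
  rfl

theorem cx_io (D : E →L[ℝ] E) (x : E) : cx D (io x) = io (D x) := by
  apply Cx.ext'
  intro φ
  rw [cx_ap, io_ap, io_ap]
  rfl

theorem cx_zero : cx (0 : E →L[ℝ] E) = 0 := by
  ext1 x
  apply Cx.ext'
  intro φ
  rw [cx_ap, ContinuousLinearMap.comp_zero, map_zero]
  rfl

theorem cx_one : cx (1 : E →L[ℝ] E) = 1 := by
  ext1 x
  apply Cx.ext'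
  intro φ
  rw [cx_ap]
  rfl

theorem cx_add (A B : E →L[ℝ] E) : cx (A + B) = cx A + cx B := by
  ext1 x
  apply Cx.ext'
  intro φ
  rw [cx_ap, ContinuousLinearMap.comp_add, map_add]
  rfl

theorem cx_neg (A : E →L[ℝ] E) : cx (-A) = -cx A := by
  rw [eq_neg_iff_add_eq_zero, ← cx_add, neg_add_cancel, cx_zero]

theorem cx_sub (A B : E →L[ℝ] E) : cx (A - B) = cx A - cx B := by
  rw [sub_eq_add_neg, sub_eq_add_neg, cx_add, cx_neg]

theorem cx_smul (t : ℝ) (A : E →L[ℝ] E) : cx (t • A) = (t : ℂ) • cx A := by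
  ext1 x
  apply Cx.ext'
  intro φ
  rw [cx_ap, ContinuousLinearMap.comp_smul, map_smul]
  exact Complex.real_smul

theorem cx_mul (A B : E →L[ℝ] E) : cx (A * B) = cx A * cx B := by
  ext1 x
  apply Cx.ext'
  intro φ
  rfl

theorem cx_pow (A : E →L[ℝ] E) (n : ℕ) : cx (A ^ n) = cx A ^ n := by
  induction n with
  | zero => rw [pow_zero, pow_zero, cx_one]
  | succ n ih => rw [pow_succ, pow_succ, cx_mul, ih]

theorem cx_inj {A B : E →L[ℝ] E} (h : cx A = cx B) : A = B := by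
  ext1 x
  apply io_inj
  rw [← cx_io, ← cx_io, h]

theorem norm_cx (A : E →L[ℝ] E) : ‖cx A‖ = ‖A‖ := by
  apply le_antisymm
  · have h1 : ‖cx A‖ ≤ ‖tr A‖ := LinearMap.mkContinuous_norm_le _ (norm_nonneg (tr A)) _
    refine h1.trans (ContinuousLinearMap.opNorm_le_bound (tr A) (norm_nonneg _) fun φ => ?_)
    rw [mul_comm]
    exact ContinuousLinearMap.opNorm_comp_le φ A
  · refine ContinuousLinearMap.opNorm_le_bound _ (norm_nonneg _) fun x => ?_
    rw [← norm_io, ← cx_io, ← norm_io x]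
    exact (cx A).le_opNorm (io x)

theorem cx_re_im_inj {A B A' B' : E →L[ℝ] E}
    (h : cx A + Complex.I • cx B = cx A' + Complex.I • cx B') : A = A' ∧ B = B' := by
  have h1 : ∀ x : E, io (A x) + Complex.I • io (B x) = io (A' x) + Complex.I • io (B' x) := by
    intro x
    rw [← cx_io, ← cx_io, ← cx_io, ← cx_io]
    have h2 := congrArg (fun K : Cx E →L[ℂ] Cx E => K (io x)) h
    exact h2
  exact ⟨ContinuousLinearMap.ext fun x => (re_im_unique (h1 x)).1,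
    ContinuousLinearMap.ext fun x => (re_im_unique (h1 x)).2⟩

theorem norm_cx_re_le (A B : E →L[ℝ] E) : ‖A‖ ≤ ‖cx A + Complex.I • cx B‖ := by
  refine ContinuousLinearMap.opNorm_le_bound _ (norm_nonneg _) fun x => ?_
  refine (norm_re_le (A x) (B x)).trans ?_
  rw [← cx_io, ← cx_io, ← norm_io x]
  exact (cx A + Complex.I • cx B).le_opNorm (io x)

theorem norm_cx_im_le (A B : E →L[ℝ] E) : ‖B‖ ≤ ‖cx A + Complex.I • cx B‖ := by
  refine ContinuousLinearMap.opNorm_le_bound _ (norm_nonneg _) fun x => ?_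
  refine (norm_im_le (A x) (B x)).trans ?_
  rw [← cx_io, ← cx_io, ← norm_io x]
  exact (cx A + Complex.I • cx B).le_opNorm (io x)

theorem cx_rx [CompleteSpace E] (t : ℝ) (D : E →L[ℝ] E) : cx (rx t D) = HP.ex t (cx D) := by
  have h1 := NormedSpace.exp_series_hasSum_exp' (𝕂 := ℝ) (t • D)
  have h2 := NormedSpace.exp_series_hasSum_exp' (𝕂 := ℂ) ((t : ℂ) • cx D)
  let f : (E →L[ℝ] E) →+ (Cx E →L[ℂ] Cx E) := AddMonoidHom.mk' cx cx_add
  have hf : Continuous f := (AddMonoidHomClass.isometry_of_norm f norm_cx).continuous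
  have h3 := h1.map f hf
  have h4 : (f ∘ fun n : ℕ => ((n.factorial : ℝ)⁻¹) • (t • D) ^ n) =
      fun n : ℕ => ((n.factorial : ℂ)⁻¹) • ((t : ℂ) • cx D) ^ n := by
    funext n
    change cx (((n.factorial : ℝ)⁻¹) • (t • D) ^ n) = _
    rw [cx_smul, cx_pow, cx_smul]
    push_cast
    rfl
  rw [h4] at h3
  exact h3.unique h2

/-- isometries of `E` are isometries of `Cx E` -/
theorem norm_cx_iso (T : E ≃ₗᵢ[ℝ] E) (x : Cx E) :
    ‖cx ((T : E ≃L[ℝ] E) : E →L[ℝ] E) x‖ = ‖x‖ := by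
  have key : ∀ (S : E ≃ₗᵢ[ℝ] E) (y : Cx E), ‖cx ((S : E ≃L[ℝ] E) : E →L[ℝ] E) y‖ ≤ ‖y‖ := by
    intro S y
    refine ((cx ((S : E ≃L[ℝ] E) : E →L[ℝ] E)).le_opNorm y).trans ?_
    rw [norm_cx]
    refine mul_le_of_le_one_left (norm_nonneg _) ?_
    refine ContinuousLinearMap.opNorm_le_bound _ zero_le_one fun z => ?_
    rw [one_mul]
    exact (S.norm_map z).le
  apply le_antisymm (key T x)
  have h1 : cx ((T.symm : E ≃L[ℝ] E) : E →L[ℝ] E) (cx ((T : E ≃L[ℝ] E) : E →L[ℝ] E) x) = x := by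
    have h2 : ((T.symm : E ≃L[ℝ] E) : E →L[ℝ] E) * ((T : E ≃L[ℝ] E) : E →L[ℝ] E) = 1 := by
      ext1 z
      exact T.symm_apply_apply z
    have h3 := cx_mul ((T.symm : E ≃L[ℝ] E) : E →L[ℝ] E) ((T : E ≃L[ℝ] E) : E →L[ℝ] E)
    rw [h2, cx_one] at h3
    have h4 := congrArg (fun K : Cx E →L[ℂ] Cx E => K x) h3
    exact h4.symm
  calc ‖x‖ = ‖cx ((T.symm : E ≃L[ℝ] E) : E →L[ℝ] E) (cx ((T : E ≃L[ℝ] E) : E →L[ℝ] E) x)‖ := by rw [h1]
    _ ≤ ‖cx ((T : E ≃L[ℝ] E) : E →L[ℝ] E) x‖ := key T.symm _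

end Pool.Agent.Helper61.RO
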