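import Pool.Agent.Helper61.RO.CxApi
import Pool.Agent.Helper61.HP.ULimApi

/-!
# RO-02  Reflexivity of the complexification, ultralimits

PROOFS. Only `hN.refl` is used.
* `exists_re_im`: for `x : Cx E` the map `φ ↦ Re (x.ap φ)` is in the bidual of `E` (compose `x.ap` with
  `Complex.reCLM`), so it is `φ ↦ φ a` for some `a`; the same for the imaginary part. Then `Cx.ext'`.
* `exists_dual_re_im`: `Φ` a functional of `Cx E`; `α e = Re (Φ (io e))`, `β e = Im (Φ (io e))` are in `E*`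
  (bounds by `norm_io`), and `Φ = ev α + i ev β` on the vectors `io a + i io b`, which are all vectors.
* `refl_cx`: `F` in the bidual of `Cx E`; `x.ap φ := F (ev φ)` is real-linear and bounded in `φ` (`norm_ev_le`,
  `ev (φ + ψ) = ev φ + ev ψ`, `ev (t φ) = t ev φ`), so `x : Cx E`; for `Φ = ev α + i ev β`:
  `F Φ = F (ev α) + i F (ev β) = x.ap α + i x.ap β = Φ x`.
* `exists_ulim_cx`: the proof of `HP.exists_ulim` (it uses only the reflexivity): copy it with `refl_cx`.
* `exists_rulim`: the same for `E` (real scalars): for every `x` the functional `φ ↦ lim φ (D n x)` (limit along the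
  hyperfilter of a bounded sequence of reals) is in the bidual, so it is the evaluation at a vector `L x`;
  `‖L x‖ ≤ C ‖x‖`, linear.
* `RULim.unique`: limits in `ℝ` are unique, the dual space separates points. `RULim.mul_left/right`, `.add`, `.smul`,
  `const`, `of_tendsto`: as in `HP.ULimApi`.
* `RULim.cx`: `Φ = ev α + i ev β`, `x = io a + i io b` and `Φ (cx (D n) x)` is a combination of the four numbers
  `α (D n a)`, ...
* `ulim_cx`: the hypothesis for `Φ = ev φ` and `io a`: `(i φ(D n a) : ℂ)` converges to `(L (io a)).ap φ`, so the limit has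
  real part `0` and `φ (D n a)` converges to `Im ((L (io a)).ap φ)`. Write `L (io a) = io (c a) + i io (D a)`
  (`exists_re_im`), so `c a = 0`; `D` is linear and bounded by `‖L‖`; `L = i cx D` (both are complex linear and agree on
  `io a`).
-/

set_option autoImplicit false

open Filter Topology

namespace Pool.Agent.Helper61.RO

universe u

variable {E : Type u} [NormedAddCommGroup E] [NormedSpace ℝ E]

private lemma cr_sep {𝕜 F : Type*} [RCLike 𝕜] [NormedAddCommGroup F] [NormedSpace 𝕜 F] {x y : F}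
    (h : ∀ φ : StrongDual 𝕜 F, φ x = φ y) : x = y := by
  obtain ⟨g, _, hgx⟩ := exists_dual_vector'' 𝕜 (x - y)
  rw [map_sub, h g, sub_self] at hgx
  have h1 : ‖x - y‖ = 0 := by exact_mod_cast hgx.symm
  exact sub_eq_zero.1 (norm_eq_zero.1 h1)

private lemma cr_lim {𝕜 : Type*} [RCLike 𝕜] (a : ℕ → 𝕜) (R : ℝ) (h : ∀ n, ‖a n‖ ≤ R) :
    ∃ z, ‖z‖ ≤ R ∧ Tendsto a (hyperfilter ℕ : Filter ℕ) (𝓝 z) := by
  have hc : IsCompact (Metric.closedBall (0 : 𝕜) R) := isCompact_closedBall _ _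
  obtain ⟨z, hz, hz'⟩ := hc.ultrafilter_le_nhds (Ultrafilter.map a (hyperfilter ℕ)) (by
    rw [Filter.le_principal_iff, Ultrafilter.coe_map, Filter.mem_map]
    refine Filter.univ_mem' fun n => ?_
    rw [Set.mem_preimage, mem_closedBall_zero_iff]
    exact h n)
  refine ⟨z, mem_closedBall_zero_iff.1 hz, ?_⟩
  rw [Ultrafilter.coe_map] at hz'
  exact hz'

private theorem cr_gen (𝕜 : Type*) [RCLike 𝕜] {F : Type*} [NormedAddCommGroup F] [NormedSpace 𝕜 F]
    (hr : ∀ G : StrongDual 𝕜 (StrongDual 𝕜 F), ∃ x : F, ∀ φ : StrongDual 𝕜 F, G φ = φ x)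
    (D : ℕ → F →L[𝕜] F) (C : ℝ) (hD : ∀ n, ‖D n‖ ≤ C) :
    ∃ L : F →L[𝕜] F, ‖L‖ ≤ C ∧ ∀ (x : F) (φ : StrongDual 𝕜 F),
      Tendsto (fun n => φ (D n x)) (hyperfilter ℕ : Filter ℕ) (𝓝 (φ (L x))) := by
  have hC : 0 ≤ C := (norm_nonneg _).trans (hD 0)
  have hb : ∀ (x : F) (φ : StrongDual 𝕜 F) (n : ℕ), ‖φ (D n x)‖ ≤ C * ‖x‖ * ‖φ‖ := by
    intro x φ n
    refine (φ.le_opNorm _).trans ?_
    rw [mul_comm]
    exact mul_le_mul_of_nonneg_right ((D n).le_of_opNorm_le (hD n) x) (norm_nonneg _)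
  choose b hb1 hb2 using fun (x : F) (φ : StrongDual 𝕜 F) => cr_lim _ _ (hb x φ)
  let G : F → StrongDual 𝕜 (StrongDual 𝕜 F) := fun x =>
    LinearMap.mkContinuous
      { toFun := b x
        map_add' := by
          intro φ ψ
          refine tendsto_nhds_unique (hb2 x (φ + ψ)) ?_
          exact (hb2 x φ).add (hb2 x ψ)
        map_smul' := by
          intro c φ
          refine tendsto_nhds_unique (hb2 x (c • φ)) ?_
          exact (hb2 x φ).const_smul c } (C * ‖x‖) (fun φ => hb1 x φ)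
  have hG : ∀ x φ, G x φ = b x φ := fun x φ => rfl
  choose L0 hL0 using fun x => hr (G x)
  have hL : ∀ x (φ : StrongDual 𝕜 F), φ (L0 x) = b x φ := by
    intro x φ
    rw [← hL0 x φ, hG]
  let L1 : F →ₗ[𝕜] F :=
    { toFun := L0
      map_add' := by
        intro x y
        refine cr_sep (𝕜 := 𝕜) fun φ => ?_
        rw [map_add, hL, hL, hL]
        refine tendsto_nhds_unique (hb2 (x + y) φ) ?_
        have h1 := (hb2 x φ).add (hb2 y φ)
        refine h1.congr fun n => ?_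
        rw [map_add, map_add]
      map_smul' := by
        intro c x
        refine cr_sep (𝕜 := 𝕜) fun φ => ?_
        rw [RingHom.id_apply, map_smul, hL, hL]
        refine tendsto_nhds_unique (hb2 (c • x) φ) ?_
        have h1 := (hb2 x φ).const_smul c
        refine h1.congr fun n => ?_
        rw [map_smul, map_smul] }
  have hbd : ∀ x, ‖L1 x‖ ≤ C * ‖x‖ := by
    intro x
    obtain ⟨φ, h1, h2⟩ := exists_dual_vector'' 𝕜 (L0 x)
    have h3 : ‖φ (L0 x)‖ ≤ C * ‖x‖ * ‖φ‖ := by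
      rw [hL]
      exact hb1 x φ
    have h4 : ‖φ (L0 x)‖ = ‖L0 x‖ := by
      rw [h2, RCLike.norm_ofReal, abs_norm]
    change ‖L0 x‖ ≤ C * ‖x‖
    rw [← h4]
    refine h3.trans ?_
    have h5 : 0 ≤ C * ‖x‖ := mul_nonneg hC (norm_nonneg _)
    have h6 := mul_le_mul_of_nonneg_left h1 h5
    rwa [mul_one] at h6
  refine ⟨L1.mkContinuous C hbd, L1.mkContinuous_norm_le hC hbd, ?_⟩
  intro x φ
  have e : φ ((L1.mkContinuous C hbd) x) = b x φ := hL x φ
  rw [e]
  exact hb2 x φ

theorem exists_re_im (hN : RNice E) (x : Cx E) : ∃ a b : E, x = io a + Complex.I • io b := by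
  obtain ⟨a, ha⟩ := hN.refl (Complex.reCLM.comp x.ap)
  obtain ⟨b, hb⟩ := hN.refl (Complex.imCLM.comp x.ap)
  refine ⟨a, b, Cx.ext' fun φ => ?_⟩
  have ha' : (x.ap φ).re = φ a := ha φ
  have hb' : (x.ap φ).im = φ b := hb φ
  rw [Cx.ap_add, Cx.ap_smul, io_ap, io_ap, ← ha', ← hb', mul_comm]
  exact (Complex.re_add_im _).symm

private lemma ev_form (α β : StrongDual ℝ E) (A : E →L[ℝ] E) (a b : E) :
    (ev α + Complex.I • ev β) (cx A (io a + Complex.I • io b)) =
      ((α (A a) : ℝ) : ℂ) + Complex.I * ((α (A b) : ℝ) : ℂ) +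
        Complex.I * (((β (A a) : ℝ) : ℂ) + Complex.I * ((β (A b) : ℝ) : ℂ)) := by
  have h1 : cx A (io a + Complex.I • io b) = io (A a) + Complex.I • io (A b) := by
    rw [map_add, map_smul, cx_io, cx_io]
  rw [h1]
  rfl

theorem exists_dual_re_im (hN : RNice E) (Φ : StrongDual ℂ (Cx E)) :
    ∃ α β : StrongDual ℝ E, Φ = ev α + Complex.I • ev β := by
  have hbd : ∀ e : E, ‖Φ (io e)‖ ≤ ‖Φ‖ * ‖e‖ := by
    intro e
    have h := Φ.le_opNorm (io e)
    rwa [norm_io] at h
  let α : StrongDual ℝ E := LinearMap.mkContinuous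
    { toFun := fun e => (Φ (io e)).re
      map_add' := by
        intro x y
        rw [io_add, map_add, Complex.add_re]
      map_smul' := by
        intro t x
        rw [io_smul, map_smul, smul_eq_mul, Complex.re_ofReal_mul]
        rfl } ‖Φ‖ (fun e => by
          change ‖(Φ (io e)).re‖ ≤ _
          rw [Real.norm_eq_abs]
          exact (Complex.abs_re_le_norm _).trans (hbd e))
  let β : StrongDual ℝ E := LinearMap.mkContinuous
    { toFun := fun e => (Φ (io e)).im
      map_add' := by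
        intro x y
        rw [io_add, map_add, Complex.add_im]
      map_smul' := by
        intro t x
        rw [io_smul, map_smul, smul_eq_mul, Complex.im_ofReal_mul]
        rfl } ‖Φ‖ (fun e => by
          change ‖(Φ (io e)).im‖ ≤ _
          rw [Real.norm_eq_abs]
          exact (Complex.abs_im_le_norm _).trans (hbd e))
  have hα : ∀ e, α e = (Φ (io e)).re := fun e => rfl
  have hβ : ∀ e, β e = (Φ (io e)).im := fun e => rfl
  refine ⟨α, β, ContinuousLinearMap.ext fun x => ?_⟩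
  obtain ⟨a, b, rfl⟩ := exists_re_im hN x
  have h1 := ev_form α β 1 a b
  rw [cx_one] at h1
  have h2 : (ev α + Complex.I • ev β) (io a + Complex.I • io b) =
      ((α a : ℝ) : ℂ) + Complex.I * ((α b : ℝ) : ℂ) +
        Complex.I * (((β a : ℝ) : ℂ) + Complex.I * ((β b : ℝ) : ℂ)) := h1
  rw [h2, map_add, map_smul, smul_eq_mul, hα, hα, hβ, hβ]
  have e1 : Φ (io a) = ((Φ (io a)).re : ℂ) + ((Φ (io a)).im : ℂ) * Complex.I :=
    (Complex.re_add_im _).symm
  have e2 : Φ (io b) = ((Φ (io b)).re : ℂ) + ((Φ (io b)).im : ℂ) * Complex.I :=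
    (Complex.re_add_im _).symm
  generalize ((Φ (io a)).re : ℂ) = p at *
  generalize ((Φ (io a)).im : ℂ) = q at *
  generalize ((Φ (io b)).re : ℂ) = r at *
  generalize ((Φ (io b)).im : ℂ) = s at *
  rw [e1, e2]
  ring

theorem refl_cx (hN : RNice E) (F : StrongDual ℂ (StrongDual ℂ (Cx E))) :
    ∃ x : Cx E, ∀ Φ : StrongDual ℂ (Cx E), F Φ = Φ x := by
  let y : StrongDual ℝ E →L[ℝ] ℂ := LinearMap.mkContinuous
    { toFun := fun φ => F (ev φ)
      map_add' := by
        intro φ ψ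
        have h : ev (φ + ψ) = ev φ + ev ψ := by
          ext1 x
          exact map_add x.ap φ ψ
        rw [h, map_add]
      map_smul' := by
        intro t φ
        have h : ev (t • φ) = (t : ℂ) • ev φ := by
          ext1 x
          exact (map_smul x.ap t φ).trans Complex.real_smul
        rw [h, map_smul]
        exact Complex.real_smul.symm } ‖F‖ (fun φ => by
          change ‖F (ev φ)‖ ≤ _
          exact (F.le_opNorm _).trans (mul_le_mul_of_nonneg_left (norm_ev_le φ) (norm_nonneg _)))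
  refine ⟨(y : Cx E), fun Φ => ?_⟩
  obtain ⟨α, β, rfl⟩ := exists_dual_re_im hN Φ
  rw [map_add, map_smul]
  rfl

theorem exists_ulim_cx (hN : RNice E) (D : ℕ → Cx E →L[ℂ] Cx E) (C : ℝ) (hD : ∀ n, ‖D n‖ ≤ C) :
    ∃ L : Cx E →L[ℂ] Cx E, ‖L‖ ≤ C ∧ HP.IsULim D L := by
  exact cr_gen ℂ (refl_cx hN) D C hD

theorem exists_rulim (hN : RNice E) (D : ℕ → E →L[ℝ] E) (C : ℝ) (hD : ∀ n, ‖D n‖ ≤ C) :
    ∃ L : E →L[ℝ] E, ‖L‖ ≤ C ∧ RULim D L := by
  exact cr_gen ℝ hN.refl D C hD

theorem RULim.unique {D : ℕ → E →L[ℝ] E} {L L' : E →L[ℝ] E} (h : RULim D L) (h' : RULim D L') :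
    L = L' := by
  ext x
  exact cr_sep (𝕜 := ℝ) fun φ => tendsto_nhds_unique (h x φ) (h' x φ)

theorem RULim.add {D D' : ℕ → E →L[ℝ] E} {L L' : E →L[ℝ] E} (h : RULim D L) (h' : RULim D' L') :
    RULim (fun n => D n + D' n) (L + L') := by
  intro x φ
  have h1 := (h x φ).add (h' x φ)
  rw [← map_add] at h1
  refine h1.congr fun n => ?_
  rw [← map_add]
  rfl

theorem RULim.smul {D : ℕ → E →L[ℝ] E} {L : E →L[ℝ] E} (h : RULim D L) (t : ℝ) :
    RULim (fun n => t • D n) (t • L) := by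
  intro x φ
  have h1 := (h x φ).const_smul t
  rw [← map_smul] at h1
  refine h1.congr fun n => ?_
  rw [← map_smul]
  rfl

theorem RULim.mul_left {D : ℕ → E →L[ℝ] E} {L : E →L[ℝ] E} (h : RULim D L) (A : E →L[ℝ] E) :
    RULim (fun n => A * D n) (A * L) := by
  intro x φ
  exact h x (φ.comp A)

theorem RULim.mul_right {D : ℕ → E →L[ℝ] E} {L : E →L[ℝ] E} (h : RULim D L) (A : E →L[ℝ] E) :
    RULim (fun n => D n * A) (L * A) := by
  intro x φ
  exact h (A x) φ

theorem RULim.const (A : E →L[ℝ] E) : RULim (fun _ => A) A := by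
  intro x φ
  exact tendsto_const_nhds

theorem rulim_of_tendsto {D : ℕ → E →L[ℝ] E} {L : E →L[ℝ] E} (h : Tendsto D atTop (𝓝 L)) :
    RULim D L := by
  intro x φ
  have h1 : Tendsto (fun n => D n x) atTop (𝓝 (L x)) :=
    ((ContinuousLinearMap.apply ℝ E x).continuous.tendsto L).comp h
  have h2 : Tendsto (fun n => φ (D n x)) atTop (𝓝 (φ (L x))) :=
    (φ.continuous.tendsto (L x)).comp h1
  exact h2.mono_left Nat.hyperfilter_le_atTop

theorem RULim.cx (hN : RNice E) {D : ℕ → E →L[ℝ] E} {L : E →L[ℝ] E} (h : RULim D L) :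
    HP.IsULim (fun n => RO.cx (D n)) (RO.cx L) := by
  intro x Φ
  obtain ⟨a, b, rfl⟩ := exists_re_im hN x
  obtain ⟨α, β, rfl⟩ := exists_dual_re_im hN Φ
  have hc : ∀ (φ : StrongDual ℝ E) (e : E), Tendsto (fun n => ((φ (D n e) : ℝ) : ℂ))
      (hyperfilter ℕ : Filter ℕ) (𝓝 ((φ (L e) : ℝ) : ℂ)) := fun φ e =>
    (Complex.continuous_ofReal.tendsto _).comp (h e φ)
  rw [ev_form]
  refine Tendsto.congr (fun n => (ev_form α β (D n) a b).symm) ?_
  exact ((hc α a).add ((hc α b).const_mul _)).add (((hc β a).add ((hc β b).const_mul _)).const_mul _)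

private theorem ulim_cx0 (hN : RNice E) {D : ℕ → E →L[ℝ] E} {L : Cx E →L[ℂ] Cx E}
    (h : HP.IsULim (fun n => cx (D n)) L) : ∃ L' : E →L[ℝ] E, RULim D L' ∧ L = cx L' := by
  have h0 : ∀ (a : E) (φ : StrongDual ℝ E), Tendsto (fun n => ((φ (D n a) : ℝ) : ℂ))
      (hyperfilter ℕ : Filter ℕ) (𝓝 ((L (io a)).ap φ)) := by
    intro a φ
    refine (h (io a) (ev φ)).congr fun n => ?_
    rw [cx_io, ev_io]
  have h1 : ∀ a : E, ∃ c : E, L (io a) = io c ∧ ∀ φ : StrongDual ℝ E,
      Tendsto (fun n => φ (D n a)) (hyperfilter ℕ : Filter ℕ) (𝓝 (φ c)) := by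
    intro a
    obtain ⟨c, d, hcd⟩ := exists_re_im hN (L (io a))
    have h2 : ∀ φ : StrongDual ℝ E, (L (io a)).ap φ = ((φ c : ℝ) : ℂ) + Complex.I * ((φ d : ℝ) : ℂ) := by
      intro φ
      rw [hcd]
      rfl
    have h3 : ∀ φ : StrongDual ℝ E, φ d = φ 0 := by
      intro φ
      have h4 := (Complex.continuous_im.tendsto _).comp (h0 a φ)
      have h5 : Tendsto (fun _ : ℕ => (0 : ℝ)) (hyperfilter ℕ : Filter ℕ)
          (𝓝 ((L (io a)).ap φ).im) := by
        refine h4.congr fun n => ?_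
        exact Complex.ofReal_im _
      have h6 := tendsto_nhds_unique h5 tendsto_const_nhds
      rw [h2] at h6
      rw [map_zero]
      simpa using h6
    have h7 : d = 0 := cr_sep (𝕜 := ℝ) h3
    refine ⟨c, ?_, fun φ => ?_⟩
    · rw [hcd, h7, io_zero, smul_zero, add_zero]
    · have h4 := (Complex.continuous_re.tendsto _).comp (h0 a φ)
      have h8 : ((L (io a)).ap φ).re = φ c := by
        rw [h2, h7, map_zero]
        simp
      rw [h8] at h4
      exact h4
  choose c hc1 hc2 using h1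
  let L1 : E →ₗ[ℝ] E :=
    { toFun := c
      map_add' := by
        intro x y
        apply io_inj
        rw [← hc1, io_add, io_add, map_add, hc1, hc1]
      map_smul' := by
        intro t x
        apply io_inj
        rw [← hc1, io_smul, map_smul, hc1, RingHom.id_apply, io_smul] }
  have hbd : ∀ x, ‖L1 x‖ ≤ ‖L‖ * ‖x‖ := by
    intro x
    have h2 := L.le_opNorm (io x)
    rw [hc1, norm_io, norm_io] at h2
    exact h2
  refine ⟨L1.mkContinuous ‖L‖ hbd, fun x φ => hc2 x φ, ?_⟩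
  ext1 x
  obtain ⟨a, b, rfl⟩ := exists_re_im hN x
  rw [map_add, map_smul, map_add, map_smul, hc1, hc1, cx_io, cx_io]
  rfl

theorem ulim_cx (hN : RNice E) {D : ℕ → E →L[ℝ] E} {L : Cx E →L[ℂ] Cx E}
    (h : HP.IsULim (fun n => Complex.I • cx (D n)) L) :
    ∃ L' : E →L[ℝ] E, RULim D L' ∧ L = Complex.I • cx L' := by
  have h1 := h.smul (-Complex.I)
  have h2 : (fun n => (-Complex.I) • (Complex.I • cx (D n))) = fun n => cx (D n) := by
    funext n
    rw [smul_smul, neg_mul, Complex.I_mul_I, neg_neg, one_smul]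
  rw [h2] at h1
  obtain ⟨L', hL', h3⟩ := ulim_cx0 hN h1
  refine ⟨L', hL', ?_⟩
  rw [← h3, smul_smul, mul_neg, Complex.I_mul_I, neg_neg, one_smul]

theorem ulim_cx' (hN : RNice E) {D : ℕ → E →L[ℝ] E} {L : Cx E →L[ℂ] Cx E}
    (h : HP.IsULim (fun n => cx (D n)) L) : ∃ L' : E →L[ℝ] E, RULim D L' ∧ L = cx L' := by
  exact ulim_cx0 hN h

end Pool.Agent.Helper61.RO
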