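import Pool.Agent.Helper61.RO.OffSmall

/-!
# RO-37  Conjugates of the triple under operators converging strongly to 1

PROOF of `dec_seq`. `A n = cj (T n) a` is skew, `‖A n‖ ≤ 1`, `A n x → a x` for all `x` (`T n (a ((T n)⁻¹ x))`, `‖(T n)⁻¹ x - x‖ = ‖x - T n x‖`). `p = - a a`, `q = 1 - p`.
`u n = p A q + q A p` (`A = A n`) is in `Lo a` (average of `A` and its conjugate by the isometric involution `1 - 2 p = rx π a`, `Sk.conj_inv`), `B n = A n - u n` is
skew and commutes with `a a`. Pointwise `u n x → 0`, `B n x → a x`. Take a unit vector `f ∈ H`: `‖u n (u n f)‖ ≤ 2 ‖u n f‖ → 0`, the same for `a f`, `b f`, `c f`; by `off_small`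
`‖u n‖ → 0`. `quat_even`: `B n = β₁ a + β₂ b + β₃ c + C n`. For `x ∈ H`: `4 β₁ a x = B x - a B a x + b B b x + c B c x` (check on `a`, `b`, `c`, `C`), and the limit of the right
side is `4 a x`; so `β₁ → 1`. By the cyclic formulas (`4 β₂ b x = B x - b B b x + c B c x + a B a x`, limit `0`; the same for `β₃`) `β₂, β₃ → 0`. So
`cj (T n) a - a - C n = u n + (β₁ - 1) a + β₂ b + β₃ c → 0` in norm.
-/

set_option autoImplicit false

open Filter Topology

namespace Pool.Agent.Helper61.RO

universe u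

variable {E : Type u} [NormedAddCommGroup E] [NormedSpace ℝ E] [CompleteSpace E]
  {a b c : E →L[ℝ] E}

/-- The coefficient extraction on the block of the triple. -/
private theorem h45_coef {a b c C B : E →L[ℝ] E} (h : Quat a b c) (hC : a * C = C * a)
    (hCb : b * C = C * b) (hCc : c * C = C * c) {β₁ β₂ β₃ : ℝ}
    (hB : B = β₁ • a + β₂ • b + β₃ • c + C) {x : E} (hx : a (a x) = -x) :
    B x - a (B (a x)) + b (B (b x)) + c (B (c x)) = (4 * β₁) • a x := by
  have hbb : b (b x) = -x := (h.blk hx).1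
  have hcc : c (c x) = -x := (h.blk hx).2
  have eab : ∀ y, a (b y) = c y := fun y => DFunLike.congr_fun h.ab y
  have ebc : ∀ y, b (c y) = a y := fun y => DFunLike.congr_fun h.bc y
  have eca : ∀ y, c (a y) = b y := fun y => DFunLike.congr_fun h.ca y
  have eba : ∀ y, b (a y) = -(c y) := fun y => DFunLike.congr_fun h.ba y
  have ecb : ∀ y, c (b y) = -(a y) := fun y => DFunLike.congr_fun h.cb y
  have eac : ∀ y, a (c y) = -(b y) := fun y => DFunLike.congr_fun h.ac y
  have eC : ∀ y, C (a y) = a (C y) := fun y => (DFunLike.congr_fun hC y).symm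
  have eCb : ∀ y, C (b y) = b (C y) := fun y => (DFunLike.congr_fun hCb y).symm
  have eCc : ∀ y, C (c y) = c (C y) := fun y => (DFunLike.congr_fun hCc y).symm
  have hCx : a (a (C x)) = -(C x) := by
    rw [← eC, ← eC, hx, map_neg]
  have hbC : b (b (C x)) = -(C x) := (h.blk hCx).1
  have hcC : c (c (C x)) = -(C x) := (h.blk hCx).2
  have e : ∀ y, B y = β₁ • a y + β₂ • b y + β₃ • c y + C y := by
    intro y
    rw [hB]
    rfl
  rw [e x, e (a x), e (b x), e (c x)]
  simp only [map_add, map_smul, map_neg, hx, hbb, hcc, eab, ebc, eca, eba, ecb, eac, eC, eCb, eCc,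
    hCx, hbC, hcC, smul_neg]
  module

/-- Convergence of the extracted coefficients. -/
private theorem h45_lim {a b c : E →L[ℝ] E} {B : ℕ → E →L[ℝ] E} {B' : E →L[ℝ] E}
    (hB : ∀ x, Tendsto (fun n => B n x) atTop (𝓝 (B' x))) (x : E) :
    Tendsto (fun n => B n x - a (B n (a x)) + b (B n (b x)) + c (B n (c x))) atTop
      (𝓝 (B' x - a (B' (a x)) + b (B' (b x)) + c (B' (c x)))) :=
  (((hB x).sub ((a.continuous.tendsto _).comp (hB (a x)))).add
    ((b.continuous.tendsto _).comp (hB (b x)))).add ((c.continuous.tendsto _).comp (hB (c x)))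

private theorem h45_scal {β : ℕ → ℝ} {t : ℝ} {y : E} (hy : y ≠ 0)
    (h : Tendsto (fun n => (4 * β n) • y) atTop (𝓝 ((4 * t) • y))) :
    Tendsto β atTop (𝓝 t) := by
  obtain ⟨φ, _, hφ⟩ := exists_dual_vector ℝ y (norm_ne_zero_iff.2 hy)
  have hφ' : φ y = ‖y‖ := by simpa using hφ
  have hy0 : 0 < ‖y‖ := norm_pos_iff.2 hy
  have h1 : Tendsto (fun n => φ ((4 * β n) • y)) atTop (𝓝 (φ ((4 * t) • y))) :=
    (φ.continuous.tendsto _).comp h
  have h2 := h1.mul_const ((4 * ‖y‖)⁻¹)
  have h3 : ∀ s : ℝ, φ ((4 * s) • y) * (4 * ‖y‖)⁻¹ = s := by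
    intro s
    rw [map_smul, hφ', smul_eq_mul]
    field_simp
  simp only [h3] at h2
  exact h2

theorem dec_seq (hN : RNice E) (h : Quat a b c) (hE : Ext a b c) {T : ℕ → E ≃ₗᵢ[ℝ] E}
    (hT : ∀ x, Tendsto (fun n => T n x) atTop (𝓝 x)) :
    ∃ C : ℕ → E →L[ℝ] E, (∀ n, a * C n = C n * a ∧ b * C n = C n * b ∧ c * C n = C n * c) ∧
      Tendsto (fun n => cj (T n) a - a - C n) atTop (𝓝 0) := by
  have hcub : Cub3 a := h.cub
  have han : ‖a‖ ≤ 1 := hcub.norm_le
  -- the isometric involution
  obtain ⟨S, hS⟩ : ∃ S : E →L[ℝ] E, S = 1 + (2 : ℝ) • (a * a) := ⟨_, rfl⟩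
  have hSn : ∀ x, ‖S x‖ = ‖x‖ := by
    intro x
    have h1 : S x = x + (2 : ℝ) • a (a x) := by
      rw [hS]
      rfl
    rw [h1]
    exact hcub.norm_refl x
  have hSn1 : ‖S‖ ≤ 1 := ContinuousLinearMap.opNorm_le_bound _ zero_le_one fun x => by
    rw [hSn, one_mul]
  have haa : a * a * (a * a) = -(a * a) := hcub.proj
  have hSS : S * S = 1 := by
    rw [hS]
    simp only [mul_add, add_mul, one_mul, mul_one, smul_mul_assoc, mul_smul_comm, haa, smul_neg]
    module
  have haaS : a * a * S = -(a * a) := by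
    rw [hS, mul_add, mul_smul_comm, haa, mul_one]
    module
  have hSaa : S * (a * a) = -(a * a) := by
    rw [hS, add_mul, smul_mul_assoc, haa, one_mul]
    module
  have hSaS : S * a * S = a := by
    have h1 : S * a = a * S := by
      rw [hS, mul_add, add_mul, mul_one, one_mul, smul_mul_assoc, mul_smul_comm, mul_assoc]
    rw [h1, mul_assoc, hSS, mul_one]
  -- the conjugates
  obtain ⟨A, hA⟩ : ∃ A : ℕ → E →L[ℝ] E, A = fun n => cj (T n) a := ⟨_, rfl⟩
  have hAn : ∀ n, A n = cj (T n) a := fun n => by rw [hA]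
  have hAsk : ∀ n, Sk (A n) := fun n => by
    rw [hAn]
    exact Sk.cj h.ska (T n)
  have hAnorm : ∀ n, ‖A n‖ ≤ 1 := fun n => by
    rw [hAn, norm_cj]
    exact han
  have hAlim : ∀ x, Tendsto (fun n => A n x) atTop (𝓝 (a x)) := by
    intro x
    have h1 : Tendsto (fun n => ‖x - T n x‖ + ‖T n (a x) - a x‖) atTop (𝓝 0) := by
      have h2 : Tendsto (fun n => ‖x - T n x‖) atTop (𝓝 0) := by
        have h3 := (tendsto_const_nhds (x := x)).sub (hT x)
        rw [sub_self] at h3
        simpa using h3.norm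
      have h3 : Tendsto (fun n => ‖T n (a x) - a x‖) atTop (𝓝 0) := by
        have h4 := (hT (a x)).sub (tendsto_const_nhds (x := a x))
        rw [sub_self] at h4
        simpa using h4.norm
      simpa using h2.add h3
    rw [tendsto_iff_norm_sub_tendsto_zero]
    refine squeeze_zero (fun n => norm_nonneg _) (fun n => ?_) h1
    have h2 : A n x - a x = T n (a ((T n).symm x - x)) + (T n (a x) - a x) := by
      rw [hAn, cj_apply, map_sub, map_sub]
      abel
    rw [h2]
    refine (norm_add_le _ _).trans (add_le_add_left ?_ _)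
    rw [(T n).norm_map]
    have h3 : ‖(T n).symm x - x‖ = ‖x - T n x‖ := by
      rw [← (T n).norm_map ((T n).symm x - x), map_sub, (T n).apply_symm_apply]
    rw [← h3]
    refine (a.le_opNorm _).trans ?_
    have := norm_nonneg ((T n).symm x - x)
    nlinarith
  -- the parts
  obtain ⟨u, hu⟩ : ∃ u : ℕ → E →L[ℝ] E, u = fun n => (1 / 2 : ℝ) • (A n - S * A n * S) := ⟨_, rfl⟩
  obtain ⟨B, hB⟩ : ∃ B : ℕ → E →L[ℝ] E, B = fun n => (1 / 2 : ℝ) • (A n + S * A n * S) := ⟨_, rfl⟩
  have hun : ∀ n, u n = (1 / 2 : ℝ) • (A n - S * A n * S) := fun n => by rw [hu]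
  have hBn : ∀ n, B n = (1 / 2 : ℝ) • (A n + S * A n * S) := fun n => by rw [hB]
  have hSAS : ∀ n, Sk (S * A n * S) := fun n => (hAsk n).conj_inv hSS hSn
  have huBA : ∀ n, A n = u n + B n := by
    intro n
    rw [hun, hBn]
    module
  have husk : ∀ n, Sk (u n) := fun n => by
    rw [hun]
    exact ((hAsk n).sub (hSAS n)).smul _
  have hBsk : ∀ n, Sk (B n) := fun n => by
    rw [hBn]
    exact ((hAsk n).add (hSAS n)).smul _
  have hBe : ∀ n, a * a * B n = B n * (a * a) := by
    intro n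
    rw [hBn, mul_smul_comm, smul_mul_assoc, mul_add, add_mul]
    congr 1
    have h1 : a * a * (S * A n * S) = -(a * a * A n * S) := by
      rw [← mul_assoc, ← mul_assoc, haaS, neg_mul, neg_mul]
    have h2 : S * A n * S * (a * a) = -(S * A n * (a * a)) := by
      rw [mul_assoc (S * A n), hSaa, mul_neg]
    have h3 : a * a * A n * S = a * a * A n + (2 : ℝ) • (a * a * A n * (a * a)) := by
      rw [hS, mul_add, mul_one, mul_smul_comm]
    have h4 : S * A n * (a * a) = A n * (a * a) + (2 : ℝ) • (a * a * A n * (a * a)) := by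
      rw [hS, add_mul, add_mul, one_mul, smul_mul_assoc, smul_mul_assoc]
    rw [h1, h2, h3, h4]
    abel
  have huLo : ∀ n, u n ∈ Lo a := by
    intro n
    refine ⟨husk n, ?_⟩
    have hSASe : S * A n * S = A n + (2 : ℝ) • (a * a * A n) + (2 : ℝ) • (A n * (a * a)) +
        (4 : ℝ) • (a * a * A n * (a * a)) := by
      rw [hS]
      simp only [add_mul, mul_add, one_mul, mul_one, smul_mul_assoc, mul_smul_comm, smul_smul,
        smul_add]
      module
    have hue : u n = -(a * a * A n) - A n * (a * a) - (2 : ℝ) • (a * a * A n * (a * a)) := by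
      rw [hun, hSASe]
      module
    have h1 : a * a * u n = a * a * A n + a * a * A n * (a * a) := by
      rw [hue]
      simp only [mul_sub, mul_neg, mul_smul_comm]
      rw [← mul_assoc (a * a) (a * a) (A n), haa, ← mul_assoc (a * a) (A n) (a * a),
        ← mul_assoc (a * a) (a * a * A n) (a * a), ← mul_assoc (a * a) (a * a) (A n), haa]
      simp only [neg_mul, neg_neg, smul_neg]
      module
    have h2 : u n * (a * a) = A n * (a * a) + a * a * A n * (a * a) := by
      rw [hue]
      simp only [sub_mul, neg_mul, smul_mul_assoc]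
      rw [mul_assoc (A n) (a * a) (a * a), haa, mul_assoc (a * a * A n) (a * a) (a * a), haa]
      simp only [mul_neg, neg_neg, smul_neg]
      module
    have h3 : a * a * u n * (a * a) = 0 := by
      rw [h1, add_mul, mul_assoc (a * a * A n) (a * a) (a * a), haa, mul_neg]
      abel
    have h4 : -(a * a) * u n * (1 + a * a) - (1 + a * a) * u n * (a * a) =
        -(a * a * u n) - u n * (a * a) - (2 : ℝ) • (a * a * u n * (a * a)) := by
      simp only [neg_mul, mul_add, mul_one, add_mul, one_mul]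
      module
    rw [h4, h3, h1, h2, hue]
    module
  have hun1 : ∀ n, ‖u n‖ ≤ 1 := by
    intro n
    rw [hun, norm_smul, Real.norm_eq_abs, abs_of_pos (by norm_num)]
    have h1 : ‖S * A n * S‖ ≤ 1 := by
      refine (norm_mul_le _ _).trans ?_
      have h2 := norm_mul_le S (A n)
      have h3 : ‖S‖ * ‖A n‖ ≤ 1 := mul_le_one₀ hSn1 (norm_nonneg _) (hAnorm n)
      exact mul_le_one₀ (h2.trans h3) (norm_nonneg _) hSn1
    have h2 := norm_sub_le (A n) (S * A n * S)
    have h3 := hAnorm n
    linarith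
  have hSASlim : ∀ x, Tendsto (fun n => (S * A n * S) x) atTop (𝓝 (a x)) := by
    intro x
    have h1 := (S.continuous.tendsto _).comp (hAlim (S x))
    have h2 : S (a (S x)) = a x := DFunLike.congr_fun hSaS x
    rw [h2] at h1
    exact h1
  have hulim : ∀ x, Tendsto (fun n => u n x) atTop (𝓝 0) := by
    intro x
    have h1 := ((hAlim x).sub (hSASlim x)).const_smul (1 / 2 : ℝ)
    rw [sub_self, smul_zero] at h1
    refine h1.congr fun n => ?_
    rw [hun]
    rfl
  have hBlim : ∀ x, Tendsto (fun n => B n x) atTop (𝓝 (a x)) := by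
    intro x
    have h1 := ((hAlim x).add (hSASlim x)).const_smul (1 / 2 : ℝ)
    have h2 : (1 / 2 : ℝ) • (a x + a x) = a x := by module
    rw [h2] at h1
    refine h1.congr fun n => ?_
    rw [hBn]
    rfl
  -- a unit vector in the block
  obtain ⟨f, hf1, hff⟩ : ∃ f : E, ‖f‖ = 1 ∧ a (a f) = -f := by
    have h1 : ∃ y, a y ≠ 0 := by
      by_contra hcon
      push Not at hcon
      exact h.ne (ContinuousLinearMap.ext hcon)
    obtain ⟨y, hy⟩ := h1
    have hy0 : 0 < ‖a y‖ := norm_pos_iff.2 hy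
    refine ⟨‖a y‖⁻¹ • a y, ?_, ?_⟩
    · rw [norm_smul, norm_inv, norm_norm, inv_mul_cancel₀ hy0.ne']
    · rw [map_smul, map_smul, (h.map y).1, smul_neg]
  have hf0 : f ≠ 0 := by
    intro h0
    rw [h0, norm_zero] at hf1
    exact zero_ne_one hf1
  -- the off-diagonal part tends to zero in norm
  have hu0 : Tendsto u atTop (𝓝 0) := by
    rw [tendsto_zero_iff_norm_tendsto_zero, Metric.tendsto_nhds]
    intro ε hε
    obtain ⟨δ, hδ, hoff⟩ := off_small hN h hE (half_pos hε)
    have hsm : ∀ x : E, ∀ᶠ n in atTop, ‖u n (u n x)‖ ≤ δ := by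
      intro x
      have h1 := (hulim x).norm
      rw [norm_zero] at h1
      filter_upwards [h1.eventually_lt_const hδ] with n hn
      refine ((u n).le_opNorm _).trans ?_
      have h2 := hun1 n
      have h3 := norm_nonneg (u n x)
      nlinarith
    filter_upwards [hsm f, hsm (a f), hsm (b f), hsm (c f)] with n h1 h2 h3 h4
    have h5 := hoff (u n) (huLo n) f hff hf1 h1 h2 h3 h4
    rw [Real.dist_eq, sub_zero, abs_of_nonneg (norm_nonneg _)]
    linarith
  -- the decomposition of the even part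
  have hdec := fun n => quat_even h hE (hBsk n) (hBe n)
  choose β₁ β₂ β₃ C hCsk hCa hCb hCc hBC using hdec
  have haf : a f ≠ 0 := by
    intro h0
    rw [h0, map_zero] at hff
    exact hf0 (neg_eq_zero.1 hff.symm)
  have hbf : b f ≠ 0 := by
    intro h0
    have h1 := (h.blk hff).1
    rw [h0, map_zero] at h1
    exact hf0 (neg_eq_zero.1 h1.symm)
  have hcf : c f ≠ 0 := by
    intro h0
    have h1 := (h.blk hff).2
    rw [h0, map_zero] at h1
    exact hf0 (neg_eq_zero.1 h1.symm)
  have hbb : b (b f) = -f := (h.blk hff).1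
  have hcc : c (c f) = -f := (h.blk hff).2
  have h1 : Tendsto β₁ atTop (𝓝 1) := by
    refine h45_scal haf ?_
    have h2 := h45_lim (a := a) (b := b) (c := c) hBlim f
    have h3 := h45_coef h (C := 0) (β₁ := 1) (β₂ := 0) (β₃ := 0) (B := a) (by simp) (by simp)
      (by simp) (by simp) hff
    rw [h3] at h2
    refine h2.congr fun n => ?_
    exact h45_coef h (hCa n) (hCb n) (hCc n) (hBC n) hff
  have h2 : Tendsto β₂ atTop (𝓝 0) := by
    refine h45_scal hbf ?_
    have h2 := h45_lim (a := b) (b := c) (c := a) hBlim f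
    have h3 := h45_coef h.cyc (C := 0) (β₁ := 0) (β₂ := 0) (β₃ := 1) (B := a) (by simp) (by simp)
      (by simp) (by simp) hbb
    rw [h3] at h2
    refine h2.congr fun n => ?_
    exact h45_coef h.cyc (hCb n) (hCc n) (hCa n) (β₁ := β₂ n) (β₂ := β₃ n) (β₃ := β₁ n)
      (by rw [hBC n]; abel) hbb
  have h3 : Tendsto β₃ atTop (𝓝 0) := by
    refine h45_scal hcf ?_
    have h2 := h45_lim (a := c) (b := a) (c := b) hBlim f
    have h3 := h45_coef h.cyc.cyc (C := 0) (β₁ := 0) (β₂ := 1) (β₃ := 0) (B := a) (by simp)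
      (by simp) (by simp) (by simp) hcc
    rw [h3] at h2
    refine h2.congr fun n => ?_
    exact h45_coef h.cyc.cyc (hCc n) (hCa n) (hCb n) (β₁ := β₃ n) (β₂ := β₁ n) (β₃ := β₂ n)
      (by rw [hBC n]; abel) hcc
  refine ⟨C, fun n => ⟨hCa n, hCb n, hCc n⟩, ?_⟩
  have h4 : Tendsto (fun n => u n + ((β₁ n - 1) • a + β₂ n • b + β₃ n • c)) atTop (𝓝 0) := by
    have h5 := (((h1.sub_const 1).smul_const a).add (h2.smul_const b)).add (h3.smul_const c)
    have h6 := hu0.add h5
    simpa using h6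
  refine h4.congr fun n => ?_
  rw [← hAn n, huBA n, hBC n]
  module

end Pool.Agent.Helper61.RO
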