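import Pool.Agent.Helper61.HO.Defs

/-!
# Real Banach spaces with a one-parameter group of isometries: definitions (project RO, MP_cc72b1_an)

THEOREM RO. Let `E` be a separable real Banach space without a copy of `ℓ¹` whose isometries act transitively on the unit
sphere. If there is a bounded operator `D` such that all the `exp (t D)` are isometric and `D ^ 2` is not a multiple of
the identity, then `E` is a Hilbert space.

`E` is a real Banach space. `Cx E` is its complexification, realised as `StrongDual ℝ E →L[ℝ] ℂ` (a complex Banach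
space, `x.ap` is `x` as a map); `io x` is the vector `x` of `E` in `Cx E`, `cx D` is the complexification of the operator `D`.
The projects HP and HO (operators in complex Banach spaces) are applied in `Cx E`.

* `Sk D`: `D` is skew (`exp (t D)` is isometric for all real `t`), by definition: `cx D` is skew in the sense of HP;
* `Cub3 D`: `D` is skew, `D ^ 3 = - D`, `D ≠ 0` (the generator of the rotations of a complex subspace);
* `RNice E`: reflexive, uniformly convex, uniformly smooth; `RTrans E`: transitive;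
* `dj x`: the norming functional of `x`.
-/

set_option autoImplicit false

open Filter Topology

namespace Pool.Agent.Helper61.RO

universe u

variable {E : Type u} [NormedAddCommGroup E] [NormedSpace ℝ E]

/-- the complexification of `E` -/
def Cx (E : Type u) [NormedAddCommGroup E] [NormedSpace ℝ E] : Type u :=
  StrongDual ℝ E →L[ℝ] ℂ

noncomputable instance : NormedAddCommGroup (Cx E) :=
  inferInstanceAs (NormedAddCommGroup (StrongDual ℝ E →L[ℝ] ℂ))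

noncomputable instance : NormedSpace ℂ (Cx E) :=
  inferInstanceAs (NormedSpace ℂ (StrongDual ℝ E →L[ℝ] ℂ))

instance : CompleteSpace (Cx E) :=
  inferInstanceAs (CompleteSpace (StrongDual ℝ E →L[ℝ] ℂ))

/-- the elements of `Cx E` as maps on the dual space -/
def Cx.ap (x : Cx E) : StrongDual ℝ E →L[ℝ] ℂ := x

/-- the vector `x` of `E` as an element of the complexification -/
noncomputable def io (x : E) : Cx E :=
  (Complex.ofRealCLM.comp (NormedSpace.inclusionInDoubleDual ℝ E x) : StrongDual ℝ E →L[ℝ] ℂ)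

/-- the transpose of an operator -/
noncomputable def tr (D : E →L[ℝ] E) : StrongDual ℝ E →L[ℝ] StrongDual ℝ E :=
  (ContinuousLinearMap.compL ℝ E E ℝ).flip D

/-- the complexification of an operator -/
noncomputable def cx (D : E →L[ℝ] E) : Cx E →L[ℂ] Cx E :=
  LinearMap.mkContinuous
    { toFun := fun x => ((x.ap.comp (tr D) : StrongDual ℝ E →L[ℝ] ℂ) : Cx E)
      map_add' := fun x y => rfl
      map_smul' := fun c x => rfl }
    ‖tr D‖ (fun x => by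
      rw [mul_comm]
      exact ContinuousLinearMap.opNorm_comp_le x.ap (tr D))

/-- skew operators -/
def Sk (D : E →L[ℝ] E) : Prop := HP.Skew (cx D)

/-- the one-parameter group of `D` -/
noncomputable def rx (t : ℝ) (D : E →L[ℝ] E) : E →L[ℝ] E := NormedSpace.exp (t • D)

/-- the commutator -/
def br (A B : E →L[ℝ] E) : E →L[ℝ] E := A * B - B * A

/-- skew operators with `D ^ 3 = - D ≠ 0` -/
structure Cub3 (D : E →L[ℝ] E) : Prop where
  sk : Sk D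
  cube : D * D * D = -D
  ne : D ≠ 0

/-- reflexive, uniformly convex, uniformly smooth -/
structure RNice (E : Type u) [NormedAddCommGroup E] [NormedSpace ℝ E] : Prop where
  refl : ∀ F : StrongDual ℝ (StrongDual ℝ E), ∃ x : E, ∀ φ : StrongDual ℝ E, F φ = φ x
  convex : ∀ ε : ℝ, 0 < ε → ∃ δ : ℝ, 0 < δ ∧ ∀ x y : E, ‖x‖ = 1 → ‖y‖ = 1 → ε ≤ ‖x - y‖ →
    ‖x + y‖ ≤ 2 - δ
  smooth : ∀ ε : ℝ, 0 < ε → ∃ δ : ℝ, 0 < δ ∧ ∀ x h : E, ‖x‖ = 1 → ‖h‖ ≤ δ →
    ‖x + h‖ + ‖x - h‖ ≤ 2 + ε * ‖h‖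

/-- the isometries act transitively on the unit sphere -/
def RTrans (E : Type u) [NormedAddCommGroup E] [NormedSpace ℝ E] : Prop :=
  ∀ x y : E, ‖x‖ = 1 → ‖y‖ = 1 → ∃ T : E ≃ₗᵢ[ℝ] E, T x = y

/-- `φ` is a norming functional of `x` -/
def RNorming (φ : StrongDual ℝ E) (x : E) : Prop := ‖φ‖ ≤ 1 ∧ φ x = ‖x‖

/-- a norming functional of `x` (unique for `x ≠ 0` if `E` is smooth) -/
noncomputable def dj (x : E) : StrongDual ℝ E := (exists_dual_vector'' ℝ x).choose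

/-- the conjugate `T D T⁻¹` of an operator by an isometry -/
noncomputable def cj (T : E ≃ₗᵢ[ℝ] E) (D : E →L[ℝ] E) : E →L[ℝ] E :=
  ((T : E ≃L[ℝ] E) : E →L[ℝ] E) * D * ((T.symm : E ≃L[ℝ] E) : E →L[ℝ] E)

/-- `L` is the ultralimit of the sequence `D` in the weak operator topology -/
def RULim (D : ℕ → E →L[ℝ] E) (L : E →L[ℝ] E) : Prop :=
  ∀ (x : E) (φ : StrongDual ℝ E),
    Tendsto (fun n => φ (D n x)) (hyperfilter ℕ : Filter ℕ) (𝓝 (φ (L x)))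

/-- the evaluation `x ↦ x.ap φ` as a functional on `Cx E` -/
noncomputable def ev (φ : StrongDual ℝ E) : StrongDual ℂ (Cx E) :=
  LinearMap.mkContinuous
    { toFun := fun x : Cx E => x.ap φ
      map_add' := fun x y => rfl
      map_smul' := fun c x => rfl }
    ‖φ‖ (fun x => by
      rw [mul_comm]
      exact x.ap.le_opNorm φ)

/-- the hermitian operators `i D`, `D` in the set `𝔠` of skew operators of `E` -/
def hc (𝔠 : Set (E →L[ℝ] E)) : Set (Cx E →L[ℂ] Cx E) :=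
  {A | ∃ D : E →L[ℝ] E, D ∈ 𝔠 ∧ A = Complex.I • cx D}

/-- the set of all skew operators -/
def gg (E : Type u) [NormedAddCommGroup E] [NormedSpace ℝ E] : Set (E →L[ℝ] E) := {D | Sk D}

/-- real Lie algebras of skew operators, closed under ultralimits -/
structure RLie (𝔠 : Set (E →L[ℝ] E)) : Prop where
  sk : ∀ D ∈ 𝔠, Sk D
  zero : (0 : E →L[ℝ] E) ∈ 𝔠
  add : ∀ D ∈ 𝔠, ∀ D' ∈ 𝔠, D + D' ∈ 𝔠
  smul : ∀ t : ℝ, ∀ D ∈ 𝔠, t • D ∈ 𝔠
  br : ∀ D ∈ 𝔠, ∀ D' ∈ 𝔠, br D D' ∈ 𝔠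
  ulim : ∀ (D : ℕ → E →L[ℝ] E) (L : E →L[ℝ] E), (∀ n, D n ∈ 𝔠) → RULim D L → L ∈ 𝔠

/-! ### Links -/

/-- real links: real spaces of skew operators closed under ultralimits and `A B A` -/
structure RLink (𝓛 : Set (E →L[ℝ] E)) : Prop where
  sk : ∀ D ∈ 𝓛, Sk D
  zero : (0 : E →L[ℝ] E) ∈ 𝓛
  add : ∀ D ∈ 𝓛, ∀ D' ∈ 𝓛, D + D' ∈ 𝓛
  smul : ∀ t : ℝ, ∀ D ∈ 𝓛, t • D ∈ 𝓛
  ulim : ∀ (D : ℕ → E →L[ℝ] E) (L : E →L[ℝ] E), (∀ n, D n ∈ 𝓛) → RULim D L → L ∈ 𝓛
  tri : ∀ A ∈ 𝓛, ∀ B ∈ 𝓛, A * B * A ∈ 𝓛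

/-- tripotents of a link -/
structure RTrip (𝓛 : Set (E →L[ℝ] E)) (W : E →L[ℝ] E) : Prop where
  mem : W ∈ 𝓛
  norm_le : ‖W‖ ≤ 1
  cube : W * W * W = -W

/-- the support of a tripotent -/
noncomputable def su (W : E →L[ℝ] E) : E →L[ℝ] E := -(W * W)

/-- `W` is a tripotent of the link which maximises `ρ (D x)` over the unit ball of the link -/
structure RMaxTrip (𝓛 : Set (E →L[ℝ] E)) (ρ : StrongDual ℝ E) (x : E) (W : E →L[ℝ] E) : Prop
    extends RTrip 𝓛 W where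
  max : ∀ D ∈ 𝓛, ‖D‖ ≤ 1 → ρ (D x) ≤ ρ (W x)

/-- frames of three blocks (the ranges of the projections `p i`) with the links `𝓛 i j` between
the blocks `i ≠ j` -/
structure RFrame (p : Fin 3 → (E →L[ℝ] E)) (𝓛 : Fin 3 → Fin 3 → Set (E →L[ℝ] E)) : Prop where
  idem : ∀ i, p i * p i = p i
  orth : ∀ i j, i ≠ j → p i * p j = 0
  sum : p 0 + p 1 + p 2 = 1
  sgn : ∀ i x, ‖x - (2 : ℝ) • p i x‖ = ‖x‖
  link : ∀ i j, i ≠ j → RLink (𝓛 i j)
  symm : ∀ i j, 𝓛 i j = 𝓛 j i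
  off : ∀ i j, i ≠ j → ∀ D ∈ 𝓛 i j, D = p i * D * p j + p j * D * p i
  brk : ∀ i j k, i ≠ j → j ≠ k → i ≠ k → ∀ D ∈ 𝓛 i j, ∀ D' ∈ 𝓛 j k, br D D' ∈ 𝓛 i k
  dense : ∀ i j, i ≠ j → ∀ x : E, x ≠ 0 → p j x = x → ∀ y : E, p i y = y → ∀ ε : ℝ, 0 < ε →
    ∃ D ∈ 𝓛 i j, ‖D x - y‖ < ε

/-- the algebra of words in the link, as pairs `(a, a*)` -/
inductive RAlg (𝓛 : Set (E →L[ℝ] E)) : (E →L[ℝ] E) → (E →L[ℝ] E) → Prop
  | one : RAlg 𝓛 1 1
  | gen (D D' : E →L[ℝ] E) (h : D ∈ 𝓛) (h' : D' ∈ 𝓛) : RAlg 𝓛 (D * D') (D' * D)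
  | add (a b a' b' : E →L[ℝ] E) (h : RAlg 𝓛 a b) (h' : RAlg 𝓛 a' b') : RAlg 𝓛 (a + a') (b + b')
  | smul (t : ℝ) (a b : E →L[ℝ] E) (h : RAlg 𝓛 a b) : RAlg 𝓛 (t • a) (t • b)
  | mul (a b a' b' : E →L[ℝ] E) (h : RAlg 𝓛 a b) (h' : RAlg 𝓛 a' b') : RAlg 𝓛 (a * a') (b' * b)

/-- good vectors: `ρ (D D' ζ) = ρ (D' D ζ)` -/
def RGood (𝓛 : Set (E →L[ℝ] E)) (ρ : StrongDual ℝ E) (ζ : E) : Prop :=
  ∀ D ∈ 𝓛, ∀ D' ∈ 𝓛, ρ (D (D' ζ)) = ρ (D' (D ζ))

/-- positive vectors: `ρ (D D ζ) ≤ 0` -/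
def RPos (𝓛 : Set (E →L[ℝ] E)) (ρ : StrongDual ℝ E) (ζ : E) : Prop :=
  ∀ D ∈ 𝓛, ρ (D (D ζ)) ≤ 0

end Pool.Agent.Helper61.RO
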