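import Pool.Agent.Helper61.RO.Defs

/-!
# Definitions for case (alpha) (project RO, MP_cc72b1_an)

`AlphaData D₁ D₂`: two orthogonal operators with `D ^ 3 = - D` and a common kernel vector. `pa D₁ D₂` are the three projections,
`Lof p i j` the skew operators which exchange the blocks `i` and `j` (and vanish on the third one), `LL p i j` the smallest set
containing the commutators `[C, D]`, `C ∈ Lof p i k`, `D ∈ Lof p k j` (`k = - (i + j)` the third index), closed under sums, real multiples and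
ultralimits.
-/

set_option autoImplicit false

open Filter Topology

namespace Pool.Agent.Helper61.RO

universe u

variable {E : Type u} [NormedAddCommGroup E] [NormedSpace ℝ E]

/-- two orthogonal cubs with a common kernel vector -/
structure AlphaData (D₁ D₂ : E →L[ℝ] E) : Prop where
  cub₁ : Cub3 D₁
  cub₂ : Cub3 D₂
  mul : D₁ * D₂ = 0
  mul' : D₂ * D₁ = 0
  ker : ∃ x, D₁ x = 0 ∧ D₂ x = 0 ∧ x ≠ 0

/-- the three projections -/
noncomputable def pa (D₁ D₂ : E →L[ℝ] E) : Fin 3 → (E →L[ℝ] E) :=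
  ![-(D₁ * D₁), -(D₂ * D₂), 1 + D₁ * D₁ + D₂ * D₂]

/-- skew operators exchanging two blocks -/
def Lof (p : Fin 3 → (E →L[ℝ] E)) (i j : Fin 3) : Set (E →L[ℝ] E) :=
  {B | Sk B ∧ B = p i * B * p j + p j * B * p i}

/-- the closed span of the commutators -/
inductive LLp (p : Fin 3 → (E →L[ℝ] E)) (i j : Fin 3) : (E →L[ℝ] E) → Prop
  | gen (C D : E →L[ℝ] E) (hC : C ∈ Lof p i (-(i + j))) (hD : D ∈ Lof p (-(i + j)) j) :
      LLp p i j (br C D)
  | add (A B : E →L[ℝ] E) (hA : LLp p i j A) (hB : LLp p i j B) : LLp p i j (A + B)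
  | smul (t : ℝ) (A : E →L[ℝ] E) (hA : LLp p i j A) : LLp p i j (t • A)
  | ulim (D : ℕ → E →L[ℝ] E) (L : E →L[ℝ] E) (hD : ∀ n, LLp p i j (D n)) (h : RULim D L) :
      LLp p i j L

/-- the links of the frame -/
def LL (p : Fin 3 → (E →L[ℝ] E)) (i j : Fin 3) : Set (E →L[ℝ] E) := {B | LLp p i j B}

end Pool.Agent.Helper61.RO
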