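import Pool.Agent.Helper61.RO.DefsC
import Pool.Agent.Helper61.RO.DefsA

/-!
# Definitions for the structure theorem (project RO, MP_cc72b1_an)

`𝔠` is a real Lie algebra of skew operators (`RLie`), `hc 𝔠` the corresponding set of hermitian operators of `Cx E`,
`HP.Pr (hc 𝔠) k l`: `k` is in the complexification of `𝔠` and `l` is its star.

* `TT 𝔠 w w'`: `w` is a tripotent, `[[w, w'], w] = 2 w`, with `(ad w)³ = 0` on the complexification of `𝔠`;
* `Spec w w' M p`: the integer grading of `S = [w, w']`, `M` is the largest weight;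
* `CExt 𝔠 w w'`: the weight space `2` of `ad S` is `ℂ w`;
* `Tri w w' a b c`: the real triple of `w`; `Su2 a b c`: real `su(2)` triples;
* `OutA`, `OutC`: the two outcomes of the structure theorem.
-/

set_option autoImplicit false

open Filter Topology

namespace Pool.Agent.Helper61.RO

universe u

variable {E : Type u} [NormedAddCommGroup E] [NormedSpace ℝ E]

/-- tripotents with `(ad w)³ = 0` -/
structure TT (𝔠 : Set (E →L[ℝ] E)) (w w' : Cx E →L[ℂ] Cx E) : Prop where
  pr : HP.Pr (hc 𝔠) w w'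
  ne : w ≠ 0
  tri : HP.lie (HP.lie w w') w = (2 : ℂ) • w
  nil : ∀ k l, HP.Pr (hc 𝔠) k l → HP.lie w (HP.lie w (HP.lie w k)) = 0

/-- the grading of `[w, w']` and its largest weight -/
structure Spec (w w' : Cx E →L[ℂ] Cx E) (M : ℕ) (p : ℤ → Cx E →L[ℂ] Cx E) : Prop where
  grad : HP.Grad (HP.lie w w') M p
  pos : 0 < M
  top : p (M : ℤ) ≠ 0
  bot : p (-(M : ℤ)) ≠ 0

/-- the weight space `2` is one-dimensional -/
def CExt (𝔠 : Set (E →L[ℝ] E)) (w w' : Cx E →L[ℂ] Cx E) : Prop :=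
  ∀ k l, HP.Pr (hc 𝔠) k l → HP.lie (HP.lie w w') k = (2 : ℂ) • k → ∃ z : ℂ, k = z • w

/-- real `su(2)` triples -/
structure Su2 (a b c : E →L[ℝ] E) : Prop where
  ska : Sk a
  skb : Sk b
  skc : Sk c
  ab : br a b = (2 : ℝ) • c
  bc : br b c = (2 : ℝ) • a
  ca : br c a = (2 : ℝ) • b
  ne : a ≠ 0

/-- the real triple of a tripotent -/
structure Tri (w w' : Cx E →L[ℂ] Cx E) (a b c : E →L[ℝ] E) : Prop where
  ea : cx a = Complex.I • HP.lie w w'
  eb : cx b = w' - w
  ec : cx c = -(Complex.I • (w + w'))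

/-- orthogonality of two tripotents -/
structure Orth (e e₁ f f₁ : Cx E →L[ℂ] Cx E) : Prop where
  h : HP.lie e f = 0
  h₁ : HP.lie e f₁ = 0
  h₂ : HP.lie f e₁ = 0

/-- every skew operator is the sum of an element of the triple and of an operator commuting with it -/
def Dec0 (a b c : E →L[ℝ] E) : Prop :=
  ∀ B : E →L[ℝ] E, Sk B → ∃ (r s t : ℝ) (C : E →L[ℝ] E), Sk C ∧ a * C = C * a ∧ b * C = C * b ∧
    c * C = C * c ∧ B = r • a + s • b + t • c + C

/-- operators of spin one half -/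
def Half (a : E →L[ℝ] E) : Set (E →L[ℝ] E) := {u | Sk u ∧ br a (br a u) = -u}

/-- the span of the triple -/
def Mm (a b c : E →L[ℝ] E) : Set (E →L[ℝ] E) := {X | ∃ r s t : ℝ, X = r • a + s • b + t • c}

/-- first outcome -/
def OutA (E : Type u) [NormedAddCommGroup E] [NormedSpace ℝ E] : Prop :=
  ∃ D₁ D₂ : E →L[ℝ] E, AlphaData D₁ D₂

/-- second outcome -/
def OutC (E : Type u) [NormedAddCommGroup E] [NormedSpace ℝ E] : Prop :=
  ∃ a b c : E →L[ℝ] E, Quat a b c ∧ Ext a b c ∧ ∃ x, a x = 0 ∧ x ≠ 0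

end Pool.Agent.Helper61.RO
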