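import Pool.Agent.Helper61.RO.DjApi
import Pool.Agent.Helper61.RO.RMicro

/-!
# RO-07  The incidence lemma

`g` = skew operators. `x ≠ 0`, `ψ (B x) = 0` for all `B ∈ g`.

PROOF of `inc_left` (`D x = 0` implies `ψ (D v) = 0`). Scale: `‖x‖ = 1`. Let `v : E`, `η > 0`; `δ` from `rmicro` for the pair `v, D v` and `η`. For small
`t > 0` put `s = ‖x + t v‖ > 0`, `y = (x + t v) / s`, `‖y - x‖ < δ`. Let `η' > 0` (arbitrary) and `T` as in `rmicro`. `D' = cj T D` is skew (`Sk.cj`),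
`D' (T x) = T (D x) = 0`, so `‖D' y‖ = ‖D' (y - T x)‖ ≤ ‖D‖ η'` and `‖D' (x + t v)‖ ≤ s ‖D‖ η'`. As `ψ (D' x) = 0`:
`t |ψ (D' v)| = |ψ (D' (x + t v))| ≤ ‖ψ‖ s ‖D‖ η'`. With `η' = t η` (and `s ≤ 2`): `|ψ (D' v)| ≤ 2 ‖ψ‖ ‖D‖ η`. Moreover
`‖D' v - D v‖ ≤ ‖T D (T⁻¹ v - v)‖ + ‖T (D v) - D v‖ ≤ (‖D‖ + 1) η`. So `|ψ (D v)| ≤ (2 ‖D‖ + ‖D‖ + 1) ‖ψ‖ η` for all `η > 0`.

PROOF of `inc_right` (`ψ ≠ 0` and `ψ (D v) = 0` for all `v` imply `D x = 0`). It is enough to show `φ (D x) = 0` for all `φ` in the dual space.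
`ψ = ‖ψ‖ dj r`, `‖r‖ = 1` (`dj_surj`). Let `η > 0`, `δ` from `rmicro` for the unit vector `r`, the pair `x, D x` and `η`. For small `t > 0`,
`ψ_t = ψ + t φ ≠ 0`, `ψ_t = ‖ψ_t‖ dj r_t`; `‖dj r_t - dj r‖ → 0` for `t → 0`, so `‖r_t - r‖ < δ` for small `t` (`dj_unif_inv`). Fix such a `t`. For
`ε > 0` let `η'` be as in `dj_unif` for `ε`, and `T` with `‖T r - r_t‖ < η'`. `D' = cj T D`: `dj (T r) (D' z) = dj (T r) (T (D (T⁻¹ z))) =
dj r (D (T⁻¹ z)) = 0` (`dj_iso`). So `|ψ_t (D' x)| = ‖ψ_t‖ |dj r_t (D' x)| ≤ ‖ψ_t‖ ε ‖D‖ ‖x‖`, and `ψ_t (D' x) = t φ (D' x)`. Choose `ε` so that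
`|φ (D' x)| ≤ η`. `‖D' x - D x‖ ≤ (‖D‖ + 1) η`. So `|φ (D x)| ≤ (1 + (‖D‖ + 1) ‖φ‖) η` for all `η > 0`.

PROOF of `mem_closure_of_ker`. `{B x | B skew}` is a subspace. If `D v` is not in its closure, there is by Hahn-Banach (`geometric_hahn_banach`
or `Submodule.exists_le_ker_of_notMem_closure`-type lemmas) a functional `ψ` vanishing on it with `ψ (D v) ≠ 0`; contradiction to `inc_left`.
-/

set_option autoImplicit false

open Filter Topology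

namespace Pool.Agent.Helper61.RO

universe u

variable {E : Type u} [NormedAddCommGroup E] [NormedSpace ℝ E] [CompleteSpace E]
  [TopologicalSpace.SeparableSpace E]

private theorem inc_small {a C : ℝ} (hC : 0 ≤ C) (h : ∀ η : ℝ, 0 < η → a ≤ C * η) : a ≤ 0 := by
  by_contra hc
  push Not at hc
  have h1 : 0 < a / (2 * (C + 1)) := by positivity
  have h2 := h _ h1
  have h3 : C * (a / (2 * (C + 1))) ≤ a / 2 := by
    rw [← mul_div_assoc, div_le_div_iff₀ (by positivity) (by norm_num)]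
    nlinarith
  linarith

omit [TopologicalSpace.SeparableSpace E] in
private theorem inc_conj_sub (T : E ≃ₗᵢ[ℝ] E) (D : E →L[ℝ] E) {v : E} {η : ℝ}
    (h1 : ‖T v - v‖ < η) (h2 : ‖T (D v) - D v‖ < η) :
    ‖cj T D v - D v‖ ≤ (‖D‖ + 1) * η := by
  have e : cj T D v - D v = T (D (T.symm v - v)) + (T (D v) - D v) := by
    rw [cj_apply, map_sub, map_sub]
    abel
  have h3 : ‖T.symm v - v‖ < η := by
    have e1 : T.symm v - v = T.symm (v - T v) := by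
      rw [map_sub, T.symm_apply_apply]
    rw [e1, T.symm.norm_map, ← norm_neg, neg_sub]
    exact h1
  have h4 : ‖T (D (T.symm v - v))‖ ≤ ‖D‖ * η := by
    rw [T.norm_map]
    exact (D.le_opNorm _).trans (mul_le_mul_of_nonneg_left h3.le (norm_nonneg _))
  calc ‖cj T D v - D v‖ = ‖T (D (T.symm v - v)) + (T (D v) - D v)‖ := by rw [e]
    _ ≤ ‖T (D (T.symm v - v))‖ + ‖T (D v) - D v‖ := norm_add_le _ _
    _ ≤ ‖D‖ * η + η := add_le_add h4 h2.le
    _ = (‖D‖ + 1) * η := by ring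

private theorem inc_left_unit (htr : RTrans E) {x : E} (hx : ‖x‖ = 1) {ψ : StrongDual ℝ E}
    (hψ : ∀ B : E →L[ℝ] E, Sk B → ψ (B x) = 0) {D : E →L[ℝ] E} (hD : Sk D) (h : D x = 0) (v : E) :
    ψ (D v) = 0 := by
  have key : ∀ η : ℝ, 0 < η → |ψ (D v)| ≤ (‖ψ‖ * (3 * ‖D‖ + 1)) * η := by
    intro η hη
    obtain ⟨δ, hδ, hm⟩ := rmicro htr hx ![v, D v] hη
    obtain ⟨t, ht, htv⟩ : ∃ t : ℝ, 0 < t ∧ t * ‖v‖ ≤ min (1 / 2) (δ / 4) := by
      have hm0 : 0 < min (1 / 2 : ℝ) (δ / 4) := lt_min (by norm_num) (by positivity)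
      refine ⟨min (1 / 2) (δ / 4) / (‖v‖ + 1), by positivity, ?_⟩
      rw [div_mul_eq_mul_div, div_le_iff₀ (by positivity)]
      nlinarith [norm_nonneg v]
    have htv1 : t * ‖v‖ ≤ 1 / 2 := htv.trans (min_le_left _ _)
    have htv2 : t * ‖v‖ ≤ δ / 4 := htv.trans (min_le_right _ _)
    have hntv : ‖t • v‖ = t * ‖v‖ := by rw [norm_smul, Real.norm_eq_abs, abs_of_pos ht]
    obtain ⟨s, hs⟩ : ∃ s : ℝ, s = ‖x + t • v‖ := ⟨_, rfl⟩
    have hs1 : s ≤ 1 + t * ‖v‖ := by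
      rw [hs, ← hx, ← hntv]
      exact norm_add_le _ _
    have hs2 : 1 - t * ‖v‖ ≤ s := by
      have e1 : x = (x + t • v) - t • v := by abel
      have e2 : ‖x‖ ≤ ‖x + t • v‖ + ‖t • v‖ := by
        conv_lhs => rw [e1]
        exact norm_sub_le _ _
      rw [hx, ← hs, hntv] at e2
      linarith
    have hs0 : 0 < s := by linarith
    obtain ⟨y, hy⟩ : ∃ y : E, y = s⁻¹ • (x + t • v) := ⟨_, rfl⟩
    have hsy : s • y = x + t • v := by
      rw [hy, smul_smul, mul_inv_cancel₀ hs0.ne', one_smul]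
    have hny : ‖y‖ = 1 := by
      rw [hy, norm_smul, norm_inv, Real.norm_eq_abs, abs_of_pos hs0, ← hs, inv_mul_cancel₀ hs0.ne']
    have hyx : ‖y - x‖ < δ := by
      have e1 : y - x = (1 - s) • y + t • v := by
        rw [sub_smul, one_smul, hsy]
        abel
      have e2 : ‖(1 - s) • y‖ ≤ t * ‖v‖ := by
        rw [norm_smul, hny, mul_one, Real.norm_eq_abs, abs_le]
        constructor <;> linarith
      calc ‖y - x‖ = ‖(1 - s) • y + t • v‖ := by rw [e1]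
        _ ≤ ‖(1 - s) • y‖ + ‖t • v‖ := norm_add_le _ _
        _ ≤ t * ‖v‖ + t * ‖v‖ := add_le_add e2 hntv.le
        _ < δ := by linarith
    obtain ⟨T, hT1, hT2⟩ := hm y hny hyx (t * η) (by positivity)
    have hTv : ‖T v - v‖ < η := by simpa using hT2 0
    have hTD : ‖T (D v) - D v‖ < η := by simpa using hT2 1
    have hsub := inc_conj_sub T D hTv hTD
    have hsk : Sk (cj T D) := hD.cj T
    have h0 : cj T D (T x) = 0 := by
      rw [cj_apply, T.symm_apply_apply, h, map_zero]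
    have h1 : ‖cj T D y‖ ≤ ‖D‖ * (t * η) := by
      have e1 : cj T D y = cj T D (y - T x) := by rw [map_sub, h0, sub_zero]
      rw [e1]
      refine ((cj T D).le_opNorm _).trans ?_
      rw [norm_cj]
      refine mul_le_mul_of_nonneg_left ?_ (norm_nonneg _)
      rw [← norm_neg, neg_sub]
      exact hT1.le
    have h2 : t * |ψ (cj T D v)| ≤ ‖ψ‖ * (2 * (‖D‖ * (t * η))) := by
      have e1 : t * ψ (cj T D v) = ψ (cj T D (s • y)) := by
        rw [hsy, map_add, map_add, hψ _ hsk, zero_add, map_smul, map_smul, smul_eq_mul]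
      have e2 : t * |ψ (cj T D v)| = |ψ (cj T D (s • y))| := by
        rw [← e1, abs_mul, abs_of_pos ht]
      rw [e2, ← Real.norm_eq_abs]
      refine (ψ.le_opNorm _).trans (mul_le_mul_of_nonneg_left ?_ (norm_nonneg _))
      rw [map_smul, norm_smul, Real.norm_eq_abs, abs_of_pos hs0]
      have e3 : 0 ≤ ‖D‖ * (t * η) := by positivity
      calc s * ‖cj T D y‖ ≤ 2 * ‖cj T D y‖ :=
            mul_le_mul_of_nonneg_right (by linarith) (norm_nonneg _)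
        _ ≤ 2 * (‖D‖ * (t * η)) := mul_le_mul_of_nonneg_left h1 (by norm_num)
    have h3 : |ψ (cj T D v)| ≤ ‖ψ‖ * (2 * (‖D‖ * η)) := by
      have e1 : t * |ψ (cj T D v)| ≤ t * (‖ψ‖ * (2 * (‖D‖ * η))) := by
        calc _ ≤ _ := h2
          _ = _ := by ring
      exact le_of_mul_le_mul_left e1 ht
    have h4 : |ψ (cj T D v - D v)| ≤ ‖ψ‖ * ((‖D‖ + 1) * η) := by
      rw [← Real.norm_eq_abs]
      exact (ψ.le_opNorm _).trans (mul_le_mul_of_nonneg_left hsub (norm_nonneg _))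
    have e : ψ (D v) = ψ (cj T D v) - ψ (cj T D v - D v) := by
      rw [map_sub]
      ring
    calc |ψ (D v)| = |ψ (cj T D v) - ψ (cj T D v - D v)| := by rw [← e]
      _ ≤ |ψ (cj T D v)| + |ψ (cj T D v - D v)| := abs_sub _ _
      _ ≤ ‖ψ‖ * (2 * (‖D‖ * η)) + ‖ψ‖ * ((‖D‖ + 1) * η) := add_le_add h3 h4
      _ = (‖ψ‖ * (3 * ‖D‖ + 1)) * η := by ring
  have h1 := inc_small (by positivity) key
  exact abs_eq_zero.1 (le_antisymm h1 (abs_nonneg _))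

theorem inc_left (hN : RNice E) (htr : RTrans E) {x : E} (hx : x ≠ 0) {ψ : StrongDual ℝ E}
    (hψ : ∀ B : E →L[ℝ] E, Sk B → ψ (B x) = 0) {D : E →L[ℝ] E} (hD : Sk D) (h : D x = 0) (v : E) :
    ψ (D v) = 0 := by
  have h0 : 0 < ‖x‖ := norm_pos_iff.2 hx
  have hn : ‖(‖x‖⁻¹) • x‖ = 1 := by
    rw [norm_smul, norm_inv, norm_norm, inv_mul_cancel₀ h0.ne']
  refine inc_left_unit htr hn (fun B hB => ?_) hD ?_ v
  · rw [map_smul, map_smul, hψ B hB, smul_zero]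
  · rw [map_smul, h, smul_zero]

theorem inc_right (hN : RNice E) (htr : RTrans E) {x : E} (hx : x ≠ 0) {ψ : StrongDual ℝ E}
    (hψ0 : ψ ≠ 0) (hψ : ∀ B : E →L[ℝ] E, Sk B → ψ (B x) = 0) {D : E →L[ℝ] E} (hD : Sk D)
    (h : ∀ v, ψ (D v) = 0) : D x = 0 := by
  refine SeparatingDual.eq_zero_of_forall_dual_eq_zero (R := ℝ) fun φ => ?_
  obtain ⟨r, hr, hψr⟩ := dj_surj hN hψ0
  have hp : 0 < ‖ψ‖ := norm_pos_iff.2 hψ0
  have hr0 : r ≠ 0 := norm_ne_zero_iff.1 (by rw [hr]; exact one_ne_zero)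
  have hdr : ∀ v, dj r (D v) = 0 := by
    intro v
    have e1 := h v
    rw [hψr, smul_apply, smul_eq_mul] at e1
    rcases mul_eq_zero.1 e1 with e2 | e2
    · exact absurd e2 hp.ne'
    · exact e2
  have key : ∀ η : ℝ, 0 < η → |φ (D x)| ≤ (1 + (‖D‖ + 1) * ‖φ‖) * η := by
    intro η hη
    obtain ⟨δ, hδ, hm⟩ := rmicro htr hr ![x, D x] hη
    obtain ⟨δ₁, hδ₁, hi⟩ := dj_unif_inv hN hδ
    obtain ⟨t, ht, ht1, ht2⟩ : ∃ t : ℝ, 0 < t ∧ 2 * (t * ‖φ‖) < ‖ψ‖ * δ₁ ∧ t * ‖φ‖ < ‖ψ‖ := by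
      have hm0 : 0 < min δ₁ 1 := lt_min hδ₁ one_pos
      have hm1 : min δ₁ 1 ≤ δ₁ := min_le_left _ _
      have hm2 : min δ₁ 1 ≤ 1 := min_le_right _ _
      have hq : 0 < 4 * (‖φ‖ + 1) := by positivity
      have e1 : min δ₁ 1 * ‖ψ‖ / (4 * (‖φ‖ + 1)) * ‖φ‖ < min δ₁ 1 * ‖ψ‖ / 2 := by
        rw [div_mul_eq_mul_div, div_lt_div_iff₀ hq (by norm_num)]
        have e2 : 0 < min δ₁ 1 * ‖ψ‖ := mul_pos hm0 hp
        nlinarith [norm_nonneg φ]
      have e3 : min δ₁ 1 * ‖ψ‖ ≤ δ₁ * ‖ψ‖ := mul_le_mul_of_nonneg_right hm1 hp.le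
      have e4 : min δ₁ 1 * ‖ψ‖ ≤ 1 * ‖ψ‖ := mul_le_mul_of_nonneg_right hm2 hp.le
      exact ⟨min δ₁ 1 * ‖ψ‖ / (4 * (‖φ‖ + 1)), div_pos (mul_pos hm0 hp) hq, by linarith,
        by linarith⟩
    obtain ⟨χ, hχ⟩ : ∃ χ : StrongDual ℝ E, χ = ψ + t • φ := ⟨_, rfl⟩
    have hntφ : ‖t • φ‖ = t * ‖φ‖ := by rw [norm_smul, Real.norm_eq_abs, abs_of_pos ht]
    have hsub : χ - ψ = t • φ := by rw [hχ]; abel
    have hq1 : |‖χ‖ - ‖ψ‖| ≤ t * ‖φ‖ := by
      rw [← hntφ, ← hsub]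
      exact abs_norm_sub_norm_le _ _
    have hχ0 : χ ≠ 0 := by
      intro hc
      rw [hc, norm_zero, zero_sub, abs_neg, abs_of_pos hp] at hq1
      linarith
    obtain ⟨w, hw, hχw⟩ := dj_surj hN hχ0
    have hw0 : w ≠ 0 := norm_ne_zero_iff.1 (by rw [hw]; exact one_ne_zero)
    have hclose : ‖dj w - dj r‖ < δ₁ := by
      have e1 : ‖ψ‖ • (dj w - dj r) = (‖ψ‖ - ‖χ‖) • dj w + t • φ := by
        refine ContinuousLinearMap.ext fun z => ?_
        have a1 : ψ z = ‖ψ‖ * dj r z := by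
          conv_lhs => rw [hψr]
          rw [smul_apply, smul_eq_mul]
        have a2 : χ z = ‖χ‖ * dj w z := by
          conv_lhs => rw [hχw]
          rw [smul_apply, smul_eq_mul]
        have a3 : χ z = ψ z + t * φ z := by
          rw [hχ, add_apply, smul_apply, smul_eq_mul]
        simp only [smul_apply, sub_apply, add_apply, smul_eq_mul]
        linarith
      have e2 : ‖(‖ψ‖ - ‖χ‖) • dj w‖ ≤ t * ‖φ‖ := by
        rw [norm_smul, norm_dj hw0, mul_one, Real.norm_eq_abs, abs_sub_comm]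
        exact hq1
      have e3 : ‖ψ‖ * ‖dj w - dj r‖ ≤ 2 * (t * ‖φ‖) := by
        calc ‖ψ‖ * ‖dj w - dj r‖ = ‖‖ψ‖ • (dj w - dj r)‖ := by rw [norm_smul, norm_norm]
          _ = ‖(‖ψ‖ - ‖χ‖) • dj w + t • φ‖ := by rw [e1]
          _ ≤ ‖(‖ψ‖ - ‖χ‖) • dj w‖ + ‖t • φ‖ := norm_add_le _ _
          _ ≤ t * ‖φ‖ + t * ‖φ‖ := add_le_add e2 hntφ.le
          _ = 2 * (t * ‖φ‖) := by ring
      exact lt_of_mul_lt_mul_left (e3.trans_lt ht1) hp.le
    have hwr : ‖w - r‖ < δ := hi w r hw hr hclose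
    have hq0 : 0 < ‖χ‖ := norm_pos_iff.2 hχ0
    obtain ⟨ε, hε, hε1⟩ : ∃ ε : ℝ, 0 < ε ∧ ‖χ‖ * (ε * (‖D‖ * ‖x‖)) ≤ t * η := by
      have hz : 0 < ‖χ‖ * (‖D‖ * ‖x‖ + 1) := by positivity
      refine ⟨t * η / (‖χ‖ * (‖D‖ * ‖x‖ + 1)), div_pos (mul_pos ht hη) hz, ?_⟩
      have e1 : ‖χ‖ * (t * η / (‖χ‖ * (‖D‖ * ‖x‖ + 1)) * (‖D‖ * ‖x‖)) =
          (t * η) * ((‖χ‖ * (‖D‖ * ‖x‖)) / (‖χ‖ * (‖D‖ * ‖x‖ + 1))) := by ring
      rw [e1]
      have e2 : (‖χ‖ * (‖D‖ * ‖x‖)) / (‖χ‖ * (‖D‖ * ‖x‖ + 1)) ≤ 1 := by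
        rw [div_le_one hz]
        nlinarith
      have e3 : 0 ≤ t * η := by positivity
      calc (t * η) * ((‖χ‖ * (‖D‖ * ‖x‖)) / (‖χ‖ * (‖D‖ * ‖x‖ + 1))) ≤ (t * η) * 1 :=
            mul_le_mul_of_nonneg_left e2 e3
        _ = t * η := mul_one _
    obtain ⟨η', hη', hu⟩ := dj_unif hN hε
    obtain ⟨T, hT1, hT2⟩ := hm w hw hwr η' hη'
    have hTv : ‖T x - x‖ < η := by simpa using hT2 0
    have hTD : ‖T (D x) - D x‖ < η := by simpa using hT2 1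
    have hconj := inc_conj_sub T D hTv hTD
    have hsk : Sk (cj T D) := hD.cj T
    have hTr : ‖T r‖ = 1 := by rw [T.norm_map, hr]
    have h1 : dj (T r) (cj T D x) = 0 := by
      rw [cj_apply, dj_iso hN T hr0]
      exact hdr _
    have h2 : ‖dj w - dj (T r)‖ < ε := by
      refine hu w (T r) hw hTr ?_
      rw [← norm_neg, neg_sub]
      exact hT1
    have h3 : |dj w (cj T D x)| ≤ ε * (‖D‖ * ‖x‖) := by
      have e1 : dj w (cj T D x) = (dj w - dj (T r)) (cj T D x) := by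
        rw [sub_apply, h1, sub_zero]
      rw [e1, ← Real.norm_eq_abs]
      refine ((dj w - dj (T r)).le_opNorm _).trans ?_
      have e2 : ‖cj T D x‖ ≤ ‖D‖ * ‖x‖ := by
        have e3 := (cj T D).le_opNorm x
        rwa [norm_cj] at e3
      exact mul_le_mul h2.le e2 (norm_nonneg _) hε.le
    have h4 : t * |φ (cj T D x)| ≤ t * η := by
      have e1 : χ (cj T D x) = t * φ (cj T D x) := by
        rw [hχ, add_apply, hψ _ hsk, zero_add, smul_apply, smul_eq_mul]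
      have e2 : χ (cj T D x) = ‖χ‖ * dj w (cj T D x) := by
        conv_lhs => rw [hχw]
        rw [smul_apply, smul_eq_mul]
      have e3 : t * |φ (cj T D x)| = ‖χ‖ * |dj w (cj T D x)| := by
        have e4 : |t * φ (cj T D x)| = |‖χ‖ * dj w (cj T D x)| := by rw [← e1, ← e2]
        rwa [abs_mul, abs_mul, abs_of_pos ht, abs_of_pos hq0] at e4
      rw [e3]
      exact (mul_le_mul_of_nonneg_left h3 hq0.le).trans hε1
    have h5 : |φ (cj T D x)| ≤ η := le_of_mul_le_mul_left h4 ht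
    have h6 : |φ (cj T D x - D x)| ≤ ‖φ‖ * ((‖D‖ + 1) * η) := by
      rw [← Real.norm_eq_abs]
      exact (φ.le_opNorm _).trans (mul_le_mul_of_nonneg_left hconj (norm_nonneg _))
    have e : φ (D x) = φ (cj T D x) - φ (cj T D x - D x) := by
      rw [map_sub]
      ring
    calc |φ (D x)| = |φ (cj T D x) - φ (cj T D x - D x)| := by rw [← e]
      _ ≤ |φ (cj T D x)| + |φ (cj T D x - D x)| := abs_sub _ _
      _ ≤ η + ‖φ‖ * ((‖D‖ + 1) * η) := add_le_add h5 h6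
      _ = (1 + (‖D‖ + 1) * ‖φ‖) * η := by ring
  have h1 := inc_small (by positivity) key
  exact abs_eq_zero.1 (le_antisymm h1 (abs_nonneg _))

theorem mem_closure_of_ker (hN : RNice E) (htr : RTrans E) {x : E} (hx : x ≠ 0)
    {D : E →L[ℝ] E} (hD : Sk D) (h : D x = 0) (v : E) {ε : ℝ} (hε : 0 < ε) :
    ∃ B : E →L[ℝ] E, Sk B ∧ ‖B x - D v‖ < ε := by
  let S : Submodule ℝ E :=
    { carrier := {y | ∃ B : E →L[ℝ] E, Sk B ∧ B x = y}
      add_mem' := by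
        rintro _ _ ⟨A, hA, rfl⟩ ⟨B, hB, rfl⟩
        exact ⟨A + B, hA.add hB, rfl⟩
      zero_mem' := ⟨0, Sk.zero, rfl⟩
      smul_mem' := by
        rintro c _ ⟨A, hA, rfl⟩
        exact ⟨c • A, hA.smul c, rfl⟩ }
  by_contra hc
  push Not at hc
  have hmem : D v ∉ closure (S : Set E) := by
    intro hcl
    rw [Metric.mem_closure_iff] at hcl
    obtain ⟨_, ⟨B, hB, rfl⟩, hb⟩ := hcl ε hε
    have h1 := hc B hB
    rw [dist_comm, dist_eq_norm] at hb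
    linarith
  have hconv : Convex ℝ (closure (S : Set E)) := S.convex.closure
  obtain ⟨f, u, hf1, hf2⟩ := geometric_hahn_banach_closed_point hconv isClosed_closure hmem
  have hzero : ∀ B : E →L[ℝ] E, Sk B → f (B x) = 0 := by
    intro B hB
    have hu0 : 0 < u := by
      have := hf1 0 (subset_closure S.zero_mem)
      rwa [map_zero] at this
    have h1 : ∀ c : ℝ, c * f (B x) < u := by
      intro c
      have h2 := hf1 (c • B x) (subset_closure (S.smul_mem c ⟨B, hB, rfl⟩))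
      rwa [map_smul, smul_eq_mul] at h2
    by_contra hne
    have h2 := h1 (u / f (B x))
    rw [div_mul_cancel₀ _ hne] at h2
    exact lt_irrefl _ h2
  have h1 := inc_left hN htr hx hzero hD h v
  have h2 := hf1 0 (subset_closure S.zero_mem)
  rw [map_zero] at h2
  linarith

end Pool.Agent.Helper61.RO
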