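import Pool.Agent.Helper61.RO.BlocksA
import Pool.Agent.Helper61.RO.Inc

/-!
# RO-24  Density of the off-diagonal skew operators

`p = pa D₁ D₂`. `x ≠ 0` in the block `j`, `y` in the block `i ≠ j`, `ε > 0`: there is `B ∈ Lof p i j` with `‖B x - y‖ < ε`.

PROOF. It is enough to find a skew `B` with `‖p i (B x) - y‖ < ε` (`off_sk`: the off-diagonal part maps `x` to `p i (B x)`).
(1) `i = 0`: `j = 1` or `2`, so `D₁ x = 0` (`D₁ p 1 = - D₁ D₂ D₂ = 0`, `D₁ p 2 = D₁ + D₁ D₁ D₁ + 0 = 0`), and `y = p 0 y = - D₁ (D₁ y) = D₁ v`, `v = - D₁ y`.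
`mem_closure_of_ker`: `B` with `‖B x - D₁ v‖ < ε / (‖p 0‖ + 1)`; apply `p 0`.
(2) `i = 1`: the same with `D₂`.
(3) `i = 2`, `j = 0` (or `1`): the set `{p 2 (B x) | B skew}` is a subspace. If `y` is not in its closure there is a functional `φ` vanishing on it with
`φ y ≠ 0`; `ψ = φ ∘ p 2`, `ψ (B x) = 0` for all skew `B`, `ψ y = φ y ≠ 0`. `ψ (D₁ v) = φ (p 2 (D₁ v)) = 0` for all `v` (`p 2 D₁ = D₁ + D₁ D₁ D₁ = 0`), so
`D₁ x = 0` by `inc_right`; but `x = p 0 x = - D₁ (D₁ x) = 0`, contradiction. (For `j = 1` use `D₂`.)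
-/

set_option autoImplicit false

open Filter Topology

namespace Pool.Agent.Helper61.RO

universe u

variable {E : Type u} [NormedAddCommGroup E] [NormedSpace ℝ E] [CompleteSpace E]
  [TopologicalSpace.SeparableSpace E] {D₁ D₂ : E →L[ℝ] E}

/-- separation of a point from the closure of a subspace -/
private theorem d24_sep (M : Submodule ℝ E) {y : E} (hy : y ∉ closure (M : Set E)) :
    ∃ φ : StrongDual ℝ E, (∀ b ∈ M, φ b = 0) ∧ φ y ≠ 0 := by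
  have hc : Convex ℝ (M.topologicalClosure : Set E) := M.topologicalClosure.convex
  have hcl : IsClosed (M.topologicalClosure : Set E) := M.isClosed_topologicalClosure
  have hy' : y ∉ (M.topologicalClosure : Set E) := by
    rw [Submodule.topologicalClosure_coe]
    exact hy
  obtain ⟨φ, u, h1, h2⟩ := geometric_hahn_banach_point_closed hc hcl hy'
  have h0 : u < 0 := by
    have h3 := h2 0 (M.topologicalClosure.zero_mem)
    rwa [map_zero] at h3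
  refine ⟨φ, ?_, ?_⟩
  · intro b hb
    by_contra hne
    have hb' : b ∈ M.topologicalClosure := M.le_topologicalClosure hb
    have h4 := h2 ((u / φ b) • b) (M.topologicalClosure.smul_mem _ hb')
    rw [map_smul, smul_eq_mul, div_mul_cancel₀ _ hne] at h4
    exact lt_irrefl _ h4
  · exact ne_of_lt (h1.trans h0)

private theorem d24_off (h : AlphaData D₁ D₂) {i j : Fin 3} (hij : i ≠ j) {x : E}
    (hx : pa D₁ D₂ j x = x) {y : E} {ε : ℝ}
    (hB : ∃ B : E →L[ℝ] E, Sk B ∧ ‖pa D₁ D₂ i (B x) - y‖ < ε) :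
    ∃ B ∈ Lof (pa D₁ D₂) i j, ‖B x - y‖ < ε := by
  obtain ⟨B, hB, hn⟩ := hB
  refine ⟨_, off_sk h hij hB, ?_⟩
  have h1 : pa D₁ D₂ i x = 0 := by
    have h2 := congrArg (fun T : E →L[ℝ] E => T x) (pa_orth h hij)
    rw [← hx]
    exact h2
  have h3 : (pa D₁ D₂ i * B * pa D₁ D₂ j + pa D₁ D₂ j * B * pa D₁ D₂ i) x =
      pa D₁ D₂ i (B x) := by
    change pa D₁ D₂ i (B (pa D₁ D₂ j x)) + pa D₁ D₂ j (B (pa D₁ D₂ i x)) = _
    rw [hx, h1, map_zero, map_zero, add_zero]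
  rw [h3]
  exact hn

/-- the block of a cub -/
private theorem d24_cub (hN : RNice E) (htr : RTrans E) (h : AlphaData D₁ D₂) {i j : Fin 3}
    (hij : i ≠ j) {D : E →L[ℝ] E} (hD : Cub3 D) (hp : pa D₁ D₂ i = -(D * D))
    {x : E} (hx0 : x ≠ 0) (hx : pa D₁ D₂ j x = x) {y : E} (hy : pa D₁ D₂ i y = y)
    {ε : ℝ} (hε : 0 < ε) : ∃ B : E →L[ℝ] E, Sk B ∧ ‖pa D₁ D₂ i (B x) - y‖ < ε := by
  have hDx : D x = 0 := by
    have h1 : D = D * pa D₁ D₂ i := by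
      rw [hp, mul_neg, ← mul_assoc, hD.cube, neg_neg]
    have h2 := congrArg (fun T : E →L[ℝ] E => T x) (pa_orth h hij)
    have h3 : pa D₁ D₂ i x = 0 := by
      rw [← hx]
      exact h2
    rw [h1]
    change D (pa D₁ D₂ i x) = 0
    rw [h3, map_zero]
  have hyD : y = D (-(D y)) := by
    have h1 : pa D₁ D₂ i y = -(D (D y)) := by
      rw [hp]
      rfl
    rw [map_neg, ← h1, hy]
  have hP : 0 < ‖pa D₁ D₂ i‖ + 1 := by positivity
  obtain ⟨B, hB, hn⟩ := mem_closure_of_ker hN htr hx0 hD.sk hDx (-(D y)) (div_pos hε hP)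
  refine ⟨B, hB, ?_⟩
  rw [← hyD] at hn
  have h1 : pa D₁ D₂ i (B x) - y = pa D₁ D₂ i (B x - y) := by
    rw [map_sub, hy]
  rw [h1]
  calc ‖pa D₁ D₂ i (B x - y)‖ ≤ ‖pa D₁ D₂ i‖ * ‖B x - y‖ := (pa D₁ D₂ i).le_opNorm _
    _ ≤ ‖pa D₁ D₂ i‖ * (ε / (‖pa D₁ D₂ i‖ + 1)) :=
        mul_le_mul_of_nonneg_left hn.le (norm_nonneg _)
    _ < (‖pa D₁ D₂ i‖ + 1) * (ε / (‖pa D₁ D₂ i‖ + 1)) :=
        mul_lt_mul_of_pos_right (by linarith) (div_pos hε hP)
    _ = ε := mul_div_cancel₀ _ hP.ne'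

/-- the third block -/
private theorem d24_two (hN : RNice E) (htr : RTrans E) {i j : Fin 3}
    {D : E →L[ℝ] E} (hD : Cub3 D) (hp : pa D₁ D₂ j = -(D * D)) (hq : pa D₁ D₂ i * D = 0)
    {x : E} (hx0 : x ≠ 0) (hx : pa D₁ D₂ j x = x) {y : E} (hy : pa D₁ D₂ i y = y)
    {ε : ℝ} (hε : 0 < ε) : ∃ B : E →L[ℝ] E, Sk B ∧ ‖pa D₁ D₂ i (B x) - y‖ < ε := by
  let M : Submodule ℝ E :=
    { carrier := {z | ∃ B : E →L[ℝ] E, Sk B ∧ pa D₁ D₂ i (B x) = z}
      add_mem' := by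
        rintro a b ⟨A, hA, rfl⟩ ⟨B, hB, rfl⟩
        exact ⟨A + B, hA.add hB, by rw [ContinuousLinearMap.add_apply, map_add]⟩
      zero_mem' := ⟨0, Sk.zero, by rw [ContinuousLinearMap.zero_apply, map_zero]⟩
      smul_mem' := by
        rintro c a ⟨A, hA, rfl⟩
        exact ⟨c • A, hA.smul c, by rw [ContinuousLinearMap.smul_apply, map_smul]⟩ }
  have hmem : y ∈ closure (M : Set E) := by
    by_contra hcon
    obtain ⟨φ, h1, h2⟩ := d24_sep M hcon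
    have hψ : ∀ z, (φ.comp (pa D₁ D₂ i)) z = φ (pa D₁ D₂ i z) := fun z => rfl
    have hψ0 : φ.comp (pa D₁ D₂ i) ≠ 0 := by
      intro h3
      have h4 := congrArg (fun T : StrongDual ℝ E => T y) h3
      have h5 : φ (pa D₁ D₂ i y) = 0 := h4
      rw [hy] at h5
      exact h2 h5
    have h3 : ∀ B : E →L[ℝ] E, Sk B → (φ.comp (pa D₁ D₂ i)) (B x) = 0 := by
      intro B hB
      exact h1 _ ⟨B, hB, rfl⟩
    have h4 : ∀ v, (φ.comp (pa D₁ D₂ i)) (D v) = 0 := by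
      intro v
      have h5 := congrArg (fun T : E →L[ℝ] E => T v) hq
      have h6 : pa D₁ D₂ i (D v) = 0 := h5
      rw [hψ, h6, map_zero]
    have h5 := inc_right hN htr hx0 hψ0 h3 hD.sk h4
    have h6 : pa D₁ D₂ j x = -(D (D x)) := by
      rw [hp]
      rfl
    rw [h5, map_zero, neg_zero] at h6
    exact hx0 (hx.symm.trans h6)
  obtain ⟨z, ⟨B, hB, rfl⟩, hz⟩ := Metric.mem_closure_iff.1 hmem ε hε
  refine ⟨B, hB, ?_⟩
  rw [dist_comm, dist_eq_norm] at hz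
  exact hz

theorem lof_dense (hN : RNice E) (htr : RTrans E) (h : AlphaData D₁ D₂) {i j : Fin 3}
    (hij : i ≠ j) {x : E} (hx0 : x ≠ 0) (hx : pa D₁ D₂ j x = x) {y : E} (hy : pa D₁ D₂ i y = y)
    {ε : ℝ} (hε : 0 < ε) : ∃ B ∈ Lof (pa D₁ D₂) i j, ‖B x - y‖ < ε := by
  apply d24_off h hij hx
  have hc : i = 0 ∨ i = 1 ∨ i = 2 := by
    fin_cases i <;> simp
  rcases hc with rfl | rfl | rfl
  · exact d24_cub hN htr h hij h.cub₁ rfl hx0 hx hy hε
  · exact d24_cub hN htr h hij h.cub₂ rfl hx0 hx hy hε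
  · have hc' : j = 0 ∨ j = 1 ∨ j = 2 := by
      fin_cases j <;> simp
    have p2 : pa D₁ D₂ 2 = 1 + D₁ * D₁ + D₂ * D₂ := rfl
    rcases hc' with rfl | rfl | rfl
    · refine d24_two hN htr h.cub₁ rfl ?_ hx0 hx hy hε
      rw [p2, add_mul, add_mul, one_mul, h.cub₁.cube, mul_assoc D₂ D₂ D₁, h.mul', mul_zero]
      abel
    · refine d24_two hN htr h.cub₂ rfl ?_ hx0 hx hy hε
      rw [p2, add_mul, add_mul, one_mul, h.cub₂.cube, mul_assoc D₁ D₁ D₂, h.mul, mul_zero]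
      abel
    · exact absurd rfl hij

end Pool.Agent.Helper61.RO
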