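import Pool.Agent.Helper61.RO.Weyl

/-!
# RO-85  Conjugates of the triple

PROOF. `Mm` is closed under sums, real multiples and `br` (`Su2`). UNIQUENESS: if `X ∈ Mm` commutes with `a`, `b`, `c` then `X = 0` (`Su2.ad_ne`). By `Dec0` for the skew operators `cj T a`, `cj T b`, `cj T c` (`Sk.cj`): `cj T a = m₁ + C₁`, `cj T b = m₂ + C₂`, `cj T c = m₃ + C₃`, `m_i ∈ Mm`, `C_i` skew and commuting with `a`, `b`, `c`.
`cj T` is compatible with `br` (`cj_mul`), `br (m + C) (m' + C') = br m m' + br C C'`, and `br C C'` commutes with `a`, `b`, `c`. By uniqueness (comparing `cj T (br a b) = 2 cj T c` etc.): `br m₁ m₂ = 2 m₃`, `br m₂ m₃ = 2 m₁`, `br m₃ m₁ = 2 m₂`, and the same for the `C_i`.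
If `C₁ = 0` then `C₃ = (1/2) br C₁ C₂ = 0`, `C₂ = (1/2) br C₃ C₁ = 0`: first alternative. If `m₁ = 0` then all `m_i = 0`, and the second alternative holds (`cj T X` is a combination of the `C_i`).
Suppose `m₁ ≠ 0` and `C₁ ≠ 0`. Then `m₂ ≠ 0` and `C₂ ≠ 0` (otherwise `m₁ = (1/2) br m₂ m₃ = 0`). `B = m₂` satisfies `br (cj T a) (br (cj T a) m₂) = br m₁ (br m₁ m₂) = - 4 m₂` (`br m₁ m₂ = 2 m₃`, `br m₁ m₃ = - 2 m₂`). `Ext a b c` for the skew operator `cj T.symm m₂`: `cj T.symm m₂ = s b + t c`, so `m₂ = s (m₂ + C₂) + t (m₃ + C₃)`;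
uniqueness: `s C₂ + t C₃ = 0`, `m₂ = s m₂ + t m₃`. Taking `br C₁`: `2 s C₃ - 2 t C₂ = 0`; so `(s² + t²) C₂ = s (s C₂ + t C₃) - t (s C₃ - t C₂) = 0`, `s = t = 0`, `m₂ = 0`: contradiction. (`Su2.ad_ne` is about `Mm a b c`; `Sk` of `m₂`: `Sk.add`, `Sk.smul`.)
-/

set_option autoImplicit false

set_option linter.unusedSectionVars false

open Filter Topology

namespace Pool.Agent.Helper61.RO

universe u

variable {E : Type u} [NormedAddCommGroup E] [NormedSpace ℝ E] [CompleteSpace E]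
  {a b c X Y : E →L[ℝ] E}

private theorem dbr_add_left (A B C : E →L[ℝ] E) : br (A + B) C = br A C + br B C := by
  unfold br
  rw [add_mul, mul_add]
  abel

private theorem dbr_add_right (A B C : E →L[ℝ] E) : br A (B + C) = br A B + br A C := by
  unfold br
  rw [add_mul, mul_add]
  abel

private theorem dbr_smul_left (x : ℝ) (A B : E →L[ℝ] E) : br (x • A) B = x • br A B := by
  unfold br
  rw [smul_mul_assoc, mul_smul_comm, smul_sub]

private theorem dbr_smul_right (x : ℝ) (A B : E →L[ℝ] E) : br A (x • B) = x • br A B := by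
  unfold br
  rw [smul_mul_assoc, mul_smul_comm, smul_sub]

private theorem dbr_swap (A B : E →L[ℝ] E) : br A B = -br B A := by
  unfold br
  rw [neg_sub]

private theorem dbr_self (A : E →L[ℝ] E) : br A A = 0 := sub_self _

/-- commuting with the triple -/
private def CC (a b c : E →L[ℝ] E) (C : E →L[ℝ] E) : Prop :=
  a * C = C * a ∧ b * C = C * b ∧ c * C = C * c

private theorem CC.comm {C : E →L[ℝ] E} (hC : CC a b c C) (hX : X ∈ Mm a b c) :
    X * C = C * X := by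
  obtain ⟨r, s, t, rfl⟩ := hX
  simp only [add_mul, mul_add, smul_mul_assoc, mul_smul_comm, hC.1, hC.2.1, hC.2.2]

private theorem CC.sub {C C' : E →L[ℝ] E} (hC : CC a b c C) (hC' : CC a b c C') :
    CC a b c (C - C') := by
  refine ⟨?_, ?_, ?_⟩
  · rw [mul_sub, sub_mul, hC.1, hC'.1]
  · rw [mul_sub, sub_mul, hC.2.1, hC'.2.1]
  · rw [mul_sub, sub_mul, hC.2.2, hC'.2.2]

private theorem CC.add {C C' : E →L[ℝ] E} (hC : CC a b c C) (hC' : CC a b c C') :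
    CC a b c (C + C') := by
  refine ⟨?_, ?_, ?_⟩
  · rw [mul_add, add_mul, hC.1, hC'.1]
  · rw [mul_add, add_mul, hC.2.1, hC'.2.1]
  · rw [mul_add, add_mul, hC.2.2, hC'.2.2]

private theorem CC.smul {C : E →L[ℝ] E} (hC : CC a b c C) (x : ℝ) : CC a b c (x • C) := by
  refine ⟨?_, ?_, ?_⟩
  · rw [smul_mul_assoc, mul_smul_comm, hC.1]
  · rw [smul_mul_assoc, mul_smul_comm, hC.2.1]
  · rw [smul_mul_assoc, mul_smul_comm, hC.2.2]

private theorem cc_mul {A C C' : E →L[ℝ] E} (h : A * C = C * A) (h' : A * C' = C' * A) :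
    A * br C C' = br C C' * A := by
  unfold br
  rw [mul_sub, sub_mul]
  congr 1
  · rw [← mul_assoc, h, mul_assoc, h', mul_assoc]
  · rw [← mul_assoc, h', mul_assoc, h, mul_assoc]

private theorem CC.br {C C' : E →L[ℝ] E} (hC : CC a b c C) (hC' : CC a b c C') :
    CC a b c (br C C') :=
  ⟨cc_mul hC.1 hC'.1, cc_mul hC.2.1 hC'.2.1, cc_mul hC.2.2 hC'.2.2⟩

private theorem Mm_add {X Y : E →L[ℝ] E} (hX : X ∈ Mm a b c) (hY : Y ∈ Mm a b c) :
    X + Y ∈ Mm a b c := by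
  obtain ⟨r, s, t, rfl⟩ := hX
  obtain ⟨r', s', t', rfl⟩ := hY
  exact ⟨r + r', s + s', t + t', by module⟩

private theorem Mm_smul {X : E →L[ℝ] E} (hX : X ∈ Mm a b c) (x : ℝ) : x • X ∈ Mm a b c := by
  obtain ⟨r, s, t, rfl⟩ := hX
  exact ⟨x * r, x * s, x * t, by module⟩

private theorem Mm_sub {X Y : E →L[ℝ] E} (hX : X ∈ Mm a b c) (hY : Y ∈ Mm a b c) :
    X - Y ∈ Mm a b c := by
  obtain ⟨r, s, t, rfl⟩ := hX
  obtain ⟨r', s', t', rfl⟩ := hY
  exact ⟨r - r', s - s', t - t', by module⟩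

private theorem Mm_br (h : Su2 a b c) {X Y : E →L[ℝ] E} (hX : X ∈ Mm a b c) (hY : Y ∈ Mm a b c) :
    RO.br X Y ∈ Mm a b c := by
  obtain ⟨r, s, t, rfl⟩ := hX
  obtain ⟨r', s', t', rfl⟩ := hY
  have hba : RO.br b a = -((2 : ℝ) • c) := by rw [dbr_swap, h.ab]
  have hcb : RO.br c b = -((2 : ℝ) • a) := by rw [dbr_swap, h.bc]
  have hac : RO.br a c = -((2 : ℝ) • b) := by rw [dbr_swap, h.ca]
  refine ⟨2 * (s * t' - t * s'), 2 * (t * r' - r * t'), 2 * (r * s' - s * r'), ?_⟩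
  simp only [dbr_add_left, dbr_add_right, dbr_smul_left, dbr_smul_right, dbr_self, h.ab, h.bc, h.ca,
    hba, hcb, hac]
  module

private theorem Mm_zero (h : Su2 a b c) {X : E →L[ℝ] E} (hX : X ∈ Mm a b c) (hC : CC a b c X) :
    X = 0 := by
  by_contra h0
  obtain ⟨Z, hZ, hne⟩ := h.ad_ne hX h0
  apply hne
  unfold RO.br
  rw [hC.comm hZ, sub_self]

private theorem uniq (h : Su2 a b c) {m m' C C' : E →L[ℝ] E} (hm : m ∈ Mm a b c)
    (hm' : m' ∈ Mm a b c) (hC : CC a b c C) (hC' : CC a b c C') (he : m + C = m' + C') :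
    m = m' ∧ C = C' := by
  have h1 : m - m' = C' - C := by
    rw [sub_eq_sub_iff_add_eq_add, he, add_comm]
  have h2 : m - m' = 0 := Mm_zero h (Mm_sub hm hm') (h1 ▸ hC'.sub hC)
  refine ⟨sub_eq_zero.1 h2, ?_⟩
  rw [h2] at h1
  exact (sub_eq_zero.1 h1.symm).symm

private theorem br_dec {m m' C C' : E →L[ℝ] E} (hm : m ∈ Mm a b c)
    (hm' : m' ∈ Mm a b c) (hC : CC a b c C) (hC' : CC a b c C') :
    RO.br (m + C) (m' + C') = RO.br m m' + RO.br C C' := by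
  have h1 : RO.br m C' = 0 := by
    unfold RO.br
    rw [hC'.comm hm, sub_self]
  have h2 : RO.br C m' = 0 := by
    unfold RO.br
    rw [hC.comm hm', sub_self]
  rw [dbr_add_left, dbr_add_right, dbr_add_right, h1, h2]
  abel

private theorem cj_br (T : E ≃ₗᵢ[ℝ] E) (A B : E →L[ℝ] E) :
    cj T (RO.br A B) = RO.br (cj T A) (cj T B) := by
  unfold RO.br
  have h1 : A * B - B * A = A * B + (-1 : ℝ) • (B * A) := by rw [neg_one_smul, sub_eq_add_neg]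
  rw [h1, cj_add, cj_smul, neg_one_smul, ← sub_eq_add_neg, cj_mul, cj_mul]

private theorem Mm_sk (h : Su2 a b c) {X : E →L[ℝ] E} (hX : X ∈ Mm a b c) : Sk X := by
  obtain ⟨r, s, t, rfl⟩ := hX
  exact ((h.ska.smul r).add (h.skb.smul s)).add (h.skc.smul t)

private theorem half_zero {A B C : E →L[ℝ] E} (h : RO.br A B = (2 : ℝ) • C) (h0 : A = 0 ∨ B = 0) :
    C = 0 := by
  have h1 : RO.br A B = 0 := by
    unfold RO.br
    rcases h0 with h0 | h0
    · rw [h0, zero_mul, mul_zero, sub_zero]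
    · rw [h0, zero_mul, mul_zero, sub_zero]
  rw [h1] at h
  exact (smul_eq_zero.1 h.symm).resolve_left two_ne_zero

theorem dich (hN : RNice E) (h : Su2 a b c) (hE : Ext a b c) (hD : Dec0 a b c)
    (T : E ≃ₗᵢ[ℝ] E) :
    (∀ X ∈ Mm a b c, cj T X ∈ Mm a b c) ∨
      ∀ X ∈ Mm a b c, ∀ Y ∈ Mm a b c, cj T X * Y = Y * cj T X := by
  have dec : ∀ B : E →L[ℝ] E, Sk B → ∃ m C : E →L[ℝ] E, m ∈ Mm a b c ∧ CC a b c C ∧ B = m + C := by
    intro B hB
    obtain ⟨r, s, t, C, -, h1, h2, h3, h4⟩ := hD B hB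
    exact ⟨_, C, ⟨r, s, t, rfl⟩, ⟨h1, h2, h3⟩, h4⟩
  obtain ⟨m₁, C₁, hm₁, hC₁, e₁⟩ := dec _ (h.ska.cj T)
  obtain ⟨m₂, C₂, hm₂, hC₂, e₂⟩ := dec _ (h.skb.cj T)
  obtain ⟨m₃, C₃, hm₃, hC₃, e₃⟩ := dec _ (h.skc.cj T)
  have key : ∀ {A B C m m' m'' D D' D'' : E →L[ℝ] E}, RO.br A B = (2 : ℝ) • C → m ∈ Mm a b c →
      m' ∈ Mm a b c → m'' ∈ Mm a b c → CC a b c D → CC a b c D' → CC a b c D'' →
      cj T A = m + D → cj T B = m' + D' → cj T C = m'' + D'' →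
      RO.br m m' = (2 : ℝ) • m'' ∧ RO.br D D' = (2 : ℝ) • D'' := by
    intro A B C m m' m'' D D' D'' hAB hm hm' hm'' hD hD' hD'' hA hB hC
    have h1 : RO.br m m' + RO.br D D' = (2 : ℝ) • m'' + (2 : ℝ) • D'' := by
      rw [← br_dec hm hm' hD hD', ← hA, ← hB, ← cj_br, hAB, cj_smul, hC, smul_add]
    exact uniq h (Mm_br h hm hm') (Mm_smul hm'' 2) (hD.br hD') (hD''.smul 2) h1
  obtain ⟨m12, C12⟩ := key h.ab hm₁ hm₂ hm₃ hC₁ hC₂ hC₃ e₁ e₂ e₃
  obtain ⟨m23, C23⟩ := key h.bc hm₂ hm₃ hm₁ hC₂ hC₃ hC₁ e₂ e₃ e₁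
  obtain ⟨m31, C31⟩ := key h.ca hm₃ hm₁ hm₂ hC₃ hC₁ hC₂ e₃ e₁ e₂
  have cjX : ∀ r s t : ℝ, cj T (r • a + s • b + t • c) =
      (r • m₁ + s • m₂ + t • m₃) + (r • C₁ + s • C₂ + t • C₃) := by
    intro r s t
    rw [cj_add, cj_add, cj_smul, cj_smul, cj_smul, e₁, e₂, e₃]
    module
  by_cases hC0 : C₁ = 0
  · left
    have h3 : C₃ = 0 := half_zero C12 (Or.inl hC0)
    have h2 : C₂ = 0 := half_zero C31 (Or.inl h3)
    rintro X ⟨r, s, t, rfl⟩
    rw [cjX, hC0, h2, h3, smul_zero, smul_zero, smul_zero, add_zero, add_zero, add_zero]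
    exact Mm_add (Mm_add (Mm_smul hm₁ r) (Mm_smul hm₂ s)) (Mm_smul hm₃ t)
  by_cases hm0 : m₁ = 0
  · right
    have h3 : m₃ = 0 := half_zero m12 (Or.inl hm0)
    have h2 : m₂ = 0 := half_zero m31 (Or.inl h3)
    rintro X ⟨r, s, t, rfl⟩ Y hY
    rw [cjX, hm0, h2, h3, smul_zero, smul_zero, smul_zero, add_zero, add_zero, zero_add]
    exact ((((hC₁.smul r).add (hC₂.smul s)).add (hC₃.smul t)).comm hY).symm
  exfalso
  have hm2 : m₂ ≠ 0 := fun h0 => hm0 (half_zero m23 (Or.inl h0))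
  have hC2 : C₂ ≠ 0 := fun h0 => hC0 (half_zero C23 (Or.inl h0))
  have hz : ∀ {C m : E →L[ℝ] E}, CC a b c C → m ∈ Mm a b c → RO.br C m = 0 := by
    intro C m hC hm
    unfold RO.br
    rw [hC.comm hm, sub_self]
  have hB : RO.br (cj T a) (RO.br (cj T a) m₂) = -((4 : ℝ) • m₂) := by
    have h1 : RO.br (cj T a) m₂ = (2 : ℝ) • m₃ := by
      rw [e₁, dbr_add_left, hz hC₁ hm₂, add_zero, m12]
    rw [h1, dbr_smul_right, e₁, dbr_add_left, hz hC₁ hm₃, add_zero, dbr_swap, m31]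
    module
  have hsym : ∀ A : E →L[ℝ] E, cj T (cj T.symm A) = A := fun A => cj_symm T.symm A
  have hB' : RO.br a (RO.br a (cj T.symm m₂)) = -((4 : ℝ) • cj T.symm m₂) := by
    have h1 := congrArg (cj T.symm) hB
    rw [cj_br, cj_br, cj_symm] at h1
    rw [h1]
    have h2 : -((4 : ℝ) • m₂) = (-4 : ℝ) • m₂ := by rw [neg_smul]
    rw [h2, cj_smul, neg_smul]
  obtain ⟨s, t, hst⟩ := hE _ ((Mm_sk h hm₂).cj T.symm) hB'
  have h1 : m₂ = s • (m₂ + C₂) + t • (m₃ + C₃) := by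
    have h2 := congrArg (cj T) hst
    rw [hsym, cj_add, cj_smul, cj_smul, e₂, e₃] at h2
    exact h2
  have h2 : m₂ + 0 = (s • m₂ + t • m₃) + (s • C₂ + t • C₃) := by
    rw [add_zero]
    nth_rewrite 1 [h1]
    module
  have hCz : CC a b c (0 : E →L[ℝ] E) := by
    refine ⟨?_, ?_, ?_⟩ <;> rw [mul_zero, zero_mul]
  obtain ⟨h3, h4⟩ := uniq h hm₂ (Mm_add (Mm_smul hm₂ s) (Mm_smul hm₃ t)) hCz
    ((hC₂.smul s).add (hC₃.smul t)) h2
  have h5 : s • C₃ - t • C₂ = 0 := by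
    have h6 : RO.br C₁ (s • C₂ + t • C₃) = 0 := by
      rw [← h4]
      unfold RO.br
      rw [mul_zero, zero_mul, sub_zero]
    rw [dbr_add_right, dbr_smul_right, dbr_smul_right, C12, dbr_swap C₁ C₃, C31] at h6
    have h7 : (2 : ℝ) • (s • C₃ - t • C₂) = 0 := by
      rw [← h6]
      module
    exact (smul_eq_zero.1 h7).resolve_left two_ne_zero
  have h6 : (s ^ 2 + t ^ 2) • C₂ = 0 := by
    have h7 : (s ^ 2 + t ^ 2) • C₂ = s • (s • C₂ + t • C₃) - t • (s • C₃ - t • C₂) := by module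
    rw [h7, ← h4, h5, smul_zero, smul_zero, sub_zero]
  have h7 : s ^ 2 + t ^ 2 = 0 := (smul_eq_zero.1 h6).resolve_right hC2
  have hs : s = 0 := by nlinarith [sq_nonneg s, sq_nonneg t]
  have ht : t = 0 := by nlinarith [sq_nonneg s, sq_nonneg t]
  rw [hs, ht, zero_smul, zero_smul, add_zero] at h3
  exact hm2 h3

end Pool.Agent.Helper61.RO
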