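import Pool.Agent.Helper61.RO.QuatApi

/-!
# RO-32  Even skew operators in the extremal case

PROOF. `B` commutes with `a a`. (1) `[a, [a, [a, B]]] = a a a B - 3 a a B a + 3 a B a a - B a a a = - 4 [a, B]` (with `a a a = - a`, `a a B = B a a`).
`X = - (1/4) [a, [a, B]]` is skew and `[a, [a, X]] = - 4 X`, so `X = s b + t c` (`Ext`). `B₁ = B - X` commutes with `a`.
(2) `X' = - (1/4) [b, [b, B₁]]`; `B₁` commutes with `b b = a a`, so as in (1) `[b, [b, X']] = - 4 X'`, `X' = s' c + t' a` (`Ext.cyc`). `X'` commutes with `a`: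
`X' = - (1/2) (a a B₁ - b B₁ b)` and `a b B₁ b = c B₁ b`, `b B₁ b a = - b B₁ c = - b B₁ a b = - b a B₁ b = c B₁ b`. So `s' [a, c] = - 2 s' b = 0`, `s' = 0`
(`b ≠ 0`). `C = B₁ - X'` commutes with `a`, with `b` (`[b, C] = [b, B₁] + (1/4) [b, [b, [b, B₁]]] = 0`) and with `c = a b`.
-/

set_option autoImplicit false

open Filter Topology

namespace Pool.Agent.Helper61.RO

universe u

variable {E : Type u} [NormedAddCommGroup E] [NormedSpace ℝ E] [CompleteSpace E]
  {a b c B : E →L[ℝ] E}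

omit [CompleteSpace E] in
private theorem ed_smul (D : E →L[ℝ] E) (r : ℝ) (Z : E →L[ℝ] E) :
    br D (-(r • Z)) = -(r • br D Z) := by
  unfold br
  rw [mul_neg, neg_mul, mul_smul_comm, smul_mul_assoc, smul_sub]
  abel

omit [CompleteSpace E] in
private theorem ed_cube {D : E →L[ℝ] E} (hD : D * D * D = -D) (he : D * D * B = B * (D * D)) :
    br D (br D (br D B)) = -((4 : ℝ) • br D B) := by
  have e1 : D * (D * (D * B)) = -(D * B) := by
    rw [← mul_assoc D D (D * B), ← mul_assoc (D * D) D B, hD, neg_mul]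
  have e2 : D * (D * (B * D)) = -(B * D) := by
    rw [← mul_assoc D D (B * D), ← mul_assoc (D * D) B D, he, mul_assoc B (D * D) D, hD, mul_neg]
  have e3 : D * (B * (D * D)) = -(D * B) := by
    rw [← he, ← mul_assoc D (D * D) B, ← mul_assoc D D D, hD, neg_mul]
  have e4 : B * (D * (D * D)) = -(B * D) := by
    rw [← mul_assoc D D D, hD, mul_neg]
  have e5 : br D (br D (br D B)) = D * (D * (D * B)) - (3 : ℝ) • (D * (D * (B * D))) +
      (3 : ℝ) • (D * (B * (D * D))) - B * (D * (D * D)) := by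
    unfold br
    have h3 : ∀ Z : E →L[ℝ] E, (3 : ℝ) • Z = Z + Z + Z := by
      intro Z
      module
    rw [h3, h3]
    noncomm_ring
  rw [e5, e1, e2, e3, e4]
  unfold br
  module

theorem quat_even (h : Quat a b c) (hE : Ext a b c) (hB : Sk B) (he : a * a * B = B * (a * a)) :
    ∃ (β₁ β₂ β₃ : ℝ) (C : E →L[ℝ] E), Sk C ∧ a * C = C * a ∧ b * C = C * b ∧ c * C = C * c ∧
      B = β₁ • a + β₂ • b + β₃ • c + C := by
  have hcube := h.cube
  have hbb := h.sqb
  have hcubeb : b * b * b = -b := h.cyc.cube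
  -- step 1
  have key1 := ed_cube hcube he
  obtain ⟨s, t, hX⟩ : ∃ s t : ℝ, -((1 / 4 : ℝ) • br a (br a B)) = s • b + t • c := by
    refine hE _ ?_ ?_
    · exact ((h.ska.br (h.ska.br hB)).smul _).neg
    · have h1 : br a (br a (br a (br a B))) = -((4 : ℝ) • br a (br a B)) := by
        rw [key1, ed_smul]
      rw [ed_smul, ed_smul, h1]
      module
  obtain ⟨B₁, hB₁⟩ : ∃ B₁ : E →L[ℝ] E, B₁ = B - (s • b + t • c) := ⟨_, rfl⟩
  have hsk₁ : Sk B₁ := by
    rw [hB₁]
    exact hB.sub ((h.skb.smul s).add (h.skc.smul t))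
  have hcomm₁ : br a B₁ = 0 := by
    have h2 : br a B₁ = br a B - br a (s • b + t • c) := by
      rw [hB₁]
      unfold br
      noncomm_ring
    rw [h2, ← hX, ed_smul, key1]
    module
  have ha₁ : a * B₁ = B₁ * a := sub_eq_zero.1 hcomm₁
  -- step 2
  have he₁ : b * b * B₁ = B₁ * (b * b) := by
    rw [hbb, mul_assoc, ha₁, ← mul_assoc, ha₁, mul_assoc]
  have key2 := ed_cube hcubeb he₁
  obtain ⟨s', t', hX'⟩ : ∃ s' t' : ℝ, -((1 / 4 : ℝ) • br b (br b B₁)) = s' • c + t' • a := by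
    refine hE.cyc h _ ?_ ?_
    · exact ((h.skb.br (h.skb.br hsk₁)).smul _).neg
    · have h1 : br b (br b (br b (br b B₁))) = -((4 : ℝ) • br b (br b B₁)) := by
        rw [key2, ed_smul]
      rw [ed_smul, ed_smul, h1]
      module
  -- `X'` commutes with `a`
  have hbr : br b (br b B₁) = (2 : ℝ) • (a * a * B₁) - (2 : ℝ) • (b * B₁ * b) := by
    have h1 : br b (br b B₁) = b * b * B₁ + B₁ * (b * b) - (2 : ℝ) • (b * B₁ * b) := by
      unfold br
      have h3 : ∀ Z : E →L[ℝ] E, (2 : ℝ) • Z = Z + Z := by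
        intro Z
        module
      rw [h3]
      noncomm_ring
    rw [h1, ← he₁, hbb]
    module
  have hcb : a * (b * B₁ * b) = b * B₁ * b * a := by
    have h1 : a * (b * B₁ * b) = c * B₁ * b := by
      rw [← mul_assoc, ← mul_assoc, h.ab]
    have h2 : b * B₁ * b * a = c * B₁ * b := by
      rw [mul_assoc (b * B₁) b a, h.ba, mul_neg, ← h.ab, ← mul_assoc (b * B₁) a b,
        mul_assoc b B₁ a, ← ha₁, ← mul_assoc b a B₁, h.ba, neg_mul, neg_mul, neg_neg, h.ab]
    rw [h1, h2]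
  have haa : a * (a * a * B₁) = a * a * B₁ * a := by
    rw [mul_assoc (a * a) B₁ a, ← ha₁, ← mul_assoc (a * a) a B₁, ← mul_assoc a (a * a) B₁,
      ← mul_assoc a a a]
  have hcX : a * (s' • c + t' • a) = (s' • c + t' • a) * a := by
    rw [← hX', hbr, mul_neg, neg_mul, mul_smul_comm, smul_mul_assoc, mul_sub, sub_mul,
      mul_smul_comm, mul_smul_comm, smul_mul_assoc, smul_mul_assoc, haa, hcb]
  have hs' : s' = 0 := by
    rw [mul_add, add_mul, mul_smul_comm, smul_mul_assoc, mul_smul_comm, smul_mul_assoc,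
      add_right_cancel_iff, h.ac, h.ca] at hcX
    have h1 : (2 * s') • b = 0 := by
      have h2 : (2 * s') • b = s' • b - s' • (-b) := by module
      rw [h2, hcX, sub_self]
    rcases smul_eq_zero.1 h1 with h2 | h2
    · linarith
    · exfalso
      exact h.cyc.ne h2
  rw [hs', zero_smul, zero_add] at hX'
  obtain ⟨C, hC⟩ : ∃ C : E →L[ℝ] E, C = B₁ - t' • a := ⟨_, rfl⟩
  have hCa : a * C = C * a := by
    rw [hC, mul_sub, sub_mul, ha₁, mul_smul_comm, smul_mul_assoc]
  have hCb : b * C = C * b := by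
    have h2 : br b C = br b B₁ - br b (t' • a) := by
      rw [hC]
      unfold br
      noncomm_ring
    have h3 : br b C = 0 := by
      rw [h2, ← hX', ed_smul, key2]
      module
    exact sub_eq_zero.1 h3
  refine ⟨t', s, t, C, ?_, hCa, hCb, ?_, ?_⟩
  · rw [hC]
    exact hsk₁.sub (h.ska.smul t')
  · rw [← h.ab, mul_assoc, hCb, ← mul_assoc, hCa, mul_assoc]
  · rw [hC, hB₁]
    abel

end Pool.Agent.Helper61.RO
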