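import Pool.Agent.Helper61.RO.SkApi
import Pool.Agent.Helper61.HO.SpNorm

/-!
# RO-09  Even functional calculus of a skew operator

`H = i cx D` is hermitian. For an even real test function `f` the operator `Phi H f` is the complexification of a real operator.

PROOF of `phi_even`. `𝓕 f` is real and even (`f` real and even), and `ex (2 π ξ) (i H) = ex (- 2 π ξ) (cx D) = cx (rx (- 2 π ξ) D)` (`cx_rx`), of norm
`≤ 1`. Let `F = ∫ Re (𝓕 f ξ) • rx (- 2 π ξ) D dξ` (integrable: `Phi_integrable`-type bounds). `cx` is a continuous real-linear map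
(`cx_add`, `cx_smul`, `norm_cx`), so it commutes with the integral (`ContinuousLinearMap.integral_comp_comm`), `cx F = Phi H f`.

PROOF of `exists_two_even`. Suppose that the conclusion is false. Let `P t`: `Phi H f = 0` for all even real tests with `f = 0` on `[-t, t]`;
`Q t`: `Phi H f = 0` for all even real tests with `f x = 0` for `|x| ≥ t`. `P (‖D‖ + 1)` (`SpIn.of_norm`); `Q 0`. If `0 ≤ t < s` and neither `P s`
nor `Q t`, there are `f`, `k` as in the conclusion (take `m = (s + t) / 2`, `η = (s - t) / 4`; if `t < 0` everything is trivial). So for all `0 ≤ t < s`: `P s` or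
`Q t`. Let `β = inf {s ≥ 0 | P s}`: for all `η > 0`: `P (β + η)`, and `Q (β - 2η)` if `β - 2 η ≥ 0` (since `P (β - η)` is false). Consequences for
an arbitrary test `f`: if `f` vanishes on `[-β-η, β+η]`, multiply with an even real test `θ` which is `1` on the support of `f` and vanishes
on `[-β-η/2, β+η/2]`: `Phi H f = Phi H f * Phi H θ = 0` (`Phi_mul`); the same for tests supported in `(-β+2η, β-2η)`. So for every `y`:
(a) if `β = 0`: `SpIn H 0 0 y`, `H y = 0` (`scalar_of_SpIn`), `D = 0`, contradiction to the hypothesis with `c = 0`.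
(b) if `β > 0`: let `χ₊`, `χ₋` be tests with `χ₊ = 1` near `β`, `χ₊ x = 0` for `x ≤ β/2`, `χ₋ x = χ₊ (-x)`. A test `f` which vanishes near `β` and `-β`
has `Phi H f = 0` (split it by cutoffs into a part supported in `|x| < β - η'` and a part vanishing on `|x| ≤ β + η'`). So `Phi H (f - f χ₊ - f χ₋) = 0` for
every test `f`, i.e. `Phi H f (y - y₊ - y₋) = 0`, `y₊ = Phi H χ₊ y`, `y₋ = Phi H χ₋ y`; `eq_zero_of_Phi`: `y = y₊ + y₋`. And `SpIn H β β y₊`,
so `H y₊ = β y₊`, `H y₋ = - β y₋` (`scalar_of_SpIn`), `H (H y) = β² y`, `cx (D * D) = - β²`, contradiction with `c = - β²`.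
-/

set_option autoImplicit false

open Filter Topology MeasureTheory
open scoped FourierTransform

namespace Pool.Agent.Helper61.RO

universe u

variable {E : Type u} [NormedAddCommGroup E] [NormedSpace ℝ E] [CompleteSpace E]

private theorem ev_herm {D : E →L[ℝ] E} (hD : Sk D) : HP.Herm (Complex.I • cx D) := by
  have h : Complex.I • (Complex.I • cx D) = cx (-D) := by
    rw [smul_smul, Complex.I_mul_I, neg_one_smul, cx_neg]
  unfold HP.Herm
  rw [h]
  exact hD.neg

private theorem ev_real {f : ℝ → ℝ} (hf : HP.Test (fun x => ((f x : ℝ) : ℂ)))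
    (he : ∀ x, f (-x) = f x) (ξ : ℝ) :
    (((𝓕 (fun x => ((f x : ℝ) : ℂ)) ξ).re : ℝ) : ℂ) = 𝓕 (fun x => ((f x : ℝ) : ℂ)) ξ := by
  have h1 := hf.fourier_star ξ
  have h2 := hf.fourier_comp_neg ξ
  have e1 : (fun x => (starRingEnd ℂ) ((f x : ℝ) : ℂ)) = fun x => ((f x : ℝ) : ℂ) := by
    funext x
    exact Complex.conj_ofReal _
  have e2 : (fun x => ((f (-x) : ℝ) : ℂ)) = fun x => ((f x : ℝ) : ℂ) := by
    funext x
    rw [he]
  rw [e1] at h1
  rw [e2] at h2
  rw [← h2] at h1
  exact (Complex.conj_eq_iff_re.1 h1.symm)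

private theorem ev_rx_cont (D : E →L[ℝ] E) :
    Continuous (fun ξ : ℝ => rx (-(2 * Real.pi * ξ)) D) := by
  have h : Continuous (fun s : ℝ => rx s D) :=
    continuous_iff_continuousAt.2 fun t => (rx_hasDerivAt D t).continuousAt
  exact h.comp (continuous_const.mul continuous_id).neg

/-- `cx` as a continuous real-linear map -/
private noncomputable def cxL : (E →L[ℝ] E) →L[ℝ] (Cx E →L[ℂ] Cx E) :=
  LinearMap.mkContinuous
    { toFun := fun D => cx D
      map_add' := fun A B => cx_add A B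
      map_smul' := fun t A => by
        rw [cx_smul]
        rfl }
    1 (fun A => by
      rw [one_mul]
      exact (norm_cx A).le)

private theorem cxL_apply (D : E →L[ℝ] E) : cxL D = cx D := rfl

theorem phi_even {D : E →L[ℝ] E} (hD : Sk D) {f : ℝ → ℝ} (hf : HP.Test (fun x => ((f x : ℝ) : ℂ)))
    (he : ∀ x, f (-x) = f x) :
    ∃ F : E →L[ℝ] E, cx F = HP.Phi (Complex.I • cx D) (fun x => ((f x : ℝ) : ℂ)) := by
  have hint : Integrable (fun ξ : ℝ => (𝓕 (fun x => ((f x : ℝ) : ℂ)) ξ).re •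
      rx (-(2 * Real.pi * ξ)) D) := by
    have h1 : Integrable (fun ξ : ℝ => (𝓕 (fun x => ((f x : ℝ) : ℂ)) ξ).re) :=
      hf.integrable_fourier.re
    refine h1.norm.mono' (h1.aestronglyMeasurable.smul (ev_rx_cont D).aestronglyMeasurable)
      (ae_of_all _ fun ξ => ?_)
    rw [norm_smul]
    exact mul_le_of_le_one_right (norm_nonneg _) (hD.norm_rx_le _)
  refine ⟨∫ ξ : ℝ, (𝓕 (fun x => ((f x : ℝ) : ℂ)) ξ).re • rx (-(2 * Real.pi * ξ)) D, ?_⟩
  rw [← cxL_apply, ← ContinuousLinearMap.integral_comp_comm cxL hint]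
  unfold HP.Phi
  refine integral_congr_ae (ae_of_all _ fun ξ => ?_)
  show cx _ = _
  rw [cx_smul, ev_real hf he ξ, cx_rx]
  have h : Complex.I • (Complex.I • cx D) = cx (-D) := by
    rw [smul_smul, Complex.I_mul_I, neg_one_smul, cx_neg]
  simp only [h]
  rw [← cx_rx (2 * Real.pi * ξ) (-D), rx_neg_op, cx_rx]

/-- even cutoffs -/
private theorem ev_cut {a b : ℝ} (hab : a < b) :
    ∃ θ : ℝ → ℝ, HP.Test (fun x => ((θ x : ℝ) : ℂ)) ∧ (∀ x, θ (-x) = θ x) ∧
      (∀ x, |x| ≤ a → θ x = 1) ∧ (∀ x, b ≤ |x| → θ x = 0) := by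
  obtain ⟨χ, -, -, h3, -, -, h6, h7, h8⟩ :=
    HP.exists_cutoff (-(a - (b - a))) (a - (b - a)) (sub_pos.2 hab)
  refine ⟨fun x => χ x * χ (-x), ?_, fun x => ?_, fun x hx => ?_, fun x hx => ?_⟩
  · have h := h3.mul h3.comp_neg
    have e : (fun x => ((χ x * χ (-x) : ℝ) : ℂ)) = fun x => ((χ x : ℝ) : ℂ) * ((χ (-x) : ℝ) : ℂ) := by
      funext x
      push_cast
      rfl
    rw [e]
    exact h
  · show χ (-x) * χ (-(-x)) = χ x * χ (-x)
    rw [neg_neg, mul_comm]
  · have h := abs_le.1 hx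
    show χ x * χ (-x) = 1
    rw [h6 x (by linarith [h.1]) (by linarith [h.2]),
      h6 (-x) (by linarith [h.2]) (by linarith [h.1]), one_mul]
  · show χ x * χ (-x) = 0
    rcases le_abs.1 hx with h | h
    · rw [h8 x (by linarith), zero_mul]
    · rw [h7 x (by linarith), zero_mul]

private theorem ev_sub {f g : ℝ → ℝ} (hf : HP.Test (fun x => ((f x : ℝ) : ℂ)))
    (hg : HP.Test (fun x => ((g x : ℝ) : ℂ))) : HP.Test (fun x => ((f x - g x : ℝ) : ℂ)) := by
  have e : (fun x => ((f x - g x : ℝ) : ℂ)) = fun x => ((f x : ℝ) : ℂ) - ((g x : ℝ) : ℂ) := by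
    funext x
    push_cast
    rfl
  rw [e]
  exact hf.sub hg

private theorem ev_phi_sub {H : Cx E →L[ℂ] Cx E} (hH : HP.Herm H) {f g : ℝ → ℂ}
    (hf : HP.Test f) (hg : HP.Test g) :
    HP.Phi H (fun x => f x - g x) = HP.Phi H f - HP.Phi H g := by
  have h := HP.Phi_add hH hf (hg.smul (-1))
  rw [HP.Phi_smul hH hg] at h
  have e : (fun x => f x - g x) = fun x => f x + (-1) * g x := by
    funext x
    ring
  rw [e, h]
  module

private theorem ev_phi_zero {H : Cx E →L[ℂ] Cx E} (hH : HP.Herm H) {f : ℝ → ℂ}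
    (hf : ∀ x, f x = 0) : HP.Phi H f = 0 := by
  have e : f = fun x => (0 : ℂ) * (0 : ℂ) := by
    funext x
    rw [hf x, zero_mul]
  rw [e]
  have h := HP.Phi_smul hH HP.Test.zero (0 : ℂ)
  rw [h, zero_smul]

/-- the main step: if `Phi H f = 0` for all tests which vanish near `β` and `-β` then
`H * H = β ^ 2` -/
private theorem ev_final {H : Cx E →L[ℂ] Cx E} (hH : HP.Herm H) {β : ℝ} (hβ : 0 ≤ β)
    (h : ∀ f : ℝ → ℂ, HP.Test f → (∃ δ : ℝ, 0 < δ ∧ ∀ x, |(|x| - β)| ≤ δ → f x = 0) →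
      HP.Phi H f = 0) (y : Cx E) : H (H y) = ((β ^ 2 : ℝ) : ℂ) • y := by
  rcases hβ.eq_or_lt with h0 | h0
  · subst h0
    have h1 : HP.SpIn H 0 0 y := by
      intro f hf hv
      have h2 : HP.Phi H f = 0 := by
        refine h f hf ?_
        obtain ⟨δ, hδ, hδ'⟩ := Metric.eventually_nhds_iff.1 (hv 0 (by simp))
        refine ⟨δ / 2, by linarith, fun x hx => hδ' ?_⟩
        rw [Real.dist_eq, sub_zero]
        rw [sub_zero, abs_abs] at hx
        linarith
      rw [h2]
      rfl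
    have h2 := HP.eq_zero_of_SpIn_zero hH h1
    rw [h2, map_zero]
    simp
  · obtain ⟨χ, -, -, h3, -, -, h6, h7, h8⟩ :=
      HP.exists_cutoff β β (show (0 : ℝ) < β / 4 by linarith)
    have t1 : HP.Test (fun x => ((χ x : ℝ) : ℂ)) := h3
    have t2 : HP.Test (fun x => ((χ (-x) : ℝ) : ℂ)) := h3.comp_neg
    have key : HP.Phi H (fun x => ((χ x : ℝ) : ℂ)) y + HP.Phi H (fun x => ((χ (-x) : ℝ) : ℂ)) y =
        y := by
      have h9 : y - (HP.Phi H (fun x => ((χ x : ℝ) : ℂ)) y +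
          HP.Phi H (fun x => ((χ (-x) : ℝ) : ℂ)) y) = 0 := by
        refine HP.eq_zero_of_Phi hH fun f hf => ?_
        have h10 : HP.Phi H (fun x => f x - (f x * ((χ x : ℝ) : ℂ) + f x * ((χ (-x) : ℝ) : ℂ))) =
            0 := by
          refine h _ (hf.sub ((hf.mul t1).add (hf.mul t2))) ⟨β / 4, by linarith, fun x hx => ?_⟩
          have h11 := abs_le.1 hx
          rcases le_or_gt 0 x with hx0 | hx0
          · rw [abs_of_nonneg hx0] at h11
            rw [h6 x (by linarith [h11.1]) (by linarith [h11.2]), h7 (-x) (by linarith)]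
            push_cast
            ring
          · rw [abs_of_neg hx0] at h11
            rw [h6 (-x) (by linarith [h11.1]) (by linarith [h11.2]), h7 x (by linarith)]
            push_cast
            ring
        rw [ev_phi_sub hH hf ((hf.mul t1).add (hf.mul t2)),
          HP.Phi_add hH (hf.mul t1) (hf.mul t2), HP.Phi_mul hH hf t1, HP.Phi_mul hH hf t2] at h10
        have h12 := congrArg (fun T : Cx E →L[ℂ] Cx E => T y) h10
        rw [map_sub, map_add]
        exact h12
      exact (sub_eq_zero.1 h9).symm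
    have s1 : HP.SpIn H β β (HP.Phi H (fun x => ((χ x : ℝ) : ℂ)) y) := by
      intro g hg hv
      have h9 : HP.Phi H (fun x => g x * ((χ x : ℝ) : ℂ)) = 0 := by
        obtain ⟨δ, hδ, hδ'⟩ := Metric.eventually_nhds_iff.1 (hv β (by simp))
        refine h _ (hg.mul t1) ⟨min (δ / 2) (β / 4), lt_min (by linarith) (by linarith),
          fun x hx => ?_⟩
        have h11 := abs_le.1 (hx.trans (min_le_left _ _))
        have h12 := abs_le.1 (hx.trans (min_le_right _ _))
        rcases le_or_gt 0 x with hx0 | hx0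
        · rw [abs_of_nonneg hx0] at h11
          have h13 : g x = 0 := hδ' (by
            rw [Real.dist_eq, abs_lt]
            constructor <;> linarith [h11.1, h11.2])
          rw [h13, zero_mul]
        · rw [h7 x (by linarith)]
          simp
      rw [HP.Phi_mul hH hg t1] at h9
      exact congrArg (fun T : Cx E →L[ℂ] Cx E => T y) h9
    have s2 : HP.SpIn H (-β) (-β) (HP.Phi H (fun x => ((χ (-x) : ℝ) : ℂ)) y) := by
      intro g hg hv
      have h9 : HP.Phi H (fun x => g x * ((χ (-x) : ℝ) : ℂ)) = 0 := by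
        obtain ⟨δ, hδ, hδ'⟩ := Metric.eventually_nhds_iff.1 (hv (-β) (by simp))
        refine h _ (hg.mul t2) ⟨min (δ / 2) (β / 4), lt_min (by linarith) (by linarith),
          fun x hx => ?_⟩
        have h11 := abs_le.1 (hx.trans (min_le_left _ _))
        have h12 := abs_le.1 (hx.trans (min_le_right _ _))
        rcases le_or_gt 0 x with hx0 | hx0
        · rw [h7 (-x) (by linarith)]
          simp
        · rw [abs_of_neg hx0] at h11
          have h13 : g x = 0 := hδ' (by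
            rw [Real.dist_eq, abs_lt]
            constructor <;> linarith [h11.1, h11.2])
          rw [h13, zero_mul]
      rw [HP.Phi_mul hH hg t2] at h9
      exact congrArg (fun T : Cx E →L[ℂ] Cx E => T y) h9
    have e1 := HP.scalar_of_SpIn hH s1
    have e2 := HP.scalar_of_SpIn hH s2
    have e3 : H y = ((β : ℝ) : ℂ) • HP.Phi H (fun x => ((χ x : ℝ) : ℂ)) y +
        (((-β : ℝ)) : ℂ) • HP.Phi H (fun x => ((χ (-x) : ℝ) : ℂ)) y := by
      conv_lhs => rw [← key]
      rw [map_add, e1, e2]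
    rw [e3, map_add, map_smul, map_smul, e1, e2, smul_smul, smul_smul]
    conv_rhs => rw [← key]
    rw [smul_add]
    congr 2 <;> · push_cast; ring

theorem exists_two_even {D : E →L[ℝ] E} (hD : Sk D)
    (hns : ∀ c : ℝ, D * D ≠ c • (1 : E →L[ℝ] E)) :
    ∃ (m η : ℝ) (f k : ℝ → ℝ), 0 < η ∧ η < m ∧ HP.Test (fun x => ((f x : ℝ) : ℂ)) ∧
      HP.Test (fun x => ((k x : ℝ) : ℂ)) ∧ (∀ x, f (-x) = f x) ∧ (∀ x, k (-x) = k x) ∧
      (∀ x, |x| ≤ m + η → f x = 0) ∧ (∀ x, m - η ≤ |x| → k x = 0) ∧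
      HP.Phi (Complex.I • cx D) (fun x => ((f x : ℝ) : ℂ)) ≠ 0 ∧
      HP.Phi (Complex.I • cx D) (fun x => ((k x : ℝ) : ℂ)) ≠ 0 := by
  by_contra hno
  have hH := ev_herm hD
  set H : Cx E →L[ℂ] Cx E := Complex.I • cx D with hHdef
  let P : ℝ → Prop := fun t => ∀ f : ℝ → ℝ, HP.Test (fun x => ((f x : ℝ) : ℂ)) →
    (∀ x, f (-x) = f x) → (∀ x, |x| ≤ t → f x = 0) → HP.Phi H (fun x => ((f x : ℝ) : ℂ)) = 0
  let Q : ℝ → Prop := fun t => ∀ f : ℝ → ℝ, HP.Test (fun x => ((f x : ℝ) : ℂ)) →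
    (∀ x, f (-x) = f x) → (∀ x, t ≤ |x| → f x = 0) → HP.Phi H (fun x => ((f x : ℝ) : ℂ)) = 0
  have hPQ : ∀ t s : ℝ, 0 ≤ t → t < s → P s ∨ Q t := by
    intro t s ht hts
    by_contra hc
    rw [not_or] at hc
    obtain ⟨hP, hQ⟩ := hc
    simp only [P, Q, not_forall] at hP hQ
    obtain ⟨f, hf, hfe, hf0, hfn⟩ := hP
    obtain ⟨k, hk, hke, hk0, hkn⟩ := hQ
    exact hno ⟨(s + t) / 2, (s - t) / 4, f, k, by linarith, by linarith, hf, hk, hfe, hke,
      fun x hx => hf0 x (by linarith), fun x hx => hk0 x (by linarith), hfn, hkn⟩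
  have hPmono : ∀ s s' : ℝ, s ≤ s' → P s → P s' := fun s s' hs hP f hf hfe hf0 =>
    hP f hf hfe fun x hx => hf0 x (hx.trans hs)
  have hPbig : P (‖H‖ + 1) := by
    intro f hf hfe hf0
    ext1 y
    refine HP.SpIn.of_norm hH le_rfl y _ hf fun x hx => ?_
    have h1 : |x| ≤ ‖H‖ := abs_le.2 ⟨hx.1, hx.2⟩
    refine Metric.eventually_nhds_iff.2 ⟨1, one_pos, fun z hz => ?_⟩
    have h2 : |z| ≤ ‖H‖ + 1 := by
      have h3 : |z| ≤ |x| + |z - x| := by
        have := abs_add_le x (z - x)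
        rwa [add_sub_cancel] at this
      rw [Real.dist_eq] at hz
      linarith
    show ((f z : ℝ) : ℂ) = 0
    rw [hf0 z h2]
    simp
  set S : Set ℝ := {s | 0 ≤ s ∧ P s} with hS
  have hSne : S.Nonempty := ⟨‖H‖ + 1, by positivity, hPbig⟩
  have hSbd : BddBelow S := ⟨0, fun s hs => hs.1⟩
  set β : ℝ := sInf S with hβdef
  have hβ : 0 ≤ β := le_csInf hSne fun s hs => hs.1
  have hPβ : ∀ η : ℝ, 0 < η → P (β + η) := by
    intro η hη
    obtain ⟨s, hs, hs'⟩ := exists_lt_of_csInf_lt hSne (show sInf S < β + η by linarith)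
    exact hPmono s _ hs'.le hs.2
  have hQβ : ∀ t : ℝ, 0 ≤ t → t < β → Q t := by
    intro t ht htβ
    rcases hPQ t ((t + β) / 2) ht (by linarith) with h | h
    · have h1 : β ≤ (t + β) / 2 := csInf_le hSbd ⟨by linarith, h⟩
      linarith
    · exact h
  have hmain : ∀ f : ℝ → ℂ, HP.Test f → (∃ δ : ℝ, 0 < δ ∧ ∀ x, |(|x| - β)| ≤ δ → f x = 0) →
      HP.Phi H f = 0 := by
    rintro f hf ⟨δ, hδ, hfδ⟩
    -- the inner cutoff
    have hin : ∃ θ : ℝ → ℝ, HP.Test (fun x => ((θ x : ℝ) : ℂ)) ∧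
        HP.Phi H (fun x => ((θ x : ℝ) : ℂ)) = 0 ∧
        (∀ x, |x| < β - δ → θ x = 1) ∧ (∀ x, β ≤ |x| → θ x = 0) := by
      rcases le_or_gt (β - δ) 0 with h | h
      · refine ⟨fun _ => 0, ?_, ev_phi_zero hH fun x => ?_, fun x hx => ?_, fun x hx => rfl⟩
        · simpa using HP.Test.zero
        · simp
        · exact absurd (abs_nonneg x) (by linarith)
      · obtain ⟨θ, h1, h2, h3, h4⟩ := ev_cut (show β - δ < β - δ / 2 by linarith)
        exact ⟨θ, h1, hQβ (β - δ / 2) (by linarith) (by linarith) θ h1 h2 h4,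
          fun x hx => h3 x hx.le, fun x hx => h4 x (by linarith)⟩
    obtain ⟨θi, ti, pi0, hi1, hi0⟩ := hin
    obtain ⟨θm, tm, em, hm1, hm0⟩ := ev_cut (show β + δ / 2 < β + δ by linarith)
    -- a bound for the support
    obtain ⟨R, hR⟩ : ∃ R : ℝ, ∀ x, R ≤ |x| → f x = 0 := by
      obtain ⟨R, hR⟩ := hf.2.isCompact.isBounded.subset_closedBall 0
      refine ⟨R + 1, fun x hx => ?_⟩
      by_contra h
      have h1 := hR (subset_tsupport f (Function.mem_support.2 h))
      rw [mem_closedBall_zero_iff, Real.norm_eq_abs] at h1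
      linarith
    obtain ⟨θb, tb, eb, hb1, hb0⟩ := ev_cut
      (show max R (β + δ) < max R (β + δ) + 1 by linarith)
    have ho : HP.Phi H (fun x => ((θb x - θm x : ℝ) : ℂ)) = 0 := by
      refine hPβ (δ / 2) (by linarith) (fun x => θb x - θm x) (ev_sub tb tm) (fun x => ?_)
        fun x hx => ?_
      · show θb (-x) - θm (-x) = θb x - θm x
        rw [eb, em]
      · show θb x - θm x = 0
        rw [hm1 x hx, hb1 x (le_trans (by linarith) (le_max_right _ _)), sub_self]
    have hz : HP.Phi H (fun x => f x * ((θm x - θi x : ℝ) : ℂ)) = 0 := by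
      refine ev_phi_zero hH fun x => ?_
      by_cases hx : |(|x| - β)| ≤ δ
      · rw [hfδ x hx, zero_mul]
      · rcases lt_abs.1 (not_le.1 hx) with h | h
        · rw [hm0 x (by linarith), hi0 x (by linarith)]
          simp
        · rw [hm1 x (by linarith), hi1 x (by linarith)]
          simp
    have hd : f = fun x => (f x * ((θb x - θm x : ℝ) : ℂ) + f x * ((θm x - θi x : ℝ) : ℂ)) +
        f x * ((θi x : ℝ) : ℂ) := by
      funext x
      by_cases hx : R ≤ |x|
      · rw [hR x hx]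
        ring
      · rw [hb1 x ((not_le.1 hx).le.trans (le_max_left _ _))]
        push_cast
        ring
    rw [hd, HP.Phi_add hH ((hf.mul (ev_sub tb tm)).add (hf.mul (ev_sub tm ti))) (hf.mul ti),
      HP.Phi_add hH (hf.mul (ev_sub tb tm)) (hf.mul (ev_sub tm ti)),
      HP.Phi_mul hH hf (ev_sub tb tm), ho, hz, HP.Phi_mul hH hf ti, pi0]
    simp
  have hfin := ev_final hH hβ hmain
  refine hns (-(β ^ 2)) (cx_inj ?_)
  rw [cx_smul, cx_one, cx_mul]
  ext1 y
  have h1 := hfin y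
  have h2 : H (H y) = -(cx D (cx D y)) := by
    show Complex.I • cx D (Complex.I • cx D y) = _
    rw [map_smul, smul_smul, Complex.I_mul_I, neg_one_smul]
  rw [h2] at h1
  show cx D (cx D y) = ((-(β ^ 2) : ℝ) : ℂ) • y
  rw [← neg_neg (cx D (cx D y)), h1]
  push_cast
  rw [neg_smul]

end Pool.Agent.Helper61.RO
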