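import Pool.Agent.Helper61.RO.SkApi
import Pool.Agent.Helper61.HO.PrApi

/-!
# RO-08  Real Lie algebras of skew operators as Lie algebras of hermitian operators of `Cx E`

PROOFS.
* `hlie_hc`: `Herm (i cx D)`: `i (i cx D) = - cx D` is skew. `lie`: `i [i cx D, i cx D'] = i cx (- [D, D'])`
  (`cx_mul`, `cx_sub`). `ulim`: `ulim_cx`. The other fields by `cx_add`, `cx_smul`, `cx_zero`.
* `rlie_gg`: `Sk.add`, ..., `Sk.ulim`. `rlie_cent`: the commutant of a set: `RULim.mul_left`, `mul_right`, `unique`.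
* `pr_hc`: `Pr (hc 𝔠) w w'` means `w = i cx P + i (i cx Q)`, `w' = i cx P - i (i cx Q)` with `P, Q ∈ 𝔠`.
-/

set_option autoImplicit false

open Filter Topology

namespace Pool.Agent.Helper61.RO

universe u

variable {E : Type u} [NormedAddCommGroup E] [NormedSpace ℝ E] [CompleteSpace E]
  {𝔠 : Set (E →L[ℝ] E)}

private theorem hl_I_mul (A B : Cx E →L[ℂ] Cx E) :
    (Complex.I • A) * (Complex.I • B) = -(A * B) := by
  rw [smul_mul_assoc, mul_smul_comm, smul_smul, Complex.I_mul_I, neg_smul, one_smul]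

private theorem hl_herm {D : E →L[ℝ] E} (hD : Sk D) : HP.Herm (Complex.I • cx D) := by
  have h1 : HP.Skew (cx (-D)) := hD.neg
  unfold HP.Herm
  rw [smul_smul, Complex.I_mul_I, neg_smul, one_smul, ← cx_neg]
  exact h1

private theorem hl_I_cancel {A B : E →L[ℝ] E} (h : Complex.I • cx A = Complex.I • cx B) : A = B := by
  apply cx_inj
  have h1 := congrArg (fun z => (-Complex.I) • z) h
  simp only [smul_smul, neg_mul, Complex.I_mul_I, neg_neg, one_smul] at h1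
  exact h1

theorem hlie_hc (hN : RNice E) (h𝔠 : RLie 𝔠) : HP.HLie (hc 𝔠) := by
  constructor
  · rintro _ ⟨D, hD, rfl⟩
    exact hl_herm (h𝔠.sk D hD)
  · exact ⟨0, h𝔠.zero, by rw [cx_zero, smul_zero]⟩
  · rintro _ ⟨D, hD, rfl⟩ _ ⟨D', hD', rfl⟩
    exact ⟨D + D', h𝔠.add D hD D' hD', by rw [cx_add, smul_add]⟩
  · rintro t _ ⟨D, hD, rfl⟩
    exact ⟨t • D, h𝔠.smul t D hD, by rw [cx_smul, smul_comm]⟩
  · rintro _ ⟨D, hD, rfl⟩ _ ⟨D', hD', rfl⟩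
    refine ⟨-(br D D'), ?_, ?_⟩
    · have h1 := h𝔠.smul (-1) _ (h𝔠.br D hD D' hD')
      rwa [neg_one_smul] at h1
    · rw [hl_I_mul, hl_I_mul, br, cx_neg, cx_sub, cx_mul, cx_mul]
      congr 1
      abel
  · intro D L hD hL
    choose D' hD' hDD using hD
    have h1 : D = fun n => Complex.I • cx (D' n) := funext hDD
    rw [h1] at hL
    obtain ⟨L', h2, h3⟩ := ulim_cx hN hL
    exact ⟨L', h𝔠.ulim D' L' hD' h2, h3⟩

theorem rlie_gg (hN : RNice E) : RLie (gg E) := by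
  refine ⟨fun D hD => hD, Sk.zero, fun D hD D' hD' => Sk.add hD hD', fun t D hD => Sk.smul hD t,
    fun D hD D' hD' => Sk.br hD hD', fun D L hD hL => Sk.ulim hN hD hL⟩

theorem rlie_cent (h𝔠 : RLie 𝔠) (𝔰 : Set (E →L[ℝ] E)) :
    RLie {D | D ∈ 𝔠 ∧ ∀ A ∈ 𝔰, A * D = D * A} := by
  refine ⟨fun D hD => h𝔠.sk D hD.1, ⟨h𝔠.zero, fun A _ => by rw [mul_zero, zero_mul]⟩, ?_, ?_, ?_, ?_⟩
  · rintro D ⟨hD, h1⟩ D' ⟨hD', h2⟩
    refine ⟨h𝔠.add D hD D' hD', fun A hA => ?_⟩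
    rw [mul_add, add_mul, h1 A hA, h2 A hA]
  · rintro t D ⟨hD, h1⟩
    refine ⟨h𝔠.smul t D hD, fun A hA => ?_⟩
    rw [mul_smul_comm, smul_mul_assoc, h1 A hA]
  · rintro D ⟨hD, h1⟩ D' ⟨hD', h2⟩
    refine ⟨h𝔠.br D hD D' hD', fun A hA => ?_⟩
    unfold br
    rw [mul_sub, sub_mul, ← mul_assoc, ← mul_assoc, h1 A hA, h2 A hA, mul_assoc D A, h2 A hA,
      mul_assoc D' A, h1 A hA, mul_assoc, mul_assoc]
  · intro D L hD hL
    refine ⟨h𝔠.ulim D L (fun n => (hD n).1) hL, fun A hA => ?_⟩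
    have h1 := hL.mul_left A
    have h2 := hL.mul_right A
    have h3 : (fun n => A * D n) = fun n => D n * A := funext fun n => (hD n).2 A hA
    rw [h3] at h1
    exact h1.unique h2

theorem pr_hc {w w' : Cx E →L[ℂ] Cx E} : HP.Pr (hc 𝔠) w w' ↔ ∃ P ∈ 𝔠, ∃ Q ∈ 𝔠,
    w = Complex.I • cx P - cx Q ∧ w' = Complex.I • cx P + cx Q := by
  constructor
  · rintro ⟨_, ⟨P, hP, rfl⟩, _, ⟨Q, hQ, rfl⟩, h1, h2⟩
    refine ⟨P, hP, Q, hQ, ?_, ?_⟩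
    · rw [h1, smul_smul, Complex.I_mul_I, neg_smul, one_smul, sub_eq_add_neg]
    · rw [h2, smul_smul, Complex.I_mul_I, neg_smul, one_smul, sub_neg_eq_add]
  · rintro ⟨P, hP, Q, hQ, h1, h2⟩
    refine ⟨_, ⟨P, hP, rfl⟩, _, ⟨Q, hQ, rfl⟩, ?_, ?_⟩
    · rw [h1, smul_smul, Complex.I_mul_I, neg_smul, one_smul, sub_eq_add_neg]
    · rw [h2, smul_smul, Complex.I_mul_I, neg_smul, one_smul, sub_neg_eq_add]

theorem hc_noncomm (h : ∃ A ∈ 𝔠, ∃ B ∈ 𝔠, A * B ≠ B * A) :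
    ∃ A ∈ hc 𝔠, ∃ B ∈ hc 𝔠, A * B ≠ B * A := by
  obtain ⟨A, hA, B, hB, hAB⟩ := h
  refine ⟨_, ⟨A, hA, rfl⟩, _, ⟨B, hB, rfl⟩, fun h1 => hAB ?_⟩
  rw [hl_I_mul, hl_I_mul, neg_inj, ← cx_mul, ← cx_mul] at h1
  exact cx_inj h1

end Pool.Agent.Helper61.RO
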