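import Pool.Agent.Helper61.RO.CxRefl
import Pool.Agent.Helper61.HO.TripW

/-!
# RO-62  Localised tripotents

The statement of `exists_w_of_ab` (`HO/TripW.lean`) in the space `Cx E`, with control of the supports. PROOF. Copy the proof of `exists_w_of_ab` with the following changes.
* `exists_ulim hN` becomes `exists_ulim_cx hN` (only reflexivity is needed).
* `F` is given; `b ≠ 0` because `YF b b' F ≠ 0` (if `b = 0`, `YF = Phi L f 0 = 0`), so `h ≠ 0` as there.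
* The bumps: `g m` = 1 on `[α + (α' - α) / 2^m, β - (β - β') / 2^m]`, `0` outside of `(α + (α' - α) / 2^(m+1), β - (β - β') / 2^(m+1))` (`exists_PT_bump`; `α ≥ 0`). `F` lives in `[α', β']`, where all
  `g m` are `1` (`m = 0` gives exactly `[α', β']`). `G m`, `c m` from `exists_iterate` for `g m`: `G m t = 0` if `g m t = 0`, `G m t = c m` if `g m t = 1`. For `i < j`: `G i G j = c j G i`, and `F G j = c j F`.
* The rest is unchanged; `G i t ≠ 0` implies `g i t ≠ 0`, so `α < t < β`.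
-/

set_option autoImplicit false

open Filter Topology

namespace Pool.Agent.Helper61.RO

universe u

variable {E : Type u} [NormedAddCommGroup E] [NormedSpace ℝ E] [CompleteSpace E]
  {𝔥 : Set (Cx E →L[ℂ] Cx E)} {h b b' : Cx E →L[ℂ] Cx E} {ε : ℝ}
  {𝔅 : Submodule ℂ (Cx E →L[ℂ] Cx E)}

section aux

variable {F : Type*} [NormedAddCommGroup F] [NormedSpace ℂ F]

private theorem tp_congr {D D' : ℕ → F →L[ℂ] F} {L : F →L[ℂ] F} (hD : HP.IsULim D L)
    (he : ∀ᶠ n in atTop, D n = D' n) : HP.IsULim D' L := by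
  intro x φ
  refine (hD x φ).congr' ?_
  have h1 : ∀ᶠ n in (hyperfilter ℕ : Filter ℕ), D n = D' n := Nat.hyperfilter_le_atTop he
  filter_upwards [h1] with n hn
  rw [hn]

private theorem tp_sub {D D' : ℕ → F →L[ℂ] F} {L L' : F →L[ℂ] F} (hD : HP.IsULim D L)
    (hD' : HP.IsULim D' L') : HP.IsULim (fun n => D n - D' n) (L - L') := by
  have h1 := hD.add hD'.neg
  simp only [← sub_eq_add_neg] at h1
  exact h1

private theorem tp_lie_right {D : ℕ → F →L[ℂ] F} {L : F →L[ℂ] F} (hD : HP.IsULim D L)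
    (A : F →L[ℂ] F) : HP.IsULim (fun n => HP.lie A (D n)) (HP.lie A L) :=
  tp_sub (hD.mul_left A) (hD.mul_right A)

private theorem tp_lie_left {D : ℕ → F →L[ℂ] F} {L : F →L[ℂ] F} (hD : HP.IsULim D L)
    (A : F →L[ℂ] F) : HP.IsULim (fun n => HP.lie (D n) A) (HP.lie L A) :=
  tp_sub (hD.mul_right A) (hD.mul_left A)

private theorem tp_step {y y' : ℕ → F →L[ℂ] F} {w w' A : F →L[ℂ] F} {c : ℕ → ℝ}
    (hc : Tendsto c atTop (𝓝 1)) (hw : HP.IsULim y w) (hw' : HP.IsULim y' w') (N : ℕ)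
    (h : ∀ j l, N ≤ j → N ≤ l →
      HP.lie (HP.lie A (y' j)) (y l) = ((2 * c j * c l : ℝ) : ℂ) • A) :
    HP.lie (HP.lie A w') w = (2 : ℂ) • A := by
  have h1 : ∀ j, N ≤ j → HP.lie (HP.lie A (y' j)) w = ((2 * c j : ℝ) : ℂ) • A := by
    intro j hj
    have h2 : HP.IsULim (fun l => ((2 * c j * c l : ℝ) : ℂ) • A) (((2 * c j : ℝ) : ℂ) • A) := by
      refine HP.isULim_of_tendsto ?_
      have h3 : Tendsto (fun l => ((2 * c j * c l : ℝ) : ℂ)) atTop (𝓝 ((2 * c j * 1 : ℝ) : ℂ)) :=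
        (Complex.continuous_ofReal.tendsto _).comp (hc.const_mul _)
      rw [mul_one] at h3
      exact h3.smul_const A
    have h4 : HP.IsULim (fun l => HP.lie (HP.lie A (y' j)) (y l)) (((2 * c j : ℝ) : ℂ) • A) := by
      refine tp_congr h2 ?_
      filter_upwards [eventually_ge_atTop N] with l hl
      exact (h j l hj hl).symm
    exact (tp_lie_right hw _).unique h4
  have h2 : HP.IsULim (fun j => ((2 * c j : ℝ) : ℂ) • A) ((2 : ℂ) • A) := by
    refine HP.isULim_of_tendsto ?_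
    have h3 : Tendsto (fun j => ((2 * c j : ℝ) : ℂ)) atTop (𝓝 ((2 * 1 : ℝ) : ℂ)) :=
      (Complex.continuous_ofReal.tendsto _).comp (hc.const_mul _)
    rw [mul_one, Complex.ofReal_ofNat] at h3
    exact h3.smul_const A
  have h4 : HP.IsULim (fun j => HP.lie (HP.lie A (y' j)) w) ((2 : ℂ) • A) := by
    refine tp_congr h2 ?_
    filter_upwards [eventually_ge_atTop N] with j hj
    exact (h1 j hj).symm
  exact (tp_lie_left (tp_lie_right hw' A) w).unique h4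

end aux

theorem exists_trip_pt (hN : RNice E) (hh : HP.HLie 𝔥) (hB : HP.IsAb 𝔥 h ε 𝔅) (hε0 : 0 ≤ ε)
    (hε : ε ≤ 1 / 30) (hb : b ∈ 𝔅) (hbb : HP.Pr 𝔥 b b') {F : ℝ → ℝ} (hF : HP.PT F)
    (hFne : HP.YF b b' F ≠ 0) {α β α' β' : ℝ} (hα : 0 ≤ α) (hαα : α < α') (hββ : β' < β)
    (hαβ : α' < β') (hsupp : ∀ t, F t ≠ 0 → α' ≤ t ∧ t ≤ β') :
    ∃ (G : ℕ → ℝ → ℝ) (w w' : Cx E →L[ℂ] Cx E), (∀ i, HP.PT (G i)) ∧
      (∀ i t, G i t ≠ 0 → α < t ∧ t < β) ∧ HP.IsULim (fun i => HP.YF b b' (G i)) w ∧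
      HP.IsULim (fun i => HP.YF' b b' (G i)) w' ∧ HP.Pr 𝔥 w w' ∧ w ≠ 0 ∧
      HP.lie (HP.lie w w') w = (2 : ℂ) • w := by
  have hb0 : b ≠ 0 := by
    intro h0
    refine hFne ?_
    unfold HP.YF
    rw [h0, map_zero]
  have hbn : 0 < ‖b‖ := norm_pos_iff.2 hb0
  have hh0 : h ≠ 0 := by
    intro h0
    have h1 := hB.near b hb
    rw [h0] at h1
    have h2 : HP.lie (0 : Cx E →L[ℂ] Cx E) b = 0 := by
      unfold HP.lie
      rw [zero_mul, mul_zero, sub_zero]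
    rw [h2, zero_sub, norm_neg] at h1
    nlinarith
  have hp1 : 0 < α' - α := by linarith
  have hp2 : 0 < β - β' := by linarith
  have hpow : ∀ m : ℕ, (1 : ℝ) ≤ 2 ^ m := fun m => one_le_pow₀ (by norm_num)
  have hpow' : ∀ i j : ℕ, i < j → (2 : ℝ) ^ (i + 1) ≤ 2 ^ j := fun i j hij =>
    pow_le_pow_right₀ (by norm_num) hij
  have hbump : ∀ m : ℕ, ∃ g : ℝ → ℝ, HP.PT g ∧
      (∀ t, α + (α' - α) / 2 ^ m ≤ t → t ≤ β - (β - β') / 2 ^ m → g t = 1) ∧
      (∀ t, t ≤ α + (α' - α) / 2 ^ (m + 1) → g t = 0) ∧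
      (∀ t, β - (β - β') / 2 ^ (m + 1) ≤ t → g t = 0) := by
    intro m
    have h2 : (0 : ℝ) < 2 ^ m := by positivity
    have h3 : (2 : ℝ) ^ m < 2 ^ (m + 1) := pow_lt_pow_right₀ (by norm_num) (Nat.lt_succ_self m)
    have h4 : 0 < (α' - α) / 2 ^ (m + 1) := by positivity
    have h5 : (α' - α) / 2 ^ (m + 1) < (α' - α) / 2 ^ m := div_lt_div_of_pos_left hp1 h2 h3
    have h6 : (β - β') / 2 ^ (m + 1) < (β - β') / 2 ^ m := div_lt_div_of_pos_left hp2 h2 h3
    obtain ⟨g, g1, -, -, g2, g3, g4⟩ := HP.exists_PT_bump (a := α + (α' - α) / 2 ^ m)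
      (b := β - (β - β') / 2 ^ m) (a' := α + (α' - α) / 2 ^ (m + 1))
      (b' := β - (β - β') / 2 ^ (m + 1)) (by linarith) (by linarith) (by linarith)
    exact ⟨g, g1, g2, g3, g4⟩
  choose g hg1 hg2 hg3 hg4 using hbump
  have hit : ∀ m : ℕ, ∃ (Fm : ℝ → ℝ) (c : ℝ), HP.PT Fm ∧ ‖HP.YF b b' Fm‖ ≤ 4 * ‖h‖ ∧
      1 - 1 / ((m : ℝ) + 2) ≤ c ∧ c ≤ 1 ∧
      (∀ t, g m t = 0 → Fm t = 0) ∧ (∀ t, g m t = 1 → Fm t = c) := fun m =>
    HP.exists_iterate hh hB hε hb hbb hh0 (hg1 m) (by positivity)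
  choose G c hG1 hG2 hc1 hc2 hG3 hG4 using hit
  have hc : Tendsto c atTop (𝓝 1) := by
    refine tendsto_of_tendsto_of_tendsto_of_le_of_le ?_ tendsto_const_nhds hc1 hc2
    have h1 : Tendsto (fun m : ℕ => ((m : ℝ) + 2)) atTop atTop :=
      tendsto_atTop_add_const_right _ _ tendsto_natCast_atTop_atTop
    have h2 : Tendsto (fun m : ℕ => 1 / ((m : ℝ) + 2)) atTop (𝓝 0) := by
      simp_rw [one_div]
      exact h1.inv_tendsto_atTop
    have h3 := h2.const_sub 1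
    rwa [sub_zero] at h3
  have hne : ∀ i t, G i t ≠ 0 → α + (α' - α) / 2 ^ (i + 1) < t ∧
      t < β - (β - β') / 2 ^ (i + 1) := by
    intro i t ht
    have hgt : g i t ≠ 0 := fun h0 => ht (hG3 i t h0)
    exact ⟨lt_of_not_ge fun hle => hgt (hg3 i t hle), lt_of_not_ge fun hle => hgt (hg4 i t hle)⟩
  have hGG : ∀ i j : ℕ, i < j → ∀ t, G i t * G j t = c j * G i t := by
    intro i j hij t
    by_cases hgt : G i t = 0
    · rw [hgt]
      ring
    · obtain ⟨h1, h2⟩ := hne i t hgt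
      have h5 : (α' - α) / 2 ^ j ≤ (α' - α) / 2 ^ (i + 1) :=
        div_le_div_of_nonneg_left hp1.le (by positivity) (hpow' i j hij)
      have h6 : (β - β') / 2 ^ j ≤ (β - β') / 2 ^ (i + 1) :=
        div_le_div_of_nonneg_left hp2.le (by positivity) (hpow' i j hij)
      rw [hG4 j t (hg2 j t (by linarith) (by linarith))]
      ring
  have hFG : ∀ j : ℕ, ∀ t, F t * G j t = c j * F t := by
    intro j t
    by_cases hgt : F t = 0
    · rw [hgt]
      ring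
    · obtain ⟨h1, h2⟩ := hsupp t hgt
      have h5 : (α' - α) / 2 ^ j ≤ α' - α := div_le_self hp1.le (hpow j)
      have h6 : (β - β') / 2 ^ j ≤ β - β' := div_le_self hp2.le (hpow j)
      rw [hG4 j t (hg2 j t (by linarith) (by linarith))]
      ring
  have hpr : ∀ m, HP.Pr 𝔥 (HP.YF b b' (G m)) (HP.YF' b b' (G m)) := fun m =>
    HP.pr_YF hh hbb (hG1 m)
  obtain ⟨w, -, hw⟩ := exists_ulim_cx hN (fun m => HP.YF b b' (G m)) (4 * ‖h‖) hG2
  obtain ⟨w', -, hw'⟩ := exists_ulim_cx hN (fun m => HP.YF' b b' (G m)) (6 * (4 * ‖h‖))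
    (fun m => ((hpr m).norm_le hh).trans (mul_le_mul_of_nonneg_left (hG2 m) (by norm_num)))
  have hww : HP.Pr 𝔥 w w' := HP.Pr.ulim hh hpr hw hw'
  have htri : ∀ (K : ℝ → ℝ), HP.PT K → ∀ N : ℕ, (∀ j, N ≤ j → ∀ t, K t * G j t = c j * K t) →
      HP.lie (HP.lie (HP.YF b b' K) w') w = (2 : ℂ) • HP.YF b b' K := by
    intro K hK N hKG
    refine tp_step (y := fun m => HP.YF b b' (G m)) (y' := fun m => HP.YF' b b' (G m)) hc hw hw'
      N ?_
    intro j l hj hl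
    have e1 := HP.triple_YF hh hB hb hbb hK (hG1 j) (hG1 l)
    have e2 : (fun t => K t * G j t * G l t) = fun t => (c j * c l) * K t := by
      funext t
      rw [hKG j hj t, mul_assoc, hKG l hl t]
      ring
    rw [e2, HP.YF_smul hh hbb hK] at e1
    rw [e1, smul_smul]
    congr 1
    push_cast
    ring
  have hF2 := htri F hF 0 (fun j _ t => hFG j t)
  have hG5 : ∀ i, HP.lie (HP.lie (HP.YF b b' (G i)) w') w = (2 : ℂ) • HP.YF b b' (G i) :=
    fun i => htri (G i) (hG1 i) (i + 1) (fun j hj t => hGG i j hj t)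
  refine ⟨G, w, w', hG1, ?_, hw, hw', hww, ?_, ?_⟩
  · intro i t ht
    obtain ⟨h1, h2⟩ := hne i t ht
    have h3 : 0 < (α' - α) / 2 ^ (i + 1) := by positivity
    have h4 : 0 < (β - β') / 2 ^ (i + 1) := by positivity
    exact ⟨by linarith, by linarith⟩
  · intro h0
    rw [h0] at hF2
    have h1 : HP.lie (HP.lie (HP.YF b b' F) w') (0 : Cx E →L[ℂ] Cx E) = 0 := by
      unfold HP.lie
      rw [zero_mul, mul_zero, sub_zero]
    rw [h1] at hF2
    have h2 := smul_eq_zero.1 hF2.symm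
    rcases h2 with h2 | h2
    · norm_num at h2
    · exact hFne h2
  · have h1 : HP.IsULim (fun i => HP.lie (HP.lie (HP.YF b b' (G i)) w') w)
        (HP.lie (HP.lie w w') w) := tp_lie_left (tp_lie_left hw w') w
    have h2 : HP.IsULim (fun i => HP.lie (HP.lie (HP.YF b b' (G i)) w') w) ((2 : ℂ) • w) := by
      have h3 := hw.smul (2 : ℂ)
      refine tp_congr h3 (Filter.Eventually.of_forall fun i => ?_)
      exact (hG5 i).symm
    exact h1.unique h2

end Pool.Agent.Helper61.RO
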