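import Pool.Agent.Helper61.RO.DefsS
import Pool.Agent.Helper61.RO.AbNil
import Pool.Agent.Helper61.RO.TripPT
import Pool.Agent.Helper61.RO.HLieOf

/-!
# RO-63  Existence of tripotents in a non-abelian real Lie algebra

PROOF. `hh = hlie_hc hN h𝔠`; `exists_isAb3` for `hc 𝔠` (`hc_noncomm`) and `ε = 1/30`; `b = lie K (lie K K')`, star `b'` (`IsAb.pr`); `b ≠ 0` as in the proof of `exists_w` (`HO/TripW.lean`, by `aniso`).
`exists_YF_ne`: `F` with `PT F`, `YF b b' F ≠ 0`; `F` vanishes for `t ≤ δ` and for `t ≥ R` (`R > δ`, compact support). `exists_trip_pt` with `α = δ / 2`, `α' = δ`, `β' = R`, `β = R + 1`: `G`, `w`, `w'`.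
`nil`: let `Pr k l`. `YF b b' (G i) ∈ 𝔅` (`YF_mem`), so `lie (YF (G i)) (lie (YF (G j)) (lie (YF (G m)) k)) = 0` for all `i, j, m`. Multiplication by a fixed operator is compatible with ultralimits (`IsULim.mul_left`,
`mul_right`, uniqueness `IsULim.unique`; see the private lemmas `isULim_lie_left`, `isULim_lie_right` in `HO/TripW.lean`): let `m → ∞`, then `j → ∞`, then `i → ∞`.
-/

set_option autoImplicit false

open Filter Topology

namespace Pool.Agent.Helper61.RO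

universe u

variable {E : Type u} [NormedAddCommGroup E] [NormedSpace ℝ E] [CompleteSpace E]
  {𝔠 : Set (E →L[ℝ] E)}

private theorem tt_lie_right {V : Type*} [NormedAddCommGroup V] [NormedSpace ℂ V]
    {D : ℕ → V →L[ℂ] V} {L : V →L[ℂ] V} (hD : HP.IsULim D L) (A : V →L[ℂ] V) :
    HP.IsULim (fun n => HP.lie A (D n)) (HP.lie A L) := by
  have h1 := (hD.mul_left A).add (hD.mul_right A).neg
  simp only [← sub_eq_add_neg] at h1
  exact h1

private theorem tt_lie_left {V : Type*} [NormedAddCommGroup V] [NormedSpace ℂ V]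
    {D : ℕ → V →L[ℂ] V} {L : V →L[ℂ] V} (hD : HP.IsULim D L) (A : V →L[ℂ] V) :
    HP.IsULim (fun n => HP.lie (D n) A) (HP.lie L A) := by
  have h1 := (hD.mul_right A).add (hD.mul_left A).neg
  simp only [← sub_eq_add_neg] at h1
  exact h1

theorem exists_tt (hN : RNice E) (h𝔠 : RLie 𝔠) (hnab : ∃ A ∈ 𝔠, ∃ B ∈ 𝔠, A * B ≠ B * A) :
    ∃ w w' : Cx E →L[ℂ] Cx E, TT 𝔠 w w' := by
  have hh := hlie_hc hN h𝔠
  obtain ⟨h, 𝔅, hB, hB3, K, K', hKK, hK0, hKn, hb⟩ :=
    HP.exists_isAb3 hh (hc_noncomm hnab) (ε := 1 / 30) (by norm_num)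
  obtain ⟨b', hbb⟩ := hB.pr _ hb
  have hb0 : HP.lie K (HP.lie K K') ≠ 0 := fun h0 => hK0 (by
    refine HP.aniso hh hB.mem hKK (ε := 1 / 30) (by norm_num) (by norm_num) hKn ?_
    have h1 : HP.lie (HP.lie K K') K = -HP.lie K (HP.lie K K') := by
      unfold HP.lie
      rw [neg_sub]
    rw [h1, h0, neg_zero])
  obtain ⟨F, hF, hFne⟩ := HP.exists_YF_ne hh hB (by norm_num) (by norm_num) hb hbb hb0
  obtain ⟨δ, hδ, hFδ⟩ := hF.2.2
  obtain ⟨M, hM, hFM⟩ : ∃ M : ℝ, δ < M ∧ ∀ t, M ≤ t → F t = 0 := by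
    obtain ⟨R, hR⟩ := hF.2.1.isCompact.isBounded.subset_closedBall (0 : ℝ)
    refine ⟨max R δ + 1, by linarith [le_max_right R δ], fun t ht => ?_⟩
    by_contra hne
    have h1 : t ∈ tsupport F := subset_tsupport F hne
    have h2 := hR h1
    rw [mem_closedBall_zero_iff, Real.norm_eq_abs] at h2
    have h3 := le_abs_self t
    linarith [le_max_left R δ]
  obtain ⟨G, w, w', hG, -, hw, hw', hww, hw0, htri⟩ := exists_trip_pt hN hh hB (by norm_num)
    le_rfl hb hbb hF hFne (α := δ / 2) (β := M + 1) (α' := δ) (β' := M) (by linarith)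
    (by linarith) (by linarith) hM (fun t ht =>
      ⟨le_of_not_ge fun h1 => ht (hFδ t h1), le_of_not_ge fun h1 => ht (hFM t h1)⟩)
  refine ⟨w, w', hww, hw0, htri, fun k l hkl => ?_⟩
  have hY : ∀ i, HP.YF (HP.lie K (HP.lie K K')) b' (G i) ∈ 𝔅 := fun i =>
    HP.YF_mem hh hB hb hbb (hG i)
  have h0 : HP.IsULim (fun _ : ℕ => (0 : Cx E →L[ℂ] Cx E)) 0 := HP.isULim_const 0
  have h1 : ∀ i j, HP.lie (HP.YF (HP.lie K (HP.lie K K')) b' (G i))
      (HP.lie (HP.YF (HP.lie K (HP.lie K K')) b' (G j)) (HP.lie w k)) = 0 := by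
    intro i j
    have h2 := tt_lie_right (tt_lie_right (tt_lie_left hw k)
      (HP.YF (HP.lie K (HP.lie K K')) b' (G j))) (HP.YF (HP.lie K (HP.lie K K')) b' (G i))
    have h3 : (fun m => HP.lie (HP.YF (HP.lie K (HP.lie K K')) b' (G i))
        (HP.lie (HP.YF (HP.lie K (HP.lie K K')) b' (G j))
          (HP.lie (HP.YF (HP.lie K (HP.lie K K')) b' (G m)) k))) = fun _ => 0 :=
      funext fun m => hB3 _ (hY i) _ (hY j) _ (hY m) k l hkl
    rw [h3] at h2
    exact h2.unique h0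
  have h4 : ∀ i, HP.lie (HP.YF (HP.lie K (HP.lie K K')) b' (G i))
      (HP.lie w (HP.lie w k)) = 0 := by
    intro i
    have h2 := tt_lie_right (tt_lie_left hw (HP.lie w k))
      (HP.YF (HP.lie K (HP.lie K K')) b' (G i))
    have h3 : (fun m => HP.lie (HP.YF (HP.lie K (HP.lie K K')) b' (G i))
        (HP.lie (HP.YF (HP.lie K (HP.lie K K')) b' (G m)) (HP.lie w k))) = fun _ => 0 :=
      funext fun m => h1 i m
    rw [h3] at h2
    exact h2.unique h0
  have h2 := tt_lie_left hw (HP.lie w (HP.lie w k))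
  have h3 : (fun m => HP.lie (HP.YF (HP.lie K (HP.lie K K')) b' (G m))
      (HP.lie w (HP.lie w k))) = fun _ => 0 := funext fun m => h4 m
  rw [h3] at h2
  exact h2.unique h0

end Pool.Agent.Helper61.RO
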