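import Pool.Agent.Helper61.RO.ExtReal

/-!
# RO-78  Skew operators in the extremal case

`S = lie w w'`, `K = cx B` (star `- K`, `star_cx`), `Grad S M p`.
PROOF of `ext_decomp`. `K = ∑ wt M p d K`, `wt M p d K` has the star `- wt M p (-d) K` (`Pr.wt`), weight `d`, and is `0` for `|d| > 2` (`TT.weight`).
(1) `K₁ = wt M p 1 K + wt M p (-1) K` has the star `- K₁`: `K₁ = cx L`, `L` skew (`real_of_star`), `lie S (lie S K₁) = K₁`, so `br a (br a L) = - L`.
(2) `wt M p 2 K = z w` (`CExt`), so `wt M p (-2) K = - conj z w'` and `wt M p 2 K + wt M p (-2) K = - x cx b - y cx c` (`z = x + i y`; see `ExtReal`).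
(3) `K₀ = wt M p 0 K` (star `- K₀`, commutes with `S`). `lie w K₀ = μ w` (`CExt`: it has a star and weight `2`). Star: `lie (- K₀) w' = conj μ w'`, so `lie w' K₀ = conj μ w'`. Jacobi: `0 = lie S K₀ = lie w (lie w' K₀) - lie w' (lie w K₀) = (conj μ + μ) S`, so `μ = i ν`, `ν` real (`S ≠ 0`).
`C' = K₀ + (μ/2) S = K₀ + (ν/2) cx a`: `lie w C' = μ w - μ w = 0`, `lie w' C' = conj μ w' + μ w' = 0`, `lie S C' = 0`. `K₀ = cx B₀` (`real_of_star`), `C' = cx C`, `C = B₀ + (ν/2) a` skew and commutes with `a`, `b`, `c`.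
So `B = - (ν/2) a - x b - y c + L + C`.
PROOF of `half_rel`. `K = cx L`, `K₁ = (1/2) (K + lie S K)`, `K' = (1/2) (K - lie S K)`: `lie S K₁ = K₁`, `lie S K' = - K'` (`lie S (lie S K) = K`), they have stars. `lie w K₁ = 0` and `lie w' K' = 0` (weights `3`, `- 3`, `TT.weight`). By Jacobi `lie w (lie w' K₁) = K₁`, `lie w' (lie w K') = K'`;
`lie w' (lie w' K₁) = 0`, `lie w (lie w K') = 0` (weights `∓ 3`). Now expand with `cx b = w' - w`, `cx c = - i (w + w')`, `cx a = i S`.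
-/

set_option autoImplicit false

open Filter Topology

namespace Pool.Agent.Helper61.RO

universe u

variable {E : Type u} [NormedAddCommGroup E] [NormedSpace ℝ E] [CompleteSpace E]
  {𝔠 : Set (E →L[ℝ] E)} {w w' : Cx E →L[ℂ] Cx E} {M : ℕ} {p : ℤ → Cx E →L[ℂ] Cx E}
  {a b c B L : E →L[ℝ] E}

/-! ### Algebra of the commutator -/

private theorem xd_anti {F : Type*} [NormedAddCommGroup F] [NormedSpace ℂ F] (A B : F →L[ℂ] F) :
    HP.lie A B = -HP.lie B A := by
  unfold HP.lie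
  abel

private theorem xd_add {F : Type*} [NormedAddCommGroup F] [NormedSpace ℂ F]
    (A B C : F →L[ℂ] F) : HP.lie A (B + C) = HP.lie A B + HP.lie A C := by
  unfold HP.lie
  noncomm_ring

private theorem xd_sub {F : Type*} [NormedAddCommGroup F] [NormedSpace ℂ F]
    (A B C : F →L[ℂ] F) : HP.lie A (B - C) = HP.lie A B - HP.lie A C := by
  unfold HP.lie
  noncomm_ring

private theorem xd_neg {F : Type*} [NormedAddCommGroup F] [NormedSpace ℂ F]
    (A B : F →L[ℂ] F) : HP.lie A (-B) = -HP.lie A B := by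
  unfold HP.lie
  noncomm_ring

private theorem xd_add_left {F : Type*} [NormedAddCommGroup F] [NormedSpace ℂ F]
    (A B C : F →L[ℂ] F) : HP.lie (A + B) C = HP.lie A C + HP.lie B C := by
  unfold HP.lie
  noncomm_ring

private theorem xd_sub_left {F : Type*} [NormedAddCommGroup F] [NormedSpace ℂ F]
    (A B C : F →L[ℂ] F) : HP.lie (A - B) C = HP.lie A C - HP.lie B C := by
  unfold HP.lie
  noncomm_ring

private theorem xd_neg_left {F : Type*} [NormedAddCommGroup F] [NormedSpace ℂ F]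
    (A B : F →L[ℂ] F) : HP.lie (-A) B = -HP.lie A B := by
  unfold HP.lie
  noncomm_ring

private theorem xd_smul {F : Type*} [NormedAddCommGroup F] [NormedSpace ℂ F] (A B : F →L[ℂ] F)
    (c : ℂ) : HP.lie A (c • B) = c • HP.lie A B := by
  unfold HP.lie
  rw [mul_smul_comm, smul_mul_assoc, smul_sub]

private theorem xd_smul_left {F : Type*} [NormedAddCommGroup F] [NormedSpace ℂ F]
    (A B : F →L[ℂ] F) (c : ℂ) : HP.lie (c • A) B = c • HP.lie A B := by
  unfold HP.lie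
  rw [mul_smul_comm, smul_mul_assoc, smul_sub]

private theorem xd_jacobi {F : Type*} [NormedAddCommGroup F] [NormedSpace ℂ F]
    (A B C : F →L[ℂ] F) :
    HP.lie A (HP.lie B C) = HP.lie (HP.lie A B) C + HP.lie B (HP.lie A C) := by
  unfold HP.lie
  noncomm_ring

private theorem xd_comm {F : Type*} [NormedAddCommGroup F] [NormedSpace ℂ F] {A B : F →L[ℂ] F}
    (h : HP.lie A B = 0) : A * B = B * A := by
  unfold HP.lie at h
  exact sub_eq_zero.1 h

private theorem xd_wt_neg {F : Type*} [NormedAddCommGroup F] [NormedSpace ℂ F] (N : ℕ)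
    (p : ℤ → F →L[ℂ] F) (d : ℤ) (K : F →L[ℂ] F) : HP.wt N p d (-K) = -HP.wt N p d K := by
  unfold HP.wt
  rw [← Finset.sum_neg_distrib]
  refine Finset.sum_congr rfl fun j _ => ?_
  rw [mul_neg, neg_mul]

omit [CompleteSpace E] in
private theorem xd_cx_br (A B : E →L[ℝ] E) : cx (br A B) = HP.lie (cx A) (cx B) := by
  unfold br HP.lie
  rw [cx_sub, cx_mul, cx_mul]

omit [CompleteSpace E] in
private theorem xd_cx_bra (ht : Tri w w' a b c) (B : E →L[ℝ] E) :
    cx (br a B) = Complex.I • HP.lie (HP.lie w w') (cx B) := by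
  rw [xd_cx_br, ht.ea, xd_smul_left]

omit [CompleteSpace E] in
private theorem xd_cx_brb (ht : Tri w w' a b c) (B : E →L[ℝ] E) :
    cx (br b B) = HP.lie w' (cx B) - HP.lie w (cx B) := by
  rw [xd_cx_br, ht.eb, xd_sub_left]

omit [CompleteSpace E] in
private theorem xd_cx_brc (ht : Tri w w' a b c) (B : E →L[ℝ] E) :
    cx (br c B) = -(Complex.I • (HP.lie w (cx B) + HP.lie w' (cx B))) := by
  rw [xd_cx_br, ht.ec, xd_neg_left, xd_smul_left, xd_add_left]

/-- a real sum over five weights -/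
private theorem xd_sum_five {F : Type*} [AddCommGroup F] {M : ℕ} (hM : 0 < M) (f : ℤ → F)
    (hf : ∀ d : ℤ, 2 < |d| → f d = 0) :
    ∑ d ∈ Finset.Icc (-(2 * M : ℤ)) (2 * M : ℤ), f d = f (-2) + f (-1) + f 0 + f 1 + f 2 := by
  have h1 : ∑ d ∈ Finset.Icc (-2 : ℤ) 2, f d = ∑ d ∈ Finset.Icc (-(2 * M : ℤ)) (2 * M : ℤ), f d := by
    refine Finset.sum_subset ?_ ?_
    · intro d hd
      rw [Finset.mem_Icc] at hd ⊢
      omega
    · intro d _ hd
      refine hf d ?_
      rw [Finset.mem_Icc, ← abs_le, not_le] at hd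
      exact hd
  have h2 : Finset.Icc (-2 : ℤ) 2 = {-2, -1, 0, 1, 2} := by decide
  rw [← h1, h2, Finset.sum_insert (by decide), Finset.sum_insert (by decide),
    Finset.sum_insert (by decide), Finset.sum_insert (by decide), Finset.sum_singleton]
  abel

theorem ext_decomp (hN : RNice E) (h : TT (gg E) w w') (hE : CExt (gg E) w w')
    (hs : Spec w w' M p) (ht : Tri w w' a b c) (hB : Sk B) :
    ∃ (r s t : ℝ) (L C : E →L[ℝ] E), L ∈ Half a ∧ Sk C ∧ a * C = C * a ∧ b * C = C * b ∧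
      c * C = C * c ∧ B = r • a + s • b + t • c + L + C := by
  have hg : RLie (gg E) := rlie_gg hN
  have hh : HP.HLie (hc (gg E)) := hlie_hc hN hg
  have hK : HP.Pr (hc (gg E)) (cx B) (-cx B) := star_cx hN hg hB
  obtain ⟨hSm, hSp⟩ := h.mem hN hg
  have hstar := h.star hN hg
  have htri := h.tri
  set S := HP.lie w w' with hS
  have hS0 : S ≠ 0 := by
    intro h0
    rw [h0] at htri
    refine h.ne ?_
    have h1 : (2 : ℂ) • w = 0 := by
      rw [← htri]
      unfold HP.lie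
      rw [zero_mul, mul_zero, sub_zero]
    exact (smul_eq_zero.1 h1).resolve_left two_ne_zero
  -- components
  have hwt : ∀ d : ℤ, HP.Pr (hc (gg E)) (HP.wt M p d (cx B)) (-HP.wt M p (-d) (cx B)) := by
    intro d
    have h1 := HP.Pr.wt hh hs.grad hSm hK d
    rwa [xd_wt_neg] at h1
  have hlie : ∀ d : ℤ, HP.lie S (HP.wt M p d (cx B)) = (d : ℂ) • HP.wt M p d (cx B) := fun d =>
    hs.grad.wt_lie d (cx B)
  have hzero : ∀ d : ℤ, 2 < |d| → HP.wt M p d (cx B) = 0 := fun d hd =>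
    h.weight hN hg (hwt d) (hlie d) hd
  have hsum : cx B = HP.wt M p (-2) (cx B) + HP.wt M p (-1) (cx B) + HP.wt M p 0 (cx B) +
      HP.wt M p 1 (cx B) + HP.wt M p 2 (cx B) := by
    rw [← xd_sum_five hs.pos (fun d => HP.wt M p d (cx B)) hzero]
    exact (hs.grad.sum_wt (cx B)).symm
  have hp2 := hwt 2
  have hp1 := hwt 1
  have hp1' := hwt (-1)
  have hp0 := hwt 0
  have hl2 := hlie 2
  have hl1 := hlie 1
  have hl1' := hlie (-1)
  have hl0 := hlie 0
  rw [neg_neg] at hp1'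
  rw [neg_zero] at hp0
  push_cast at hl2 hl1 hl1' hl0
  generalize HP.wt M p (-2) (cx B) = K2' at hsum hp2
  generalize HP.wt M p (-1) (cx B) = K1' at hsum hp1 hp1' hl1'
  generalize HP.wt M p 0 (cx B) = K0 at hsum hp0 hl0
  generalize HP.wt M p 1 (cx B) = K1 at hsum hp1 hp1' hl1
  generalize HP.wt M p 2 (cx B) = K2 at hsum hp2 hl2
  rw [one_smul] at hl1
  rw [neg_smul, one_smul] at hl1'
  rw [zero_smul] at hl0
  -- the odd part
  have hodd : HP.Pr (hc (gg E)) (K1 + K1') (-(K1 + K1')) := by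
    have h1 := HP.Pr.add hh hp1 hp1'
    have h2 : -K1' + -K1 = -(K1 + K1') := by abel
    rwa [h2] at h1
  obtain ⟨L, hL, hKL⟩ := real_of_star hN hg hodd
  have hLH : L ∈ Half a := by
    refine ⟨hL, ?_⟩
    apply cx_inj
    rw [xd_cx_bra ht, xd_cx_bra ht, ← hKL, cx_neg, ← hKL, ← hS, xd_smul, smul_smul,
      Complex.I_mul_I, xd_add, hl1, hl1', xd_add, xd_neg, hl1, hl1', neg_neg, neg_one_smul]
  -- the weights plus and minus two
  obtain ⟨z, hz⟩ := hE K2 _ hp2 (by rw [← hS]; exact hl2)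
  have hz' : K2' = -(starRingEnd ℂ z • w') := by
    have h1 := HP.Pr.smul hh h.pr z
    rw [← hz] at h1
    have h2 := hp2.unique hh h1
    rw [← h2, neg_neg]
  -- the weight zero
  have hwK : HP.Pr (hc (gg E)) (HP.lie w K0) (HP.lie (-K0) w') := HP.Pr.lie hh h.pr hp0
  obtain ⟨μ, hμ⟩ := hE _ _ hwK (by
    rw [← hS, xd_jacobi S w K0, htri, hl0, xd_smul_left]
    have h1 : HP.lie w (0 : Cx E →L[ℂ] Cx E) = 0 := by
      unfold HP.lie
      rw [mul_zero, zero_mul, sub_zero]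
    rw [h1, add_zero])
  have hμ' : HP.lie w' K0 = starRingEnd ℂ μ • w' := by
    have h1 := HP.Pr.smul hh h.pr μ
    rw [← hμ] at h1
    have h2 := hwK.unique hh h1
    rw [← h2, xd_neg_left, xd_anti K0 w', neg_neg]
  have hsk : (starRingEnd ℂ μ + μ) • S = 0 := by
    have h1 := xd_jacobi w w' K0
    rw [← hS, hl0, hμ, hμ', xd_smul, xd_smul, ← hS, xd_anti w' w, ← hS, zero_add] at h1
    rw [add_smul, h1, smul_neg, neg_add_cancel]
  have hre : starRingEnd ℂ μ + μ = 0 := (smul_eq_zero.1 hsk).resolve_right hS0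
  have hμI : μ = (μ.im : ℂ) * Complex.I := by
    have h1 : μ.re = 0 := by
      have h2 := congrArg Complex.re hre
      simp only [Complex.add_re, Complex.conj_re, Complex.zero_re] at h2
      linarith
    apply Complex.ext
    · simp [h1]
    · simp
  obtain ⟨B₀, hB₀, hKB⟩ := real_of_star hN hg hp0
  have hsu := h.su2 hN hg ht
  have ea : cx a = Complex.I • S := ht.ea
  have hC : cx (B₀ + (μ.im / 2) • a) = K0 + (μ / 2) • S := by
    rw [cx_add, cx_smul, ← hKB, ea, smul_smul]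
    congr 2
    conv_rhs => rw [hμI]
    push_cast
    ring
  have hcw : HP.lie w (K0 + (μ / 2) • S) = 0 := by
    rw [xd_add, xd_smul, hμ, xd_anti w S, htri]
    module
  have hcw' : HP.lie w' (K0 + (μ / 2) • S) = 0 := by
    rw [xd_add, xd_smul, hμ', xd_anti w' S, hstar]
    have h1 : starRingEnd ℂ μ = -μ := eq_neg_of_add_eq_zero_left hre
    rw [h1]
    module
  have hcS : HP.lie S (K0 + (μ / 2) • S) = 0 := by
    rw [xd_add, xd_smul, hl0]
    have h1 : HP.lie S S = 0 := by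
      unfold HP.lie
      rw [sub_self]
    rw [h1, smul_zero, add_zero]
  have hw1 := xd_comm hcw
  have hw2 := xd_comm hcw'
  have hw3 := xd_comm hcS
  refine ⟨-(μ.im / 2), -z.re, -z.im, L, B₀ + (μ.im / 2) • a, hLH,
    Sk.add hB₀ (Sk.smul hsu.1.ska _), ?_, ?_, ?_, ?_⟩
  · apply cx_inj
    rw [cx_mul, cx_mul, hC, ea, smul_mul_assoc, hw3, mul_smul_comm]
  · apply cx_inj
    rw [cx_mul, cx_mul, hC, ht.eb, sub_mul, mul_sub, hw1, hw2]
  · apply cx_inj
    rw [cx_mul, cx_mul, hC, ht.ec, neg_mul, mul_neg, smul_mul_assoc, mul_smul_comm, add_mul,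
      mul_add (K0 + (μ / 2) • S) w w', hw1, hw2]
  · apply cx_inj
    rw [cx_add, cx_add, cx_add, cx_add, cx_smul, cx_smul, cx_smul, hC, ea, ht.eb, ht.ec, ← hKL,
      hsum, hz, hz']
    have e1 : ((-(μ.im / 2) : ℝ) : ℂ) • Complex.I • S = -((μ / 2) • S) := by
      rw [smul_smul, ← neg_smul]
      congr 1
      conv_rhs => rw [hμI]
      push_cast
      ring
    have e2 : ((-z.re : ℝ) : ℂ) • (w' - w) + ((-z.im : ℝ) : ℂ) • -(Complex.I • (w + w')) =
        z • w - starRingEnd ℂ z • w' := by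
      have h1 : z = (z.re : ℂ) + (z.im : ℂ) * Complex.I := (Complex.re_add_im z).symm
      have h2 : starRingEnd ℂ z = (z.re : ℂ) - (z.im : ℂ) * Complex.I := by
        apply Complex.ext
        · simp
        · simp
      have h3 : z • w = ((z.re : ℂ) + (z.im : ℂ) * Complex.I) • w := by rw [← h1]
      rw [h2, h3]
      push_cast
      module
    rw [e1]
    have e3 : -((μ / 2) • S) + ((-z.re : ℝ) : ℂ) • (w' - w) +
        ((-z.im : ℝ) : ℂ) • -(Complex.I • (w + w')) + (K1 + K1') + (K0 + (μ / 2) • S) =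
        (((-z.re : ℝ) : ℂ) • (w' - w) + ((-z.im : ℝ) : ℂ) • -(Complex.I • (w + w'))) +
          (K1 + K1') + K0 := by
      abel
    rw [e3, e2]
    abel

/-- the relations of `w`, `w'` and of an operator of spin one half -/
private theorem xd_half (hN : RNice E) (h : TT (gg E) w w') (ht : Tri w w' a b c)
    (hL : L ∈ Half a) : ∃ K₁ K₂ U V : Cx E →L[ℂ] Cx E, cx L = K₁ + K₂ ∧
      HP.lie (HP.lie w w') K₁ = K₁ ∧ HP.lie (HP.lie w w') K₂ = -K₂ ∧
      HP.lie (HP.lie w w') U = -U ∧ HP.lie (HP.lie w w') V = V ∧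
      HP.lie w K₁ = 0 ∧ HP.lie w' K₁ = U ∧ HP.lie w K₂ = V ∧ HP.lie w' K₂ = 0 ∧
      HP.lie w U = K₁ ∧ HP.lie w' U = 0 ∧ HP.lie w V = 0 ∧ HP.lie w' V = K₂ := by
  have hg : RLie (gg E) := rlie_gg hN
  have hh : HP.HLie (hc (gg E)) := hlie_hc hN hg
  have hK : HP.Pr (hc (gg E)) (cx L) (-cx L) := star_cx hN hg hL.1
  obtain ⟨hSm, hSp⟩ := h.mem hN hg
  have hstar := h.star hN hg
  have htri := h.tri
  have hwg : ∀ {k l : Cx E →L[ℂ] Cx E} {d : ℤ}, HP.Pr (hc (gg E)) k l →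
      HP.lie (HP.lie w w') k = (d : ℂ) • k → 2 < |d| → k = 0 := fun hk hd h2 =>
    h.weight hN hg hk hd h2
  have hSS : HP.lie (HP.lie w w') (HP.lie (HP.lie w w') (cx L)) = cx L := by
    have h1 := congrArg cx hL.2
    rw [xd_cx_bra ht, xd_cx_bra ht, xd_smul, smul_smul, Complex.I_mul_I, neg_one_smul, cx_neg] at h1
    exact neg_injective h1
  generalize cx L = K at hK hSS
  set S := HP.lie w w' with hS
  have hSK := HP.Pr.lie hh hSp hK
  set T := HP.lie S K with hT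
  set K₁ := (1 / 2 : ℂ) • (K + T) with hK₁
  set K₂ := (1 / 2 : ℂ) • (K - T) with hK₂
  have hs1 := HP.Pr.smul hh (HP.Pr.add hh hK hSK) (1 / 2 : ℂ)
  have hs2 := HP.Pr.smul hh (HP.Pr.sub hh hK hSK) (1 / 2 : ℂ)
  rw [← hK₁] at hs1
  rw [← hK₂] at hs2
  have e1 : HP.lie S K₁ = K₁ := by
    rw [hK₁, xd_smul, xd_add, hSS, ← hT, add_comm]
  have e2 : HP.lie S K₂ = -K₂ := by
    rw [hK₂, xd_smul, xd_sub, hSS, ← hT, ← smul_neg, neg_sub]
  have hsum : K = K₁ + K₂ := by
    rw [hK₁, hK₂]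
    module
  -- raising and lowering
  have hup : ∀ (X : Cx E →L[ℂ] Cx E) (r : ℂ), HP.lie S X = r • X →
      HP.lie S (HP.lie w X) = (r + 2) • HP.lie w X := by
    intro X r hX
    rw [xd_jacobi S w X, htri, hX, xd_smul, xd_smul_left]
    module
  have hdn : ∀ (X : Cx E →L[ℂ] Cx E) (r : ℂ), HP.lie S X = r • X →
      HP.lie S (HP.lie w' X) = (r - 2) • HP.lie w' X := by
    intro X r hX
    rw [xd_jacobi S w' X, hstar, hX, xd_smul, xd_neg_left, xd_smul_left]
    module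
  have h1 : HP.lie S K₁ = (1 : ℂ) • K₁ := by rw [one_smul, e1]
  have h2 : HP.lie S K₂ = (-1 : ℂ) • K₂ := by rw [neg_one_smul, e2]
  have z1 : HP.lie w K₁ = 0 := by
    refine hwg (d := 3) (HP.Pr.lie hh h.pr hs1) ?_ (by decide)
    rw [hup _ _ h1]
    congr 1
    norm_num
  have z2 : HP.lie w' K₂ = 0 := by
    refine hwg (d := -3) (HP.Pr.lie hh (h.pr.symm hh) hs2) ?_ (by decide)
    rw [hdn _ _ h2]
    congr 1
    norm_num
  have u1 := hdn _ _ h1
  have v1 := hup _ _ h2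
  have pu := HP.Pr.lie hh (h.pr.symm hh) hs1
  have pv := HP.Pr.lie hh h.pr hs2
  have z3 : HP.lie w' (HP.lie w' K₁) = 0 := by
    refine hwg (d := -3) (HP.Pr.lie hh (h.pr.symm hh) pu) ?_ (by decide)
    rw [hdn _ _ u1]
    congr 1
    norm_num
  have z4 : HP.lie w (HP.lie w K₂) = 0 := by
    refine hwg (d := 3) (HP.Pr.lie hh h.pr pv) ?_ (by decide)
    rw [hup _ _ v1]
    congr 1
    norm_num
  have lz : ∀ A : Cx E →L[ℂ] Cx E, HP.lie A (0 : Cx E →L[ℂ] Cx E) = 0 := by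
    intro A
    unfold HP.lie
    rw [mul_zero, zero_mul, sub_zero]
  refine ⟨K₁, K₂, HP.lie w' K₁, HP.lie w K₂, hsum, e1, e2, ?_, ?_, z1, rfl, rfl, z2, ?_, z3, z4, ?_⟩
  · rw [u1]
    have : (1 - 2 : ℂ) = -1 := by norm_num
    rw [this, neg_one_smul]
  · rw [v1]
    have : (-1 + 2 : ℂ) = 1 := by norm_num
    rw [this, one_smul]
  · rw [xd_jacobi w w' K₁, ← hS, e1, z1, lz, add_zero]
  · rw [xd_jacobi w' w K₂, z2, lz, add_zero, xd_anti w' w, ← hS, xd_neg_left, e2, neg_neg]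

theorem half_rel (hN : RNice E) (h : TT (gg E) w w') (ht : Tri w w' a b c) (hL : L ∈ Half a) :
    br b (br b L) = -L ∧ br c (br c L) = -L ∧ br a (br b L) = br c L ∧ br b (br c L) = br a L ∧
      br c (br a L) = br b L ∧ br b (br a L) = -br c L ∧ br c (br b L) = -br a L ∧
      br a (br c L) = -br b L := by
  obtain ⟨K₁, K₂, U, V, hK, s1, s2, s3, s4, w1, w1', w2, w2', wU, wU', wV, wV'⟩ :=
    xd_half hN h ht hL
  have hI := Complex.I_mul_I
  have ha : cx (br a L) = Complex.I • (K₁ - K₂) := by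
    rw [xd_cx_bra ht, hK, xd_add, s1, s2, sub_eq_add_neg]
  have hb : cx (br b L) = U - V := by
    rw [xd_cx_brb ht, hK, xd_add, xd_add, w1, w1', w2, w2', add_zero, zero_add]
  have hc' : cx (br c L) = -(Complex.I • (U + V)) := by
    rw [xd_cx_brc ht, hK, xd_add, xd_add, w1, w1', w2, w2', add_zero, zero_add, add_comm V U]
  refine ⟨?_, ?_, ?_, ?_, ?_, ?_, ?_, ?_⟩
  · apply cx_inj
    rw [xd_cx_brb ht, hb, cx_neg, hK, xd_sub, xd_sub, wU, wU', wV, wV']
    abel
  · apply cx_inj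
    rw [xd_cx_brc ht, hc', cx_neg, hK, xd_neg, xd_neg, xd_smul, xd_smul, xd_add, xd_add, wU, wU',
      wV, wV', ← neg_add, ← smul_add, smul_neg, smul_smul, hI, neg_one_smul]
    abel
  · apply cx_inj
    rw [xd_cx_bra ht, hb, hc', xd_sub, s3, s4, ← smul_neg]
    congr 1
    abel
  · apply cx_inj
    rw [xd_cx_brb ht, hc', ha, xd_neg, xd_neg, xd_smul, xd_smul, xd_add, xd_add, wU, wU', wV, wV',
      zero_add, add_zero]
    module
  · apply cx_inj
    rw [xd_cx_brc ht, ha, hb, xd_smul, xd_smul, xd_sub, xd_sub, w1, w1', w2, w2', ← smul_add,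
      smul_smul, hI, neg_one_smul]
    abel
  · apply cx_inj
    rw [xd_cx_brb ht, ha, cx_neg, hc', xd_smul, xd_smul, xd_sub, xd_sub, w1, w1', w2, w2',
      ← smul_sub, neg_neg]
    congr 1
    abel
  · apply cx_inj
    rw [xd_cx_brc ht, hb, cx_neg, ha, xd_sub, xd_sub, wU, wU', wV, wV']
    congr 2
    abel
  · apply cx_inj
    rw [xd_cx_bra ht, hc', cx_neg, hb, xd_neg, xd_smul, xd_add, s3, s4, smul_neg, smul_smul, hI,
      neg_one_smul]
    abel

theorem half_mem (hN : RNice E) (h : TT (gg E) w w') (ht : Tri w w' a b c) (hL : L ∈ Half a) :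
    br a L ∈ Half a ∧ br b L ∈ Half a ∧ br c L ∈ Half a := by
  have hsu := (h.su2 hN (rlie_gg hN) ht).1
  obtain ⟨_, _, h3, _, _, _, _, h8⟩ := half_rel hN h ht hL
  have hneg : ∀ A B : E →L[ℝ] E, br A (-B) = -br A B := by
    intro A B
    unfold br
    noncomm_ring
  refine ⟨⟨Sk.br hsu.ska hL.1, ?_⟩, ⟨Sk.br hsu.skb hL.1, ?_⟩, ⟨Sk.br hsu.skc hL.1, ?_⟩⟩
  · rw [hL.2, hneg]
  · rw [h3, h8]
  · rw [h8, hneg, h3]

end Pool.Agent.Helper61.RO
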