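import Pool.Agent.Helper61.RO.M2End

/-!
# RO-84  Largest weight two in the extremal case

PROOF. Suppose `E` is infinite-dimensional. `a, b, c` (`TT.exists_tri`), `f` from `m2_line`. If `a (a x) = - x` then `x = a (- a x)` is a limit of vectors `B f`, `B` skew (`mem_closure_of_ker`, `a f = 0`); `B = r a + s b + t c + L + C` (`ext_decomp`), `L = 0` (`m2_half`), `C f = 0` (`m2_cent`), so `B f = s b f + t c f`; the span of
`b f`, `c f` is closed, so `x = s b f + t c f`, `a (a x) = - 4 x`, `x = 0`. By `dec_two` and `m2_line` every `x` is in the span of `f, b f, c f`: `E` is finite-dimensional.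
-/

set_option autoImplicit false

open Filter Topology

namespace Pool.Agent.Helper61.RO

universe u

variable {E : Type u} [NormedAddCommGroup E] [NormedSpace ℝ E] [CompleteSpace E]
  [TopologicalSpace.SeparableSpace E] {w w' : Cx E →L[ℂ] Cx E} {p : ℤ → Cx E →L[ℂ] Cx E}

theorem ext_two (hN : RNice E) (htr : RTrans E) (h : TT (gg E) w w') (hE : CExt (gg E) w w')
    (hs : Spec w w' 2 p) : FiniteDimensional ℝ E := by
  by_contra hinf
  have hg := rlie_gg hN
  obtain ⟨a, -, b, -, c, -, ht, hsu⟩ := h.exists_tri hN hg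
  obtain ⟨f, hf0, haf, -, -, -, -, hker, h2⟩ := m2_line hN htr h hE hs ht
  have hab : a (b f) = (2 : ℝ) • c f := by
    have h1 : (br a b) f = ((2 : ℝ) • c) f := by rw [hsu.ab]
    have h3 : a (b f) - b (a f) = (2 : ℝ) • c f := h1
    rwa [haf, map_zero, sub_zero] at h3
  have hac : a (c f) = -((2 : ℝ) • b f) := by
    have h1 : (br c a) f = ((2 : ℝ) • b) f := by rw [hsu.ca]
    have h3 : c (a f) - a (c f) = (2 : ℝ) • b f := h1
    rw [haf, map_zero, zero_sub] at h3
    rw [← h3, neg_neg]
  have hclosed : IsClosed ((Submodule.span ℝ {b f, c f} : Submodule ℝ E) : Set E) := by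
    haveI : FiniteDimensional ℝ (Submodule.span ℝ {b f, c f} : Submodule ℝ E) :=
      FiniteDimensional.span_of_finite ℝ (Set.toFinite _)
    exact Submodule.closed_of_finiteDimensional _
  have key : ∀ x, a (a x) = -x → x = 0 := by
    intro x hx
    have hmem : x ∈ Submodule.span ℝ {b f, c f} := by
      have h1 : x ∈ closure ((Submodule.span ℝ {b f, c f} : Submodule ℝ E) : Set E) := by
        rw [Metric.mem_closure_iff]
        intro ε hε
        obtain ⟨B, hB, hn⟩ := mem_closure_of_ker hN htr hf0 hsu.ska haf (-(a x)) hε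
        obtain ⟨r, s, t, L, C, hL, hC, hCa, -, -, hBeq⟩ := ext_decomp hN h hE hs ht hB
        have hL0 := m2_half hN htr hinf h hE hs ht hL
        have hCf := m2_cent hN htr h hE hs ht hC hCa haf
        have hBf : B f = s • b f + t • c f := by
          rw [hBeq, hL0]
          change r • a f + s • b f + t • c f + 0 + C f = _
          rw [haf, hCf, smul_zero, zero_add, add_zero, add_zero]
        refine ⟨B f, ?_, ?_⟩
        · rw [hBf]
          exact Submodule.mem_span_pair.2 ⟨s, t, rfl⟩
        · rw [map_neg, hx, neg_neg] at hn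
          rw [dist_comm, dist_eq_norm]
          exact hn
      rwa [hclosed.closure_eq] at h1
    obtain ⟨s, t, hst⟩ := Submodule.mem_span_pair.1 hmem
    have h3 : a (a x) = -((4 : ℝ) • x) := by
      rw [← hst]
      simp only [map_add, map_smul, hab, hac, map_neg]
      module
    rw [hx] at h3
    have h4 : (3 : ℝ) • x = 0 := by
      have h5 : x = (4 : ℝ) • x := neg_injective h3
      have h6 : (3 : ℝ) • x = (4 : ℝ) • x - x := by module
      rw [h6, ← h5, sub_self]
    exact (smul_eq_zero.1 h4).resolve_left (by norm_num)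
  apply hinf
  have htop : (⊤ : Submodule ℝ E) ≤ Submodule.span ℝ {f, b f, c f} := by
    intro x _
    obtain ⟨x₀, x₁, x₂, hx, h0, h1, h22, -, -⟩ := dec_two hs ht x
    obtain ⟨r, hr⟩ := hker x₀ h0
    obtain ⟨s, t, hst⟩ := h2 x₂ h22
    rw [hx, key x₁ h1, add_zero, hr, hst]
    refine Submodule.add_mem _ (Submodule.smul_mem _ _ (Submodule.subset_span (by simp)))
      (Submodule.add_mem _ (Submodule.smul_mem _ _ (Submodule.subset_span (by simp)))
        (Submodule.smul_mem _ _ (Submodule.subset_span (by simp))))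
  haveI : FiniteDimensional ℝ (Submodule.span ℝ {f, b f, c f} : Submodule ℝ E) :=
    FiniteDimensional.span_of_finite ℝ (Set.toFinite _)
  have h5 : Submodule.span ℝ {f, b f, c f} = (⊤ : Submodule ℝ E) := top_le_iff.1 htop
  rw [h5] at this
  exact Module.Finite.equiv (Submodule.topEquiv (R := ℝ) (M := E))

end Pool.Agent.Helper61.RO
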