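import Pool.Agent.Helper61.RO.SpecEx
import Pool.Agent.Helper61.RO.AlphaPair

/-!
# RO-77  The extremal case for the real triple

`S = lie w w'`. PROOFS.
* `star_cx`: `B` skew: `i cx B ∈ hc (gg E)`, `cx B = - i (i cx B)`; `Pr.of_mem`, `Pr.smul` (`conj (- i) = i`): the star of `cx B` is `- cx B`. Conversely (`real_of_star`): if the star of `K` is `- K` then `K = cx B` with `B ∈ 𝔠` (`pr_hc`: `K = i cx P - cx Q`, `- K = i cx P + cx Q`, so
`cx P = 0`, `K = - cx Q`).
* `ext`: `B` skew, `br a (br a B) = - 4 B`, `K = cx B`: `lie S (lie S K) = 4 K`. `K₂ = (1/2) K + (1/4) lie S K`: `lie S K₂ = 2 K₂`, and it has the star `- (1/2) K + (1/4) lie S K = - K + K₂` (`Pr.lie`: the star of `lie S K` is `lie (- K) S = lie S K`).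
`CExt`: `K₂ = z w`, so `- K + K₂ = conj z w'` (`Pr.unique`), `K = z w - conj z w'`. With `z = x + i y`: `K = - x (w' - w) + i y (w + w') = - x cx b - y cx c`, so `B = - x b - y c` (`cx_inj`).
* `quat_of_one`: `w p j = p (j + 2) w`, `w' p j = p (j - 2) w'` (`S w - w S = 2 w`, `TT.star`), all `p j = 0` for `|j| > 1`. So `w w = 0`, `w' w' = 0`, `S w = w`, `w S = - w`, `S w' = - w'`, `w' S = w'` (e.g. `w = w ∑ p j = w p (-1) = p 1 w`). Expand the products of `cx a = i S`, `cx b = w' - w`, `cx c = - i (w + w')`;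
`cx b * cx c = - i (w' w - w w') = i S`. `cube`: `Spec.cub3`. `TT.su2` for the skewness.
-/

set_option autoImplicit false

open Filter Topology

namespace Pool.Agent.Helper61.RO

universe u

variable {E : Type u} [NormedAddCommGroup E] [NormedSpace ℝ E] [CompleteSpace E]
  {𝔠 : Set (E →L[ℝ] E)} {w w' : Cx E →L[ℂ] Cx E} {p : ℤ → Cx E →L[ℂ] Cx E}
  {a b c B : E →L[ℝ] E}

omit [CompleteSpace E] in
private theorem er_neg_mem (h𝔠 : RLie 𝔠) (hB : B ∈ 𝔠) : -B ∈ 𝔠 := by
  have h1 := h𝔠.smul (-1) B hB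
  rwa [neg_one_smul] at h1

theorem star_cx (hN : RNice E) (h𝔠 : RLie 𝔠) (hB : B ∈ 𝔠) : HP.Pr (hc 𝔠) (cx B) (-cx B) := by
  rw [pr_hc]
  refine ⟨0, h𝔠.zero, -B, er_neg_mem h𝔠 hB, ?_, ?_⟩
  · rw [cx_zero, smul_zero, cx_neg, zero_sub, neg_neg]
  · rw [cx_zero, smul_zero, cx_neg, zero_add]

theorem real_of_star (hN : RNice E) (h𝔠 : RLie 𝔠) {K : Cx E →L[ℂ] Cx E}
    (hK : HP.Pr (hc 𝔠) K (-K)) : ∃ B ∈ 𝔠, K = cx B := by
  obtain ⟨P, hP, Q, hQ, h1, h2⟩ := pr_hc.1 hK
  refine ⟨-Q, er_neg_mem h𝔠 hQ, ?_⟩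
  rw [cx_neg]
  have h3 : (2 : ℂ) • K = (2 : ℂ) • (-cx Q) := by
    have h4 : (2 : ℂ) • K = K - (-K) := by module
    rw [h4, h2, h1]
    module
  exact smul_right_injective _ (two_ne_zero : (2 : ℂ) ≠ 0) h3

private theorem er_lie_smul {F : Type*} [NormedAddCommGroup F] [NormedSpace ℂ F] (A B : F →L[ℂ] F)
    (c : ℂ) : HP.lie A (c • B) = c • HP.lie A B := by
  unfold HP.lie
  rw [mul_smul_comm, smul_mul_assoc, smul_sub]

private theorem er_lie_add {F : Type*} [NormedAddCommGroup F] [NormedSpace ℂ F]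
    (A B C : F →L[ℂ] F) : HP.lie A (B + C) = HP.lie A B + HP.lie A C := by
  unfold HP.lie
  noncomm_ring

omit [CompleteSpace E] in
private theorem er_cx_br (hta : cx a = Complex.I • HP.lie w w') (B : E →L[ℝ] E) :
    cx (br a B) = Complex.I • HP.lie (HP.lie w w') (cx B) := by
  rw [br, cx_sub, cx_mul, cx_mul, hta]
  unfold HP.lie
  rw [smul_mul_assoc, mul_smul_comm, smul_sub]

theorem CExt.ext (hN : RNice E) (h : TT (gg E) w w') (hE : CExt (gg E) w w')
    (ht : Tri w w' a b c) : Ext a b c := by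
  intro B hB hBB
  have h𝔠 : RLie (gg E) := rlie_gg hN
  have hh := hlie_hc hN h𝔠
  set S := HP.lie w w' with hS
  set K := cx B with hK
  have h1 : HP.lie S (HP.lie S K) = (4 : ℂ) • K := by
    have h2 := congrArg cx hBB
    rw [er_cx_br ht.ea, er_cx_br ht.ea, er_lie_smul, smul_smul, Complex.I_mul_I, cx_neg, cx_smul,
      neg_one_smul, neg_inj] at h2
    rw [← hS, ← hK] at h2
    rw [h2]
    norm_num
  have hKs : HP.Pr (hc (gg E)) K (-K) := star_cx hN h𝔠 hB
  have hSs : HP.Pr (hc (gg E)) S S := (h.mem hN h𝔠).2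
  have hLs : HP.Pr (hc (gg E)) (HP.lie S K) (HP.lie (-K) S) := HP.Pr.lie hh hSs hKs
  have hL : HP.lie (-K) S = HP.lie S K := by
    unfold HP.lie
    noncomm_ring
  rw [hL] at hLs
  have h3 := HP.Pr.add hh (HP.Pr.smul hh hKs (((1 / 2 : ℝ)) : ℂ))
    (HP.Pr.smul hh hLs (((1 / 4 : ℝ)) : ℂ))
  rw [Complex.conj_ofReal, Complex.conj_ofReal] at h3
  have h4 : HP.lie S ((((1 / 2 : ℝ)) : ℂ) • K + (((1 / 4 : ℝ)) : ℂ) • HP.lie S K) =
      (2 : ℂ) • ((((1 / 2 : ℝ)) : ℂ) • K + (((1 / 4 : ℝ)) : ℂ) • HP.lie S K) := by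
    rw [er_lie_add, er_lie_smul, er_lie_smul, h1]
    push_cast
    module
  obtain ⟨z, hz⟩ := hE _ _ h3 h4
  have h5 := HP.Pr.smul hh h.pr z
  rw [hz] at h3
  have h6 := h3.unique hh h5
  have h7 : K = z • w - (starRingEnd ℂ z) • w' := by
    rw [← hz, ← h6]
    push_cast
    module
  refine ⟨-z.re, -z.im, ?_⟩
  apply cx_inj
  rw [cx_add, cx_smul, cx_smul, ht.eb, ht.ec, ← hK, h7]
  have h8 : (starRingEnd ℂ z) = (z.re : ℂ) - (z.im : ℂ) * Complex.I := by
    conv_lhs => rw [← Complex.re_add_im z]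
    rw [map_add, map_mul, Complex.conj_ofReal, Complex.conj_ofReal, Complex.conj_I]
    ring
  have h9 : z • w = ((z.re : ℂ) + (z.im : ℂ) * Complex.I) • w := by
    rw [Complex.re_add_im]
  rw [h8, h9]
  push_cast
  module

omit [CompleteSpace E] in
private theorem er_block {S T : Cx E →L[ℂ] Cx E} {N : ℕ} (hG : HP.Grad S N p) {d : ℤ}
    (hT : HP.lie S T = (d : ℂ) • T) {i j : ℤ} (hij : i - j ≠ d) : p i * T * p j = 0 := by
  have h1 : p i * HP.lie S T * p j = (((i - j : ℤ)) : ℂ) • (p i * T * p j) := by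
    unfold HP.lie
    have h2 : p i * (S * T - T * S) * p j = (p i * S) * T * p j - p i * T * (S * p j) := by
      noncomm_ring
    rw [h2, hG.eig, hG.eig']
    simp only [smul_mul_assoc, mul_smul_comm]
    push_cast
    rw [sub_smul]
  rw [hT, mul_smul_comm, smul_mul_assoc] at h1
  have h3 : (((d - (i - j) : ℤ)) : ℂ) • (p i * T * p j) = 0 := by
    push_cast at h1 ⊢
    rw [sub_smul, h1, sub_self]
  rcases smul_eq_zero.1 h3 with h4 | h4
  · have h5 := Int.cast_eq_zero.1 h4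
    omega
  · exact h4

omit [CompleteSpace E] in
private theorem er_icc (g : ℤ → Cx E →L[ℂ] Cx E) :
    ∑ j ∈ Finset.Icc (-((1 : ℕ) : ℤ)) ((1 : ℕ) : ℤ), g j = g (-1) + g 0 + g 1 := by
  have h1 : Finset.Icc (-((1 : ℕ) : ℤ)) ((1 : ℕ) : ℤ) = {-1, 0, 1} := by decide
  rw [h1, Finset.sum_insert (by decide), Finset.sum_insert (by decide), Finset.sum_singleton]
  abel

omit [CompleteSpace E] in
/-- operators of weight `2 s`, `s = ± 1` -/
private theorem er_corner {S T : Cx E →L[ℂ] Cx E} (hG : HP.Grad S 1 p) {s : ℤ}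
    (hs : s = 1 ∨ s = -1) (hT : HP.lie S T = ((2 * s : ℤ) : ℂ) • T) :
    T * T = 0 ∧ S * T = (s : ℂ) • T ∧ T * S = (-s : ℂ) • T := by
  have h1 := hG.sum
  rw [er_icc] at h1
  have h2 : T = p s * T * p (-s) := by
    have h3 : T = (p (-1) + p 0 + p 1) * T * (p (-1) + p 0 + p 1) := by
      rw [h1, one_mul, mul_one]
    simp only [add_mul, mul_add] at h3
    rcases hs with rfl | rfl
    · rw [er_block hG hT (i := -1) (j := -1) (by norm_num),
        er_block hG hT (i := -1) (j := 0) (by norm_num),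
        er_block hG hT (i := -1) (j := 1) (by norm_num),
        er_block hG hT (i := 0) (j := -1) (by norm_num),
        er_block hG hT (i := 0) (j := 0) (by norm_num),
        er_block hG hT (i := 0) (j := 1) (by norm_num),
        er_block hG hT (i := 1) (j := 0) (by norm_num),
        er_block hG hT (i := 1) (j := 1) (by norm_num)] at h3
      simpa using h3
    · rw [er_block hG hT (i := -1) (j := -1) (by norm_num),
        er_block hG hT (i := -1) (j := 0) (by norm_num),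
        er_block hG hT (i := 1) (j := -1) (by norm_num),
        er_block hG hT (i := 0) (j := -1) (by norm_num),
        er_block hG hT (i := 0) (j := 0) (by norm_num),
        er_block hG hT (i := 0) (j := 1) (by norm_num),
        er_block hG hT (i := 1) (j := 0) (by norm_num),
        er_block hG hT (i := 1) (j := 1) (by norm_num)] at h3
      simpa using h3
  have hne : -s ≠ s := by rcases hs with rfl | rfl <;> decide
  refine ⟨?_, ?_, ?_⟩
  · rw [h2]
    have h4 : p s * T * p (-s) * (p s * T * p (-s)) = p s * T * (p (-s) * p s) * T * p (-s) := by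
      noncomm_ring
    rw [h4, hG.orth _ _ hne, mul_zero, zero_mul, zero_mul]
  · have h5 : S * (p s * T * p (-s)) = (s : ℂ) • (p s * T * p (-s)) := by
      rw [← mul_assoc, ← mul_assoc, hG.eig, smul_mul_assoc, smul_mul_assoc]
    rwa [← h2] at h5
  · have h5 : (p s * T * p (-s)) * S = (-s : ℂ) • (p s * T * p (-s)) := by
      rw [mul_assoc, hG.eig', mul_smul_comm]
      push_cast
      rfl
    rwa [← h2] at h5

theorem quat_of_one (hN : RNice E) (h𝔠 : RLie 𝔠) (h : TT 𝔠 w w') (hs : Spec w w' 1 p)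
    (ht : Tri w w' a b c) : Quat a b c := by
  obtain ⟨su, -⟩ := h.su2 hN h𝔠 ht
  have hcub := hs.cub3 ht su.ska
  have hI : Complex.I * Complex.I = -1 := Complex.I_mul_I
  obtain ⟨k1, k2, k3⟩ := er_corner hs.grad (s := 1) (Or.inl rfl) (T := w) (by
    rw [h.tri]; norm_num)
  obtain ⟨l1, l2, l3⟩ := er_corner hs.grad (s := -1) (Or.inr rfl) (T := w') (by
    rw [h.star hN h𝔠]; push_cast; rw [← neg_smul])
  push_cast at k2 k3 l2 l3
  rw [one_smul] at k2
  rw [neg_smul, one_smul] at k3 l2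
  rw [neg_neg, one_smul] at l3
  have hS : w * w' - w' * w = HP.lie w w' := rfl
  refine ⟨su.ska, su.skb, su.skc, hcub.cube, ?_, ?_, ?_, ?_, ?_, ?_, su.ne⟩
  · apply cx_inj
    rw [cx_mul, ht.ea, ht.eb, ht.ec, smul_mul_assoc, mul_sub, k2, l2]
    module
  · apply cx_inj
    rw [cx_mul, ht.ea, ht.eb, ht.ec, mul_neg, mul_smul_comm, sub_mul, mul_add, mul_add, k1, l1,
      ← hS]
    module
  · apply cx_inj
    rw [cx_mul, ht.ea, ht.eb, ht.ec, neg_mul, smul_mul_assoc, mul_smul_comm, smul_smul, hI, add_mul,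
      k3, l3]
    module
  · apply cx_inj
    rw [cx_mul, cx_neg, ht.ea, ht.eb, ht.ec, mul_smul_comm, sub_mul, k3, l3]
    module
  · apply cx_inj
    rw [cx_mul, cx_neg, ht.ea, ht.eb, ht.ec, neg_mul, smul_mul_assoc, add_mul, mul_sub, mul_sub, k1,
      l1, ← hS]
    module
  · apply cx_inj
    rw [cx_mul, cx_neg, ht.ea, ht.eb, ht.ec, mul_neg, smul_mul_assoc, mul_smul_comm, smul_smul, hI,
      mul_add, k2, l2]
    module

end Pool.Agent.Helper61.RO
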