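import Pool.Agent.Helper61.RO.SpecEx
import Pool.Agent.Helper61.RO.ExtReal

/-!
# RO-79  Parity

`S = lie w w'`. PROOFS.
* `ker_of_even`: `Spec.even` with `j = M` (`Spec.top`).
* `ker_of_half`: `K = cx L ≠ 0`, `lie S (lie S K) = K`; `K = K₁ + K'`, `K₁ = (1/2) (K + lie S K)`, `K' = (1/2) (K - lie S K)`, `lie S K₁ = K₁`, `lie S K' = - K'`. One of them is not `0`, so there are `j` and a sign with `p (j ± 1) K₁ p j ≠ 0` (`K₁ p j = p (j + 1) K₁ p j` by `Grad.fix_iff`): `p j ≠ 0` and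
`p (j + 1) ≠ 0` (or `p (j - 1) ≠ 0`), one of the two indices is even: `Spec.even`.
* `half_of_inj`: otherwise `p 0 ≠ 0`, so `ker a ≠ 0` (`Spec.ker`).
-/

set_option autoImplicit false

open Filter Topology

namespace Pool.Agent.Helper61.RO

universe u

variable {E : Type u} [NormedAddCommGroup E] [NormedSpace ℝ E] [CompleteSpace E]
  {𝔠 : Set (E →L[ℝ] E)} {w w' : Cx E →L[ℂ] Cx E} {M : ℕ} {p : ℤ → Cx E →L[ℂ] Cx E}
  {a b c L : E →L[ℝ] E}

theorem ker_of_even (hN : RNice E) (h𝔠 : RLie 𝔠) (h : TT 𝔠 w w') (hs : Spec w w' M p)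
    (hM : Even M) : p 0 ≠ 0 :=
  hs.even hN h𝔠 h (j := (M : ℤ)) (by exact_mod_cast hM) hs.top

omit [CompleteSpace E] in
private theorem pa_shift {S X : Cx E →L[ℂ] Cx E} {N : ℕ} (hG : HP.Grad S N p) (s : ℤ)
    (hX : S * X - X * S = (s : ℂ) • X) (hX0 : X ≠ 0) : ∃ j : ℤ, p j ≠ 0 ∧ p (j + s) ≠ 0 := by
  have h1 : ∃ j : ℤ, X * p j ≠ 0 := by
    by_contra hcon
    push Not at hcon
    apply hX0
    rw [← mul_one X, ← hG.sum, Finset.mul_sum]
    exact Finset.sum_eq_zero fun j _ => hcon j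
  obtain ⟨j, hj⟩ := h1
  have h2 : S * (X * p j) = ((j + s : ℤ) : ℂ) • (X * p j) := by
    have e1 : S * X = X * S + (s : ℂ) • X := by
      rw [← hX]; abel
    rw [← mul_assoc, e1, add_mul, mul_assoc, hG.eig, mul_smul_comm, smul_mul_assoc, ← add_smul]
    push_cast
    rfl
  refine ⟨j, fun h0 => hj (by rw [h0, mul_zero]), fun h0 => hj ?_⟩
  ext1 v
  have h3 : S ((X * p j) v) = ((j + s : ℤ) : ℂ) • ((X * p j) v) := by
    have := congrArg (fun T : Cx E →L[ℂ] Cx E => T v) h2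
    exact this
  have h4 := (hG.fix_iff (j + s) ((X * p j) v)).2 h3
  rw [h0] at h4
  rw [← h4]
  rfl

theorem ker_of_half (hN : RNice E) (h𝔠 : RLie 𝔠) (h : TT 𝔠 w w') (hs : Spec w w' M p)
    (ht : Tri w w' a b c) (hL : L ∈ Half a) (hL0 : L ≠ 0) : p 0 ≠ 0 := by
  set S := HP.lie w w' with hS
  have hK0 : cx L ≠ 0 := by
    intro h0
    apply hL0
    apply cx_inj
    rw [h0, cx_zero]
  have hI : ∀ A B : Cx E →L[ℂ] Cx E, (Complex.I • A) * B - B * (Complex.I • A)
      = Complex.I • (A * B - B * A) := by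
    intro A B
    rw [smul_mul_assoc, mul_smul_comm, smul_sub]
  have h1 : S * (S * cx L - cx L * S) - (S * cx L - cx L * S) * S = cx L := by
    have h2 := congrArg cx hL.2
    rw [cx_neg, br, br, cx_sub, cx_mul, cx_mul, cx_sub, cx_mul, cx_mul, ht.ea, ← hS] at h2
    rw [hI S (cx L), mul_smul_comm, smul_mul_assoc] at h2
    simp only [smul_mul_assoc, mul_smul_comm] at h2
    rw [← smul_sub, ← smul_sub, smul_smul, Complex.I_mul_I, neg_smul, one_smul, neg_inj] at h2
    exact h2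
  have hexc : ∃ (s : ℤ) (X : Cx E →L[ℂ] Cx E), Odd s ∧ S * X - X * S = (s : ℂ) • X ∧ X ≠ 0 := by
    by_cases hX : cx L + (S * cx L - cx L * S) = 0
    · refine ⟨-1, cx L - (S * cx L - cx L * S), ⟨-1, by norm_num⟩, ?_, ?_⟩
      · rw [mul_sub, sub_mul]
        have e1 : S * cx L - S * (S * cx L - cx L * S) - (cx L * S - (S * cx L - cx L * S) * S)
            = (S * cx L - cx L * S) - (S * (S * cx L - cx L * S) - (S * cx L - cx L * S) * S) := by
          abel
        rw [e1, h1]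
        push_cast
        module
      · intro h0
        apply hK0
        have e2 : (2 : ℂ) • cx L = (cx L + (S * cx L - cx L * S)) +
            (cx L - (S * cx L - cx L * S)) := by module
        rw [hX, h0, add_zero] at e2
        exact (smul_eq_zero.1 e2).resolve_left two_ne_zero
    · refine ⟨1, cx L + (S * cx L - cx L * S), odd_one, ?_, hX⟩
      rw [mul_add, add_mul]
      have e1 : S * cx L + S * (S * cx L - cx L * S) - (cx L * S + (S * cx L - cx L * S) * S)
          = (S * cx L - cx L * S) + (S * (S * cx L - cx L * S) - (S * cx L - cx L * S) * S) := by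
        abel
      rw [e1, h1]
      push_cast
      module
  obtain ⟨s, X, hodd, hX, hX0⟩ := hexc
  obtain ⟨j, hj, hj'⟩ := pa_shift hs.grad s hX hX0
  rcases Int.even_or_odd j with he | ho
  · exact hs.even hN h𝔠 h he hj
  · exact hs.even hN h𝔠 h (ho.add_odd hodd) hj'

theorem half_of_inj (hN : RNice E) (h𝔠 : RLie 𝔠) (h : TT 𝔠 w w') (hs : Spec w w' M p)
    (ht : Tri w w' a b c) (hinj : ∀ x, a x = 0 → x = 0) (hL : L ∈ Half a) : L = 0 := by
  by_contra hL0
  obtain ⟨x, hx, hx0⟩ := (hs.ker hN ht).1 (ker_of_half hN h𝔠 h hs ht hL hL0)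
  exact hx0 (hinj x hx)

end Pool.Agent.Helper61.RO
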