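import Pool.Agent.Helper61.RO.NoOdd
import Pool.Agent.Helper61.RO.ExtTwo
import Pool.Agent.Helper61.RO.Parity

/-!
# RO-89  In the extremal case the largest weight is one

PROOF. `a, b, c` from `TT.exists_tri`. `1 ≤ M` (`Spec.pos`). If `p 0 ≠ 0` then `M ≤ 2` (`kernel_le_two`), and `M = 2` is impossible (`ext_two`), so `M = 1`. If `p 0 = 0` then `M` is odd (`ker_of_even`) and all elements of `Half a` are `0` (`ker_of_half`): `no_odd`.
-/

set_option autoImplicit false

open Filter Topology

namespace Pool.Agent.Helper61.RO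

universe u

variable {E : Type u} [NormedAddCommGroup E] [NormedSpace ℝ E] [CompleteSpace E]
  [TopologicalSpace.SeparableSpace E] {w w' : Cx E →L[ℂ] Cx E} {M : ℕ}
  {p : ℤ → Cx E →L[ℂ] Cx E}

theorem ext_one (hN : RNice E) (htr : RTrans E) (hinf : ¬ FiniteDimensional ℝ E)
    (h : TT (gg E) w w') (hE : CExt (gg E) w w') (hs : Spec w w' M p) : M = 1 := by
  have hg := rlie_gg hN
  obtain ⟨a, -, b, -, c, -, ht, hsu⟩ := h.exists_tri hN hg
  by_cases h0 : p 0 = 0
  · have hodd : Odd M := by
      rcases Nat.even_or_odd M with he | ho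
      · exact absurd h0 (ker_of_even hN hg h hs he)
      · exact ho
    refine no_odd hN htr hinf h hE hs hodd ht ?_
    intro u hu
    by_contra hu0
    exact ker_of_half hN hg h hs ht hu hu0 h0
  · have h2 : M ≤ 2 := kernel_le_two hN htr h hs h0
    have h1 := hs.pos
    rcases (by omega : M = 1 ∨ M = 2) with h3 | h3
    · exact h3
    · subst h3
      exact absurd (ext_two hN htr h hE hs) hinf

end Pool.Agent.Helper61.RO
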