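import Pool.Agent.Helper61.RO.DenseA

/-!
# RO-25  The frame of two orthogonal cubs

`p = pa D₁ D₂`, `𝓛 = LL p`. For distinct `i, j, k` one has `k = - (i + j)` in `Fin 3` (`decide`).

PROOFS.
* `lof_br`: `C ∈ Lof p i k`, `D ∈ Lof p k j` (distinct indices): `br C D ∈ Lof p i j` (`Sk.br`; `C D = p i C p k D p j`, `D C = p j D p k C p i`, since
  `p i p j = 0` etc.). `Lof p i j = Lof p j i`.
* `ll_sub`: `LL p i j ⊆ Lof p i j`: induction over `LLp`: `gen`: `lof_br`; `ulim`: `Sk.ulim`, and `RULim.mul_left`, `mul_right`, `add`, `unique` for the equation.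
* `ll_symm`: `br C D = - br D C = (-1) • br D C`; induction over `LLp` in both directions.
* `ll_link`: `zero`: `0 • br 0 0`-type or `0 = (0 : ℝ) • A` with `A = br 0 0` (`0 ∈ Lof`). `tri`: fix `A ∈ LL p i j` (so `A ∈ Lof p i j`) and use induction over `LLp`
  for `B`: for `B = br C D`: `A * B * A = br (br A C) (br D A)` (identity in the blocks: write `A = p i A p j + p j A p i` etc.; it holds because all the other words
  vanish) with `br A C ∈ Lof p j k`, `br D A ∈ Lof p k i`; this is a generator of `LL p j i = LL p i j`. `add`, `smul`: distributivity; `ulim`: `RULim.mul_left/right`.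
* `brk`: `D ∈ LL p i j ⊆ Lof p i j`, `D' ∈ LL p j k ⊆ Lof p j k`: `br D D'` is a generator of `LL p i k`.
* `dense`: `x` in the block `j`, `y` in the block `i`: take `z ≠ 0` in the block `k` (`pa_ne`); `D ∈ Lof p k j` with `‖D x - z‖ < ‖z‖`, so `D x ≠ 0` in the block `k`;
  `C ∈ Lof p i k` with `‖C (D x) - y‖ < ε` (`lof_dense`); `br C D x = C D x - D C x = C D x` (`C x = 0`).
-/

set_option autoImplicit false

open Filter Topology

namespace Pool.Agent.Helper61.RO

universe u

/-- the commutation rules of an element exchanging the blocks `P` and `Q` -/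
private structure F25 {S : Type*} [Ring S] (P Q R X : S) : Prop where
  pq : P * X = X * Q
  qp : Q * X = X * P
  rx : R * X = 0
  xr : X * R = 0

private theorem f25_of_off {S : Type*} [Ring S] {P Q R X : S} (hP : P * P = P) (hQ : Q * Q = Q)
    (hPQ : P * Q = 0) (hQP : Q * P = 0) (hPR : P * R = 0) (hRP : R * P = 0) (hQR : Q * R = 0)
    (hRQ : R * Q = 0) (h : X = P * X * Q + Q * X * P) : F25 P Q R X := by
  have e1 : P * X = P * X * Q := by
    conv_lhs => rw [h]
    have : P * (P * X * Q + Q * X * P) = (P * P) * X * Q + (P * Q) * X * P := by noncomm_ring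
    rw [this, hP, hPQ, zero_mul, zero_mul, add_zero]
  have e2 : X * Q = P * X * Q := by
    conv_lhs => rw [h]
    have : (P * X * Q + Q * X * P) * Q = P * X * (Q * Q) + Q * X * (P * Q) := by noncomm_ring
    rw [this, hQ, hPQ, mul_zero, add_zero]
  have e3 : Q * X = Q * X * P := by
    conv_lhs => rw [h]
    have : Q * (P * X * Q + Q * X * P) = (Q * P) * X * Q + (Q * Q) * X * P := by noncomm_ring
    rw [this, hQ, hQP, zero_mul, zero_mul, zero_add]
  have e4 : X * P = Q * X * P := by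
    conv_lhs => rw [h]
    have : (P * X * Q + Q * X * P) * P = P * X * (Q * P) + Q * X * (P * P) := by noncomm_ring
    rw [this, hP, hQP, mul_zero, zero_add]
  refine ⟨e1.trans e2.symm, e3.trans e4.symm, ?_, ?_⟩
  · rw [h]
    have : R * (P * X * Q + Q * X * P) = (R * P) * X * Q + (R * Q) * X * P := by noncomm_ring
    rw [this, hRP, hRQ]
    simp only [zero_mul, add_zero]
  · rw [h]
    have : (P * X * Q + Q * X * P) * R = P * X * (Q * R) + Q * X * (P * R) := by noncomm_ring
    rw [this, hPR, hQR, mul_zero, mul_zero, add_zero]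

private theorem F25.off {S : Type*} [Ring S] {P Q R X : S} (hP : P * P = P) (hQ : Q * Q = Q)
    (hs : P + Q + R = 1) (h : F25 P Q R X) : X = P * X * Q + Q * X * P := by
  have e1 : P * X * Q = P * X := by
    rw [mul_assoc, ← h.pq, ← mul_assoc, hP]
  have e2 : Q * X * P = Q * X := by
    rw [mul_assoc, ← h.qp, ← mul_assoc, hQ]
  rw [e1, e2]
  have e3 : (P + Q + R) * X = P * X + Q * X + R * X := by noncomm_ring
  rw [hs, one_mul, h.rx, add_zero] at e3
  exact e3

private theorem F25.symm {S : Type*} [Ring S] {P Q R X : S} (h : F25 P Q R X) : F25 Q P R X :=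
  ⟨h.qp, h.pq, h.rx, h.xr⟩

/-- `C` exchanges `P, R`, `D` exchanges `R, Q` -/
private theorem F25.br {S : Type*} [Ring S] {P Q R C D : S} (hC : F25 P R Q C)
    (hD : F25 R Q P D) : F25 P Q R (C * D - D * C) := by
  refine ⟨?_, ?_, ?_, ?_⟩
  · rw [mul_sub, sub_mul, ← mul_assoc, hC.pq, ← mul_assoc P D C, hD.rx, zero_mul, mul_assoc C R D,
      hD.pq, mul_assoc D C Q, hC.xr, mul_zero, ← mul_assoc]
  · rw [mul_sub, sub_mul, ← mul_assoc, hC.rx, ← mul_assoc Q D C, hD.qp, zero_mul, mul_assoc D R C,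
      hC.qp, mul_assoc C D P, hD.xr, mul_zero, ← mul_assoc]
  · rw [mul_sub, ← mul_assoc, hC.qp, ← mul_assoc R D C, hD.pq, mul_assoc C P D, hD.rx,
      mul_assoc D Q C, hC.rx, mul_zero, mul_zero, sub_zero]
  · rw [sub_mul, mul_assoc C D R, ← hD.qp, ← mul_assoc C Q D, hC.xr, mul_assoc D C R, ← hC.pq,
      ← mul_assoc D P C, hD.xr, zero_mul, zero_mul, sub_zero]

/-- the triple product is a double commutator -/
private theorem f25_tri {S : Type*} [Ring S] {P Q R A C D : S} (hs : P + Q + R = 1)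
    (hA : F25 P Q R A) (hC : F25 P R Q C) (hD : F25 R Q P D) :
    A * (C * D - D * C) * A =
      (A * C - C * A) * (D * A - A * D) - (D * A - A * D) * (A * C - C * A) := by
  have hins : ∀ X Y : S, X * Y = X * P * Y + X * Q * Y + X * R * Y := by
    intro X Y
    have : X * P * Y + X * Q * Y + X * R * Y = X * (P + Q + R) * Y := by noncomm_ring
    rw [this, hs, mul_one]
  have h1 : A * C * A = 0 := by
    rw [hins (A * C) A, mul_assoc A C P, ← hC.qp, ← mul_assoc A R C, hA.xr, mul_assoc A C Q, hC.xr,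
      mul_assoc (A * C) R A, hA.rx]
    simp only [mul_zero, zero_mul, add_zero]
  have h2 : A * D * A = 0 := by
    rw [hins (A * D) A, mul_assoc A D P, hD.xr, mul_assoc A D Q, ← hD.pq, ← mul_assoc A R D, hA.xr,
      mul_assoc (A * D) R A, hA.rx]
    simp only [mul_zero, zero_mul, add_zero]
  have h3 : C * (A * A * D) = 0 := by
    rw [hins C (A * A * D), hC.xr]
    have e1 : C * P * (A * A * D) = C * (P * A) * A * D := by noncomm_ring
    have e2 : C * (A * Q) * A * D = C * A * (Q * A) * D := by noncomm_ring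
    have e3 : C * A * (A * P) * D = C * A * A * (P * D) := by noncomm_ring
    have e4 : C * R * (A * A * D) = C * (R * A) * A * D := by noncomm_ring
    rw [e1, hA.pq, e2, hA.qp, e3, hD.rx, e4, hA.rx]
    simp only [mul_zero, zero_mul, add_zero]
  have h4 : D * (A * A * C) = 0 := by
    rw [hins D (A * A * C), hD.xr]
    have e1 : D * Q * (A * A * C) = D * (Q * A) * A * C := by noncomm_ring
    have e2 : D * (A * P) * A * C = D * A * (P * A) * C := by noncomm_ring
    have e3 : D * A * (A * Q) * C = D * A * A * (Q * C) := by noncomm_ring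
    have e4 : D * R * (A * A * C) = D * (R * A) * A * C := by noncomm_ring
    rw [e1, hA.qp, e2, hA.pq, e3, hC.rx, e4, hA.rx]
    simp only [mul_zero, zero_mul, add_zero]
  have h5 : (A * C - C * A) * (D * A - A * D) - (D * A - A * D) * (A * C - C * A) =
      A * (C * D - D * C) * A - (A * C * A) * D - C * (A * D * A) + C * (A * A * D) -
        D * (A * A * C) + D * (A * C * A) + (A * D * A) * C := by noncomm_ring
  rw [h5, h1, h2, h3, h4]
  simp only [mul_zero, zero_mul, add_zero, sub_zero]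

variable {E : Type u} [NormedAddCommGroup E] [NormedSpace ℝ E] [CompleteSpace E]
  [TopologicalSpace.SeparableSpace E] {D₁ D₂ : E →L[ℝ] E}

private theorem f25_third {i j : Fin 3} (hij : i ≠ j) : i ≠ -(i + j) ∧ j ≠ -(i + j) := by
  revert i j
  decide

private theorem f25_idx {i j k : Fin 3} (hij : i ≠ j) (hjk : j ≠ k) (hik : i ≠ k) :
    -(i + k) = j := by
  revert i j k
  decide

omit [CompleteSpace E] [TopologicalSpace.SeparableSpace E] in
private theorem f25_sum (h : AlphaData D₁ D₂) {i j k : Fin 3} (hij : i ≠ j) (hjk : j ≠ k)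
    (hik : i ≠ k) : pa D₁ D₂ i + pa D₁ D₂ j + pa D₁ D₂ k = 1 := by
  have hs := pa_sum h
  have hi : i = 0 ∨ i = 1 ∨ i = 2 := by fin_cases i <;> simp
  have hj : j = 0 ∨ j = 1 ∨ j = 2 := by fin_cases j <;> simp
  have hk : k = 0 ∨ k = 1 ∨ k = 2 := by fin_cases k <;> simp
  rcases hi with rfl | rfl | rfl <;> rcases hj with rfl | rfl | rfl <;>
    rcases hk with rfl | rfl | rfl <;>
    first
      | exact absurd rfl hij
      | exact absurd rfl hjk
      | exact absurd rfl hik
      | exact hs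
      | (rw [← hs]; abel)

omit [CompleteSpace E] [TopologicalSpace.SeparableSpace E] in
private theorem f25_rules (h : AlphaData D₁ D₂) {i j k : Fin 3} (hij : i ≠ j) (hjk : j ≠ k)
    (hik : i ≠ k) {X : E →L[ℝ] E} (hX : X ∈ Lof (pa D₁ D₂) i j) :
    F25 (pa D₁ D₂ i) (pa D₁ D₂ j) (pa D₁ D₂ k) X :=
  f25_of_off (pa_idem h i) (pa_idem h j) (pa_orth h hij) (pa_orth h hij.symm) (pa_orth h hik)
    (pa_orth h hik.symm) (pa_orth h hjk) (pa_orth h hjk.symm) hX.2

omit [CompleteSpace E] [TopologicalSpace.SeparableSpace E] in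
private theorem lof_symm {p : Fin 3 → (E →L[ℝ] E)} {i j : Fin 3} {X : E →L[ℝ] E}
    (hX : X ∈ Lof p i j) : X ∈ Lof p j i :=
  ⟨hX.1, by rw [add_comm]; exact hX.2⟩

omit [TopologicalSpace.SeparableSpace E] in
private theorem lof_br (h : AlphaData D₁ D₂) {i j k : Fin 3} (hij : i ≠ j) (hjk : j ≠ k)
    (hik : i ≠ k) {C D : E →L[ℝ] E} (hC : C ∈ Lof (pa D₁ D₂) i k)
    (hD : D ∈ Lof (pa D₁ D₂) k j) : br C D ∈ Lof (pa D₁ D₂) i j := by
  refine ⟨hC.1.br hD.1, ?_⟩
  exact (F25.br (f25_rules h hik hjk.symm hij hC) (f25_rules h hjk.symm hij.symm hik.symm hD)).off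
    (pa_idem h i) (pa_idem h j) (f25_sum h hij hjk hik)

omit [TopologicalSpace.SeparableSpace E] in
private theorem ll_sub (hN : RNice E) (h : AlphaData D₁ D₂) {i j : Fin 3} (hij : i ≠ j)
    {X : E →L[ℝ] E} (hX : LLp (pa D₁ D₂) i j X) : X ∈ Lof (pa D₁ D₂) i j := by
  induction hX with
  | gen C D hC hD => exact lof_br h hij (f25_third hij).2 (f25_third hij).1 hC hD
  | add A B _ _ hA hB =>
    refine ⟨hA.1.add hB.1, ?_⟩
    have e : pa D₁ D₂ i * (A + B) * pa D₁ D₂ j + pa D₁ D₂ j * (A + B) * pa D₁ D₂ i =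
        (pa D₁ D₂ i * A * pa D₁ D₂ j + pa D₁ D₂ j * A * pa D₁ D₂ i) +
          (pa D₁ D₂ i * B * pa D₁ D₂ j + pa D₁ D₂ j * B * pa D₁ D₂ i) := by noncomm_ring
    rw [e, ← hA.2, ← hB.2]
  | smul t A _ hA =>
    refine ⟨hA.1.smul t, ?_⟩
    rw [mul_smul_comm, smul_mul_assoc, mul_smul_comm, smul_mul_assoc, ← smul_add, ← hA.2]
  | ulim D L _ hL hD =>
    refine ⟨Sk.ulim hN (fun n => (hD n).1) hL, ?_⟩
    have h1 := ((hL.mul_left (pa D₁ D₂ i)).mul_right (pa D₁ D₂ j)).add
      ((hL.mul_left (pa D₁ D₂ j)).mul_right (pa D₁ D₂ i))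
    have h2 : (fun n => pa D₁ D₂ i * D n * pa D₁ D₂ j + pa D₁ D₂ j * D n * pa D₁ D₂ i) = D := by
      funext n
      exact (hD n).2.symm
    rw [h2] at h1
    exact hL.unique h1

omit [CompleteSpace E] [TopologicalSpace.SeparableSpace E] in
private theorem ll_symm {p : Fin 3 → (E →L[ℝ] E)} {i j : Fin 3} {X : E →L[ℝ] E}
    (hX : LLp p i j X) : LLp p j i X := by
  induction hX with
  | gen C D hC hD =>
    have e : br C D = (-1 : ℝ) • br D C := by
      unfold br
      rw [neg_one_smul]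
      abel
    rw [e]
    have hk : -(j + i) = -(i + j) := by rw [add_comm]
    refine LLp.smul _ _ (LLp.gen D C ?_ ?_)
    · rw [hk]
      exact lof_symm hD
    · rw [hk]
      exact lof_symm hC
  | add A B _ _ hA hB => exact LLp.add A B hA hB
  | smul t A _ hA => exact LLp.smul t A hA
  | ulim D L _ hL hD => exact LLp.ulim D L hD hL

omit [TopologicalSpace.SeparableSpace E] in
private theorem ll_tri (hN : RNice E) (h : AlphaData D₁ D₂) {i j : Fin 3} (hij : i ≠ j)
    {A B : E →L[ℝ] E} (hA : LLp (pa D₁ D₂) i j A) (hB : LLp (pa D₁ D₂) i j B) :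
    LLp (pa D₁ D₂) i j (A * B * A) := by
  have hA' := ll_sub hN h hij hA
  obtain ⟨hik, hjk⟩ := f25_third hij
  induction hB with
  | gen C D hC hD =>
    have e : A * br C D * A = br (br A C) (br D A) :=
      f25_tri (f25_sum h hij hjk hik) (f25_rules h hij hjk hik hA')
        (f25_rules h hik hjk.symm hij hC) (f25_rules h hjk.symm hij.symm hik.symm hD)
    rw [e]
    apply ll_symm
    have hk : -(j + i) = -(i + j) := by rw [add_comm]
    refine LLp.gen _ _ ?_ ?_
    · rw [hk]
      exact lof_br h hjk hik.symm hij.symm (lof_symm hA') hC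
    · rw [hk]
      exact lof_br h hik.symm hij hjk.symm hD (lof_symm hA')
  | add B B' _ _ hB hB' =>
    have e : A * (B + B') * A = A * B * A + A * B' * A := by noncomm_ring
    rw [e]
    exact LLp.add _ _ hB hB'
  | smul t B _ hB =>
    rw [mul_smul_comm, smul_mul_assoc]
    exact LLp.smul _ _ hB
  | ulim D L _ hL hD =>
    exact LLp.ulim _ _ hD ((hL.mul_left A).mul_right A)

theorem frame_of_alpha (hN : RNice E) (htr : RTrans E) (h : AlphaData D₁ D₂) :
    RFrame (pa D₁ D₂) (LL (pa D₁ D₂)) := by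
  refine ⟨pa_idem h, fun i j hij => pa_orth h hij, pa_sum h, pa_sgn h, ?_, ?_, ?_, ?_, ?_⟩
  · intro i j hij
    refine ⟨fun D hD => (ll_sub hN h hij hD).1, ?_, fun D hD D' hD' => LLp.add D D' hD hD',
      fun t D hD => LLp.smul t D hD, fun D L hD hL => LLp.ulim D L hD hL,
      fun A hA B hB => ll_tri hN h hij hA hB⟩
    have h0 : ∀ a b : Fin 3, (0 : E →L[ℝ] E) ∈ Lof (pa D₁ D₂) a b := by
      intro a b
      refine ⟨Sk.zero, ?_⟩
      rw [mul_zero, mul_zero, zero_mul, zero_mul, add_zero]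
    have h1 := LLp.gen (p := pa D₁ D₂) (i := i) (j := j) 0 0 (h0 _ _) (h0 _ _)
    have h2 : br (0 : E →L[ℝ] E) 0 = 0 := by
      unfold br
      rw [mul_zero, sub_zero]
    rw [h2] at h1
    exact h1
  · intro i j
    ext X
    exact ⟨fun hX => ll_symm hX, fun hX => ll_symm hX⟩
  · intro i j hij D hD
    exact (ll_sub hN h hij hD).2
  · intro i j k hij hjk hik D hD D' hD'
    have hk := f25_idx hij hjk hik
    refine LLp.gen D D' ?_ ?_
    · rw [hk]
      exact ll_sub hN h hij hD
    · rw [hk]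
      exact ll_sub hN h hjk hD'
  · intro i j hij x hx0 hx y hy ε hε
    obtain ⟨hik, hjk⟩ := f25_third hij
    obtain ⟨z, hz, hz0⟩ := pa_ne h (-(i + j))
    obtain ⟨D, hD, hDz⟩ := lof_dense hN htr h hjk.symm hx0 hx hz (norm_pos_iff.2 hz0)
    have hDx0 : D x ≠ 0 := by
      intro h1
      rw [h1, zero_sub, norm_neg] at hDz
      exact lt_irrefl _ hDz
    have rD := f25_rules h hjk.symm hij.symm hik.symm hD
    have hDx : pa D₁ D₂ (-(i + j)) (D x) = D x := by
      have h1 := congrArg (fun T : E →L[ℝ] E => T x) rD.pq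
      have h2 : pa D₁ D₂ (-(i + j)) (D x) = D (pa D₁ D₂ j x) := h1
      rw [h2, hx]
    obtain ⟨C, hC, hCy⟩ := lof_dense hN htr h hik hDx0 hDx hy hε
    have rC := f25_rules h hik hjk.symm hij hC
    have hCx : C x = 0 := by
      have h1 := congrArg (fun T : E →L[ℝ] E => T x) rC.xr
      have h2 : C (pa D₁ D₂ j x) = 0 := h1
      rwa [hx] at h2
    refine ⟨br C D, LLp.gen C D hC hD, ?_⟩
    have h1 : br C D x = C (D x) := by
      change C (D x) - D (C x) = C (D x)
      rw [hCx, map_zero, sub_zero]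
    rw [h1]
    exact hCy

end Pool.Agent.Helper61.RO
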