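import Pool.Agent.Helper61.RO.EvenPhi
import Pool.Agent.Helper59.Rotation.Trans

/-!
# RO-10  A conjugate that does not commute

PROOF. Suppose `cj T D` commutes with `D` for all `T`; then all the conjugates commute with each other (`cj_mul`, `cj_trans`). `m, η, f, k` from
`exists_two_even`; `F`, `K` real operators with `cx F = Phi H f`, `cx K = Phi H k` (`phi_even`), `F ≠ 0`, `K ≠ 0`, `b = F y ≠ 0`, `z = K v ≠ 0`. Let `χ` be an
even real test function with `χ = 1` on the support of `f`, `χ x = 0` for `|x| ≤ m - η` (e.g. from `exists_cutoff` on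
`[m + η, R]`, plus its reflection), `cx G = Phi H χ`. `G b = b` (`Phi_mul`: `χ f = f`), `G z = 0` (`χ k = 0`). The family `{cj T G | T}` is bounded by
`‖G‖` and commuting: `cx (cj T G) = Phi (i cx (cj T D)) χ` (`Phi_conj`), `Phi_comm` twice. For every `x` some member kills `x` and fixes a nonzero
vector: `x = 0`: `G`, `b`. `x ≠ 0`: `T` with `T (z / ‖z‖) = x / ‖x‖`, `cj T G x = 0`, `cj T G (T b) = T b`. Contradiction to
`Helper59.Rotation.false_of_commuting`. Compare `exists_noncomm` in `HO/NonComm.lean`.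
-/

set_option autoImplicit false

open Filter Topology

namespace Pool.Agent.Helper61.RO

universe u

variable {E : Type u} [NormedAddCommGroup E] [NormedSpace ℝ E] [CompleteSpace E]
  [TopologicalSpace.SeparableSpace E]

private theorem nc_ne {F : E →L[ℝ] E} (hF : cx F ≠ 0) : ∃ y : E, F y ≠ 0 := by
  by_contra hno
  push Not at hno
  refine hF ?_
  have h1 : F = 0 := by
    ext y
    rw [hno y]
    rfl
  rw [h1, cx_zero]

private theorem nc_herm {D : E →L[ℝ] E} (hD : Sk D) : HP.Herm (Complex.I • cx D) := by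
  have h : Complex.I • (Complex.I • cx D) = cx (-D) := by
    rw [smul_smul, Complex.I_mul_I, neg_one_smul, cx_neg]
  unfold HP.Herm
  rw [h]
  exact hD.neg

/-- the complexification of the calculus of the conjugate -/
private theorem nc_conj {D G : E →L[ℝ] E} (hD : Sk D) {f : ℝ → ℂ} (hf : HP.Test f)
    (hG : cx G = HP.Phi (Complex.I • cx D) f) (T : E ≃ₗᵢ[ℝ] E) :
    cx (cj T G) = HP.Phi (Complex.I • cx (cj T D)) f := by
  have h1 : ((T.symm : E ≃L[ℝ] E) : E →L[ℝ] E) * ((T : E ≃L[ℝ] E) : E →L[ℝ] E) = 1 := by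
    ext x
    exact T.symm_apply_apply x
  have h2 : ((T : E ≃L[ℝ] E) : E →L[ℝ] E) * ((T.symm : E ≃L[ℝ] E) : E →L[ℝ] E) = 1 := by
    ext x
    exact T.apply_symm_apply x
  have h3 := congrArg cx h1
  have h4 := congrArg cx h2
  rw [cx_mul, cx_one] at h3 h4
  have h5 := HP.Phi_conj (nc_herm hD) hf h3 h4
  have h6 : cx ((T : E ≃L[ℝ] E) : E →L[ℝ] E) * (Complex.I • cx D) *
      cx ((T.symm : E ≃L[ℝ] E) : E →L[ℝ] E) = Complex.I • cx (cj T D) := by
    unfold cj
    rw [cx_mul, cx_mul, mul_smul_comm, smul_mul_assoc]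
  rw [h6] at h5
  rw [← h5, ← hG]
  unfold cj
  rw [cx_mul, cx_mul]

/-- commuting operators have commuting calculi -/
private theorem nc_comm {A B F G : E →L[ℝ] E} (hA : Sk A) (hB : Sk B) (hAB : A * B = B * A)
    {f : ℝ → ℂ} (hf : HP.Test f) (hF : cx F = HP.Phi (Complex.I • cx A) f)
    (hG : cx G = HP.Phi (Complex.I • cx B) f) : F * G = G * F := by
  have h1 : (Complex.I • cx B) * (Complex.I • cx A) = (Complex.I • cx A) * (Complex.I • cx B) := by
    rw [smul_mul_smul_comm, smul_mul_smul_comm, ← cx_mul, ← cx_mul, hAB]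
  have h2 := HP.Phi_comm (nc_herm hA) hf h1
  have h3 := HP.Phi_comm (nc_herm hB) hf h2.symm
  rw [← hF, ← hG, ← cx_mul, ← cx_mul] at h3
  exact cx_inj h3

/-- if all conjugates of `D` commute with `D` they commute with each other -/
private theorem nc_all {D : E →L[ℝ] E} (hno : ∀ T : E ≃ₗᵢ[ℝ] E, cj T D * D = D * cj T D)
    (T T' : E ≃ₗᵢ[ℝ] E) : cj T D * cj T' D = cj T' D * cj T D := by
  have h1 : cj T' (cj (T.trans T'.symm) D) = cj T D := by
    rw [← cj_trans]
    congr 1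
    ext x
    exact T'.apply_symm_apply (T x)
  rw [← h1, ← cj_mul, ← cj_mul, hno]

theorem exists_conj_noncomm (htr : RTrans E) {D : E →L[ℝ] E} (hD : Sk D)
    (hns : ∀ c : ℝ, D * D ≠ c • (1 : E →L[ℝ] E)) :
    ∃ T : E ≃ₗᵢ[ℝ] E, cj T D * D ≠ D * cj T D := by
  classical
  by_contra hno
  push Not at hno
  obtain ⟨m, η, f, k, hη, hηm, hf, hk, hfe, hke, hf0, hk0, hfn, hkn⟩ := exists_two_even hD hns
  obtain ⟨F, hF⟩ := phi_even hD hf hfe
  obtain ⟨K, hK⟩ := phi_even hD hk hke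
  rw [← hF] at hfn
  rw [← hK] at hkn
  obtain ⟨y, hy⟩ := nc_ne hfn
  obtain ⟨v, hv⟩ := nc_ne hkn
  -- the support of `f`
  obtain ⟨R, hR⟩ : ∃ R : ℝ, ∀ x, R ≤ |x| → f x = 0 := by
    obtain ⟨R, hR⟩ := hf.2.isCompact.isBounded.subset_closedBall 0
    refine ⟨R + 1, fun x hx => ?_⟩
    by_contra h
    have h1 := hR (subset_tsupport _ (Function.mem_support.2
      (show (fun x => ((f x : ℝ) : ℂ)) x ≠ 0 from Complex.ofReal_ne_zero.2 h)))
    rw [mem_closedBall_zero_iff, Real.norm_eq_abs] at h1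
    linarith
  obtain ⟨χ, -, -, hχ, -, -, hχ1, hχ0, hχ2⟩ := HP.exists_cutoff (m + η) R hη
  -- the even cutoff
  have ht : HP.Test (fun x => ((χ x + χ (-x) : ℝ) : ℂ)) := by
    have e : (fun x => ((χ x + χ (-x) : ℝ) : ℂ)) =
        fun x => ((χ x : ℝ) : ℂ) + ((χ (-x) : ℝ) : ℂ) := by
      funext x
      push_cast
      rfl
    rw [e]
    exact hχ.add hχ.comp_neg
  obtain ⟨G, hG⟩ := phi_even hD (f := fun x => χ x + χ (-x)) ht (fun x => by
    show χ (-x) + χ (-(-x)) = χ x + χ (-x)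
    rw [neg_neg, add_comm])
  have hH := nc_herm hD
  have hGF : G * F = F := by
    refine cx_inj ?_
    rw [cx_mul, hG, hF, ← HP.Phi_mul hH ht hf]
    refine congrArg (HP.Phi (Complex.I • cx D)) ?_
    funext x
    by_cases h1 : |x| ≤ m + η
    · rw [hf0 x h1]
      simp
    · by_cases h2 : R ≤ |x|
      · rw [hR x h2]
        simp
      · push Not at h1 h2
        have h3 : χ x + χ (-x) = 1 := by
          rcases le_or_gt 0 x with hx | hx
          · rw [abs_of_nonneg hx] at h1 h2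
            rw [hχ1 x (by linarith) (by linarith), hχ0 (-x) (by linarith), add_zero]
          · rw [abs_of_neg hx] at h1 h2
            rw [hχ1 (-x) (by linarith) (by linarith), hχ0 x (by linarith), zero_add]
        show (((χ x + χ (-x) : ℝ) : ℂ)) * ((f x : ℝ) : ℂ) = ((f x : ℝ) : ℂ)
        rw [h3, Complex.ofReal_one, one_mul]
  have hGK : G * K = 0 := by
    refine cx_inj ?_
    rw [cx_mul, hG, hK, ← HP.Phi_mul hH ht hk, cx_zero]
    have h1 : (fun x => ((χ x + χ (-x) : ℝ) : ℂ) * ((k x : ℝ) : ℂ)) =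
        fun x => (0 : ℂ) * ((k x : ℝ) : ℂ) := by
      funext x
      by_cases h1 : m - η ≤ |x|
      · rw [hk0 x h1]
        simp
      · push Not at h1
        have h3 := abs_lt.1 h1
        rw [hχ0 x (by linarith [h3.2]), hχ0 (-x) (by linarith [h3.1])]
        simp
    rw [h1, HP.Phi_smul hH hk, zero_smul]
  have hGb : G (F y) = F y := congrArg (fun A : E →L[ℝ] E => A y) hGF
  have hGz : G (K v) = 0 := congrArg (fun A : E →L[ℝ] E => A v) hGK
  refine Helper59.Rotation.false_of_commuting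
    {g : E →L[ℝ] E | ∃ T : E ≃ₗᵢ[ℝ] E, g = cj T G} ‖G‖ ?_ ?_ ?_
  · rintro g ⟨T, rfl⟩ x
    have h1 := (cj T G).le_opNorm x
    rwa [norm_cj] at h1
  · rintro g ⟨T, rfl⟩ g' ⟨T', rfl⟩ x
    have h1 := nc_comm (hD.cj T) (hD.cj T') (nc_all hno T T') ht (nc_conj hD ht hG T)
      (nc_conj hD ht hG T')
    exact congrArg (fun A : E →L[ℝ] E => A x) h1
  · intro x
    by_cases hx : x = 0
    · refine ⟨cj (LinearIsometryEquiv.refl ℝ E) G, ⟨_, rfl⟩, by rw [hx, map_zero], F y, hy, ?_⟩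
      rw [cj_apply]
      exact hGb
    · have hxn : ‖x‖ ≠ 0 := norm_ne_zero_iff.mpr hx
      have hzn : ‖K v‖ ≠ 0 := norm_ne_zero_iff.mpr hv
      obtain ⟨T, hT⟩ := htr (‖K v‖⁻¹ • K v) (‖x‖⁻¹ • x)
        (by rw [norm_smul, norm_inv, norm_norm, inv_mul_cancel₀ hzn])
        (by rw [norm_smul, norm_inv, norm_norm, inv_mul_cancel₀ hxn])
      have hTx : T.symm x = ‖x‖ • ‖K v‖⁻¹ • K v := by
        have h1 : x = ‖x‖ • T (‖K v‖⁻¹ • K v) := by
          rw [hT, smul_smul, mul_inv_cancel₀ hxn, one_smul]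
        rw [← map_smul] at h1
        have h2 := congrArg T.symm h1
        rwa [T.symm_apply_apply] at h2
      refine ⟨cj T G, ⟨T, rfl⟩, ?_, T (F y), ?_, ?_⟩
      · have h3 : G (‖x‖ • ‖K v‖⁻¹ • K v) = 0 := by
          rw [G.map_smul, G.map_smul, hGz, smul_zero, smul_zero]
        rw [cj_apply, hTx, h3, map_zero]
      · exact (map_ne_zero_iff T T.injective).mpr hy
      · rw [cj_apply, T.symm_apply_apply, hGb]

end Pool.Agent.Helper61.RO
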