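import Pool.Agent.Helper61.RO.FullDec
import Pool.Agent.Helper61.RO.Dich
import Pool.Agent.Helper61.RO.NonCommR

/-!
# RO-93  The triple with `a a = - 1`: abelian commutant

`𝔪 = {C | Sk C, C commutes with a, b, c}`.
PROOF. Suppose the elements of `𝔪` commute.
(1) `cj T X ∈ Mm` for all `X ∈ Mm` and all `T`: otherwise (`dich`) `cj T a`, `cj T b` are in `𝔪`, so they commute, and `2 cj T c = br (cj T a) (cj T b) = 0`, `c = 0`, contradiction. So (apply this to `T.symm`) `cj T` maps `𝔪` to `𝔪`: `C ∈ 𝔪`, `X ∈ Mm`: `cj T C * X = cj T (C * cj T.symm X) = cj T (cj T.symm X * C) = X * cj T C`.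
(2) `C ∈ 𝔪` implies `C * C = λ 1`: otherwise some `cj T C` does not commute with `C` (`exists_conj_noncomm`), but both are in `𝔪`.
(3) `D₀ = m₀ + C₀` (`hD : Dec0`), `C₀ ∈ 𝔪`. `C₀ ≠ 0`: `m₀ = r a + s b + t c`, `m₀ * m₀ = - (r² + s² + t²) 1` (`Quat` relations, `a a = b b = c c = - 1`). `C₀ * C₀ = λ 1`, `λ < 0` (for a unit `x` `dj x (C₀ C₀ x) = λ ≤ 0` by `Sk.dj_sq`; `λ = 0` gives `C₀ = 0`, `Sk.eq_zero_of_sq`). `C = C₀ / √(- λ)`: `C ∈ 𝔪`, `C * C = - 1`.
(4) `C' ∈ 𝔪`: `(C + C')² = C² + 2 C C' + C'²` is a scalar, so `C C' = μ 1` and `C' = - C C C' = - μ C`.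
(5) So every skew `B` is `r a + s b + t c + u C`. `fin_of_two` with `F x = span {a x, b x, c x, C x, J a x, J b x, J c x, J C x}` (`J = a C`; `B x ∓ J (B x) ∈ F x`), `C ≠ ± a` because `C` commutes with `b` and `a` does not (`a b = c`, `b a = - c`, `c ≠ 0`). So `E` is finite-dimensional.
-/

set_option autoImplicit false

open Filter Topology

namespace Pool.Agent.Helper61.RO

universe u

variable {E : Type u} [NormedAddCommGroup E] [NormedSpace ℝ E] [CompleteSpace E]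
  [TopologicalSpace.SeparableSpace E] {a b c D : E →L[ℝ] E}

theorem fin_of_abelian (hN : RNice E) (htr : RTrans E) (h : Quat a b c) (hE : Ext a b c)
    (hD : Dec0 a b c) (haa : a * a = -1) (hsk : Sk D)
    (hns : ∀ s : ℝ, D * D ≠ s • (1 : E →L[ℝ] E))
    (hab : ∀ C : E →L[ℝ] E, Sk C → (∀ X ∈ Mm a b c, X * C = C * X) → ∀ C' : E →L[ℝ] E, Sk C' →
      (∀ X ∈ Mm a b c, X * C' = C' * X) → C * C' = C' * C) : FiniteDimensional ℝ E := by
  have hc0 : c ≠ 0 := h.cyc.cyc.ne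
  have hneg : ∀ A : E →L[ℝ] E, A = -A → A = 0 := by
    intro A hA
    have h1 : (2 : ℝ) • A = 0 := by
      rw [two_smul]
      nth_rewrite 2 [hA]
      exact add_neg_cancel A
    exact (smul_eq_zero.1 h1).resolve_left two_ne_zero
  have ha_mem : a ∈ Mm a b c := ⟨1, 0, 0, by module⟩
  have hb_mem : b ∈ Mm a b c := ⟨0, 1, 0, by module⟩
  have hc_mem : c ∈ Mm a b c := ⟨0, 0, 1, by module⟩
  -- (1)
  have inv : ∀ T : E ≃ₗᵢ[ℝ] E, ∀ X ∈ Mm a b c, cj T X ∈ Mm a b c := by
    intro T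
    rcases dich hN h.su2 hE hD T with h1 | h1
    · exact h1
    · exfalso
      have h2 : cj T a * cj T b = cj T b * cj T a :=
        hab _ (h.ska.cj T) (fun X hX => (h1 a ha_mem X hX).symm) _ (h.skb.cj T)
          (fun X hX => (h1 b hb_mem X hX).symm)
      rw [← cj_mul, ← cj_mul, h.ab, h.ba] at h2
      have h3 := congrArg (cj T.symm) h2
      rw [cj_symm, cj_symm] at h3
      exact hc0 (hneg c h3)
  have inv' : ∀ (T : E ≃ₗᵢ[ℝ] E) (C : E →L[ℝ] E), (∀ X ∈ Mm a b c, X * C = C * X) →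
      ∀ X ∈ Mm a b c, X * cj T C = cj T C * X := by
    intro T C hC X hX
    have hsym : cj T (cj T.symm X) = X := cj_symm T.symm X
    rw [← hsym, ← cj_mul, ← cj_mul, hC _ (inv T.symm X hX)]
  -- (2)
  have sq : ∀ C : E →L[ℝ] E, Sk C → (∀ X ∈ Mm a b c, X * C = C * X) →
      ∃ l : ℝ, C * C = l • (1 : E →L[ℝ] E) := by
    intro C hC hCm
    by_contra hno
    push Not at hno
    obtain ⟨T, hT⟩ := exists_conj_noncomm htr hC hno
    exact hT (hab _ (hC.cj T) (inv' T C hCm) C hC hCm)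
  have hbb : b * b = -1 := by rw [h.sqb, haa]
  have hcc : c * c = -1 := by rw [h.sqc, haa]
  have comm_of : ∀ C : E →L[ℝ] E, a * C = C * a → b * C = C * b → c * C = C * c →
      ∀ X ∈ Mm a b c, X * C = C * X := by
    rintro C h1 h2 h3 X ⟨r, s, t, rfl⟩
    simp only [add_mul, mul_add, smul_mul_assoc, mul_smul_comm, h1, h2, h3]
  -- (3)
  obtain ⟨r₀, s₀, t₀, C₀, hC₀, h1, h2, h3, hDe⟩ := hD D hsk
  have hC₀m := comm_of C₀ h1 h2 h3
  have hC₀0 : C₀ ≠ 0 := by
    intro h0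
    refine hns (-(r₀ ^ 2 + s₀ ^ 2 + t₀ ^ 2)) ?_
    rw [hDe, h0, add_zero]
    simp only [add_mul, mul_add, smul_mul_assoc, mul_smul_comm, haa, hbb, hcc, h.ab, h.ba, h.bc,
      h.cb, h.ca, h.ac]
    module
  obtain ⟨l, hl⟩ := sq C₀ hC₀ hC₀m
  obtain ⟨x₀, hx₀⟩ : ∃ x : E, x ≠ 0 := by
    by_contra hno
    push Not at hno
    refine h.ne ?_
    ext x
    rw [hno x, map_zero, map_zero]
  have hl0 : l < 0 := by
    have h4 : dj x₀ (C₀ (C₀ x₀)) ≤ 0 := hC₀.dj_sq x₀
    have h5 : C₀ (C₀ x₀) = l • x₀ := congrArg (fun A : E →L[ℝ] E => A x₀) hl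
    rw [h5, map_smul, dj_self, smul_eq_mul] at h4
    have h6 : 0 < ‖x₀‖ := norm_pos_iff.2 hx₀
    rcases lt_or_ge l 0 with h7 | h7
    · exact h7
    · exfalso
      have h8 : l = 0 := by
        by_contra h9
        have h10 : 0 < l := lt_of_le_of_ne h7 (Ne.symm h9)
        have := mul_pos h10 h6
        linarith
      rw [h8, zero_smul] at hl
      exact hC₀0 (hC₀.eq_zero_of_sq hl)
  obtain ⟨C, hC, hCa, hCb, hCc, hCC⟩ : ∃ C : E →L[ℝ] E, Sk C ∧ a * C = C * a ∧ b * C = C * b ∧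
      c * C = C * c ∧ C * C = -1 := by
    have h4 : 0 < √(-l) := Real.sqrt_pos.2 (by linarith)
    have h5 : √(-l) * √(-l) = -l := Real.mul_self_sqrt (by linarith)
    refine ⟨(√(-l))⁻¹ • C₀, hC₀.smul _, ?_, ?_, ?_, ?_⟩
    · rw [mul_smul_comm, smul_mul_assoc, h1]
    · rw [mul_smul_comm, smul_mul_assoc, h2]
    · rw [mul_smul_comm, smul_mul_assoc, h3]
    · rw [smul_mul_smul_comm, hl, smul_smul, ← mul_inv, h5]
      have h6 : (-l)⁻¹ * l = -1 := by
        rw [inv_neg, neg_mul, inv_mul_cancel₀ hl0.ne]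
      rw [h6, neg_one_smul]
  have hCm := comm_of C hCa hCb hCc
  -- (4)
  have line : ∀ C' : E →L[ℝ] E, Sk C' → (∀ X ∈ Mm a b c, X * C' = C' * X) →
      ∃ u : ℝ, C' = u • C := by
    intro C' hC' hC'm
    obtain ⟨ρ, hρ⟩ := sq C' hC' hC'm
    obtain ⟨ν, hν⟩ := sq (C + C') (hC.add hC') (fun X hX => by
      rw [mul_add, add_mul, hCm X hX, hC'm X hX])
    have h4 : C' * C = C * C' := hab C' hC' hC'm C hC hCm
    have h5 : (2 : ℝ) • (C * C') = (ν + 1 - ρ) • (1 : E →L[ℝ] E) := by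
      rw [add_mul, mul_add, mul_add, hCC, hρ, h4] at hν
      have h6 : (2 : ℝ) • (C * C') = (-1 + C * C' + (C * C' + ρ • (1 : E →L[ℝ] E))) + 1 -
          ρ • (1 : E →L[ℝ] E) := by
        rw [two_smul]
        abel
      rw [h6, hν]
      module
    have h6 : C * C' = ((ν + 1 - ρ) / 2) • (1 : E →L[ℝ] E) := by
      have h7 : C * C' = (2 : ℝ)⁻¹ • ((2 : ℝ) • (C * C')) := by
        rw [smul_smul, inv_mul_cancel₀ two_ne_zero, one_smul]
      rw [h7, h5, smul_smul]
      congr 1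
      ring
    refine ⟨-((ν + 1 - ρ) / 2), ?_⟩
    have h7 : C * (C * C') = -C' := by
      rw [← mul_assoc, hCC, neg_one_mul]
    rw [h6, mul_smul_comm, mul_one] at h7
    rw [neg_smul, h7, neg_neg]
  -- (5)
  have full : ∀ B : E →L[ℝ] E, Sk B → ∃ r s t u : ℝ, B = r • a + s • b + t • c + u • C := by
    intro B hB
    obtain ⟨r, s, t, C', hC', h4, h5, h6, h7⟩ := hD B hB
    obtain ⟨u, hu⟩ := line C' hC' (comm_of C' h4 h5 h6)
    exact ⟨r, s, t, u, by rw [h7, hu]⟩
  have hne : C ≠ a := by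
    intro h4
    rw [h4, h.ba, h.ab] at hCb
    exact hc0 (hneg c hCb.symm)
  have hne' : C ≠ -a := by
    intro h4
    rw [h4, mul_neg, neg_mul, h.ba, h.ab, neg_neg] at hCb
    exact hc0 (hneg c hCb)
  let F : E → Submodule ℝ E := fun x => Submodule.span ℝ
    ({a x, b x, c x, C x, a (C (a x)), a (C (b x)), a (C (c x)), a (C (C x))} : Set E)
  have hfin : ∀ x, FiniteDimensional ℝ (F x) := fun x =>
    FiniteDimensional.span_of_finite ℝ (by simp)
  have hmem : ∀ (x : E) (B : E →L[ℝ] E), Sk B → B x ∈ F x ∧ a (C (B x)) ∈ F x := by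
    intro x B hB
    obtain ⟨r, s, t, u, rfl⟩ := full B hB
    have m1 : a x ∈ F x := Submodule.subset_span (by simp)
    have m2 : b x ∈ F x := Submodule.subset_span (by simp)
    have m3 : c x ∈ F x := Submodule.subset_span (by simp)
    have m4 : C x ∈ F x := Submodule.subset_span (by simp)
    have m5 : a (C (a x)) ∈ F x := Submodule.subset_span (by simp)
    have m6 : a (C (b x)) ∈ F x := Submodule.subset_span (by simp)
    have m7 : a (C (c x)) ∈ F x := Submodule.subset_span (by simp)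
    have m8 : a (C (C x)) ∈ F x := Submodule.subset_span (by simp)
    have e1 : (r • a + s • b + t • c + u • C) x = r • a x + s • b x + t • c x + u • C x := rfl
    constructor
    · rw [e1]
      exact Submodule.add_mem _ (Submodule.add_mem _ (Submodule.add_mem _
        (Submodule.smul_mem _ r m1) (Submodule.smul_mem _ s m2)) (Submodule.smul_mem _ t m3))
        (Submodule.smul_mem _ u m4)
    · rw [e1]
      simp only [map_add, map_smul]
      exact Submodule.add_mem _ (Submodule.add_mem _ (Submodule.add_mem _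
        (Submodule.smul_mem _ r m5) (Submodule.smul_mem _ s m6)) (Submodule.smul_mem _ t m7))
        (Submodule.smul_mem _ u m8)
  refine fin_of_two hN htr h.ska hC haa hCC hCa hne hne' F hfin ?_ ?_
  · intro x _ B hB
    exact Submodule.sub_mem _ (hmem x B hB).1 (hmem x B hB).2
  · intro x _ B hB
    exact Submodule.add_mem _ (hmem x B hB).1 (hmem x B hB).2

end Pool.Agent.Helper61.RO
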