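import Pool.Agent.Helper61.RO.ExtDecomp
import Pool.Agent.Helper61.RO.Parity
import Pool.Agent.Helper61.RO.Inc

/-!
# RO-92  The triple with `a a = - 1`: decomposition and ranges

PROOFS.
* `dec_full`: `ext_decomp`, and `L = 0` by `half_of_inj` (`a` is injective).
* `fin_of_two`: `a * a = - 1`, `C` skew with `a C = C a`, `C C = - 1`, `C ≠ ± a`. `J = a C`: `J J = a a C C = 1`. `D = (1/2) (a + C)`: skew, `D = (1/2) a (1 - J)`; `J x = x` implies `D x = 0`, and `range D` is in `{y | J y = - y}` (`J D = (1/2) (J a + J C) = (1/2) (- C - a) = - D`). There is `x ≠ 0` with `J x = x` (otherwise `1 + J`, whose range is in this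
set, is `0`, `J = -1`, `a C = - 1`, `C = a`). Let `y` with `J y = - y`: `y = D (- a y)`, as `D (a y) = (1/2) (a a y + C a y) = (1/2) (- y + J y) = - y`. By `mem_closure_of_ker` (`x`, `D`, `v = - a y`) `y` is the limit of vectors `B x`, `B` skew; so `y` is the limit of `(1/2) (1 - J) (B x) ∈ F x` (hypothesis `hF`; `F x` is a finite-dimensional subspace, closed).
So `{y | J y = - y}` is finite-dimensional. The same with `C` replaced by `- C` (`J` by `- J`; hypotheses: `C ≠ - a` is used here; `(1/2) (1 + J) (B x) ∈ F x`): `{y | J y = y}` is finite-dimensional. `E` is the sum of the two.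
-/

set_option autoImplicit false

open Filter Topology

namespace Pool.Agent.Helper61.RO

universe u

variable {E : Type u} [NormedAddCommGroup E] [NormedSpace ℝ E] [CompleteSpace E]
  {w w' : Cx E →L[ℂ] Cx E} {M : ℕ} {p : ℤ → Cx E →L[ℂ] Cx E} {a b c C : E →L[ℝ] E}

theorem dec_full (hN : RNice E) (h : TT (gg E) w w') (hE : CExt (gg E) w w')
    (hs : Spec w w' M p) (ht : Tri w w' a b c) (haa : a * a = -1) : Dec0 a b c := by
  intro B hB
  obtain ⟨r, s, t, L, C, hL, hC, h1, h2, h3, h4⟩ := ext_decomp hN h hE hs ht hB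
  have hinj : ∀ x, a x = 0 → x = 0 := by
    intro x hx
    have h5 := congrArg (fun T : E →L[ℝ] E => T x) haa
    change a (a x) = -x at h5
    rw [hx, map_zero] at h5
    exact neg_eq_zero.1 h5.symm
  have hL0 : L = 0 := half_of_inj hN (rlie_gg hN) h hs ht hinj hL
  exact ⟨r, s, t, C, hC, h1, h2, h3, by rw [h4, hL0, add_zero]⟩

/-- one half of `fin_of_two`: the eigenspace `- 1` of `a C` -/
private theorem fd_half [TopologicalSpace.SeparableSpace E] (hN : RNice E) (htr : RTrans E)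
    (ha : Sk a) (hC : Sk C) (haa : a * a = -1) (hCC : C * C = -1) (hcomm : a * C = C * a)
    (hne : C ≠ a) (F : E → Submodule ℝ E) (hfin : ∀ x, FiniteDimensional ℝ (F x))
    (hF : ∀ x, a (C x) = x → ∀ B : E →L[ℝ] E, Sk B → B x - a (C (B x)) ∈ F x) :
    ∃ G : Submodule ℝ E, FiniteDimensional ℝ G ∧ ∀ y, a (C y) = -y → y ∈ G := by
  have eaa : ∀ y, a (a y) = -y := fun y => congrArg (fun T : E →L[ℝ] E => T y) haa
  have eCC : ∀ y, C (C y) = -y := fun y => congrArg (fun T : E →L[ℝ] E => T y) hCC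
  have eaC : ∀ y, a (C y) = C (a y) := fun y => congrArg (fun T : E →L[ℝ] E => T y) hcomm
  -- a fixed vector of `a C`
  obtain ⟨x, hx, hx0⟩ : ∃ x, a (C x) = x ∧ x ≠ 0 := by
    by_contra hcon
    push Not at hcon
    apply hne
    ext y
    have h1 : a (C (y + a (C y))) = y + a (C y) := by
      rw [map_add, map_add, ← eaC (C y), eCC, map_neg, map_neg, eaa, neg_neg]
      abel
    have h2 := hcon _ h1
    have h3 : a (y + a (C y)) = 0 := by rw [h2, map_zero]
    rw [map_add, eaa] at h3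
    have h4 : C y = a y := by
      have := eq_neg_of_add_eq_zero_left h3
      rw [neg_neg] at this
      exact this.symm
    exact h4
  have hfx := hfin x
  refine ⟨F x, hfx, fun y hy => ?_⟩
  have hDsk : Sk ((1 / 2 : ℝ) • (a + C)) := (ha.add hC).smul _
  have hDx : ((1 / 2 : ℝ) • (a + C)) x = 0 := by
    change (1 / 2 : ℝ) • (a x + C x) = 0
    have h1 : C x = -(a x) := by
      have h2 := eaa (C x)
      rw [hx] at h2
      rw [h2, neg_neg]
    rw [h1, add_neg_cancel, smul_zero]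
  have hDy : ((1 / 2 : ℝ) • (a + C)) (-(a y)) = y := by
    change (1 / 2 : ℝ) • (a (-(a y)) + C (-(a y))) = y
    rw [map_neg, map_neg, eaa, ← eaC, hy, neg_neg, ← two_smul ℝ y, smul_smul]
    norm_num
  have hclosed : IsClosed ((F x : Submodule ℝ E) : Set E) := Submodule.closed_of_finiteDimensional _
  have hmem : y ∈ closure ((F x : Submodule ℝ E) : Set E) := by
    rw [Metric.mem_closure_iff]
    intro ε hε
    obtain ⟨K, hK0, hK⟩ : ∃ K : ℝ, 0 < K ∧ ∀ z, ‖z - a (C z)‖ ≤ K * ‖z‖ := by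
      refine ⟨1 + ‖a‖ * ‖C‖, by positivity, fun z => ?_⟩
      have h1 : ‖a (C z)‖ ≤ ‖a‖ * (‖C‖ * ‖z‖) :=
        (a.le_opNorm _).trans (mul_le_mul_of_nonneg_left (C.le_opNorm z) (norm_nonneg a))
      calc ‖z - a (C z)‖ ≤ ‖z‖ + ‖a (C z)‖ := norm_sub_le _ _
        _ ≤ (1 + ‖a‖ * ‖C‖) * ‖z‖ := by nlinarith
    obtain ⟨B, hB, hBy⟩ := mem_closure_of_ker hN htr hx0 hDsk hDx (-(a y)) (ε := ε / K) (by positivity)
    rw [hDy] at hBy
    refine ⟨(1 / 2 : ℝ) • (B x - a (C (B x))), (F x).smul_mem _ (hF x hx B hB), ?_⟩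
    rw [dist_eq_norm]
    have h1 : y - (1 / 2 : ℝ) • (B x - a (C (B x))) =
        (1 / 2 : ℝ) • (-((B x - y) - a (C (B x - y)))) := by
      rw [map_sub, map_sub, hy]
      module
    rw [h1, norm_smul, norm_neg]
    have h2 := hK (B x - y)
    have h3 : K * ‖B x - y‖ < ε := by
      rw [lt_div_iff₀ hK0] at hBy
      linarith
    have h4 : ‖(1 / 2 : ℝ)‖ = 1 / 2 := by norm_num
    rw [h4]
    linarith
  rw [hclosed.closure_eq] at hmem
  exact hmem

theorem fin_of_two [TopologicalSpace.SeparableSpace E] (hN : RNice E) (htr : RTrans E)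
    (ha : Sk a) (hC : Sk C) (haa : a * a = -1) (hCC : C * C = -1) (hcomm : a * C = C * a)
    (hne : C ≠ a) (hne' : C ≠ -a) (F : E → Submodule ℝ E) (hfin : ∀ x, FiniteDimensional ℝ (F x))
    (hF : ∀ x, a (C x) = x → ∀ B : E →L[ℝ] E, Sk B → B x - a (C (B x)) ∈ F x)
    (hF' : ∀ x, a (C x) = -x → ∀ B : E →L[ℝ] E, Sk B → B x + a (C (B x)) ∈ F x) :
    FiniteDimensional ℝ E := by
  obtain ⟨G₁, hG₁, h₁⟩ := fd_half hN htr ha hC haa hCC hcomm hne F hfin hF
  obtain ⟨G₂, hG₂, h₂⟩ := fd_half (C := -C) hN htr ha hC.neg haa (by rw [neg_mul_neg, hCC])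
    (by rw [mul_neg, neg_mul, hcomm]) (fun h => hne' (by rw [← h, neg_neg])) F hfin (by
      intro x hx B hB
      change a (-(C x)) = x at hx
      rw [map_neg] at hx
      change B x - a (-(C (B x))) ∈ F x
      rw [map_neg, sub_neg_eq_add]
      exact hF' x (by rw [← hx, neg_neg, hx]) B hB)
  have eaa : ∀ y, a (a y) = -y := fun y => congrArg (fun T : E →L[ℝ] E => T y) haa
  have eCC : ∀ y, C (C y) = -y := fun y => congrArg (fun T : E →L[ℝ] E => T y) hCC
  have eaC : ∀ y, a (C y) = C (a y) := fun y => congrArg (fun T : E →L[ℝ] E => T y) hcomm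
  have eJ : ∀ y, a (C (a (C y))) = y := by
    intro y
    rw [← eaC (C y), eCC, map_neg, map_neg, eaa, neg_neg]
  have htop : G₁ ⊔ G₂ = ⊤ := by
    rw [eq_top_iff]
    intro y _
    have h1 : y = (1 / 2 : ℝ) • (y - a (C y)) + (1 / 2 : ℝ) • (y + a (C y)) := by module
    rw [h1]
    refine Submodule.add_mem_sup (G₁.smul_mem _ (h₁ _ ?_)) (G₂.smul_mem _ (h₂ _ ?_))
    · rw [map_sub, map_sub, eJ]
      abel
    · change a (-(C (y + a (C y)))) = -(y + a (C y))
      rw [map_neg, map_add, map_add, eJ]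
      abel
  have h3 : FiniteDimensional ℝ (G₁ ⊔ G₂ : Submodule ℝ E) := inferInstance
  rw [htop] at h3
  exact Module.Finite.of_surjective (Submodule.subtype (⊤ : Submodule ℝ E))
    (by
      intro y
      exact ⟨⟨y, trivial⟩, rfl⟩)

end Pool.Agent.Helper61.RO
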