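import Pool.Agent.Helper61.RO.MinOne
import Pool.Agent.Helper61.RO.FullDec

/-!
# RO-94  The triple with `a a = - 1`: non-abelian commutant

`𝔪 = {C | Sk C ∧ ∀ A ∈ {a, b, c}, A * C = C * A}`, `RLie 𝔪` (`rlie_cent (rlie_gg hN)`).
PROOF. `Dec0 a b c` (`hD`): every skew `B` is `m + C`, `m ∈ Mm`, `C ∈ 𝔪`; the decomposition is unique (`m ∈ Mm` commuting with `a`, `b`, `c` is `0`, `Su2.ad_ne` or `Quat` relations). For `Pr (hc (gg E)) k l` (`pr_hc`): `k = i cx P - cx Q`, `P`, `Q` skew, so `k = k₁ + k₂`, `k₁` in the complex span of `cx a, cx b, cx c` and `Pr (hc 𝔪) k₂ l₂`.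
`hT`: `TT 𝔪 w w'`: `w = i cx P - cx Q`, `P, Q ∈ 𝔪` commutes with `cx a`, `cx b`, `cx c`. `Pr (hc 𝔪)` implies `Pr (hc (gg E))`. `nil`: `lie w k = lie w k₂`, so `lie w (lie w (lie w k)) = lie w (lie w (lie w k₂)) = 0`.
`hC`: `CExt 𝔪 w w'`, `lie S k = 2 k` (`S = lie w w'` commutes with `cx a`, `cx b`, `cx c`): `lie S k₂ = 2 k₁ + 2 k₂`. `lie S k₂ - 2 k₂ = 2 k₁` has a star for `hc 𝔪` (`Pr.lie`, `Pr.smul`, `Pr.sub`), so `2 k₁` commutes with `cx a`, `cx b`, `cx c`; a complex combination of `cx a`, `cx b`, `cx c` commuting with them is `0`. So `k₁ = 0` and `k = k₂ = z w`.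
`min_one` for `𝔪`: the first two alternatives are fine. Third: `a', b', c' ∈ 𝔪` with `Quat a' b' c'`, `Ext a' b' c'`, `a' a' = - 1`, and `Dec0 a' b' c'` (`dec_full`). Every skew `B` is `m + C = m + m' + C'`, `m ∈ Mm a b c`, `m' ∈ Mm a' b' c'`, `C' = C - m'` commutes with `a, b, c` (as `C`, `m'` do) and with `a', b', c'`.
`fin_of_two` with `C := a'`, `J = a a'`, `F x = span` of the twelve vectors `a x, b x, c x, a' x, b' x, c' x` and their images under `J`: `J x = x` implies `J (C' x) = C' x`, so `B x - J (B x) = (m x + m' x) - J (m x + m' x) ∈ F x`; the same with `J x = - x`. `a' ≠ ± a` because `a'` commutes with `b`. So `E` is finite-dimensional, contradiction.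
-/

set_option autoImplicit false

open Filter Topology

namespace Pool.Agent.Helper61.RO

universe u

variable {E : Type u} [NormedAddCommGroup E] [NormedSpace ℝ E] [CompleteSpace E]
  [TopologicalSpace.SeparableSpace E] {a b c : E →L[ℝ] E}

/-! ### The commutant of the triple -/

/-- the skew operators commuting with the triple -/
private def Mc (a b c : E →L[ℝ] E) : Set (E →L[ℝ] E) :=
  {D | D ∈ gg E ∧ ∀ A ∈ ({a, b, c} : Set (E →L[ℝ] E)), A * D = D * A}

private theorem mem_Mc {D : E →L[ℝ] E} (hD : Sk D) (h1 : a * D = D * a) (h2 : b * D = D * b)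
    (h3 : c * D = D * c) : D ∈ Mc a b c := by
  refine ⟨hD, fun A hA => ?_⟩
  rcases hA with rfl | rfl | rfl
  · exact h1
  · exact h2
  · exact h3

private theorem Mc_comm {D : E →L[ℝ] E} (hD : D ∈ Mc a b c) :
    a * D = D * a ∧ b * D = D * b ∧ c * D = D * c :=
  ⟨hD.2 a (by simp), hD.2 b (by simp), hD.2 c (by simp)⟩

/-- elements of the complexification of the commutant commute with the triple -/
private theorem pr_comm {k l : Cx E →L[ℂ] Cx E} (hk : HP.Pr (hc (Mc a b c)) k l) :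
    cx a * k = k * cx a ∧ cx b * k = k * cx b ∧ cx c * k = k * cx c := by
  obtain ⟨P, hP, Q, hQ, rfl, -⟩ := pr_hc.1 hk
  have h1 : ∀ A : E →L[ℝ] E, A * P = P * A → A * Q = Q * A →
      cx A * (Complex.I • cx P - cx Q) = (Complex.I • cx P - cx Q) * cx A := by
    intro A h1 h2
    rw [mul_sub, sub_mul, mul_smul_comm, smul_mul_assoc, ← cx_mul, ← cx_mul, ← cx_mul, ← cx_mul,
      h1, h2]
  obtain ⟨p1, p2, p3⟩ := Mc_comm hP
  obtain ⟨q1, q2, q3⟩ := Mc_comm hQ
  exact ⟨h1 a p1 q1, h1 b p2 q2, h1 c p3 q3⟩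

private theorem pr_mono {k l : Cx E →L[ℂ] Cx E} (hk : HP.Pr (hc (Mc a b c)) k l) :
    HP.Pr (hc (gg E)) k l := by
  obtain ⟨P, hP, Q, hQ, h1, h2⟩ := pr_hc.1 hk
  exact pr_hc.2 ⟨P, hP.1, Q, hQ.1, h1, h2⟩

/-- complex combinations of the triple commuting with it are zero -/
private theorem comb_zero {R : Type*} [Ring R] [Algebra ℂ R] {A B C : R} (hA : A ≠ 0) (hC : C ≠ 0)
    (hAB : A * B = C) (hBC : B * C = A) (hCA : C * A = B) (hBA : B * A = -C) (hCB : C * B = -A)
    (hAC : A * C = -B) {x y z : ℂ}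
    (h1 : A * (x • A + y • B + z • C) = (x • A + y • B + z • C) * A)
    (h2 : B * (x • A + y • B + z • C) = (x • A + y • B + z • C) * B) :
    x = 0 ∧ y = 0 ∧ z = 0 := by
  have e1 : (2 * y) • C = (2 * z) • B := by
    simp only [mul_add, add_mul, mul_smul_comm, smul_mul_assoc, hAB, hAC, hBA, hCA, smul_neg] at h1
    have : (2 * y) • C - (2 * z) • B = (x • (A * A) + y • C + -(z • B)) -
        (x • (A * A) + -(y • C) + z • B) := by
      module
    rw [h1, sub_self] at this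
    exact sub_eq_zero.1 this
  have e2 : (2 * z) • A = (2 * x) • C := by
    simp only [mul_add, add_mul, mul_smul_comm, smul_mul_assoc, hAB, hBC, hBA, hCB, smul_neg] at h2
    have : (2 * z) • A - (2 * x) • C = (-(x • C) + y • (B * B) + z • A) -
        (x • C + y • (B * B) + -(z • A)) := by
      module
    rw [h2, sub_self] at this
    exact sub_eq_zero.1 this
  have hy : y = 0 := by
    have h3 : (2 * y) • (C * B - B * C) = 0 := by
      rw [smul_sub, ← smul_mul_assoc, ← mul_smul_comm, e1, smul_mul_assoc, mul_smul_comm, sub_self]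
    rw [hBC, hCB] at h3
    have h4 : (4 * y) • A = 0 := by
      have : (4 * y) • A = -((2 * y) • (-A - A)) := by module
      rw [this, h3, neg_zero]
    rcases smul_eq_zero.1 h4 with h5 | h5
    · simpa using h5
    · exact absurd h5 hA
  have hB : B ≠ 0 := by
    intro hB
    exact hA (by rw [← hBC, hB, zero_mul])
  have hz : z = 0 := by
    rw [hy, mul_zero, zero_smul] at e1
    rcases smul_eq_zero.1 e1.symm with h5 | h5
    · simpa using h5
    · exact absurd h5 hB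
  have hx : x = 0 := by
    rw [hz, mul_zero, zero_smul] at e2
    rcases smul_eq_zero.1 e2.symm with h5 | h5
    · simpa using h5
    · exact absurd h5 hC
  exact ⟨hx, hy, hz⟩

/-- decomposition of the complexification of the skew operators -/
private theorem pr_dec (hD : Dec0 a b c) {k l : Cx E →L[ℂ] Cx E} (hk : HP.Pr (hc (gg E)) k l) :
    ∃ (x y z : ℂ) (k₂ l₂ : Cx E →L[ℂ] Cx E), HP.Pr (hc (Mc a b c)) k₂ l₂ ∧
      k = (x • cx a + y • cx b + z • cx c) + k₂ := by
  obtain ⟨P, hP, Q, hQ, rfl, -⟩ := pr_hc.1 hk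
  obtain ⟨r, s, t, C, hC, h1, h2, h3, rfl⟩ := hD P hP
  obtain ⟨r', s', t', C', hC', h1', h2', h3', rfl⟩ := hD Q hQ
  refine ⟨Complex.I * r - r', Complex.I * s - s', Complex.I * t - t', Complex.I • cx C - cx C',
    Complex.I • cx C + cx C', pr_hc.2 ⟨C, mem_Mc hC h1 h2 h3, C', mem_Mc hC' h1' h2' h3', rfl, rfl⟩,
    ?_⟩
  simp only [cx_add, cx_smul]
  module

private theorem lie_comm {k A B C : Cx E →L[ℂ] Cx E} {x y z : ℂ} (w : Cx E →L[ℂ] Cx E)
    (h1 : A * w = w * A) (h2 : B * w = w * B) (h3 : C * w = w * C) :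
    HP.lie w ((x • A + y • B + z • C) + k) = HP.lie w k := by
  unfold HP.lie
  have e : w * (x • A + y • B + z • C) = (x • A + y • B + z • C) * w := by
    simp only [mul_add, add_mul, mul_smul_comm, smul_mul_assoc, h1, h2, h3]
  rw [mul_add, add_mul, e]
  abel

private theorem hT_aux (hD : Dec0 a b c) (w w' : Cx E →L[ℂ] Cx E)
    (hw : TT (Mc a b c) w w') : TT (gg E) w w' := by
  obtain ⟨c1, c2, c3⟩ := pr_comm hw.pr
  refine ⟨pr_mono hw.pr, hw.ne, hw.tri, fun k l hk => ?_⟩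
  obtain ⟨x, y, z, k₂, l₂, hk₂, rfl⟩ := pr_dec hD hk
  rw [lie_comm w c1 c2 c3]
  exact hw.nil k₂ l₂ hk₂

private theorem hC_aux (hN : RNice E) (h : Quat a b c) (hD : Dec0 a b c)
    (w w' : Cx E →L[ℂ] Cx E) (hw : TT (Mc a b c) w w') (hE : CExt (Mc a b c) w w') :
    CExt (gg E) w w' := by
  have h𝔪 : RLie (Mc a b c) := rlie_cent (rlie_gg hN) _
  have hh := hlie_hc hN h𝔪
  have hS := (hw.mem hN h𝔪).2
  obtain ⟨c1, c2, c3⟩ := pr_comm hS
  intro k l hk hSk
  obtain ⟨x, y, z, k₂, l₂, hk₂, rfl⟩ := pr_dec hD hk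
  rw [lie_comm _ c1 c2 c3] at hSk
  have h1 := HP.Pr.sub hh (HP.Pr.lie hh hS hk₂) (HP.Pr.smul hh hk₂ (2 : ℂ))
  have h2 : HP.lie (HP.lie w w') k₂ - (2 : ℂ) • k₂ =
      (2 * x) • cx a + (2 * y) • cx b + (2 * z) • cx c := by
    rw [hSk]
    module
  rw [h2] at h1
  obtain ⟨d1, d2, -⟩ := pr_comm h1
  have hane : cx a ≠ 0 := fun h0 => h.ne (cx_inj (by rw [h0, cx_zero]))
  have hcne : cx c ≠ 0 := fun h0 => h.cyc.cyc.ne (cx_inj (by rw [h0, cx_zero]))
  obtain ⟨hx, hy, hz⟩ := comb_zero hane hcne (by rw [← cx_mul, h.ab]) (by rw [← cx_mul, h.bc])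
    (by rw [← cx_mul, h.ca]) (by rw [← cx_mul, h.ba, cx_neg]) (by rw [← cx_mul, h.cb, cx_neg])
    (by rw [← cx_mul, h.ac, cx_neg]) d1 d2
  have hx' : x = 0 := by simpa using hx
  have hy' : y = 0 := by simpa using hy
  have hz' : z = 0 := by simpa using hz
  rw [hx', hy', hz', zero_smul, zero_smul, zero_smul, add_zero, add_zero, zero_add] at hSk ⊢
  exact hE k₂ l₂ hk₂ hSk

/-! ### The twelve vectors -/

private def Gs (a b c a' b' c' : E →L[ℝ] E) (x : E) : Submodule ℝ E :=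
  Submodule.span ℝ ({a x, b x, c x, a' x, b' x, c' x} : Set E)

private def Fs (a b c a' b' c' : E →L[ℝ] E) (x : E) : Submodule ℝ E :=
  Gs a b c a' b' c' x ⊔ (Gs a b c a' b' c' x).map ((a * a' : E →L[ℝ] E) : E →ₗ[ℝ] E)

private theorem Gs_fin (a b c a' b' c' : E →L[ℝ] E) (x : E) :
    FiniteDimensional ℝ (Gs a b c a' b' c' x) :=
  FiniteDimensional.span_of_finite ℝ (Set.toFinite _)

private theorem Fs_fin (a b c a' b' c' : E →L[ℝ] E) (x : E) :
    FiniteDimensional ℝ (Fs a b c a' b' c' x) := by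
  have h1 := Gs_fin a b c a' b' c' x
  unfold Fs
  infer_instance

private theorem Gs_mem (a b c a' b' c' : E →L[ℝ] E) (x : E) (r s t r' s' t' : ℝ) :
    (r • a + s • b + t • c + (r' • a' + s' • b' + t' • c')) x ∈ Gs a b c a' b' c' x := by
  have h1 : ∀ v ∈ ({a x, b x, c x, a' x, b' x, c' x} : Set E), v ∈ Gs a b c a' b' c' x :=
    fun v hv => Submodule.subset_span hv
  have e : (r • a + s • b + t • c + (r' • a' + s' • b' + t' • c')) x =
      r • a x + s • b x + t • c x + (r' • a' x + s' • b' x + t' • c' x) := rfl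
  rw [e]
  refine Submodule.add_mem _ (Submodule.add_mem _ (Submodule.add_mem _ ?_ ?_) ?_)
    (Submodule.add_mem _ (Submodule.add_mem _ ?_ ?_) ?_)
  all_goals exact Submodule.smul_mem _ _ (h1 _ (by simp))

private theorem Fs_mem {a b c a' b' c' : E →L[ℝ] E} {x u v : E}
    (hu : u ∈ Gs a b c a' b' c' x) (hv : v ∈ Gs a b c a' b' c' x) :
    u + a (a' v) ∈ Fs a b c a' b' c' x :=
  Submodule.add_mem_sup hu ⟨v, hv, rfl⟩

private theorem nab_dec_two {a' b' c' : E →L[ℝ] E} (hD : Dec0 a b c) (hD' : Dec0 a' b' c')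
    (h1 : a * a' = a' * a) (h2 : a * b' = b' * a) (h3 : a * c' = c' * a) {B : E →L[ℝ] E}
    (hB : Sk B) : ∃ (r s t r' s' t' : ℝ) (K : E →L[ℝ] E), a * K = K * a ∧ a' * K = K * a' ∧
      B = r • a + s • b + t • c + (r' • a' + s' • b' + t' • c') + K := by
  obtain ⟨r, s, t, C, hC, c1, -, -, rfl⟩ := hD B hB
  obtain ⟨r', s', t', K, -, k1, -, -, rfl⟩ := hD' C hC
  refine ⟨r, s, t, r', s', t', K, ?_, k1, by abel⟩
  have e : a * (r' • a' + s' • b' + t' • c') = (r' • a' + s' • b' + t' • c') * a := by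
    simp only [mul_add, add_mul, mul_smul_comm, smul_mul_assoc, h1, h2, h3]
  rw [mul_add, add_mul, e] at c1
  exact add_left_cancel c1

private theorem nab_app_comm {A B : E →L[ℝ] E} (h : A * B = B * A) (x : E) : A (B x) = B (A x) := by
  have := congrArg (fun T : E →L[ℝ] E => T x) h
  exact this

private theorem fin_two (hN : RNice E) (htr : RTrans E) {a' b' c' : E →L[ℝ] E}
    (h : Quat a b c) (hD : Dec0 a b c) (haa : a * a = -1) (h' : Quat a' b' c')
    (hD' : Dec0 a' b' c') (haa' : a' * a' = -1) (h1 : a * a' = a' * a) (h2 : a * b' = b' * a)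
    (h3 : a * c' = c' * a) (h4 : b * a' = a' * b) : FiniteDimensional ℝ E := by
  have hcne : c ≠ 0 := h.cyc.cyc.ne
  have hc2 : ¬ (-c = c) := by
    intro h0
    have h5 : (2 : ℝ) • c = 0 := by
      rw [two_smul]
      nth_rewrite 1 [← h0]
      exact neg_add_cancel c
    rcases smul_eq_zero.1 h5 with h6 | h6
    · norm_num at h6
    · exact hcne h6
  have hne : a' ≠ a := by
    intro h0
    rw [h0, h.ba, h.ab] at h4
    exact hc2 h4
  have hne' : a' ≠ -a := by
    intro h0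
    rw [h0, mul_neg, neg_mul, h.ba, h.ab, neg_neg] at h4
    exact hc2 h4.symm
  refine fin_of_two hN htr h.ska h'.ska haa haa' h1 hne hne' (Fs a b c a' b' c')
    (Fs_fin a b c a' b' c') ?_ ?_
  · intro x hx B hB
    obtain ⟨r, s, t, r', s', t', K, k1, k2, rfl⟩ := nab_dec_two hD hD' h1 h2 h3 hB
    set m : E →L[ℝ] E := r • a + s • b + t • c + (r' • a' + s' • b' + t' • c') with hm
    have hmx : m x ∈ Gs a b c a' b' c' x := Gs_mem a b c a' b' c' x r s t r' s' t'
    have e1 : (m + K) x = m x + K x := rfl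
    have e2 : a (a' (K x)) = K x := by
      rw [nab_app_comm k2, nab_app_comm k1, hx]
    have e3 : (m + K) x - a (a' ((m + K) x)) = m x + a (a' (-(m x))) := by
      rw [e1, map_add, map_add, e2, map_neg, map_neg]
      abel
    rw [e3]
    exact Fs_mem hmx (Submodule.neg_mem _ hmx)
  · intro x hx B hB
    obtain ⟨r, s, t, r', s', t', K, k1, k2, rfl⟩ := nab_dec_two hD hD' h1 h2 h3 hB
    set m : E →L[ℝ] E := r • a + s • b + t • c + (r' • a' + s' • b' + t' • c') with hm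
    have hmx : m x ∈ Gs a b c a' b' c' x := Gs_mem a b c a' b' c' x r s t r' s' t'
    have e1 : (m + K) x = m x + K x := rfl
    have e2 : a (a' (K x)) = -(K x) := by
      rw [nab_app_comm k2, nab_app_comm k1, hx, map_neg]
    have e3 : (m + K) x + a (a' ((m + K) x)) = m x + a (a' (m x)) := by
      rw [e1, map_add, map_add, e2]
      abel
    rw [e3]
    exact Fs_mem hmx hmx

theorem out_of_nonabelian (hN : RNice E) (htr : RTrans E) (hinf : ¬ FiniteDimensional ℝ E)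
    (h : Quat a b c) (hD : Dec0 a b c) (haa : a * a = -1)
    (hnab : ∃ C : E →L[ℝ] E, Sk C ∧ (∀ X ∈ Mm a b c, X * C = C * X) ∧ ∃ C' : E →L[ℝ] E,
      Sk C' ∧ (∀ X ∈ Mm a b c, X * C' = C' * X) ∧ C * C' ≠ C' * C) : OutA E ∨ OutC E := by
  have h𝔪 : RLie (Mc a b c) := rlie_cent (rlie_gg hN) _
  have ma : a ∈ Mm a b c := ⟨1, 0, 0, by simp⟩
  have mb : b ∈ Mm a b c := ⟨0, 1, 0, by simp⟩
  have mc : c ∈ Mm a b c := ⟨0, 0, 1, by simp⟩
  have hnab' : ∃ A ∈ Mc a b c, ∃ B ∈ Mc a b c, A * B ≠ B * A := by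
    obtain ⟨C, hC, hC1, C', hC', hC1', hne⟩ := hnab
    exact ⟨C, mem_Mc hC (hC1 a ma) (hC1 b mb) (hC1 c mc), C',
      mem_Mc hC' (hC1' a ma) (hC1' b mb) (hC1' c mc), hne⟩
  rcases min_one hN htr hinf h𝔪 (hT_aux hD) (hC_aux hN h hD) hnab' with h1 | h1 | h1
  · exact Or.inl h1
  · exact Or.inr h1
  · exfalso
    obtain ⟨w, w', p, a', b', c', hTT, hCE, hs, ht, ha', hb', hc', hq, -, haa'⟩ := h1
    have hD' : Dec0 a' b' c' := dec_full hN hTT hCE hs ht haa'
    obtain ⟨p1, p2, -⟩ := Mc_comm ha'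
    exact hinf (fin_two hN htr h hD haa hq hD' haa' p1 (Mc_comm hb').1 (Mc_comm hc').1 p2)

end Pool.Agent.Helper61.RO
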