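import Pool.Agent.Helper61.RO.QuatApi

/-!
# RO-43  Off-diagonal skew operators of a cub

`D` a cub, `F` = its block (`D (D f) = - f`), `K = ker D`, `p = - D D`, `q = 1 + D D`.

PROOFS.
* `lo_part`: `s = 1 + 2 D D` is an isometric involution (`Cub3.norm_refl`, `Cub3.proj`), `B - s B s` is skew (`Sk.conj_inv`) and equals `2 (p B q + q B p)`. The norm of
  `u = (1/2) (B - s B s)` is `≤ ‖B‖`. For `x ∈ K`: `u x = p (B x) = - D (D (B x))`; for `f ∈ F`: `u f = q (B f)`.
* `lo_ker_map`: `x ∈ K`, `u ∈ Lo D`: `u x = p (u x)`, so `D (D (u x)) = - u x`. `lo_blk_map`: `f ∈ F`: `D (u f) = 0`.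
* `lo_cj`: `cj V D = D` (`V` commutes with `D`).
* `lo_br`: `x ∈ K`: `D ((u v - v u) x) = 0`; `br u v` skew.
* `lo_complete`: a series `∑ u n` of elements of `Lo D` with `‖u n‖ ≤ M 2^(-n)` converges in norm to an element of `Lo D` of norm `≤ 2 M` (`sk_closed`).
* `exact_of_approx`: let `x ∈ K`, and for every `f ∈ F` there is `u ∈ Lo D` with `‖u‖ ≤ M ‖f‖`, `‖u x - f‖ ≤ ‖f‖ / 2`. Then every `f ∈ F` is `u x`, `‖u‖ ≤ 2 M ‖f‖`: `f 0 = f`,
  `u n` for `f n`, `f (n+1) = f n - u n x ∈ F`.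
* `exact_of_approx_dual`: let `r` be a unit vector of `K`, and for every `φ` there is `u ∈ Lo D` with `‖u‖ ≤ M ‖φ‖` and `|dj r (u f) - φ f| ≤ ‖φ‖ ‖f‖ / 2` for `f ∈ F`. Then for every `φ` there
  is `u ∈ Lo D`, `‖u‖ ≤ 2 M ‖φ‖`, `dj r (u f) = φ f` for `f ∈ F`: `φ (n+1) z = φ n (p z) - dj r (u n (p z))`, `‖φ (n+1)‖ ≤ ‖φ n‖ / 2` (`‖p z‖ ≤ ‖z‖`).
* `dj_ker_of`: `D` skew, `dj r (D v) = 0` for all `v`, `‖r‖ = 1`: `dj (rx t D r) (rx t D v) = dj r v` and `dj r (rx t D v) = dj r v` (derivative `0`), so `dj (rx t D r) = dj r` on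
  all vectors `rx t D v`, `rx t D r = r` (`dj_unif_inv`), `D r = 0` (derivative).
-/

set_option autoImplicit false

open Filter Topology

namespace Pool.Agent.Helper61.RO

universe u

variable {E : Type u} [NormedAddCommGroup E] [NormedSpace ℝ E] [CompleteSpace E]
  {D B u v : E →L[ℝ] E} {x f r : E} {M : ℝ}

private theorem lo_apply (hu : u ∈ Lo D) (y : E) :
    u y = -(D (D (u (y + D (D y))))) - (u (D (D y)) + D (D (u (D (D y))))) := by
  have h1 := congrArg (fun A : E →L[ℝ] E => A y) hu.2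
  exact h1

private theorem mem_lo (hu : Sk u)
    (h : ∀ y, u y = -(D (D (u (y + D (D y))))) - (u (D (D y)) + D (D (u (D (D y)))))) :
    u ∈ Lo D :=
  ⟨hu, ContinuousLinearMap.ext h⟩

private theorem cub_four (hD : Cub3 D) (y : E) : D (D (D (D y))) = -(D (D y)) := by
  have h1 := congrArg (fun A : E →L[ℝ] E => A y) hD.proj
  exact h1

theorem lo_part (hD : Cub3 D) (hB : Sk B) :
    ∃ u ∈ Lo D, ‖u‖ ≤ ‖B‖ ∧ (∀ x, D x = 0 → u x = -(D (D (B x)))) ∧
      ∀ f, D (D f) = -f → u f = B f + D (D (B f)) := by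
  obtain ⟨S, hS⟩ : ∃ S : E →L[ℝ] E, S = 1 + (2 : ℝ) • (D * D) := ⟨_, rfl⟩
  have hSa : ∀ y, S y = y + (2 : ℝ) • D (D y) := by
    intro y
    rw [hS]
    rfl
  have hSn : ∀ y, ‖S y‖ = ‖y‖ := by
    intro y
    rw [hSa]
    exact hD.norm_refl y
  have hSS : S * S = 1 := by
    ext y
    have e : (S * S) y = S (S y) := rfl
    have e1 : (1 : E →L[ℝ] E) y = y := rfl
    rw [e, e1, hSa (S y), hSa y]
    simp only [map_add, map_smul, cub_four hD]
    module
  obtain ⟨u, hu⟩ : ∃ u : E →L[ℝ] E, u = (1 / 2 : ℝ) • (B - S * B * S) := ⟨_, rfl⟩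
  have hua0 : ∀ y, u y = (1 / 2 : ℝ) • (B y - S (B (S y))) := by
    intro y
    rw [hu]
    rfl
  have hua : ∀ y, u y = -(D (D (B y))) - B (D (D y)) - (2 : ℝ) • D (D (B (D (D y)))) := by
    intro y
    rw [hua0, hSa (B (S y)), hSa y]
    simp only [map_add, map_smul]
    module
  refine ⟨u, mem_lo ?_ ?_, ?_, ?_, ?_⟩
  · rw [hu]
    exact (hB.sub (hB.conj_inv hSS hSn)).smul _
  · intro y
    rw [hua (y + D (D y)), hua (D (D y)), hua y]
    simp only [map_add, map_smul, map_sub, map_neg, cub_four hD]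
    module
  · refine ContinuousLinearMap.opNorm_le_bound _ (norm_nonneg _) fun y => ?_
    rw [hua0, norm_smul, Real.norm_eq_abs, abs_of_pos (by norm_num : (0 : ℝ) < 1 / 2)]
    have h1 := norm_sub_le (B y) (S (B (S y)))
    have h2 := B.le_opNorm y
    have h3 : ‖S (B (S y))‖ ≤ ‖B‖ * ‖y‖ := by
      rw [hSn, ← hSn y]
      exact B.le_opNorm _
    linarith
  · intro x hx
    rw [hua, hx]
    simp only [map_zero, sub_zero, smul_zero]
  · intro f hf
    rw [hua, hf]
    simp only [map_neg]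
    module

theorem lo_ker_map (hD : Cub3 D) (hu : u ∈ Lo D) (hx : D x = 0) : D (D (u x)) = -(u x) := by
  have h1 := lo_apply hu x
  rw [hx, map_zero, add_zero, map_zero, map_zero, map_zero, add_zero, sub_zero] at h1
  rw [h1, map_neg, map_neg, cub_four hD]

theorem lo_blk_map (hD : Cub3 D) (hu : u ∈ Lo D) (hf : D (D f) = -f) : D (u f) = 0 := by
  have h1 := lo_apply hu f
  rw [hf, add_neg_cancel, map_zero, map_zero, map_zero, neg_zero, zero_sub, map_neg, map_neg,
    map_neg, ← neg_add, neg_neg] at h1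
  refine hD.sk.ker_sq ?_
  exact left_eq_add.1 h1

theorem lo_add (hu : u ∈ Lo D) (hv : v ∈ Lo D) : u + v ∈ Lo D := by
  refine mem_lo (hu.1.add hv.1) fun y => ?_
  have e : ∀ z, (u + v) z = u z + v z := fun _ => rfl
  rw [e, e, e]
  simp only [map_add]
  have h1 := lo_apply hu y
  have h2 := lo_apply hv y
  simp only [map_add] at h1 h2
  calc u y + v y = _ + _ := by rw [h1, h2]
    _ = _ := by abel

theorem lo_smul (hu : u ∈ Lo D) (t : ℝ) : t • u ∈ Lo D := by
  refine mem_lo (hu.1.smul t) fun y => ?_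
  have e : ∀ z, (t • u) z = t • u z := fun _ => rfl
  rw [e, e, e]
  simp only [map_smul]
  have h1 := lo_apply hu y
  calc t • u y = t • _ := by rw [h1]
    _ = _ := by module

theorem lo_sub (hu : u ∈ Lo D) (hv : v ∈ Lo D) : u - v ∈ Lo D := by
  have h := lo_add hu (lo_smul hv (-1))
  rwa [neg_one_smul, ← sub_eq_add_neg] at h

theorem lo_zero : (0 : E →L[ℝ] E) ∈ Lo D := by
  refine mem_lo Sk.zero fun y => ?_
  have e : ∀ z, (0 : E →L[ℝ] E) z = 0 := fun _ => rfl
  rw [e, e, e]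
  simp only [map_zero, neg_zero, add_zero, sub_zero]

theorem lo_cj {V : E ≃ₗᵢ[ℝ] E} (hV : cj V D = D) (hu : u ∈ Lo D) : cj V u ∈ Lo D := by
  have hc : ∀ z, V (D z) = D (V z) := by
    intro z
    have h1 := congrArg (fun A : E →L[ℝ] E => A (V z)) hV
    have h2 : V (D (V.symm (V z))) = D (V z) := h1
    rwa [V.symm_apply_apply] at h2
  have hc' : ∀ z, V.symm (D z) = D (V.symm z) := by
    intro z
    apply V.injective
    rw [V.apply_symm_apply, hc, V.apply_symm_apply]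
  refine mem_lo (hu.1.cj V) fun y => ?_
  rw [cj_apply, cj_apply, cj_apply, lo_apply hu (V.symm y)]
  simp only [map_sub, map_neg, map_add, hc, hc']

theorem lo_br (hD : Cub3 D) (hu : u ∈ Lo D) (hv : v ∈ Lo D) (hx : D x = 0) :
    D (u (v x) - v (u x)) = 0 := by
  rw [map_sub, lo_blk_map hD hu (lo_ker_map hD hv hx), lo_blk_map hD hv (lo_ker_map hD hu hx),
    sub_zero]

private theorem lo_complete (hN : RNice E) {w : ℕ → E →L[ℝ] E} {C : ℝ}
    (hw : ∀ n, w n ∈ Lo D) (hb : ∀ n, ‖w n‖ ≤ C * (1 / 2) ^ n) :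
    ∃ u ∈ Lo D, ‖u‖ ≤ 2 * C ∧ Tendsto (fun n => ∑ i ∈ Finset.range n, w i) atTop (𝓝 u) := by
  have hsum : HasSum (fun n : ℕ => C * (1 / 2 : ℝ) ^ n) (2 * C) := by
    have h1 := hasSum_geometric_two.mul_left C
    rwa [mul_comm C 2] at h1
  have hs : Summable w := Summable.of_norm_bounded hsum.summable hb
  have ht := hs.hasSum.tendsto_sum_nat
  have hmem : ∀ n, (∑ i ∈ Finset.range n, w i) ∈ Lo D := by
    intro n
    induction n with
    | zero =>
      rw [Finset.sum_range_zero]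
      exact lo_zero
    | succ n ih =>
      rw [Finset.sum_range_succ]
      exact lo_add ih (hw n)
  refine ⟨∑' n, w n, ⟨sk_closed hN (fun n => (hmem n).1) ht, ?_⟩,
    tsum_of_norm_bounded hsum hb, ht⟩
  have h2 := ((ht.const_mul (-(D * D))).mul_const (1 + D * D)).sub
    ((ht.const_mul (1 + D * D)).mul_const (D * D))
  exact tendsto_nhds_unique ht (h2.congr fun n => (hmem n).2.symm)

theorem exact_of_approx (hN : RNice E) (hD : Cub3 D) (hx : D x = 0)
    (h : ∀ f, D (D f) = -f → ∃ u ∈ Lo D, ‖u‖ ≤ M * ‖f‖ ∧ ‖u x - f‖ ≤ ‖f‖ / 2)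
    (hf : D (D f) = -f) : ∃ u ∈ Lo D, u x = f ∧ ‖u‖ ≤ 2 * M * ‖f‖ := by
  by_cases hf0 : f = 0
  · refine ⟨0, lo_zero, ?_, ?_⟩
    · rw [hf0]
      rfl
    · rw [hf0, norm_zero, norm_zero, mul_zero]
  have hM : 0 ≤ M := by
    obtain ⟨u, _, hu, _⟩ := h f hf
    by_contra hc
    push Not at hc
    have h1 := norm_nonneg u
    have h2 : M * ‖f‖ < 0 := mul_neg_of_neg_of_pos hc (norm_pos_iff.2 hf0)
    linarith
  choose U hU1 hU2 hU3 using h
  let step : {g : E // D (D g) = -g} → {g : E // D (D g) = -g} := fun g =>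
    ⟨g.1 - U g.1 g.2 x, by
      rw [map_sub, map_sub, g.2, lo_ker_map hD (hU1 g.1 g.2) hx, neg_sub_neg, neg_sub]⟩
  let s : ℕ → {g : E // D (D g) = -g} := fun n => step^[n] ⟨f, hf⟩
  have hs0 : (s 0).1 = f := rfl
  have hs1 : ∀ n, (s (n + 1)).1 = (s n).1 - U (s n).1 (s n).2 x := by
    intro n
    have e : s (n + 1) = step (s n) := Function.iterate_succ_apply' step n _
    rw [e]
  have hsn : ∀ n, ‖(s n).1‖ ≤ ‖f‖ * (1 / 2) ^ n := by
    intro n
    induction n with
    | zero => rw [hs0, pow_zero, mul_one]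
    | succ n ih =>
      rw [hs1, norm_sub_rev, pow_succ]
      have h1 := hU3 (s n).1 (s n).2
      linarith
  obtain ⟨u, hu, hun, hut⟩ := lo_complete (D := D) hN (w := fun n => U (s n).1 (s n).2)
    (C := M * ‖f‖) (fun n => hU1 _ _) (fun n => by
      refine (hU2 _ _).trans ?_
      rw [mul_assoc]
      exact mul_le_mul_of_nonneg_left (hsn n) hM)
  refine ⟨u, hu, ?_, ?_⟩
  · have h1 : Tendsto (fun n => (∑ i ∈ Finset.range n, U (s i).1 (s i).2) x) atTop (𝓝 (u x)) :=
      ((ContinuousLinearMap.apply ℝ E x).continuous.tendsto u).comp hut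
    have h2 : ∀ n, (∑ i ∈ Finset.range n, U (s i).1 (s i).2) x = f - (s n).1 := by
      intro n
      induction n with
      | zero =>
        rw [Finset.sum_range_zero, hs0, sub_self]
        rfl
      | succ n ih =>
        rw [Finset.sum_range_succ, hs1, add_apply, ih]
        abel
    have h3 : Tendsto (fun n => (s n).1) atTop (𝓝 0) := by
      have h4 : Tendsto (fun n : ℕ => ‖f‖ * (1 / 2 : ℝ) ^ n) atTop (𝓝 0) := by
        have h5 := (tendsto_pow_atTop_nhds_zero_of_lt_one (r := (1 / 2 : ℝ)) (by norm_num)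
          (by norm_num)).const_mul ‖f‖
        rwa [mul_zero] at h5
      exact squeeze_zero_norm hsn h4
    have h6 : Tendsto (fun n => f - (s n).1) atTop (𝓝 f) := by
      have h7 := h3.const_sub f
      rwa [sub_zero] at h7
    exact tendsto_nhds_unique (h1.congr h2) h6
  · rw [mul_assoc]
    exact hun

theorem exact_of_approx_dual (hN : RNice E) (hD : Cub3 D) (hr : D r = 0)
    (h : ∀ φ : StrongDual ℝ E, ∃ u ∈ Lo D, ‖u‖ ≤ M * ‖φ‖ ∧
      ∀ f, D (D f) = -f → |dj r (u f) - φ f| ≤ ‖φ‖ * ‖f‖ / 2) (φ : StrongDual ℝ E) :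
    ∃ u ∈ Lo D, (∀ f, D (D f) = -f → dj r (u f) = φ f) ∧ ‖u‖ ≤ 2 * M * ‖φ‖ := by
  by_cases hf0 : φ = 0
  · refine ⟨0, lo_zero, ?_, ?_⟩
    · intro f _
      rw [hf0]
      have e : (0 : E →L[ℝ] E) f = 0 := rfl
      rw [e, map_zero]
      rfl
    · rw [hf0, norm_zero, norm_zero, mul_zero]
  have hM : 0 ≤ M := by
    obtain ⟨u, _, hu, _⟩ := h φ
    by_contra hc
    push Not at hc
    have h1 := norm_nonneg u
    have h2 : M * ‖φ‖ < 0 := mul_neg_of_neg_of_pos hc (norm_pos_iff.2 hf0)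
    linarith
  choose U hU1 hU2 hU3 using h
  let step : StrongDual ℝ E → StrongDual ℝ E := fun ψ =>
    (ψ - (dj r).comp (U ψ)).comp (-(D * D))
  have hstep : ∀ ψ z, step ψ z = ψ (-(D (D z))) - dj r (U ψ (-(D (D z)))) := fun _ _ => rfl
  have hstepb : ∀ ψ f, D (D f) = -f → step ψ f = ψ f - dj r (U ψ f) := by
    intro ψ f hf
    rw [hstep, hf, neg_neg]
  have hstepn : ∀ ψ, ‖step ψ‖ ≤ ‖ψ‖ / 2 := by
    intro ψ
    refine ContinuousLinearMap.opNorm_le_bound _ (by positivity) fun z => ?_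
    rw [hstep, Real.norm_eq_abs, abs_sub_comm]
    have h1 := hU3 ψ (-(D (D z))) (by
      simp only [map_neg, cub_four hD])
    have h2 : ‖-(D (D z))‖ ≤ ‖z‖ := by
      rw [norm_neg]
      exact (hD.norm_proj_le z).1
    have h3 : ‖ψ‖ * ‖-(D (D z))‖ ≤ ‖ψ‖ * ‖z‖ := mul_le_mul_of_nonneg_left h2 (norm_nonneg _)
    linarith
  let s : ℕ → StrongDual ℝ E := fun n => step^[n] φ
  have hs0 : s 0 = φ := rfl
  have hs1 : ∀ n, s (n + 1) = step (s n) := fun n => Function.iterate_succ_apply' step n _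
  have hsn : ∀ n, ‖s n‖ ≤ ‖φ‖ * (1 / 2) ^ n := by
    intro n
    induction n with
    | zero => rw [hs0, pow_zero, mul_one]
    | succ n ih =>
      rw [hs1, pow_succ]
      have h1 := hstepn (s n)
      linarith
  obtain ⟨u, hu, hun, hut⟩ := lo_complete (D := D) hN (w := fun n => U (s n))
    (C := M * ‖φ‖) (fun n => hU1 _) (fun n => by
      refine (hU2 _).trans ?_
      rw [mul_assoc]
      exact mul_le_mul_of_nonneg_left (hsn n) hM)
  refine ⟨u, hu, ?_, ?_⟩
  · intro f hf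
    have h1 : Tendsto (fun n => dj r ((∑ i ∈ Finset.range n, U (s i)) f)) atTop
        (𝓝 (dj r (u f))) :=
      ((dj r).continuous.tendsto _).comp
        (((ContinuousLinearMap.apply ℝ E f).continuous.tendsto u).comp hut)
    have h2 : ∀ n, dj r ((∑ i ∈ Finset.range n, U (s i)) f) = φ f - s n f := by
      intro n
      induction n with
      | zero =>
        rw [Finset.sum_range_zero, hs0, sub_self]
        have e : (0 : E →L[ℝ] E) f = 0 := rfl
        rw [e, map_zero]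
      | succ n ih =>
        rw [Finset.sum_range_succ, hs1, add_apply, map_add, ih,
          hstepb _ f hf]
        ring
    have h3 : Tendsto (fun n => s n f) atTop (𝓝 0) := by
      have h4 : Tendsto (fun n : ℕ => ‖φ‖ * (1 / 2 : ℝ) ^ n * ‖f‖) atTop (𝓝 0) := by
        have h5 := ((tendsto_pow_atTop_nhds_zero_of_lt_one (r := (1 / 2 : ℝ)) (by norm_num)
          (by norm_num)).const_mul ‖φ‖).mul_const ‖f‖
        rwa [mul_zero, zero_mul] at h5
      refine squeeze_zero_norm (fun n => ?_) h4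
      exact ((s n).le_opNorm f).trans (mul_le_mul_of_nonneg_right (hsn n) (norm_nonneg _))
    have h6 : Tendsto (fun n => φ f - s n f) atTop (𝓝 (φ f)) := by
      have h7 := h3.const_sub (φ f)
      rwa [sub_zero] at h7
    exact tendsto_nhds_unique (h1.congr h2) h6
  · rw [mul_assoc]
    exact hun

theorem dj_ker_of (hN : RNice E) (hD : Sk D) (hr : ‖r‖ = 1) (h : ∀ v, dj r (D v) = 0) :
    D r = 0 := by
  have hr0 : r ≠ 0 := by
    intro h0
    rw [h0, norm_zero] at hr
    exact zero_ne_one hr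
  have h1 : ∀ (t : ℝ) (v : E), dj r (rx t D v) = dj r v := by
    intro t v
    have hd : ∀ s : ℝ, HasDerivAt (fun s : ℝ => dj r (rx s D v)) 0 s := by
      intro s
      have h2 : HasDerivAt (fun s : ℝ => rx s D v) (D (rx s D v)) s := by
        have h3 := ((ContinuousLinearMap.apply ℝ E v).hasFDerivAt).comp_hasDerivAt s
          (rx_hasDerivAt D s)
        exact h3
      have h4 := ((dj r).hasFDerivAt).comp_hasDerivAt s h2
      rw [h] at h4
      exact h4
    have h4 := is_const_of_deriv_eq_zero (fun s => (hd s).differentiableAt)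
      (fun s => (hd s).deriv) t 0
    rw [rx_zero] at h4
    exact h4
  have h2 : ∀ t : ℝ, dj (rx t D r) = dj r := by
    intro t
    ext y
    have h3 : rx t D (rx (-t) D y) = y := by
      have h4 := congrArg (fun A : E →L[ℝ] E => A y) (rx_mul_neg t D)
      exact h4
    calc dj (rx t D r) y = dj (rx t D r) (rx t D (rx (-t) D y)) := by rw [h3]
      _ = dj r (rx (-t) D y) := hD.dj_rx hN hr0 t _
      _ = dj r y := h1 _ _
  have h3 : ∀ t : ℝ, rx t D r = r := by
    intro t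
    by_contra hc
    obtain ⟨δ, hδ, h4⟩ := dj_unif_inv hN (norm_pos_iff.2 (sub_ne_zero.2 hc))
    have h5 := h4 (rx t D r) r (by rw [hD.norm_rx, hr]) hr (by
      rw [h2, sub_self, norm_zero]
      exact hδ)
    exact lt_irrefl _ h5
  have h4 : HasDerivAt (fun s : ℝ => rx s D r) (D r) 0 := by
    have h5 := ((ContinuousLinearMap.apply ℝ E r).hasFDerivAt).comp_hasDerivAt (0 : ℝ)
      (rx_hasDerivAt D 0)
    rw [rx_zero, mul_one] at h5
    exact h5
  have h5 : HasDerivAt (fun s : ℝ => rx s D r) 0 0 := by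
    have e : (fun s : ℝ => rx s D r) = fun _ => r := funext h3
    rw [e]
    exact hasDerivAt_const 0 r
  exact h4.unique h5

end Pool.Agent.Helper61.RO
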