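import Pool.Agent.Helper61.RO.CentLocal
import Pool.Agent.Helper61.RO.LoApi

/-!
# RO-46  The dual surjectivity

PROOF of `sur_dual_point` (one unit vector `r` with `D r = 0`). `n, v, η` from `Rig D` for `1/4`; `δ₀` from `rmicro` for `r`, `v`, `η`. By `dj_unif_inv` there is `δ₁ > 0` with: `‖dj r' - dj r‖ < δ₁` implies
`‖r' - r‖ < δ₀` (unit vectors). `t = min (δ₁ / 4) (1/4)`. Let `φ'` be a functional; we may assume `φ' z = φ' (p z)` (`p = - D D`; replace `φ'` by `φ' ∘ p`, norm `≤`, the same values on the block) and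
`‖φ'‖ = 1` (the case `0` is trivial). `φ z = - φ' (D z)`, so `φ (D z) = - φ' (D (D z)) = φ' z`, `‖φ‖ ≤ 1`. `ψ = dj r + t φ ≠ 0`, `ψ = m • dj r_t` with `‖r_t‖ = 1`, `m = ‖ψ‖ ∈ [1 - t, 1 + t]` (`dj_surj`),
`‖dj r_t - dj r‖ ≤ 2 t·..< δ₁`, so `‖r_t - r‖ < δ₀`. `η'` from `dj_unif` for `t / 16`; `T` with `‖T r - r_t‖ < η'`, `D' = cj T D`, `‖D' - D‖ < 1/4`, `δ = D' - D`. `dj (T r) (D' z) = dj r (D (T⁻¹ z)) = 0`
(`dj_iso`, `Sk.dj_ker`). So `|ψ (D' z)| = m |(dj r_t - dj (T r)) (D' z)| ≤ 2 (t / 16) ‖z‖`. And `ψ (D' z) = dj r (δ z) + t φ (D z) + t φ (δ z)` (`dj r (D z) = 0`). `u` = the part (`lo_part`) of `- (1/t) δ`: for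
`f` in the block `u f = q (- δ f / t)` and `dj r (u f) = - dj r (δ f) / t` (`dj r ∘ q = dj r` because `dj r (D (D z)) = 0`). So
`|dj r (u f) - φ' f| = |- dj r (δ f) / t - φ (D f)| ≤ |φ (δ f)| + (1/8) ‖f‖ ≤ ‖f‖ / 2`, `‖u‖ ≤ 1 / (4 t)`. `exact_of_approx_dual`.

PROOF of `sur_dual`. `r₀`, `C₀`. For a unit vector `r` of the kernel: `V` with `cj V D = D`, `‖V r₀ - r‖ < η`, where `η` is such that `‖dj (V r₀) - dj r‖ < 1 / (2 C₀ + 1)` (`dj_unif`). For `φ`: `u'` for `r₀` and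
`φ ∘ V`, `u = cj V u'`: `dj (V r₀) (u f) = dj r₀ (u' (V⁻¹ f)) = φ f`, so `|dj r (u f) - φ f| ≤ C₀ ‖φ‖ ‖f‖ / (2 C₀ + 1)`. `exact_of_approx_dual`.

PROOF of `sur_star`: `φ = dj f`, `u` from `sur_dual` for `φ`: `‖u‖ ≤ C`, `dj r (u f) = ‖f‖`; `v = u / C`.
-/

set_option autoImplicit false

open Filter Topology

namespace Pool.Agent.Helper61.RO

universe u

variable {E : Type u} [NormedAddCommGroup E] [NormedSpace ℝ E] [CompleteSpace E]
  [TopologicalSpace.SeparableSpace E] {D : E →L[ℝ] E} {r : E}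

/-- the approximate statement for one functional of norm `≤ 1` -/
private theorem sd_approx (hN : RNice E) (htr : RTrans E) (hD : Cub3 D) (hR : Rig D)
    (hr : ‖r‖ = 1) (hDr : D r = 0) :
    ∃ M : ℝ, 0 < M ∧ ∀ φ' : StrongDual ℝ E, ‖φ'‖ = 1 → ∃ u ∈ Lo D, ‖u‖ ≤ M ∧
      ∀ f, D (D f) = -f → |dj r (u f) - φ' f| ≤ ‖f‖ / 2 := by
  obtain ⟨n, v, η, hη, hRv⟩ := hR (1 / 4) (by norm_num)
  obtain ⟨δ₀, hδ₀, hmic⟩ := rmicro htr hr v hη
  obtain ⟨δ₁, hδ₁, hinv⟩ := dj_unif_inv hN hδ₀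
  have hr0 : r ≠ 0 := norm_ne_zero_iff.1 (by rw [hr]; exact one_ne_zero)
  set t : ℝ := min (δ₁ / 4) (1 / 4) with ht
  have ht0 : 0 < t := lt_min (by linarith) (by norm_num)
  have ht1 : t ≤ 1 / 4 := min_le_right _ _
  have ht2 : t ≤ δ₁ / 4 := min_le_left _ _
  refine ⟨1 / (4 * t), by positivity, fun φ' hφ' => ?_⟩
  set φ : StrongDual ℝ E := -(φ'.comp D) with hφdef
  have hφa : ∀ z, φ z = -φ' (D z) := fun z => rfl
  have hφ'le : ∀ z, |φ' z| ≤ ‖z‖ := by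
    intro z
    have h1 := φ'.le_opNorm z
    rw [hφ', one_mul, Real.norm_eq_abs] at h1
    exact h1
  have hDle : ∀ z, ‖D z‖ ≤ ‖z‖ := by
    intro z
    have h1 := D.le_opNorm z
    have h2 : ‖D‖ * ‖z‖ ≤ 1 * ‖z‖ := mul_le_mul_of_nonneg_right hD.norm_le (norm_nonneg z)
    linarith
  have hφle : ∀ z, |φ z| ≤ ‖z‖ := by
    intro z
    rw [hφa, abs_neg]
    exact (hφ'le (D z)).trans (hDle z)
  have hφn : ‖φ‖ ≤ 1 := by
    refine ContinuousLinearMap.opNorm_le_bound _ zero_le_one fun z => ?_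
    rw [one_mul, Real.norm_eq_abs]
    exact hφle z
  set ψ : StrongDual ℝ E := dj r + t • φ with hψdef
  have hψa : ∀ z, ψ z = dj r z + t * φ z := fun z => rfl
  have hψsub : ‖ψ - dj r‖ ≤ t := by
    have h1 : ψ - dj r = t • φ := by rw [hψdef]; abel
    rw [h1, norm_smul, Real.norm_eq_abs, abs_of_pos ht0]
    nlinarith [hφn, norm_nonneg φ]
  have hnr : ‖dj r‖ = 1 := norm_dj hr0
  have hm1 : |‖ψ‖ - 1| ≤ t := by
    rw [← hnr]
    exact (abs_norm_sub_norm_le ψ (dj r)).trans hψsub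
  have hm2 := abs_le.1 hm1
  have hψ0 : ψ ≠ 0 := by
    intro h
    rw [h, norm_zero] at hm2
    linarith [hm2.1]
  obtain ⟨s, hs, hψs⟩ := dj_surj hN hψ0
  set m : ℝ := ‖ψ‖ with hm
  have hs0 : s ≠ 0 := norm_ne_zero_iff.1 (by rw [hs]; exact one_ne_zero)
  have hds : ‖dj s - dj r‖ ≤ 2 * t := by
    have h1 : dj s - dj r = (ψ - dj r) - (m - 1) • dj s := by
      have h0 : ∀ z, ψ z = m * dj s z := by
        intro z
        conv_lhs => rw [hψs]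
        rfl
      ext z
      change dj s z - dj r z = (ψ z - dj r z) - (m - 1) * dj s z
      rw [h0]
      ring
    have h2 : ‖(m - 1) • dj s‖ ≤ t := by
      rw [norm_smul, norm_dj hs0, mul_one, Real.norm_eq_abs]
      exact hm1
    rw [h1]
    refine (norm_sub_le _ _).trans ?_
    linarith
  have hsr : ‖s - r‖ < δ₀ := hinv s r hs hr (by linarith)
  obtain ⟨η', hη', hu⟩ := dj_unif hN (show (0 : ℝ) < t / 16 by positivity)
  obtain ⟨T, hT, hTv⟩ := hmic s hs hsr η' hη'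
  have hcj := hRv T hTv
  have hTr : ‖T r‖ = 1 := by rw [T.norm_map, hr]
  have hdT : ‖dj (T r) - dj s‖ < t / 16 := hu (T r) s hTr hs hT
  set δ : E →L[ℝ] E := cj T D - D with hδ
  have hδa : ∀ z, δ z = cj T D z - D z := fun z => rfl
  have hδle : ∀ z, ‖δ z‖ ≤ ‖z‖ / 4 := by
    intro z
    have h1 := δ.le_opNorm z
    have h2 : ‖δ‖ * ‖z‖ ≤ (1 / 4) * ‖z‖ := mul_le_mul_of_nonneg_right hcj.le (norm_nonneg z)
    linarith
  have hD'le : ∀ z, ‖cj T D z‖ ≤ ‖z‖ := by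
    intro z
    rw [cj_apply, T.norm_map]
    have h1 := hDle (T.symm z)
    rwa [T.symm.norm_map] at h1
  have hzero : ∀ z, dj (T r) (cj T D z) = 0 := by
    intro z
    rw [cj_apply, dj_iso hN T hr0]
    exact hD.sk.dj_ker hN hr0 hDr _
  have hψD' : ∀ z, |ψ (cj T D z)| ≤ t / 8 * ‖z‖ := by
    intro z
    have h1 : ψ (cj T D z) = -(m * ((dj (T r) - dj s) (cj T D z))) := by
      have h2 : ψ (cj T D z) = m * dj s (cj T D z) := by
        conv_lhs => rw [hψs]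
        rfl
      rw [h2, sub_apply, hzero z]
      ring
    have h3 := (dj (T r) - dj s).le_opNorm (cj T D z)
    rw [Real.norm_eq_abs] at h3
    have h4 : ‖dj (T r) - dj s‖ * ‖cj T D z‖ ≤ (t / 16) * ‖z‖ :=
      mul_le_mul hdT.le (hD'le z) (norm_nonneg _) (by positivity)
    have h5 : |(dj (T r) - dj s) (cj T D z)| ≤ (t / 16) * ‖z‖ := h3.trans h4
    rw [h1, abs_neg, abs_mul]
    have h6 : |m| ≤ 2 := by
      rw [abs_le]
      constructor <;> linarith [hm2.1, hm2.2]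
    calc |m| * |(dj (T r) - dj s) (cj T D z)| ≤ 2 * ((t / 16) * ‖z‖) :=
          mul_le_mul h6 h5 (abs_nonneg _) (by norm_num)
      _ = t / 8 * ‖z‖ := by ring
  have hSk : Sk ((-(1 / t)) • δ) := ((hD.sk.cj T).sub hD.sk).smul _
  obtain ⟨u, huL, hun, _, hub⟩ := lo_part hD hSk
  refine ⟨u, huL, ?_, fun f hf => ?_⟩
  · refine hun.trans ?_
    rw [norm_smul, norm_neg, Real.norm_eq_abs, abs_of_pos (by positivity : (0 : ℝ) < 1 / t)]
    calc 1 / t * ‖δ‖ ≤ 1 / t * (1 / 4) := mul_le_mul_of_nonneg_left hcj.le (by positivity)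
      _ = 1 / (4 * t) := by
        field_simp
  · have h1 : dj r (u f) = -(1 / t) * dj r (δ f) := by
      rw [hub f hf, map_add, hD.sk.dj_ker hN hr0 hDr, add_zero]
      change dj r ((-(1 / t)) • δ f) = _
      rw [map_smul, smul_eq_mul]
    have h2 : ψ (cj T D f) = dj r (δ f) + t * φ' f + t * φ (δ f) := by
      have h3 : cj T D f = δ f + D f := by rw [hδa]; abel
      rw [hψa, h3, map_add, map_add, hD.sk.dj_ker hN hr0 hDr, hφa (D f), hf, map_neg]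
      ring
    have h4 := hψD' f
    rw [h2] at h4
    have h5 : dj r (u f) - φ' f = -(1 / t) * (dj r (δ f) + t * φ' f + t * φ (δ f)) + φ (δ f) := by
      rw [h1]
      field_simp
      ring
    have h6 : |φ (δ f)| ≤ ‖f‖ / 4 := (hφle _).trans (hδle f)
    have h7 : |-(1 / t) * (dj r (δ f) + t * φ' f + t * φ (δ f))| ≤ ‖f‖ / 8 := by
      rw [abs_mul, abs_neg, abs_of_pos (by positivity : (0 : ℝ) < 1 / t)]
      calc 1 / t * |dj r (δ f) + t * φ' f + t * φ (δ f)| ≤ 1 / t * (t / 8 * ‖f‖) :=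
            mul_le_mul_of_nonneg_left h4 (by positivity)
        _ = ‖f‖ / 8 := by
          field_simp
    rw [h5]
    refine (abs_add_le _ _).trans ?_
    linarith [norm_nonneg f]

theorem sur_dual_point (hN : RNice E) (htr : RTrans E) (hD : Cub3 D) (hR : Rig D)
    (hr : ‖r‖ = 1) (hDr : D r = 0) :
    ∃ C : ℝ, 0 < C ∧ ∀ φ : StrongDual ℝ E, ∃ u ∈ Lo D,
      (∀ f, D (D f) = -f → dj r (u f) = φ f) ∧ ‖u‖ ≤ C * ‖φ‖ := by
  obtain ⟨M, hM, h⟩ := sd_approx hN htr hD hR hr hDr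
  have key : ∀ φ : StrongDual ℝ E, ∃ u ∈ Lo D, ‖u‖ ≤ M * ‖φ‖ ∧
      ∀ f, D (D f) = -f → |dj r (u f) - φ f| ≤ ‖φ‖ * ‖f‖ / 2 := by
    intro φ
    by_cases hφ : φ = 0
    · refine ⟨0, lo_zero, ?_, fun f _ => ?_⟩
      · rw [hφ, norm_zero, norm_zero, mul_zero]
      · rw [hφ, norm_zero, zero_apply, zero_apply, map_zero, sub_zero, abs_zero, zero_mul, zero_div]
    · have h0 : 0 < ‖φ‖ := norm_pos_iff.2 hφ
      have h1 : ‖‖φ‖⁻¹ • φ‖ = 1 := by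
        rw [norm_smul, norm_inv, norm_norm, inv_mul_cancel₀ h0.ne']
      obtain ⟨u, hu, hun, huf⟩ := h _ h1
      refine ⟨‖φ‖ • u, lo_smul hu _, ?_, fun f hf => ?_⟩
      · rw [norm_smul, norm_norm, mul_comm]
        exact mul_le_mul_of_nonneg_right hun h0.le
      · have h2 := huf f hf
        have h3 : dj r ((‖φ‖ • u) f) - φ f = ‖φ‖ * (dj r (u f) - (‖φ‖⁻¹ • φ) f) := by
          rw [smul_apply, map_smul, smul_apply, smul_eq_mul, smul_eq_mul, mul_sub, ← mul_assoc,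
            mul_inv_cancel₀ h0.ne', one_mul]
        rw [h3, abs_mul, abs_of_pos h0]
        calc ‖φ‖ * |dj r (u f) - (‖φ‖⁻¹ • φ) f| ≤ ‖φ‖ * (‖f‖ / 2) :=
              mul_le_mul_of_nonneg_left h2 h0.le
          _ = ‖φ‖ * ‖f‖ / 2 := by ring
  refine ⟨2 * M, by positivity, fun φ => ?_⟩
  exact exact_of_approx_dual hN hD hDr key φ

theorem sur_dual (hN : RNice E) (htr : RTrans E) (hD : Cub3 D) (hR : Rig D)
    (hK : ∃ x, D x = 0 ∧ x ≠ 0) :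
    ∃ C : ℝ, 0 < C ∧ ∀ r, ‖r‖ = 1 → D r = 0 → ∀ φ : StrongDual ℝ E, ∃ u ∈ Lo D,
      (∀ f, D (D f) = -f → dj r (u f) = φ f) ∧ ‖u‖ ≤ C * ‖φ‖ := by
  obtain ⟨x, hDx, hx0⟩ := hK
  have hxn : 0 < ‖x‖ := norm_pos_iff.2 hx0
  set r₀ : E := ‖x‖⁻¹ • x with hr₀def
  have hr₀ : ‖r₀‖ = 1 := by
    rw [hr₀def, norm_smul, norm_inv, norm_norm, inv_mul_cancel₀ hxn.ne']
  have hDr₀ : D r₀ = 0 := by rw [hr₀def, map_smul, hDx, smul_zero]
  have hr₀0 : r₀ ≠ 0 := norm_ne_zero_iff.1 (by rw [hr₀]; exact one_ne_zero)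
  obtain ⟨C₀, hC₀, h₀⟩ := sur_dual_point hN htr hD hR hr₀ hDr₀
  obtain ⟨η, hη, hu⟩ := dj_unif hN (show (0 : ℝ) < 1 / (2 * C₀) by positivity)
  refine ⟨2 * C₀, by positivity, fun r hr hDr φ => ?_⟩
  obtain ⟨V, hV, hVr⟩ := cent_trans htr hD hR hr₀ hDr₀ hr hDr hη
  have hVn : ‖V r₀‖ = 1 := by rw [V.norm_map, hr₀]
  have hdj := hu (V r₀) r hVn hr hVr
  have hVD : ∀ z, V (D (V.symm z)) = D z := by
    intro z
    rw [← cj_apply, hV]
  have hDV : ∀ z, D (V.symm z) = V.symm (D z) := by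
    intro z
    rw [← hVD z, V.symm_apply_apply]
  have key : ∀ φ : StrongDual ℝ E, ∃ u ∈ Lo D, ‖u‖ ≤ C₀ * ‖φ‖ ∧
      ∀ f, D (D f) = -f → |dj r (u f) - φ f| ≤ ‖φ‖ * ‖f‖ / 2 := by
    intro φ
    set φV : StrongDual ℝ E := φ.comp ((V : E ≃L[ℝ] E) : E →L[ℝ] E) with hφV
    have hφVa : ∀ z, φV z = φ (V z) := fun z => rfl
    have hφVn : ‖φV‖ ≤ ‖φ‖ := by
      refine ContinuousLinearMap.opNorm_le_bound _ (norm_nonneg _) fun z => ?_
      rw [hφVa]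
      have h1 := φ.le_opNorm (V z)
      rwa [V.norm_map] at h1
    obtain ⟨u', hu'L, hu'f, hu'n⟩ := h₀ φV
    have hcn : ‖cj V u'‖ ≤ C₀ * ‖φ‖ := by
      rw [norm_cj]
      exact hu'n.trans (mul_le_mul_of_nonneg_left hφVn hC₀.le)
    refine ⟨cj V u', lo_cj hV hu'L, hcn, fun f hf => ?_⟩
    have h1 : D (D (V.symm f)) = -(V.symm f) := by
      rw [hDV, hDV, hf, map_neg]
    have h2 : dj (V r₀) (cj V u' f) = φ f := by
      rw [cj_apply, dj_iso hN V hr₀0, hu'f _ h1, hφVa, V.apply_symm_apply]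
    have h3 : dj r (cj V u' f) - φ f = -((dj (V r₀) - dj r) (cj V u' f)) := by
      rw [sub_apply, h2]
      ring
    rw [h3, abs_neg]
    have h4 := (dj (V r₀) - dj r).le_opNorm (cj V u' f)
    rw [Real.norm_eq_abs] at h4
    have h5 : ‖cj V u' f‖ ≤ C₀ * ‖φ‖ * ‖f‖ :=
      ((cj V u').le_opNorm f).trans (mul_le_mul_of_nonneg_right hcn (norm_nonneg f))
    calc |(dj (V r₀) - dj r) (cj V u' f)| ≤ ‖dj (V r₀) - dj r‖ * ‖cj V u' f‖ := h4
      _ ≤ 1 / (2 * C₀) * (C₀ * ‖φ‖ * ‖f‖) :=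
          mul_le_mul hdj.le h5 (norm_nonneg _) (by positivity)
      _ = ‖φ‖ * ‖f‖ / 2 := by
          field_simp
  exact exact_of_approx_dual hN hD hDr key φ

theorem sur_star (hN : RNice E) (htr : RTrans E) (hD : Cub3 D) (hR : Rig D)
    (hK : ∃ x, D x = 0 ∧ x ≠ 0) :
    ∃ c : ℝ, 0 < c ∧ ∀ r, ‖r‖ = 1 → D r = 0 → ∀ f, D (D f) = -f →
      ∃ v ∈ Lo D, ‖v‖ ≤ 1 ∧ c * ‖f‖ ≤ dj r (v f) := by
  obtain ⟨C, hC, h⟩ := sur_dual hN htr hD hR hK
  refine ⟨1 / C, by positivity, fun r hr hDr f hf => ?_⟩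
  obtain ⟨u, hu, huf, hun⟩ := h r hr hDr (dj f)
  refine ⟨(1 / C) • u, lo_smul hu _, ?_, ?_⟩
  · rw [norm_smul, Real.norm_eq_abs, abs_of_pos (by positivity : (0 : ℝ) < 1 / C)]
    have h1 : ‖u‖ ≤ C * 1 := hun.trans (mul_le_mul_of_nonneg_left (norm_dj_le f) hC.le)
    calc 1 / C * ‖u‖ ≤ 1 / C * (C * 1) := mul_le_mul_of_nonneg_left h1 (by positivity)
      _ = 1 := by field_simp
  · rw [smul_apply, map_smul, huf f hf, dj_self, smul_eq_mul]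

end Pool.Agent.Helper61.RO
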