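import Pool.Agent.Helper61.RO.Sur
import Pool.Agent.Helper61.RO.SurDual

/-!
# RO-47  The second derivative of the norm in the directions of the block

`x` a unit vector with `D x = 0`, `B u v = - dj x (u (v x))` for `u, v ∈ Lo D`.

PROOFS.
* `hess_symm`: `br u v` is skew: `dj x (u (v x) - v (u x)) = 0` (`Sk.dj_apply`).
* `hess_le`: `C` from `sur`: `u' ∈ Lo D` with `u' x = u x`, `‖u'‖ ≤ C ‖u x‖`; `(u - u') x = 0` and `u - u'` is skew, so `dj x ((u - u') z) = 0` (`Sk.dj_ker`), and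
  `|dj x (u (v x))| = |dj x (u' (v x))| ≤ C ‖u x‖ ‖v x‖`.
* `hess_ge`: `c` from `sur_star` with `r = x`, `f = u x`: `w ∈ Lo D`, `‖w‖ ≤ 1`, `c ‖u x‖ ≤ dj x (w (u x))`. Cauchy-Schwarz for the positive semidefinite (`Sk.dj_sq`) symmetric bilinear form `B`
  on `Lo D`: `(c ‖u x‖)² ≤ B(w, w) B(u, u) ≤ B(u, u)` (`B(w, w) ≤ ‖w‖² ≤ 1`). [Cauchy-Schwarz: `0 ≤ B (u + t w) (u + t w)` for all real `t`.] So `- dj x (u (u x)) ≥ c² ‖u x‖²`.
-/

set_option autoImplicit false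

open Filter Topology

namespace Pool.Agent.Helper61.RO

universe u

variable {E : Type u} [NormedAddCommGroup E] [NormedSpace ℝ E] [CompleteSpace E]
  [TopologicalSpace.SeparableSpace E] {D u v : E →L[ℝ] E} {x : E}

omit [TopologicalSpace.SeparableSpace E] in
theorem hess_symm (hu : Sk u) (hv : Sk v) (x : E) : dj x (u (v x)) = dj x (v (u x)) := by
  have h := (hu.br hv).dj_apply x
  have h1 : (br u v) x = u (v x) - v (u x) := rfl
  rw [h1, map_sub] at h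
  exact sub_eq_zero.1 h

theorem hess_le (hN : RNice E) (htr : RTrans E) (hD : Cub3 D) (hR : Rig D)
    (hK : ∃ x, D x = 0 ∧ x ≠ 0) :
    ∃ C : ℝ, 0 < C ∧ ∀ x, ‖x‖ = 1 → D x = 0 → ∀ u ∈ Lo D, ∀ v ∈ Lo D,
      |dj x (u (v x))| ≤ C * ‖u x‖ * ‖v x‖ := by
  obtain ⟨C, hC, h⟩ := sur hN htr hD hR hK
  refine ⟨C, hC, fun x hx hDx u hu v hv => ?_⟩
  have hx0 : x ≠ 0 := by
    intro h0
    rw [h0, norm_zero] at hx
    exact zero_ne_one hx
  obtain ⟨u', hu', hux, hn⟩ := h x hx hDx (u x) (lo_ker_map hD hu hDx)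
  have h1 : (u - u') x = 0 := by
    rw [ContinuousLinearMap.sub_apply, hux, sub_self]
  have h2 := (hu.1.sub hu'.1).dj_ker hN hx0 h1 (v x)
  rw [ContinuousLinearMap.sub_apply, map_sub] at h2
  rw [sub_eq_zero.1 h2]
  calc |dj x (u' (v x))| ≤ ‖u' (v x)‖ := dj_le x _
    _ ≤ ‖u'‖ * ‖v x‖ := u'.le_opNorm _
    _ ≤ C * ‖u x‖ * ‖v x‖ := mul_le_mul_of_nonneg_right hn (norm_nonneg _)

theorem hess_ge (hN : RNice E) (htr : RTrans E) (hD : Cub3 D) (hR : Rig D)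
    (hK : ∃ x, D x = 0 ∧ x ≠ 0) :
    ∃ c : ℝ, 0 < c ∧ ∀ x, ‖x‖ = 1 → D x = 0 → ∀ u ∈ Lo D,
      c * ‖u x‖ ^ 2 ≤ -dj x (u (u x)) := by
  obtain ⟨c, hc, h⟩ := sur_star hN htr hD hR hK
  refine ⟨c ^ 2, by positivity, fun x hx hDx u hu => ?_⟩
  obtain ⟨w, hw, hw1, hwc⟩ := h x hx hDx (u x) (lo_ker_map hD hu hDx)
  set a : ℝ := dj x (w (u x)) with ha
  have hsq := (hu.1.add (hw.1.smul a)).dj_sq x
  have e1 : (u + a • w) ((u + a • w) x) = u (u x) + a • u (w x) + a • w (u x) + (a * a) • w (w x) := by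
    simp only [ContinuousLinearMap.add_apply, ContinuousLinearMap.smul_apply, map_add, map_smul,
      smul_add, smul_smul]
    abel
  rw [e1, map_add, map_add, map_add, map_smul, map_smul, map_smul, hess_symm hu.1 hw.1 x, ← ha,
    smul_eq_mul, smul_eq_mul] at hsq
  have h2 : -1 ≤ dj x (w (w x)) := by
    have h3 : |dj x (w (w x))| ≤ 1 := by
      calc |dj x (w (w x))| ≤ ‖w (w x)‖ := dj_le x _
        _ ≤ ‖w‖ * ‖w x‖ := w.le_opNorm _
        _ ≤ ‖w‖ * (‖w‖ * ‖x‖) := mul_le_mul_of_nonneg_left (w.le_opNorm _) (norm_nonneg _)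
        _ ≤ 1 := by
          rw [hx, mul_one]
          exact mul_le_one₀ hw1 (norm_nonneg _) hw1
    exact (abs_le.1 h3).1
  have h4 : 0 ≤ c * ‖u x‖ := by positivity
  nlinarith [mul_self_nonneg a, mul_self_le_mul_self h4 hwc, mul_le_mul_of_nonneg_left h2 (mul_self_nonneg a)]

end Pool.Agent.Helper61.RO
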