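import Pool.Agent.Helper61.RO.DefsC
import Pool.Agent.Helper61.RO.DjApi

/-!
# RO-31  Quaternionic triples

PROOFS.
* `sqb`: `b b = b (c a) = (b c) a = a a`; `sqc`: `c c = c (a b) = (c a) b = b b`. `cyc`: all the relations are cyclic; `b b b = a a b = a c = - b`; `b ≠ 0`
  because `a = b c`. `cub`.
* `ker`: `a x = 0`: `c x = - b (a x) = 0`, `b x = c (a x) = 0`.
* For `D` with `D ^ 3 = - D` and `D (D x) = - x`: `rx (π/2) D x = x + D x + D (D x) = D x` (`rx_pi_div_two_of_cube`), so `‖D x‖ = ‖x‖` and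
  `dj (D x) (D y) = dj x y` (`Sk.dj_rx` with `t = π/2`), and `dj (D x) y = - dj (D x) (D (D y)) = - dj x (D y)`.
* `Ext.cyc`: `R = rx (π/4) c`, `R' = rx (-π/4) c`. `rx_of_cube`: `R = 1 + s c + (1 - s) c c`, `s = sin (π/4) = cos (π/4)`. `R a = s a + s b = b R`, and
  `R b = - a R`-type relations: `R b = s b - s a`, `a R = a + s a c + (1 - s) a c c = a - s b - (1 - s) a = s a - s b`, so `R b = - a R`; `R c = c R`. If `Sk B`,
  `br b (br b B) = - 4 B`, then `B' = R' B R` is skew, `br a (br a B') = - 4 B'`, `B' = s' b + t' c`, `B = R B' R' = - s' a + t' c`.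
* `norm_le`: `‖a‖ ≤ 1`: `a = (1/2) (rx (π/2) a - rx (-π/2) a)`.
-/

set_option autoImplicit false

open Filter Topology

namespace Pool.Agent.Helper61.RO

universe u

variable {E : Type u} [NormedAddCommGroup E] [NormedSpace ℝ E]
  {a b c D : E →L[ℝ] E} {x y : E}

theorem Quat.sqb (h : Quat a b c) : b * b = a * a := by
  calc b * b = b * (c * a) := by rw [h.ca]
    _ = (b * c) * a := (mul_assoc _ _ _).symm
    _ = a * a := by rw [h.bc]

theorem Quat.sqc (h : Quat a b c) : c * c = a * a := by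
  calc c * c = c * (a * b) := by rw [h.ab]
    _ = (c * a) * b := (mul_assoc _ _ _).symm
    _ = b * b := by rw [h.ca]
    _ = a * a := h.sqb

theorem Quat.cyc (h : Quat a b c) : Quat b c a := by
  refine ⟨h.skb, h.skc, h.ska, ?_, h.bc, h.ca, h.ab, h.cb, h.ac, h.ba, ?_⟩
  · rw [h.sqb, mul_assoc, h.ab, h.ac]
  · intro hb
    apply h.ne
    rw [← h.bc, hb, zero_mul]

theorem Quat.cub (h : Quat a b c) : Cub3 a := ⟨h.ska, h.cube, h.ne⟩

private theorem qapp {A B C : E →L[ℝ] E} (h : A * B = C) (y : E) : A (B y) = C y := by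
  rw [← h]
  rfl

theorem Quat.ker (h : Quat a b c) (hx : a x = 0) : b x = 0 ∧ c x = 0 := by
  constructor
  · rw [← qapp h.ca, hx, map_zero]
  · have h1 := qapp h.ba x
    rw [hx, map_zero, neg_apply] at h1
    exact neg_eq_zero.1 h1.symm

/-- the block of `a` is the block of `b` -/
theorem Quat.blk (h : Quat a b c) (hx : a (a x) = -x) : b (b x) = -x ∧ c (c x) = -x := by
  have h0 : (a * a) x = -x := hx
  constructor
  · rw [qapp h.sqb, h0]
  · rw [qapp h.sqc, h0]

/-- `a y`, `b y`, `c y` are in the block -/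
theorem Quat.map (h : Quat a b c) (y : E) :
    a (a (a y)) = -(a y) ∧ a (a (b y)) = -(b y) ∧ a (a (c y)) = -(c y) := by
  refine ⟨?_, ?_, ?_⟩
  · exact qapp (A := a * a) (B := a) h.cube y
  · rw [qapp h.ab, qapp h.ac, neg_apply]
  · rw [qapp h.ac, neg_apply, map_neg, qapp h.ab]

variable [CompleteSpace E]

private theorem qhalf (hD : Cub3 D) : rx (-(Real.pi / 2)) D = 1 - D + D * D := by
  rw [rx_of_cube hD.cube, Real.sin_neg, Real.cos_neg, Real.sin_pi_div_two, Real.cos_pi_div_two,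
    neg_one_smul, sub_zero, one_smul, ← sub_eq_add_neg]

theorem Cub3.norm_le (hD : Cub3 D) : ‖D‖ ≤ 1 := by
  have e : D = (1 / 2 : ℝ) • (rx (Real.pi / 2) D - rx (-(Real.pi / 2)) D) := by
    rw [rx_pi_div_two_of_cube hD.cube, qhalf hD]
    have e1 : (1 + D + D * D) - (1 - D + D * D) = (2 : ℝ) • D := by
      rw [two_smul]
      abel
    rw [e1, smul_smul]
    norm_num
  have h1 := norm_sub_le (rx (Real.pi / 2) D) (rx (-(Real.pi / 2)) D)
  have h2 := hD.sk.norm_rx_le (Real.pi / 2)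
  have h3 := hD.sk.norm_rx_le (-(Real.pi / 2))
  rw [e, norm_smul, Real.norm_eq_abs, abs_of_pos (by norm_num : (0 : ℝ) < 1 / 2)]
  linarith

private theorem qquarter (hD : Cub3 D) (hx : D (D x) = -x) : rx (Real.pi / 2) D x = D x := by
  rw [rx_pi_div_two_of_cube hD.cube]
  have e : (1 + D + D * D) x = x + D x + D (D x) := rfl
  rw [e, hx]
  abel

theorem Cub3.norm_apply (hD : Cub3 D) (hx : D (D x) = -x) : ‖D x‖ = ‖x‖ := by
  rw [← qquarter hD hx]
  exact hD.sk.norm_rx _ x

theorem Cub3.dj_map (hN : RNice E) (hD : Cub3 D) (hx0 : x ≠ 0) (hx : D (D x) = -x)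
    (hy : D (D y) = -y) : dj (D x) (D y) = dj x y := by
  have h := hD.sk.dj_rx hN hx0 (Real.pi / 2) y
  rwa [qquarter hD hx, qquarter hD hy] at h

theorem Cub3.dj_map' (hN : RNice E) (hD : Cub3 D) (hx0 : x ≠ 0) (hx : D (D x) = -x)
    (hy : D (D y) = -y) : dj (D x) y = -dj x (D y) := by
  have h := hD.dj_map hN hx0 hx (y := D y) (by rw [hy, map_neg])
  rw [hy, map_neg] at h
  linarith

theorem Ext.cyc (h : Quat a b c) (hE : Ext a b c) : Ext b c a := by
  intro B hB hBB
  have hcc : c * c * c = -c := h.cyc.cyc.cube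
  obtain ⟨R, hRd⟩ : ∃ R : E →L[ℝ] E, R = rx (Real.pi / 4) c := ⟨_, rfl⟩
  obtain ⟨R', hRd'⟩ : ∃ R' : E →L[ℝ] E, R' = rx (-(Real.pi / 4)) c := ⟨_, rfl⟩
  have hRR' : R * R' = 1 := by rw [hRd, hRd']; exact rx_mul_neg _ _
  have hR'R : R' * R = 1 := by rw [hRd, hRd']; exact rx_neg_mul _ _
  have h2 : R * R = 1 + c + c * c := by
    rw [hRd, ← rx_add, ← rx_pi_div_two_of_cube hcc]
    congr 1
    ring
  have haR' : a * R' = R * a := by
    have h3 := rx_anti (A := a) (D := c) (by rw [h.ac, h.ca]) (-(Real.pi / 4))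
    rw [neg_neg] at h3
    rw [hRd, hRd']
    exact h3
  have hbR' : b * R' = R * b := by
    have h3 := rx_anti (A := b) (D := c) (by rw [h.bc, h.cb, neg_neg]) (-(Real.pi / 4))
    rw [neg_neg] at h3
    rw [hRd, hRd']
    exact h3
  have hcR' : c * R' = R' * c := by
    rw [hRd']
    exact rx_comm rfl _
  have e1 : R * a * R' = b := by
    rw [mul_assoc, haR', ← mul_assoc, h2, add_mul, add_mul, one_mul, h.ca, mul_assoc, h.ca, h.cb]
    abel
  have e2 : R * b * R' = -a := by
    rw [mul_assoc, hbR', ← mul_assoc, h2, add_mul, add_mul, one_mul, h.cb, mul_assoc, h.cb,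
      mul_neg, h.ca]
    abel
  have e3 : R * c * R' = c := by
    rw [mul_assoc, hcR', ← mul_assoc, hRR', one_mul]
  have e4 : a = R' * b * R := by
    rw [← e1]
    calc a = (R' * R) * a * (R' * R) := by rw [hR'R, one_mul, mul_one]
      _ = R' * (R * a * R') * R := by simp only [mul_assoc]
  have hmul : ∀ X Y : E →L[ℝ] E, (R' * X * R) * (R' * Y * R) = R' * (X * Y) * R := by
    intro X Y
    calc (R' * X * R) * (R' * Y * R) = R' * X * (R * R') * Y * R := by simp only [mul_assoc]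
      _ = R' * (X * Y) * R := by rw [hRR', mul_one]; simp only [mul_assoc]
  have hbr : ∀ Y : E →L[ℝ] E, br a (R' * Y * R) = R' * br b Y * R := by
    intro Y
    unfold br
    have e5 : a * (R' * Y * R) = R' * (b * Y) * R := by
      conv_lhs => rw [e4]
      exact hmul b Y
    have e6 : (R' * Y * R) * a = R' * (Y * b) * R := by
      conv_lhs => rw [e4]
      exact hmul Y b
    rw [e5, e6, mul_sub, sub_mul]
  have hSk : Sk (R' * B * R) := by
    have h3 := hB.conj_rx h.skc (-(Real.pi / 4))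
    rw [neg_neg] at h3
    rw [hRd, hRd']
    exact h3
  obtain ⟨s, t, hst⟩ := hE (R' * B * R) hSk (by
    rw [hbr, hbr, hBB, mul_neg, neg_mul, mul_smul_comm, smul_mul_assoc])
  refine ⟨t, -s, ?_⟩
  calc B = (R * R') * B * (R * R') := by rw [hRR', one_mul, mul_one]
    _ = R * (R' * B * R) * R' := by simp only [mul_assoc]
    _ = R * (s • b + t • c) * R' := by rw [hst]
    _ = s • (R * b * R') + t • (R * c * R') := by
        rw [mul_add, add_mul, mul_smul_comm, mul_smul_comm, smul_mul_assoc, smul_mul_assoc]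
    _ = t • c + (-s) • a := by
        rw [e2, e3, smul_neg, neg_smul]
        abel

end Pool.Agent.Helper61.RO
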