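import Pool.Agent.Helper61.RO.DefsS
import Pool.Agent.Helper61.RO.QuatApi

/-!
# RO-66  Rotations in su(2) triples

PROOFS. `rot_a`, `rot_c`: `X t = rx t b * a * rx (-t) b`, `Y t = rx t b * c * rx (-t) b`: `X' = rx t b [b, a] rx (-t) b = - 2 Y`, `Y' = rx t b [b, c] rx (-t) b = 2 X`, `X 0 = a`, `Y 0 = c`. The functions
`cos (2t) X + sin (2t) Y` and `- sin (2t) X + cos (2t) Y` have derivative `0`. (`rx_hasDerivAt`, `rx_comm`; `br b a = - br a b`.) `cyc`: clear, `b ≠ 0` (otherwise `2 c = 0`, `2 a = br b c = 0`).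
`weyl`: `R = rx (π/2) b`, `R' = rx (-(π/2)) b`: `R a R' = - a`.
`rot_span`: for every unit vector `(r, s, t)` there is a product `R` of such rotations (an invertible isometric operator, `R R' = 1 = R' R`) with `R a R' = r a + s b + t c`: first rotate with `b` in the plane `a, c`, then with
`a` in the plane `b, c` (spherical coordinates: `r = cos θ`, `s = - sin θ sin φ`-type; use the cyclic versions `rot` for the triple `(b, c, a)`, `(c, a, b)`).
`ad_sq`: `X = r a + s b + t c`: for `Z ∈ Mm a b c`: `[X, [X, [X, Z]]] = - 4 (r² + s² + t²) [X, Z]` (bilinear computation with the bracket table).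
`cub_su2`: `Quat a b c` implies `Su2 a b c`.
`lin_indep`: `r a + s b + t c = 0` implies `r = s = t = 0` (take brackets with `a`, `b`, `c`).
-/

set_option autoImplicit false

open Filter Topology

namespace Pool.Agent.Helper61.RO

universe u

variable {E : Type u} [NormedAddCommGroup E] [NormedSpace ℝ E]
  {a b c X Z : E →L[ℝ] E} {r s t : ℝ}

private theorem wbr_self (A : E →L[ℝ] E) : br A A = 0 := sub_self _

private theorem wbr_swap (A B : E →L[ℝ] E) : br A B = -br B A := by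
  unfold br
  rw [neg_sub]

private theorem wbr_add_left (A B C : E →L[ℝ] E) : br (A + B) C = br A C + br B C := by
  unfold br
  rw [add_mul, mul_add]
  abel

private theorem wbr_add_right (A B C : E →L[ℝ] E) : br A (B + C) = br A B + br A C := by
  unfold br
  rw [add_mul, mul_add]
  abel

private theorem wbr_smul_left (x : ℝ) (A B : E →L[ℝ] E) : br (x • A) B = x • br A B := by
  unfold br
  rw [smul_mul_assoc, mul_smul_comm, smul_sub]

private theorem wbr_smul_right (x : ℝ) (A B : E →L[ℝ] E) : br A (x • B) = x • br A B := by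
  unfold br
  rw [smul_mul_assoc, mul_smul_comm, smul_sub]

private theorem wbr_zero_right (A : E →L[ℝ] E) : br A 0 = 0 := by
  unfold br
  rw [mul_zero, zero_mul, sub_zero]

private theorem wsmul_zero {x : ℝ} {A : E →L[ℝ] E} (hA : A ≠ 0) (h : x • A = 0) : x = 0 :=
  (smul_eq_zero.1 h).resolve_right hA

theorem Su2.cyc (h : Su2 a b c) : Su2 b c a := by
  refine ⟨h.skb, h.skc, h.ska, h.bc, h.ca, h.ab, ?_⟩
  intro hb
  have h1 := h.ab
  rw [hb, wbr_zero_right] at h1
  have h2 : c = 0 := (smul_eq_zero.1 h1.symm).resolve_left two_ne_zero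
  have h3 := h.bc
  rw [h2, wbr_zero_right] at h3
  exact h.ne ((smul_eq_zero.1 h3.symm).resolve_left two_ne_zero)

/-- the bracket of two elements of the triple -/
private theorem wbr_span (h : Su2 a b c) (r s t r' s' t' : ℝ) :
    br (r • a + s • b + t • c) (r' • a + s' • b + t' • c) =
      (2 * (s * t' - t * s')) • a + (2 * (t * r' - r * t')) • b + (2 * (r * s' - s * r')) • c := by
  have hba : br b a = -((2 : ℝ) • c) := by rw [wbr_swap, h.ab]
  have hcb : br c b = -((2 : ℝ) • a) := by rw [wbr_swap, h.bc]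
  have hac : br a c = -((2 : ℝ) • b) := by rw [wbr_swap, h.ca]
  simp only [wbr_add_left, wbr_add_right, wbr_smul_left, wbr_smul_right, wbr_self, h.ab, h.bc, h.ca,
    hba, hcb, hac]
  module

theorem Quat.su2 (h : Quat a b c) : Su2 a b c := by
  refine ⟨h.ska, h.skb, h.skc, ?_, ?_, ?_, h.ne⟩
  · unfold br
    rw [h.ab, h.ba, sub_neg_eq_add, two_smul]
  · unfold br
    rw [h.bc, h.cb, sub_neg_eq_add, two_smul]
  · unfold br
    rw [h.ca, h.ac, sub_neg_eq_add, two_smul]

private theorem wad (h : Su2 a b c) (x y z : ℝ) {r s t : ℝ} (h0 : r • a + s • b + t • c = 0) :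
    (2 * (y * t - z * s)) • a + (2 * (z * r - x * t)) • b + (2 * (x * s - y * r)) • c = 0 := by
  rw [← wbr_span h x y z r s t, h0, wbr_zero_right]

theorem Su2.lin_indep (h : Su2 a b c) (h0 : r • a + s • b + t • c = 0) : r = 0 ∧ s = 0 ∧ t = 0 := by
  have h1 := wad h 1 0 0 h0
  have h2 : (4 * s) • a = 0 := by
    rw [← wad h 0 1 0 h1]
    module
  have h3 : (4 * t) • a = 0 := by
    rw [← wad h 0 0 1 h1]
    module
  have hs : s = 0 := by
    have := wsmul_zero h.ne h2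
    linarith
  have ht : t = 0 := by
    have := wsmul_zero h.ne h3
    linarith
  rw [hs, ht, zero_smul, zero_smul, add_zero, add_zero] at h0
  exact ⟨wsmul_zero h.ne h0, hs, ht⟩

theorem Su2.ad_cube (h : Su2 a b c) (hX : X = r • a + s • b + t • c) (hZ : Z ∈ Mm a b c) :
    br X (br X (br X Z)) = -((4 * (r ^ 2 + s ^ 2 + t ^ 2)) • br X Z) := by
  obtain ⟨r', s', t', rfl⟩ := hZ
  rw [hX, wbr_span h, wbr_span h, wbr_span h]
  module

theorem Su2.ad_ne (h : Su2 a b c) (hX : X ∈ Mm a b c) (hX0 : X ≠ 0) :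
    ∃ Z ∈ Mm a b c, br X Z ≠ 0 := by
  obtain ⟨r, s, t, rfl⟩ := hX
  by_contra hcon
  push Not at hcon
  have h1 : br (r • a + s • b + t • c) ((1 : ℝ) • a + (0 : ℝ) • b + (0 : ℝ) • c) = 0 :=
    hcon _ ⟨1, 0, 0, rfl⟩
  have h2 : br (r • a + s • b + t • c) ((0 : ℝ) • a + (1 : ℝ) • b + (0 : ℝ) • c) = 0 :=
    hcon _ ⟨0, 1, 0, rfl⟩
  rw [wbr_span h] at h1 h2
  obtain ⟨-, h3, h4⟩ := h.lin_indep h1
  obtain ⟨-, -, h5⟩ := h.lin_indep h2
  apply hX0
  have hr : r = 0 := by linarith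
  have hs : s = 0 := by linarith
  have ht : t = 0 := by linarith
  rw [hr, hs, ht, zero_smul, zero_smul, zero_smul, add_zero, add_zero]

variable [CompleteSpace E]

private theorem wconj_deriv (B A : E →L[ℝ] E) (t : ℝ) :
    HasDerivAt (fun s : ℝ => rx s B * A * rx (-s) B) (rx t B * br B A * rx (-t) B) t := by
  have h1 : HasDerivAt (fun s : ℝ => rx s B * A) (B * rx t B * A) t :=
    (rx_hasDerivAt B t).mul_const A
  have h2 : HasDerivAt (fun s : ℝ => rx (-s) B) (-(B * rx (-t) B)) t := by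
    have h3 := (rx_hasDerivAt B (-t)).scomp t (hasDerivAt_neg t)
    rwa [neg_one_smul] at h3
  have h3 := h1.mul h2
  have h4 : B * rx t B * A * rx (-t) B + rx t B * A * -(B * rx (-t) B) =
      rx t B * br B A * rx (-t) B := by
    rw [rx_comm (A := B) (D := B) rfl]
    unfold br
    simp only [mul_sub, sub_mul, mul_neg, mul_assoc]
    abel
  rwa [h4] at h3

/-- both rotations -/
private theorem wrot (h : Su2 a b c) (t : ℝ) :
    rx t b * a * rx (-t) b = Real.cos (2 * t) • a - Real.sin (2 * t) • c ∧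
      rx t b * c * rx (-t) b = Real.cos (2 * t) • c + Real.sin (2 * t) • a := by
  set X : ℝ → E →L[ℝ] E := fun s => rx s b * a * rx (-s) b with hX
  set Y : ℝ → E →L[ℝ] E := fun s => rx s b * c * rx (-s) b with hY
  have hXd : ∀ s, HasDerivAt X (-((2 : ℝ) • Y s)) s := by
    intro s
    have h1 := wconj_deriv b a s
    have h2 : rx s b * br b a * rx (-s) b = -((2 : ℝ) • Y s) := by
      rw [wbr_swap, h.ab, hY]
      simp only [mul_neg, neg_mul, mul_smul_comm, smul_mul_assoc]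
    rwa [h2] at h1
  have hYd : ∀ s, HasDerivAt Y ((2 : ℝ) • X s) s := by
    intro s
    have h1 := wconj_deriv b c s
    have h2 : rx s b * br b c * rx (-s) b = (2 : ℝ) • X s := by
      rw [h.bc, hX]
      simp only [mul_smul_comm, smul_mul_assoc]
    rwa [h2] at h1
  have hcd : ∀ s : ℝ, HasDerivAt (fun s : ℝ => Real.cos (2 * s)) (-(2 * Real.sin (2 * s))) s := by
    intro s
    have h1 : HasDerivAt (fun s : ℝ => 2 * s) 2 s := by
      simpa using (hasDerivAt_id s).const_mul (2 : ℝ)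
    have h2 := h1.cos
    convert h2 using 1
    ring
  have hsd : ∀ s : ℝ, HasDerivAt (fun s : ℝ => Real.sin (2 * s)) (2 * Real.cos (2 * s)) s := by
    intro s
    have h1 : HasDerivAt (fun s : ℝ => 2 * s) 2 s := by
      simpa using (hasDerivAt_id s).const_mul (2 : ℝ)
    have h2 := h1.sin
    convert h2 using 1
    ring
  have hP : ∀ s, HasDerivAt (fun s : ℝ => Real.cos (2 * s) • X s + Real.sin (2 * s) • Y s)
      (0 : E →L[ℝ] E) s := by
    intro s
    have h1 := ((hcd s).smul (hXd s)).add ((hsd s).smul (hYd s))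
    have e : Real.cos (2 * s) • (-((2 : ℝ) • Y s)) + (-(2 * Real.sin (2 * s))) • X s +
        (Real.sin (2 * s) • ((2 : ℝ) • X s) + (2 * Real.cos (2 * s)) • Y s) = 0 := by module
    rw [e] at h1
    exact h1
  have hQ : ∀ s, HasDerivAt (fun s : ℝ => Real.cos (2 * s) • Y s - Real.sin (2 * s) • X s)
      (0 : E →L[ℝ] E) s := by
    intro s
    have h1 := ((hcd s).smul (hYd s)).sub ((hsd s).smul (hXd s))
    have e : Real.cos (2 * s) • ((2 : ℝ) • X s) + (-(2 * Real.sin (2 * s))) • Y s -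
        (Real.sin (2 * s) • (-((2 : ℝ) • Y s)) + (2 * Real.cos (2 * s)) • X s) = 0 := by module
    rw [e] at h1
    exact h1
  have eP := is_const_of_deriv_eq_zero (fun s => (hP s).differentiableAt)
    (fun s => (hP s).deriv) t 0
  have eQ := is_const_of_deriv_eq_zero (fun s => (hQ s).differentiableAt)
    (fun s => (hQ s).deriv) t 0
  have hX0 : X 0 = a := by
    simp only [hX, neg_zero, rx_zero, one_mul, mul_one]
  have hY0 : Y 0 = c := by
    simp only [hY, neg_zero, rx_zero, one_mul, mul_one]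
  simp only [mul_zero, Real.cos_zero, Real.sin_zero, one_smul, zero_smul, add_zero, sub_zero, hX0,
    hY0] at eP eQ
  have hsc := Real.sin_sq_add_cos_sq (2 * t)
  constructor
  · calc X t = (Real.sin (2 * t) ^ 2 + Real.cos (2 * t) ^ 2) • X t := by rw [hsc, one_smul]
      _ = Real.cos (2 * t) • (Real.cos (2 * t) • X t + Real.sin (2 * t) • Y t) -
          Real.sin (2 * t) • (Real.cos (2 * t) • Y t - Real.sin (2 * t) • X t) := by module
      _ = _ := by rw [eP, eQ]
  · calc Y t = (Real.sin (2 * t) ^ 2 + Real.cos (2 * t) ^ 2) • Y t := by rw [hsc, one_smul]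
      _ = Real.cos (2 * t) • (Real.cos (2 * t) • Y t - Real.sin (2 * t) • X t) +
          Real.sin (2 * t) • (Real.cos (2 * t) • X t + Real.sin (2 * t) • Y t) := by module
      _ = _ := by rw [eP, eQ]

theorem Su2.rot_a (h : Su2 a b c) (t : ℝ) :
    rx t b * a * rx (-t) b = Real.cos (2 * t) • a - Real.sin (2 * t) • c :=
  (wrot h t).1

theorem Su2.rot_c (h : Su2 a b c) (t : ℝ) :
    rx t b * c * rx (-t) b = Real.cos (2 * t) • c + Real.sin (2 * t) • a :=
  (wrot h t).2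

theorem Su2.weyl (h : Su2 a b c) : rx (Real.pi / 2) b * a * rx (-(Real.pi / 2)) b = -a := by
  have h1 : 2 * (Real.pi / 2) = Real.pi := by ring
  rw [h.rot_a, h1, Real.cos_pi, Real.sin_pi, zero_smul, sub_zero, neg_one_smul]

/-- one rotation as an isometry -/
private theorem wiso (h : Su2 a b c) (θ : ℝ) :
    ∃ T : E ≃ₗᵢ[ℝ] E, cj T a = Real.cos θ • a - Real.sin θ • c ∧
      cj T c = Real.cos θ • c + Real.sin θ • a ∧ ∀ C : E →L[ℝ] E, b * C = C * b → cj T C = C := by
  obtain ⟨T, hT, hT'⟩ := h.skb.iso (θ / 2)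
  have hcj : ∀ A : E →L[ℝ] E, cj T A = rx (θ / 2) b * A * rx (-(θ / 2)) b := by
    intro A
    ext x
    rw [cj_apply, hT, hT']
    rfl
  have h2 : 2 * (θ / 2) = θ := by ring
  refine ⟨T, ?_, ?_, ?_⟩
  · rw [hcj, h.rot_a, h2]
  · rw [hcj, h.rot_c, h2]
  · intro C hC
    rw [hcj, ← rx_comm hC.symm, mul_assoc, rx_mul_neg, mul_one]

private theorem wMm_cj {R : E ≃ₗᵢ[ℝ] E} (ha : cj R a ∈ Mm a b c) (hb : cj R b ∈ Mm a b c)
    (hc : cj R c ∈ Mm a b c) : ∀ X ∈ Mm a b c, cj R X ∈ Mm a b c := by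
  rintro X ⟨x, y, z, rfl⟩
  obtain ⟨x₁, y₁, z₁, h₁⟩ := ha
  obtain ⟨x₂, y₂, z₂, h₂⟩ := hb
  obtain ⟨x₃, y₃, z₃, h₃⟩ := hc
  refine ⟨x * x₁ + y * x₂ + z * x₃, x * y₁ + y * y₂ + z * y₃, x * z₁ + y * z₂ + z * z₃, ?_⟩
  rw [cj_add, cj_add, cj_smul, cj_smul, cj_smul, h₁, h₂, h₃]
  module

theorem Su2.rot_span (h : Su2 a b c) (hu : r ^ 2 + s ^ 2 + t ^ 2 = 1) :
    ∃ R : E ≃ₗᵢ[ℝ] E, cj R a = r • a + s • b + t • c ∧ (∀ X ∈ Mm a b c, cj R X ∈ Mm a b c) ∧
      ∀ C : E →L[ℝ] E, a * C = C * a → b * C = C * b → c * C = C * c → cj R C = C := by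
  -- polar coordinates
  obtain ⟨ρ, β, hρt, hρs, hρ⟩ : ∃ ρ β : ℝ, ρ * Real.cos β = -t ∧ ρ * Real.sin β = s ∧
      ρ ^ 2 = s ^ 2 + t ^ 2 := by
    set z : ℂ := ⟨-t, s⟩ with hz
    have h1 : ‖z‖ * Real.cos (Complex.arg z) = -t := Complex.norm_mul_cos_arg z
    have h2 : ‖z‖ * Real.sin (Complex.arg z) = s := Complex.norm_mul_sin_arg z
    refine ⟨‖z‖, Complex.arg z, h1, h2, ?_⟩
    have h3 := Real.sin_sq_add_cos_sq (Complex.arg z)
    calc ‖z‖ ^ 2 = ‖z‖ ^ 2 * (Real.sin (Complex.arg z) ^ 2 + Real.cos (Complex.arg z) ^ 2) := by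
          rw [h3, mul_one]
      _ = (‖z‖ * Real.sin (Complex.arg z)) ^ 2 + (‖z‖ * Real.cos (Complex.arg z)) ^ 2 := by ring
      _ = s ^ 2 + t ^ 2 := by rw [h1, h2, neg_sq]
  obtain ⟨α, hα, hα'⟩ : ∃ α : ℝ, Real.cos α = r ∧ Real.sin α = ρ := by
    set z : ℂ := ⟨r, ρ⟩ with hz
    have h1 : ‖z‖ * Real.cos (Complex.arg z) = r := Complex.norm_mul_cos_arg z
    have h2 : ‖z‖ * Real.sin (Complex.arg z) = ρ := Complex.norm_mul_sin_arg z
    have h4 : ‖z‖ ^ 2 = 1 := by
      have h3 := Real.sin_sq_add_cos_sq (Complex.arg z)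
      calc ‖z‖ ^ 2 = ‖z‖ ^ 2 * (Real.sin (Complex.arg z) ^ 2 + Real.cos (Complex.arg z) ^ 2) := by
            rw [h3, mul_one]
        _ = (‖z‖ * Real.sin (Complex.arg z)) ^ 2 + (‖z‖ * Real.cos (Complex.arg z)) ^ 2 := by ring
        _ = 1 := by rw [h1, h2, hρ]; linarith
    have h5 : ‖z‖ = 1 := by
      have h6 := norm_nonneg z
      nlinarith
    rw [h5, one_mul] at h1 h2
    exact ⟨_, h1, h2⟩
  obtain ⟨T, hTa, hTc, hT⟩ := wiso h α
  obtain ⟨S, hSc, hSb, hS⟩ := wiso h.cyc.cyc β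
  have hSa : cj S a = a := hS a rfl
  have hTb : cj T b = b := hT b rfl
  have hsub : ∀ A B : E →L[ℝ] E, cj S (A - B) = cj S A - cj S B := by
    intro A B
    have h1 : A - B = A + (-1 : ℝ) • B := by rw [neg_one_smul, sub_eq_add_neg]
    rw [h1, cj_add, cj_smul, neg_one_smul, ← sub_eq_add_neg]
  have hRa : cj (T.trans S) a = r • a + s • b + t • c := by
    rw [cj_trans, hTa, hsub, cj_smul, cj_smul, hSa, hSc, hα, hα']
    have h1 : r • a - ρ • (Real.cos β • c - Real.sin β • b) =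
        r • a + (ρ * Real.sin β) • b - (ρ * Real.cos β) • c := by module
    rw [h1, hρs, hρt]
    module
  have hRb : cj (T.trans S) b = Real.cos β • b + Real.sin β • c := by
    rw [cj_trans, hTb, hSb]
  have hRc : cj (T.trans S) c = Real.cos α • (Real.cos β • c - Real.sin β • b) + Real.sin α • a := by
    rw [cj_trans, hTc, cj_add, cj_smul, cj_smul, hSc, hSa]
  refine ⟨T.trans S, hRa, wMm_cj ⟨r, s, t, hRa⟩ ⟨0, Real.cos β, Real.sin β, ?_⟩
    ⟨Real.sin α, -(Real.cos α * Real.sin β), Real.cos α * Real.cos β, ?_⟩, ?_⟩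
  · rw [hRb]
    module
  · rw [hRc]
    module
  · intro C hCa hCb _
    rw [cj_trans, hT C hCb, hS C hCa]

end Pool.Agent.Helper61.RO
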