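import Pool.Agent.Helper61.RO.SpecEx
import Pool.Agent.Helper61.RO.Weyl

/-!
# RO-74  Joint weights of two orthogonal tripotents

`S = lie e e₁`, `S' = lie f f₁`. By Jacobi and `Orth`: `S` commutes with `f`, `f₁`, so with `S'` (take the star of `lie S f = 0`, or directly `lie e₁ f = 0 = lie e₁ f₁`, the stars of `lie e f₁`, `lie e f`, by `Pr.lie`, `Pr.unique`, `Pr.zero`).
PROOFS.
* `comm`: `Grad.comm` twice.
* `weyl_e`: `a, b, c` from `TT.exists_tri` for `e`, `R = rx (π/2) b`, `R' = rx (-(π/2)) b`: `R a R' = - a` (`Su2.weyl`), so `cx R S cx R' = - S`, `cx R p j cx R' = p (-j)` (`Grad.fix_iff` both ways: `cx R' p (-j) cx R` is the projection, or: `cx R (p j z)` satisfies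
`S u = - j u`, so `p (-j) cx R p j = cx R p j`; the same for `R'`), and `cx R` commutes with `S'` (as `cx b = e₁ - e` commutes with `S'`; `rx_comm` in the form `ex`, or `cx_rx` and `Commute.exp_right`), so with the `q j`.
* `zero`: `lie (e + f) (e₁ + f₁) = S + S'`. On the range of `p i q j` this operator is `i + j`, so `p i q j = 0` if `|i + j| > M ≥ M'` (`supp` for `r`). If `|i| + |j| > M` then `|i + j| > M` or `|i - j| > M`; in the second case `p i q (-j) = 0`, hence
`p i q j = 0` by conjugation with the Weyl element of `f`.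
* `full`: `|i| = M`: `p i = p i ∑ q j = p i q 0` by `zero`; the same for `q i`.
-/

set_option autoImplicit false

open Filter Topology

namespace Pool.Agent.Helper61.RO

universe u

variable {E : Type u} [NormedAddCommGroup E] [NormedSpace ℝ E] [CompleteSpace E]
  {𝔠 : Set (E →L[ℝ] E)} {e e₁ f f₁ : Cx E →L[ℂ] Cx E} {M M' : ℕ}
  {p q r : ℤ → Cx E →L[ℂ] Cx E}

private theorem jt_lie_comm {A B : Cx E →L[ℂ] Cx E} (h : HP.lie A B = 0) : Commute A B :=
  sub_eq_zero.1 h

private theorem jt_comm_lie {A B : Cx E →L[ℂ] Cx E} (h : Commute A B) : HP.lie A B = 0 :=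
  sub_eq_zero.2 h

/-- conjugation by an operator which anticommutes with `S` -/
private theorem jt_grad_conj {S U U' : Cx E →L[ℂ] Cx E} {N : ℕ} (hG : HP.Grad S N p)
    (hU : U * U' = 1) (hS : S * U = -(U * S)) (j : ℤ) : U * p j * U' = p (-j) := by
  have h0 : ∀ k l : ℤ, k + l ≠ 0 → p k * U * p l = 0 := by
    intro k l hkl
    have h1 : p k * S * U * p l = (k : ℂ) • (p k * U * p l) := by
      rw [hG.eig', smul_mul_assoc, smul_mul_assoc]
    have h2 : p k * S * U * p l = -((l : ℂ) • (p k * U * p l)) := by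
      rw [mul_assoc (p k) S U, hS, mul_neg, neg_mul, mul_assoc, mul_assoc, mul_assoc, hG.eig,
        mul_smul_comm, mul_smul_comm, ← mul_assoc]
    have h3 : ((k : ℂ) + (l : ℂ)) • (p k * U * p l) = 0 := by
      rw [add_smul, ← h1, h2, neg_add_cancel]
    rcases smul_eq_zero.1 h3 with h4 | h4
    · exact absurd (by exact_mod_cast h4) hkl
    · exact h4
  have h1 : U * p j = p (-j) * (U * p j) := by
    calc U * p j = 1 * (U * p j) := (one_mul _).symm
      _ = ∑ k ∈ Finset.Icc (-(N : ℤ)) (N : ℤ), p k * (U * p j) := by rw [← hG.sum, Finset.sum_mul]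
      _ = p (-j) * (U * p j) := by
        refine Finset.sum_eq_single (-j) (fun k _ hk => ?_) (fun hk => ?_)
        · rw [← mul_assoc]
          exact h0 k j (fun h => hk (by omega))
        · rw [hG.supp (-j), zero_mul]
          rw [Finset.mem_Icc] at hk
          rw [lt_abs]
          omega
  have h2 : p (-j) * U = p (-j) * U * p j := by
    calc p (-j) * U = p (-j) * U * 1 := (mul_one _).symm
      _ = ∑ k ∈ Finset.Icc (-(N : ℤ)) (N : ℤ), p (-j) * U * p k := by rw [← hG.sum, Finset.mul_sum]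
      _ = p (-j) * U * p j := by
        refine Finset.sum_eq_single j (fun k _ hk => ?_) (fun hk => ?_)
        · exact h0 (-j) k (fun h => hk (by omega))
        · rw [hG.supp j, mul_zero]
          rw [Finset.mem_Icc] at hk
          rw [lt_abs]
          omega
  rw [h1, ← mul_assoc, ← h2, mul_assoc, hU, mul_one]

theorem orth_comm (hN : RNice E) (h𝔠 : RLie 𝔠) (he : TT 𝔠 e e₁) (hf : TT 𝔠 f f₁)
    (ho : Orth e e₁ f f₁) : HP.lie e₁ f = 0 ∧ HP.lie e₁ f₁ = 0 ∧
      HP.lie (HP.lie e e₁) f = 0 ∧ HP.lie (HP.lie e e₁) f₁ = 0 ∧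
      HP.lie (HP.lie f f₁) e = 0 ∧ HP.lie (HP.lie f f₁) e₁ = 0 ∧
      HP.lie (HP.lie e e₁) (HP.lie f f₁) = 0 ∧
      HP.lie (e + f) (e₁ + f₁) = HP.lie e e₁ + HP.lie f f₁ := by
  have hh : HP.HLie (hc 𝔠) := hlie_hc hN h𝔠
  have c1 : Commute e f := jt_lie_comm ho.h
  have c2 : Commute e f₁ := jt_lie_comm ho.h₁
  have c3 : Commute e₁ f := (jt_lie_comm ho.h₂).symm
  have c4 : Commute e₁ f₁ := by
    have h1 : HP.Pr (hc 𝔠) (HP.lie f e) (HP.lie e₁ f₁) := HP.Pr.lie hh hf.pr he.pr
    rw [jt_comm_lie c1.symm] at h1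
    exact jt_lie_comm (h1.unique hh (HP.Pr.zero hh))
  have s1 : Commute (HP.lie e e₁) f := (c1.mul_left c3).sub_left (c3.mul_left c1)
  have s2 : Commute (HP.lie e e₁) f₁ := (c2.mul_left c4).sub_left (c4.mul_left c2)
  have s3 : Commute (HP.lie f f₁) e := (c1.symm.mul_left c2.symm).sub_left (c2.symm.mul_left c1.symm)
  have s4 : Commute (HP.lie f f₁) e₁ := (c3.symm.mul_left c4.symm).sub_left (c4.symm.mul_left c3.symm)
  have s5 : Commute (HP.lie e e₁) (HP.lie f f₁) :=
    (s1.mul_right s2).sub_right (s2.mul_right s1)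
  refine ⟨jt_comm_lie c3, jt_comm_lie c4, jt_comm_lie s1, jt_comm_lie s2, jt_comm_lie s3,
    jt_comm_lie s4, jt_comm_lie s5, ?_⟩
  have e1 : e * f₁ - f₁ * e = 0 := jt_comm_lie c2
  have e2 : f * e₁ - e₁ * f = 0 := ho.h₂
  have e3 : HP.lie (e + f) (e₁ + f₁) = HP.lie e e₁ + HP.lie f f₁ + (e * f₁ - f₁ * e) +
      (f * e₁ - e₁ * f) := by
    unfold HP.lie
    noncomm_ring
  rw [e3, e1, e2, add_zero, add_zero]

/-- the Weyl element of `e` -/
theorem exists_weyl (hN : RNice E) (h𝔠 : RLie 𝔠) (he : TT 𝔠 e e₁) (hf : TT 𝔠 f f₁)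
    (ho : Orth e e₁ f f₁) (hse : Spec e e₁ M p) (hsf : Spec f f₁ M' q) :
    ∃ A ∈ hc 𝔠, (∀ j, HP.ex (Real.pi / 2) (Complex.I • A) * p j *
        HP.ex (-(Real.pi / 2)) (Complex.I • A) = p (-j)) ∧
      ∀ j, HP.ex (Real.pi / 2) (Complex.I • A) * q j *
        HP.ex (-(Real.pi / 2)) (Complex.I • A) = q j := by
  obtain ⟨-, -, -, -, h5, h6, -, -⟩ := orth_comm hN h𝔠 he hf ho
  obtain ⟨a, ha, b, hb, c, hc', ht, hsu⟩ := he.exists_tri hN h𝔠
  have hb' : -b ∈ 𝔠 := by
    have h1 := h𝔠.smul (-1) b hb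
    rwa [neg_one_smul] at h1
  refine ⟨Complex.I • cx (-b), ⟨-b, hb', rfl⟩, ?_⟩
  have hIA : Complex.I • (Complex.I • cx (-b)) = cx b := by
    rw [smul_smul, Complex.I_mul_I, cx_neg, neg_smul, one_smul, neg_neg]
  rw [hIA]
  set U := HP.ex (Real.pi / 2) (cx b) with hU
  set U' := HP.ex (-(Real.pi / 2)) (cx b) with hU'
  have hUU' : U * U' = 1 := HP.ex_mul_neg _ _
  have hU'U : U' * U = 1 := HP.ex_neg_mul _ _
  have hw : U * cx a * U' = -cx a := by
    have h1 := congrArg cx hsu.weyl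
    rw [cx_mul, cx_mul, cx_rx, cx_rx, cx_neg] at h1
    exact h1
  have hSU : HP.lie e e₁ * U = -(U * HP.lie e e₁) := by
    have h1 : cx a * U = -(U * cx a) := by
      have h2 : U * cx a * U' * U = -cx a * U := by rw [hw]
      rw [mul_assoc (U * cx a) U' U, hU'U, mul_one, neg_mul] at h2
      rw [h2, neg_neg]
    rw [ht.ea, smul_mul_assoc, mul_smul_comm, ← smul_neg] at h1
    have h2 := congrArg (fun z => (-Complex.I) • z) h1
    simpa only [smul_smul, neg_mul, Complex.I_mul_I, neg_neg, one_smul] using h2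
  refine ⟨fun j => jt_grad_conj hse.grad hUU' hSU j, fun j => ?_⟩
  have hcb : HP.lie f f₁ * cx b = cx b * HP.lie f f₁ := by
    have s3 : Commute (HP.lie f f₁) e := jt_lie_comm h5
    have s4 : Commute (HP.lie f f₁) e₁ := jt_lie_comm h6
    rw [ht.eb]
    exact s4.sub_right s3
  have h1 : U * q j = q j * U := hsf.grad.comm (HP.ex_comm hcb _).symm j
  rw [h1, mul_assoc, hUU', mul_one]

theorem joint (hN : RNice E) (h𝔠 : RLie 𝔠) (he : TT 𝔠 e e₁) (hf : TT 𝔠 f f₁)
    (ho : Orth e e₁ f f₁) (hse : Spec e e₁ M p) (hsf : Spec f f₁ M q)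
    (hsef : Spec (e + f) (e₁ + f₁) M' r) (hM : M' ≤ M) :
    (∀ i j, p i * q j = q j * p i) ∧
      (∀ i j : ℤ, (M : ℤ) < |i| + |j| → p i * q j = 0) ∧
      ∀ i : ℤ, |i| = (M : ℤ) → p i * q 0 = p i ∧ p 0 * q i = q i := by
  obtain ⟨-, -, -, -, -, -, h7, h8⟩ := orth_comm hN h𝔠 he hf ho
  have s7 : Commute (HP.lie e e₁) (HP.lie f f₁) := jt_lie_comm h7
  -- the projections commute
  have hq : ∀ j, HP.lie e e₁ * q j = q j * HP.lie e e₁ := fun j => hsf.grad.comm s7 j
  have hp' : ∀ i, HP.lie f f₁ * p i = p i * HP.lie f f₁ := fun i => hse.grad.comm s7.symm i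
  have hpq : ∀ i j, p i * q j = q j * p i := fun i j => (hse.grad.comm (hq j).symm i).symm
  -- large sums
  have hclaim : ∀ i j : ℤ, (M : ℤ) < |i + j| → p i * q j = 0 := by
    intro i j hij
    have hT : HP.lie (e + f) (e₁ + f₁) * (p i * q j) = ((i : ℂ) + (j : ℂ)) • (p i * q j) := by
      rw [h8, add_mul, ← mul_assoc, ← mul_assoc, hse.grad.eig, hp', mul_assoc (p i), hsf.grad.eig,
        smul_mul_assoc, mul_smul_comm, ← add_smul]
    have h0 : ∀ k ∈ Finset.Icc (-(M' : ℤ)) (M' : ℤ), r k * (p i * q j) = 0 := by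
      intro k hk
      rw [Finset.mem_Icc] at hk
      have h1 : r k * HP.lie (e + f) (e₁ + f₁) * (p i * q j) = (k : ℂ) • (r k * (p i * q j)) := by
        rw [hsef.grad.eig', smul_mul_assoc]
      have h2 : r k * HP.lie (e + f) (e₁ + f₁) * (p i * q j) =
          ((i : ℂ) + (j : ℂ)) • (r k * (p i * q j)) := by
        rw [mul_assoc, hT, mul_smul_comm]
      have h3 : ((k : ℂ) - ((i : ℂ) + (j : ℂ))) • (r k * (p i * q j)) = 0 := by
        rw [sub_smul, ← h1, ← h2, sub_self]
      rcases smul_eq_zero.1 h3 with h4 | h4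
      · exfalso
        have h5 : k = i + j := by exact_mod_cast sub_eq_zero.1 h4
        rw [lt_abs] at hij
        omega
      · exact h4
    calc p i * q j = 1 * (p i * q j) := (one_mul _).symm
      _ = ∑ k ∈ Finset.Icc (-(M' : ℤ)) (M' : ℤ), r k * (p i * q j) := by
        rw [← hsef.grad.sum, Finset.sum_mul]
      _ = 0 := Finset.sum_eq_zero h0
  have ho' : Orth f f₁ e e₁ :=
    ⟨jt_comm_lie (jt_lie_comm ho.h).symm, ho.h₂, ho.h₁⟩
  obtain ⟨A, -, hA1, hA2⟩ := exists_weyl hN h𝔠 hf he ho' hsf hse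
  set U := HP.ex (Real.pi / 2) (Complex.I • A) with hU
  set U' := HP.ex (-(Real.pi / 2)) (Complex.I • A) with hU'
  have hU'U : U' * U = 1 := HP.ex_neg_mul _ _
  have hzero : ∀ i j : ℤ, (M : ℤ) < |i| + |j| → p i * q j = 0 := by
    intro i j hij
    have h1 : (M : ℤ) < |i + j| ∨ (M : ℤ) < |i + -j| := by
      rcases abs_cases i with ⟨h1, h2⟩ | ⟨h1, h2⟩ <;> rcases abs_cases j with ⟨h3, h4⟩ | ⟨h3, h4⟩ <;>
        rw [lt_abs, lt_abs] <;> omega
    rcases h1 with h1 | h1
    · exact hclaim i j h1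
    · have h2 := hclaim i (-j) h1
      have h3 := hA1 (-j)
      rw [neg_neg] at h3
      rw [← hA2 i, ← h3]
      calc U * p i * U' * (U * q (-j) * U') = U * p i * (U' * U) * (q (-j) * U') := by
            noncomm_ring
        _ = U * (p i * q (-j)) * U' := by
            rw [hU'U]
            noncomm_ring
        _ = 0 := by rw [h2, mul_zero, zero_mul]
  refine ⟨hpq, hzero, fun i hi => ⟨?_, ?_⟩⟩
  · calc p i * q 0 = ∑ j ∈ Finset.Icc (-(M : ℤ)) (M : ℤ), p i * q j := by
          symm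
          refine Finset.sum_eq_single 0 (fun j _ hj => ?_) (fun h => ?_)
          · apply hzero
            rw [hi]
            have := abs_pos.2 hj
            omega
          · exfalso
            apply h
            rw [Finset.mem_Icc]
            omega
      _ = p i := by rw [← Finset.mul_sum, hsf.grad.sum, mul_one]
  · calc p 0 * q i = ∑ j ∈ Finset.Icc (-(M : ℤ)) (M : ℤ), p j * q i := by
          symm
          refine Finset.sum_eq_single 0 (fun j _ hj => ?_) (fun h => ?_)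
          · apply hzero
            rw [hi]
            have := abs_pos.2 hj
            omega
          · exfalso
            apply h
            rw [Finset.mem_Icc]
            omega
      _ = q i := by rw [← Finset.sum_mul, hse.grad.sum, one_mul]

end Pool.Agent.Helper61.RO
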