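import Pool.Agent.Helper61.RO.QuatApi
import Pool.Agent.Helper61.HO.HermNorm

/-!
# RO-33  Norm and numerical radius on a complex block

`a` is a cub, `C` is skew and commutes with `a`. If `|dj x (a (C x))| ≤ v` for all unit vectors `x` of the block of `a`, then `‖C x‖ ≤ 3 v ‖x‖` there.

PROOF. Let `X` be the closed complex subspace `{z : Cx E | cx a z = i z}` (a complex Banach space), and `A : X → X` the restriction of `i cx C` (`cx C`
commutes with `cx a`). For `x` in the block (`a (a x) = - x`) the vector `ζ x = io x - i io (a x)` is in `X` (`cx a ζ = io (a x) + i io x`), and every element of `X` is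
of this form (`exists_re_im`: `z = io x + i io y`, `cx a z = i z` gives `a x = - y`, `a y = x`; `re_im_unique`). `‖ζ x‖ = ‖x‖`: `‖ζ x‖ ≥ ‖x‖` (`norm_re_le`); for
`φ` in the dual space and a complex number `e^(i θ)` with `|(ζ x).ap φ| = Re (e^(i θ) (φ x - i φ (a x))) = φ (cos θ x + sin θ a x) ≤ ‖φ‖ ‖x‖`, as
`cos θ x + sin θ a x = rx θ a x` (`rx_of_cube`). Put `herm_norm_le` (HO/HermNorm, for the complex Banach space `X`) on `A`:
* `Herm A`: `i A = - cx C` on `X`. A norming functional `ψ` on `X` for `z` extends to a norming functional on `Cx E` (Hahn-Banach,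
  `exists_extension_norm_eq`), and `cx C` is skew (`Sk`).
* `‖ψ (A z)‖ ≤ v ‖z‖`: `ψ (A z)` is real (`Herm.im_eq_zero`). `z = ζ x`, `x ≠ 0`; `φ y = Re ψ (ζ (y'))` is only needed on the block: let
  `φ y = Re ψ (ζ (- a (a y)))`: a real functional of norm `≤ 1` (`‖a (a y)‖ ≤ ‖y‖`) with `φ x = ‖x‖`, so `φ = dj x` (`dj_eq`). `A (ζ x) = i io (C x) + io (a (C x)) =
  ζ (a (C x))` (as `a (a (C x)) = - C x`), so `ψ (A z) = φ (a (C x)) = dj x (a (C x))`, absolute value `≤ v ‖x‖` by homogeneity (`dj_smul`).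
So `‖A (ζ x)‖ ≤ 3 v ‖x‖` and `‖A (ζ x)‖ = ‖ζ (a (C x))‖ = ‖a (C x)‖ = ‖C x‖` (`Cub3.norm_apply`).
-/

set_option autoImplicit false

open Filter Topology

namespace Pool.Agent.Helper61.RO

universe u

variable {E : Type u} [NormedAddCommGroup E] [NormedSpace ℝ E] [CompleteSpace E]
  {a C : E →L[ℝ] E}

/-- `x - i a x` -/
private noncomputable def nz (a : E →L[ℝ] E) (x : E) : Cx E := io x - Complex.I • io (a x)

omit [CompleteSpace E] in
private theorem nz_add (x y : E) : nz a (x + y) = nz a x + nz a y := by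
  unfold nz
  rw [map_add, io_add, io_add, smul_add]
  abel

omit [CompleteSpace E] in
private theorem nz_smul (t : ℝ) (x : E) : nz a (t • x) = (t : ℂ) • nz a x := by
  unfold nz
  rw [map_smul, io_smul, io_smul, smul_sub, smul_comm]

omit [CompleteSpace E] in
private theorem nz_eq (x : E) : nz a x = io x + Complex.I • io (-(a x)) := by
  unfold nz
  rw [io_neg, smul_neg, sub_eq_add_neg]

omit [CompleteSpace E] in
private theorem nz_mem {x : E} (hx : a (a x) = -x) : cx a (nz a x) = Complex.I • nz a x := by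
  unfold nz
  rw [map_sub, map_smul, cx_io, cx_io, hx, io_neg, smul_sub, smul_smul, Complex.I_mul_I,
    neg_one_smul, smul_neg, sub_neg_eq_add, sub_neg_eq_add, add_comm]

omit [CompleteSpace E] in
private theorem nz_surj (hN : RNice E) {z : Cx E} (hz : cx a z = Complex.I • z) :
    ∃ x : E, a (a x) = -x ∧ z = nz a x := by
  obtain ⟨x, y, hxy⟩ := exists_re_im hN z
  have h1 : io (a x) + Complex.I • io (a y) = io (-y) + Complex.I • io x := by
    have h2 : cx a z = io (a x) + Complex.I • io (a y) := by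
      rw [hxy, map_add, map_smul, cx_io, cx_io]
    rw [← h2, hz, hxy, smul_add, smul_smul, Complex.I_mul_I, neg_one_smul, io_neg, add_comm]
  obtain ⟨h3, h4⟩ := re_im_unique h1
  refine ⟨x, ?_, ?_⟩
  · rw [h3, map_neg, h4]
  · rw [nz_eq, h3, neg_neg, hxy]

private theorem norm_nz (ha : Cub3 a) {x : E} (hx : a (a x) = -x) : ‖nz a x‖ = ‖x‖ := by
  apply le_antisymm
  · change ‖(nz a x).ap‖ ≤ ‖x‖
    refine ContinuousLinearMap.opNorm_le_bound (nz a x).ap (norm_nonneg _) fun φ => ?_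
    have h1 : (nz a x).ap φ = ((φ x : ℝ) : ℂ) - Complex.I * ((φ (a x) : ℝ) : ℂ) := by
      rw [nz_eq, Cx.ap_add, Cx.ap_smul, io_ap, io_ap, map_neg]
      push_cast
      ring
    obtain ⟨w, hw⟩ : ∃ w : ℂ, w = ((φ x : ℝ) : ℂ) + Complex.I * ((φ (a x) : ℝ) : ℂ) := ⟨_, rfl⟩
    have hwr : w.re = φ x := by rw [hw]; simp
    have hwi : w.im = φ (a x) := by rw [hw]; simp
    have h2 : ‖(nz a x).ap φ‖ = ‖w‖ := by
      rw [h1, ← Complex.norm_conj w]
      congr 1
      apply Complex.ext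
      · rw [Complex.conj_re, hwr]; simp
      · rw [Complex.conj_im, hwi]; simp
    rw [h2]
    have h3 := Complex.norm_mul_cos_arg w
    have h4 := Complex.norm_mul_sin_arg w
    rw [hwr] at h3
    rw [hwi] at h4
    have h5 : rx w.arg a x = Real.cos w.arg • x + Real.sin w.arg • a x := by
      rw [rx_of_cube ha.cube]
      have e : (1 + Real.sin w.arg • a + (1 - Real.cos w.arg) • (a * a)) x =
        x + Real.sin w.arg • a x + (1 - Real.cos w.arg) • a (a x) := rfl
      rw [e, hx, smul_neg, sub_smul, one_smul]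
      abel
    have h6 : ‖w‖ = φ (rx w.arg a x) := by
      rw [h5, map_add, map_smul, map_smul, ← h3, ← h4, smul_eq_mul, smul_eq_mul]
      have h7 := Real.cos_sq_add_sin_sq w.arg
      linear_combination (-‖w‖) * h7
    rw [h6]
    have h8 := (Real.le_norm_self _).trans (φ.le_opNorm (rx w.arg a x))
    rw [ha.sk.norm_rx] at h8
    linarith
  · rw [nz_eq]
    exact norm_re_le _ _

/-- the complex block -/
private noncomputable def nX (a : E →L[ℝ] E) : Submodule ℂ (Cx E) where
  carrier := {z | cx a z = Complex.I • z}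
  add_mem' := by
    intro z w hz hw
    change cx a (z + w) = Complex.I • (z + w)
    rw [map_add, smul_add]
    exact congrArg₂ (· + ·) hz hw
  zero_mem' := by
    change cx a 0 = Complex.I • 0
    rw [map_zero, smul_zero]
  smul_mem' := by
    intro c z hz
    change cx a (c • z) = Complex.I • (c • z)
    rw [map_smul, smul_comm]
    exact congrArg (c • ·) hz

omit [CompleteSpace E] in
private theorem nX_closed : IsClosed (nX a : Set (Cx E)) :=
  isClosed_eq (cx a).continuous (continuous_const_smul Complex.I)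

omit [CompleteSpace E] in
private theorem nX_map (hac : a * C = C * a) {z : Cx E} (hz : z ∈ nX a) :
    Complex.I • cx C z ∈ nX a := by
  change cx a (Complex.I • cx C z) = Complex.I • Complex.I • cx C z
  rw [map_smul]
  congr 1
  have h1 : cx a (cx C z) = cx C (cx a z) := by
    have h2 : cx a * cx C = cx C * cx a := by rw [← cx_mul, ← cx_mul, hac]
    exact congrFun (congrArg DFunLike.coe h2) z
  have h3 : cx a z = Complex.I • z := hz
  rw [h1, h3, map_smul]

/-- the functional `y ↦ Re Ψ (ζ (- a (a y)))` -/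
private noncomputable def nf (ha : Cub3 a) (Ψ : StrongDual ℂ (Cx E)) : StrongDual ℝ E :=
  LinearMap.mkContinuous
    { toFun := fun y => (Ψ (nz a (-(a (a y))))).re
      map_add' := fun x y => by
        rw [map_add, map_add, neg_add, nz_add, map_add, Complex.add_re]
      map_smul' := fun t x => by
        rw [map_smul, map_smul, ← smul_neg, nz_smul, map_smul, smul_eq_mul, Complex.re_ofReal_mul]
        rfl }
    ‖Ψ‖ (fun y => by
      change ‖(Ψ (nz a (-(a (a y))))).re‖ ≤ ‖Ψ‖ * ‖y‖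
      have h1 : a (a (a (a y))) = -(a (a y)) :=
        congrFun (congrArg DFunLike.coe ha.cube) (a y)
      have h2 : a (a (-(a (a y)))) = -(-(a (a y))) := by rw [map_neg, map_neg, h1]
      have h3 : ‖nz a (-(a (a y)))‖ ≤ ‖y‖ := by
        rw [norm_nz ha h2, norm_neg]
        exact (ha.norm_proj_le y).1
      have h4 := (Complex.abs_re_le_norm (Ψ (nz a (-(a (a y)))))).trans
        (Ψ.le_opNorm (nz a (-(a (a y)))))
      rw [Real.norm_eq_abs]
      exact h4.trans (mul_le_mul_of_nonneg_left h3 (norm_nonneg _)))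

private theorem nf_apply (ha : Cub3 a) (Ψ : StrongDual ℂ (Cx E)) {y : E} (hy : a (a y) = -y) :
    nf ha Ψ y = (Ψ (nz a y)).re := by
  change (Ψ (nz a (-(a (a y))))).re = _
  rw [hy, neg_neg]

theorem norm_le_of_numrad (hN : RNice E) (ha : Cub3 a) (hC : Sk C) (hac : a * C = C * a) {v : ℝ}
    (hv : 0 ≤ v) (h : ∀ x : E, a (a x) = -x → ‖x‖ = 1 → |dj x (a (C x))| ≤ v) {x : E}
    (hx : a (a x) = -x) : ‖C x‖ ≤ 3 * v * ‖x‖ := by
  have : CompleteSpace (nX a) := nX_closed.completeSpace_coe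
  have hacx : ∀ y : E, a (C y) = C (a y) := fun y => congrFun (congrArg DFunLike.coe hac) y
  obtain ⟨A, hA⟩ : ∃ A : nX a →L[ℂ] nX a, ∀ z : nX a, (A z : Cx E) = Complex.I • cx C (z : Cx E) :=
    ⟨((Complex.I • cx C).comp (nX a).subtypeL).codRestrict (nX a)
      (fun z => nX_map hac z.2), fun z => rfl⟩
  -- the value of `A` on `ζ x`
  have hval : ∀ x : E, a (a x) = -x → a (a (C x)) = -(C x) ∧
      Complex.I • cx C (nz a x) = nz a (a (C x)) := by
    intro x hx
    have h1 : a (a (C x)) = -(C x) := by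
      rw [hacx, hacx, hx, map_neg]
    refine ⟨h1, ?_⟩
    unfold nz
    rw [h1, map_sub, map_smul, cx_io, cx_io, smul_sub, smul_smul, Complex.I_mul_I, neg_one_smul,
      io_neg, smul_neg, ← hacx]
    abel
  -- homogeneity
  have hhom : ∀ x : E, a (a x) = -x → x ≠ 0 → |dj x (a (C x))| ≤ v * ‖x‖ := by
    intro x hx hx0
    have h0 : 0 < ‖x‖ := norm_pos_iff.2 hx0
    have h1 := h (‖x‖⁻¹ • x) (by rw [map_smul, map_smul, hx, smul_neg])
      (by rw [norm_smul, norm_inv, norm_norm, inv_mul_cancel₀ h0.ne'])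
    rw [dj_smul hN hx0 (inv_pos.2 h0), map_smul, map_smul, map_smul, smul_eq_mul, abs_mul,
      abs_of_pos (inv_pos.2 h0), inv_mul_le_iff₀ h0] at h1
    linarith
  -- extension of norming functionals
  have hext : ∀ (z : nX a) (ψ : StrongDual ℂ (nX a)), HP.Norming ψ z →
      ∃ Ψ : StrongDual ℂ (Cx E), HP.Norming Ψ (z : Cx E) ∧ ∀ w : nX a, Ψ (w : Cx E) = ψ w := by
    intro z ψ hψ
    obtain ⟨Ψ, h1, h2⟩ := exists_extension_norm_eq (nX a) ψ
    refine ⟨Ψ, ⟨by rw [h2]; exact hψ.1, ?_⟩, h1⟩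
    rw [h1, hψ.2]
    rfl
  have hherm : HP.Herm A := by
    intro z ψ hψ
    obtain ⟨Ψ, h1, h2⟩ := hext z ψ hψ
    have h3 := hC (z : Cx E) Ψ h1
    have h4 : (((Complex.I • A) z : nX a) : Cx E) = -(cx C (z : Cx E)) := by
      change Complex.I • (A z : Cx E) = _
      rw [hA, smul_smul, Complex.I_mul_I, neg_one_smul]
    rw [← h2, h4, map_neg, Complex.neg_re, h3, neg_zero]
  have hnum : ∀ (z : nX a) (ψ : StrongDual ℂ (nX a)), HP.Norming ψ z → ‖ψ (A z)‖ ≤ v * ‖z‖ := by
    intro z ψ hψ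
    have him := HP.Herm.im_eq_zero hherm hψ
    obtain ⟨x, hx, hzx⟩ := nz_surj hN z.2
    have hnz : ‖z‖ = ‖x‖ := by
      change ‖(z : Cx E)‖ = ‖x‖
      rw [hzx, norm_nz ha hx]
    have h1 : ‖ψ (A z)‖ = |(ψ (A z)).re| := by
      rw [← Complex.abs_re_eq_norm.2 him]
    rw [h1, hnz]
    by_cases hx0 : x = 0
    · have h2 : z = 0 := by
        rw [hx0, norm_zero] at hnz
        exact norm_eq_zero.1 hnz
      rw [h2, map_zero, map_zero, hx0, norm_zero, mul_zero, Complex.zero_re, abs_zero]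
    obtain ⟨Ψ, h2, h3⟩ := hext z ψ hψ
    obtain ⟨h4, h5⟩ := hval x hx
    have h6 : RNorming (nf ha Ψ) x := by
      refine ⟨(LinearMap.mkContinuous_norm_le _ (norm_nonneg _) _).trans h2.1, ?_⟩
      rw [nf_apply ha Ψ hx, ← hzx, h2.2, Complex.ofReal_re, hzx, norm_nz ha hx]
    have h7 : (ψ (A z)).re = dj x (a (C x)) := by
      rw [dj_eq hN hx0 h6, nf_apply ha Ψ (by rw [h4, map_neg]), ← h3, hA, hzx, h5]
    rw [h7]
    exact hhom x hx hx0
  have hnorm := HP.herm_norm_le hherm hv hnum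
  obtain ⟨h4, h5⟩ := hval x hx
  have h6 := A.le_opNorm ⟨nz a x, nz_mem hx⟩
  have h7 : ‖A ⟨nz a x, nz_mem hx⟩‖ = ‖C x‖ := by
    change ‖(A ⟨nz a x, nz_mem hx⟩ : Cx E)‖ = _
    rw [hA]
    change ‖Complex.I • cx C (nz a x)‖ = _
    rw [h5, norm_nz ha (by rw [h4, map_neg]), ha.norm_apply h4]
  have h8 : ‖(⟨nz a x, nz_mem hx⟩ : nX a)‖ = ‖x‖ := norm_nz ha hx
  rw [h7, h8] at h6
  exact h6.trans (mul_le_mul_of_nonneg_right hnorm (norm_nonneg _))

end Pool.Agent.Helper61.RO
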