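import Pool.Agent.Helper61.RO.EvenDecomp
import Pool.Agent.Helper61.RO.NumRad

/-!
# RO-34  Squares of off-diagonal operators in the extremal case

`H` = block of `a` (`a (a x) = - x`), `u ∈ Lo a` exchanges `H` and `ker a`. PROOF. `A = u u`; `A` maps `H` to `H`.
(1) `B = [u, [u, a]] = u u a - 2 u a u + a u u` is skew and commutes with `a a`. `quat_even`: `B = β₁ a + ε b + ε' c + C`. On `f ∈ H`: `u f ∈ ker a`, so
`A a f + a A f = B f`. The left side `T = A a + a A` satisfies `a T f = T a f` (`a A a f - A f` both, `a a A f = - A f`), so `ε b + ε' c` commutes with `a` on `H`,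
`ε = ε' = 0` (apply to a nonzero `f ∈ H`: `[a, ε b + ε' c] f = 2 ε c f - 2 ε' b f`, and `b f`, `c f` are linearly independent: apply `c`, `a`...). So on `H`:
(i) `A a + a A = β₁ a + C`, and in the same way for `b`, `c` (`Quat.cyc`, `Ext.cyc`; `Lo b = Lo a` because `b b = a a`):
(ii) `A b + b A = β₂ b + C'`, (iii) `A c + c A = β₃ c + C''`, with `C, C', C''` skew and commuting with `a, b, c`.
(2) `c A = a (b A) = a (β₂ b + C' - A b) = β₂ c + a C' - (β₁ a + C - A a) b = (β₂ - β₁) c + a C' - b C + A c` on `H`; with (iii):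
`2 c A = (β₂ - β₁ + β₃) c + a C' - b C + C''`; multiply by `- c / 2`: `A = (β₂ + β₃ - β₁)/2 - (1/2) Z`, `Z = a C + b C' + c C''`. The cyclic versions give
the same with `β₁` etc. permuted, so (`H ≠ 0`) `β₁ = β₂ = β₃ =: β` and `A = β/2 - Z/2` on `H`. `κ = - β / 2`.
(3) From (i): `a A a = A - β + a C` on `H`, and similarly for `b`, `c`. For a unit `f ∈ H`: `dj (a f) (A (a f)) = - dj f (a A a f)` (`Cub3.dj_map'`), so
`S = dj f (A f) + dj (a f) (A a f) + dj (b f) (A b f) + dj (c f) (A c f) = dj f ((A - a A a - b A b - c A c) f) = dj f ((- 2 A + 3 β - Z) f) = 2 β = - 4 κ`.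
Each of the four terms is `≤ 0` (`Sk.dj_sq`), so `κ ≥ 0` and the sum of any two of them is in `[- 4 κ, 0]`.
(4) `dj f (a C f) = dj f (a A a f) - dj f (A f) + β = - (dj (a f) (A a f) + dj f (A f)) - 2 κ`, so `|dj f (a C f)| ≤ 2 κ`. `norm_le_of_numrad`: `‖C f‖ ≤ 6 κ ‖f‖`; the
same for `C'`, `C''`. So `‖A f‖ ≤ κ ‖f‖ + (1/2) (6 + 6 + 6) κ ‖f‖ = 10 κ ‖f‖` (`‖a y‖ = ‖y‖` on `H`).
-/

set_option autoImplicit false

open Filter Topology

namespace Pool.Agent.Helper61.RO

universe u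

variable {E : Type u} [NormedAddCommGroup E] [NormedSpace ℝ E] [CompleteSpace E]
  {a b c u : E →L[ℝ] E}

private theorem kp_ker (hcube : a * a * a = -a) (hu : u ∈ Lo a) :
    (∀ x, u (a (a x)) = -(u x) - a (a (u x))) ∧ (∀ x, a (a (u (a x))) = 0) ∧
      ∀ x, a (a (a x)) = -(a x) := by
  have h3 : ∀ x, a (a (a x)) = -(a x) := fun x => congrArg (fun T : E →L[ℝ] E => T x) hcube
  have h1 : ∀ x, u x = -(a (a (u x))) - u (a (a x)) - (2 : ℝ) • a (a (u (a (a x)))) := by
    intro x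
    have h := congrArg (fun T : E →L[ℝ] E => T x) hu.2
    have h' : u x = -(a (a (u (x + a (a x))))) - (u (a (a x)) + a (a (u (a (a x))))) := h
    rw [map_add, map_add, map_add] at h'
    conv_lhs => rw [h']
    module
  have h2 : ∀ x, a (a (u (a (a x)))) = 0 := by
    intro x
    have h := congrArg (fun y => a (a y)) (h1 x)
    simp only [map_sub, map_neg, map_smul, h3] at h
    have h' : a (a (u x)) = a (a (u x)) + a (a (u (a (a x)))) := by
      conv_lhs => rw [h]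
      module
    exact (left_eq_add.1 h')
  refine ⟨fun x => ?_, fun x => ?_, h3⟩
  · have h := h1 x
    rw [h2 x, smul_zero, sub_zero] at h
    have h' : u (a (a x)) = -(u x) - a (a (u x)) + (u x - (-(a (a (u x))) - u (a (a x)))) := by
      abel
    rw [h', sub_eq_zero.2 h, add_zero]
  · have h := h2 (a x)
    rw [h3 x, map_neg, map_neg, map_neg, neg_eq_zero] at h
    exact h

private theorem kp_blk (hcube : a * a * a = -a) (hu : u ∈ Lo a) {f : E} (hf : a (a f) = -f) :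
    a (u f) = 0 ∧ a (a (u (u f))) = -(u (u f)) := by
  obtain ⟨h1, -, h3⟩ := kp_ker hcube hu
  have h4 : a (a (u f)) = 0 := by
    have h := h1 f
    rw [hf, map_neg] at h
    have h' : a (a (u f)) = -(u f) - (-(u f) - a (a (u f))) := by abel
    rw [h', ← h, sub_self]
  have h5 : a (u f) = 0 := by
    have h := h3 (u f)
    rw [h4, map_zero] at h
    exact (neg_eq_zero.1 h.symm)
  refine ⟨h5, ?_⟩
  have h := h1 (u f)
  rw [h5, map_zero, map_zero] at h
  have h' : a (a (u (u f))) = -(u (u f)) - (-(u (u f)) - a (a (u (u f)))) := by abel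
  rw [h', ← h, sub_zero]

private theorem kp_step (h : Quat a b c) (hE : Ext a b c) (hu : u ∈ Lo a) :
    ∃ (β : ℝ) (C : E →L[ℝ] E), Sk C ∧ a * C = C * a ∧ b * C = C * b ∧ c * C = C * c ∧
      ∀ f, a (a f) = -f → u (u (a f)) + a (u (u f)) = β • a f + C f := by
  obtain ⟨h1, h2, h3⟩ := kp_ker h.cube hu
  have hBs : Sk (br u (br u a)) := hu.1.br (hu.1.br h.ska)
  have hBx : ∀ x, br u (br u a) x = u (u (a x)) - (2 : ℝ) • u (a (u x)) + a (u (u x)) := by
    intro x
    show u (u (a x) - a (u x)) - (u (a (u x)) - a (u (u x))) = _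
    rw [map_sub]
    module
  have h4 : ∀ x, a (a (u (u (a x)))) = -(u (u (a x))) := by
    intro x
    have e := h1 (u (a x))
    rw [h2 x, map_zero] at e
    have e' : a (a (u (u (a x)))) = -(u (u (a x))) - (-(u (u (a x))) - a (a (u (u (a x))))) := by
      abel
    rw [e', ← e, sub_zero]
  have hBc : a * a * br u (br u a) = br u (br u a) * (a * a) := by
    ext1 x
    show a (a (br u (br u a) x)) = br u (br u a) (a (a x))
    rw [hBx, hBx]
    simp only [map_sub, map_neg, map_add, map_smul, h4, h1, h2, h3, neg_neg, sub_zero,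
      smul_zero]
    module
  obtain ⟨β, ε, ε', C, hC, hCa, hCb, hCc, hB⟩ := quat_even h hE hBs hBc
  have hT : ∀ f, a (a f) = -f → u (u (a f)) + a (u (u f)) = β • a f + ε • b f + ε' • c f + C f := by
    intro f hf
    have h4 := congrArg (fun T : E →L[ℝ] E => T f) hB
    have h5 : br u (br u a) f = β • a f + ε • b f + ε' • c f + C f := h4
    rw [hBx, (kp_blk h.cube hu hf).1, map_zero, smul_zero, sub_zero] at h5
    exact h5
  have hab : ∀ x, a (b x) = c x := fun x => congrArg (fun T : E →L[ℝ] E => T x) h.ab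
  have hac : ∀ x, a (c x) = -(b x) := fun x => congrArg (fun T : E →L[ℝ] E => T x) h.ac
  have hba : ∀ x, b (a x) = -(c x) := fun x => congrArg (fun T : E →L[ℝ] E => T x) h.ba
  have hca : ∀ x, c (a x) = b x := fun x => congrArg (fun T : E →L[ℝ] E => T x) h.ca
  have hCa' : ∀ x, a (C x) = C (a x) := fun x => congrArg (fun T : E →L[ℝ] E => T x) hCa
  obtain ⟨z, hz0, hz⟩ : ∃ z, z ≠ 0 ∧ a (a z) = -z := by
    by_contra hc
    push Not at hc
    refine h.ne ?_
    ext1 x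
    show a x = 0
    by_contra hx
    exact hc (a x) hx (h3 x)
  have hcb : ∀ x, c (b x) = -(a x) := fun x => congrArg (fun T : E →L[ℝ] E => T x) h.cb
  have hbc : ∀ x, b (c x) = a x := fun x => congrArg (fun T : E →L[ℝ] E => T x) h.bc
  have hbb : ∀ x, b (b x) = a (a x) := fun x => congrArg (fun T : E →L[ℝ] E => T x) h.sqb
  have hcc : ∀ x, c (c x) = a (a x) := fun x => congrArg (fun T : E →L[ℝ] E => T x) h.sqc
  have hzz : ε = 0 ∧ ε' = 0 := by
    have e1 := congrArg a (hT z hz)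
    have e2 := hT (a z) (by rw [hz, map_neg])
    simp only [map_add, map_smul, map_neg, hab, hac, hba, hca, hz, hCa',
      (kp_blk h.cube hu hz).2] at e1 e2
    have e3 : ε • c z = ε' • b z := by
      have e4 : (2 : ℝ) • (ε • c z - ε' • b z) = 0 := by
        have e5 := e1.symm.trans ((add_comm _ _).trans e2)
        have e6 := sub_eq_zero.2 e5
        rw [← e6]
        module
      exact sub_eq_zero.1 ((smul_eq_zero.1 e4).resolve_left two_ne_zero)
    have e6 := congrArg (fun z => c z) e3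
    have e7 := congrArg (fun z => b z) e3
    simp only [map_smul, hcb, hbc, hbb, hcc, hz] at e6 e7
    have e4 : (ε ^ 2 + ε' ^ 2) • z = 0 := by
      have e8 : ε ^ 2 • z = -(ε' ^ 2 • z) := by
        calc ε ^ 2 • z = -(ε • (ε • -z)) := by module
          _ = -(ε • (ε' • -(a z))) := by rw [e6]
          _ = ε' • (ε • a z) := by module
          _ = ε' • (ε' • -z) := by rw [e7]
          _ = -(ε' ^ 2 • z) := by module
      rw [add_smul, e8, neg_add_cancel]
    have e5 := (smul_eq_zero.1 e4).resolve_right hz0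
    constructor <;> nlinarith [sq_nonneg ε, sq_nonneg ε']
  refine ⟨β, C, hC, hCa, hCb, hCc, fun f hf => ?_⟩
  rw [hT f hf, hzz.1, hzz.2]
  module

private theorem kp_two (h : Quat a b c) {A C₁ C₂ C₃ : E →L[ℝ] E} {β₁ β₂ β₃ : ℝ}
    (hA : ∀ f, a (a f) = -f → a (a (A f)) = -(A f)) (hc1 : b * C₁ = C₁ * b)
    (h1 : ∀ f, a (a f) = -f → A (a f) + a (A f) = β₁ • a f + C₁ f)
    (h2 : ∀ f, a (a f) = -f → A (b f) + b (A f) = β₂ • b f + C₂ f)
    (h3 : ∀ f, a (a f) = -f → A (c f) + c (A f) = β₃ • c f + C₃ f) {f : E}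
    (hf : a (a f) = -f) :
    (2 : ℝ) • A f = (β₂ + β₃ - β₁) • f - (a (C₁ f) + b (C₂ f) + c (C₃ f)) := by
  have hab : ∀ x, a (b x) = c x := fun x => congrArg (fun T : E →L[ℝ] E => T x) h.ab
  have hca : ∀ x, c (a x) = b x := fun x => congrArg (fun T : E →L[ℝ] E => T x) h.ca
  have hcb : ∀ x, c (b x) = -(a x) := fun x => congrArg (fun T : E →L[ℝ] E => T x) h.cb
  have hcc : ∀ x, c (c x) = a (a x) := fun x => congrArg (fun T : E →L[ℝ] E => T x) h.sqc
  have hC1 : ∀ x, b (C₁ x) = C₁ (b x) := fun x => congrArg (fun T : E →L[ℝ] E => T x) hc1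
  have hbf : a (a (b f)) = -(b f) := by
    have h4 := (h.map f).2.1
    exact h4
  have e1 := h1 (b f) hbf
  have e2 := congrArg a (h2 f hf)
  have e3 := h3 f hf
  simp only [map_add, map_smul, hab] at e1 e2
  rw [← hC1] at e1
  -- 2 c A f
  have e4 : (2 : ℝ) • c (A f) = (β₂ + β₃ - β₁) • c f + a (C₂ f) - b (C₁ f) + C₃ f := by
    have r1 : c (A f) = β₂ • c f + a (C₂ f) - a (A (b f)) := by
      rw [← e2]; abel
    have r2 : a (A (b f)) = β₁ • c f + b (C₁ f) - A (c f) := by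
      rw [← e1]; abel
    have r3 : A (c f) = β₃ • c f + C₃ f - c (A f) := by
      rw [← e3]; abel
    have r4 : c (A f) + c (A f) = (β₂ • c f + a (C₂ f) - (β₁ • c f + b (C₁ f) -
        (β₃ • c f + C₃ f - c (A f)))) + c (A f) := by
      rw [← r3, ← r2, ← r1]
    rw [two_smul, r4]
    module
  have e5 := congrArg c e4
  simp only [map_add, map_sub, map_smul, hca, hcb, hcc, hf, hA f hf] at e5
  have e6 : (2 : ℝ) • A f = -((2 : ℝ) • -(A f)) := by module
  rw [e6, e5]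
  module

private theorem kp_term (hN : RNice E) {D A C : E →L[ℝ] E} (hD : Cub3 D) {β : ℝ} {f : E}
    (h : A (D f) + D (A f) = β • D f + C f) (hA : D (D (A f)) = -(A f))
    (hA' : D (D (A (D f))) = -(A (D f))) (hf : D (D f) = -f) (hf1 : ‖f‖ = 1) :
    dj (D f) (A (D f)) = -(dj f (A f)) + β - dj f (D (C f)) := by
  have hf0 : f ≠ 0 := norm_ne_zero_iff.1 (by rw [hf1]; exact one_ne_zero)
  rw [hD.dj_map' hN hf0 hf hA']
  have e1 : A (D f) = β • D f + C f - D (A f) := by rw [← h]; abel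
  have e2 : D (A (D f)) = -(β • f) + D (C f) + A f := by
    rw [e1, map_sub, map_add, map_smul, hf, hA]
    module
  rw [e2, map_add, map_add, map_neg, map_smul, dj_self, hf1, smul_eq_mul]
  ring

theorem exists_kappa (hN : RNice E) (h : Quat a b c) (hE : Ext a b c) (hu : u ∈ Lo a) :
    ∃ κ : ℝ, 0 ≤ κ ∧ (∀ f : E, a (a f) = -f → ‖u (u f)‖ ≤ 10 * κ * ‖f‖) ∧
      ∀ f : E, a (a f) = -f → ‖f‖ = 1 →
        4 * κ = -(dj f (u (u f)) + dj (a f) (u (u (a f))) + dj (b f) (u (u (b f))) +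
          dj (c f) (u (u (c f)))) := by
  have h' := h.cyc
  have h'' := h'.cyc
  have hE' := hE.cyc h
  have hE'' := hE'.cyc h'
  have hub : u ∈ Lo b := by
    have := hu
    have hs := h.sqb
    unfold Lo at this ⊢
    rw [hs]
    exact this
  have huc : u ∈ Lo c := by
    have := hu
    have hs := h.sqc
    unfold Lo at this ⊢
    rw [hs]
    exact this
  obtain ⟨β₁, C₁, hC1, c1a, c1b, c1c, g1⟩ := kp_step h hE hu
  obtain ⟨β₂, C₂, hC2, c2b, c2c, c2a, g2⟩ := kp_step h' hE' hub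
  obtain ⟨β₃, C₃, hC3, c3c, c3a, c3b, g3⟩ := kp_step h'' hE'' huc
  have hbb : ∀ x, b (b x) = a (a x) := fun x => congrArg (fun T : E →L[ℝ] E => T x) h.sqb
  have hcc : ∀ x, c (c x) = a (a x) := fun x => congrArg (fun T : E →L[ℝ] E => T x) h.sqc
  have hA : ∀ f, a (a f) = -f → a (a ((u * u) f)) = -((u * u) f) := fun f hf =>
    (kp_blk h.cube hu hf).2
  have k1 : ∀ f, a (a f) = -f → (u * u) (a f) + a ((u * u) f) = β₁ • a f + C₁ f := g1
  have k2 : ∀ f, a (a f) = -f → (u * u) (b f) + b ((u * u) f) = β₂ • b f + C₂ f := fun f hf =>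
    g2 f (by rw [hbb, hf])
  have k3 : ∀ f, a (a f) = -f → (u * u) (c f) + c ((u * u) f) = β₃ • c f + C₃ f := fun f hf =>
    g3 f (by rw [hcc, hf])
  have m1 : ∀ f, a (a f) = -f → (2 : ℝ) • (u * u) f = (β₂ + β₃ - β₁) • f -
      (a (C₁ f) + b (C₂ f) + c (C₃ f)) := fun f hf => kp_two h hA c1b k1 k2 k3 hf
  have m2 : ∀ f, a (a f) = -f → (2 : ℝ) • (u * u) f = (β₃ + β₁ - β₂) • f -
      (b (C₂ f) + c (C₃ f) + a (C₁ f)) := fun f hf =>
    kp_two h' (fun f hf => by rw [hbb] at hf ⊢; exact hA f hf) c2c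
      (fun f hf => k2 f (by rw [← hbb, hf])) (fun f hf => k3 f (by rw [← hbb, hf]))
      (fun f hf => k1 f (by rw [← hbb, hf])) (by rw [hbb, hf])
  have m3 : ∀ f, a (a f) = -f → (2 : ℝ) • (u * u) f = (β₁ + β₂ - β₃) • f -
      (c (C₃ f) + a (C₁ f) + b (C₂ f)) := fun f hf =>
    kp_two h'' (fun f hf => by rw [hcc] at hf ⊢; exact hA f hf) c3a
      (fun f hf => k3 f (by rw [← hcc, hf])) (fun f hf => k1 f (by rw [← hcc, hf]))
      (fun f hf => k2 f (by rw [← hcc, hf])) (by rw [hcc, hf])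
  obtain ⟨y, hy⟩ : ∃ y, a y ≠ 0 := by
    by_contra hc
    push Not at hc
    exact h.ne (by ext1 x; exact hc x)
  have hf0 : a (a (a y)) = -(a y) := congrArg (fun T : E →L[ℝ] E => T y) h.cube
  have b12 : β₁ = β₂ := by
    have e1 := (m1 _ hf0).symm.trans (m2 _ hf0)
    have e2 : (2 * (β₂ - β₁)) • a y = 0 := by
      have e3 := sub_eq_zero.2 e1
      rw [← e3]
      module
    have e3 := (smul_eq_zero.1 e2).resolve_right hy
    linarith
  have b13 : β₁ = β₃ := by
    have e1 := (m1 _ hf0).symm.trans (m3 _ hf0)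
    have e2 : (2 * (β₃ - β₁)) • a y = 0 := by
      have e3 := sub_eq_zero.2 e1
      rw [← e3]
      module
    have e3 := (smul_eq_zero.1 e2).resolve_right hy
    linarith
  subst b12
  subst b13
  have ma : ∀ f, a (a f) = -f → a (a (a f)) = -(a f) := fun f hf => by rw [hf, map_neg]
  have mb : ∀ f, a (a (b f)) = -(b f) := fun f => (h.map f).2.1
  have mc : ∀ f, a (a (c f)) = -(c f) := fun f => (h.map f).2.2
  -- the four terms
  have t1 : ∀ f, a (a f) = -f → ‖f‖ = 1 → dj (a f) (u (u (a f))) =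
      -(dj f (u (u f))) + β₁ - dj f (a (C₁ f)) := fun f hf hf1 =>
    kp_term hN (A := u * u) h.cub (k1 f hf) (hA f hf) (hA _ (ma f hf)) hf hf1
  have t2 : ∀ f, a (a f) = -f → ‖f‖ = 1 → dj (b f) (u (u (b f))) =
      -(dj f (u (u f))) + β₁ - dj f (b (C₂ f)) := fun f hf hf1 =>
    kp_term hN (A := u * u) h'.cub (k2 f hf) (by rw [hbb]; exact hA f hf)
      (by rw [hbb]; exact hA _ (mb f)) (by rw [hbb, hf]) hf1
  have t3 : ∀ f, a (a f) = -f → ‖f‖ = 1 → dj (c f) (u (u (c f))) =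
      -(dj f (u (u f))) + β₁ - dj f (c (C₃ f)) := fun f hf hf1 =>
    kp_term hN (A := u * u) h''.cub (k3 f hf) (by rw [hcc]; exact hA f hf)
      (by rw [hcc]; exact hA _ (mc f)) (by rw [hcc, hf]) hf1
  have hS : ∀ f, a (a f) = -f → ‖f‖ = 1 → dj f (u (u f)) + dj (a f) (u (u (a f))) +
      dj (b f) (u (u (b f))) + dj (c f) (u (u (c f))) = 2 * β₁ := by
    intro f hf hf1
    have e1 := congrArg (dj f) (m1 f hf)
    have e2 : 2 * dj f (u (u f)) = β₁ - (dj f (a (C₁ f)) + dj f (b (C₂ f)) + dj f (c (C₃ f))) := by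
      have e3 : dj f ((2 : ℝ) • (u * u) f) = 2 * dj f (u (u f)) := by
        rw [map_smul, smul_eq_mul]; rfl
      rw [← e3, e1]
      simp only [map_sub, map_add, map_smul, smul_eq_mul, dj_self, hf1]
      ring
    rw [t1 f hf hf1, t2 f hf hf1, t3 f hf hf1]
    linarith
  have hn : ∀ x, dj x (u (u x)) ≤ 0 := fun x => hu.1.dj_sq x
  -- a unit vector in the block
  have hβ : β₁ ≤ 0 := by
    have hne : ‖a y‖ ≠ 0 := norm_ne_zero_iff.2 hy
    have e1 : a (a ((‖a y‖)⁻¹ • a y)) = -((‖a y‖)⁻¹ • a y) := by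
      rw [map_smul, map_smul, hf0, smul_neg]
    have e2 : ‖(‖a y‖)⁻¹ • a y‖ = 1 := by
      rw [norm_smul, norm_inv, norm_norm, inv_mul_cancel₀ hne]
    have e3 := hS _ e1 e2
    have n1 := hn ((‖a y‖)⁻¹ • a y)
    have n2 := hn (a ((‖a y‖)⁻¹ • a y))
    have n3 := hn (b ((‖a y‖)⁻¹ • a y))
    have n4 := hn (c ((‖a y‖)⁻¹ • a y))
    linarith
  have v1 : ∀ f, a (a f) = -f → ‖f‖ = 1 → |dj f (a (C₁ f))| ≤ 2 * (-β₁ / 2) := by
    intro f hf hf1
    have e1 := t1 f hf hf1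
    have e2 := hS f hf hf1
    have n1 := hn f
    have n2 := hn (a f)
    have n3 := hn (b f)
    have n4 := hn (c f)
    rw [abs_le]
    constructor <;> linarith
  have v2 : ∀ f, a (a f) = -f → ‖f‖ = 1 → |dj f (b (C₂ f))| ≤ 2 * (-β₁ / 2) := by
    intro f hf hf1
    have e1 := t2 f hf hf1
    have e2 := hS f hf hf1
    have n1 := hn f
    have n2 := hn (a f)
    have n3 := hn (b f)
    have n4 := hn (c f)
    rw [abs_le]
    constructor <;> linarith
  have v3 : ∀ f, a (a f) = -f → ‖f‖ = 1 → |dj f (c (C₃ f))| ≤ 2 * (-β₁ / 2) := by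
    intro f hf hf1
    have e1 := t3 f hf hf1
    have e2 := hS f hf hf1
    have n1 := hn f
    have n2 := hn (a f)
    have n3 := hn (b f)
    have n4 := hn (c f)
    rw [abs_le]
    constructor <;> linarith
  refine ⟨-β₁ / 2, by linarith, fun f hf => ?_, fun f hf hf1 => ?_⟩
  · have w1 : ‖C₁ f‖ ≤ 3 * (2 * (-β₁ / 2)) * ‖f‖ :=
      norm_le_of_numrad hN h.cub hC1 c1a (by linarith) v1 hf
    have w2 : ‖C₂ f‖ ≤ 3 * (2 * (-β₁ / 2)) * ‖f‖ :=
      norm_le_of_numrad hN h'.cub hC2 c2b (by linarith)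
        (fun x hx hx1 => v2 x (by rw [← hbb, hx]) hx1) (by rw [hbb, hf])
    have w3 : ‖C₃ f‖ ≤ 3 * (2 * (-β₁ / 2)) * ‖f‖ :=
      norm_le_of_numrad hN h''.cub hC3 c3c (by linarith)
        (fun x hx hx1 => v3 x (by rw [← hcc, hx]) hx1) (by rw [hcc, hf])
    have n1 : ‖a (C₁ f)‖ ≤ ‖C₁ f‖ := by
      have := (a.le_opNorm (C₁ f)).trans
        (mul_le_mul_of_nonneg_right h.cub.norm_le (norm_nonneg _))
      rwa [one_mul] at this
    have n2 : ‖b (C₂ f)‖ ≤ ‖C₂ f‖ := by
      have := (b.le_opNorm (C₂ f)).trans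
        (mul_le_mul_of_nonneg_right h'.cub.norm_le (norm_nonneg _))
      rwa [one_mul] at this
    have n3 : ‖c (C₃ f)‖ ≤ ‖C₃ f‖ := by
      have := (c.le_opNorm (C₃ f)).trans
        (mul_le_mul_of_nonneg_right h''.cub.norm_le (norm_nonneg _))
      rwa [one_mul] at this
    have e1 : u (u f) = (β₁ / 2) • f - ((1 / 2 : ℝ) • a (C₁ f) + (1 / 2 : ℝ) • b (C₂ f) +
        (1 / 2 : ℝ) • c (C₃ f)) := by
      have e2 : u (u f) = (1 / 2 : ℝ) • ((2 : ℝ) • (u * u) f) := by
        rw [smul_smul]; norm_num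
      rw [e2, m1 f hf]
      module
    have e2 : ‖u (u f)‖ ≤ ‖(β₁ / 2) • f‖ + (‖(1 / 2 : ℝ) • a (C₁ f)‖ +
        ‖(1 / 2 : ℝ) • b (C₂ f)‖ + ‖(1 / 2 : ℝ) • c (C₃ f)‖) := by
      rw [e1]
      exact (norm_sub_le _ _).trans (add_le_add le_rfl
        ((norm_add_le _ _).trans (add_le_add (norm_add_le _ _) le_rfl)))
    rw [norm_smul, norm_smul, norm_smul, norm_smul, Real.norm_eq_abs, Real.norm_eq_abs,
      abs_of_nonpos (show β₁ / 2 ≤ 0 by linarith),
      abs_of_nonneg (show (0 : ℝ) ≤ 1 / 2 by norm_num)] at e2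
    have e3 : 0 ≤ -β₁ * ‖f‖ := mul_nonneg (by linarith) (norm_nonneg _)
    linarith
  · have e1 := hS f hf hf1
    linarith

end Pool.Agent.Helper61.RO
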