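import Pool.Agent.Helper61.RO.SpecEx
import Pool.Agent.Helper61.RO.Inc

/-!
# RO-67  The kernel lemma

PROOF of `dagger_cx`. `P ∘ cx D` is complex-linear, so it is enough to consider `z = io y` (`exists_re_im`). `cx D (io y) = io (D y)`; by `mem_closure_of_ker` there are skew `B` with `B x` close to `D y`, and `P (io (B x)) = 0`; `P` is continuous.

PROOF of `wt_kill` (`B` skew, `x` real, `p j (io x) = io x` or more generally only the components `p i (io x)`, `i ∈ I`, are nonzero): the operator `cx B` has a star for `hc (gg E)` (`cx B = - i (i cx B)`, `Pr.smul`, `Pr.of_mem`), so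
`wt M p d (cx B)` has a star (`Pr.wt`) and `lie S (wt M p d (cx B)) = d wt M p d (cx B)` (`Grad.wt_lie`); by `TT.weight` it is `0` for `|d| > 2`. So `p k (cx B (p i z)) = p k (wt M p (k - i) (cx B) (p i z)) = 0` if `|k - i| > 2` (`Grad.wt_mul`).

PROOF of `kernel_le_two`. `x ≠ 0` real with `a x = 0` (`Spec.ker`, `TT.exists_tri`), so `S (io x) = 0`, `p 0 (io x) = io x`. For `k` with `|k| > 2`, `P = p k`: `P (io (B x)) = p k (cx B (p 0 (io x))) = 0`. By `dagger_cx` `p k ∘ cx a = 0`, i.e.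
`k p k = p k S = 0`, `p k = 0`. With `k = M`: `M ≤ 2`.
-/

set_option autoImplicit false

open Filter Topology

namespace Pool.Agent.Helper61.RO

universe u

variable {E : Type u} [NormedAddCommGroup E] [NormedSpace ℝ E] [CompleteSpace E]
  {w w' : Cx E →L[ℂ] Cx E} {M : ℕ} {p : ℤ → Cx E →L[ℂ] Cx E}

theorem dagger_cx [TopologicalSpace.SeparableSpace E] (hN : RNice E) (htr : RTrans E) {x : E}
    (hx : x ≠ 0) {D : E →L[ℝ] E} (hD : Sk D) (h : D x = 0) {P : Cx E →L[ℂ] Cx E}
    (hP : ∀ B : E →L[ℝ] E, Sk B → P (io (B x)) = 0) (z : Cx E) : P (cx D z) = 0 := by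
  have key : ∀ y : E, P (io (D y)) = 0 := by
    intro y
    rw [← norm_le_zero_iff]
    refine le_of_forall_pos_le_add fun ε hε => ?_
    rw [zero_add]
    have hη : 0 < ε / (‖P‖ + 1) := by positivity
    obtain ⟨B, hB, hBx⟩ := mem_closure_of_ker hN htr hx hD h y hη
    have e : P (io (D y)) = P (io (D y - B x)) := by
      rw [io_sub, map_sub, hP B hB, sub_zero]
    rw [e]
    calc ‖P (io (D y - B x))‖ ≤ ‖P‖ * ‖io (D y - B x)‖ := P.le_opNorm _
      _ ≤ ‖P‖ * (ε / (‖P‖ + 1)) := by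
        rw [norm_io, norm_sub_rev]
        exact mul_le_mul_of_nonneg_left hBx.le (norm_nonneg _)
      _ ≤ ε := by
        rw [← mul_div_assoc, div_le_iff₀ (by positivity)]
        nlinarith [norm_nonneg P]
  obtain ⟨a, b, rfl⟩ := exists_re_im hN z
  rw [map_add, map_smul, cx_io, cx_io, map_add, map_smul, key, key, smul_zero, add_zero]

theorem TT.wt_kill (hN : RNice E) (h : TT (gg E) w w') (hs : Spec w w' M p) {B : E →L[ℝ] E}
    (hB : Sk B) {i k : ℤ} (hik : 2 < |k - i|) (z : Cx E) : p k (cx B (p i z)) = 0 := by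
  have hg := rlie_gg hN
  have hh := hlie_hc hN hg
  have hS := (h.mem hN hg).1
  have hA : Complex.I • cx B ∈ hc (gg E) := ⟨B, hB, rfl⟩
  have h1 := HP.Pr.smul hh (HP.Pr.of_mem hh hA) (-Complex.I)
  have e1 : (-Complex.I) • (Complex.I • cx B) = cx B := by
    rw [smul_smul, neg_mul, Complex.I_mul_I, neg_neg, one_smul]
  rw [e1] at h1
  have h2 := HP.Pr.wt hh hs.grad hS h1 (k - i)
  have h3 := h.weight hN hg h2 (hs.grad.wt_lie (k - i) (cx B)) hik
  have h4 := (hs.grad.wt_mul (k - i) i (cx B)).1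
  rw [h3, zero_mul, add_sub_cancel] at h4
  have h5 := congrArg (fun T : Cx E →L[ℂ] Cx E => T z) h4
  exact h5.symm

theorem kernel_le_two [TopologicalSpace.SeparableSpace E] (hN : RNice E) (htr : RTrans E)
    (h : TT (gg E) w w') (hs : Spec w w' M p) (h0 : p 0 ≠ 0) : M ≤ 2 := by
  have hg := rlie_gg hN
  by_contra hM
  push Not at hM
  obtain ⟨a, -, b, -, c, -, ht, hsu⟩ := h.exists_tri hN hg
  obtain ⟨x, hax, hx⟩ := (hs.ker hN ht).1 h0
  have hS : HP.lie w w' (io x) = ((0 : ℤ) : ℂ) • io x := by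
    have h1 := congrArg (fun T : Cx E →L[ℂ] Cx E => T (io x)) ht.ea
    change cx a (io x) = Complex.I • HP.lie w w' (io x) at h1
    rw [cx_io, hax, io_zero] at h1
    rw [Int.cast_zero, zero_smul]
    exact (smul_eq_zero.1 h1.symm).resolve_left Complex.I_ne_zero
  have hp0 : p 0 (io x) = io x := (hs.grad.fix_iff 0 _).2 hS
  have hP : ∀ B : E →L[ℝ] E, Sk B → p (M : ℤ) (io (B x)) = 0 := by
    intro B hB
    rw [← cx_io, ← hp0]
    refine h.wt_kill hN hs hB ?_ _
    rw [sub_zero, abs_of_nonneg (by omega)]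
    omega
  have hD := dagger_cx hN htr hx hsu.ska hax hP
  apply hs.top
  ext1 z
  have h3 := congrArg (fun T : Cx E →L[ℂ] Cx E => T z) (hs.grad.eig' (M : ℤ))
  change p (M : ℤ) (HP.lie w w' z) = ((M : ℤ) : ℂ) • p (M : ℤ) z at h3
  have h4 := hD z
  rw [ht.ea] at h4
  change p (M : ℤ) (Complex.I • HP.lie w w' z) = 0 at h4
  rw [map_smul] at h4
  have h5 := (smul_eq_zero.1 h4).resolve_left Complex.I_ne_zero
  rw [h5] at h3
  refine (smul_eq_zero.1 h3.symm).resolve_left ?_
  exact_mod_cast (by omega : M ≠ 0)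

end Pool.Agent.Helper61.RO
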