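import Pool.Agent.Helper61.RO.SkApi
import Pool.Agent.Helper61.HO.WLink
import Pool.Agent.Helper61.HO.AdApi

/-!
# RO-11  Real links

PROOFS.
* `neg`, `sub`, `pol`, `closed`: as for `WLink` (`HO/WLink.lean`), with `rulim_of_tendsto`.
* `lie_lie`: `[[A, B], Z] = (A B Z + Z B A) - (B A Z + Z A B)`, two uses of `pol`.
* `conj_mem_of_ad`: `rx s K * Z * rx (-s) K = ∑ (s ^ n / n!) (ad K)^n Z` (norm convergent; e.g. it is the exponential of the bounded operator
  `s • ad K` of `E →L[ℝ] E` applied to `Z`: left and right multiplication commute; or prove by the uniqueness of the solution of the linear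
  differential equation; `HO/AdApi.lean` has the complex version, which can be transported by `cx`). The partial sums are in `𝓛`, which is closed.
* `even_mem_of_ad`: the sum of the series for `s` and `- s` has only the terms with even `n`.
* `RLink.wlink`: `skew`: definition of `Sk`; `ulim`: `ulim_cx'`; `ad`: `conj_mem_of_ad` with `lie_lie`, `cx_rx`, `cx_mul`.
-/

set_option autoImplicit false

open Filter Topology

namespace Pool.Agent.Helper61.RO

universe u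

variable {E : Type u} [NormedAddCommGroup E] [NormedSpace ℝ E]
  {𝓛 : Set (E →L[ℝ] E)} {A B D D' K Z : E →L[ℝ] E}

theorem RLink.neg (hL : RLink 𝓛) (hD : D ∈ 𝓛) : -D ∈ 𝓛 := by
  have h := hL.smul (-1) D hD
  rwa [neg_one_smul] at h

theorem RLink.sub (hL : RLink 𝓛) (hD : D ∈ 𝓛) (hD' : D' ∈ 𝓛) : D - D' ∈ 𝓛 := by
  rw [sub_eq_add_neg]
  exact hL.add _ hD _ (hL.neg hD')

theorem RLink.pol (hL : RLink 𝓛) (hA : A ∈ 𝓛) (hB : B ∈ 𝓛) (hD : D ∈ 𝓛) :
    A * B * D + D * B * A ∈ 𝓛 := by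
  have e : A * B * D + D * B * A = (A + D) * B * (A + D) - A * B * A - D * B * D := by
    noncomm_ring
  rw [e]
  exact hL.sub (hL.sub (hL.tri _ (hL.add _ hA _ hD) _ hB) (hL.tri _ hA _ hB)) (hL.tri _ hD _ hB)

theorem RLink.isClosed (hL : RLink 𝓛) : IsClosed 𝓛 := by
  apply IsSeqClosed.isClosed
  intro D L hD h
  exact hL.ulim D L hD (rulim_of_tendsto h)

theorem RLink.lie_lie (hL : RLink 𝓛) (hA : A ∈ 𝓛) (hB : B ∈ 𝓛) (hZ : Z ∈ 𝓛) :
    br (br A B) Z ∈ 𝓛 := by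
  have e : br (br A B) Z = (A * B * Z + Z * B * A) - (B * A * Z + Z * A * B) := by
    unfold br
    noncomm_ring
  rw [e]
  exact hL.sub (hL.pol hA hB hZ) (hL.pol hB hA hZ)

private theorem tsum_mem_aux (hL : RLink 𝓛) {a : ℕ → E →L[ℝ] E} (ha : ∀ n, a n ∈ 𝓛)
    {L : E →L[ℝ] E} (h : HasSum a L) : L ∈ 𝓛 := by
  have hp : ∀ n, ∑ i ∈ Finset.range n, a i ∈ 𝓛 := by
    intro n
    induction n with
    | zero => simpa using hL.zero
    | succ n ih =>
      rw [Finset.sum_range_succ]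
      exact hL.add _ ih _ (ha n)
  exact hL.ulim _ L hp (rulim_of_tendsto h.tendsto_sum_nat)

/-- the operator `Z ↦ K Z - Z K` -/
private noncomputable def adR (K : E →L[ℝ] E) : (E →L[ℝ] E) →L[ℝ] (E →L[ℝ] E) :=
  ContinuousLinearMap.mul ℝ (E →L[ℝ] E) K + -((ContinuousLinearMap.mul ℝ (E →L[ℝ] E)).flip K)

private theorem adR_apply (K Z : E →L[ℝ] E) : adR K Z = br K Z := by
  change K * Z + -(Z * K) = K * Z - Z * K
  rw [sub_eq_add_neg]

private theorem rx_mulLeft [CompleteSpace E] (D K : E →L[ℝ] E) (t : ℝ) :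
    rx t (ContinuousLinearMap.mul ℝ (E →L[ℝ] E) D) K = rx t D * K := by
  have h1 := (ContinuousLinearMap.apply ℝ (E →L[ℝ] E) K).hasSum
    (rx_hasSum t (ContinuousLinearMap.mul ℝ (E →L[ℝ] E) D))
  have h2 := (rx_hasSum t D).mul_right K
  have h3 : ∀ n : ℕ, ((t • ContinuousLinearMap.mul ℝ (E →L[ℝ] E) D) ^ n) K =
      (t • D) ^ n * K := by
    intro n
    induction n with
    | zero => simp
    | succ n ih =>
      rw [pow_succ', pow_succ', mul_assoc, ← ih]
      change t • (D * _) = (t • D) * _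
      rw [smul_mul_assoc]
      rfl
  have h4 : (⇑(ContinuousLinearMap.apply ℝ (E →L[ℝ] E) K) ∘ fun n : ℕ =>
      ((n.factorial : ℝ)⁻¹) • (t • ContinuousLinearMap.mul ℝ (E →L[ℝ] E) D) ^ n) =
      fun n : ℕ => ((n.factorial : ℝ)⁻¹) • (t • D) ^ n * K := by
    funext n
    change ((n.factorial : ℝ)⁻¹) • (((t • ContinuousLinearMap.mul ℝ (E →L[ℝ] E) D) ^ n) K) = _
    rw [h3, smul_mul_assoc]
  have h5 : HasSum (fun n : ℕ => ((n.factorial : ℝ)⁻¹) • (t • D) ^ n * K)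
      (ContinuousLinearMap.apply ℝ (E →L[ℝ] E) K
        (rx t (ContinuousLinearMap.mul ℝ (E →L[ℝ] E) D))) := by
    rw [← h4]
    exact h1
  exact h5.unique h2

private theorem rx_mulRight [CompleteSpace E] (D K : E →L[ℝ] E) (t : ℝ) :
    rx t ((ContinuousLinearMap.mul ℝ (E →L[ℝ] E)).flip D) K = K * rx t D := by
  have h1 := (ContinuousLinearMap.apply ℝ (E →L[ℝ] E) K).hasSum
    (rx_hasSum t ((ContinuousLinearMap.mul ℝ (E →L[ℝ] E)).flip D))
  have h2 := (rx_hasSum t D).mul_left K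
  have h3 : ∀ n : ℕ, ((t • (ContinuousLinearMap.mul ℝ (E →L[ℝ] E)).flip D) ^ n) K =
      K * (t • D) ^ n := by
    intro n
    induction n with
    | zero => simp
    | succ n ih =>
      rw [pow_succ', pow_succ, ← mul_assoc, ← ih]
      change t • (_ * D) = _ * (t • D)
      rw [mul_smul_comm]
      rfl
  have h4 : (⇑(ContinuousLinearMap.apply ℝ (E →L[ℝ] E) K) ∘ fun n : ℕ =>
      ((n.factorial : ℝ)⁻¹) • (t • (ContinuousLinearMap.mul ℝ (E →L[ℝ] E)).flip D) ^ n) =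
      fun n : ℕ => K * (((n.factorial : ℝ)⁻¹) • (t • D) ^ n) := by
    funext n
    change ((n.factorial : ℝ)⁻¹) •
      (((t • (ContinuousLinearMap.mul ℝ (E →L[ℝ] E)).flip D) ^ n) K) = _
    rw [h3, mul_smul_comm]
  have h5 : HasSum (fun n : ℕ => K * (((n.factorial : ℝ)⁻¹) • (t • D) ^ n))
      (ContinuousLinearMap.apply ℝ (E →L[ℝ] E) K
        (rx t ((ContinuousLinearMap.mul ℝ (E →L[ℝ] E)).flip D))) := by
    rw [← h4]
    exact h1
  exact h5.unique h2

private theorem rx_adR [CompleteSpace E] (D K : E →L[ℝ] E) (t : ℝ) :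
    rx t (adR D) K = rx t D * K * rx (-t) D := by
  have hc : ContinuousLinearMap.mul ℝ (E →L[ℝ] E) D *
      -((ContinuousLinearMap.mul ℝ (E →L[ℝ] E)).flip D) =
      -((ContinuousLinearMap.mul ℝ (E →L[ℝ] E)).flip D) *
        ContinuousLinearMap.mul ℝ (E →L[ℝ] E) D := by
    ext M : 1
    change D * (-(M * D)) = -((D * M) * D)
    noncomm_ring
  unfold adR
  rw [rx_add_op hc, rx_neg_op]
  change rx t (ContinuousLinearMap.mul ℝ (E →L[ℝ] E) D)
    (rx (-t) ((ContinuousLinearMap.mul ℝ (E →L[ℝ] E)).flip D) K) = _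
  rw [rx_mulRight, rx_mulLeft, mul_assoc]

private theorem adR_hasSum [CompleteSpace E] (K Z : E →L[ℝ] E) (s : ℝ) :
    HasSum (fun n : ℕ => ((n.factorial : ℝ)⁻¹) • (((s • adR K) ^ n) Z))
      (rx s K * Z * rx (-s) K) := by
  have h1 := (ContinuousLinearMap.apply ℝ (E →L[ℝ] E) Z).hasSum (rx_hasSum s (adR K))
  rw [← rx_adR]
  exact h1

private theorem adR_pow_succ (K Z : E →L[ℝ] E) (s : ℝ) (n : ℕ) :
    ((s • adR K) ^ (n + 1)) Z = s • br K (((s • adR K) ^ n) Z) := by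
  rw [pow_succ']
  change s • adR K (((s • adR K) ^ n) Z) = _
  rw [adR_apply]

theorem conj_mem_of_ad [CompleteSpace E] (hL : RLink 𝓛) (hK : ∀ Z ∈ 𝓛, br K Z ∈ 𝓛)
    (hZ : Z ∈ 𝓛) (s : ℝ) : rx s K * Z * rx (-s) K ∈ 𝓛 := by
  refine tsum_mem_aux hL (fun n => hL.smul _ _ ?_) (adR_hasSum K Z s)
  induction n with
  | zero => simpa using hZ
  | succ n ih =>
    rw [adR_pow_succ]
    exact hL.smul _ _ (hK _ ih)

theorem even_mem_of_ad [CompleteSpace E] (hL : RLink 𝓛) (hK : ∀ Z ∈ 𝓛, br K (br K Z) ∈ 𝓛)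
    (hZ : Z ∈ 𝓛) (s : ℝ) : rx s K * Z * rx (-s) K + rx (-s) K * Z * rx s K ∈ 𝓛 := by
  have h1 := adR_hasSum K Z s
  have h2 := adR_hasSum K Z (-s)
  rw [neg_neg] at h2
  have hev : ∀ m : ℕ, ((s • adR K) ^ (2 * m)) Z ∈ 𝓛 := by
    intro m
    induction m with
    | zero => simpa using hZ
    | succ m ih =>
      have e : 2 * (m + 1) = (2 * m + 1) + 1 := by ring
      rw [e, adR_pow_succ, adR_pow_succ]
      have e2 : br K (s • br K (((s • adR K) ^ (2 * m)) Z)) =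
          s • br K (br K (((s • adR K) ^ (2 * m)) Z)) := by
        unfold br
        rw [mul_smul_comm, smul_mul_assoc, smul_sub]
      rw [e2]
      exact hL.smul _ _ (hL.smul _ _ (hK _ ih))
  refine tsum_mem_aux hL (fun n => ?_) (h1.add h2)
  have hneg : ∀ n : ℕ, (((-s) • adR K) ^ n) Z = ((-1 : ℝ) ^ n) • (((s • adR K) ^ n) Z) := by
    intro n
    induction n with
    | zero => simp
    | succ n ih =>
      have e5 : br K (((-1 : ℝ) ^ n) • (((s • adR K) ^ n) Z)) =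
          ((-1 : ℝ) ^ n) • br K (((s • adR K) ^ n) Z) := by
        unfold br
        rw [mul_smul_comm, smul_mul_assoc, smul_sub]
      rw [adR_pow_succ, adR_pow_succ, ih, e5, smul_smul, smul_smul]
      congr 1
      ring
  rw [hneg]
  rcases Nat.even_or_odd' n with ⟨m, rfl | rfl⟩
  · have e3 : ((-1 : ℝ)) ^ (2 * m) = 1 := by
      rw [pow_mul]; simp
    rw [e3, one_smul]
    exact hL.add _ (hL.smul _ _ (hev m)) _ (hL.smul _ _ (hev m))
  · have e3 : ((-1 : ℝ)) ^ (2 * m + 1) = -1 := by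
      rw [pow_succ, pow_mul]; simp
    rw [e3, smul_smul, ← add_smul]
    have e4 : (((2 * m + 1).factorial : ℝ)⁻¹) + (((2 * m + 1).factorial : ℝ)⁻¹) * (-1) = 0 := by
      ring
    rw [e4, zero_smul]
    exact hL.zero

theorem RLink.wlink [CompleteSpace E] (hN : RNice E) (hL : RLink 𝓛) :
    HP.WLink {A : Cx E →L[ℂ] Cx E | ∃ D ∈ 𝓛, A = cx D} where
  skew := by
    rintro _ ⟨D, hD, rfl⟩
    exact hL.sk D hD
  zero := ⟨0, hL.zero, cx_zero.symm⟩
  add := by
    rintro _ ⟨D, hD, rfl⟩ _ ⟨D', hD', rfl⟩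
    exact ⟨D + D', hL.add _ hD _ hD', (cx_add D D').symm⟩
  smul := by
    rintro t _ ⟨D, hD, rfl⟩
    exact ⟨t • D, hL.smul t _ hD, (cx_smul t D).symm⟩
  ulim := by
    intro D L hD h
    choose D' hD' hDD' using hD
    have e : D = fun n => cx (D' n) := funext hDD'
    rw [e] at h
    obtain ⟨L', hL', rfl⟩ := ulim_cx' hN h
    exact ⟨L', hL.ulim D' L' hD' hL', rfl⟩
  tri := by
    rintro _ ⟨A, hA, rfl⟩ _ ⟨B, hB, rfl⟩
    exact ⟨A * B * A, hL.tri _ hA _ hB, by rw [cx_mul, cx_mul]⟩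
  ad := by
    rintro _ ⟨A, hA, rfl⟩ _ ⟨B, hB, rfl⟩ _ ⟨Z, hZ, rfl⟩ s
    refine ⟨rx s (br A B) * Z * rx (-s) (br A B),
      conj_mem_of_ad hL (fun W hW => hL.lie_lie hA hB hW) hZ s, ?_⟩
    have e : cx A * cx B - cx B * cx A = cx (br A B) := by
      unfold br
      rw [cx_sub, cx_mul, cx_mul]
    rw [e, cx_mul, cx_mul, cx_rx, cx_rx]

end Pool.Agent.Helper61.RO
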