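import Pool.Agent.Helper61.RO.M2Line

/-!
# RO-82  Largest weight two: commutators of operators of spin one half

PROOF. `f` from `m2_line`.
(1) `C` skew, commuting with `a`, `b`, `c`: `a (C f) = 0`, so `C f = t f`; `dj f (C f) = 0` (`Sk.dj_apply`), `dj f f = ‖f‖`, so `t = 0`.
(2) `X = br u v = r a + s b + t c + L + C` (`ext_decomp`; `Sk.br`). CLAIM `r = s = t = 0` and `L = 0`.
`V₁ = {x | a (a x) = - x}`, `V₂ = {x | a (a (a x)) = - 4 a x}`, `V₁ ∩ V₂ = 0`, `E = V₁ + V₂` (`dec_two`). `u`, `v` map `V₁` to `V₂` and `V₂` to `V₁` (`half_odd`, `half_even`), so `X` preserves `V₁` and `V₂`; so do `a`, `b`, `c` (`odd_part` for `V₁`; for `V₂`: `V₂ = span {f, b f, c f}`, `m2_line` and `dec_two`: `b (b f) = - 4 f`, ...),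
and `C` (it commutes with `a`). So `L` preserves `V₁` and `V₂` and exchanges them (`half_odd`, `half_even`): `L = 0`.
`V₂` is finite-dimensional (spanned by `f, b f, c f`), and `V₁` is not (otherwise `E` is). `X` restricted to `V₁` has finite-dimensional range (contained in `u V₂ + v V₂`). Let `Z ∈ {a, b, c}`: `X Z - Z X = m Z - Z m`, `m = r a + s b + t c`, maps `V₁` into a finite-dimensional space `X V₁ + Z X V₁`. On `V₁`, `Z = a`:
`m a - a m = - 2 s c + 2 t b` and its square is `- 4 (s² + t²)` (`odd_part`), so it is injective on `V₁` if `(s, t) ≠ 0`: contradiction. So `s = t = 0`; with `Z = b`: `r = 0`. So `X = C`.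
(3) `x ∈ ker a` is `t f`, `X x = C (t f) = 0` by (1).
-/

set_option autoImplicit false

open Filter Topology

namespace Pool.Agent.Helper61.RO

universe u

variable {E : Type u} [NormedAddCommGroup E] [NormedSpace ℝ E] [CompleteSpace E]
  [TopologicalSpace.SeparableSpace E] {w w' : Cx E →L[ℂ] Cx E} {p : ℤ → Cx E →L[ℂ] Cx E}
  {a b c u v C : E →L[ℝ] E} {x : E}

/-- the odd part -/
private def mcOdd (a : E →L[ℝ] E) : Submodule ℝ E where
  carrier := {x | a (a x) = -x}
  add_mem' := by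
    intro x y hx hy
    simp only [Set.mem_ofPred_eq] at hx hy ⊢
    rw [map_add, map_add, hx, hy, neg_add]
  zero_mem' := by simp
  smul_mem' := by
    intro t x hx
    simp only [Set.mem_ofPred_eq] at hx ⊢
    rw [map_smul, map_smul, hx, smul_neg]

/-- the even part -/
private def mcEv (a : E →L[ℝ] E) : Submodule ℝ E where
  carrier := {x | a (a (a x)) = -((4 : ℝ) • a x)}
  add_mem' := by
    intro x y hx hy
    simp only [Set.mem_ofPred_eq] at hx hy ⊢
    rw [map_add, map_add, map_add, hx, hy, smul_add, neg_add]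
  zero_mem' := by simp
  smul_mem' := by
    intro t x hx
    simp only [Set.mem_ofPred_eq] at hx ⊢
    rw [map_smul, map_smul, map_smul, hx, smul_neg, smul_comm]

omit [CompleteSpace E] [TopologicalSpace.SeparableSpace E] in
private theorem mc_zero (h1 : x ∈ mcOdd a) (h2 : x ∈ mcEv a) : x = 0 := by
  have h1' : a (a x) = -x := h1
  have h2' : a (a (a x)) = -((4 : ℝ) • a x) := h2
  rw [h1', map_neg] at h2'
  have h3 : (4 : ℝ) • a x = a x := (neg_injective h2').symm
  have h4 : (3 : ℝ) • a x = 0 := by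
    calc (3 : ℝ) • a x = (4 : ℝ) • a x - a x := by module
      _ = 0 := by rw [h3, sub_self]
  have h5 : a x = 0 := (smul_eq_zero.1 h4).resolve_left (by norm_num)
  rw [h5, map_zero] at h1'
  exact neg_eq_zero.1 h1'.symm

omit [CompleteSpace E] [TopologicalSpace.SeparableSpace E] in
private theorem mc_fin {V₁ V₂ W : Submodule ℝ E} [FiniteDimensional ℝ V₂] [FiniteDimensional ℝ W]
    (hsup : ∀ x, ∃ y ∈ V₁, ∃ z ∈ V₂, x = y + z) (T : E →ₗ[ℝ] E) (hT : ∀ x ∈ V₁, T x ∈ W)
    (hinj : ∀ x ∈ V₁, T x = 0 → x = 0) : FiniteDimensional ℝ E := by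
  obtain ⟨T', hT'⟩ : ∃ T' : V₁ →ₗ[ℝ] W, ∀ x : V₁, ((T' x : W) : E) = T x :=
    ⟨(T.domRestrict V₁).codRestrict W fun x => hT x x.2, fun x => rfl⟩
  have h1 : Function.Injective T' := by
    rw [injective_iff_map_eq_zero]
    intro x hx
    have h2 := hT' x
    rw [hx] at h2
    exact Subtype.ext (hinj x x.2 h2.symm)
  have : FiniteDimensional ℝ V₁ := FiniteDimensional.of_injective T' h1
  have h2 : V₁ ⊔ V₂ = ⊤ := by
    rw [eq_top_iff]
    intro x _
    obtain ⟨y, hy, z, hz, rfl⟩ := hsup x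
    exact Submodule.add_mem_sup hy hz
  have h3 : FiniteDimensional ℝ (V₁ ⊔ V₂ : Submodule ℝ E) := inferInstance
  rw [h2] at h3
  exact Module.Finite.equiv (Submodule.topEquiv (R := ℝ) (M := E))

theorem m2_cent (hN : RNice E) (htr : RTrans E) (h : TT (gg E) w w') (hE : CExt (gg E) w w')
    (hs : Spec w w' 2 p) (ht : Tri w w' a b c) (hC : Sk C) (hCa : a * C = C * a)
    (hx : a x = 0) : C x = 0 := by
  obtain ⟨f, hf0, haf, -, -, -, -, hker, -⟩ := m2_line hN htr h hE hs ht
  have h1 : a (C f) = 0 := by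
    have h2 := congrArg (fun T : E →L[ℝ] E => T f) hCa
    change a (C f) = C (a f) at h2
    rw [h2, haf, map_zero]
  obtain ⟨t, ht'⟩ := hker _ h1
  have h2 := hC.dj_apply f
  rw [ht', map_smul, dj_self, smul_eq_mul] at h2
  have h3 : t = 0 := (mul_eq_zero.1 h2).resolve_right (norm_ne_zero_iff.2 hf0)
  obtain ⟨s, hs'⟩ := hker _ hx
  rw [hs', map_smul, ht', h3, zero_smul, smul_zero]

theorem m2_comm (hN : RNice E) (htr : RTrans E) (hinf : ¬ FiniteDimensional ℝ E)
    (h : TT (gg E) w w') (hE : CExt (gg E) w w') (hs : Spec w w' 2 p) (ht : Tri w w' a b c)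
    (hu : u ∈ Half a) (hv : v ∈ Half a) :
    a * br u v = br u v * a ∧ b * br u v = br u v * b ∧ c * br u v = br u v * c ∧
      ∀ x, a x = 0 → br u v x = 0 := by
  obtain ⟨hsu, -, -, -⟩ := h.su2 hN (rlie_gg hN) ht
  obtain ⟨f, hf0, haf, hbb, hcc, hbc, hcb, hker, hfour⟩ := m2_line hN htr h hE hs ht
  have hab : ∀ y, a (b y) = b (a y) + (2 : ℝ) • c y := by
    intro y
    have h1 := congrArg (fun T : E →L[ℝ] E => T y) hsu.ab
    change a (b y) - b (a y) = (2 : ℝ) • c y at h1
    rw [← h1]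
    abel
  have hca : ∀ y, a (c y) = c (a y) - (2 : ℝ) • b y := by
    intro y
    have h1 := congrArg (fun T : E →L[ℝ] E => T y) hsu.ca
    change c (a y) - a (c y) = (2 : ℝ) • b y at h1
    rw [← h1]
    abel
  have habf : a (b f) = (2 : ℝ) • c f := by rw [hab, haf, map_zero, zero_add]
  have hacf : a (c f) = -((2 : ℝ) • b f) := by rw [hca, haf, map_zero, zero_sub]
  -- the even part
  have hf2 : f ∈ mcEv a := by
    change a (a (a f)) = -((4 : ℝ) • a f)
    rw [haf, map_zero, map_zero, smul_zero, neg_zero]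
  have hbf2 : b f ∈ mcEv a := by
    change a (a (a (b f))) = -((4 : ℝ) • a (b f))
    rw [habf, map_smul, hacf, map_smul, map_neg, map_smul, habf]
    module
  have hcf2 : c f ∈ mcEv a := by
    change a (a (a (c f))) = -((4 : ℝ) • a (c f))
    rw [hacf, map_neg, map_smul, habf, map_neg, map_smul, map_smul, hacf]
    module
  have hdec : ∀ y, ∃ y₁ ∈ mcOdd a, ∃ y₂ ∈ mcEv a, y = y₁ + y₂ := by
    intro y
    obtain ⟨x₀, x₁, x₂, hy, h0, h1, h2, -, -⟩ := dec_two hs ht y
    refine ⟨x₁, h1, x₀ + x₂, Submodule.add_mem _ ?_ ?_, ?_⟩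
    · change a (a (a x₀)) = -((4 : ℝ) • a x₀)
      rw [h0, map_zero, map_zero, smul_zero, neg_zero]
    · change a (a (a x₂)) = -((4 : ℝ) • a x₂)
      rw [h2, map_neg, map_smul]
    · rw [hy]
      abel
  have hspan : ∀ z ∈ mcEv a, ∃ r s t : ℝ, z = r • f + s • b f + t • c f := by
    intro z hz
    obtain ⟨x₀, x₁, x₂, hy, h0, h1, h2, -, -⟩ := dec_two hs ht z
    have e0 : x₀ ∈ mcEv a := by
      change a (a (a x₀)) = -((4 : ℝ) • a x₀)
      rw [h0, map_zero, map_zero, smul_zero, neg_zero]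
    have e2 : x₂ ∈ mcEv a := by
      change a (a (a x₂)) = -((4 : ℝ) • a x₂)
      rw [h2, map_neg, map_smul]
    have e1 : x₁ ∈ mcEv a := by
      have h3 : x₁ = z - x₀ - x₂ := by
        rw [hy]
        abel
      rw [h3]
      exact Submodule.sub_mem _ (Submodule.sub_mem _ hz e0) e2
    have h3 : x₁ = 0 := mc_zero h1 e1
    obtain ⟨r, hr⟩ := hker _ h0
    obtain ⟨s, t, hst⟩ := hfour _ h2
    refine ⟨r, s, t, ?_⟩
    rw [hy, h3, hr, hst]
    abel
  have hfd : FiniteDimensional ℝ (mcEv a) := by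
    have : FiniteDimensional ℝ (Submodule.span ℝ ({f, b f, c f} : Set E)) :=
      FiniteDimensional.span_of_finite ℝ (Set.toFinite _)
    refine Submodule.finiteDimensional_of_le (S₂ := Submodule.span ℝ ({f, b f, c f} : Set E)) ?_
    intro z hz
    obtain ⟨r, s, t, rfl⟩ := hspan z hz
    refine Submodule.add_mem _ (Submodule.add_mem _ ?_ ?_) ?_
    · exact Submodule.smul_mem _ _ (Submodule.subset_span (by simp))
    · exact Submodule.smul_mem _ _ (Submodule.subset_span (by simp))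
    · exact Submodule.smul_mem _ _ (Submodule.subset_span (by simp))
  have hodd : ∀ y ∈ mcOdd a, b (b y) = -y ∧ c (c y) = -y ∧ a (b y) = c y ∧ b (c y) = a y ∧
      c (a y) = b y ∧ b (a y) = -c y ∧ c (b y) = -a y ∧ a (c y) = -b y := fun y hy =>
    odd_part hN (rlie_gg hN) h hs le_rfl ht hy
  have ha1 : ∀ y ∈ mcOdd a, a y ∈ mcOdd a := by
    intro y hy
    change a (a (a y)) = -(a y)
    rw [show a (a y) = -y from hy, map_neg]
  have hb1 : ∀ y ∈ mcOdd a, b y ∈ mcOdd a := by
    intro y hy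
    obtain ⟨-, -, h3, -, -, -, -, h8⟩ := hodd y hy
    change a (a (b y)) = -(b y)
    rw [h3, h8]
  have hc1 : ∀ y ∈ mcOdd a, c y ∈ mcOdd a := by
    intro y hy
    obtain ⟨-, -, h3, -, -, -, -, h8⟩ := hodd y hy
    change a (a (c y)) = -(c y)
    rw [h8, map_neg, h3]
  have ha2 : ∀ y ∈ mcEv a, a y ∈ mcEv a := by
    intro y hy
    change a (a (a (a y))) = -((4 : ℝ) • a (a y))
    rw [show a (a (a y)) = -((4 : ℝ) • a y) from hy, map_neg, map_smul]
  have hb2 : ∀ y ∈ mcEv a, b y ∈ mcEv a := by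
    intro y hy
    obtain ⟨r, s, t, rfl⟩ := hspan y hy
    rw [map_add, map_add, map_smul, map_smul, map_smul, hbb, hbc]
    exact Submodule.add_mem _ (Submodule.add_mem _ (Submodule.smul_mem _ _ hbf2)
      (Submodule.smul_mem _ _ (Submodule.neg_mem _ (Submodule.smul_mem _ _ hf2))))
      (Submodule.smul_mem _ _ (Submodule.zero_mem _))
  have hc2 : ∀ y ∈ mcEv a, c y ∈ mcEv a := by
    intro y hy
    obtain ⟨r, s, t, rfl⟩ := hspan y hy
    rw [map_add, map_add, map_smul, map_smul, map_smul, hcc, hcb]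
    exact Submodule.add_mem _ (Submodule.add_mem _ (Submodule.smul_mem _ _ hcf2)
      (Submodule.smul_mem _ _ (Submodule.zero_mem _)))
      (Submodule.smul_mem _ _ (Submodule.neg_mem _ (Submodule.smul_mem _ _ hf2)))
  have hho : ∀ {q : E →L[ℝ] E}, q ∈ Half a → ∀ y ∈ mcOdd a, q y ∈ mcEv a := fun hq y hy =>
    half_odd hN (rlie_gg hN) h hs le_rfl ht hq hy
  have hhe : ∀ {q : E →L[ℝ] E}, q ∈ Half a → ∀ y ∈ mcEv a, q y ∈ mcOdd a := fun hq y hy =>
    half_even hN (rlie_gg hN) h hs le_rfl ht hq hy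
  obtain ⟨X, hXdef⟩ : ∃ X : E →L[ℝ] E, X = br u v := ⟨_, rfl⟩
  have hXap : ∀ y, X y = u (v y) - v (u y) := by
    intro y
    rw [hXdef]
    rfl
  have hXsk : Sk X := by
    rw [hXdef]
    exact hu.1.br hv.1
  have hX1 : ∀ y ∈ mcOdd a, X y ∈ mcOdd a := by
    intro y hy
    rw [hXap]
    exact Submodule.sub_mem _ (hhe hu _ (hho hv _ hy)) (hhe hv _ (hho hu _ hy))
  have hX2 : ∀ y ∈ mcEv a, X y ∈ mcEv a := by
    intro y hy
    rw [hXap]
    exact Submodule.sub_mem _ (hho hu _ (hhe hv _ hy)) (hho hv _ (hhe hu _ hy))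
  obtain ⟨r, s, t, L, C, hL, hC, hCa, hCb, hCc, hX⟩ := ext_decomp hN h hE hs ht hXsk
  have hCa' : ∀ y, a (C y) = C (a y) := fun y => congrArg (fun T : E →L[ℝ] E => T y) hCa
  have hCb' : ∀ y, b (C y) = C (b y) := fun y => congrArg (fun T : E →L[ℝ] E => T y) hCb
  have hC1 : ∀ y ∈ mcOdd a, C y ∈ mcOdd a := by
    intro y hy
    change a (a (C y)) = -(C y)
    rw [hCa', hCa', show a (a y) = -y from hy, map_neg]
  have hC2 : ∀ y ∈ mcEv a, C y ∈ mcEv a := by
    intro y hy
    change a (a (a (C y))) = -((4 : ℝ) • a (C y))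
    rw [hCa', hCa', hCa', show a (a (a y)) = -((4 : ℝ) • a y) from hy, map_neg, map_smul]
  have hXap' : ∀ y, X y = r • a y + s • b y + t • c y + L y + C y := by
    intro y
    have h1 := congrArg (fun T : E →L[ℝ] E => T y) hX
    exact h1
  have hLap : ∀ y, L y = X y - r • a y - s • b y - t • c y - C y := by
    intro y
    rw [hXap' y]
    abel
  have hL0 : L = 0 := by
    refine ContinuousLinearMap.ext fun y => ?_
    obtain ⟨y₁, h1, y₂, h2, rfl⟩ := hdec y
    have e1 : L y₁ = 0 := by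
      refine mc_zero (a := a) ?_ (hho hL _ h1)
      rw [hLap]
      exact Submodule.sub_mem _ (Submodule.sub_mem _ (Submodule.sub_mem _ (Submodule.sub_mem _
        (hX1 _ h1) (Submodule.smul_mem _ _ (ha1 _ h1))) (Submodule.smul_mem _ _ (hb1 _ h1)))
        (Submodule.smul_mem _ _ (hc1 _ h1))) (hC1 _ h1)
    have e2 : L y₂ = 0 := by
      refine mc_zero (a := a) (hhe hL _ h2) ?_
      rw [hLap]
      exact Submodule.sub_mem _ (Submodule.sub_mem _ (Submodule.sub_mem _ (Submodule.sub_mem _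
        (hX2 _ h2) (Submodule.smul_mem _ _ (ha2 _ h2))) (Submodule.smul_mem _ _ (hb2 _ h2)))
        (Submodule.smul_mem _ _ (hc2 _ h2))) (hC2 _ h2)
    rw [map_add, e1, e2, add_zero, zero_apply]
  have hXap3 : ∀ y, X y = r • a y + s • b y + t • c y + C y := by
    intro y
    rw [hXap', hL0, zero_apply, add_zero]
  -- the finite-dimensional image
  obtain ⟨W, hW⟩ : ∃ W : Submodule ℝ E, W = (mcEv a).map (u : E →ₗ[ℝ] E) ⊔
      (mcEv a).map (v : E →ₗ[ℝ] E) := ⟨_, rfl⟩
  have hWfd : FiniteDimensional ℝ W := by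
    rw [hW]
    infer_instance
  have hXW : ∀ y ∈ mcOdd a, X y ∈ W := by
    intro y hy
    rw [hXap, hW]
    refine Submodule.sub_mem _ ?_ ?_
    · exact Submodule.mem_sup_left ⟨v y, hho hv _ hy, rfl⟩
    · exact Submodule.mem_sup_right ⟨u y, hho hu _ hy, rfl⟩
  have hst : s ^ 2 + t ^ 2 = 0 := by
    by_contra hne
    refine hinf (mc_fin (V₁ := mcOdd a) (V₂ := mcEv a) (W := W ⊔ W.map (a : E →ₗ[ℝ] E)) hdec
      (((X * a - a * X : E →L[ℝ] E)) : E →ₗ[ℝ] E) ?_ ?_)
    · intro y hy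
      change X (a y) - a (X y) ∈ _
      exact Submodule.sub_mem _ (Submodule.mem_sup_left (hXW _ (ha1 _ hy)))
        (Submodule.mem_sup_right ⟨X y, hXW _ hy, rfl⟩)
    · intro y hy h0
      change X (a y) - a (X y) = 0 at h0
      obtain ⟨h1, h2, h3, h4, h5, h6, h7, h8⟩ := hodd y hy
      have e1 : -((2 * s) • c y) + (2 * t) • b y = 0 := by
        rw [← h0, hXap3 (a y), hXap3 y]
        simp only [map_add, map_smul, hCa', h3, h5, h6, h8]
        module
      have e2 : -((2 * s) • c (-((2 * s) • c y) + (2 * t) • b y)) +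
          (2 * t) • b (-((2 * s) • c y) + (2 * t) • b y) = -((4 * (s ^ 2 + t ^ 2)) • y) := by
        simp only [map_add, map_smul, map_neg, h1, h2, h4, h7]
        module
      rw [e1, map_zero, map_zero, smul_zero, smul_zero, neg_zero, add_zero] at e2
      have e3 := neg_eq_zero.1 e2.symm
      exact (smul_eq_zero.1 e3).resolve_left (mul_ne_zero (by norm_num) hne)
  have hs0 : s = 0 := by nlinarith [sq_nonneg s, sq_nonneg t]
  have ht0 : t = 0 := by nlinarith [sq_nonneg s, sq_nonneg t]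
  have hr0 : r = 0 := by
    by_contra hne
    refine hinf (mc_fin (V₁ := mcOdd a) (V₂ := mcEv a) (W := W ⊔ W.map (b : E →ₗ[ℝ] E)) hdec
      (((X * b - b * X : E →L[ℝ] E)) : E →ₗ[ℝ] E) ?_ ?_)
    · intro y hy
      change X (b y) - b (X y) ∈ _
      exact Submodule.sub_mem _ (Submodule.mem_sup_left (hXW _ (hb1 _ hy)))
        (Submodule.mem_sup_right ⟨X y, hXW _ hy, rfl⟩)
    · intro y hy h0
      change X (b y) - b (X y) = 0 at h0
      obtain ⟨h1, h2, h3, h4, h5, h6, h7, h8⟩ := hodd y hy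
      have e1 : (2 * r) • c y = 0 := by
        rw [← h0, hXap3 (b y), hXap3 y, hs0, ht0]
        simp only [map_add, map_smul, hCb', h3, h6]
        module
      have e2 : c y = 0 := (smul_eq_zero.1 e1).resolve_left (mul_ne_zero (by norm_num) hne)
      rw [e2, map_zero] at h2
      exact neg_eq_zero.1 h2.symm
  have hXC : br u v = C := by
    rw [← hXdef]
    refine ContinuousLinearMap.ext fun y => ?_
    rw [hXap3, hr0, hs0, ht0, zero_smul, zero_smul, zero_smul, add_zero, add_zero, zero_add]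
  rw [hXC]
  exact ⟨hCa, hCb, hCc, fun x hx => m2_cent hN htr h hE hs ht hC hCa hx⟩

end Pool.Agent.Helper61.RO
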