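import Pool.Agent.Helper61.RO.M2Comm

/-!
# RO-83  Largest weight two: there are no operators of spin one half

PROOF. `f` from `m2_line`. `e₁ = f`, `e₂ = (1/2) c f`, `e₃ = - (1/2) b f`: `a e₁ = 0`, `a e₂ = 2 e₃`, `a e₃ = - 2 e₂`, `b e₁ = - 2 e₃`, `b e₂ = 0`, `b e₃ = 2 e₁`, `c e₁ = 2 e₂`, `c e₂ = - 2 e₁`, `c e₃ = 0`. `V₁ = {x | a (a x) = - x}`, `V₂ = span {e₁, e₂, e₃} = {x | a (a (a x)) = - 4 a x}` (`dec_two`, `m2_line`).
(1) `u ∈ Half a`, `q(u) := - a (u e₁) ∈ V₁` (`half_even`): `u e₁ = a q`, `u e₂ = b q`, `u e₃ = c q`. First: `a q = - a a u e₁ = u e₁`. `[a, u] = [b, [c, u]]` (`half_rel`) applied to `e₂` (`b e₂ = 0`): `a u e₂ - 2 u e₃ = b (c u e₂ + 2 u e₁) = a u e₂ + 2 b u e₁` (`odd_part`), so `u e₃ = - b u e₁ = - b a q = c q`.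
`[c, u] = [a, [b, u]]` applied to `e₁` (`a e₁ = 0`): `c u e₁ - 2 u e₂ = a (b u e₁ + 2 u e₃) = c u e₁ + 2 a u e₃`, so `u e₂ = - a u e₃ = - a c q = b q`.
(2) `q([a, u]) = a q(u)`, `q([b, u]) = b q(u)`, `q([c, u]) = c q(u)`: `[a, u] e₁ = a u e₁`, `q = - a a u e₁ = u e₁ = a q(u)`; `[b, u] e₁ = b a q + 2 c q = c q` (`b a = - c` on `V₁`), `q([b, u]) = - a c q = b q`; `[c, u] e₁ = c a q - 2 b q = - b q`, `q([c, u]) = a b q = c q`. (`half_mem`.)
(3) `br u v e_j = 0` (`m2_comm`: `br u v` kills `f` and commutes with `b`, `c`): `u (a q(v)) = v (a q(u))`, `u (b q(v)) = v (b q(u))`, `u (c q(v)) = v (c q(u))`, for all `u, v ∈ Half a`. Let `z₁ = v a q(u)`, `z₂ = v b q(u)`, `z₃ = v c q(u)` (in `V₂`, `half_odd`) and `s = u q(v) + v q(u) ∈ V₂`. The first relation for `u` and `[a, v]`: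
`u a a q(v) = [a, v] a q(u)`, i.e. `- u q(v) = a z₁ + v q(u)`: `s = - a z₁`. In the same way `s = - b z₂`, `s = - c z₃`. `a z` has no component along `e₁`, `b z` none along `e₂`, `c z` none along `e₃` (`z ∈ V₂`), so `s = 0`, and `a z₁ = 0`, `b z₂ = 0`, `c z₃ = 0`: `z_j ∈ ℝ e_j`.
(4) This holds for all `u`, `v ∈ Half a`. Replace `u` by `[a, u]` (`q` becomes `a q`): `v b a q = - z₃ ∈ ℝ e₂`, so `z₃ = 0`; `v c a q = z₂ ∈ ℝ e₃`, so `z₂ = 0`; by `[b, u]`: `v a b q = z₃`, `v c b q = - z₁ ∈ ℝ e₃`, so `z₁ = 0`. Replace `u` by `[a, u]` in `z₁ = 0`: `v a a q = - v q(u) = 0`. So `v q(u) = 0` for all `u, v ∈ Half a`.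
(5) `v x = 0` for `x ∈ V₁`: `a x ∈ V₁`, and `a (x) = a (x)` is in the range of `a`, `a e₁ = 0`: by `mem_closure_of_ker` there are skew `B_n` with `B_n e₁ → a x`. `B_n = r a + s b + t c + L_n + C`; `P₁ = - (1/3) (a⁴ + 4 a²)` (`dec_two`; `P₁ (a x) = a x`): `P₁ B_n e₁ = L_n e₁ = a q(L_n)` (`P₁ (b e₁) = 0`, `P₁ (c e₁) = 0`, `C e₁ = 0`, `m2_cent`).
So `q(L_n) = - a (a q(L_n)) → - a (a x) = x`, `v q(L_n) = 0`: `v x = 0`.
(6) `v v = 0`: on `V₁` clear, on `V₂`: `v` maps `V₂` to `V₁`. `Sk.eq_zero_of_sq`: `v = 0`.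
-/

set_option autoImplicit false

open Filter Topology

namespace Pool.Agent.Helper61.RO

universe u

variable {E : Type u} [NormedAddCommGroup E] [NormedSpace ℝ E] [CompleteSpace E]
  [TopologicalSpace.SeparableSpace E] {w w' : Cx E →L[ℂ] Cx E} {p : ℤ → Cx E →L[ℂ] Cx E}
  {a b c v : E →L[ℝ] E}

/-- a basis of the even part -/
private structure MBas (a b c : E →L[ℝ] E) (e₁ e₂ e₃ : E) : Prop where
  ne : e₁ ≠ 0
  a1 : a e₁ = 0
  a2 : a e₂ = (2 : ℝ) • e₃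
  a3 : a e₃ = -((2 : ℝ) • e₂)
  b1 : b e₁ = -((2 : ℝ) • e₃)
  b2 : b e₂ = 0
  b3 : b e₃ = (2 : ℝ) • e₁
  c1 : c e₁ = (2 : ℝ) • e₂
  c2 : c e₂ = -((2 : ℝ) • e₁)
  c3 : c e₃ = 0
  span : ∀ x, a (a (a x)) = -((4 : ℝ) • a x) → ∃ α β γ : ℝ, x = α • e₁ + β • e₂ + γ • e₃

omit [CompleteSpace E] [TopologicalSpace.SeparableSpace E] in
private theorem br_ap (A B : E →L[ℝ] E) (x : E) : br A B x = A (B x) - B (A x) := rfl

private theorem mbas (hN : RNice E) (htr : RTrans E)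
    (h : TT (gg E) w w') (hE : CExt (gg E) w w') (hs : Spec w w' 2 p) (ht : Tri w w' a b c) :
    ∃ e₁ e₂ e₃ : E, MBas a b c e₁ e₂ e₃ := by
  obtain ⟨f, hf0, haf, hbb, hcc, hbc, hcb, hker, hfour⟩ := m2_line hN htr h hE hs ht
  obtain ⟨hsu, -, -, -⟩ := h.su2 hN (rlie_gg hN) ht
  have hab : ∀ x, a (b x) - b (a x) = (2 : ℝ) • c x := fun x => by
    have := congrArg (fun T : E →L[ℝ] E => T x) hsu.ab
    exact this
  have hca : ∀ x, c (a x) - a (c x) = (2 : ℝ) • b x := fun x => by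
    have := congrArg (fun T : E →L[ℝ] E => T x) hsu.ca
    exact this
  have e1 : a (b f) = (2 : ℝ) • c f := by
    have := hab f
    rwa [haf, map_zero, sub_zero] at this
  have e2 : a (c f) = -((2 : ℝ) • b f) := by
    have := hca f
    rw [haf, map_zero, zero_sub] at this
    rw [← this, neg_neg]
  refine ⟨f, (1 / 2 : ℝ) • c f, -((1 / 2 : ℝ) • b f), hf0, haf, ?_, ?_, ?_, ?_, ?_, ?_, ?_, ?_, ?_⟩
  · rw [map_smul, e2]
    module
  · rw [map_neg, map_smul, e1]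
    module
  · module
  · rw [map_smul, hbc, smul_zero]
  · rw [map_neg, map_smul, hbb]
    module
  · module
  · rw [map_smul, hcc]
    module
  · rw [map_neg, map_smul, hcb, smul_zero, neg_zero]
  · intro x hx
    obtain ⟨x₀, x₁, x₂, hx', h0, h1, h2, h3, h4⟩ := dec_two hs ht x
    have h5 : x₁ = 0 := by
      rw [h3, hx, map_neg, map_smul]
      module
    obtain ⟨t, ht'⟩ := hker x₀ h0
    obtain ⟨r, s, hrs⟩ := hfour x₂ h2
    refine ⟨t, 2 * s, -(2 * r), ?_⟩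
    rw [hx', h5, ht', hrs]
    module

omit [CompleteSpace E] [TopologicalSpace.SeparableSpace E] in
private theorem MBas.indep {e₁ e₂ e₃ : E} (hb : MBas a b c e₁ e₂ e₃) {α β γ : ℝ}
    (h : α • e₁ + β • e₂ + γ • e₃ = 0) : α = 0 ∧ β = 0 ∧ γ = 0 := by
  have h1 : a (α • e₁ + β • e₂ + γ • e₃) = 0 := by rw [h, map_zero]
  rw [map_add, map_add, map_smul, map_smul, map_smul, hb.a1, hb.a2, hb.a3] at h1
  have h2 : b (α • (0 : E) + β • ((2 : ℝ) • e₃) + γ • (-((2 : ℝ) • e₂))) = 0 := by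
    rw [h1, map_zero]
  have h3 : c (α • (0 : E) + β • ((2 : ℝ) • e₃) + γ • (-((2 : ℝ) • e₂))) = 0 := by
    rw [h1, map_zero]
  simp only [map_add, map_smul, map_neg, map_zero, hb.b2, hb.b3] at h2
  simp only [map_add, map_smul, map_neg, map_zero, hb.c2, hb.c3] at h3
  have hβ : β = 0 := by
    have h4 : (4 * β) • e₁ = 0 := by
      rw [← h2]
      module
    rcases smul_eq_zero.1 h4 with h5 | h5
    · linarith
    · exact absurd h5 hb.ne
  have hγ : γ = 0 := by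
    have h4 : (4 * γ) • e₁ = 0 := by
      rw [← h3]
      module
    rcases smul_eq_zero.1 h4 with h5 | h5
    · linarith
    · exact absurd h5 hb.ne
  subst hβ hγ
  rw [zero_smul, zero_smul, add_zero, add_zero] at h
  rcases smul_eq_zero.1 h with h5 | h5
  · exact ⟨h5, rfl, rfl⟩
  · exact absurd h5 hb.ne

/-- the values of an operator of spin one half -/
private structure MQ (a b c : E →L[ℝ] E) (e₁ e₂ e₃ : E) (u : E →L[ℝ] E) (q : E) : Prop where
  mem : u ∈ Half a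
  v1 : a (a q) = -q
  h1 : u e₁ = a q
  h2 : u e₂ = b q
  h3 : u e₃ = c q

omit [TopologicalSpace.SeparableSpace E] in
private theorem mq_ex (hN : RNice E)
    (h : TT (gg E) w w') (hs : Spec w w' 2 p) (ht : Tri w w' a b c)
    {e₁ e₂ e₃ : E} (hb : MBas a b c e₁ e₂ e₃) {u : E →L[ℝ] E} (hu : u ∈ Half a) :
    ∃ q, MQ a b c e₁ e₂ e₃ u q := by
  have hL := rlie_gg hN
  have k1 : a (a (u e₁)) = -(u e₁) := by
    refine half_even hN hL h hs le_rfl ht hu ?_
    rw [hb.a1, map_zero, map_zero, smul_zero, neg_zero]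
  have k2 : a (a (u e₂)) = -(u e₂) := by
    refine half_even hN hL h hs le_rfl ht hu ?_
    rw [hb.a2, map_smul, hb.a3, map_smul, map_neg, map_smul, hb.a2]
    module
  have k3 : a (a (u e₃)) = -(u e₃) := by
    refine half_even hN hL h hs le_rfl ht hu ?_
    rw [hb.a3, map_neg, map_smul, hb.a2, map_neg, map_smul, map_smul, hb.a3]
    module
  obtain ⟨-, -, r3, -⟩ := half_rel hN h ht hu
  obtain ⟨q, hq⟩ : ∃ q : E, q = -(a (u e₁)) := ⟨_, rfl⟩
  have hq1 : a q = u e₁ := by rw [hq, map_neg, k1, neg_neg]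
  have hq2 : a (a q) = -q := by rw [hq1, hq, neg_neg]
  have o := odd_part hN hL h hs le_rfl ht hq2
  obtain ⟨o1, o2, o3, o4, o5, o6, o7, o8⟩ := o
  -- `u e₃ = c q`
  have r4 : br b (br c u) = br a u := (half_rel hN h ht hu).2.2.2.1
  have hu3 : u e₃ = c q := by
    have t1 : br b (br c u) e₂ = br a u e₂ := by rw [r4]
    rw [br_ap, br_ap, br_ap a u, br_ap, hb.b2, hb.c2, hb.a2] at t1
    rw [map_zero, map_zero, map_zero, sub_zero, sub_zero, map_neg, map_smul, sub_neg_eq_add, map_add,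
      map_smul, map_smul] at t1
    obtain ⟨-, -, -, p4, -⟩ := odd_part hN hL h hs le_rfl ht k2
    rw [p4, ← hq1, o6] at t1
    have t2 : (2 : ℝ) • u e₃ = (2 : ℝ) • c q := by
      have t3 : a (u e₂) + (2 : ℝ) • -c q - a (u e₂) = -((2 : ℝ) • u e₃) := by
        rw [t1]
        abel
      have t4 : (2 : ℝ) • u e₃ = -(a (u e₂) + (2 : ℝ) • -c q - a (u e₂)) := by
        rw [t3, neg_neg]
      rw [t4]
      module
    have t5 := congrArg (fun y : E => (1 / 2 : ℝ) • y) t2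
    simp only [smul_smul] at t5
    norm_num at t5
    exact t5
  have hu2 : u e₂ = b q := by
    have t1 : br a (br b u) e₁ = br c u e₁ := by rw [r3]
    rw [br_ap, br_ap, br_ap c u, hb.a1, hb.b1, hb.c1] at t1
    rw [map_zero, sub_zero, map_neg, map_smul, sub_neg_eq_add, map_add,
      map_smul, map_smul, hu3, o8, ← hq1, o6, map_neg, o8, o5] at t1
    have t2 : (2 : ℝ) • u e₂ = (2 : ℝ) • b q := by
      have t3 : (2 : ℝ) • u e₂ = b q - (b q - (2 : ℝ) • u e₂) := by abel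
      rw [t3, ← t1]
      module
    have t5 := congrArg (fun y : E => (1 / 2 : ℝ) • y) t2
    simp only [smul_smul] at t5
    norm_num at t5
    exact t5
  exact ⟨q, hu, hq2, hq1.symm, hu2, hu3⟩

omit [TopologicalSpace.SeparableSpace E] in
/-- `q` is determined by the value at `e₁` -/
private theorem mq_of (hN : RNice E)
    (h : TT (gg E) w w') (hs : Spec w w' 2 p) (ht : Tri w w' a b c)
    {e₁ e₂ e₃ : E} (hb : MBas a b c e₁ e₂ e₃) {u : E →L[ℝ] E} (hu : u ∈ Half a) {q : E}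
    (hq : a (a q) = -q) (h1 : u e₁ = a q) : MQ a b c e₁ e₂ e₃ u q := by
  obtain ⟨q', hq'⟩ := mq_ex hN h hs ht hb hu
  have e : q' = q := by
    have k1 : a q' = a q := by rw [← hq'.h1, h1]
    have k2 : a (a q') = a (a q) := by rw [k1]
    rw [hq'.v1, hq] at k2
    exact neg_injective k2
  rw [← e]
  exact hq'

omit [TopologicalSpace.SeparableSpace E] in
private theorem mq_a (hN : RNice E)
    (h : TT (gg E) w w') (hs : Spec w w' 2 p) (ht : Tri w w' a b c)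
    {e₁ e₂ e₃ : E} (hb : MBas a b c e₁ e₂ e₃) {u : E →L[ℝ] E} {q : E}
    (hu : MQ a b c e₁ e₂ e₃ u q) : MQ a b c e₁ e₂ e₃ (br a u) (a q) := by
  refine mq_of hN h hs ht hb (half_mem hN h ht hu.mem).1 ?_ ?_
  · rw [hu.v1, map_neg]
  · rw [br_ap, hb.a1, map_zero, sub_zero, hu.h1]

omit [TopologicalSpace.SeparableSpace E] in
private theorem mq_b (hN : RNice E)
    (h : TT (gg E) w w') (hs : Spec w w' 2 p) (ht : Tri w w' a b c)
    {e₁ e₂ e₃ : E} (hb : MBas a b c e₁ e₂ e₃) {u : E →L[ℝ] E} {q : E}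
    (hu : MQ a b c e₁ e₂ e₃ u q) : MQ a b c e₁ e₂ e₃ (br b u) (b q) := by
  obtain ⟨o1, o2, o3, o4, o5, o6, o7, o8⟩ := odd_part hN (rlie_gg hN) h hs le_rfl ht hu.v1
  refine mq_of hN h hs ht hb (half_mem hN h ht hu.mem).2.1 ?_ ?_
  · rw [o3, o8]
  · rw [br_ap, hb.b1, hu.h1, map_neg, map_smul, hu.h3, o6, o3]
    module

omit [TopologicalSpace.SeparableSpace E] in
private theorem mq_c (hN : RNice E)
    (h : TT (gg E) w w') (hs : Spec w w' 2 p) (ht : Tri w w' a b c)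
    {e₁ e₂ e₃ : E} (hb : MBas a b c e₁ e₂ e₃) {u : E →L[ℝ] E} {q : E}
    (hu : MQ a b c e₁ e₂ e₃ u q) : MQ a b c e₁ e₂ e₃ (br c u) (c q) := by
  obtain ⟨o1, o2, o3, o4, o5, o6, o7, o8⟩ := odd_part hN (rlie_gg hN) h hs le_rfl ht hu.v1
  refine mq_of hN h hs ht hb (half_mem hN h ht hu.mem).2.2 ?_ ?_
  · rw [o8, map_neg, o3]
  · rw [br_ap, hb.c1, hu.h1, map_smul, hu.h2, o5, o8]
    module

private theorem mq_rel (hN : RNice E) (htr : RTrans E) (hinf : ¬ FiniteDimensional ℝ E)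
    (h : TT (gg E) w w') (hE : CExt (gg E) w w') (hs : Spec w w' 2 p) (ht : Tri w w' a b c)
    {e₁ e₂ e₃ : E} (hb : MBas a b c e₁ e₂ e₃) {u v : E →L[ℝ] E} {q r : E}
    (hu : MQ a b c e₁ e₂ e₃ u q) (hv : MQ a b c e₁ e₂ e₃ v r) :
    u (a r) = v (a q) ∧ u (b r) = v (b q) ∧ u (c r) = v (c q) := by
  obtain ⟨-, k2, k3, k4⟩ := m2_comm hN htr hinf h hE hs ht hu.mem hv.mem
  have z1 : br u v e₁ = 0 := k4 e₁ hb.a1
  have z3 : br u v e₃ = 0 := by
    have t1 : b (br u v e₁) = br u v (b e₁) := by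
      have := congrArg (fun T : E →L[ℝ] E => T e₁) k2
      exact this
    rw [z1, map_zero, hb.b1, map_neg, map_smul] at t1
    have t2 : (2 : ℝ) • br u v e₃ = 0 := neg_eq_zero.1 t1.symm
    rcases smul_eq_zero.1 t2 with t3 | t3
    · norm_num at t3
    · exact t3
  have z2 : br u v e₂ = 0 := by
    have t1 : c (br u v e₁) = br u v (c e₁) := by
      have := congrArg (fun T : E →L[ℝ] E => T e₁) k3
      exact this
    rw [z1, map_zero, hb.c1, map_smul] at t1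
    rcases smul_eq_zero.1 t1.symm with t3 | t3
    · norm_num at t3
    · exact t3
  rw [br_ap, hv.h1, hu.h1] at z1
  rw [br_ap, hv.h2, hu.h2] at z2
  rw [br_ap, hv.h3, hu.h3] at z3
  exact ⟨sub_eq_zero.1 z1, sub_eq_zero.1 z2, sub_eq_zero.1 z3⟩

private theorem mq_lines (hN : RNice E) (htr : RTrans E) (hinf : ¬ FiniteDimensional ℝ E)
    (h : TT (gg E) w w') (hE : CExt (gg E) w w') (hs : Spec w w' 2 p) (ht : Tri w w' a b c)
    {e₁ e₂ e₃ : E} (hb : MBas a b c e₁ e₂ e₃) {u v : E →L[ℝ] E} {q r : E}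
    (hu : MQ a b c e₁ e₂ e₃ u q) (hv : MQ a b c e₁ e₂ e₃ v r) :
    ∃ α β γ : ℝ, v (a q) = α • e₁ ∧ v (b q) = β • e₂ ∧ v (c q) = γ • e₃ := by
  have hL := rlie_gg hN
  obtain ⟨o1, o2, o3, o4, o5, o6, o7, o8⟩ := odd_part hN hL h hs le_rfl ht hu.v1
  obtain ⟨o1', o2', o3', o4', o5', o6', o7', o8'⟩ := odd_part hN hL h hs le_rfl ht hv.v1
  have s1 : -(u r) = a (v (a q)) + v q := by
    have t := (mq_rel hN htr hinf h hE hs ht hb hu (mq_a hN h hs ht hb hv)).1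
    rw [hv.v1, map_neg, br_ap, hu.v1, map_neg, sub_neg_eq_add] at t
    exact t
  have s2 : -(u r) = b (v (b q)) + v q := by
    have t := (mq_rel hN htr hinf h hE hs ht hb hu (mq_b hN h hs ht hb hv)).2.1
    rw [o1', map_neg, br_ap, o1, map_neg, sub_neg_eq_add] at t
    exact t
  have s3 : -(u r) = c (v (c q)) + v q := by
    have t := (mq_rel hN htr hinf h hE hs ht hb hu (mq_c hN h hs ht hb hv)).2.2
    rw [o2', map_neg, br_ap, o2, map_neg, sub_neg_eq_add] at t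
    exact t
  have hV : ∀ x, a (a x) = -x → ∃ α β γ : ℝ, v x = α • e₁ + β • e₂ + γ • e₃ := fun x hx =>
    hb.span _ (half_odd hN hL h hs le_rfl ht hv.mem hx)
  obtain ⟨α₁, β₁, γ₁, hz1⟩ := hV (a q) (by rw [hu.v1, map_neg])
  obtain ⟨α₂, β₂, γ₂, hz2⟩ := hV (b q) (by rw [o3, o8])
  obtain ⟨α₃, β₃, γ₃, hz3⟩ := hV (c q) (by rw [o8, map_neg, o3])
  have a1 : a (v (a q)) = b (v (b q)) := by
    have := s1.symm.trans s2
    exact add_right_cancel this
  have a2 : a (v (a q)) = c (v (c q)) := by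
    have := s1.symm.trans s3
    exact add_right_cancel this
  rw [hz1, hz2] at a1
  rw [hz1, hz3] at a2
  simp only [map_add, map_smul, hb.a1, hb.a2, hb.a3, hb.b1, hb.b2, hb.b3, smul_zero, zero_add,
    add_zero] at a1
  simp only [map_add, map_smul, hb.a1, hb.a2, hb.a3, hb.c1, hb.c2, hb.c3, smul_zero, zero_add,
    add_zero] at a2
  have i1 : (2 * γ₂) • e₁ + (2 * γ₁) • e₂ + (-(2 * α₂) - 2 * β₁) • e₃ = 0 := by
    have t := sub_eq_zero.2 a1.symm
    rw [← t]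
    module
  have i2 : (-(2 * β₃)) • e₁ + (2 * α₃ + 2 * γ₁) • e₂ + (-(2 * β₁)) • e₃ = 0 := by
    have t := sub_eq_zero.2 a2.symm
    rw [← t]
    module
  obtain ⟨j1, j2, j3⟩ := hb.indep i1
  obtain ⟨l1, l2, l3⟩ := hb.indep i2
  have g2 : γ₂ = 0 := by linarith
  have g1 : γ₁ = 0 := by linarith
  have b3 : β₃ = 0 := by linarith
  have b1 : β₁ = 0 := by linarith
  have a3 : α₃ = 0 := by linarith
  have a2' : α₂ = 0 := by linarith
  refine ⟨α₁, β₂, γ₃, ?_, ?_, ?_⟩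
  · rw [hz1, b1, g1]
    module
  · rw [hz2, a2', g2]
    module
  · rw [hz3, a3, b3]
    module

private theorem mq_zero (hN : RNice E) (htr : RTrans E) (hinf : ¬ FiniteDimensional ℝ E)
    (h : TT (gg E) w w') (hE : CExt (gg E) w w') (hs : Spec w w' 2 p) (ht : Tri w w' a b c)
    {e₁ e₂ e₃ : E} (hb : MBas a b c e₁ e₂ e₃) {u v : E →L[ℝ] E} {q r : E}
    (hu : MQ a b c e₁ e₂ e₃ u q) (hv : MQ a b c e₁ e₂ e₃ v r) : v (a q) = 0 := by
  have hL := rlie_gg hN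
  obtain ⟨o1, o2, o3, o4, o5, o6, o7, o8⟩ := odd_part hN hL h hs le_rfl ht hu.v1
  obtain ⟨α, β, γ, k1, k2, k3⟩ := mq_lines hN htr hinf h hE hs ht hb hu hv
  obtain ⟨α', β', γ', l1, l2, l3⟩ :=
    mq_lines hN htr hinf h hE hs ht hb (mq_b hN h hs ht hb hu) hv
  -- `v (c (b q)) = - v (a q)` is a multiple of `e₃` and of `e₁`
  rw [o7, map_neg, k1] at l3
  have i1 : α • e₁ + (0 : ℝ) • e₂ + γ' • e₃ = 0 := by
    have t := sub_eq_zero.2 l3
    rw [← neg_eq_zero, ← t]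
    module
  obtain ⟨j1, -, -⟩ := hb.indep i1
  rw [k1, j1, zero_smul]

theorem m2_half (hN : RNice E) (htr : RTrans E) (hinf : ¬ FiniteDimensional ℝ E)
    (h : TT (gg E) w w') (hE : CExt (gg E) w w') (hs : Spec w w' 2 p) (ht : Tri w w' a b c)
    (hv : v ∈ Half a) : v = 0 := by
  have hL := rlie_gg hN
  obtain ⟨e₁, e₂, e₃, hb⟩ := mbas hN htr h hE hs ht
  obtain ⟨hsu, -, -, -⟩ := h.su2 hN hL ht
  obtain ⟨r, hr⟩ := mq_ex hN h hs ht hb hv
  -- `v` vanishes on all `q`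
  have hvq : ∀ (u : E →L[ℝ] E) (q : E), MQ a b c e₁ e₂ e₃ u q → v q = 0 := by
    intro u q hu
    have t := mq_zero hN htr hinf h hE hs ht hb (mq_a hN h hs ht hb hu) hr
    rw [hu.v1, map_neg, neg_eq_zero] at t
    exact t
  -- `v` vanishes on the odd part
  obtain ⟨P, hP⟩ : ∃ P : E →L[ℝ] E, ∀ x, P x = -((1 / 3 : ℝ) • (a (a (a (a x))) + (4 : ℝ) • a (a x))) :=
    ⟨-((1 / 3 : ℝ) • (a * a * a * a + (4 : ℝ) • (a * a))), fun x => rfl⟩
  have hv1 : ∀ x, a (a x) = -x → v x = 0 := by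
    intro x hx
    have key : ∀ ε : ℝ, 0 < ε → ‖v x‖ ≤ ‖v‖ * (‖a‖ * (‖P‖ * ε)) := by
      intro ε hε
      obtain ⟨B, hB, hBx⟩ := mem_closure_of_ker hN htr hb.ne hsu.ska hb.a1 x hε
      obtain ⟨t₁, t₂, t₃, L, C, hLh, hC, hCa, hCb, hCc, hBe⟩ := ext_decomp hN h hE hs ht hB
      obtain ⟨q, hq⟩ := mq_ex hN h hs ht hb hLh
      have hCe : C e₁ = 0 := m2_cent hN htr h hE hs ht hC hCa hb.a1
      have hBe1 : B e₁ = t₂ • (-((2 : ℝ) • e₃)) + t₃ • ((2 : ℝ) • e₂) + a q := by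
        rw [hBe]
        have e : (t₁ • a + t₂ • b + t₃ • c + L + C) e₁ =
            t₁ • a e₁ + t₂ • b e₁ + t₃ • c e₁ + L e₁ + C e₁ := rfl
        rw [e, hb.a1, hb.b1, hb.c1, hCe, hq.h1]
        module
      have hPe3 : P e₃ = 0 := by
        rw [hP]
        simp only [hb.a2, hb.a3, map_neg, map_smul]
        module
      have hPe2 : P e₂ = 0 := by
        rw [hP]
        simp only [hb.a2, hb.a3, map_neg, map_smul]
        module
      have hPq : P (a q) = a q := by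
        have t : a (a (a q)) = -(a q) := by rw [hq.v1, map_neg]
        have t4 : a (a (a (a (a q)))) = a q := by rw [t, map_neg, map_neg, t, neg_neg]
        rw [hP, t4, t]
        module
      have hPx : P (a x) = a x := by
        have t : a (a (a x)) = -(a x) := by rw [hx, map_neg]
        have t4 : a (a (a (a (a x)))) = a x := by rw [t, map_neg, map_neg, t, neg_neg]
        rw [hP, t4, t]
        module
      have hPB : P (B e₁ - a x) = a (q - x) := by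
        rw [map_sub, hBe1, map_add, map_add, map_smul, map_neg, map_smul, map_smul, map_smul, hPe3,
          hPe2, hPq, hPx, map_sub]
        module
      have hqx : q - x = -(a (P (B e₁ - a x))) := by
        rw [hPB, map_sub, map_sub, hq.v1, hx]
        abel
      have hvx : v x = v (a (P (B e₁ - a x))) := by
        have e1 : v (q - x) = v (-(a (P (B e₁ - a x)))) := by rw [← hqx]
        rw [map_sub, hvq L q hq, zero_sub, map_neg] at e1
        exact neg_injective e1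
      rw [hvx]
      refine (v.le_opNorm _).trans (mul_le_mul_of_nonneg_left ?_ (norm_nonneg _))
      refine (a.le_opNorm _).trans (mul_le_mul_of_nonneg_left ?_ (norm_nonneg _))
      exact (P.le_opNorm _).trans (mul_le_mul_of_nonneg_left hBx.le (norm_nonneg _))
    have hz : ‖v x‖ ≤ 0 := by
      by_contra hc
      push Not at hc
      have hK : 0 ≤ ‖v‖ * (‖a‖ * ‖P‖) := by positivity
      have h1 : 0 < ‖v x‖ / (2 * (‖v‖ * (‖a‖ * ‖P‖) + 1)) := by positivity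
      have h2 := key _ h1
      have h3 : ‖v‖ * (‖a‖ * (‖P‖ * (‖v x‖ / (2 * (‖v‖ * (‖a‖ * ‖P‖) + 1))))) =
          (‖v‖ * (‖a‖ * ‖P‖)) * ‖v x‖ / (2 * (‖v‖ * (‖a‖ * ‖P‖) + 1)) := by ring
      rw [h3, le_div_iff₀ (by positivity)] at h2
      nlinarith
    exact norm_le_zero_iff.1 hz
  refine hv.1.eq_zero_of_sq ?_
  ext x
  have hgoal : v (v x) = 0 := by
    obtain ⟨x₀, x₁, x₂, hx', h0, h1, h2, -, -⟩ := dec_two hs ht x
    have e1 : v x = v (x₀ + x₂) := by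
      rw [hx', map_add, map_add, map_add, hv1 x₁ h1, add_zero]
    rw [e1]
    refine hv1 _ (half_even hN hL h hs le_rfl ht hv ?_)
    rw [map_add, h0, zero_add, h2, map_neg, map_smul]
  exact hgoal

end Pool.Agent.Helper61.RO
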