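import Pool.Agent.Helper61.RO.OddPart
import Pool.Agent.Helper61.RO.KernelM

/-!
# RO-80  Largest weight two: the even part is three-dimensional

PROOF. `TT.su2`: `br a b = 2 c`, `br b c = 2 a`, `br c a = 2 b`, `a, b, c` skew. `p 0 ≠ 0` (`ker_of_even` is in `Parity`; here: `Spec.even` with `j = 2`), so there is `f ≠ 0` with `a f = 0` (`Spec.ker`), and there is `v₀ ≠ 0` with `a (a v₀) = - 4 v₀` (`Spec.real`, `j = 2`).
(1) CLAIM: `f ≠ 0`, `a f = 0`, `a (a v) = - 4 v` imply `v ∈ span {b f, c f}`. `v = a (- (1/4) a v)`, so `v` is a limit of vectors `B f`, `B` skew (`mem_closure_of_ker`). `P = (1/12) (a⁴ + a²)` (`dec_two`; `P v = v`; `P` is continuous): `B = r a + s b + t c + L + C` (`ext_decomp`): `P (b f) = b f`, `P (c f) = c f`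
(`a (b f) = 2 c f`, `a (c f) = - 2 b f`), `a f = 0`, `P (L f) = 0` (`half_even`: `a (a (L f)) = - L f`), `P (C f) = 0` (`a C f = C a f = 0`). So `P (B f) ∈ span {b f, c f}`, a closed subspace.
(2) For `f ∈ ker a`: `a b f = 2 c f`, `a c f = - 2 b f`, `a (b c f) = 2 (c² - b²) f`, `a (c b f) = 2 (c² - b²) f`, `a (b² f) = 2 (b c + c b) f = - a (c² f)`. So `y = (c² - b²) f` satisfies `a (a y) = - 16 y`, `y = 0` (`ker_four`); then `a (a (b² f)) = 0`, `a (b² f) = 0` (`Sk.ker_sq`), `(b c + c b) f = 0`, and `(b c - c b) f = 2 a f = 0`: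
`b c f = 0 = c b f`, `b² f = c² f`.
(3) Fix `f ≠ 0` and let `f' ∈ ker a`. `b f' = α b f + β c f` (1), `f'' = f' - α f`: `b f'' = β c f`, `b (b f'') = β b c f = 0`, `b f'' = 0` (`Sk.ker_sq`), `c (c f'') = b (b f'') = 0`, `c f'' = 0`. If `f'' ≠ 0` then `v₀ ∈ span {b f'', c f''} = 0` by (1), contradiction. So `f' = α f`.
(4) `a (b² f) = 0`, so `b² f = λ f`. `b c (b f) - c b (b f) = 2 a b f = 4 c f`, and `b (c (b f)) = 0`, `c (b (b f)) = λ c f`: `(λ + 4) c f = 0`. `c f ≠ 0`: otherwise `b f = - (1/2) a c f = 0` and `v₀ = 0` by (1). So `λ = - 4`.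
-/

set_option autoImplicit false

open Filter Topology

namespace Pool.Agent.Helper61.RO

universe u

variable {E : Type u} [NormedAddCommGroup E] [NormedSpace ℝ E] [CompleteSpace E]
  [TopologicalSpace.SeparableSpace E] {w w' : Cx E →L[ℂ] Cx E} {p : ℤ → Cx E →L[ℂ] Cx E}
  {a b c : E →L[ℝ] E}

omit [CompleteSpace E] [TopologicalSpace.SeparableSpace E] in
private theorem m2_br {A B C : E →L[ℝ] E} (h : br A B = (2 : ℝ) • C) (x : E) :
    A (B x) = B (A x) + (2 : ℝ) • C x := by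
  have h1 := congrArg (fun T : E →L[ℝ] E => T x) h
  change A (B x) - B (A x) = (2 : ℝ) • C x at h1
  rw [← h1]
  abel

omit [TopologicalSpace.SeparableSpace E] in
/-- (2) the vectors of the kernel -/
private theorem m2_ker (hsu : Su2 a b c) (hs : Spec w w' 2 p) (ht : Tri w w' a b c) {f : E}
    (hf : a f = 0) : a (b f) = (2 : ℝ) • c f ∧ a (c f) = -((2 : ℝ) • b f) ∧
      b (c f) = 0 ∧ c (b f) = 0 ∧ c (c f) = b (b f) ∧ a (b (b f)) = 0 := by
  have eab := m2_br hsu.ab
  have ebc := m2_br hsu.bc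
  have eca := m2_br hsu.ca
  have h1 : a (b f) = (2 : ℝ) • c f := by
    rw [eab f, hf, map_zero, zero_add]
  have h2 : a (c f) = -((2 : ℝ) • b f) := by
    have h := eca f
    rw [hf, map_zero] at h
    rw [eq_neg_iff_add_eq_zero]
    exact h.symm
  have h3 : a (b (c f)) = (2 : ℝ) • c (c f) - (2 : ℝ) • b (b f) := by
    rw [eab (c f), h2, map_neg, map_smul]
    abel
  have h4 : a (c (b f)) = (2 : ℝ) • c (c f) - (2 : ℝ) • b (b f) := by
    have h := eca (b f)
    rw [h1, map_smul] at h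
    rw [h]
    abel
  have h5 : a (b (b f)) = (2 : ℝ) • b (c f) + (2 : ℝ) • c (b f) := by
    rw [eab (b f), h1, map_smul]
  have h6 : a (c (c f)) = -((2 : ℝ) • c (b f)) - (2 : ℝ) • b (c f) := by
    have h := eca (c f)
    rw [h2, map_neg, map_smul] at h
    rw [h]
    abel
  have hy : c (c f) - b (b f) = 0 := by
    apply ker_four hs ht
    have h7 : a (c (c f) - b (b f)) = -((4 : ℝ) • b (c f)) - (4 : ℝ) • c (b f) := by
      rw [map_sub, h5, h6]
      module
    rw [h7, map_sub, map_neg, map_smul, map_smul, h3, h4]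
    module
  have h8 : c (c f) = b (b f) := sub_eq_zero.1 hy
  have h9 : b (c f) = c (b f) := by
    rw [ebc f, hf, smul_zero, add_zero]
  have h10 : a (a (b (b f))) = 0 := by
    rw [h5, map_add, map_smul, map_smul, h3, h4, h8, sub_self, smul_zero, add_zero]
  have h11 : a (b (b f)) = 0 := hsu.ska.ker_sq h10
  have h12 : b (c f) = 0 := by
    rw [h11, ← h9, ← add_smul] at h5
    exact (smul_eq_zero.1 h5.symm).resolve_left (by norm_num)
  exact ⟨h1, h2, h12, by rw [← h9]; exact h12, h8, h11⟩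

/-- (1) the vectors of weight two -/
private theorem m2_span (hN : RNice E) (htr : RTrans E) (h : TT (gg E) w w')
    (hE : CExt (gg E) w w') (hs : Spec w w' 2 p) (ht : Tri w w' a b c) {f : E} (hf0 : f ≠ 0)
    (hf : a f = 0) {v : E} (hv : a (a v) = -((4 : ℝ) • v)) : ∃ s t : ℝ, v = s • b f + t • c f := by
  have hg := rlie_gg hN
  have hsu := (h.su2 hN hg ht).1
  obtain ⟨h1, h2, -, -, -, -⟩ := m2_ker hsu hs ht hf
  obtain ⟨P, hP⟩ : ∃ P : E →L[ℝ] E, P = (1 / 12 : ℝ) • (a * (a * (a * a)) + a * a) := ⟨_, rfl⟩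
  have hPx : ∀ x, P x = (1 / 12 : ℝ) • (a (a (a (a x))) + a (a x)) := by
    intro x
    rw [hP]
    rfl
  have hPv : P v = v := by
    rw [hPx, hv, map_neg, map_neg, map_smul, map_smul, hv]
    module
  have hPb : P (b f) = b f := by
    have h3 : a (a (b f)) = -((4 : ℝ) • b f) := by
      rw [h1, map_smul, h2]
      module
    rw [hPx, h3, map_neg, map_neg, map_smul, map_smul, h3]
    module
  have hPc : P (c f) = c f := by
    have h3 : a (a (c f)) = -((4 : ℝ) • c f) := by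
      rw [h2, map_neg, map_smul, h1]
      module
    rw [hPx, h3, map_neg, map_neg, map_smul, map_smul, h3]
    module
  obtain ⟨W, hW⟩ : ∃ W : Submodule ℝ E, W = Submodule.span ℝ {b f, c f} := ⟨_, rfl⟩
  have hWfin : FiniteDimensional ℝ W := by
    rw [hW]
    exact FiniteDimensional.span_of_finite ℝ (by simp)
  have hWc : IsClosed (W : Set E) := W.closed_of_finiteDimensional
  have hPB : ∀ B : E →L[ℝ] E, Sk B → P (B f) ∈ W := by
    intro B hB
    obtain ⟨r, s, t, L, C, hL, hC, hCa, hCb, hCc, rfl⟩ := ext_decomp hN h hE hs ht hB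
    have e1 : (r • a + s • b + t • c + L + C) f = r • a f + s • b f + t • c f + L f + C f := rfl
    have e2 : P (L f) = 0 := by
      have h3 : a (a (L f)) = -L f := by
        apply half_even hN hg h hs le_rfl ht hL
        rw [hf, map_zero, map_zero, smul_zero, neg_zero]
      rw [hPx, h3, map_neg, map_neg, h3, neg_neg, add_neg_cancel, smul_zero]
    have e3 : P (C f) = 0 := by
      have h3 : a (C f) = 0 := by
        have h4 : a (C f) = C (a f) := DFunLike.congr_fun hCa f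
        rw [h4, hf, map_zero]
      rw [hPx, h3, map_zero, map_zero, map_zero, add_zero, smul_zero]
    rw [e1, hf, smul_zero, zero_add, map_add, map_add, e2, e3, add_zero, add_zero, map_add,
      map_smul, map_smul, hPb, hPc, hW]
    exact Submodule.add_mem _ (Submodule.smul_mem _ _ (Submodule.subset_span (by simp)))
      (Submodule.smul_mem _ _ (Submodule.subset_span (by simp)))
  have hvW : v ∈ closure (W : Set E) := by
    rw [Metric.mem_closure_iff]
    intro ε hε
    have hη : 0 < ε / (‖P‖ + 1) := by positivity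
    obtain ⟨B, hB, hBv⟩ := mem_closure_of_ker hN htr hf0 hsu.ska hf (-((1 / 4 : ℝ) • a v)) hη
    refine ⟨P (B f), hPB B hB, ?_⟩
    have e1 : a (-((1 / 4 : ℝ) • a v)) = v := by
      rw [map_neg, map_smul, hv]
      module
    rw [e1] at hBv
    have e2 : v - P (B f) = -P (B f - v) := by
      rw [map_sub, hPv]
      abel
    rw [dist_eq_norm, e2, norm_neg]
    calc ‖P (B f - v)‖ ≤ ‖P‖ * ‖B f - v‖ := P.le_opNorm _
      _ ≤ ‖P‖ * (ε / (‖P‖ + 1)) := mul_le_mul_of_nonneg_left hBv.le (norm_nonneg _)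
      _ < ε := by
        rw [← mul_div_assoc, div_lt_iff₀ (by positivity)]
        nlinarith [norm_nonneg P]
  rw [hWc.closure_eq, hW] at hvW
  obtain ⟨s, t, hst⟩ := Submodule.mem_span_pair.1 hvW
  exact ⟨s, t, hst.symm⟩

theorem m2_line (hN : RNice E) (htr : RTrans E) (h : TT (gg E) w w') (hE : CExt (gg E) w w')
    (hs : Spec w w' 2 p) (ht : Tri w w' a b c) :
    ∃ f : E, f ≠ 0 ∧ a f = 0 ∧ b (b f) = -((4 : ℝ) • f) ∧ c (c f) = -((4 : ℝ) • f) ∧
      b (c f) = 0 ∧ c (b f) = 0 ∧ (∀ x, a x = 0 → ∃ t : ℝ, x = t • f) ∧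
      ∀ x, a (a x) = -((4 : ℝ) • x) → ∃ s t : ℝ, x = s • b f + t • c f := by
  have hg := rlie_gg hN
  have hsu := (h.su2 hN hg ht).1
  have h0 : p 0 ≠ 0 := hs.even hN hg h (j := ((2 : ℕ) : ℤ)) (by decide) hs.top
  obtain ⟨f, hf, hf0⟩ := (hs.ker hN ht).1 h0
  obtain ⟨v, hv, hv0⟩ := hs.real hN ht hs.top
  have hv' : a (a v) = -((4 : ℝ) • v) := by
    rw [hv]
    norm_num
  have hspan : ∀ {g : E}, g ≠ 0 → a g = 0 → ∀ {x : E}, a (a x) = -((4 : ℝ) • x) →
      ∃ s t : ℝ, x = s • b g + t • c g := fun hg0 hga _ hx =>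
    m2_span hN htr h hE hs ht hg0 hga hx
  obtain ⟨h1, h2, h3, h4, h5, h6⟩ := m2_ker hsu hs ht hf
  -- (3)
  have huniq : ∀ x, a x = 0 → ∃ t : ℝ, x = t • f := by
    intro x hx
    obtain ⟨k1, k2, k3, k4, k5, k6⟩ := m2_ker hsu hs ht hx
    have hbx : a (a (b x)) = -((4 : ℝ) • b x) := by
      rw [k1, map_smul, k2]
      module
    obtain ⟨α, β, hαβ⟩ := hspan hf0 hf hbx
    refine ⟨α, ?_⟩
    by_contra hne
    have hy0 : x - α • f ≠ 0 := sub_ne_zero.2 hne
    have hy : a (x - α • f) = 0 := by rw [map_sub, map_smul, hx, hf, smul_zero, sub_zero]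
    obtain ⟨l1, l2, l3, l4, l5, l6⟩ := m2_ker hsu hs ht hy
    have hby : b (x - α • f) = β • c f := by
      rw [map_sub, map_smul, hαβ]
      abel
    have hbby : b (b (x - α • f)) = 0 := by rw [hby, map_smul, h3, smul_zero]
    have hby0 : b (x - α • f) = 0 := hsu.skb.ker_sq hbby
    have hcy0 : c (x - α • f) = 0 := hsu.skc.ker_sq (by rw [l5, hbby])
    obtain ⟨s, t, hst⟩ := hspan hy0 hy hv'
    apply hv0
    rw [hst, hby0, hcy0, smul_zero, smul_zero, add_zero]
  -- (4)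
  have hcf : c f ≠ 0 := by
    intro hcf
    have hbf : b f = 0 := by
      rw [hcf, map_zero] at h2
      have h7 : (2 : ℝ) • b f = 0 := neg_eq_zero.1 h2.symm
      exact (smul_eq_zero.1 h7).resolve_left (by norm_num)
    obtain ⟨s, t, hst⟩ := hspan hf0 hf hv'
    apply hv0
    rw [hst, hbf, hcf, smul_zero, smul_zero, add_zero]
  obtain ⟨l, hl⟩ := huniq _ h6
  have hl4 : l = -4 := by
    have h7 := m2_br hsu.bc (b f)
    rw [h4, map_zero, hl, map_smul, h1, smul_smul, ← add_smul] at h7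
    have h8 := (smul_eq_zero.1 h7.symm).resolve_right hcf
    linarith
  have hbb : b (b f) = -((4 : ℝ) • f) := by
    rw [hl, hl4, neg_smul]
  exact ⟨f, hf0, hf, hbb, by rw [h5, hbb], h3, h4, huniq, fun x hx => hspan hf0 hf hx⟩

end Pool.Agent.Helper61.RO
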