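import Pool.Agent.Helper61.RO.Joint
import Pool.Agent.Helper61.RO.KernelM

/-!
# RO-75  Two orthogonal tripotents with the same largest weight

PROOF (`S = lie e e₁`, `S' = lie f f₁`, `h𝔠 = rlie_gg hN`). `joint`. `p M q 0 = p M ≠ 0`, so `q 0 ≠ 0` and `M ≤ 2` (`kernel_le_two` for `f`). `1 ≤ M` (`Spec.pos`). Suppose `M = 2`.
`a, b, c` the triple of `e`, `a', b', c'` the triple of `f` (`TT.exists_tri`). `Spec.real` (`j = 2`): `x ≠ 0` real, `a (a x) = - 4 x`; `p k (io x) = 0` for `k ≠ ± 2` (`Spec.real_apply`), so `io x = p 2 (io x) + p (-2) (io x)` and `q 0 (io x) = io x` (`joint`), hence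
`S' (io x) = 0`, `a' x = 0` (`cx a' = i S'`, `cx_io`, `io_inj`).
CLAIM: `q 2 (io (B x)) = 0` for all skew `B`. Then `dagger_cx` (`D = a'`, `P = q 2`) gives `q 2 * cx a' = 0`, i.e. `2 q 2 = q 2 S' = 0`, contradiction to `Spec.top`.
Proof of the claim: it is enough to show `q 2 * cx B * p i * q 0 = 0` for `i = 2`, `i = -2`. `q 2 = p 0 q 2 = q 2 p 0`. `k = wt 2 q 2 (wt 2 p (-i) (cx B))` has a star for `hc (gg E)` (`cx B` has the star `- cx B`; `Pr.wt` twice, `TT.mem`), `lie S' k = 2 k` (`Grad.wt_lie`) and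
`lie S k = - i k` (`Grad.wt_lie` for the inner one; `S` commutes with the `q j`, so `lie S (wt 2 q d K) = wt 2 q d (lie S K)`). `q 2 p 0 (cx B) p i q 0 = q 2 (wt 2 p (-i) (cx B)) p i q 0 = k q 0 p i` (`Grad.wt_mul` twice). So it is enough to show `k = 0`.
`i = -2`: `lie (S + S') k = 4 k`, `k = 0` by `TT.weight` for `e + f` (`orth_comm`). `i = 2`: `k` has weights `(- 2, 2)`; conjugation with the Weyl element of `e` (`exists_weyl`; the conjugate of `S` is `- S`: `S = ∑ j p j`, the conjugate of `S'` is `S'`; `Pr.conj`) gives an operator with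
a star and weights `(2, 2)`, so it is `0` by the first case, and `k = 0`.
-/

set_option autoImplicit false

open Filter Topology

namespace Pool.Agent.Helper61.RO

universe u

section algebra

variable {F : Type*} [NormedAddCommGroup F] [NormedSpace ℂ F] {S T : F →L[ℂ] F} {N : ℕ}
  {p : ℤ → F →L[ℂ] F}

private theorem n75_wt_lie (hT : T * S = S * T) (hG : HP.Grad S N p) (d : ℤ) {K : F →L[ℂ] F}
    {c : ℂ} (hK : HP.lie T K = c • K) : HP.lie T (HP.wt N p d K) = c • HP.wt N p d K := by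
  have hc := hG.comm hT
  unfold HP.wt HP.lie
  rw [Finset.mul_sum, Finset.sum_mul, ← Finset.sum_sub_distrib, Finset.smul_sum]
  refine Finset.sum_congr rfl fun j _ => ?_
  have h1 : T * (p (j + d) * K * p j) = p (j + d) * (T * K) * p j := by
    rw [← mul_assoc, ← mul_assoc, hc (j + d), mul_assoc (p (j + d)) T K]
  have h2 : p (j + d) * K * p j * T = p (j + d) * (K * T) * p j := by
    rw [mul_assoc, ← hc j, ← mul_assoc, mul_assoc (p (j + d)) K T]
  rw [h1, h2, ← sub_mul, ← mul_sub]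
  have h3 : T * K - K * T = c • K := hK
  rw [h3, mul_smul_comm, smul_mul_assoc]

private theorem n75_lie_add (A B C : F →L[ℂ] F) :
    HP.lie (A + B) C = HP.lie A C + HP.lie B C := by
  unfold HP.lie
  noncomm_ring

private theorem n75_conj {R R' A K : F →L[ℂ] F} {c : ℂ} (hR : R' * R = 1)
    (hK : HP.lie A K = c • K) :
    HP.lie (R * A * R') (R * K * R') = c • (R * K * R') := by
  have e1 : ∀ X Y : F →L[ℂ] F, (R * X * R') * (R * Y * R') = R * (X * Y) * R' := by
    intro X Y
    calc (R * X * R') * (R * Y * R') = R * X * (R' * R) * Y * R' := by noncomm_ring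
      _ = R * (X * Y) * R' := by rw [hR, mul_one, mul_assoc R X Y]
  unfold HP.lie at hK ⊢
  rw [e1, e1, ← sub_mul, ← mul_sub, hK, mul_smul_comm, smul_mul_assoc]

private theorem n75_sum (hG : HP.Grad S N p) :
    S = ∑ j ∈ Finset.Icc (-(N : ℤ)) (N : ℤ), (j : ℂ) • p j := by
  calc S = S * 1 := (mul_one _).symm
    _ = S * ∑ j ∈ Finset.Icc (-(N : ℤ)) (N : ℤ), p j := by rw [hG.sum]
    _ = _ := by
      rw [Finset.mul_sum]
      exact Finset.sum_congr rfl fun j _ => hG.eig j

private theorem n75_refl (hG : HP.Grad S N p) {R R' : F →L[ℂ] F}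
    (h : ∀ j, R * p j * R' = p (-j)) : R * S * R' = -S := by
  have h1 : R * S * R' = ∑ j ∈ Finset.Icc (-(N : ℤ)) (N : ℤ), (j : ℂ) • p (-j) := by
    conv_lhs => rw [n75_sum hG]
    rw [Finset.mul_sum, Finset.sum_mul]
    refine Finset.sum_congr rfl fun j _ => ?_
    rw [mul_smul_comm, smul_mul_assoc, h]
  have h2 : ∑ j ∈ Finset.Icc (-(N : ℤ)) (N : ℤ), (j : ℂ) • p (-j) =
      ∑ j ∈ Finset.Icc (-(N : ℤ)) (N : ℤ), ((-j : ℤ) : ℂ) • p j := by
    refine Finset.sum_nbij' (fun j => -j) (fun j => -j) ?_ ?_ ?_ ?_ ?_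
    · intro j hj
      rw [Finset.mem_Icc] at hj ⊢
      omega
    · intro j hj
      rw [Finset.mem_Icc] at hj ⊢
      omega
    · intro j _
      exact neg_neg j
    · intro j _
      exact neg_neg j
    · intro j _
      rw [neg_neg]
  rw [h1, h2]
  conv_rhs => rw [n75_sum hG]
  rw [← Finset.sum_neg_distrib]
  refine Finset.sum_congr rfl fun j _ => ?_
  push_cast
  rw [neg_smul]

private theorem n75_fixS (hG : HP.Grad S N p) {R R' : F →L[ℂ] F}
    (h : ∀ j, R * p j * R' = p j) : R * S * R' = S := by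
  conv_lhs => rw [n75_sum hG]
  conv_rhs => rw [n75_sum hG]
  rw [Finset.mul_sum, Finset.sum_mul]
  refine Finset.sum_congr rfl fun j _ => ?_
  rw [mul_smul_comm, smul_mul_assoc, h]

end algebra

variable {E : Type u} [NormedAddCommGroup E] [NormedSpace ℝ E] [CompleteSpace E]
  [TopologicalSpace.SeparableSpace E] {e e₁ f f₁ : Cx E →L[ℂ] Cx E} {M M' : ℕ}
  {p q r : ℤ → Cx E →L[ℂ] Cx E}

theorem no_two (hN : RNice E) (htr : RTrans E) (he : TT (gg E) e e₁) (hf : TT (gg E) f f₁)
    (hef : TT (gg E) (e + f) (e₁ + f₁)) (ho : Orth e e₁ f f₁) (hse : Spec e e₁ M p)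
    (hsf : Spec f f₁ M q) (hsef : Spec (e + f) (e₁ + f₁) M' r) (hM : M' ≤ M) : M = 1 := by
  have hg := rlie_gg hN
  have hh := hlie_hc hN hg
  obtain ⟨J1, -, J3⟩ := joint hN hg he hf ho hse hsf hsef hM
  obtain ⟨-, -, -, -, -, -, hSS, hsum⟩ := orth_comm hN hg he hf ho
  have hq0 : q 0 ≠ 0 := by
    intro h
    have h1 := (J3 (M : ℤ) (by simp)).1
    rw [h, mul_zero] at h1
    exact hse.top h1.symm
  have hM2 : M ≤ 2 := kernel_le_two hN htr hf hsf hq0
  by_contra hM1
  have hpos := hse.pos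
  obtain rfl : M = 2 := by omega
  have a2 : |(2 : ℤ)| = ((2 : ℕ) : ℤ) := by norm_num
  have a2' : |(-2 : ℤ)| = ((2 : ℕ) : ℤ) := by norm_num
  have htop : p 2 ≠ 0 := hse.top
  obtain ⟨a, -, b, -, c, -, ht, -⟩ := he.exists_tri hN hg
  obtain ⟨a', -, b', -, c', -, ht', hsu'⟩ := hf.exists_tri hN hg
  obtain ⟨x, hx2, hx⟩ := hse.real hN ht htop
  have hk : ∀ k : ℤ, k ≠ 2 → k ≠ -2 → p k (io x) = 0 := fun k h1 h2 =>
    hse.real_apply ht hx2 h1 h2
  have hdec : io x = p 2 (io x) + p (-2) (io x) := by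
    have h1 := hse.grad.sum_apply (io x)
    rw [← Finset.sum_subset (s₁ := ({2, -2} : Finset ℤ)) ?_ ?_] at h1
    · rw [Finset.sum_pair (by norm_num)] at h1
      exact h1.symm
    · intro j hj
      rw [Finset.mem_insert, Finset.mem_singleton] at hj
      rw [Finset.mem_Icc]
      rcases hj with h | h
      · subst h
        norm_num
      · subst h
        norm_num
    · intro j _ hj
      rw [Finset.mem_insert, Finset.mem_singleton, not_or] at hj
      exact hk j hj.1 hj.2
  have hfix : ∀ i : ℤ, |i| = ((2 : ℕ) : ℤ) → ∀ z : Cx E, q 0 (p i z) = p i z := by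
    intro i hi z
    have h1 := congrArg (fun T : Cx E →L[ℂ] Cx E => T z) (J3 i hi).1
    rw [J1 i 0] at h1
    exact h1
  have hq0x : q 0 (io x) = io x := by
    conv_lhs => rw [hdec]
    conv_rhs => rw [hdec]
    rw [map_add, hfix 2 a2, hfix (-2) a2']
  have hS'x := (hsf.grad.fix_iff 0 (io x)).1 hq0x
  have ha'x : a' x = 0 := by
    apply io_inj
    rw [← cx_io, ht'.ea, io_zero]
    change Complex.I • (HP.lie f f₁) (io x) = 0
    rw [hS'x, Int.cast_zero, zero_smul, smul_zero]
  -- the main claim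
  have main : ∀ i : ℤ, |i| = ((2 : ℕ) : ℤ) → ∀ B : E →L[ℝ] E, Sk B →
      q 2 * cx B * p i = 0 := by
    intro i hi B hB
    have hA : Complex.I • cx B ∈ hc (gg E) := ⟨B, hB, rfl⟩
    have h1 := HP.Pr.smul hh (HP.Pr.of_mem hh hA) (-Complex.I)
    have e1 : (-Complex.I) • (Complex.I • cx B) = cx B := by
      rw [smul_smul, neg_mul, Complex.I_mul_I, neg_neg, one_smul]
    rw [e1] at h1
    have h2 := HP.Pr.wt hh hse.grad (he.mem hN hg).1 h1 (-i)
    have h3 := HP.Pr.wt hh hsf.grad (hf.mem hN hg).1 h2 2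
    set k1 := HP.wt 2 p (-i) (cx B) with hk1
    set k := HP.wt 2 q 2 k1 with hkk
    have l1 : HP.lie (HP.lie e e₁) k1 = ((-i : ℤ) : ℂ) • k1 := hse.grad.wt_lie (-i) (cx B)
    have l2 : HP.lie (HP.lie f f₁) k = ((2 : ℤ) : ℂ) • k := hsf.grad.wt_lie 2 k1
    have l3 : HP.lie (HP.lie e e₁) k = ((-i : ℤ) : ℂ) • k :=
      n75_wt_lie (sub_eq_zero.1 hSS) hsf.grad 2 l1
    -- operators with both weights two vanish
    have van : ∀ K L : Cx E →L[ℂ] Cx E, HP.Pr (hc (gg E)) K L →
        HP.lie (HP.lie e e₁) K = ((2 : ℤ) : ℂ) • K → HP.lie (HP.lie f f₁) K = ((2 : ℤ) : ℂ) • K →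
        K = 0 := by
      intro K L hKL g1 g2
      refine hef.weight hN hg hKL (d := 4) ?_ (by norm_num)
      rw [hsum, n75_lie_add, g1, g2, ← add_smul]
      norm_num
    have hk0 : k = 0 := by
      rcases abs_eq_abs.1 (hi.trans a2.symm) with h | h
      · obtain ⟨A, hA', w1, w2⟩ := exists_weyl hN hg he hf ho hse hsf
        have r1 : HP.ex (-(Real.pi / 2)) (Complex.I • A) * HP.ex (Real.pi / 2) (Complex.I • A) =
            1 := HP.ex_neg_mul _ _
        have h4 := HP.Pr.conj hh h3 hA' (Real.pi / 2)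
        have s1 := n75_refl hse.grad w1
        have s2 := n75_fixS hsf.grad w2
        have g1 := n75_conj r1 l3
        have g2 := n75_conj r1 l2
        rw [s1] at g1
        rw [s2] at g2
        have g1' : HP.lie (HP.lie e e₁) (HP.ex (Real.pi / 2) (Complex.I • A) * k *
            HP.ex (-(Real.pi / 2)) (Complex.I • A)) = ((2 : ℤ) : ℂ) •
            (HP.ex (Real.pi / 2) (Complex.I • A) * k *
              HP.ex (-(Real.pi / 2)) (Complex.I • A)) := by
          have e2 : ∀ X Y : Cx E →L[ℂ] Cx E, HP.lie (-X) Y = -HP.lie X Y := by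
            intro X Y
            unfold HP.lie
            noncomm_ring
          rw [e2, h] at g1
          rw [← neg_inj, g1]
          push_cast
          rw [neg_smul]
        have g3 := van _ _ h4 g1' g2
        calc k = (HP.ex (-(Real.pi / 2)) (Complex.I • A) * HP.ex (Real.pi / 2) (Complex.I • A)) *
              k * (HP.ex (-(Real.pi / 2)) (Complex.I • A) *
                HP.ex (Real.pi / 2) (Complex.I • A)) := by rw [r1, one_mul, mul_one]
          _ = HP.ex (-(Real.pi / 2)) (Complex.I • A) * (HP.ex (Real.pi / 2) (Complex.I • A) * k *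
              HP.ex (-(Real.pi / 2)) (Complex.I • A)) * HP.ex (Real.pi / 2) (Complex.I • A) := by
            noncomm_ring
          _ = 0 := by rw [g3, mul_zero, zero_mul]
      · refine van k _ h3 ?_ l2
        rw [l3, h]
        norm_num
    have m1 := (hsf.grad.wt_mul 2 0 k1).1
    have m2 := (hse.grad.wt_mul (-i) i (cx B)).1
    rw [← hkk, hk0, zero_mul, zero_add] at m1
    rw [← hk1, add_neg_cancel] at m2
    have m3 : p i = q 0 * p i := by rw [← J1 i 0, (J3 i hi).1]
    have m4 : q 2 = q 2 * p 0 := by rw [← J1 0 2, (J3 2 a2).2]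
    calc q 2 * cx B * p i = (q 2 * p 0) * cx B * (q 0 * p i) := by rw [← m3, ← m4]
      _ = q 2 * (p 0 * cx B * (p i * q 0)) := by
        rw [← J1 i 0]
        noncomm_ring
      _ = q 2 * ((p 0 * cx B * p i) * q 0) := by noncomm_ring
      _ = q 2 * ((k1 * p i) * q 0) := by rw [← m2]
      _ = (q 2 * k1 * q 0) * p i := by
        rw [mul_assoc k1, J1 i 0]
        noncomm_ring
      _ = 0 := by rw [← m1, zero_mul]
  have claim : ∀ B : E →L[ℝ] E, Sk B → q 2 (io (B x)) = 0 := by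
    intro B hB
    rw [← cx_io, hdec, map_add, map_add]
    have h1 := congrArg (fun T : Cx E →L[ℂ] Cx E => T (io x)) (main 2 a2 B hB)
    have h2 := congrArg (fun T : Cx E →L[ℂ] Cx E => T (io x)) (main (-2) a2' B hB)
    change q 2 (cx B (p 2 (io x))) = 0 at h1
    change q 2 (cx B (p (-2) (io x))) = 0 at h2
    rw [h1, h2, add_zero]
  have hD := dagger_cx hN htr hx hsu'.ska ha'x claim
  apply hsf.top
  ext1 z
  have h3 := congrArg (fun T : Cx E →L[ℂ] Cx E => T z) (hsf.grad.eig' 2)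
  change q 2 (HP.lie f f₁ z) = ((2 : ℤ) : ℂ) • q 2 z at h3
  have h4 := hD z
  rw [ht'.ea] at h4
  change q 2 (Complex.I • HP.lie f f₁ z) = 0 at h4
  rw [map_smul] at h4
  have h5 := (smul_eq_zero.1 h4).resolve_left Complex.I_ne_zero
  rw [h5] at h3
  refine (smul_eq_zero.1 h3.symm).resolve_left ?_
  norm_num

end Pool.Agent.Helper61.RO
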