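import Pool.Agent.Helper61.RO.SpecEx

/-!
# RO-73  Comparison of the largest weights

`S = lie w w'`. PROOFS.
* `raise`: `S e = e S + 2 e`, so `S (e (p j z)) = (j + 2) e (p j z)` and `e p j = p (j + 2) e p j` (`Grad.fix_iff`); apply this and `∑ p i = 1`, `p i p j = 0`: `p (j + 2) e = p (j + 2) e p j = e p j`.
* `le_of_weight`: `e^k p j = p (j + 2 k) e^k`, so `e^(M + 1) p j = p (j + 2 M + 2) e^(M + 1) = 0` for all `j ≥ - M` (`supp`) and `p j = 0` for the other ones: `e^(M + 1) = 0`. If `M < M'` then `e^M' = 0`, contradiction to `Spec.pow_ne` for `e`.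
* `kill`: `M = 1`, `S z = 0` (`p 0 z = z`): `e z = p 2 (e z) = 0`. In the same way `e₁` lowers the weight by `2` (take stars: `lie e₁ S = 2 e₁`, `Pr.lie`, `Pr.unique`), `e₁ z = p (-2) (e₁ z) = 0`.
-/

set_option autoImplicit false

open Filter Topology

namespace Pool.Agent.Helper61.RO

universe u

variable {E : Type u} [NormedAddCommGroup E] [NormedSpace ℝ E] [CompleteSpace E]
  {𝔠 : Set (E →L[ℝ] E)} {w w' e e₁ : Cx E →L[ℂ] Cx E} {M M' : ℕ}
  {p p' : ℤ → Cx E →L[ℂ] Cx E}

omit [CompleteSpace E] in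
/-- an operator of weight `c` moves the weight spaces by `c` -/
private theorem tl_shift {S e : Cx E →L[ℂ] Cx E} {N : ℕ} (hG : HP.Grad S N p) {c : ℤ}
    (h : S * e - e * S = (c : ℂ) • e) (j : ℤ) : e * p j = p (j + c) * e := by
  have hA : ∀ k : ℤ, p (k + c) * (e * p k) = e * p k := by
    intro k
    refine ContinuousLinearMap.ext fun x => ?_
    change p (k + c) ((e * p k) x) = (e * p k) x
    rw [hG.fix_iff]
    have h1 : S * (e * p k) = ((k + c : ℤ) : ℂ) • (e * p k) := by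
      have h2 : S * e = e * S + (c : ℂ) • e := by rw [← h]; abel
      rw [← mul_assoc, h2, add_mul, mul_assoc, hG.eig, mul_smul_comm, smul_mul_assoc, ← add_smul]
      push_cast
      rfl
    exact congrArg (fun T : Cx E →L[ℂ] Cx E => T x) h1
  have hB : ∀ k : ℤ, k ≠ j → p (j + c) * (e * p k) = 0 := by
    intro k hk
    rw [← hA k, ← mul_assoc, hG.orth _ _ (by omega), zero_mul]
  have hC : p (j + c) * e = ∑ k ∈ Finset.Icc (-(N : ℤ)) (N : ℤ), p (j + c) * (e * p k) := by
    rw [← Finset.mul_sum, ← Finset.mul_sum, hG.sum, mul_one]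
  rw [hC]
  by_cases hj : j ∈ Finset.Icc (-(N : ℤ)) (N : ℤ)
  · rw [Finset.sum_eq_single_of_mem j hj fun k _ hk => hB k hk, hA]
  · have h0 : p j = 0 := by
      apply hG.supp
      rw [Finset.mem_Icc] at hj
      rw [lt_abs]
      omega
    rw [h0, mul_zero]
    refine (Finset.sum_eq_zero fun k hk => hB k ?_).symm
    rintro rfl
    exact hj hk

omit [CompleteSpace E] in
theorem Spec.raise (hs : Spec w w' M p) (hwe : HP.lie (HP.lie w w') e = (2 : ℂ) • e) (j : ℤ) :
    e * p j = p (j + 2) * e := by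
  have h := tl_shift hs.grad (c := 2) (hwe.trans (by norm_num)) j
  exact h

theorem Spec.le_of_weight (hN : RNice E) (h𝔠 : RLie 𝔠) (hs : Spec w w' M p) (he : TT 𝔠 e e₁)
    (hse : Spec e e₁ M' p') (hwe : HP.lie (HP.lie w w') e = (2 : ℂ) • e) : M' ≤ M := by
  by_contra hlt
  push Not at hlt
  have h1 : ∀ (k : ℕ) (j : ℤ), e ^ k * p j = p (j + 2 * k) * e ^ k := by
    intro k
    induction k with
    | zero => intro j; simp
    | succ k ih =>
      intro j
      rw [pow_succ', mul_assoc, ih, ← mul_assoc, hs.raise hwe, mul_assoc]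
      congr 2
      push_cast
      ring
  have h2 : e ^ (M + 1) = 0 := by
    calc e ^ (M + 1) = e ^ (M + 1) * ∑ j ∈ Finset.Icc (-(M : ℤ)) (M : ℤ), p j := by
          rw [hs.grad.sum, mul_one]
      _ = 0 := by
          rw [Finset.mul_sum]
          refine Finset.sum_eq_zero fun j hj => ?_
          rw [Finset.mem_Icc] at hj
          rw [h1, hs.grad.supp, zero_mul]
          rw [lt_abs]
          left
          push_cast
          omega
  apply hse.pow_ne hN h𝔠 he
  have h3 : M' = (M + 1) + (M' - (M + 1)) := by omega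
  rw [h3, pow_add, h2, zero_mul]

theorem Spec.kill (hN : RNice E) (h𝔠 : RLie 𝔠) (h : TT 𝔠 w w') (hs : Spec w w' 1 p)
    (he : TT 𝔠 e e₁) (hwe : HP.lie (HP.lie w w') e = (2 : ℂ) • e) {z : Cx E}
    (hz : HP.lie w w' z = 0) : e z = 0 ∧ e₁ z = 0 := by
  have hh := hlie_hc hN h𝔠
  have hz0 : p 0 z = z := by
    rw [hs.grad.fix_iff, hz]
    simp
  have hstar : HP.lie (HP.lie w w') e₁ = ((-2 : ℤ) : ℂ) • e₁ := by
    have h1 : HP.Pr (hc 𝔠) (HP.lie (HP.lie w w') e) (HP.lie e₁ (HP.lie w w')) :=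
      HP.Pr.lie hh (h.mem hN h𝔠).2 he.pr
    rw [hwe] at h1
    have h2 := HP.Pr.smul hh he.pr (2 : ℂ)
    have h3 := h1.unique hh h2
    have h4 : (starRingEnd ℂ) (2 : ℂ) = 2 := by
      rw [show (2 : ℂ) = ((2 : ℝ) : ℂ) by norm_num, Complex.conj_ofReal]
    rw [h4] at h3
    have h5 : HP.lie (HP.lie w w') e₁ = -HP.lie e₁ (HP.lie w w') := by
      unfold HP.lie
      abel
    rw [h5, h3, ← neg_smul]
    norm_num
  constructor
  · have h1 := congrArg (fun T : Cx E →L[ℂ] Cx E => T z) (hs.raise hwe 0)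
    change e (p 0 z) = p (0 + 2) (e z) at h1
    rw [hz0, hs.grad.supp (0 + 2) (by norm_num)] at h1
    exact h1
  · have h1 := congrArg (fun T : Cx E →L[ℂ] Cx E => T z)
      (tl_shift hs.grad (c := -2) hstar 0)
    change e₁ (p 0 z) = p (0 + -2) (e₁ z) at h1
    rw [hz0, hs.grad.supp (0 + -2) (by norm_num)] at h1
    exact h1

end Pool.Agent.Helper61.RO
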