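import Pool.Agent.Helper61.RO.Split
import Pool.Agent.Helper61.RO.TopLe
import Pool.Agent.Helper61.RO.AlphaPair
import Pool.Agent.Helper61.RO.ExtReal

/-!
# RO-90  Two orthogonal tripotents with largest weight one

PROOF. `h𝔤 = rlie_gg hN`. Triples `(a, b, c)` of `e` and `(a', b', c')` of `f` (`TT.exists_tri`). `alpha_pair`: `Cub3 a`, `Cub3 a'`, `a a' = 0 = a' a`. If there is `x ≠ 0` with `a x = 0 = a' x`: `OutA`. In any case `ker a ≠ 0`: `x = a' y ≠ 0`, `a x = 0`.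
If `CExt (gg E) e e₁`: `OutC` (`quat_of_one`, `CExt.ext`, `ker a ≠ 0`).
If not: `exists_split` for `e`: `g, g₁, k, k₁` (tripotents of weight `2` for `lie e e₁`, `Orth`, and `g + k`). `exists_spec` for the three; the largest weights are `≤ 1` (`Spec.le_of_weight`; `lie (lie e e₁) (g + k) = 2 (g + k)`) and positive, so they are `1`. `alpha_pair` for `g`, `k` with triples `(a₁, ..)`, `(a₂, ..)`. Let `x ≠ 0` with `a x = 0`:
`lie e e₁ (io x) = 0` (`cx a = i lie e e₁`), so `g (io x) = 0 = g₁ (io x)` (`Spec.kill`), `lie g g₁ (io x) = 0`, `a₁ x = 0`; in the same way `a₂ x = 0`. So `OutA`.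
-/

set_option autoImplicit false

open Filter Topology

namespace Pool.Agent.Helper61.RO

universe u

variable {E : Type u} [NormedAddCommGroup E] [NormedSpace ℝ E] [CompleteSpace E]
  {e e₁ f f₁ : Cx E →L[ℂ] Cx E} {M' : ℕ} {p q r : ℤ → Cx E →L[ℂ] Cx E}

omit [CompleteSpace E] in
private theorem rf_zero {w w' : Cx E →L[ℂ] Cx E} {a b c : E →L[ℝ] E} (ht : Tri w w' a b c)
    {x : E} : a x = 0 ↔ HP.lie w w' (io x) = 0 := by
  have h1 : io (a x) = Complex.I • HP.lie w w' (io x) := by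
    rw [← cx_io, ht.ea]
    rfl
  constructor
  · intro h
    rw [h, io_zero] at h1
    exact (smul_eq_zero.1 h1.symm).resolve_left Complex.I_ne_zero
  · intro h
    rw [h, smul_zero, ← io_zero] at h1
    exact io_inj h1

omit [CompleteSpace E] in
private theorem rf_kill {g g₁ : Cx E →L[ℂ] Cx E} {z : Cx E} (h : g z = 0) (h₁ : g₁ z = 0) :
    HP.lie g g₁ z = 0 := by
  change g (g₁ z) - g₁ (g z) = 0
  rw [h, h₁, map_zero, map_zero, sub_zero]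

theorem refine_pair (hN : RNice E) (he : TT (gg E) e e₁) (hf : TT (gg E) f f₁)
    (ho : Orth e e₁ f f₁) (hse : Spec e e₁ 1 p) (hsf : Spec f f₁ 1 q)
    (hsef : Spec (e + f) (e₁ + f₁) M' r) (hM : M' ≤ 1) : OutA E ∨ OutC E := by
  classical
  have h𝔤 := rlie_gg hN
  obtain ⟨a, -, b, -, c, -, hta, -⟩ := he.exists_tri hN h𝔤
  obtain ⟨a', -, b', -, c', -, hta', -⟩ := hf.exists_tri hN h𝔤
  obtain ⟨hca, hca', haa', ha'a⟩ := alpha_pair hN h𝔤 he hf ho hse hsf hsef hM hta hta'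
  by_cases hker : ∃ x, a x = 0 ∧ a' x = 0 ∧ x ≠ 0
  · exact Or.inl ⟨a, a', ⟨hca, hca', haa', ha'a, hker⟩⟩
  obtain ⟨x, hx, hx0⟩ : ∃ x, a x = 0 ∧ x ≠ 0 := by
    obtain ⟨y, hy⟩ : ∃ y, a' y ≠ 0 := by
      by_contra hno
      push Not at hno
      exact hca'.ne (ContinuousLinearMap.ext hno)
    exact ⟨a' y, congrArg (fun T : E →L[ℝ] E => T y) haa', hy⟩
  by_cases hC : CExt (gg E) e e₁
  · exact Or.inr ⟨a, b, c, quat_of_one hN h𝔤 he hse hta, hC.ext hN he hta, x, hx, hx0⟩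
  obtain ⟨g, g₁, k, k₁, hg, hk, hgk, hwg, hwk, hor⟩ := exists_split hN h𝔤 he hse hC
  obtain ⟨Mg, pg, hsg⟩ := exists_spec hN h𝔤 hg
  obtain ⟨Mk, pk, hsk⟩ := exists_spec hN h𝔤 hk
  obtain ⟨Ms, ps, hss⟩ := exists_spec hN h𝔤 hgk
  have hMg : Mg ≤ 1 := Spec.le_of_weight hN h𝔤 hse hg hsg hwg
  have hMk : Mk ≤ 1 := Spec.le_of_weight hN h𝔤 hse hk hsk hwk
  have hMs : Ms ≤ 1 := Spec.le_of_weight hN h𝔤 hse hgk hss (by
    have h1 : HP.lie (HP.lie e e₁) (g + k) = HP.lie (HP.lie e e₁) g + HP.lie (HP.lie e e₁) k := by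
      generalize HP.lie e e₁ = S
      unfold HP.lie
      noncomm_ring
    rw [h1, hwg, hwk, smul_add])
  obtain rfl : Mg = 1 := le_antisymm hMg hsg.pos
  obtain rfl : Mk = 1 := le_antisymm hMk hsk.pos
  obtain ⟨a₁, -, b₁, -, c₁, -, ht1, -⟩ := hg.exists_tri hN h𝔤
  obtain ⟨a₂, -, b₂, -, c₂, -, ht2, -⟩ := hk.exists_tri hN h𝔤
  obtain ⟨u1, u2, u3, u4⟩ := alpha_pair hN h𝔤 hg hk hor hsg hsk hss hMs ht1 ht2
  have hS := (rf_zero hta).1 hx
  obtain ⟨v1, v2⟩ := Spec.kill hN h𝔤 he hse hg hwg hS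
  obtain ⟨v3, v4⟩ := Spec.kill hN h𝔤 he hse hk hwk hS
  exact Or.inl ⟨a₁, a₂, ⟨u1, u2, u3, u4, x, (rf_zero ht1).2 (rf_kill v1 v2),
    (rf_zero ht2).2 (rf_kill v3 v4), hx0⟩⟩

end Pool.Agent.Helper61.RO
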