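import Pool.Agent.Helper61.RO.ExistsTT
import Pool.Agent.Helper61.RO.Refine
import Pool.Agent.Helper61.RO.NoTwo
import Pool.Agent.Helper61.RO.ExtOne

/-!
# RO-91  Tripotents with the smallest largest weight

PROOF. `exists_tt`, `exists_spec`: the set of the `M` such that there are `w`, `w'`, `p` with `TT 𝔠 w w'`, `Spec w w' M p` is not empty; let `M` be its minimum (`Nat.find`), with `w`, `w'`, `p`.
(1) Not `CExt 𝔠 w w'`: `exists_split`: `e, e₁, f, f₁`. `exists_spec` for `e`, `f`, `e + f`: largest weights `M₁, M₂, M₃ ≤ M` (`Spec.le_of_weight`), `≥ M` by minimality: all equal to `M`. With `hT`: `no_two` gives `M = 1`; `refine_pair`.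
(2) `CExt 𝔠 w w'`, so `CExt (gg E) w w'` (`hC`): `ext_one`: `M = 1`. `a, b, c` (`TT.exists_tri`), `quat_of_one`, `CExt.ext`. If `ker a ≠ 0`: `OutC`. Otherwise `a * a = - 1`: `a (a (a x) + x) = 0` (`Quat.cube`).
-/

set_option autoImplicit false

open Filter Topology

namespace Pool.Agent.Helper61.RO

universe u

variable {E : Type u} [NormedAddCommGroup E] [NormedSpace ℝ E] [CompleteSpace E]
  [TopologicalSpace.SeparableSpace E] {𝔠 : Set (E →L[ℝ] E)}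

theorem min_one (hN : RNice E) (htr : RTrans E) (hinf : ¬ FiniteDimensional ℝ E) (h𝔠 : RLie 𝔠)
    (hT : ∀ w w', TT 𝔠 w w' → TT (gg E) w w')
    (hC : ∀ w w', TT 𝔠 w w' → CExt 𝔠 w w' → CExt (gg E) w w')
    (hnab : ∃ A ∈ 𝔠, ∃ B ∈ 𝔠, A * B ≠ B * A) :
    OutA E ∨ OutC E ∨ ∃ (w w' : Cx E →L[ℂ] Cx E) (p : ℤ → Cx E →L[ℂ] Cx E) (a b c : E →L[ℝ] E),
      TT (gg E) w w' ∧ CExt (gg E) w w' ∧ Spec w w' 1 p ∧ Tri w w' a b c ∧ a ∈ 𝔠 ∧ b ∈ 𝔠 ∧
        c ∈ 𝔠 ∧ Quat a b c ∧ Ext a b c ∧ a * a = -1 := by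
  classical
  have hex : ∃ M : ℕ, ∃ (w w' : Cx E →L[ℂ] Cx E) (p : ℤ → Cx E →L[ℂ] Cx E),
      TT 𝔠 w w' ∧ Spec w w' M p := by
    obtain ⟨w, w', hw⟩ := exists_tt hN h𝔠 hnab
    obtain ⟨M, p, hs⟩ := exists_spec hN h𝔠 hw
    exact ⟨M, w, w', p, hw, hs⟩
  have hmin : ∀ M' : ℕ, (∃ (w w' : Cx E →L[ℂ] Cx E) (p : ℤ → Cx E →L[ℂ] Cx E),
      TT 𝔠 w w' ∧ Spec w w' M' p) → Nat.find hex ≤ M' := fun M' h => Nat.find_min' hex h
  obtain ⟨w, w', p, hw, hs⟩ := Nat.find_spec hex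
  generalize Nat.find hex = M at hs hmin
  by_cases hce : CExt 𝔠 w w'
  · right
    have hE := hC w w' hw hce
    have hM := ext_one hN htr hinf (hT w w' hw) hE hs
    subst hM
    obtain ⟨a, ha, b, hb, c, hc, ht, -⟩ := hw.exists_tri hN h𝔠
    have hq := quat_of_one hN h𝔠 hw hs ht
    have hx := hE.ext hN (hT w w' hw) ht
    by_cases hk : ∃ x, a x = 0 ∧ x ≠ 0
    · exact Or.inl ⟨a, b, c, hq, hx, hk⟩
    · right
      refine ⟨w, w', p, a, b, c, hT w w' hw, hE, hs, ht, ha, hb, hc, hq, hx, ?_⟩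
      push Not at hk
      ext y
      have h1 := congrArg (fun A : E →L[ℝ] E => A y) hq.cube
      have h2 : a (a (a y)) = -(a y) := h1
      have h3 : a (a (a y) + y) = 0 := by
        rw [map_add, h2, neg_add_cancel]
      exact eq_neg_of_add_eq_zero_left (hk _ h3)
  · obtain ⟨e, e₁, f, f₁, he, hf, hef, hwe, hwf, ho⟩ := exists_split hN h𝔠 hw hs hce
    obtain ⟨M₁, p₁, hs₁⟩ := exists_spec hN h𝔠 he
    obtain ⟨M₂, p₂, hs₂⟩ := exists_spec hN h𝔠 hf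
    obtain ⟨M₃, p₃, hs₃⟩ := exists_spec hN h𝔠 hef
    have hwef : HP.lie (HP.lie w w') (e + f) = (2 : ℂ) • (e + f) := by
      have h1 : HP.lie (HP.lie w w') (e + f) =
          HP.lie (HP.lie w w') e + HP.lie (HP.lie w w') f := by
        generalize HP.lie w w' = S
        unfold HP.lie
        rw [mul_add, add_mul]
        abel
      rw [h1, hwe, hwf, smul_add]
    have e1 : M₁ = M := le_antisymm (hs.le_of_weight hN h𝔠 he hs₁ hwe)
      (hmin M₁ ⟨e, e₁, p₁, he, hs₁⟩)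
    have e2 : M₂ = M := le_antisymm (hs.le_of_weight hN h𝔠 hf hs₂ hwf)
      (hmin M₂ ⟨f, f₁, p₂, hf, hs₂⟩)
    have e3 : M₃ = M := le_antisymm (hs.le_of_weight hN h𝔠 hef hs₃ hwef)
      (hmin M₃ ⟨e + f, e₁ + f₁, p₃, hef, hs₃⟩)
    subst e1
    rw [e2] at hs₂
    rw [e3] at hs₃
    have h1 : M₁ = 1 := no_two hN htr (hT _ _ he) (hT _ _ hf) (hT _ _ hef) ho hs₁ hs₂ hs₃ le_rfl
    subst h1
    rcases refine_pair hN (hT _ _ he) (hT _ _ hf) ho hs₁ hs₂ hs₃ le_rfl with h2 | h2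
    · exact Or.inl h2
    · exact Or.inr (Or.inl h2)

end Pool.Agent.Helper61.RO
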