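import Pool.Agent.Helper61.RO.SqSmall
import Pool.Agent.Helper61.RO.QuatApi

/-!
# RO-41  The Newton step

`D`, `D'` skew with cube `- D`, `- D'`, `δ = D' - D`, `‖δ‖ ≤ 1`. Put
`u = D δ - δ D - (3/4) (D D δ D - D δ D D)` and `δ₀ = δ + (D u - u D)`.

ALGEBRA (`noncomm_ring` after using `D D D = - D`; or reduce words by hand): `δ₀ = δ + D D δ + δ D D - (1/2) D δ D + (3/2) D D δ D D`. With
`Q = - (D δ δ + δ D δ + δ δ D + δ δ δ)` the equation `(D + δ)³ = - (D + δ)` says `D D δ + D δ D + δ D D + δ = Q`, and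
`δ₀ = Q + D D Q + Q D D + (1/4) D Q D + (3/4) D D Q D D` (substitute `Q` and reduce). So `‖δ₀‖ ≤ 16 ‖δ‖²` (`‖D‖ ≤ 1`).

`u` is skew: it is a combination of `[D, δ]` and `[D, [D, [D, δ]]]` (`D D δ D - D δ D D = - (1/3) ([D, [D, [D, δ]]] + [D, δ])`, as
`[D,[D,[D,δ]]] = D D D δ - 3 D D δ D + 3 D δ D D - δ D D D = - D δ + δ D - 3 (D D δ D - D δ D D)`). `‖u‖ ≤ 4 ‖δ‖`.

`D'' = rx (-1) u * D' * rx 1 u`. Put `R = D'' - D' + (u D' - D' u)`. Then `D'' - D = δ₀ - (u δ - δ u) + R` (`D' - [u, D'] = D + δ - [u, D] - [u, δ]`, `- [u, D] = D u - u D`).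
With `r₁ = rx 1 u - 1 - u`, `r₂ = rx (-1) u - 1 + u`, `‖r₁‖, ‖r₂‖ ≤ C ‖u‖²` (`rx_taylor`): `R = (1 - u + r₂) D' (1 + u + r₁) - D' + u D' - D' u = D' r₁ - u D' u - u D' r₁ + r₂ D' rx 1 u`. So
`‖D'' - D‖ ≤ C ‖δ‖²`.

For `D y = 0`: `δ y = D' y`, `u y = D (δ y)`, so `‖u y‖ ≤ ‖D' y‖`. `‖r₁ y‖ ≤ ‖u (u y)‖ ≤ ‖u‖ ‖u y‖` (`Sk.rx_taylor_one`). `Q y` and `δ₀ y = Q y + D D Q y` are bounded by
`C ‖δ‖ ‖δ y‖` (all words of `Q` end with `δ y`); `(u δ - δ u) y` by `2 ‖u‖ ‖δ y‖ `-type bounds; `R y = D' (r₁ y) - u D' (u y) - u D' (r₁ y) + r₂ (D' (rx 1 u y))` and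
`‖D' (rx 1 u y)‖ ≤ ‖D' y‖ + ‖rx 1 u y - y‖ ≤ 2 ‖D' y‖` (`Sk.rx_sub_le`). So `‖D'' y‖ = ‖(D'' - D) y‖ ≤ C ‖δ‖ ‖D' y‖`.
-/

set_option autoImplicit false

open Filter Topology

namespace Pool.Agent.Helper61.RO

universe u

variable {E : Type u} [NormedAddCommGroup E] [NormedSpace ℝ E] [CompleteSpace E]

private theorem h45_br_norm (A B : E →L[ℝ] E) : ‖br A B‖ ≤ 2 * ‖A‖ * ‖B‖ := by
  unfold br
  refine (norm_sub_le _ _).trans ?_
  have h1 := norm_mul_le A B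
  have h2 := norm_mul_le B A
  linarith

/-- The cubic equation for the difference. -/
private theorem h45_cube {D δ : E →L[ℝ] E} (hD : D * D * D = -D)
    (hD' : (D + δ) * (D + δ) * (D + δ) = -(D + δ)) :
    D * D * δ + D * δ * D + δ * D * D + δ =
      -(D * δ * δ + δ * D * δ + δ * δ * D + δ * δ * δ) := by
  have e : (D + δ) * (D + δ) * (D + δ) = D * D * D + (D * D * δ + D * δ * D + δ * D * D) +
      (D * δ * δ + δ * D * δ + δ * δ * D) + δ * δ * δ := by noncomm_ring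
  rw [hD', hD] at e
  rw [eq_neg_iff_add_eq_zero]
  calc D * D * δ + D * δ * D + δ * D * D + δ +
        (D * δ * δ + δ * D * δ + δ * δ * D + δ * δ * δ) =
      (-D + (D * D * δ + D * δ * D + δ * D * D) +
        (D * δ * δ + δ * D * δ + δ * δ * D) + δ * δ * δ) + (D + δ) := by abel
    _ = 0 := by rw [← e]; abel

/-- The linear algebra of the Newton step. -/
private theorem h45_lin {D δ Q u : E →L[ℝ] E} (hD : D * D * D = -D)
    (hu : u = (5 / 4 : ℝ) • br D δ + (1 / 4 : ℝ) • br D (br D (br D δ)))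
    (hQ : Q = D * D * δ + D * δ * D + δ * D * D + δ) :
    δ + (D * u - u * D) = Q + D * D * Q + Q * D * D + (1 / 4 : ℝ) • (D * Q * D) +
      (3 / 4 : ℝ) • (D * D * Q * D * D) := by
  have h1 : D * (D * D) = -D := by rw [← mul_assoc, hD]
  have h2 : ∀ x : E →L[ℝ] E, D * (D * (D * x)) = -(D * x) := by
    intro x
    rw [← mul_assoc D D, ← mul_assoc, hD, neg_mul]
  rw [hu, hQ]
  unfold br
  simp only [mul_add, mul_sub, add_mul, sub_mul, smul_mul_assoc, mul_smul_comm, mul_assoc, h1, h2,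
    mul_neg, neg_mul, smul_add, smul_sub, smul_neg, neg_neg]
  module

private theorem h45_apply_le {A : E →L[ℝ] E} {t : ℝ} (hA : ‖A‖ ≤ t) (z : E) : ‖A z‖ ≤ t * ‖z‖ :=
  (A.le_opNorm z).trans (mul_le_mul_of_nonneg_right hA (norm_nonneg z))

private theorem h45_apply_le' {A : E →L[ℝ] E} {t s : ℝ} (ht : 0 ≤ t) (hA : ‖A‖ ≤ t) {z : E}
    (hz : ‖z‖ ≤ s) : ‖A z‖ ≤ t * s :=
  (h45_apply_le hA z).trans (mul_le_mul_of_nonneg_left hz ht)

private theorem h45_mul_le {A B : E →L[ℝ] E} {t s : ℝ} (ht : 0 ≤ t) (hA : ‖A‖ ≤ t)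
    (hB : ‖B‖ ≤ s) : ‖A * B‖ ≤ t * s :=
  (norm_mul_le A B).trans (mul_le_mul hA hB (norm_nonneg B) ht)

theorem newton_step : ∃ C : ℝ, 1 ≤ C ∧ ∀ D D' : E →L[ℝ] E, Cub3 D → Cub3 D' → ‖D' - D‖ ≤ 1 →
    ∃ u : E →L[ℝ] E, Sk u ∧ ‖u‖ ≤ C * ‖D' - D‖ ∧
      ‖rx (-1) u * D' * rx 1 u - D‖ ≤ C * ‖D' - D‖ ^ 2 ∧
      ∀ y, D y = 0 → ‖u y‖ ≤ C * ‖D' y‖ ∧
        ‖(rx (-1) u * D' * rx 1 u) y‖ ≤ C * ‖D' - D‖ * ‖D' y‖ := by
  set K : ℝ := 25 * Real.exp 5 with hK
  have hK0 : 0 < K := by positivity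
  refine ⟨7 * K + 100, by linarith, fun D D' hD hD' hd => ?_⟩
  set δ : E →L[ℝ] E := D' - D with hδ
  set d : ℝ := ‖δ‖ with hdd
  have hd0 : 0 ≤ d := norm_nonneg _
  have hdd2 : d * d ≤ d := by nlinarith
  have hDn := hD.norm_le
  have hDn' := hD'.norm_le
  have hDD' : D' = D + δ := by rw [hδ]; abel
  have hskδ : Sk δ := hD'.sk.sub hD.sk
  obtain ⟨u, hu⟩ : ∃ u : E →L[ℝ] E,
      u = (5 / 4 : ℝ) • br D δ + (1 / 4 : ℝ) • br D (br D (br D δ)) := ⟨_, rfl⟩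
  have hsku : Sk u := by
    rw [hu]
    exact ((hD.sk.br hskδ).smul _).add ((hD.sk.br (hD.sk.br (hD.sk.br hskδ))).smul _)
  -- the norm of `u`
  have hbr : ∀ A : E →L[ℝ] E, ‖br D A‖ ≤ 2 * ‖A‖ := by
    intro A
    refine (h45_br_norm D A).trans ?_
    have := norm_nonneg A
    nlinarith
  have hun : ‖u‖ ≤ 5 * d := by
    have h1 := hbr δ
    have h2 := hbr (br D δ)
    have h3 := hbr (br D (br D δ))
    rw [hu]
    refine (norm_add_le _ _).trans ?_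
    rw [norm_smul, norm_smul, Real.norm_eq_abs, Real.norm_eq_abs, abs_of_pos (by norm_num),
      abs_of_pos (by norm_num)]
    linarith
  have hun5 : ‖u‖ ≤ 5 := hun.trans (by linarith)
  have hun0 : 0 ≤ ‖u‖ := norm_nonneg u
  -- the element `Q`
  obtain ⟨Q, hQ⟩ : ∃ Q : E →L[ℝ] E, Q = D * D * δ + D * δ * D + δ * D * D + δ := ⟨_, rfl⟩
  have hQ' : Q = -(D * δ * δ + δ * D * δ + δ * δ * D + δ * δ * δ) := by
    rw [hQ]
    refine h45_cube hD.cube ?_
    rw [← hDD']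
    exact hD'.cube
  have hlin := h45_lin hD.cube hu hQ
  have hDδ : ‖D * δ‖ ≤ 1 * d := h45_mul_le zero_le_one hDn le_rfl
  have hδD : ‖δ * D‖ ≤ d * 1 := h45_mul_le hd0 le_rfl hDn
  have hδδ : ‖δ * δ‖ ≤ d * d := h45_mul_le hd0 le_rfl le_rfl
  have hQn : ‖Q‖ ≤ 4 * d ^ 2 := by
    have h1 : ‖D * δ * δ‖ ≤ 1 * d * d := h45_mul_le (by positivity) hDδ le_rfl
    have h2 : ‖δ * D * δ‖ ≤ d * 1 * d := h45_mul_le (by positivity) hδD le_rfl
    have h3 : ‖δ * δ * D‖ ≤ d * d * 1 := h45_mul_le (by positivity) hδδ hDn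
    have h4 : ‖δ * δ * δ‖ ≤ d * d * d := h45_mul_le (by positivity) hδδ le_rfl
    rw [hQ', norm_neg]
    refine (norm_add_le _ _).trans ?_
    have h5 := norm_add_le (D * δ * δ + δ * D * δ) (δ * δ * D)
    have h6 := norm_add_le (D * δ * δ) (δ * D * δ)
    have h7 : d * d * d ≤ d * d * 1 := mul_le_mul_of_nonneg_left hd (by positivity)
    nlinarith
  have hδ₀ : ‖δ + (D * u - u * D)‖ ≤ 16 * d ^ 2 := by
    rw [hlin]
    have hq0 : 0 ≤ 4 * d ^ 2 := by positivity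
    have hDD : ‖D * D‖ ≤ 1 * 1 := h45_mul_le zero_le_one hDn hDn
    have h1 : ‖D * D * Q‖ ≤ 1 * 1 * (4 * d ^ 2) := h45_mul_le (by norm_num) hDD hQn
    have h2 : ‖Q * D * D‖ ≤ 4 * d ^ 2 * 1 * 1 :=
      h45_mul_le (by positivity) (h45_mul_le hq0 hQn hDn) hDn
    have h3 : ‖D * Q * D‖ ≤ 1 * (4 * d ^ 2) * 1 :=
      h45_mul_le (by positivity) (h45_mul_le zero_le_one hDn hQn) hDn
    have h4 : ‖D * D * Q * D * D‖ ≤ 1 * 1 * (4 * d ^ 2) * 1 * 1 :=
      h45_mul_le (by positivity) (h45_mul_le (by positivity) h1 hDn) hDn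
    refine (norm_add_le _ _).trans ?_
    have h5 := norm_add_le (Q + D * D * Q + Q * D * D) ((1 / 4 : ℝ) • (D * Q * D))
    have h6 := norm_add_le (Q + D * D * Q) (Q * D * D)
    have h7 := norm_add_le Q (D * D * Q)
    rw [norm_smul, Real.norm_eq_abs, abs_of_pos (by norm_num)] at h5 ⊢
    linarith
  -- the remainders
  obtain ⟨r₁, hr₁⟩ : ∃ r : E →L[ℝ] E, r = rx 1 u - 1 - u := ⟨_, rfl⟩
  obtain ⟨r₂, hr₂⟩ : ∃ r : E →L[ℝ] E, r = rx (-1) u - 1 + u := ⟨_, rfl⟩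
  have hexp : ‖u‖ ^ 2 * Real.exp ‖u‖ ≤ K * d ^ 2 := by
    have h1 : ‖u‖ ^ 2 ≤ 25 * d ^ 2 := by
      have := mul_self_le_mul_self hun0 hun
      nlinarith
    have h2 : Real.exp ‖u‖ ≤ Real.exp 5 := Real.exp_le_exp.2 hun5
    have h3 := mul_le_mul h1 h2 (Real.exp_pos _).le (by positivity)
    rw [hK]
    linarith
  have hr₁n : ‖r₁‖ ≤ K * d ^ 2 := by
    have h1 := rx_taylor u 1
    rw [one_smul, abs_one, one_mul, one_pow, one_mul] at h1
    rw [hr₁]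
    exact h1.trans hexp
  have hr₂n : ‖r₂‖ ≤ K * d ^ 2 := by
    have h1 := rx_taylor u (-1)
    rw [neg_one_smul, sub_neg_eq_add, abs_neg, abs_one, one_mul] at h1
    have h2 : ((-1 : ℝ)) ^ 2 = 1 := by norm_num
    rw [h2, one_mul] at h1
    rw [hr₂]
    exact h1.trans hexp
  have hrx1 : rx 1 u = 1 + u + r₁ := by rw [hr₁]; abel
  have hrx2 : rx (-1) u = 1 - u + r₂ := by rw [hr₂]; abel
  have hrxn : ‖rx 1 u‖ ≤ 1 := hsku.norm_rx_le 1
  -- the main identity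
  obtain ⟨R, hR⟩ : ∃ R : E →L[ℝ] E, R = D' * r₁ - u * D' * u - u * D' * r₁ +
      r₂ * D' * rx 1 u := ⟨_, rfl⟩
  have hmain : rx (-1) u * D' * rx 1 u - D =
      (δ + (D * u - u * D)) + (δ * u - u * δ) + R := by
    have h1 : rx (-1) u * D' * rx 1 u = (1 - u) * D' * (1 + u + r₁) + r₂ * D' * rx 1 u := by
      rw [hrx2, ← hrx1]
      noncomm_ring
    rw [h1, hR]
    have h2 : (1 - u) * D' * (1 + u + r₁) =
        D' + (D' * u - u * D') + (D' * r₁ - u * D' * u - u * D' * r₁) := by noncomm_ring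
    rw [h2]
    have h3 : D' * u - u * D' = (D * u - u * D) + (δ * u - u * δ) := by
      rw [hDD']
      noncomm_ring
    rw [h3]
    rw [hδ]
    abel
  have hδu : ‖δ * u‖ ≤ d * (5 * d) := h45_mul_le hd0 le_rfl hun
  have huδ : ‖u * δ‖ ≤ 5 * d * d := h45_mul_le (by positivity) hun le_rfl
  have hRn : ‖R‖ ≤ (7 * K + 25) * d ^ 2 := by
    have hkd : 0 ≤ K * d ^ 2 := by positivity
    have h1 : ‖D' * r₁‖ ≤ 1 * (K * d ^ 2) := h45_mul_le zero_le_one hDn' hr₁n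
    have huD : ‖u * D'‖ ≤ 5 * d * 1 := h45_mul_le (by positivity) hun hDn'
    have h2 : ‖u * D' * u‖ ≤ 5 * d * 1 * (5 * d) := h45_mul_le (by positivity) huD hun
    have h3 : ‖u * D' * r₁‖ ≤ 5 * d * 1 * (K * d ^ 2) := h45_mul_le (by positivity) huD hr₁n
    have h4 : ‖r₂ * D' * rx 1 u‖ ≤ K * d ^ 2 * 1 * 1 :=
      h45_mul_le (by positivity) (h45_mul_le hkd hr₂n hDn') hrxn
    have h5 : 5 * d * 1 * (K * d ^ 2) ≤ 5 * 1 * 1 * (K * d ^ 2) := by
      refine mul_le_mul_of_nonneg_right ?_ hkd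
      linarith
    rw [hR]
    refine (norm_add_le _ _).trans ?_
    have h6 := norm_sub_le (D' * r₁ - u * D' * u) (u * D' * r₁)
    have h7 := norm_sub_le (D' * r₁) (u * D' * u)
    nlinarith
  refine ⟨u, hsku, ?_, ?_, fun y hy => ?_⟩
  · refine hun.trans (mul_le_mul_of_nonneg_right ?_ hd0)
    linarith
  · rw [hmain]
    refine (norm_add_le _ _).trans ?_
    have h1 := norm_add_le (δ + (D * u - u * D)) (δ * u - u * δ)
    have h2 := norm_sub_le (δ * u) (u * δ)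
    have h3 : 0 ≤ d ^ 2 := by positivity
    nlinarith
  · -- vectors in the kernel of `D`
    have hδy : δ y = D' y := by
      rw [hδ, sub_apply, hy, sub_zero]
    obtain ⟨s, hs⟩ : ∃ s : ℝ, s = ‖D' y‖ := ⟨_, rfl⟩
    have hs0 : 0 ≤ s := by rw [hs]; exact norm_nonneg _
    have hδyn : ‖δ y‖ ≤ s := by rw [hδy, hs]
    have hbry : ∀ A : E →L[ℝ] E, (br D A) y = D (A y) := by
      intro A
      change D (A y) - A (D y) = _
      rw [hy, map_zero, sub_zero]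
    have huy : u y = D (δ y) := by
      have h1 : D (D (D (δ y))) = -D (δ y) := DFunLike.congr_fun hD.cube (δ y)
      rw [hu]
      change (5 / 4 : ℝ) • (br D δ) y + (1 / 4 : ℝ) • (br D (br D (br D δ))) y = _
      rw [hbry, hbry, hbry, hbry, h1]
      module
    have huyn : ‖u y‖ ≤ s := by
      rw [huy]
      refine (h45_apply_le' zero_le_one hDn hδyn).trans ?_
      linarith
    have hQy : ‖Q y‖ ≤ 3 * d * s := by
      have h1 : Q y = -(D (δ (δ y)) + δ (D (δ y)) + δ (δ (D y)) + δ (δ (δ y))) := by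
        rw [hQ']
        rfl
      rw [h1, hy, map_zero, map_zero, add_zero, norm_neg]
      have h2 : ‖δ (δ y)‖ ≤ d * s := h45_apply_le' hd0 le_rfl hδyn
      have h3 : ‖D (δ (δ y))‖ ≤ 1 * (d * s) := h45_apply_le' zero_le_one hDn h2
      have h4 : ‖D (δ y)‖ ≤ 1 * s := h45_apply_le' zero_le_one hDn hδyn
      have h5 : ‖δ (D (δ y))‖ ≤ d * (1 * s) := h45_apply_le' hd0 le_rfl h4
      have h6 : ‖δ (δ (δ y))‖ ≤ 1 * (d * s) := h45_apply_le' zero_le_one hd h2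
      refine (norm_add_le _ _).trans ?_
      have h7 := norm_add_le (D (δ (δ y))) (δ (D (δ y)))
      linarith
    have hδ₀y : ‖(δ + (D * u - u * D)) y‖ ≤ 6 * d * s := by
      have h1 : (δ + (D * u - u * D)) y = Q y + D (D (Q y)) := by
        rw [hlin]
        change Q y + D (D (Q y)) + Q (D (D y)) + (1 / 4 : ℝ) • (D (Q (D y))) +
          (3 / 4 : ℝ) • (D (D (Q (D (D y))))) = _
        rw [hy]
        simp only [map_zero, smul_zero, add_zero]
      rw [h1]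
      have h2 : ‖D (Q y)‖ ≤ 1 * (3 * d * s) := h45_apply_le' zero_le_one hDn hQy
      have h3 : ‖D (D (Q y))‖ ≤ 1 * (1 * (3 * d * s)) := h45_apply_le' zero_le_one hDn h2
      refine (norm_add_le _ _).trans ?_
      linarith
    have hcy : ‖(δ * u - u * δ) y‖ ≤ 6 * d * s := by
      change ‖δ (u y) - u (δ y)‖ ≤ _
      have h1 : ‖δ (u y)‖ ≤ d * s := h45_apply_le' hd0 le_rfl huyn
      have h2 : ‖u (δ y)‖ ≤ 5 * d * s := h45_apply_le' (by positivity) hun hδyn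
      refine (norm_sub_le _ _).trans ?_
      linarith
    have hRy : ‖R y‖ ≤ (35 + 2 * K) * d * s := by
      have h1 : R y = D' (r₁ y) - u (D' (u y)) - u (D' (r₁ y)) + r₂ (D' (rx 1 u y)) := by
        rw [hR]
        rfl
      have h2 : ‖r₁ y‖ ≤ 5 * d * s := by
        have h3 := hsku.rx_taylor_one y
        have h4 : r₁ y = rx 1 u y - y - u y := by
          rw [hr₁]
          rfl
        rw [h4]
        refine h3.trans ?_
        exact h45_apply_le' (by positivity) hun huyn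
      have h3 : ‖D' (r₁ y)‖ ≤ 1 * (5 * d * s) := h45_apply_le' zero_le_one hDn' h2
      have h4 : ‖u (D' (u y))‖ ≤ 5 * d * (1 * s) :=
        h45_apply_le' (by positivity) hun (h45_apply_le' zero_le_one hDn' huyn)
      have h5 : ‖u (D' (r₁ y))‖ ≤ 5 * (1 * (5 * d * s)) := h45_apply_le' (by norm_num) hun5 h3
      have h6 : ‖D' (rx 1 u y)‖ ≤ 2 * s := by
        have h7 : D' (rx 1 u y) = D' y + D' (rx 1 u y - y) := by
          rw [map_sub]
          abel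
        have h8 := hsku.rx_sub_le 1 y
        rw [abs_one, one_mul] at h8
        have h9 : ‖D' (rx 1 u y - y)‖ ≤ 1 * s := h45_apply_le' zero_le_one hDn' (h8.trans huyn)
        rw [h7]
        refine (norm_add_le _ _).trans ?_
        rw [← hs]
        linarith
      have h7 : ‖r₂ (D' (rx 1 u y))‖ ≤ K * d ^ 2 * (2 * s) :=
        h45_apply_le' (by positivity) hr₂n h6
      have h8 : K * d ^ 2 * (2 * s) ≤ K * d * (2 * s) := by
        refine mul_le_mul_of_nonneg_right ?_ (by positivity)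
        refine mul_le_mul_of_nonneg_left ?_ hK0.le
        rw [pow_two]
        exact hdd2
      rw [h1]
      refine (norm_add_le _ _).trans ?_
      have h9 := norm_sub_le (D' (r₁ y) - u (D' (u y))) (u (D' (r₁ y)))
      have h10 := norm_sub_le (D' (r₁ y)) (u (D' (u y)))
      linarith
    have hds : 0 ≤ d * s := mul_nonneg hd0 hs0
    constructor
    · refine huyn.trans ?_
      rw [hs]
      refine le_mul_of_one_le_left (norm_nonneg _) ?_
      linarith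
    · have h1 : (rx (-1) u * D' * rx 1 u) y =
          (δ + (D * u - u * D)) y + (δ * u - u * δ) y + R y := by
        have h2 : (rx (-1) u * D' * rx 1 u) y = (rx (-1) u * D' * rx 1 u - D) y := by
          rw [sub_apply, hy, sub_zero]
        rw [h2, hmain]
        rfl
      rw [h1, ← hs]
      refine (norm_add_le _ _).trans ?_
      have h2 := norm_add_le ((δ + (D * u - u * D)) y) ((δ * u - u * δ) y)
      nlinarith

end Pool.Agent.Helper61.RO
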