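import Pool.Agent.Helper61.RO.SpecEx
import Pool.Agent.Helper61.RO.DjApi

/-!
# RO-87  The form `- j(x)(X X x)` at a vector of top weight

`S = lie w w'`; `a` acts on the weight space `j` as `i j` (`cx a = i S`).
PROOF.
(1) If `a (a y) = - k² y` with an integer `k` which is not a multiple of `M`, then `dj x y = 0`. `R = rx (2 π / M) a`: `R x = x`, because `a (a x) = - M² x` gives `rx t a x = cos (M t) x + (1 / M) sin (M t) a x` (the derivative of both sides; or use `rx_hasSum`; or: `y t = rx t a x` satisfies ... e.g. show that `rx (-t) a (cos (M t) x + (1 / M) sin (M t) a x)`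
has derivative `0`). In the same way `rx t a y = cos (k t) y + (1 / k) sin (k t) a y` (`k ≠ 0`). `dj x (R z) = dj x z` (`Sk.dj_rx`), so with `t = 2 π / M`: `dj x y = cos (k t) dj x y + (1/k) sin (k t) dj x (a y)`, and for `a y` (same eigenvalue) `dj x (a y) = cos (k t) dj x (a y) - k sin (k t) dj x y`. The determinant of this linear system is
`(1 - cos (k t))² + sin² (k t) = 2 (1 - cos (k t)) ≠ 0` as `k t` is not in `2 π ℤ`. So `dj x y = 0`.
(2) Let `z = io x`. `z = z₁ + z'`, `S z₁ = M z₁`, `S z' = - M z'` (`z₁ = (1/2) (z + S z / M)`). `w z₁ = 0`, `w' z' = 0` (weights `± (M + 2)`), so `w w' z₁ = S z₁ = M z₁`, `w' w z' = M z'`, and `(w w' + w' w) z = M z`. `cx b = w' - w`, `cx c = - i (w + w')`.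
`cx b (cx b z) = - M z + (w' w' z₁ + w w z')`, `cx c (cx c z) = - M z - (w' w' z₁ + w w z')`, `cx b (cx c z) + cx c (cx b z) = - 2 i (w' w' z₁ - w w z')`: all corrections have weights `± (M - 4)`. `cx a (cx b z) + cx b (cx a z)` and the same with `c` have weights `± (M - 2)`.
So (real vectors, `cx_io`): `b (b x) = - M x + y₁`, `c (c x) = - M x - y₁`, `b (c x) + c (b x) = y₂`, `a (a y_i) = - (M - 4)² y_i`; `a (b x) + b (a x) = y₃`, `a (c x) + c (a x) = y₄`, `a (a y_i) = - (M - 2)² y_i`. `M` odd and `M ≥ 3`: `M - 4`, `M - 2` are not multiples of `M`. By (1) `dj x y_i = 0`.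
(3) `X = r a + s b + t c`: `- dj x (X (X x)) = r² M² + (s² + t²) M ≥ M (r² + s² + t²)` (`dj x x = 1`).
-/

set_option autoImplicit false

open Filter Topology

namespace Pool.Agent.Helper61.RO

universe u

variable {E : Type u} [NormedAddCommGroup E] [NormedSpace ℝ E] [CompleteSpace E]
  {𝔠 : Set (E →L[ℝ] E)} {w w' : Cx E →L[ℂ] Cx E} {M : ℕ} {p : ℤ → Cx E →L[ℂ] Cx E}
  {a b c : E →L[ℝ] E} {x : E}

/-- the one-parameter group on an eigenvector of `a ^ 2` -/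
private theorem tq_rx {a : E →L[ℝ] E} {v : E} {κ : ℝ} (hκ : κ ≠ 0) (hv : a (a v) = -(κ ^ 2 • v))
    (t : ℝ) : rx t a v = Real.cos (κ * t) • v + (κ⁻¹ * Real.sin (κ * t)) • a v := by
  set u : ℝ → E := fun t => Real.cos (κ * t) • v + (κ⁻¹ * Real.sin (κ * t)) • a v with hu
  have hlin : ∀ s : ℝ, HasDerivAt (fun s : ℝ => κ * s) κ s := by
    intro s
    simpa using (hasDerivAt_id s).const_mul κ
  have hau : ∀ s, a (u s) = Real.cos (κ * s) • a v - (κ * Real.sin (κ * s)) • v := by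
    intro s
    simp only [hu, map_add, map_smul, hv]
    have e1 : (κ⁻¹ * Real.sin (κ * s)) • (-(κ ^ 2 • v)) = -((κ * Real.sin (κ * s)) • v) := by
      rw [smul_neg, smul_smul]
      congr 2
      field_simp
    rw [e1, sub_eq_add_neg]
  have hud : ∀ s, HasDerivAt u (a (u s)) s := by
    intro s
    have h1 : HasDerivAt (fun s : ℝ => Real.cos (κ * s)) (-Real.sin (κ * s) * κ) s := (hlin s).cos
    have h2 : HasDerivAt (fun s : ℝ => κ⁻¹ * Real.sin (κ * s)) (κ⁻¹ * (Real.cos (κ * s) * κ)) s :=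
      (hlin s).sin.const_mul _
    have h3 := (h1.smul_const v).add (h2.smul_const (a v))
    have e1 : (-Real.sin (κ * s) * κ) • v + (κ⁻¹ * (Real.cos (κ * s) * κ)) • a v = a (u s) := by
      rw [hau]
      have e2 : κ⁻¹ * (Real.cos (κ * s) * κ) = Real.cos (κ * s) := by field_simp
      rw [e2]
      module
    rw [e1] at h3
    exact h3
  have hg : ∀ s, HasDerivAt (fun s : ℝ => rx (-s) a (u s)) (0 : E) s := by
    intro s
    have h1 : HasDerivAt (fun s : ℝ => rx (-s) a) (-(a * rx (-s) a)) s := by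
      have h3 := (rx_hasDerivAt a (-s)).scomp s (hasDerivAt_neg s)
      rwa [neg_one_smul] at h3
    have h2 := h1.clm_apply (hud s)
    have e1 : (-(a * rx (-s) a)) (u s) + rx (-s) a (a (u s)) = 0 := by
      have e2 := congrArg (fun T : E →L[ℝ] E => T (u s)) (rx_comm (A := a) (D := a) rfl (-s))
      change a (rx (-s) a (u s)) = rx (-s) a (a (u s)) at e2
      change -(a (rx (-s) a (u s))) + rx (-s) a (a (u s)) = 0
      rw [e2, neg_add_cancel]
    rw [e1] at h2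
    exact h2
  have h2 := is_const_of_deriv_eq_zero (fun s => (hg s).differentiableAt)
    (fun s => (hg s).deriv) t 0
  have hu0 : u 0 = v := by
    simp [hu]
  rw [neg_zero, rx_zero, hu0] at h2
  have h3 : rx t a (rx (-t) a (u t)) = u t := by
    have e2 := congrArg (fun T : E →L[ℝ] E => T (u t)) (rx_mul_neg t a)
    exact e2
  rw [h2] at h3
  exact h3

/-- orthogonality of eigenvectors -/
private theorem tq_orth (hN : RNice E) {a : E →L[ℝ] E} (ha : Sk a) {x y : E} {M : ℕ} {k : ℤ}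
    (hM : 0 < M) (hx0 : x ≠ 0) (hx : a (a x) = -((M : ℝ) ^ 2 • x)) (hy : a (a y) = -((k : ℝ) ^ 2 • y))
    (hk : ¬ ((M : ℤ) ∣ k)) : dj x y = 0 := by
  have hM0 : (M : ℝ) ≠ 0 := by exact_mod_cast hM.ne'
  have hk0 : (k : ℝ) ≠ 0 := by
    intro h0
    apply hk
    have : k = 0 := by exact_mod_cast h0
    rw [this]
    exact dvd_zero _
  obtain ⟨t, ht⟩ : ∃ t : ℝ, t = 2 * Real.pi / M := ⟨_, rfl⟩
  have hMt : (M : ℝ) * t = 2 * Real.pi := by
    rw [ht]
    field_simp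
  have hRx : rx t a x = x := by
    rw [tq_rx hM0 hx, hMt, Real.cos_two_pi, Real.sin_two_pi, one_smul, mul_zero, zero_smul, add_zero]
  have hay : a (a (a y)) = -((k : ℝ) ^ 2 • a y) := by
    rw [hy, map_neg, map_smul]
  have h1 : dj x (rx t a y) = dj x y := by
    have := ha.dj_rx hN hx0 t y
    rwa [hRx] at this
  have h2 : dj x (rx t a (a y)) = dj x (a y) := by
    have := ha.dj_rx hN hx0 t (a y)
    rwa [hRx] at this
  rw [tq_rx hk0 hy, map_add, map_smul, map_smul, smul_eq_mul, smul_eq_mul] at h1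
  rw [tq_rx hk0 hay, hy, map_add, map_smul, map_smul, map_neg, map_smul, smul_eq_mul, smul_eq_mul,
    smul_eq_mul] at h2
  obtain ⟨α, hα⟩ : ∃ α : ℝ, α = dj x y := ⟨_, rfl⟩
  obtain ⟨β, hβ⟩ : ∃ β : ℝ, β = dj x (a y) := ⟨_, rfl⟩
  obtain ⟨C, hC⟩ : ∃ C : ℝ, C = Real.cos ((k : ℝ) * t) := ⟨_, rfl⟩
  obtain ⟨s, hs⟩ : ∃ s : ℝ, s = Real.sin ((k : ℝ) * t) := ⟨_, rfl⟩
  rw [← hα, ← hβ, ← hC, ← hs] at h1 h2
  have hsc : s ^ 2 + C ^ 2 = 1 := by
    rw [hs, hC]
    exact Real.sin_sq_add_cos_sq _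
  have h3 : k * (1 - C) * α = s * β := by
    have e1 : (k : ℝ) * (C * α + (k : ℝ)⁻¹ * s * β) = k * α := by rw [h1]
    have e2 : (k : ℝ) * (C * α + (k : ℝ)⁻¹ * s * β) = k * C * α + s * β := by
      field_simp
    linarith
  have h4 : (1 - C) * β = -(k * s * α) := by
    have e1 : (k : ℝ)⁻¹ * s * -((k : ℝ) ^ 2 * α) = -(k * s * α) := by
      field_simp
    rw [e1] at h2
    linarith
  have h5 : (k : ℝ) * (2 * (1 - C)) * α = 0 := by
    have e1 : (k : ℝ) * (1 - C) * (1 - C) * α = s * ((1 - C) * β) := by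
      linear_combination (1 - C) * h3
    rw [h4] at e1
    have e2 : (k : ℝ) * ((1 - C) ^ 2 + s ^ 2) * α = 0 := by linear_combination e1
    have e3 : (1 - C) ^ 2 + s ^ 2 = 2 * (1 - C) := by linear_combination hsc
    rwa [e3] at e2
  have hC1 : C ≠ 1 := by
    intro h6
    rw [hC, Real.cos_eq_one_iff] at h6
    obtain ⟨n, hn⟩ := h6
    apply hk
    have e1 : (n : ℝ) * M = k := by
      have hpi := Real.pi_pos.ne'
      have e2 : (n : ℝ) * (2 * Real.pi) * M = k * (M * t) := by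
        rw [hn]
        ring
      rw [hMt] at e2
      have e3 : (2 * Real.pi) * ((n : ℝ) * M) = (2 * Real.pi) * k := by linarith
      exact mul_left_cancel₀ (by positivity) e3
    refine ⟨n, ?_⟩
    have e2 : ((n * (M : ℤ) : ℤ) : ℝ) = ((k : ℤ) : ℝ) := by push_cast; exact e1
    have e3 : n * (M : ℤ) = k := by exact_mod_cast e2
    rw [← e3, mul_comm]
  have h6 : (k : ℝ) * (2 * (1 - C)) ≠ 0 := by
    refine mul_ne_zero hk0 (mul_ne_zero two_ne_zero ?_)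
    intro h7
    apply hC1
    linarith
  rw [← hα]
  exact (mul_eq_zero.1 h5).resolve_left h6

omit [CompleteSpace E] in
/-- eigenvectors in the complexification -/
private theorem tq_real {w w' : Cx E →L[ℂ] Cx E} {a : E →L[ℝ] E}
    (hA : ∀ v, cx a v = Complex.I • HP.lie w w' v) {y : E} {k : ℤ}
    (h : HP.lie w w' (HP.lie w w' (io y)) = ((k : ℂ) ^ 2) • io y) : a (a y) = -((k : ℝ) ^ 2 • y) := by
  apply io_inj
  rw [← cx_io, ← cx_io, hA, hA, map_smul, h, smul_smul, smul_smul, io_neg, io_smul, ← neg_smul]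
  congr 1
  push_cast
  linear_combination ((k : ℂ) ^ 2) * Complex.I_mul_I

theorem top_quad (hN : RNice E) (h𝔠 : RLie 𝔠) (h : TT 𝔠 w w') (hs : Spec w w' M p)
    (hM : Odd M) (hM3 : 3 ≤ M) (ht : Tri w w' a b c) (hx : ‖x‖ = 1)
    (hax : a (a x) = -((M : ℝ) ^ 2 • x)) (r s t : ℝ) :
    (M : ℝ) * (r ^ 2 + s ^ 2 + t ^ 2) ≤
      -(dj x ((r • a + s • b + t • c) ((r • a + s • b + t • c) x))) := by
  have hx0 : x ≠ 0 := by
    intro h0
    rw [h0, norm_zero] at hx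
    exact zero_ne_one hx
  have hM0 : (M : ℂ) ≠ 0 := by
    have : M ≠ 0 := by omega
    exact_mod_cast this
  have hska : Sk a := (h.su2 hN h𝔠 ht).1.ska
  obtain ⟨S, hS⟩ : ∃ S : Cx E →L[ℂ] Cx E, S = HP.lie w w' := ⟨_, rfl⟩
  have hgr : HP.Grad S M p := by rw [hS]; exact hs.grad
  have hA : ∀ v, cx a v = Complex.I • S v := by
    intro v
    rw [ht.ea, hS]
    rfl
  have hB : ∀ v, cx b v = w' v - w v := by
    intro v
    rw [ht.eb]
    rfl
  have hC : ∀ v, cx c v = -(Complex.I • (w v + w' v)) := by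
    intro v
    rw [ht.ec]
    rfl
  have hSv : ∀ v, S v = w (w' v) - w' (w v) := by
    intro v
    rw [hS]
    rfl
  have hSw : ∀ v, S (w v) = w (S v) + (2 : ℂ) • w v := by
    intro v
    have h1 := congrArg (fun T : Cx E →L[ℂ] Cx E => T v) h.tri
    rw [← hS] at h1
    change S (w v) - w (S v) = (2 : ℂ) • w v at h1
    rw [← h1]
    abel
  have hSw' : ∀ v, S (w' v) = w' (S v) - (2 : ℂ) • w' v := by
    intro v
    have h1 := congrArg (fun T : Cx E →L[ℂ] Cx E => T v) (h.star hN h𝔠)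
    rw [← hS] at h1
    change S (w' v) - w' (S v) = -((2 : ℂ) • w' v) at h1
    rw [eq_sub_iff_add_eq, ← eq_sub_iff_add_eq', ← neg_sub, h1, neg_neg]
  obtain ⟨z, hz⟩ : ∃ z : Cx E, z = io x := ⟨_, rfl⟩
  have hSS : S (S z) = ((M : ℂ) ^ 2) • z := by
    have e1 : cx a (cx a z) = -(((M : ℂ) ^ 2) • z) := by
      rw [hz, cx_io, cx_io, hax, io_neg, io_smul]
      push_cast
      rfl
    rw [hA, hA, map_smul, smul_smul, Complex.I_mul_I, neg_one_smul, neg_inj] at e1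
    exact e1
  obtain ⟨z₁, hz₁⟩ : ∃ z₁ : Cx E, z₁ = (1 / 2 : ℂ) • (z + (M : ℂ)⁻¹ • S z) := ⟨_, rfl⟩
  obtain ⟨z₂, hz₂⟩ : ∃ z₂ : Cx E, z₂ = (1 / 2 : ℂ) • (z - (M : ℂ)⁻¹ • S z) := ⟨_, rfl⟩
  have hzz : z = z₁ + z₂ := by
    rw [hz₁, hz₂]
    module
  have hinv : (M : ℂ)⁻¹ * (M : ℂ) ^ 2 = M := by field_simp
  have hinv' : (M : ℂ) * (M : ℂ)⁻¹ = 1 := mul_inv_cancel₀ hM0
  have hSz₁ : S z₁ = (M : ℂ) • z₁ := by
    rw [hz₁, map_smul, map_add, map_smul, hSS, smul_smul, hinv, smul_comm (M : ℂ), smul_add (M : ℂ),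
      smul_smul (M : ℂ), hinv', one_smul, add_comm]
  have hSz₂ : S z₂ = -((M : ℂ) • z₂) := by
    rw [hz₂, map_smul, map_sub, map_smul, hSS, smul_smul, hinv, smul_comm (M : ℂ), smul_sub (M : ℂ),
      smul_smul (M : ℂ), hinv', one_smul, ← smul_neg, neg_sub]
  have hw1 : w z₁ = 0 := by
    have e1 : S (w z₁) = (((M : ℤ) + 2 : ℤ) : ℂ) • w z₁ := by
      rw [hSw, hSz₁, map_smul, ← add_smul]
      push_cast
      rfl
    rw [← hgr.fix_iff, hgr.supp _ (by rw [abs_of_nonneg (by omega)]; omega)] at e1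
    exact e1.symm
  have hw2 : w' z₂ = 0 := by
    have e1 : S (w' z₂) = ((-(M : ℤ) - 2 : ℤ) : ℂ) • w' z₂ := by
      rw [hSw', hSz₂, map_neg, map_smul, ← neg_smul, ← sub_smul]
      push_cast
      rfl
    rw [← hgr.fix_iff, hgr.supp _ (by rw [abs_of_nonpos (by omega)]; omega)] at e1
    exact e1.symm
  obtain ⟨p1, hp1⟩ : ∃ p1 : Cx E, p1 = w' z₁ := ⟨_, rfl⟩
  obtain ⟨p2, hp2⟩ : ∃ p2 : Cx E, p2 = w z₂ := ⟨_, rfl⟩
  obtain ⟨q1, hq1⟩ : ∃ q1 : Cx E, q1 = w' p1 := ⟨_, rfl⟩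
  obtain ⟨q2, hq2⟩ : ∃ q2 : Cx E, q2 = w p2 := ⟨_, rfl⟩
  have hwz : w z = p2 := by rw [hzz, map_add, hw1, zero_add, hp2]
  have hwz' : w' z = p1 := by rw [hzz, map_add, hw2, add_zero, hp1]
  have hwp1 : w p1 = (M : ℂ) • z₁ := by
    have e1 := hSv z₁
    rw [hSz₁, hw1, map_zero, sub_zero, ← hp1] at e1
    exact e1.symm
  have hwp2 : w' p2 = (M : ℂ) • z₂ := by
    have e1 := hSv z₂
    rw [hSz₂, hw2, map_zero, zero_sub, neg_inj, ← hp2] at e1
    exact e1.symm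
  have hSz : S z = (M : ℂ) • z₁ - (M : ℂ) • z₂ := by
    rw [hzz, map_add, hSz₁, hSz₂, sub_eq_add_neg]
  have hSp1 : S p1 = ((M : ℂ) - 2) • p1 := by
    rw [hp1, hSw', hSz₁, map_smul, ← sub_smul]
  have hSp2 : S p2 = (-((M : ℂ) - 2)) • p2 := by
    rw [hp2, hSw, hSz₂, map_neg, map_smul, ← neg_smul, ← add_smul]
    congr 1
    ring
  have hSq1 : S q1 = ((M : ℂ) - 4) • q1 := by
    rw [hq1, hSw', hSp1, map_smul, ← sub_smul]
    congr 1
    ring
  have hSq2 : S q2 = (-((M : ℂ) - 4)) • q2 := by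
    rw [hq2, hSw, hSp2, map_smul, ← add_smul]
    congr 1
    ring
  -- the products
  have hI : Complex.I * Complex.I = -1 := Complex.I_mul_I
  have eBz : cx b z = p1 - p2 := by rw [hB, hwz, hwz']
  have eCz : cx c z = -(Complex.I • (p2 + p1)) := by rw [hC, hwz, hwz']
  have eAz : cx a z = Complex.I • ((M : ℂ) • z₁ - (M : ℂ) • z₂) := by rw [hA, hSz]
  have eBB : cx b (cx b z) = -((M : ℂ) • z) + (q1 + q2) := by
    rw [eBz, hB, map_sub, map_sub, ← hq1, ← hq2, hwp1, hwp2, hzz]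
    module
  have eCC : cx c (cx c z) = -((M : ℂ) • z) - (q1 + q2) := by
    have e1 : w (-(Complex.I • (p2 + p1))) = -(Complex.I • (q2 + (M : ℂ) • z₁)) := by
      rw [map_neg, map_smul, map_add, ← hq2, hwp1]
    have e2 : w' (-(Complex.I • (p2 + p1))) = -(Complex.I • ((M : ℂ) • z₂ + q1)) := by
      rw [map_neg, map_smul, map_add, ← hq1, hwp2]
    rw [eCz, hC, e1, e2, hzz]
    have e3 : -(Complex.I • (-(Complex.I • (q2 + (M : ℂ) • z₁)) + -(Complex.I • ((M : ℂ) • z₂ + q1)))) =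
        (Complex.I * Complex.I) • (q2 + (M : ℂ) • z₁ + ((M : ℂ) • z₂ + q1)) := by module
    rw [e3, hI]
    module
  have eBC : cx b (cx c z) + cx c (cx b z) = (-(2 * Complex.I)) • q1 + (2 * Complex.I) • q2 := by
    rw [eCz, eBz, hB, hC]
    simp only [map_neg, map_smul, map_add, map_sub, ← hq1, ← hq2, hwp1, hwp2]
    module
  have eAB : cx a (cx b z) + cx b (cx a z) =
      (Complex.I * (2 * M - 2)) • p1 + (Complex.I * (2 * M - 2)) • p2 := by
    rw [eBz, eAz, hA, hB]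
    simp only [map_smul, map_sub, hSp1, hSp2, hw1, hw2, ← hp1, ← hp2]
    module
  have eAC : cx a (cx c z) + cx c (cx a z) =
      ((2 * M - 2 : ℂ)) • p1 + (-(2 * M - 2 : ℂ)) • p2 := by
    rw [eCz, eAz, hA, hC]
    simp only [map_neg, map_smul, map_add, map_sub, hSp1, hSp2, hw1, hw2, ← hp1, ← hp2]
    have e3 : Complex.I • -(Complex.I • ((-((M : ℂ) - 2)) • p2 + ((M : ℂ) - 2) • p1)) +
        -(Complex.I • (Complex.I • ((M : ℂ) • (0 : Cx E) - (M : ℂ) • p2) +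
          Complex.I • ((M : ℂ) • p1 - (M : ℂ) • (0 : Cx E)))) =
        (-(Complex.I * Complex.I)) • (((2 * M - 2 : ℂ)) • p1 + (-(2 * M - 2 : ℂ)) • p2) := by module
    rw [e3, hI, neg_neg, one_smul]
  have hSSq : ∀ α β : ℂ, S (S (α • q1 + β • q2)) = ((((M : ℤ) - 4 : ℤ) : ℂ) ^ 2) • (α • q1 + β • q2) := by
    intro α β
    simp only [map_add, map_smul, hSq1, hSq2]
    push_cast
    module
  have hSSp : ∀ α β : ℂ, S (S (α • p1 + β • p2)) = ((((M : ℤ) - 2 : ℤ) : ℂ) ^ 2) • (α • p1 + β • p2) := by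
    intro α β
    simp only [map_add, map_smul, hSp1, hSp2]
    push_cast
    module
  rw [hS] at hSSq hSSp
  have hA' : ∀ v, cx a v = Complex.I • HP.lie w w' v := by rw [← hS]; exact hA
  have hodd : ∀ m : ℤ, (m = 2 ∨ m = 4) → ¬ ((M : ℤ) ∣ (M : ℤ) - m) := by
    intro m hm hd
    have h1 : (M : ℤ) ∣ m := (Int.dvd_iff_dvd_of_dvd_sub hd).1 (dvd_refl _)
    obtain ⟨r', hr'⟩ := hM
    rcases hm with rfl | rfl
    · have h2 := Int.le_of_dvd (by norm_num) h1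
      omega
    · have h2 := Int.le_of_dvd (by norm_num) h1
      have h3 : M = 3 := by omega
      rw [h3] at h1
      norm_num at h1
  have hM1 : 0 < M := by omega
  obtain ⟨y₁, hy₁⟩ : ∃ y₁ : E, y₁ = b (b x) + (M : ℝ) • x := ⟨_, rfl⟩
  obtain ⟨y₂, hy₂⟩ : ∃ y₂ : E, y₂ = b (c x) + c (b x) := ⟨_, rfl⟩
  obtain ⟨y₃, hy₃⟩ : ∃ y₃ : E, y₃ = a (b x) + b (a x) := ⟨_, rfl⟩
  obtain ⟨y₄, hy₄⟩ : ∃ y₄ : E, y₄ = a (c x) + c (a x) := ⟨_, rfl⟩
  have i1 : io y₁ = (1 : ℂ) • q1 + (1 : ℂ) • q2 := by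
    rw [hy₁, io_add, io_smul, ← cx_io, ← cx_io, ← hz, eBB]
    push_cast
    module
  have hc2 : c (c x) = -((M : ℝ) • x) - y₁ := by
    apply io_inj
    rw [io_sub, io_neg, io_smul, i1, ← cx_io, ← cx_io, ← hz, eCC]
    push_cast
    module
  have i2 : io y₂ = (-(2 * Complex.I)) • q1 + (2 * Complex.I) • q2 := by
    rw [hy₂, io_add, ← cx_io, ← cx_io, ← cx_io c, ← cx_io, ← hz, eBC]
  have i3 : io y₃ = (Complex.I * (2 * M - 2)) • p1 + (Complex.I * (2 * M - 2)) • p2 := by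
    rw [hy₃, io_add, ← cx_io, ← cx_io, ← cx_io b, ← cx_io, ← hz, eAB]
  have i4 : io y₄ = ((2 * M - 2 : ℂ)) • p1 + (-(2 * M - 2 : ℂ)) • p2 := by
    rw [hy₄, io_add, ← cx_io, ← cx_io, ← cx_io c, ← cx_io, ← hz, eAC]
  have d1 : dj x y₁ = 0 := tq_orth hN hska hM1 hx0 hax
    (tq_real hA' (k := (M : ℤ) - 4) (by rw [i1]; exact hSSq _ _)) (hodd 4 (Or.inr rfl))
  have d2 : dj x y₂ = 0 := tq_orth hN hska hM1 hx0 hax
    (tq_real hA' (k := (M : ℤ) - 4) (by rw [i2]; exact hSSq _ _)) (hodd 4 (Or.inr rfl))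
  have d3 : dj x y₃ = 0 := tq_orth hN hska hM1 hx0 hax
    (tq_real hA' (k := (M : ℤ) - 2) (by rw [i3]; exact hSSp _ _)) (hodd 2 (Or.inl rfl))
  have d4 : dj x y₄ = 0 := tq_orth hN hska hM1 hx0 hax
    (tq_real hA' (k := (M : ℤ) - 2) (by rw [i4]; exact hSSp _ _)) (hodd 2 (Or.inl rfl))
  have hb2 : b (b x) = -((M : ℝ) • x) + y₁ := by
    rw [hy₁]
    abel
  have hXX : (r • a + s • b + t • c) ((r • a + s • b + t • c) x) =
      (-(r ^ 2 * (M : ℝ) ^ 2) - (s ^ 2 + t ^ 2) * M) • x + (s ^ 2 - t ^ 2) • y₁ + (s * t) • y₂ +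
        (r * s) • y₃ + (r * t) • y₄ := by
    have e1 : ∀ v, (r • a + s • b + t • c) v = r • a v + s • b v + t • c v := fun v => rfl
    rw [e1, e1, hy₂, hy₃, hy₄]
    simp only [map_add, map_smul, hax, hb2, hc2]
    module
  rw [hXX]
  simp only [map_add, map_smul, d1, d2, d3, d4, dj_self, hx, smul_eq_mul, mul_zero, add_zero, mul_one]
  have hMr : (1 : ℝ) ≤ M := by exact_mod_cast hM1
  nlinarith [mul_nonneg (sq_nonneg r) (mul_nonneg (by linarith : (0 : ℝ) ≤ M) (by linarith : (0 : ℝ) ≤ (M : ℝ) - 1))]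

end Pool.Agent.Helper61.RO
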