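import Pool.Agent.Helper61.RO.NormTrans
import Pool.Agent.Helper61.RO.TopQuad
import Pool.Agent.Helper61.RO.ExtDecomp

/-!
# RO-88  No odd largest weight besides one

PROOF. `TT.su2`, `CExt.ext`, `Dec0 a b c` (`ext_decomp`, `L = 0` by `hL`). Suppose `M ≠ 1`, so `M ≥ 3` (odd, positive). `x` unit with `a (a x) = - M² x` (`Spec.real` with `j = M`, normalise), `y` unit with `a (a y) = - y` (`Spec.odd` and `Spec.real` with `j = 1`).
CLAIM: if `T` is in the normaliser (`norm_trans`) then `- dj (T x) (a (a (T x))) ≥ M`. `dj (T x) (a (a (T x))) = dj x (T.symm (a (a (T x))))` (`dj_iso`), `T.symm (a (a (T x))) = X (X x)` with `X = cj T.symm a = r a + s b + t c ∈ Mm`. `r² + s² + t² = 1`: for `Z ∈ Mm`: `cj T Z ∈ Mm`, `br a (br a (br a (cj T Z))) = - 4 br a (cj T Z)` (`Su2.ad_cube` with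
`(1, 0, 0)`), apply `cj T.symm`: `br X (br X (br X Z)) = - 4 br X Z`; by `Su2.ad_cube` it is `- 4 (r² + s² + t²) br X Z`, and `br X Z ≠ 0` for some `Z ∈ Mm` (`Su2.ad_ne`, `X ≠ 0`). `top_quad`.
Now take `T_n` with `‖T_n x - y‖ → 0` (`norm_trans`): `dj (T_n x) → dj y` in norm (`dj_unif`), so `- dj y (a (a y)) ≥ M`, but it is `dj y y = 1`. Contradiction.
-/

set_option autoImplicit false

open Filter Topology

namespace Pool.Agent.Helper61.RO

universe u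

variable {E : Type u} [NormedAddCommGroup E] [NormedSpace ℝ E] [CompleteSpace E]
  [TopologicalSpace.SeparableSpace E] {w w' : Cx E →L[ℂ] Cx E} {M : ℕ}
  {p : ℤ → Cx E →L[ℂ] Cx E} {a b c : E →L[ℝ] E}

omit [TopologicalSpace.SeparableSpace E] in
private theorem no_cj_br (T : E ≃ₗᵢ[ℝ] E) (A B : E →L[ℝ] E) :
    cj T (br A B) = br (cj T A) (cj T B) := by
  unfold br
  have h1 : A * B - B * A = A * B + (-1 : ℝ) • (B * A) := by
    rw [neg_one_smul, sub_eq_add_neg]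
  rw [h1, cj_add, cj_smul, cj_mul, cj_mul, neg_one_smul, ← sub_eq_add_neg]

omit [CompleteSpace E] [TopologicalSpace.SeparableSpace E] in
private theorem no_unit {k : ℝ} {x : E} (hx : a (a x) = -(k • x)) (hx0 : x ≠ 0) :
    ∃ y : E, ‖y‖ = 1 ∧ a (a y) = -(k • y) := by
  have h0 : ‖x‖ ≠ 0 := norm_ne_zero_iff.2 hx0
  refine ⟨‖x‖⁻¹ • x, ?_, ?_⟩
  · rw [norm_smul, norm_inv, norm_norm, inv_mul_cancel₀ h0]
  · rw [map_smul, map_smul, hx, smul_neg, smul_comm]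

theorem no_odd (hN : RNice E) (htr : RTrans E) (hinf : ¬ FiniteDimensional ℝ E)
    (h : TT (gg E) w w') (hE : CExt (gg E) w w') (hs : Spec w w' M p) (hM : Odd M)
    (ht : Tri w w' a b c) (hL : ∀ u ∈ Half a, u = 0) : M = 1 := by
  have h𝔠 := rlie_gg hN
  have hsu : Su2 a b c := (h.su2 hN h𝔠 ht).1
  have hext : Ext a b c := CExt.ext hN h hE ht
  have hD : Dec0 a b c := by
    intro B hB
    obtain ⟨r, s, t, L, C, hLm, hC, h1, h2, h3, h4⟩ := ext_decomp hN h hE hs ht hB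
    rw [hL L hLm, add_zero] at h4
    exact ⟨r, s, t, C, hC, h1, h2, h3, h4⟩
  by_contra hM1
  have hM3 : 3 ≤ M := by
    obtain ⟨k, hk⟩ := hM
    have := hs.pos
    omega
  obtain ⟨x, hx1, hax⟩ : ∃ x : E, ‖x‖ = 1 ∧ a (a x) = -((M : ℝ) ^ 2 • x) := by
    obtain ⟨x₀, h1, h2⟩ := hs.real hN ht (j := (M : ℤ)) hs.top
    rw [Int.cast_natCast] at h1
    exact no_unit h1 h2
  obtain ⟨y, hy1, hay⟩ : ∃ y : E, ‖y‖ = 1 ∧ a (a y) = -((1 : ℝ) • y) := by
    have h0 : p 1 ≠ 0 := (hs.odd hN h𝔠 h (j := (M : ℤ)) (by exact_mod_cast hM) hs.top).1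
    obtain ⟨x₀, h1, h2⟩ := hs.real hN ht h0
    rw [Int.cast_one, one_pow] at h1
    exact no_unit h1 h2
  rw [one_smul] at hay
  have hx0 : x ≠ 0 := norm_ne_zero_iff.1 (by rw [hx1]; exact one_ne_zero)
  -- the claim
  have claim : ∀ T : E ≃ₗᵢ[ℝ] E, (∀ X ∈ Mm a b c, cj T X ∈ Mm a b c) →
      (∀ X ∈ Mm a b c, cj T.symm X ∈ Mm a b c) → (M : ℝ) ≤ -(dj (T x) (a (a (T x)))) := by
    intro T hT hT'
    obtain ⟨r, s, t, hX⟩ := hT' a ⟨1, 0, 0, by module⟩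
    have hXm : cj T.symm a ∈ Mm a b c := ⟨r, s, t, hX⟩
    have hback : cj T (cj T.symm a) = a := cj_symm T.symm a
    have hX0 : cj T.symm a ≠ 0 := by
      intro h0
      rw [h0] at hback
      apply hsu.ne
      rw [← hback]
      ext z
      rw [cj_apply]
      simp
    obtain ⟨Z, hZ, hZ0⟩ := hsu.ad_ne hXm hX0
    have h1 := hsu.ad_cube hX hZ
    have h2 := hsu.ad_cube (X := a) (r := 1) (s := 0) (t := 0) (by module) (hT Z hZ)
    have h3 := congrArg (cj T.symm) h2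
    have hneg : ∀ (u : ℝ) (A : E →L[ℝ] E), cj T.symm (-(u • A)) = -(u • cj T.symm A) := by
      intro u A
      have e1 : -(u • A) = (-u) • A := by rw [neg_smul]
      rw [e1, cj_smul, neg_smul]
    rw [hneg, no_cj_br, no_cj_br, no_cj_br, cj_symm] at h3
    have h4 : (4 * (r ^ 2 + s ^ 2 + t ^ 2) - 4 * (1 ^ 2 + 0 ^ 2 + 0 ^ 2)) •
        br (cj T.symm a) Z = 0 := by
      rw [sub_smul, sub_eq_zero]
      exact neg_injective (h1.symm.trans h3)
    have h5 : r ^ 2 + s ^ 2 + t ^ 2 = 1 := by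
      have h6 := (smul_eq_zero.1 h4).resolve_right hZ0
      linarith
    have h7 := top_quad hN h𝔠 h hs hM hM3 ht hx1 hax r s t
    rw [h5, mul_one, ← hX] at h7
    have h8 : cj T.symm a (cj T.symm a x) = T.symm (a (a (T x))) := by
      rw [cj_apply, cj_apply]
      simp
    rw [h8] at h7
    have h9 := dj_iso hN T hx0 (T.symm (a (a (T x))))
    rw [T.apply_symm_apply] at h9
    rw [h9]
    exact h7
  -- the limit
  obtain ⟨δ, hδ, hδ'⟩ := dj_unif hN (ε := 1 / 2) (by norm_num)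
  set η : ℝ := min δ (1 / (2 * (‖a‖ ^ 2 + 1))) with hη
  have ha1 : 0 < ‖a‖ ^ 2 + 1 := by positivity
  have hη0 : 0 < η := lt_min hδ (by positivity)
  obtain ⟨T, hTxy, hT, hT'⟩ := norm_trans hN htr hinf hsu hext hD hx1 hy1 hη0
  have h1 := claim T hT hT'
  have hTx1 : ‖T x‖ = 1 := by rw [T.norm_map, hx1]
  have h2 := hδ' (T x) y hTx1 hy1 (hTxy.trans_le (min_le_left _ _))
  have h3 : ‖T x - y‖ < 1 / (2 * (‖a‖ ^ 2 + 1)) := hTxy.trans_le (min_le_right _ _)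
  have h4 : dj (T x) (a (a (T x))) =
      dj (T x) (a (a (T x - y))) + (dj (T x) - dj y) (a (a y)) + dj y (a (a y)) := by
    rw [map_sub, map_sub, map_sub, sub_apply]
    ring
  have h5 : |dj (T x) (a (a (T x - y)))| ≤ 1 / 2 := by
    refine (dj_le _ _).trans ?_
    have h6 : ‖a (a (T x - y))‖ ≤ ‖a‖ * (‖a‖ * ‖T x - y‖) :=
      (a.le_opNorm _).trans (mul_le_mul_of_nonneg_left (a.le_opNorm _) (norm_nonneg _))
    have h7 : ‖a‖ * (‖a‖ * ‖T x - y‖) ≤ (‖a‖ ^ 2 + 1) * (1 / (2 * (‖a‖ ^ 2 + 1))) := by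
      calc ‖a‖ * (‖a‖ * ‖T x - y‖) = ‖a‖ ^ 2 * ‖T x - y‖ := by ring
        _ ≤ (‖a‖ ^ 2 + 1) * (1 / (2 * (‖a‖ ^ 2 + 1))) :=
          mul_le_mul (by linarith) h3.le (norm_nonneg _) ha1.le
    have h8 : (‖a‖ ^ 2 + 1) * (1 / (2 * (‖a‖ ^ 2 + 1))) = 1 / 2 := by
      field_simp
    linarith
  have h6 : |(dj (T x) - dj y) (a (a y))| ≤ 1 / 2 := by
    have h7 := (dj (T x) - dj y).le_opNorm (a (a y))
    rw [hay, norm_neg, hy1, mul_one, Real.norm_eq_abs] at h7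
    rw [hay]
    linarith
  have h7 : dj y (a (a y)) = -1 := by
    rw [hay, map_neg, dj_self, hy1]
  have h8 := abs_le.1 h5
  have h9 := abs_le.1 h6
  have h10 : (3 : ℝ) ≤ M := by exact_mod_cast hM3
  rw [h7] at h4
  linarith [h8.1, h9.1]

end Pool.Agent.Helper61.RO
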