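import Pool.Agent.Helper61.RO.Dich
import Pool.Agent.Helper61.RO.RMicro

/-!
# RO-86  The normaliser of the triple is almost transitive

PROOF. `𝒩 = {T | (∀ X ∈ Mm, cj T X ∈ Mm) ∧ (∀ X ∈ Mm, cj T.symm X ∈ Mm)}` is closed under `T.trans S` and `T.symm` (`cj_trans`).
(1) `c ≠ 0` (`Su2`), so `c v ≠ 0` for some `v`; `a b v - b a v = 2 c v`. CLAIM: there is `η > 0` such that every `T` which moves `v`, `b v`, `a v`, `a b v` by less than `η` is in `𝒩`. `cj T a (b v) - a b v = T a (T.symm (b v) - b v) + (T (a b v) - a b v)`, norm `≤ ‖a‖ η + η` (`‖T.symm y - y‖ = ‖y - T y‖`);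
`cj T a v - a v` is small in the same way. So `cj T a (b v) - b (cj T a v)` is close to `2 c v ≠ 0`, and `cj T a` does not commute with `b`: `dich` gives `cj T X ∈ Mm` for all `X ∈ Mm`. `T.symm` moves the four vectors by the same amounts, so the same holds for `T.symm`.
(2) Let `𝒪 = {z | ‖z‖ = 1, ∀ ε > 0, ∃ T ∈ 𝒩, ‖T x - z‖ < ε}`. `x ∈ 𝒪`. `𝒪` is closed. It is open in the sphere: `z ∈ 𝒪`, `rmicro` for `z` and the four vectors (`Fin 4`) with `η`: `δ > 0` such that for unit `y` with `‖y - z‖ < δ` and `η' > 0` there is `S ∈ 𝒩` with `‖S z - y‖ < η'`; choose `T ∈ 𝒩` with `‖T x - z‖ < η'`: `‖S T x - y‖ < 2 η'`. So `y ∈ 𝒪`.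
The unit sphere is connected (`isPreconnected_sphere`, `1 < Module.rank ℝ E` because `E` is infinite-dimensional), so `𝒪` is the sphere (`IsPreconnected.subset_of_closure_inter_subset` or a clopen subset of the subtype).
-/

set_option autoImplicit false

open Filter Topology

namespace Pool.Agent.Helper61.RO

universe u

variable {E : Type u} [NormedAddCommGroup E] [NormedSpace ℝ E] [CompleteSpace E]
  [TopologicalSpace.SeparableSpace E] {a b c : E →L[ℝ] E} {x y : E}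

omit [CompleteSpace E] [TopologicalSpace.SeparableSpace E] in
private theorem nt_symm (T : E ≃ₗᵢ[ℝ] E) (y : E) : ‖T.symm y - y‖ = ‖T y - y‖ := by
  have h1 : T (T.symm y - y) = y - T y := by
    rw [map_sub, T.apply_symm_apply]
  rw [← T.norm_map, h1, ← norm_neg, neg_sub]

omit [CompleteSpace E] [TopologicalSpace.SeparableSpace E] in
private theorem nt_cj (T : E ≃ₗᵢ[ℝ] E) (a : E →L[ℝ] E) (y : E) {η : ℝ}
    (h1 : ‖T y - y‖ < η) (h2 : ‖T (a y) - a y‖ < η) :
    ‖T (a (T.symm y)) - a y‖ ≤ (1 + ‖a‖) * η := by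
  have e1 : T (a (T.symm y)) - a y = T (a (T.symm y - y)) + (T (a y) - a y) := by
    rw [map_sub, map_sub]
    abel
  have e2 : ‖T (a (T.symm y - y))‖ ≤ ‖a‖ * η := by
    rw [T.norm_map]
    refine (a.le_opNorm _).trans (mul_le_mul_of_nonneg_left ?_ (norm_nonneg _))
    rw [nt_symm]
    exact h1.le
  rw [e1]
  refine (norm_add_le _ _).trans ?_
  linarith

theorem norm_trans (hN : RNice E) (htr : RTrans E) (hinf : ¬ FiniteDimensional ℝ E)
    (h : Su2 a b c) (hE : Ext a b c) (hD : Dec0 a b c) (hx : ‖x‖ = 1) (hy : ‖y‖ = 1) {ε : ℝ}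
    (hε : 0 < ε) :
    ∃ T : E ≃ₗᵢ[ℝ] E, ‖T x - y‖ < ε ∧ (∀ X ∈ Mm a b c, cj T X ∈ Mm a b c) ∧
      ∀ X ∈ Mm a b c, cj T.symm X ∈ Mm a b c := by
  have hc0 : c ≠ 0 := h.cyc.cyc.ne
  obtain ⟨v, hv⟩ : ∃ v, c v ≠ 0 := by
    by_contra hcon
    push Not at hcon
    exact hc0 (ContinuousLinearMap.ext hcon)
  have hκ : 0 < ‖c v‖ := norm_pos_iff.2 hv
  set A : ℝ := (1 + ‖a‖) * (1 + ‖b‖) with hA
  have hA0 : 0 < A := by positivity
  set η : ℝ := ‖c v‖ / A with hη
  have hη0 : 0 < η := div_pos hκ hA0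
  have hηA : η * A = ‖c v‖ := div_mul_cancel₀ _ hA0.ne'
  have hab : a (b v) - b (a v) = (2 : ℝ) • c v := by
    have h1 := congrArg (fun X : E →L[ℝ] E => X v) h.ab
    exact h1
  have haM : a ∈ Mm a b c := ⟨1, 0, 0, by simp⟩
  have hbM : b ∈ Mm a b c := ⟨0, 1, 0, by simp⟩
  let u : Fin 4 → E := ![v, b v, a v, a (b v)]
  have key : ∀ T : E ≃ₗᵢ[ℝ] E, (∀ i, ‖T (u i) - u i‖ < η) → ∀ X ∈ Mm a b c, cj T X ∈ Mm a b c := by
    intro T hT
    rcases dich hN h hE hD T with h1 | h1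
    · exact h1
    · exfalso
      have h0 : ‖T v - v‖ < η := hT 0
      have h01 : ‖T (b v) - b v‖ < η := hT 1
      have h02 : ‖T (a v) - a v‖ < η := hT 2
      have h03 : ‖T (a (b v)) - a (b v)‖ < η := hT 3
      have e1 := congrArg (fun X : E →L[ℝ] E => X v) (h1 a haM b hbM)
      have e2 : T (a (T.symm (b v))) = b (T (a (T.symm v))) := by
        have e3 : cj T a (b v) = b (cj T a v) := e1
        rwa [cj_apply, cj_apply] at e3
      have e4 : (2 : ℝ) • c v = b (T (a (T.symm v)) - a v) - (T (a (T.symm (b v))) - a (b v)) := by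
        rw [map_sub, e2, ← hab]
        abel
      have n1 := nt_cj T a v h0 h02
      have n2 := nt_cj T a (b v) h01 h03
      have n3 : ‖b (T (a (T.symm v)) - a v)‖ ≤ ‖b‖ * ((1 + ‖a‖) * η) :=
        (b.le_opNorm _).trans (mul_le_mul_of_nonneg_left n1 (norm_nonneg _))
      have n4 : ‖(2 : ℝ) • c v‖ ≤ ‖b‖ * ((1 + ‖a‖) * η) + (1 + ‖a‖) * η := by
        rw [e4]
        exact (norm_sub_le _ _).trans (add_le_add n3 n2)
      rw [norm_smul, Real.norm_eq_abs, abs_of_pos (by norm_num : (0 : ℝ) < 2)] at n4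
      have n5 : ‖b‖ * ((1 + ‖a‖) * η) + (1 + ‖a‖) * η = η * A := by
        rw [hA]
        ring
      rw [n5, hηA] at n4
      linarith
  let N : (E ≃ₗᵢ[ℝ] E) → Prop := fun T =>
    (∀ X ∈ Mm a b c, cj T X ∈ Mm a b c) ∧ ∀ X ∈ Mm a b c, cj T.symm X ∈ Mm a b c
  have hNsmall : ∀ T : E ≃ₗᵢ[ℝ] E, (∀ i, ‖T (u i) - u i‖ < η) → N T := by
    intro T hT
    refine ⟨key T hT, key T.symm fun i => ?_⟩
    rw [nt_symm]
    exact hT i
  have hNtrans : ∀ T S : E ≃ₗᵢ[ℝ] E, N T → N S → N (T.trans S) := by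
    intro T S hT hS
    refine ⟨fun X hX => ?_, fun X hX => ?_⟩
    · rw [cj_trans]
      exact hS.1 _ (hT.1 X hX)
    · have e : (T.trans S).symm = S.symm.trans T.symm := rfl
      rw [e, cj_trans]
      exact hT.2 _ (hS.2 X hX)
  have hNrefl : N (LinearIsometryEquiv.refl ℝ E) := by
    have e : ∀ X : E →L[ℝ] E, cj (LinearIsometryEquiv.refl ℝ E) X = X := fun X => by
      ext z
      rw [cj_apply]
      rfl
    refine ⟨fun X hX => ?_, fun X hX => ?_⟩
    · rw [e]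
      exact hX
    · change cj (LinearIsometryEquiv.refl ℝ E) X ∈ Mm a b c
      rw [e]
      exact hX
  have hrk : 1 < Module.rank ℝ E := by
    have h1 : Cardinal.aleph0 ≤ Module.rank ℝ E := by
      by_contra hcon
      exact hinf (Module.rank_lt_aleph0_iff.1 (lt_of_not_ge hcon))
    exact Cardinal.one_lt_aleph0.trans_le h1
  haveI : PreconnectedSpace (Metric.sphere (0 : E) 1) :=
    Subtype.preconnectedSpace (isPreconnected_sphere hrk 0 1)
  let O : Set (Metric.sphere (0 : E) 1) :=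
    {z | ∀ ε : ℝ, 0 < ε → ∃ T : E ≃ₗᵢ[ℝ] E, N T ∧ ‖T x - z‖ < ε}
  have hOc : IsClosed O := by
    rw [← closure_subset_iff_isClosed]
    intro z hz ε hε
    rw [Metric.mem_closure_iff] at hz
    obtain ⟨z', hz', hd⟩ := hz (ε / 2) (half_pos hε)
    obtain ⟨T, hT, hT'⟩ := hz' (ε / 2) (half_pos hε)
    refine ⟨T, hT, ?_⟩
    rw [Subtype.dist_eq, dist_eq_norm, ← norm_neg, neg_sub] at hd
    have e : T x - (z : E) = (T x - z') + ((z' : E) - z) := by abel
    rw [e]
    refine (norm_add_le _ _).trans_lt ?_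
    linarith
  have hOo : IsOpen O := by
    rw [Metric.isOpen_iff]
    intro z hz
    have hz1 : ‖(z : E)‖ = 1 := mem_sphere_zero_iff_norm.1 z.2
    obtain ⟨δ, hδ, hmic⟩ := rmicro htr hz1 u hη0
    refine ⟨δ, hδ, fun w hw ε hε => ?_⟩
    have hw1 : ‖(w : E)‖ = 1 := mem_sphere_zero_iff_norm.1 w.2
    rw [Metric.mem_ball, Subtype.dist_eq, dist_eq_norm] at hw
    obtain ⟨S, hS, hS'⟩ := hmic w hw1 hw (ε / 2) (half_pos hε)
    obtain ⟨T, hT, hT'⟩ := hz (ε / 2) (half_pos hε)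
    refine ⟨T.trans S, hNtrans T S hT (hNsmall S hS'), ?_⟩
    have e : (T.trans S) x - (w : E) = S (T x - z) + (S z - w) := by
      rw [map_sub]
      change S (T x) - (w : E) = _
      abel
    rw [e]
    refine (norm_add_le _ _).trans_lt ?_
    rw [S.norm_map]
    linarith
  have hOu : O = Set.univ := by
    rcases isClopen_iff.1 ⟨hOc, hOo⟩ with h1 | h1
    · exfalso
      have h2 : (⟨x, mem_sphere_zero_iff_norm.2 hx⟩ : Metric.sphere (0 : E) 1) ∈ O := by
        intro ε hε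
        refine ⟨LinearIsometryEquiv.refl ℝ E, hNrefl, ?_⟩
        have e : (LinearIsometryEquiv.refl ℝ E) x - x = 0 := sub_self x
        rw [e, norm_zero]
        exact hε
      rw [h1] at h2
      exact h2
    · exact h1
  have hyO : (⟨y, mem_sphere_zero_iff_norm.2 hy⟩ : Metric.sphere (0 : E) 1) ∈ O := by
    rw [hOu]
    trivial
  obtain ⟨T, hT, hT'⟩ := hyO ε hε
  exact ⟨T, hT', hT.1, hT.2⟩

end Pool.Agent.Helper61.RO
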