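import Pool.Agent.Helper61.RO.ExtDecomp

/-!
# RO-81  The odd part of a space with weights at most two

`S = lie w w'`. PROOFS.
* `poly_two` (`M = 2`): all weights `j` satisfy `j⁵ - 5 j³ + 4 j = 0`, so `S⁵ - 5 S³ + 4 S = 0` (apply to `∑ p j = 1`); `cx a = i S`: `a⁵ + 5 a³ + 4 a = 0`.
* `dec_two`: `x₁ = - (1/3) (a⁴ x + 4 a² x)`, `x₂ = (1/12) (a⁴ x + a² x)`, `x₀ = x + (5/4) a² x + (1/4) a⁴ x`: `x = x₀ + x₁ + x₂`; from `poly_two` (applied to `x` and to `a x`): `a x₀ = 0`, `a² x₁ = - x₁`, `a² x₂ = - 4 x₂`.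
* `ker_four` (`M = 2`): `a (a x) = - 16 x` implies `x = 0`: apply `poly_two`: `a⁶ x + 5 a⁴ x + 4 a² x = (- 4096 + 5 * 256 - 64) x`.
* `odd_part` (`M ≤ 2`): `z = io x`, `S (S z) = z`; `z₁ = (1/2) (z + S z)`, `z' = (1/2) (z - S z)`, `S z₁ = z₁`, `S z' = - z'`. `w z₁` has weight `3`, so `w z₁ = 0` (`p 3 = 0`), `w' z' = 0`. `w (w' z₁) = S z₁ + w' (w z₁) = z₁`, `w' (w z') = z'`; `w' (w' z₁) = 0`, `w (w z') = 0` (weights `∓ 3`). Expand with
`cx b = w' - w`, `cx c = - i (w + w')`, `cx a = i S` (the same computation as for `half_rel`); `cx_io`, `io_inj`.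
* `half_odd` (`M ≤ 2`): `u ∈ Half a`, `a (a x) = - x` implies `a (a (a (u x))) = - 4 a (u x)`: `K = cx u = K₁ + K'`, `lie S K₁ = K₁`, `lie S K' = - K'`; `io x = z₁ + z'` as above. `K z` is a sum of vectors of weights `2, 0, 0, - 2`, so `S (S (S (K z))) = 4 S (K z)`.
* `half_even` (`M ≤ 2`): `u ∈ Half a`, `a (a (a x)) = - 4 a x` implies `a (a (u x)) = - u x`: `z = io x` is a sum of vectors of weights `0, ± 2` (components `z + ...`: `S³ z = 4 S z`; `z₂ = (1/8) (S² z + 2 S z)`, `z'' = (1/8) (S² z - 2 S z)`, `z₀ = z - (1/4) S² z`), `K z` of vectors of weights `± 1`, `± 3`, and the weights `± 3` vanish.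
-/

set_option autoImplicit false

open Filter Topology

namespace Pool.Agent.Helper61.RO

universe u

variable {E : Type u} [NormedAddCommGroup E] [NormedSpace ℝ E] [CompleteSpace E]
  {𝔠 : Set (E →L[ℝ] E)} {w w' : Cx E →L[ℂ] Cx E} {M : ℕ} {p : ℤ → Cx E →L[ℂ] Cx E}
  {a b c u v B L C : E →L[ℝ] E} {x : E}

/-! ### Vectors of given weight -/

omit [CompleteSpace E] in
private theorem op_cx (ht : Tri w w' a b c) (z : Cx E) :
    cx a z = Complex.I • HP.lie w w' z := by
  rw [ht.ea, smul_apply]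

omit [CompleteSpace E] in
private theorem op_io (ht : Tri w w' a b c) (x : E) :
    io (a x) = Complex.I • HP.lie w w' (io x) := by
  rw [← cx_io, op_cx ht]

omit [CompleteSpace E] in
private theorem op_io2 (ht : Tri w w' a b c) (x : E) :
    io (a (a x)) = -HP.lie w w' (HP.lie w w' (io x)) := by
  rw [op_io ht, op_io ht, map_smul, smul_smul, Complex.I_mul_I, neg_one_smul]

omit [CompleteSpace E] in
private theorem op_io3 (ht : Tri w w' a b c) (x : E) :
    io (a (a (a x))) =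
      -(Complex.I • HP.lie w w' (HP.lie w w' (HP.lie w w' (io x)))) := by
  rw [op_io2 ht, op_io ht, map_smul, map_smul]

omit [CompleteSpace E] in
private theorem op_vanish (hs : Spec w w' M p) (hM : M ≤ 2) {z : Cx E} (k : ℤ) (hk : 2 < |k|)
    (hz : HP.lie w w' z = (k : ℂ) • z) : z = 0 := by
  rw [← hs.grad.fix_iff, hs.grad.supp k (by omega)] at hz
  exact hz.symm

omit [CompleteSpace E] in
private theorem op_shift {X : Cx E →L[ℂ] Cx E} {d k : ℂ} {z : Cx E}
    (hX : HP.lie (HP.lie w w') X = d • X) (hz : HP.lie w w' z = k • z) :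
    HP.lie w w' (X z) = (d + k) • X z := by
  have h1 := congrArg (fun T : Cx E →L[ℂ] Cx E => T z) hX
  change HP.lie w w' (X z) - X (HP.lie w w' z) = d • X z at h1
  rw [hz, map_smul] at h1
  rw [add_smul, ← h1]
  abel

omit [CompleteSpace E] in
private theorem op_up (h : TT 𝔠 w w') {k : ℂ} {z : Cx E} (hz : HP.lie w w' z = k • z) :
    HP.lie w w' (w z) = (2 + k) • w z :=
  op_shift h.tri hz

private theorem op_down (hN : RNice E) (h𝔠 : RLie 𝔠) (h : TT 𝔠 w w') {k : ℂ} {z : Cx E}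
    (hz : HP.lie w w' z = k • z) : HP.lie w w' (w' z) = (-2 + k) • w' z :=
  op_shift (by rw [h.star hN h𝔠, neg_smul]) hz

omit [CompleteSpace E] in
private theorem op_sum (hs : Spec w w' 2 p) (z : Cx E) :
    z = p (-2) z + p (-1) z + p 0 z + p 1 z + p 2 z := by
  have h1 := hs.grad.sum_apply z
  have h2 : Finset.Icc (-((2 : ℕ) : ℤ)) ((2 : ℕ) : ℤ) = {-2, -1, 0, 1, 2} := by decide
  rw [h2] at h1
  rw [Finset.sum_insert (by decide), Finset.sum_insert (by decide),
    Finset.sum_insert (by decide), Finset.sum_insert (by decide), Finset.sum_singleton] at h1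
  rw [← add_assoc, ← add_assoc, ← add_assoc] at h1
  exact h1.symm

theorem poly_two (hs : Spec w w' 2 p) (ht : Tri w w' a b c) (x : E) :
    a (a (a (a (a x)))) + (5 : ℝ) • a (a (a x)) + (4 : ℝ) • a x = 0 := by
  apply io_inj
  have hp : ∀ (j : ℤ) (z : Cx E), HP.lie w w' (p j z) = (j : ℂ) • p j z := fun j z =>
    congrArg (fun T : Cx E →L[ℂ] Cx E => T z) (hs.grad.eig j)
  rw [io_add, io_add, io_smul, io_smul, op_io3 ht, op_io3 ht, op_io2 ht, op_io ht, io_zero,
    op_sum hs (io x)]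
  simp only [map_add, map_neg, map_smul, hp]
  push_cast
  module

theorem dec_two (hs : Spec w w' 2 p) (ht : Tri w w' a b c) (x : E) :
    ∃ x₀ x₁ x₂ : E, x = x₀ + x₁ + x₂ ∧ a x₀ = 0 ∧ a (a x₁) = -x₁ ∧
      a (a x₂) = -((4 : ℝ) • x₂) ∧
      x₁ = -((1 / 3 : ℝ) • (a (a (a (a x))) + (4 : ℝ) • a (a x))) ∧
      x₂ = (1 / 12 : ℝ) • (a (a (a (a x))) + a (a x)) := by
  have h1 := poly_two hs ht x
  have h2 := poly_two hs ht (a x)
  have h3 : a (a (a (a (a x)))) = -((5 : ℝ) • a (a (a x))) - (4 : ℝ) • a x := by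
    rw [← sub_eq_zero, ← h1]
    abel
  have h4 : a (a (a (a (a (a x))))) = -((5 : ℝ) • a (a (a (a x)))) - (4 : ℝ) • a (a x) := by
    rw [← sub_eq_zero, ← h2]
    abel
  refine ⟨x + (5 / 4 : ℝ) • a (a x) + (1 / 4 : ℝ) • a (a (a (a x))), _, _, ?_, ?_, ?_, ?_, rfl,
    rfl⟩
  · module
  · simp only [map_add, map_smul, h3]
    module
  · simp only [map_add, map_smul, map_neg, h4]
    module
  · simp only [map_add, map_smul, h4]
    module

theorem ker_four (hs : Spec w w' 2 p) (ht : Tri w w' a b c) (hx : a (a x) = -((16 : ℝ) • x)) :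
    x = 0 := by
  have h1 := poly_two hs ht (a x)
  simp only [hx, map_neg, map_smul] at h1
  have h2 : (2880 : ℝ) • x = 0 := by
    rw [← neg_eq_zero, ← h1]
    module
  rcases smul_eq_zero.1 h2 with h3 | h3
  · norm_num at h3
  · exact h3

/-! ### Vectors with `a² x = - x` -/

/-- the components of `io x` and the action of the triple -/
private theorem op_odd (hN : RNice E) (h𝔠 : RLie 𝔠) (h : TT 𝔠 w w') (hs : Spec w w' M p)
    (hM : M ≤ 2) (ht : Tri w w' a b c) (hx : a (a x) = -x) :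
    ∃ z₁ z' y₁ y' : Cx E, io x = z₁ + z' ∧ HP.lie w w' z₁ = z₁ ∧ HP.lie w w' z' = -z' ∧
      HP.lie w w' y₁ = -y₁ ∧ HP.lie w w' y' = y' ∧ w z₁ = 0 ∧ w' z₁ = y₁ ∧ w y₁ = z₁ ∧
      w' y₁ = 0 ∧ w z' = y' ∧ w' z' = 0 ∧ w y' = 0 ∧ w' y' = z' := by
  have e1 : HP.lie w w' (HP.lie w w' (io x)) = io x := by
    have h1 := op_io2 ht x
    rw [hx, io_neg] at h1
    exact (neg_injective h1).symm
  set z := io x with hz
  set z₁ := (1 / 2 : ℂ) • (z + HP.lie w w' z) with hz₁
  set z' := (1 / 2 : ℂ) • (z - HP.lie w w' z) with hz'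
  have s1 : HP.lie w w' z₁ = z₁ := by
    rw [hz₁, map_smul, map_add, e1]
    module
  have s' : HP.lie w w' z' = -z' := by
    rw [hz', map_smul, map_sub, e1]
    module
  have hsum : z = z₁ + z' := by
    rw [hz₁, hz']
    module
  clear_value z₁ z'
  have s1c : HP.lie w w' z₁ = (1 : ℂ) • z₁ := by rw [s1, one_smul]
  have s'c : HP.lie w w' z' = (-1 : ℂ) • z' := by rw [s', neg_one_smul]
  have hlie : ∀ y : Cx E, w (w' y) = HP.lie w w' y + w' (w y) := by
    intro y
    change w (w' y) = (w (w' y) - w' (w y)) + w' (w y)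
    abel
  have t1 : w z₁ = 0 := by
    apply op_vanish hs hM 3 (by norm_num)
    rw [op_up h s1c]
    congr 1
    norm_num
  have t2 : w' z' = 0 := by
    apply op_vanish hs hM (-3) (by norm_num)
    rw [op_down hN h𝔠 h s'c]
    congr 1
    norm_num
  have t3 : w (w' z₁) = z₁ := by rw [hlie, s1, t1, map_zero, add_zero]
  have t4 : w' (w z') = z' := by
    have h1 := hlie z'
    rw [t2, map_zero, s'] at h1
    have h2 : w' (w z') = z' + (-z' + w' (w z')) := by abel
    rw [h2, ← h1, add_zero]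
  have u1 : HP.lie w w' (w' z₁) = (-1 : ℂ) • w' z₁ := by
    rw [op_down hN h𝔠 h s1c]
    congr 1
    norm_num
  have u2 : HP.lie w w' (w z') = (1 : ℂ) • w z' := by
    rw [op_up h s'c]
    congr 1
    norm_num
  have t5 : w' (w' z₁) = 0 := by
    apply op_vanish hs hM (-3) (by norm_num)
    rw [op_down hN h𝔠 h u1]
    congr 1
    norm_num
  have t6 : w (w z') = 0 := by
    apply op_vanish hs hM 3 (by norm_num)
    rw [op_up h u2]
    congr 1
    norm_num
  refine ⟨z₁, z', w' z₁, w z', hsum, s1, s', ?_, ?_, t1, rfl, t3, t5, rfl, t2, t6, t4⟩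
  · rw [u1, neg_one_smul]
  · rw [u2, one_smul]

theorem odd_part (hN : RNice E) (h𝔠 : RLie 𝔠) (h : TT 𝔠 w w') (hs : Spec w w' M p) (hM : M ≤ 2)
    (ht : Tri w w' a b c) (hx : a (a x) = -x) :
    b (b x) = -x ∧ c (c x) = -x ∧ a (b x) = c x ∧ b (c x) = a x ∧ c (a x) = b x ∧
      b (a x) = -c x ∧ c (b x) = -a x ∧ a (c x) = -b x := by
  obtain ⟨z₁, z', y₁, y', hsum, s1, s', u1, u', r1, r2, r3, r4, r5, r6, r7, r8⟩ :=
    op_odd hN h𝔠 h hs hM ht hx
  have hb : ∀ z : Cx E, cx b z = w' z - w z := by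
    intro z
    rw [ht.eb, sub_apply]
  have hc : ∀ z : Cx E, cx c z = -(Complex.I • (w z + w' z)) := by
    intro z
    rw [ht.ec, neg_apply, smul_apply, add_apply]
  have ha : ∀ z : Cx E, cx a z = Complex.I • HP.lie w w' z := op_cx ht
  have hI : ∀ z : Cx E, Complex.I • Complex.I • z = -z := by
    intro z
    rw [smul_smul, Complex.I_mul_I, neg_one_smul]
  refine ⟨?_, ?_, ?_, ?_, ?_, ?_, ?_, ?_⟩ <;> apply io_inj <;>
    simp only [io_neg, ← cx_io, hsum, map_add, ha, hb, hc, map_sub, map_neg, map_smul, s1, s', u1,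
      u', r1, r2, r3, r4, r5, r6, r7, r8, map_zero, smul_add, smul_neg, smul_sub, smul_zero, hI] <;>
    abel

omit [CompleteSpace E] in
/-- the components of an operator of spin one half -/
private theorem op_half (ht : Tri w w' a b c) (hu : u ∈ Half a) :
    ∃ K₁ K' : Cx E →L[ℂ] Cx E, cx u = K₁ + K' ∧ HP.lie (HP.lie w w') K₁ = (1 : ℂ) • K₁ ∧
      HP.lie (HP.lie w w') K' = (-1 : ℂ) • K' := by
  have hbr : ∀ B : E →L[ℝ] E, cx (br a B) = Complex.I • HP.lie (HP.lie w w') (cx B) := by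
    intro B
    rw [br, cx_sub, cx_mul, cx_mul, ht.ea]
    unfold HP.lie
    rw [smul_mul_assoc, mul_smul_comm, smul_sub]
  have hsm : ∀ (t : ℂ) (X : Cx E →L[ℂ] Cx E), HP.lie (HP.lie w w') (t • X) =
      t • HP.lie (HP.lie w w') X := by
    intro t X
    unfold HP.lie
    rw [smul_mul_assoc, mul_smul_comm, smul_sub]
  have had : ∀ (X Y : Cx E →L[ℂ] Cx E), HP.lie (HP.lie w w') (X + Y) =
      HP.lie (HP.lie w w') X + HP.lie (HP.lie w w') Y := by
    intro X Y
    unfold HP.lie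
    rw [mul_add, add_mul]
    abel
  have h1 : HP.lie (HP.lie w w') (HP.lie (HP.lie w w') (cx u)) = cx u := by
    have h2 := congrArg cx hu.2
    rw [hbr, hbr, cx_neg, hsm, smul_smul, Complex.I_mul_I, neg_one_smul] at h2
    exact neg_injective h2
  set K := cx u with hK
  refine ⟨(1 / 2 : ℂ) • (K + HP.lie (HP.lie w w') K),
    (1 / 2 : ℂ) • (K + (-1 : ℂ) • HP.lie (HP.lie w w') K), ?_, ?_, ?_⟩
  · module
  · rw [hsm, had, h1]
    module
  · rw [hsm, had, hsm, h1]
    module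

theorem half_odd (hN : RNice E) (h𝔠 : RLie 𝔠) (h : TT 𝔠 w w') (hs : Spec w w' M p) (hM : M ≤ 2)
    (ht : Tri w w' a b c) (hu : u ∈ Half a) (hx : a (a x) = -x) :
    a (a (a (u x))) = -((4 : ℝ) • a (u x)) := by
  obtain ⟨z₁, z', y₁, y', hsum, s1, s', -⟩ := op_odd hN h𝔠 h hs hM ht hx
  obtain ⟨K₁, K', hK, k1, k'⟩ := op_half ht hu
  have s1c : HP.lie w w' z₁ = (1 : ℂ) • z₁ := by rw [s1, one_smul]
  have s'c : HP.lie w w' z' = (-1 : ℂ) • z' := by rw [s', neg_one_smul]
  have q1 := op_shift k1 s1c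
  have q2 := op_shift k1 s'c
  have q3 := op_shift k' s1c
  have q4 := op_shift k' s'c
  apply io_inj
  rw [io_neg, io_smul, op_io3 ht, op_io ht, ← cx_io, hK, hsum, add_apply, map_add, map_add]
  simp only [map_add, map_smul, q1, q2, q3, q4]
  push_cast
  module

theorem half_even (hN : RNice E) (h𝔠 : RLie 𝔠) (h : TT 𝔠 w w') (hs : Spec w w' M p)
    (hM : M ≤ 2) (ht : Tri w w' a b c) (hu : u ∈ Half a)
    (hx : a (a (a x)) = -((4 : ℝ) • a x)) : a (a (u x)) = -u x := by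
  obtain ⟨K₁, K', hK, k1, k'⟩ := op_half ht hu
  have e1 : HP.lie w w' (HP.lie w w' (HP.lie w w' (io x))) = (4 : ℂ) • HP.lie w w' (io x) := by
    have h1 := op_io3 ht x
    rw [hx, io_neg, io_smul, op_io ht] at h1
    have h2 := congrArg (fun y => Complex.I • y) h1
    simp only [smul_neg, smul_smul] at h2
    have h3 : Complex.I * ((((4 : ℝ)) : ℂ) * Complex.I) = -4 := by
      push_cast
      linear_combination 4 * Complex.I_mul_I
    rw [h3, Complex.I_mul_I, neg_one_smul, neg_smul, neg_neg, neg_neg] at h2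
    exact h2.symm
  set z := io x with hz
  set z₀ := z - (1 / 4 : ℂ) • HP.lie w w' (HP.lie w w' z) with hz₀
  set z₂ := (1 / 8 : ℂ) • (HP.lie w w' (HP.lie w w' z) + (2 : ℂ) • HP.lie w w' z) with hz₂
  set z' := (1 / 8 : ℂ) • (HP.lie w w' (HP.lie w w' z) - (2 : ℂ) • HP.lie w w' z) with hz'
  have hsum : z = z₀ + z₂ + z' := by
    rw [hz₀, hz₂, hz']
    module
  have s0 : HP.lie w w' z₀ = (0 : ℂ) • z₀ := by
    rw [hz₀, map_sub, map_smul, e1]
    module
  have s2 : HP.lie w w' z₂ = (2 : ℂ) • z₂ := by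
    rw [hz₂, map_smul, map_add, map_smul, e1]
    module
  have s' : HP.lie w w' z' = (-2 : ℂ) • z' := by
    rw [hz', map_smul, map_sub, map_smul, e1]
    module
  clear_value z₀ z₂ z'
  have q1 := op_shift k1 s0
  have q2 := op_shift k1 s2
  have q3 := op_shift k1 s'
  have q4 := op_shift k' s0
  have q5 := op_shift k' s2
  have q6 := op_shift k' s'
  have v2 : K₁ z₂ = 0 := by
    apply op_vanish hs hM 3 (by norm_num)
    rw [q2]
    congr 1
    norm_num
  have v6 : K' z' = 0 := by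
    apply op_vanish hs hM (-3) (by norm_num)
    rw [q6]
    congr 1
    norm_num
  apply io_inj
  rw [io_neg, op_io2 ht, ← cx_io, hK, ← hz, hsum, add_apply]
  simp only [map_add, v2, v6, map_smul, q1, q3, q4, q5, map_zero]
  module

end Pool.Agent.Helper61.RO
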