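import Pool.Agent.Helper61.RO.DjApi

/-!
# RO-35  Small squares of skew operators

PROOFS.
* `rx_sub_le`: `‖rx t u z - z‖ ≤ |t| ‖u z‖` for skew `u`: the derivative of `s ↦ rx s u z` is `rx s u (u z)`, of norm `‖u z‖` (`rx_hasDerivAt`, `rx_comm`,
  `Sk.norm_rx`; mean value inequality).
* `cosh_sub_le`: `y t = (1/2) (rx t u f + rx (-t) u f)`, `y'' t = (1/2) (rx t u + rx (-t) u) (u u f)` of norm `≤ ‖u u f‖`, `y' 0 = 0`, so `‖y 1 - f‖ ≤ ‖u u f‖ / 2` (use the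
  mean value inequality twice; the constant `1` instead of `1/2` is enough). `sinh_sub_le`: `s t = (1/2) (rx t u f - rx (-t) u f)`, `s'' t = (1/2) (rx t u - rx (-t) u) (u u f)`,
  `s' 0 = u f`: `‖s 1 - u f‖ ≤ ‖u u f‖`.
* `sq_small`: `e₊ = rx 1 u f`, `e₋ = rx (-1) u f` are unit vectors, `‖e₊ + e₋‖ ≥ 2 - 2 δ` by `cosh_sub_le`, so `‖e₊ - e₋‖ < ε` by uniform convexity (`hN.convex`), and
  `‖u f‖ ≤ (1/2) ‖e₊ - e₋‖ + δ`.
* `dual_convex`: unit functionals `φ, ψ` with `‖φ + ψ‖ > 2 - δ'`: a unit vector `x` with `(φ + ψ) x > 2 - δ'`, and for `‖h‖ = δ` (`δ` from `hN.smooth ε`):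
  `2 + ε δ ≥ ‖x + h‖ + ‖x - h‖ ≥ φ (x + h) + ψ (x - h) > 2 - δ' + (φ - ψ) h`, so `‖φ - ψ‖ ≤ ε + δ' / δ`.
* `sq_small_dual`: the proof of `sq_small` for the functional `φ` (scaled to norm `1`) and `e₊ = φ ∘ rx 1 u`, `e₋ = φ ∘ rx (-1) u`, of norm `1`: for every `z`,
  `|(e₊ + e₋) z / 2 - φ z|` and `|(e₊ - e₋) z / 2 - φ (u z)|` are bounded by `sup_{|t| ≤ 1} |φ (u (u (rx t u z)))| ≤ δ ‖z‖` (the operators commute).
-/

set_option autoImplicit false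

open Filter Topology

namespace Pool.Agent.Helper61.RO

universe u

variable {E : Type u} [NormedAddCommGroup E] [NormedSpace ℝ E]

theorem dual_convex (hN : RNice E) {ε : ℝ} (hε : 0 < ε) : ∃ δ : ℝ, 0 < δ ∧
    ∀ φ ψ : StrongDual ℝ E, ‖φ‖ = 1 → ‖ψ‖ = 1 → 2 - δ ≤ ‖φ + ψ‖ → ‖φ - ψ‖ ≤ ε := by
  obtain ⟨δ, hδ, h⟩ := hN.smooth (ε / 2) (half_pos hε)
  refine ⟨min 1 (ε * δ / 2), lt_min one_pos (by positivity), fun φ ψ hφ hψ hs => ?_⟩
  have hm1 := min_le_left 1 (ε * δ / 2)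
  have hm2 := min_le_right 1 (ε * δ / 2)
  have h0 : φ + ψ ≠ 0 := fun h0 => by
    rw [h0, norm_zero] at hs
    linarith
  obtain ⟨x, hx, hxe⟩ := dj_surj hN h0
  have hx1 : (φ + ψ) x = ‖φ + ψ‖ := by
    have h1 : (φ + ψ) x = (‖φ + ψ‖ • dj x) x := by rw [← hxe]
    rw [h1, smul_apply, dj_self, hx, smul_eq_mul, mul_one]
  have key : ∀ z : E, (φ - ψ) z ≤ ε * ‖z‖ := by
    intro z
    by_cases hz : z = 0
    · rw [hz, map_zero, norm_zero, mul_zero]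
    have hz0 : 0 < ‖z‖ := norm_pos_iff.2 hz
    have hn : ‖(δ / ‖z‖) • z‖ = δ := by
      rw [norm_smul, Real.norm_eq_abs, abs_of_pos (div_pos hδ hz0)]
      field_simp
    have h1 := h x ((δ / ‖z‖) • z) hx hn.le
    rw [hn] at h1
    have h2 := (le_abs_self _).trans ((Real.norm_eq_abs _) ▸ φ.le_opNorm (x + (δ / ‖z‖) • z))
    have h3 := (le_abs_self _).trans ((Real.norm_eq_abs _) ▸ ψ.le_opNorm (x - (δ / ‖z‖) • z))
    rw [map_add, map_smul, hφ, one_mul, smul_eq_mul] at h2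
    rw [map_sub, map_smul, hψ, one_mul, smul_eq_mul] at h3
    rw [add_apply] at hx1
    have h5 : (δ / ‖z‖) * (φ z - ψ z) ≤ ε * δ := by linarith
    have h6 : φ z - ψ z = (‖z‖ / δ) * ((δ / ‖z‖) * (φ z - ψ z)) := by
      field_simp
    have h7 : (‖z‖ / δ) * ((δ / ‖z‖) * (φ z - ψ z)) ≤ (‖z‖ / δ) * (ε * δ) :=
      mul_le_mul_of_nonneg_left h5 (div_nonneg hz0.le hδ.le)
    have h8 : (‖z‖ / δ) * (ε * δ) = ε * ‖z‖ := by
      field_simp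
    rw [sub_apply, ← h8, h6]
    exact h7
  refine ContinuousLinearMap.opNorm_le_bound _ hε.le fun z => ?_
  rw [Real.norm_eq_abs, abs_le]
  constructor
  · have h1 := key (-z)
    rw [map_neg, norm_neg] at h1
    linarith
  · exact key z

variable [CompleteSpace E] {u : E →L[ℝ] E}

private theorem sq_der (u : E →L[ℝ] E) (w : E) (s : ℝ) :
    HasDerivAt (fun s : ℝ => rx s u w) (rx s u (u w)) s := by
  have h := (rx_hasDerivAt u s).clm_apply (hasDerivAt_const s w)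
  have h2 : (u * rx s u) w + rx s u 0 = rx s u (u w) := by
    rw [map_zero, add_zero, rx_comm (rfl : u * u = u * u)]
    rfl
  rw [h2] at h
  exact h

section F

variable {F : Type*} [NormedAddCommGroup F] [NormedSpace ℝ F]

private theorem sq_derF (Φ : E →L[ℝ] F) (u : E →L[ℝ] E) (w : E) (s : ℝ) :
    HasDerivAt (fun s : ℝ => Φ (rx s u w)) (Φ (rx s u (u w))) s :=
  Φ.hasFDerivAt.comp_hasDerivAt s (sq_der u w s)

private theorem sq_a (Φ : E →L[ℝ] F) (u : E →L[ℝ] E) (z : E) {C : ℝ}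
    (hC : ∀ s : ℝ, ‖Φ (rx s u (u (u z)))‖ ≤ C) (t : ℝ) :
    ‖Φ (rx t u (u z)) - Φ (u z)‖ ≤ C * |t| := by
  have h := Convex.norm_image_sub_le_of_norm_hasDerivWithin_le
    (f := fun s : ℝ => Φ (rx s u (u z))) (f' := fun s : ℝ => Φ (rx s u (u (u z)))) (C := C)
    (s := Set.univ) (x := 0) (y := t) (fun s _ => (sq_derF Φ u (u z) s).hasDerivWithinAt)
    (fun s _ => hC s) convex_univ trivial trivial
  have h0 : Φ (rx 0 u (u z)) = Φ (u z) := by rw [rx_zero]; rfl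
  beta_reduce at h
  rw [h0, sub_zero, Real.norm_eq_abs] at h
  exact h

private theorem sq_b (Φ : E →L[ℝ] F) (u : E →L[ℝ] E) (z : E) {C : ℝ}
    (hC : ∀ s : ℝ, ‖Φ (rx s u (u (u z)))‖ ≤ C) (t : ℝ) :
    ‖Φ (rx t (-u) (u z)) - Φ (u z)‖ ≤ C * |t| := by
  have h := sq_a Φ (-u) z (C := C) (fun s => by
    have h1 : (-u) ((-u) z) = u (u z) := by simp
    rw [h1, rx_neg_op]
    exact hC (-s)) t
  have h1 : (-u) z = -(u z) := rfl
  rw [h1, map_neg, map_neg, map_neg, ← neg_sub', norm_neg] at h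
  exact h

private theorem sq_mv {g g' : ℝ → F} {C : ℝ} (h : ∀ s, HasDerivAt g (g' s) s)
    (hC : ∀ s, ‖g' s‖ ≤ C * |s|) : ‖g 1 - g 0‖ ≤ C := by
  have hC0 : 0 ≤ C := by
    have h1 := (norm_nonneg _).trans (hC 1)
    rwa [abs_one, mul_one] at h1
  have h1 := Convex.norm_image_sub_le_of_norm_hasDerivWithin_le (f := g) (f' := g') (C := C)
    (s := Set.Icc 0 1) (x := (0 : ℝ)) (y := 1) (fun s _ => (h s).hasDerivWithinAt)
    (fun s hs => (hC s).trans (by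
      rw [abs_of_nonneg hs.1]
      exact mul_le_of_le_one_right hC0 hs.2)) (convex_Icc 0 1) (by simp) (by simp)
  simpa using h1

private theorem sq_cosh (Φ : E →L[ℝ] F) (u : E →L[ℝ] E) (z : E) {C : ℝ}
    (hC : ∀ s : ℝ, ‖Φ (rx s u (u (u z)))‖ ≤ C) :
    ‖Φ ((1 / 2 : ℝ) • (rx 1 u z + rx (-1) u z) - z)‖ ≤ C := by
  have h := sq_mv (g := fun s => (1 / 2 : ℝ) • (Φ (rx s u z) + Φ (rx s (-u) z)))
    (g' := fun s => (1 / 2 : ℝ) • (Φ (rx s u (u z)) + Φ (rx s (-u) ((-u) z)))) (C := C)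
    (fun s => ((sq_derF Φ u z s).add (sq_derF Φ (-u) z s)).const_smul _) (fun s => by
      have h1 := sq_a Φ u z hC s
      have h2 := sq_b Φ u z hC s
      have h3 : (1 / 2 : ℝ) • (Φ (rx s u (u z)) + Φ (rx s (-u) ((-u) z))) =
          (1 / 2 : ℝ) • ((Φ (rx s u (u z)) - Φ (u z)) - (Φ (rx s (-u) (u z)) - Φ (u z))) := by
        have h4 : (-u) z = -(u z) := rfl
        rw [h4, map_neg, map_neg]
        congr 1
        abel
      rw [h3, norm_smul, Real.norm_eq_abs, abs_of_pos (by norm_num : (0 : ℝ) < 1 / 2)]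
      have h4 := norm_sub_le (Φ (rx s u (u z)) - Φ (u z)) (Φ (rx s (-u) (u z)) - Φ (u z))
      linarith)
  have h1 : (fun s => (1 / 2 : ℝ) • (Φ (rx s u z) + Φ (rx s (-u) z))) 1 -
      (fun s => (1 / 2 : ℝ) • (Φ (rx s u z) + Φ (rx s (-u) z))) 0 =
      Φ ((1 / 2 : ℝ) • (rx 1 u z + rx (-1) u z) - z) := by
    beta_reduce
    rw [rx_neg_op, rx_neg_op, neg_zero, rx_zero, map_sub, map_smul, map_add]
    have h2 : Φ ((1 : E →L[ℝ] E) z) = Φ z := rfl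
    rw [h2]
    module
  rw [h1] at h
  exact h

private theorem sq_sinh (Φ : E →L[ℝ] F) (u : E →L[ℝ] E) (z : E) {C : ℝ}
    (hC : ∀ s : ℝ, ‖Φ (rx s u (u (u z)))‖ ≤ C) :
    ‖Φ ((1 / 2 : ℝ) • (rx 1 u z - rx (-1) u z) - u z)‖ ≤ C := by
  have h := sq_mv (g := fun s => (1 / 2 : ℝ) • (Φ (rx s u z) - Φ (rx s (-u) z)) - s • Φ (u z))
    (g' := fun s => (1 / 2 : ℝ) • (Φ (rx s u (u z)) - Φ (rx s (-u) ((-u) z))) -
      (1 : ℝ) • Φ (u z)) (C := C)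
    (fun s => (((sq_derF Φ u z s).sub (sq_derF Φ (-u) z s)).const_smul _).sub
      ((hasDerivAt_id s).smul_const _)) (fun s => by
      have h1 := sq_a Φ u z hC s
      have h2 := sq_b Φ u z hC s
      have h3 : (1 / 2 : ℝ) • (Φ (rx s u (u z)) - Φ (rx s (-u) ((-u) z))) - (1 : ℝ) • Φ (u z) =
          (1 / 2 : ℝ) • ((Φ (rx s u (u z)) - Φ (u z)) + (Φ (rx s (-u) (u z)) - Φ (u z))) := by
        have h4 : (-u) z = -(u z) := rfl
        rw [h4, map_neg, map_neg]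
        module
      rw [h3, norm_smul, Real.norm_eq_abs, abs_of_pos (by norm_num : (0 : ℝ) < 1 / 2)]
      have h4 := norm_add_le (Φ (rx s u (u z)) - Φ (u z)) (Φ (rx s (-u) (u z)) - Φ (u z))
      linarith)
  have h1 : (fun s => (1 / 2 : ℝ) • (Φ (rx s u z) - Φ (rx s (-u) z)) - s • Φ (u z)) 1 -
      (fun s => (1 / 2 : ℝ) • (Φ (rx s u z) - Φ (rx s (-u) z)) - s • Φ (u z)) 0 =
      Φ ((1 / 2 : ℝ) • (rx 1 u z - rx (-1) u z) - u z) := by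
    beta_reduce
    rw [rx_neg_op, rx_neg_op, neg_zero, rx_zero, map_sub, map_smul, map_sub]
    module
  rw [h1] at h
  exact h

end F

private theorem sq_comm (u : E →L[ℝ] E) (s : ℝ) (z : E) : rx s u (u z) = u (rx s u z) := by
  have h := rx_comm (rfl : u * u = u * u) s
  exact (congrArg (fun A : E →L[ℝ] E => A z) h).symm

theorem Sk.rx_sub_le (hu : Sk u) (t : ℝ) (z : E) : ‖rx t u z - z‖ ≤ |t| * ‖u z‖ := by
  have h := Convex.norm_image_sub_le_of_norm_hasDerivWithin_le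
    (f := fun s : ℝ => rx s u z) (f' := fun s : ℝ => rx s u (u z)) (C := ‖u z‖)
    (s := Set.univ) (x := 0) (y := t) (fun s _ => (sq_der u z s).hasDerivWithinAt)
    (fun s _ => (hu.norm_rx s _).le) convex_univ trivial trivial
  have h0 : rx 0 u z = z := by rw [rx_zero]; rfl
  beta_reduce at h
  rw [h0, sub_zero, Real.norm_eq_abs, mul_comm] at h
  exact h

theorem Sk.cosh_sub_le (hu : Sk u) (f : E) :
    ‖(1 / 2 : ℝ) • (rx 1 u f + rx (-1) u f) - f‖ ≤ ‖u (u f)‖ :=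
  sq_cosh (ContinuousLinearMap.id ℝ E) u f fun s => (hu.norm_rx s _).le

theorem Sk.sinh_sub_le (hu : Sk u) (f : E) :
    ‖(1 / 2 : ℝ) • (rx 1 u f - rx (-1) u f) - u f‖ ≤ ‖u (u f)‖ :=
  sq_sinh (ContinuousLinearMap.id ℝ E) u f fun s => (hu.norm_rx s _).le

theorem Sk.rx_taylor_one (hu : Sk u) (z : E) : ‖rx 1 u z - z - u z‖ ≤ ‖u (u z)‖ := by
  have h := sq_mv (g := fun s => rx s u z - s • u z)
    (g' := fun s => rx s u (u z) - (1 : ℝ) • u z) (C := ‖u (u z)‖)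
    (fun s => (sq_der u z s).sub ((hasDerivAt_id s).smul_const _)) (fun s => by
      rw [one_smul, mul_comm]
      exact hu.rx_sub_le s (u z))
  have h1 : (fun s => rx s u z - s • u z) 1 - (fun s => rx s u z - s • u z) 0 =
      rx 1 u z - z - u z := by
    beta_reduce
    rw [rx_zero]
    have h2 : (1 : E →L[ℝ] E) z = z := rfl
    rw [h2]
    module
  rw [h1] at h
  exact h

private theorem sq_unit {δ δ₁ ε : ℝ} (hδ1 : δ ≤ δ₁ / 4) (hδ1' : 0 < δ₁) (hδε : δ ≤ ε / 2)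
    (hc : ∀ x y : E, ‖x‖ = 1 → ‖y‖ = 1 → ε ≤ ‖x - y‖ → ‖x + y‖ ≤ 2 - δ₁) (hu : Sk u)
    {f : E} (hf : ‖f‖ = 1) (h : ‖u (u f)‖ ≤ δ) : ‖u f‖ ≤ ε := by
  have h1 := hu.cosh_sub_le f
  have h2 := hu.sinh_sub_le f
  have hp : ‖rx 1 u f‖ = 1 := by rw [hu.norm_rx, hf]
  have hm : ‖rx (-1) u f‖ = 1 := by rw [hu.norm_rx, hf]
  have h3 : ‖rx 1 u f - rx (-1) u f‖ < ε := by
    by_contra hn
    push Not at hn
    have h4 := hc _ _ hp hm hn
    have h5 : ‖f‖ ≤ ‖(1 / 2 : ℝ) • (rx 1 u f + rx (-1) u f)‖ +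
        ‖(1 / 2 : ℝ) • (rx 1 u f + rx (-1) u f) - f‖ := by
      have h6 := norm_sub_norm_le f ((1 / 2 : ℝ) • (rx 1 u f + rx (-1) u f))
      rw [norm_sub_rev] at h6
      linarith
    rw [norm_smul, Real.norm_eq_abs, abs_of_pos (by norm_num : (0 : ℝ) < 1 / 2), hf] at h5
    linarith
  have h5 : ‖u f‖ ≤ ‖(1 / 2 : ℝ) • (rx 1 u f - rx (-1) u f)‖ +
      ‖(1 / 2 : ℝ) • (rx 1 u f - rx (-1) u f) - u f‖ := by
    have h6 := norm_sub_norm_le (u f) ((1 / 2 : ℝ) • (rx 1 u f - rx (-1) u f))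
    rw [norm_sub_rev] at h6
    linarith
  rw [norm_smul, Real.norm_eq_abs, abs_of_pos (by norm_num : (0 : ℝ) < 1 / 2)] at h5
  linarith

theorem sq_small (hN : RNice E) {ε : ℝ} (hε : 0 < ε) : ∃ δ : ℝ, 0 < δ ∧
    ∀ (u : E →L[ℝ] E) (f : E), Sk u → ‖u (u f)‖ ≤ δ * ‖f‖ → ‖u f‖ ≤ ε * ‖f‖ := by
  obtain ⟨δ₁, hδ₁, hc⟩ := hN.convex ε hε
  refine ⟨min (δ₁ / 4) (ε / 2), lt_min (by positivity) (by positivity), fun u f hu h => ?_⟩
  by_cases hf : f = 0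
  · rw [hf, map_zero, norm_zero, mul_zero]
  have hf0 : 0 < ‖f‖ := norm_pos_iff.2 hf
  have h1 : ‖(‖f‖⁻¹) • f‖ = 1 := by
    rw [norm_smul, norm_inv, norm_norm, inv_mul_cancel₀ hf0.ne']
  have h2 := sq_unit (min_le_left _ _) hδ₁ (min_le_right _ _) hc hu h1 (by
    rw [map_smul, map_smul, norm_smul, norm_inv, norm_norm, inv_mul_le_iff₀ hf0, mul_comm]
    exact h)
  rw [map_smul, norm_smul, norm_inv, norm_norm, inv_mul_le_iff₀ hf0, mul_comm] at h2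
  exact h2

private theorem sq_norm_comp (hu : Sk u) (φ : StrongDual ℝ E) (t : ℝ) :
    ‖φ.comp (rx t u)‖ = ‖φ‖ := by
  have h1 : ∀ (ψ : StrongDual ℝ E) (s : ℝ), ‖ψ.comp (rx s u)‖ ≤ ‖ψ‖ := by
    intro ψ s
    refine ContinuousLinearMap.opNorm_le_bound _ (norm_nonneg _) fun z => ?_
    have h2 := ψ.le_opNorm (rx s u z)
    rw [hu.norm_rx] at h2
    exact h2
  refine le_antisymm (h1 φ t) ?_
  have h2 : (φ.comp (rx t u)).comp (rx (-t) u) = φ := by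
    ext z
    have h3 : (rx t u * rx (-t) u) z = z := by rw [rx_mul_neg]; rfl
    exact congrArg φ h3
  have h3 := h1 (φ.comp (rx t u)) (-t)
  rwa [h2] at h3

theorem sq_small_dual (hN : RNice E) {ε : ℝ} (hε : 0 < ε) : ∃ δ : ℝ, 0 < δ ∧
    ∀ (u : E →L[ℝ] E) (φ : StrongDual ℝ E), Sk u → (∀ z, |φ (u (u z))| ≤ δ * ‖φ‖ * ‖z‖) →
      ∀ z, |φ (u z)| ≤ ε * ‖φ‖ * ‖z‖ := by
  obtain ⟨δ₁, hδ₁, hc⟩ := dual_convex hN hε
  refine ⟨min (δ₁ / 2) (ε / 2), lt_min (by positivity) (by positivity), fun u φ hu h => ?_⟩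
  obtain ⟨δ, hδ⟩ : ∃ δ, δ = min (δ₁ / 2) (ε / 2) := ⟨_, rfl⟩
  have hd1 : δ ≤ δ₁ / 2 := hδ ▸ min_le_left _ _
  have hd2 : δ ≤ ε / 2 := hδ ▸ min_le_right _ _
  have hd0 : 0 < δ := hδ ▸ lt_min (by positivity) (by positivity)
  rw [← hδ] at h
  have hC : ∀ (z : E) (s : ℝ), ‖φ (rx s u (u (u z)))‖ ≤ δ * ‖φ‖ * ‖z‖ := by
    intro z s
    rw [Real.norm_eq_abs, sq_comm, sq_comm]
    have h1 := h (rx s u z)
    rwa [hu.norm_rx] at h1
  have hcosh : ∀ z, |φ ((1 / 2 : ℝ) • (rx 1 u z + rx (-1) u z) - z)| ≤ δ * ‖φ‖ * ‖z‖ :=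
    fun z => sq_cosh φ u z (hC z)
  have hsinh : ∀ z, |φ ((1 / 2 : ℝ) • (rx 1 u z - rx (-1) u z) - u z)| ≤ δ * ‖φ‖ * ‖z‖ :=
    fun z => sq_sinh φ u z (hC z)
  by_cases hφ : φ = 0
  · intro z
    rw [hφ]
    simp
  have hφ0 : 0 < ‖φ‖ := norm_pos_iff.2 hφ
  have hsc : ∀ ψ : StrongDual ℝ E, ‖ψ‖ = ‖φ‖ → ‖(‖φ‖⁻¹) • ψ‖ = 1 := by
    intro ψ hψ
    rw [norm_smul, norm_inv, norm_norm, hψ, inv_mul_cancel₀ hφ0.ne']
  have hsum : 2 * ‖φ‖ - 2 * (δ * ‖φ‖) ≤ ‖φ.comp (rx 1 u) + φ.comp (rx (-1) u)‖ := by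
    have h1 : ‖(1 / 2 : ℝ) • (φ.comp (rx 1 u) + φ.comp (rx (-1) u)) - φ‖ ≤ δ * ‖φ‖ := by
      refine ContinuousLinearMap.opNorm_le_bound _ (by positivity) fun z => ?_
      have h2 := hcosh z
      have h3 : ((1 / 2 : ℝ) • (φ.comp (rx 1 u) + φ.comp (rx (-1) u)) - φ) z =
          φ ((1 / 2 : ℝ) • (rx 1 u z + rx (-1) u z) - z) := by
        rw [map_sub, map_smul, map_add]
        rfl
      rw [h3, Real.norm_eq_abs]
      exact h2
    have h2 := norm_sub_norm_le φ ((1 / 2 : ℝ) • (φ.comp (rx 1 u) + φ.comp (rx (-1) u)))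
    rw [norm_sub_rev] at h2
    rw [norm_smul, Real.norm_eq_abs, abs_of_pos (by norm_num : (0 : ℝ) < 1 / 2)] at h2
    linarith
  have hdiff : ‖φ.comp (rx 1 u) - φ.comp (rx (-1) u)‖ ≤ ε * ‖φ‖ := by
    have h1 := hc _ _ (hsc _ (sq_norm_comp hu φ 1)) (hsc _ (sq_norm_comp hu φ (-1))) (by
      rw [← smul_add, norm_smul, norm_inv, norm_norm, le_inv_mul_iff₀ hφ0]
      nlinarith)
    have e : (‖φ‖⁻¹) • (φ.comp (rx 1 u) : StrongDual ℝ E) -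
        (‖φ‖⁻¹) • (φ.comp (rx (-1) u) : StrongDual ℝ E) =
        (‖φ‖⁻¹) • (φ.comp (rx 1 u) - φ.comp (rx (-1) u) : StrongDual ℝ E) :=
      (smul_sub _ _ _).symm
    rw [e, norm_smul, norm_inv, norm_norm, inv_mul_le_iff₀ hφ0, mul_comm] at h1
    exact h1
  intro z
  have h1 := hsinh z
  have h2 := (φ.comp (rx 1 u) - φ.comp (rx (-1) u)).le_opNorm z
  have h3 : φ ((1 / 2 : ℝ) • (rx 1 u z - rx (-1) u z) - u z) =
      (1 / 2) * ((φ.comp (rx 1 u) - φ.comp (rx (-1) u)) z) - φ (u z) := by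
    rw [map_sub, map_smul, map_sub, smul_eq_mul]
    rfl
  rw [h3] at h1
  rw [Real.norm_eq_abs] at h2
  have h4 : ‖φ.comp (rx 1 u) - φ.comp (rx (-1) u)‖ * ‖z‖ ≤ ε * ‖φ‖ * ‖z‖ :=
    mul_le_mul_of_nonneg_right hdiff (norm_nonneg z)
  have h5 : δ * ‖φ‖ * ‖z‖ ≤ (ε / 2) * ‖φ‖ * ‖z‖ := by
    gcongr
  rw [abs_le] at h1 h2 ⊢
  obtain ⟨h1a, h1b⟩ := h1
  obtain ⟨h2a, h2b⟩ := h2
  constructor <;> linarith

end Pool.Agent.Helper61.RO
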