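import Pool.Agent.Helper61.RO.Kappa
import Pool.Agent.Helper61.RO.SqSmall

/-!
# RO-36  Off-diagonal operators with a small square at one vector are small

PROOF. `ε₁ = ε / 2`; `δ₁`, `δ₂` from `sq_small`, `sq_small_dual` for `ε₁`; `δ = min δ₁ δ₂ / 10`. By `exists_kappa` and the hypotheses on `f`:
`4 κ ≤ 4 δ` (`|dj x y| ≤ ‖y‖`), so `‖u (u f')‖ ≤ 10 δ ‖f'‖` on the block `H`, and `‖u f'‖ ≤ ε₁ ‖f'‖` there (`sq_small`). Let `g ∈ ker a`; `u g ∈ H` (`u ∈ Lo a`). Let `φ = dj (u g)` and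
`φ' z = φ (- a (a z))`, `‖φ'‖ ≤ 1`, `φ' (u g) = ‖u g‖`. For every `z`: `φ' (u (u z)) = φ' (u (u (p z)))`, `p z = - a (a z) ∈ H` (`u u` commutes with `a a`, and `φ'` vanishes on
`ker a`), so `|φ' (u (u z))| ≤ ‖φ'‖ 10 δ ‖z‖`; `sq_small_dual`: `‖u g‖ = φ' (u g) ≤ ε₁ ‖g‖`. For general `z`: `z = p z + (z - p z)`, both of norm `≤ ‖z‖` (`Cub3.norm_proj_le`), so
`‖u z‖ ≤ 2 ε₁ ‖z‖`.
-/

set_option autoImplicit false

open Filter Topology

namespace Pool.Agent.Helper61.RO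

universe u

variable {E : Type u} [NormedAddCommGroup E] [NormedSpace ℝ E] [CompleteSpace E]
  {a b c : E →L[ℝ] E}

omit [CompleteSpace E] in
private theorem off_ker {u : E →L[ℝ] E} (hu : u ∈ Lo a) {g : E} (hg : a g = 0) :
    a (a (u g)) = -(u g) := by
  have h1 := congrArg (fun T : E →L[ℝ] E => T g) hu.2
  have h2 : u g = -(a (a (u (g + a (a g))))) - (u (a (a g)) + a (a (u (a (a g))))) := by
    simpa using h1
  rw [hg, map_zero, add_zero, map_zero, map_zero, map_zero, add_zero, sub_zero] at h2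
  exact (neg_eq_iff_eq_neg.2 h2).symm ▸ rfl

omit [CompleteSpace E] in
private theorem off_blk {u : E →L[ℝ] E} (hu : u ∈ Lo a) {f : E} (hf : a (a f) = -f) :
    a (a (u f)) = 0 := by
  have h1 := congrArg (fun T : E →L[ℝ] E => T f) hu.2
  have h2 : u f = -(a (a (u (f + a (a f))))) - (u (a (a f)) + a (a (u (a (a f))))) := by
    simpa using h1
  rw [hf, add_neg_cancel, map_zero, map_zero, map_zero, neg_zero, zero_sub, map_neg, map_neg,
    map_neg, neg_add, neg_neg, neg_neg] at h2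
  exact (left_eq_add.1 h2)

theorem off_small (hN : RNice E) (h : Quat a b c) (hE : Ext a b c) {ε : ℝ} (hε : 0 < ε) :
    ∃ δ : ℝ, 0 < δ ∧ ∀ u ∈ Lo a, ∀ f : E, a (a f) = -f → ‖f‖ = 1 → ‖u (u f)‖ ≤ δ →
      ‖u (u (a f))‖ ≤ δ → ‖u (u (b f))‖ ≤ δ → ‖u (u (c f))‖ ≤ δ → ‖u‖ ≤ ε := by
  obtain ⟨δ₁, hδ₁, H1⟩ := sq_small (E := E) hN (half_pos hε)
  obtain ⟨δ₂, hδ₂, H2⟩ := sq_small_dual (E := E) hN (half_pos hε)
  have hδ : 0 < min δ₁ δ₂ / 10 := div_pos (lt_min hδ₁ hδ₂) (by norm_num)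
  refine ⟨min δ₁ δ₂ / 10, hδ, ?_⟩
  intro u hu f hf hf1 h1 h2 h3 h4
  obtain ⟨κ, hκ0, hκ, hκs⟩ := exists_kappa hN h hE hu
  have hκδ : κ ≤ min δ₁ δ₂ / 10 := by
    have e0 := hκs f hf hf1
    have e1 := (abs_le.1 (dj_le f (u (u f)))).1
    have e2 := (abs_le.1 (dj_le (a f) (u (u (a f))))).1
    have e3 := (abs_le.1 (dj_le (b f) (u (u (b f))))).1
    have e4 := (abs_le.1 (dj_le (c f) (u (u (c f))))).1
    linarith
  have hm1 : min δ₁ δ₂ ≤ δ₁ := min_le_left _ _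
  have hm2 : min δ₁ δ₂ ≤ δ₂ := min_le_right _ _
  have hcube : ∀ x : E, a (a (a x)) = -(a x) := fun x => by
    have := congrArg (fun T : E →L[ℝ] E => T x) h.cube
    simpa using this
  -- bound of `u u` on the block
  have hsq : ∀ f' : E, a (a f') = -f' → ‖u (u f')‖ ≤ min δ₁ δ₂ * ‖f'‖ := by
    intro f' hf'
    have e1 := hκ f' hf'
    have e2 : 10 * κ * ‖f'‖ ≤ min δ₁ δ₂ * ‖f'‖ :=
      mul_le_mul_of_nonneg_right (by linarith) (norm_nonneg _)
    linarith
  -- bound of `u` on the block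
  have hblk : ∀ f' : E, a (a f') = -f' → ‖u f'‖ ≤ ε / 2 * ‖f'‖ := by
    intro f' hf'
    refine H1 u f' hu.1 ((hsq f' hf').trans ?_)
    exact mul_le_mul_of_nonneg_right hm1 (norm_nonneg _)
  -- bound of `u` on the kernel
  have hker : ∀ g : E, a g = 0 → ‖u g‖ ≤ ε / 2 * ‖g‖ := by
    intro g hg
    by_cases h0 : u g = 0
    · rw [h0, norm_zero]
      exact mul_nonneg (half_pos hε).le (norm_nonneg _)
    let φ : StrongDual ℝ E := (dj (u g)).comp (-(a * a))
    have hφa : ∀ z : E, φ z = dj (u g) (-(a (a z))) := fun z => rfl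
    have hφ1 : ∀ z : E, |φ z| ≤ ‖z‖ := by
      intro z
      rw [hφa]
      refine (dj_le _ _).trans ?_
      rw [norm_neg]
      exact (Cub3.norm_proj_le h.cub z).1
    have hφn : ‖φ‖ ≤ 1 := ContinuousLinearMap.opNorm_le_bound _ zero_le_one fun z => by
      rw [one_mul, Real.norm_eq_abs]
      exact hφ1 z
    have hφg : φ (u g) = ‖u g‖ := by
      rw [hφa, off_ker hu hg, neg_neg, dj_self]
    have hφn1 : 1 ≤ ‖φ‖ := by
      have e1 := φ.le_opNorm (u g)
      rw [hφg, norm_norm] at e1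
      have e2 : 0 < ‖u g‖ := norm_pos_iff.2 h0
      by_contra hc
      push Not at hc
      have e3 : ‖φ‖ * ‖u g‖ < 1 * ‖u g‖ := mul_lt_mul_of_pos_right hc e2
      linarith
    have hφe : ‖φ‖ = 1 := le_antisymm hφn hφn1
    have key : ∀ z : E, |φ (u (u z))| ≤ δ₂ * ‖φ‖ * ‖z‖ := by
      intro z
      have hp : a (a (a (a z))) = -(a (a z)) := by rw [hcube (a z)]
      have hpH : a (a (-(a (a z)))) = -(-(a (a z))) := by
        rw [map_neg, map_neg, hp]
      have hq : a (z + a (a z)) = 0 := by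
        rw [map_add, hcube, add_neg_cancel]
      have hqH : a (a (u (z + a (a z)))) = -(u (z + a (a z))) := off_ker hu hq
      have hq0 : a (a (u (u (z + a (a z))))) = 0 := off_blk hu hqH
      have hz : u (u z) = u (u (-(a (a z)))) + u (u (z + a (a z))) := by
        rw [← map_add, ← map_add]
        congr 2
        abel
      have e1 : φ (u (u z)) = φ (u (u (-(a (a z))))) := by
        rw [hz, map_add, hφa (u (u (z + a (a z)))), hq0, neg_zero, map_zero, add_zero]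
      rw [e1, hφe, mul_one]
      refine (hφ1 _).trans ((hsq _ hpH).trans ?_)
      rw [norm_neg]
      exact mul_le_mul hm2 (Cub3.norm_proj_le h.cub z).1 (norm_nonneg _) hδ₂.le
    have e1 := H2 u φ hu.1 key g
    rw [hφg, hφe, mul_one, abs_of_nonneg (norm_nonneg _)] at e1
    exact e1
  refine ContinuousLinearMap.opNorm_le_bound _ hε.le fun z => ?_
  have hp : a (a (a (a z))) = -(a (a z)) := by rw [hcube (a z)]
  have hpH : a (a (-(a (a z)))) = -(-(a (a z))) := by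
    rw [map_neg, map_neg, hp]
  have hq : a (z + a (a z)) = 0 := by
    rw [map_add, hcube, add_neg_cancel]
  have hz : u z = u (-(a (a z))) + u (z + a (a z)) := by
    rw [← map_add]
    congr 1
    abel
  rw [hz]
  refine (norm_add_le _ _).trans ?_
  have e1 := hblk _ hpH
  have e2 := hker _ hq
  rw [norm_neg] at e1
  have e3 : ε / 2 * ‖a (a z)‖ ≤ ε / 2 * ‖z‖ :=
    mul_le_mul_of_nonneg_left (Cub3.norm_proj_le h.cub z).1 (half_pos hε).le
  have e4 : ε / 2 * ‖z + a (a z)‖ ≤ ε / 2 * ‖z‖ :=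
    mul_le_mul_of_nonneg_left (Cub3.norm_proj_le h.cub z).2 (half_pos hε).le
  linarith

end Pool.Agent.Helper61.RO
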