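import Pool.Agent.Helper61.HO.Weights
import Pool.Agent.Helper61.HO.PrApi

/-!
# RO-71  Orthogonal tripotents

PROOF. `N = lie e f'`, `N' = lie f e'` (the star of `N`, `Pr.lie`). `k1`: `lie N e = 0`, `k2`: `lie N f = 0`, `k3`: `lie N' e = 0`, `k4`: `lie N' f = 0`. Taking stars (`Pr.unique`, `Pr.zero`): `lie N' e' = 0`, `lie N' f' = 0`, `lie N e' = 0`, `lie N f' = 0` (up to sign).
(1) `e^n = 0`: `S = lie e e'`, `S e - e S = 2 e` (`pow_eq_zero_of_ad`); the same for `f`.
(2) Lemma (Jacobson, any ring): if `e` commutes with `N = e y - y e` and `e^n = 0`, then `N^(2n) = 0`. Proof: the map `δ = ad e` is a derivation with `δ y = N`, `δ N = 0`, so `δ^m (y^m) = m! N^m` (induction: `δ^k (y^m)` ... e.g. `δ^m (y^m) = m! N^m` and `δ^(m+1) (y^m) = 0`, by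
induction on `m`: `δ^m (y y^(m-1)) = ∑ binom δ^i y δ^(m-i) y^(m-1) = y δ^m (y^(m-1)) + m N δ^(m-1) (y^(m-1))`), and `δ^(2n) = 0` because `δ^k X = ∑ ± binom e^i X e^(k-i)`. So `(2n)! N^(2n) = 0`.
So `N` is nilpotent (`y = f'`) and `N' = f e' - e' f` is nilpotent (`y = e'`, `f` commutes with `N'`).
(3) `N N' = N' N`: `lie N N' = lie N (lie f e') = lie (lie N f) e' + lie f (lie N e') = 0`.
(4) `N + N'` and `i (N - N')` are in `𝔥` (`Pr.add_mem`, and `Pr.add_mem` for `i N`, whose star is `- i N'`), hermitian and nilpotent (commuting nilpotents), so they are `0`: a hermitian `H` with `H^(2^k) = 0` is `0` (`herm_sq_ker` repeatedly). So `N = 0 = N'`.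
-/

set_option autoImplicit false

open Filter Topology

namespace Pool.Agent.Helper61.HP

universe u

variable {E : Type u} [NormedAddCommGroup E] [NormedSpace ℂ E] [CompleteSpace E]
  {𝔥 : Set (E →L[ℂ] E)} {e e' f f' : E →L[ℂ] E}

/-- Jacobson: `N = e y - y e` commutes with `e`, `e` nilpotent; then `N` is nilpotent -/
private theorem jacobson {R : Type*} [Ring R] [Algebra ℂ R] {e y : R}
    (hn : IsNilpotent e) (hc : (e * y - y * e) * e - e * (e * y - y * e) = 0) :
    IsNilpotent (e * y - y * e) := by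
  set N : R := e * y - y * e with hN
  let δ : R → R := fun x => e * x - x * e
  have hmul : ∀ x z, δ (x * z) = δ x * z + x * δ z := by
    intro x z
    simp only [δ]
    noncomm_ring
  have hy : δ y = N := rfl
  have hNe : δ N = 0 := by
    simp only [δ]
    have h := hc
    have h2 : e * N - N * e = -(N * e - e * N) := by abel
    rw [h2, hc, neg_zero]
  have hsmul : ∀ (k : ℕ) (x : R), δ ((k : ℂ) • x) = (k : ℂ) • δ x := by
    intro k x
    simp only [δ, mul_smul_comm, smul_mul_assoc, smul_sub]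
  have hadd : ∀ x z, δ (x + z) = δ x + δ z := by
    intro x z
    simp only [δ]
    noncomm_ring
  have hzero : δ 0 = 0 := by simp only [δ, mul_zero, zero_mul, sub_zero]
  have hNpow : ∀ k, δ (N ^ k) = 0 := by
    intro k
    induction k with
    | zero => simp only [δ, pow_zero, mul_one, one_mul, sub_self]
    | succ k ih => rw [pow_succ, hmul, ih, hNe, zero_mul, mul_zero, add_zero]
  have hleib : ∀ (k : ℕ) (z : R),
      δ^[k + 1] (y * z) = y * δ^[k + 1] z + ((k + 1 : ℕ) : ℂ) • (N * δ^[k] z) := by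
    intro k z
    induction k with
    | zero =>
      rw [zero_add, Function.iterate_one, Function.iterate_zero, id_eq, hmul, hy, Nat.cast_one, one_smul]
      abel
    | succ k ih =>
      rw [Function.iterate_succ_apply' δ (k + 1) (y * z), ih, hadd, hmul, hy, hsmul, hmul, hNe,
        zero_mul, zero_add, ← Function.iterate_succ_apply' δ (k + 1) z,
        ← Function.iterate_succ_apply' δ k z]
      push_cast
      rw [add_smul (k + 1 : ℂ) 1, one_smul]
      abel
  have hmain : ∀ m : ℕ, δ^[m] (y ^ m) = ((m.factorial : ℕ) : ℂ) • N ^ m := by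
    intro m
    induction m with
    | zero => simp
    | succ m ih =>
      rw [pow_succ' y m, hleib, Function.iterate_succ_apply' δ m, ih, hsmul, hNpow, smul_zero,
        mul_zero, zero_add, mul_smul_comm, smul_smul, ← pow_succ', Nat.factorial_succ]
      push_cast
      ring_nf
  have hl : IsNilpotent (LinearMap.mulLeft ℂ e) := by rwa [LinearMap.isNilpotent_mulLeft_iff]
  have hr : IsNilpotent (LinearMap.mulRight ℂ e) := by rwa [LinearMap.isNilpotent_mulRight_iff]
  obtain ⟨k, hk⟩ := (LinearMap.commute_mulLeft_right (R := ℂ) e e).isNilpotent_sub hl hr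
  have hδ : ∀ (j : ℕ) (x : R),
      δ^[j] x = ((LinearMap.mulLeft ℂ e - LinearMap.mulRight ℂ e) ^ j) x := by
    intro j
    induction j with
    | zero => intro x; simp
    | succ j ih =>
      intro x
      rw [Function.iterate_succ_apply', ih, pow_succ', Module.End.mul_apply, LinearMap.sub_apply,
        LinearMap.mulLeft_apply, LinearMap.mulRight_apply]
  refine ⟨k, ?_⟩
  have h1 := hmain k
  rw [hδ, hk, LinearMap.zero_apply] at h1
  have h2 : ((k.factorial : ℕ) : ℂ) ≠ 0 := by exact_mod_cast k.factorial_ne_zero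
  exact (smul_eq_zero.mp h1.symm).resolve_left h2

private theorem herm_nil {A : E →L[ℂ] E} (hA : Herm A) (hn : IsNilpotent A) : A = 0 := by
  obtain ⟨k, hk⟩ := hn
  have h1 : ∀ (j : ℕ) (x : E), (A ^ (j + 1)) x = 0 → A x = 0 := by
    intro j
    induction j with
    | zero => intro x hx; simpa using hx
    | succ j ih =>
      intro x hx
      apply ih
      rw [pow_succ', mul_apply_eq_comp, pow_succ', mul_apply_eq_comp] at hx
      rw [pow_succ', mul_apply_eq_comp]
      exact herm_sq_ker hA hx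
  ext x
  have h2 : (A ^ (k + 1)) x = 0 := by
    rw [pow_succ, hk, zero_mul]
    rfl
  rw [h1 k x h2]
  rfl

theorem orth_trip (hh : HLie 𝔥) (he : Pr 𝔥 e e') (hf : Pr 𝔥 f f')
    (h1 : lie (lie e e') e = (2 : ℂ) • e) (h2 : lie (lie f f') f = (2 : ℂ) • f)
    (k1 : lie (lie e f') e = 0) (k2 : lie (lie e f') f = 0) (k3 : lie (lie f e') e = 0)
    (k4 : lie (lie f e') f = 0) : lie e f' = 0 ∧ lie f e' = 0 := by
  have hN : Pr 𝔥 (lie e f') (lie f e') := Pr.lie hh he (Pr.symm hh hf)
  -- nilpotent
  have nil : ∀ {S w : E →L[ℂ] E}, lie S w = (2 : ℂ) • w → IsNilpotent w := by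
    intro S w h
    obtain ⟨n, hn⟩ := pow_eq_zero_of_ad (S := S) (w := w) (c := 2) two_ne_zero h
    exact ⟨n, hn⟩
  have ne : IsNilpotent e := nil h1
  have nf : IsNilpotent f := nil h2
  have nN : IsNilpotent (lie e f') := jacobson ne k1
  have nN' : IsNilpotent (lie f e') := jacobson nf k4
  -- commute
  have c1 : lie e' (lie e f') = 0 := by
    have h := Pr.lie hh (Pr.symm hh hN) he
    rw [k3] at h
    exact Pr.unique hh h (Pr.zero hh)
  have hcf : Commute (lie e f') f := sub_eq_zero.mp k2
  have hce : Commute (lie e f') e' := (sub_eq_zero.mp c1 : Commute e' (lie e f')).symm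
  have hc : Commute (lie e f') (lie f e') :=
    (hcf.mul_right hce).sub_right (hce.mul_right hcf)
  have s1 : lie e f' + lie f e' = 0 :=
    herm_nil (hh.herm _ (Pr.add_mem hh hN)) (hc.isNilpotent_add nN nN')
  have hI := Pr.smul hh hN Complex.I
  have hI2 := Pr.add_mem hh hI
  have e1 : Complex.I • lie e f' + (starRingEnd ℂ Complex.I) • lie f e' =
      Complex.I • (lie e f' - lie f e') := by
    rw [Complex.conj_I, neg_smul, smul_sub, sub_eq_add_neg]
  rw [e1] at hI2
  have s2 : Complex.I • (lie e f' - lie f e') = 0 := by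
    refine herm_nil (hh.herm _ hI2) ?_
    have h := hc.isNilpotent_sub nN nN'
    obtain ⟨k, hk⟩ := h
    exact ⟨k, by rw [smul_pow, hk, smul_zero]⟩
  have s3 : lie e f' - lie f e' = 0 := (smul_eq_zero.mp s2).resolve_left Complex.I_ne_zero
  have s4 : lie e f' = lie f e' := sub_eq_zero.mp s3
  have s5 : (2 : ℂ) • lie e f' = 0 := by
    rw [two_smul]
    nth_rewrite 2 [s4]
    exact s1
  have s6 : lie e f' = 0 := (smul_eq_zero.mp s5).resolve_left two_ne_zero
  exact ⟨s6, s4 ▸ s6⟩

end Pool.Agent.Helper61.HP
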