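import Pool.Agent.Helper61.RO.Hess

/-!
# RO-48  The commutators span the tangent directions in the kernel

PROOF. Constants: `C` (`sur`), `C₁` (`hess_le`), `c₁` (`hess_ge`), `c₂` (`sur_star`), all valid for all unit vectors of `K = ker D`. `M = C / √c₁ + 1`. `x` a unit vector of `K`, `B u v = - dj x (u (v x))` (symmetric, `0 ≤ B u u ≤ ‖u‖²`).
By homogeneity let `‖ψ‖ = 1` (the case `ψ = 0` is trivial: `u = v = 0`). Suppose `|ψ (u (v x)) - ψ (v (u x))| < c₀` for all `u, v ∈ Lo D` of norm `≤ 1`; `0 < c₀ ≤ 1` to be chosen. Then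
`|ψ (u (v x)) - ψ (v (u x))| ≤ c₀ ‖u‖ ‖v‖` for all `u, v ∈ Lo D`.
(1) `𝓤 = {u ∈ Lo D | B u u = 1, ‖u‖ ≤ M}` is not empty: there is `f ≠ 0` in the block (`D ≠ 0`), `u x = f`, `‖u‖ ≤ C ‖f‖` (`sur`), `B u u ≥ c₁ ‖f‖² > 0`; divide `u` by `√(B u u)`: the norm becomes
`≤ C ‖f‖ / (√c₁ ‖f‖) ≤ M`. `λ = sup {- ψ (u (u x)) | u ∈ 𝓤}`, `|λ| ≤ M²`. Choose `u ∈ 𝓤` with `- ψ (u (u x)) ≥ λ - c₀`.
(2) For `w ∈ Lo D`, `‖w‖ ≤ M + 1`: `- ψ (w (w x)) ≤ λ B w w + (M + 1)³ c₀`. Let `β = B w w`. If `w x = 0` both sides are clear (`β = 0`). Otherwise `β ≥ c₁ ‖w x‖² > 0`; `w₁ ∈ Lo D`, `w₁ x = w x`,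
`‖w₁‖ ≤ C ‖w x‖ ≤ (C / √c₁) √β ≤ M √β`, `B w₁ w₁ = B w w` (`(w - w₁) x = 0`, so `dj x ((w - w₁) z) = 0`), `w₁ / √β ∈ 𝓤`, so `- ψ (w₁ (w₁ x)) ≤ λ β`. `z = w - w₁`: `ψ (w (w x)) - ψ (w₁ (w₁ x)) = ψ (z (w x)) =
ψ (z (w x)) - ψ (w (z x))`, absolute value `≤ c₀ ‖z‖ ‖w‖ ≤ c₀ (M + 1 + M (M + 1)) (M + 1) = c₀ (M + 1)³` (`√β ≤ ‖w‖ ≤ M + 1`).
(3) `v ∈ Lo D`, `‖v‖ ≤ 1`, `|s| ≤ 1`, `w = u + s v` in (2), expand: `- s (ψ (u (v x)) + ψ (v (u x)) + 2 λ B u v) ≤ c₀ + (M + 1)³ c₀ + s² (1 + M²)` (`|ψ (v (v x))| ≤ 1`, `λ B v v ≤ M²`). `s = ± √c₀`: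
`|ψ (u (v x)) + ψ (v (u x)) + 2 λ B u v| ≤ C₃ √c₀`, `C₃ = 1 + (M + 1)³ + 1 + M²`. So `|ψ (u (v x)) + λ B u v| ≤ C₃ √c₀ + M c₀ ≤ (C₃ + M) √c₀`.
(4) `ψ' = ψ - λ dj x`. `|ψ' (v (u x))| ≤ |ψ (v (u x)) - ψ (u (v x))| + |ψ (u (v x)) - λ dj x (u (v x))| ≤ (C₃ + 2 M) √c₀` (`hess_symm`). `ψ' (D z) = 0` (`Sk.dj_ker`), `ψ' x = - λ`, so `‖ψ'‖ ≥ |λ|` and
`‖ψ'‖ ≥ 1 - |λ|`: `‖ψ'‖ ≥ 1/2`. `ψ' = ‖ψ'‖ • dj r`, `‖r‖ = 1` (`dj_surj`), `D r = 0` (`dj_ker_of`). `f₀ = u x`: `1 = B u u ≤ C₁ ‖f₀‖²`. `sur_star` at `r`: `v ∈ Lo D`, `‖v‖ ≤ 1`, `c₂ ‖f₀‖ ≤ dj r (v f₀)`, so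
`(1/2) c₂ / √C₁ ≤ ψ' (v f₀) ≤ (C₃ + 2 M) √c₀`. Contradiction if `c₀` is small enough.
-/

set_option autoImplicit false

open Filter Topology

namespace Pool.Agent.Helper61.RO

universe u

variable {E : Type u} [NormedAddCommGroup E] [NormedSpace ℝ E] [CompleteSpace E]
  [TopologicalSpace.SeparableSpace E] {D : E →L[ℝ] E}

omit [TopologicalSpace.SeparableSpace E] in
private theorem pen_scale {x : E} {ψ : StrongDual ℝ E} {c₀ : ℝ}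
    (h : ∀ u ∈ Lo D, ∀ v ∈ Lo D, ‖u‖ ≤ 1 → ‖v‖ ≤ 1 → |ψ (u (v x)) - ψ (v (u x))| ≤ c₀)
    {u v : E →L[ℝ] E} (hu : u ∈ Lo D) (hv : v ∈ Lo D) :
    |ψ (u (v x)) - ψ (v (u x))| ≤ c₀ * ‖u‖ * ‖v‖ := by
  by_cases hu0 : u = 0
  · simp [hu0]
  by_cases hv0 : v = 0
  · simp [hv0]
  have hun : 0 < ‖u‖ := norm_pos_iff.2 hu0
  have hvn : 0 < ‖v‖ := norm_pos_iff.2 hv0
  have h1 := h (‖u‖⁻¹ • u) (lo_smul hu _) (‖v‖⁻¹ • v) (lo_smul hv _)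
    (by rw [norm_smul, norm_inv, norm_norm, inv_mul_cancel₀ hun.ne'])
    (by rw [norm_smul, norm_inv, norm_norm, inv_mul_cancel₀ hvn.ne'])
  have h2 : ψ ((‖u‖⁻¹ • u) ((‖v‖⁻¹ • v) x)) - ψ ((‖v‖⁻¹ • v) ((‖u‖⁻¹ • u) x)) =
      (‖u‖⁻¹ * ‖v‖⁻¹) * (ψ (u (v x)) - ψ (v (u x))) := by
    simp only [smul_apply, map_smul, smul_eq_mul]
    ring
  rw [h2, abs_mul, abs_of_pos (mul_pos (inv_pos.2 hun) (inv_pos.2 hvn))] at h1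
  have h3 : |ψ (u (v x)) - ψ (v (u x))| =
      (‖u‖ * ‖v‖) * (‖u‖⁻¹ * ‖v‖⁻¹ * |ψ (u (v x)) - ψ (v (u x))|) := by
    field_simp
  rw [h3]
  have h4 := mul_le_mul_of_nonneg_left h1 (mul_pos hun hvn).le
  calc ‖u‖ * ‖v‖ * (‖u‖⁻¹ * ‖v‖⁻¹ * |ψ (u (v x)) - ψ (v (u x))|) ≤ ‖u‖ * ‖v‖ * c₀ := h4
    _ = c₀ * ‖u‖ * ‖v‖ := by ring

omit [TopologicalSpace.SeparableSpace E] in
/-- step (2) -/
private theorem pen_two (hN : RNice E) (hD : Cub3 D) {C c₁ M c₀ lam : ℝ} (hC : 0 < C) (hc₁ : 0 < c₁)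
    (hM : M = C / Real.sqrt c₁ + 1) (hc₀ : 0 ≤ c₀) {x : E} (hx : ‖x‖ = 1) (hDx : D x = 0)
    (hsur : ∀ f, D (D f) = -f → ∃ u ∈ Lo D, u x = f ∧ ‖u‖ ≤ C * ‖f‖)
    (hge : ∀ u ∈ Lo D, c₁ * ‖u x‖ ^ 2 ≤ -dj x (u (u x)))
    {ψ : StrongDual ℝ E}
    (hsm : ∀ u ∈ Lo D, ∀ v ∈ Lo D, |ψ (u (v x)) - ψ (v (u x))| ≤ c₀ * ‖u‖ * ‖v‖)
    (hlam : ∀ u ∈ Lo D, -dj x (u (u x)) = 1 → ‖u‖ ≤ M → -ψ (u (u x)) ≤ lam)
    {w : E →L[ℝ] E} (hw : w ∈ Lo D) (hwn : ‖w‖ ≤ M + 1) :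
    -ψ (w (w x)) ≤ lam * (-dj x (w (w x))) + (M + 1) ^ 3 * c₀ := by
  have hs0 : 0 < Real.sqrt c₁ := Real.sqrt_pos.2 hc₁
  have hM1 : 1 ≤ M := by
    rw [hM]
    have := div_pos hC hs0
    linarith
  have hx0 : x ≠ 0 := norm_ne_zero_iff.1 (by rw [hx]; exact one_ne_zero)
  by_cases hwx : w x = 0
  · rw [hwx]
    simp only [map_zero, neg_zero, mul_zero, zero_add]
    positivity
  have hwx0 : 0 < ‖w x‖ := norm_pos_iff.2 hwx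
  obtain ⟨β, hβ⟩ : ∃ β : ℝ, β = -dj x (w (w x)) := ⟨_, rfl⟩
  have hge' := hge w hw
  rw [← hβ] at hge'
  have hβ0 : 0 < β := lt_of_lt_of_le (by positivity) hge'
  have hsβ : 0 < Real.sqrt β := Real.sqrt_pos.2 hβ0
  have hsβ2 : Real.sqrt β * Real.sqrt β = β := Real.mul_self_sqrt hβ0.le
  obtain ⟨w₁, hw₁, hw₁x, hw₁n⟩ := hsur (w x) (lo_ker_map hD hw hDx)
  have h1 : Real.sqrt c₁ * ‖w x‖ ≤ Real.sqrt β := by
    have h2 := Real.sqrt_le_sqrt hge'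
    rwa [Real.sqrt_mul hc₁.le, Real.sqrt_sq hwx0.le] at h2
  have h2 : C * ‖w x‖ ≤ M * Real.sqrt β := by
    have h3 : C * ‖w x‖ = C / Real.sqrt c₁ * (Real.sqrt c₁ * ‖w x‖) := by
      field_simp
    have h4 : C / Real.sqrt c₁ * (Real.sqrt c₁ * ‖w x‖) ≤ C / Real.sqrt c₁ * Real.sqrt β :=
      mul_le_mul_of_nonneg_left h1 (div_pos hC hs0).le
    rw [h3, hM]
    nlinarith
  have hw₁n' : ‖w₁‖ ≤ M * Real.sqrt β := hw₁n.trans h2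
  have hz : w - w₁ ∈ Lo D := lo_sub hw hw₁
  have hzx : (w - w₁) x = 0 := by rw [sub_apply, hw₁x, sub_self]
  have hB : -dj x (w₁ (w₁ x)) = β := by
    have h3 := hz.1.dj_ker hN hx0 hzx (w x)
    rw [sub_apply, map_sub] at h3
    rw [hw₁x, hβ]
    linarith
  have h3 : -dj x (((Real.sqrt β)⁻¹ • w₁) (((Real.sqrt β)⁻¹ • w₁) x)) = 1 := by
    have h4 : -dj x (((Real.sqrt β)⁻¹ • w₁) (((Real.sqrt β)⁻¹ • w₁) x)) =
        (Real.sqrt β)⁻¹ * (Real.sqrt β)⁻¹ * (-dj x (w₁ (w₁ x))) := by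
      simp only [smul_apply, map_smul, smul_eq_mul]
      ring
    rw [h4, hB, ← mul_inv, hsβ2, inv_mul_cancel₀ hβ0.ne']
  have h4 : ‖(Real.sqrt β)⁻¹ • w₁‖ ≤ M := by
    rw [norm_smul, norm_inv, Real.norm_eq_abs, abs_of_pos hsβ, inv_mul_le_iff₀ hsβ]
    linarith
  have h5 := hlam _ (lo_smul hw₁ _) h3 h4
  have h6 : -ψ (w₁ (w₁ x)) ≤ lam * β := by
    have h7 : -ψ (((Real.sqrt β)⁻¹ • w₁) (((Real.sqrt β)⁻¹ • w₁) x)) =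
        (Real.sqrt β)⁻¹ * (Real.sqrt β)⁻¹ * (-ψ (w₁ (w₁ x))) := by
      simp only [smul_apply, map_smul, smul_eq_mul]
      ring
    rw [h7, ← mul_inv, hsβ2, inv_mul_le_iff₀ hβ0] at h5
    linarith
  have hβle : Real.sqrt β ≤ M + 1 := by
    have h7 : β ≤ ‖w‖ ^ 2 := by
      rw [hβ]
      have h8 := (abs_le.1 (dj_le x (w (w x)))).1
      have h9 := w.le_opNorm (w x)
      have h10 := w.le_opNorm x
      rw [hx, mul_one] at h10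
      have h11 : ‖w‖ * ‖w x‖ ≤ ‖w‖ * ‖w‖ := mul_le_mul_of_nonneg_left h10 (norm_nonneg _)
      nlinarith
    have h8 : Real.sqrt β ≤ ‖w‖ := by
      have h9 := Real.sqrt_le_sqrt h7
      rwa [Real.sqrt_sq (norm_nonneg _)] at h9
    exact h8.trans hwn
  have h7 := hsm _ hz _ hw
  rw [hzx, map_zero, map_zero, sub_zero, sub_apply, map_sub, ← hw₁x, hw₁x] at h7
  have h8 : ‖w - w₁‖ ≤ (M + 1) * (M + 1) := by
    have h9 := norm_sub_le w w₁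
    have h10 : M * Real.sqrt β ≤ M * (M + 1) := mul_le_mul_of_nonneg_left hβle (by linarith)
    nlinarith
  have h9 : c₀ * ‖w - w₁‖ * ‖w‖ ≤ (M + 1) ^ 3 * c₀ := by
    have h10 : ‖w - w₁‖ * ‖w‖ ≤ (M + 1) * (M + 1) * (M + 1) :=
      mul_le_mul h8 hwn (norm_nonneg _) (by positivity)
    have h11 := mul_le_mul_of_nonneg_left h10 hc₀
    calc c₀ * ‖w - w₁‖ * ‖w‖ = c₀ * (‖w - w₁‖ * ‖w‖) := by ring
      _ ≤ c₀ * ((M + 1) * (M + 1) * (M + 1)) := h11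
      _ = (M + 1) ^ 3 * c₀ := by ring
  have h10 := (abs_le.1 (h7.trans h9)).1
  rw [hw₁x] at h6
  rw [← hβ]
  linarith

omit [TopologicalSpace.SeparableSpace E] in
/-- step (3) -/
private theorem pen_three {M c₀ lam s : ℝ} (hM1 : 1 ≤ M) (hs : 0 < s) (hs1 : s ≤ 1)
    (hc₀ : c₀ = s ^ 2) {x : E} (hx : ‖x‖ = 1) {ψ : StrongDual ℝ E} (hψ : ‖ψ‖ = 1)
    (hsm : ∀ u ∈ Lo D, ∀ v ∈ Lo D, |ψ (u (v x)) - ψ (v (u x))| ≤ c₀ * ‖u‖ * ‖v‖)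
    (hlamM : |lam| ≤ M ^ 2)
    (htwo : ∀ w ∈ Lo D, ‖w‖ ≤ M + 1 →
      -ψ (w (w x)) ≤ lam * (-dj x (w (w x))) + (M + 1) ^ 3 * c₀)
    {u : E →L[ℝ] E} (hu : u ∈ Lo D) (hun : ‖u‖ ≤ M) (hBu : -dj x (u (u x)) = 1)
    (hul : lam - c₀ ≤ -ψ (u (u x))) {v : E →L[ℝ] E} (hv : v ∈ Lo D) (hvn : ‖v‖ ≤ 1) :
    |ψ (v (u x)) - lam * dj x (v (u x))| ≤ (3 + (M + 1) ^ 3 + M ^ 2 + M) * s := by
  have hsym : dj x (u (v x)) = dj x (v (u x)) := hess_symm hu.1 hv.1 x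
  have hdv : |dj x (v (v x))| ≤ 1 := by
    have h1 := dj_le x (v (v x))
    have h2 := v.le_opNorm (v x)
    have h3 := v.le_opNorm x
    rw [hx, mul_one] at h3
    have h4 : ‖v‖ * ‖v x‖ ≤ 1 * 1 := mul_le_mul hvn (h3.trans hvn) (norm_nonneg _) zero_le_one
    linarith
  have hpv : |ψ (v (v x))| ≤ 1 := by
    have h1 := ψ.le_opNorm (v (v x))
    rw [hψ, one_mul, Real.norm_eq_abs] at h1
    have h2 := v.le_opNorm (v x)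
    have h3 := v.le_opNorm x
    rw [hx, mul_one] at h3
    have h4 : ‖v‖ * ‖v x‖ ≤ 1 * 1 := mul_le_mul hvn (h3.trans hvn) (norm_nonneg _) zero_le_one
    linarith
  have key : ∀ t : ℝ, |t| ≤ 1 → t ^ 2 = c₀ →
      -t * (ψ (u (v x)) + ψ (v (u x)) - 2 * lam * dj x (v (u x))) ≤
        (2 + (M + 1) ^ 3 + M ^ 2) * c₀ := by
    intro t ht ht2
    have hw : u + t • v ∈ Lo D := lo_add hu (lo_smul hv t)
    have hwn : ‖u + t • v‖ ≤ M + 1 := by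
      have h1 := norm_add_le u (t • v)
      rw [norm_smul, Real.norm_eq_abs] at h1
      have h2 : |t| * ‖v‖ ≤ 1 * 1 := mul_le_mul ht hvn (norm_nonneg _) zero_le_one
      linarith
    have h1 := htwo _ hw hwn
    have e1 : ∀ φ : StrongDual ℝ E, φ ((u + t • v) ((u + t • v) x)) =
        φ (u (u x)) + t * (φ (u (v x)) + φ (v (u x))) + t ^ 2 * φ (v (v x)) := by
      intro φ
      simp only [add_apply, smul_apply, map_add, map_smul, smul_eq_mul]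
      ring
    rw [e1 ψ, e1 (dj x), hsym, ht2] at h1
    have h2 : c₀ * ψ (v (v x)) ≤ c₀ * 1 :=
      mul_le_mul_of_nonneg_left (abs_le.1 hpv).2 (by rw [hc₀]; positivity)
    have h3 : lam * (-(c₀ * dj x (v (v x)))) ≤ M ^ 2 * c₀ := by
      have h4 : |lam * (-(c₀ * dj x (v (v x))))| ≤ M ^ 2 * (c₀ * 1) := by
        have hc : 0 ≤ c₀ := by rw [hc₀]; positivity
        rw [abs_mul, abs_neg, abs_mul, abs_of_nonneg hc]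
        exact mul_le_mul hlamM (mul_le_mul_of_nonneg_left hdv hc)
          (mul_nonneg hc (abs_nonneg _)) (by positivity)
      have h5 := (le_abs_self _).trans h4
      linarith
    have h6 : lam * (-dj x (u (u x))) = lam := by rw [hBu, mul_one]
    nlinarith
  have hkey : |ψ (u (v x)) + ψ (v (u x)) - 2 * lam * dj x (v (u x))| ≤
      (2 + (M + 1) ^ 3 + M ^ 2) * s := by
    have h1 := key s (by rw [abs_of_pos hs]; exact hs1) hc₀.symm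
    have h2 := key (-s) (by rw [abs_neg, abs_of_pos hs]; exact hs1) (by rw [hc₀]; ring)
    rw [hc₀] at h1 h2
    rw [abs_le]
    constructor
    · have h3 : s * (-(ψ (u (v x)) + ψ (v (u x)) - 2 * lam * dj x (v (u x)))) ≤
          s * ((2 + (M + 1) ^ 3 + M ^ 2) * s) := by nlinarith
      have h4 := le_of_mul_le_mul_left h3 hs
      linarith
    · have h3 : s * ((ψ (u (v x)) + ψ (v (u x)) - 2 * lam * dj x (v (u x)))) ≤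
          s * ((2 + (M + 1) ^ 3 + M ^ 2) * s) := by nlinarith
      exact le_of_mul_le_mul_left h3 hs
  have h1 := hsm u hu v hv
  have h2 : c₀ * ‖u‖ * ‖v‖ ≤ M * s := by
    have h3 : ‖u‖ * ‖v‖ ≤ M * 1 := mul_le_mul hun hvn (norm_nonneg _) (by linarith)
    have h4 : c₀ ≤ s := by rw [hc₀]; nlinarith
    have h5 : c₀ * (‖u‖ * ‖v‖) ≤ s * (M * 1) :=
      mul_le_mul h4 h3 (mul_nonneg (norm_nonneg _) (norm_nonneg _)) hs.le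
    linarith
  have h3 := abs_le.1 (h1.trans h2)
  have h4 := abs_le.1 hkey
  have h5 : 0 ≤ (M + 1) ^ 3 * s := by positivity
  have h6 : 0 ≤ M ^ 2 * s := by positivity
  have h7 : 0 ≤ M * s := by positivity
  rw [abs_le]
  constructor <;> nlinarith

omit [TopologicalSpace.SeparableSpace E] in
/-- step (4) -/
private theorem pen_four (hN : RNice E) (hD : Cub3 D) {C₁ c₂ lam κ : ℝ} (hC₁ : 0 < C₁)
    (hc₂ : 0 < c₂) {x : E} (hx : ‖x‖ = 1) (hDx : D x = 0)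
    (hle : ∀ u ∈ Lo D, ∀ v ∈ Lo D, |dj x (u (v x))| ≤ C₁ * ‖u x‖ * ‖v x‖)
    (hstar : ∀ r, ‖r‖ = 1 → D r = 0 → ∀ f, D (D f) = -f →
        ∃ v ∈ Lo D, ‖v‖ ≤ 1 ∧ c₂ * ‖f‖ ≤ dj r (v f))
    {ψ : StrongDual ℝ E} (hψ : ‖ψ‖ = 1) (hψD : ∀ z, ψ (D z) = 0) (hψx : ψ x = 0)
    {u : E →L[ℝ] E} (hu : u ∈ Lo D) (hBu : -dj x (u (u x)) = 1)
    (hthree : ∀ v ∈ Lo D, ‖v‖ ≤ 1 → |ψ (v (u x)) - lam * dj x (v (u x))| ≤ κ) :
    c₂ / (2 * Real.sqrt C₁) ≤ κ := by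
  have hx0 : x ≠ 0 := norm_ne_zero_iff.1 (by rw [hx]; exact one_ne_zero)
  obtain ⟨ψ', hψ'⟩ : ∃ ψ' : StrongDual ℝ E, ψ' = ψ - lam • dj x := ⟨_, rfl⟩
  have hap : ∀ z, ψ' z = ψ z - lam * dj x z := by
    intro z
    rw [hψ', sub_apply, smul_apply, smul_eq_mul]
  have h1 : |lam| ≤ ‖ψ'‖ := by
    have h2 := ψ'.le_opNorm x
    rw [hap, hψx, dj_self, hx, mul_one, mul_one, zero_sub, norm_neg, Real.norm_eq_abs] at h2
    exact h2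
  have h2 : (1 : ℝ) / 2 ≤ ‖ψ'‖ := by
    have h3 : ψ = ψ' + lam • dj x := by rw [hψ']; abel
    have h4 := norm_add_le ψ' (lam • dj x)
    rw [← h3, hψ, norm_smul, Real.norm_eq_abs] at h4
    have h5 : |lam| * ‖dj x‖ ≤ |lam| * 1 :=
      mul_le_mul_of_nonneg_left (norm_dj_le x) (abs_nonneg _)
    linarith
  have h3 : ψ' ≠ 0 := by
    intro h
    rw [h, norm_zero] at h2
    linarith
  obtain ⟨r, hr, hr'⟩ := dj_surj hN h3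
  have hn0 : 0 < ‖ψ'‖ := norm_pos_iff.2 h3
  have hψr : ∀ z, ψ' z = ‖ψ'‖ * dj r z := by
    intro z
    have h4 : ψ' z = (‖ψ'‖ • dj r) z := by rw [← hr']
    rw [h4, smul_apply, smul_eq_mul]
  have hDr : D r = 0 := by
    refine dj_ker_of hN hD.sk hr fun z => ?_
    have h4 : ψ' (D z) = 0 := by
      rw [hap, hψD, hD.sk.dj_ker hN hx0 hDx z, mul_zero, sub_zero]
    rw [hψr] at h4
    rcases mul_eq_zero.1 h4 with h5 | h5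
    · exact absurd h5 hn0.ne'
    · exact h5
  obtain ⟨v, hv, hvn, hvf⟩ := hstar r hr hDr (u x) (lo_ker_map hD hu hDx)
  have h4 := hthree v hv hvn
  rw [← hap, hψr] at h4
  have h5 : 1 ≤ C₁ * ‖u x‖ * ‖u x‖ := by
    have h6 := (abs_le.1 (hle u hu u hu)).1
    linarith
  have hs1 : 0 < Real.sqrt C₁ := Real.sqrt_pos.2 hC₁
  have hs2 : Real.sqrt C₁ * Real.sqrt C₁ = C₁ := Real.mul_self_sqrt hC₁.le
  have h6 : 1 ≤ Real.sqrt C₁ * ‖u x‖ := by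
    have h7 : (1 : ℝ) ^ 2 ≤ (Real.sqrt C₁ * ‖u x‖) ^ 2 := by
      calc (1 : ℝ) ^ 2 = 1 := one_pow 2
        _ ≤ C₁ * ‖u x‖ * ‖u x‖ := h5
        _ = (Real.sqrt C₁ * Real.sqrt C₁) * ‖u x‖ * ‖u x‖ := by rw [hs2]
        _ = (Real.sqrt C₁ * ‖u x‖) ^ 2 := by ring
    exact le_of_sq_le_sq h7 (by positivity)
  have h7 : c₂ / Real.sqrt C₁ ≤ c₂ * ‖u x‖ := by
    rw [div_le_iff₀ hs1]
    nlinarith
  have h8 : 1 / 2 * (c₂ / Real.sqrt C₁) ≤ ‖ψ'‖ * dj r (v (u x)) :=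
    mul_le_mul h2 (h7.trans hvf) (div_pos hc₂ hs1).le hn0.le
  have h9 : c₂ / (2 * Real.sqrt C₁) = 1 / 2 * (c₂ / Real.sqrt C₁) := by
    field_simp
  rw [h9]
  exact h8.trans ((le_abs_self _).trans h4)

theorem pencil (hN : RNice E) (htr : RTrans E) (hD : Cub3 D) (hR : Rig D)
    (hK : ∃ x, D x = 0 ∧ x ≠ 0) :
    ∃ c₀ : ℝ, 0 < c₀ ∧ ∀ x, ‖x‖ = 1 → D x = 0 → ∀ ψ : StrongDual ℝ E, (∀ z, ψ (D z) = 0) →
      ψ x = 0 → ∃ u ∈ Lo D, ∃ v ∈ Lo D, ‖u‖ ≤ 1 ∧ ‖v‖ ≤ 1 ∧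
        c₀ * ‖ψ‖ ≤ |ψ (u (v x)) - ψ (v (u x))| := by
  obtain ⟨C, hC, hsur⟩ := sur hN htr hD hR hK
  obtain ⟨C₁, hC₁, hle⟩ := hess_le hN htr hD hR hK
  obtain ⟨c₁, hc₁, hge⟩ := hess_ge hN htr hD hR hK
  obtain ⟨c₂, hc₂, hstar⟩ := sur_star hN htr hD hR hK
  obtain ⟨M, hM⟩ : ∃ M : ℝ, M = C / Real.sqrt c₁ + 1 := ⟨_, rfl⟩
  have hs0 : 0 < Real.sqrt c₁ := Real.sqrt_pos.2 hc₁
  have hS1 : 0 < Real.sqrt C₁ := Real.sqrt_pos.2 hC₁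
  have hM1 : 1 ≤ M := by
    rw [hM]
    have := div_pos hC hs0
    linarith
  obtain ⟨C₃, hC₃⟩ : ∃ C₃ : ℝ, C₃ = 3 + (M + 1) ^ 3 + M ^ 2 + M := ⟨_, rfl⟩
  have hC₃0 : 0 < C₃ := by rw [hC₃]; positivity
  obtain ⟨κ, hκ⟩ : ∃ κ : ℝ, κ = c₂ / (2 * Real.sqrt C₁) / (2 * C₃) := ⟨_, rfl⟩
  have hκ0 : 0 < κ := by rw [hκ]; positivity
  obtain ⟨s, hs⟩ : ∃ s : ℝ, s = min 1 κ := ⟨_, rfl⟩
  have hspos : 0 < s := by rw [hs]; exact lt_min one_pos hκ0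
  have hsle1 : s ≤ 1 := by rw [hs]; exact min_le_left _ _
  have hsleκ : s ≤ κ := by rw [hs]; exact min_le_right _ _
  -- a vector of the block
  obtain ⟨f, hf, hf0⟩ : ∃ f : E, D (D f) = -f ∧ f ≠ 0 := by
    by_contra hc
    push Not at hc
    refine hD.ne (ContinuousLinearMap.ext fun z => ?_)
    rw [zero_apply]
    refine hc (D z) ?_
    have h1 := congrArg (fun T : E →L[ℝ] E => T z) hD.cube
    exact h1
  refine ⟨s ^ 2, by positivity, fun x hx hDx ψ hψD hψx => ?_⟩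
  have hx0 : x ≠ 0 := norm_ne_zero_iff.1 (by rw [hx]; exact one_ne_zero)
  by_contra hcon
  push Not at hcon
  have hψ0 : ψ ≠ 0 := by
    intro h
    have h1 := hcon 0 lo_zero 0 lo_zero (by simp) (by simp)
    rw [h] at h1
    simp at h1
  have hψn : 0 < ‖ψ‖ := norm_pos_iff.2 hψ0
  obtain ⟨φ, hφ⟩ : ∃ φ : StrongDual ℝ E, φ = ‖ψ‖⁻¹ • ψ := ⟨_, rfl⟩
  have hφap : ∀ z, φ z = ‖ψ‖⁻¹ * ψ z := by
    intro z
    rw [hφ, smul_apply, smul_eq_mul]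
  have hφn : ‖φ‖ = 1 := by
    rw [hφ, norm_smul, norm_inv, norm_norm, inv_mul_cancel₀ hψn.ne']
  have hφD : ∀ z, φ (D z) = 0 := by
    intro z
    rw [hφap, hψD, mul_zero]
  have hφx : φ x = 0 := by rw [hφap, hψx, mul_zero]
  have hsm0 : ∀ u ∈ Lo D, ∀ v ∈ Lo D, ‖u‖ ≤ 1 → ‖v‖ ≤ 1 →
      |φ (u (v x)) - φ (v (u x))| ≤ s ^ 2 := by
    intro u hu v hv hun hvn
    have h1 := (hcon u hu v hv hun hvn).le
    rw [hφap, hφap, ← mul_sub, abs_mul, abs_of_pos (inv_pos.2 hψn), inv_mul_le_iff₀ hψn]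
    linarith
  have hsm : ∀ u ∈ Lo D, ∀ v ∈ Lo D, |φ (u (v x)) - φ (v (u x))| ≤ s ^ 2 * ‖u‖ * ‖v‖ :=
    fun u hu v hv => pen_scale hsm0 hu hv
  -- the set of values
  obtain ⟨S, hS⟩ : ∃ S : Set ℝ, S = {a : ℝ | ∃ u ∈ Lo D, -dj x (u (u x)) = 1 ∧ ‖u‖ ≤ M ∧
      a = -φ (u (u x))} := ⟨_, rfl⟩
  have hbd : ∀ a ∈ S, |a| ≤ M ^ 2 := by
    intro a ha
    rw [hS] at ha
    obtain ⟨u, hu, _, hun, rfl⟩ := ha
    rw [abs_neg]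
    have h1 := φ.le_opNorm (u (u x))
    rw [hφn, one_mul, Real.norm_eq_abs] at h1
    have h2 := u.le_opNorm (u x)
    have h3 := u.le_opNorm x
    rw [hx, mul_one] at h3
    have h4 : ‖u‖ * ‖u x‖ ≤ M * M := mul_le_mul hun (h3.trans hun) (norm_nonneg _) (by linarith)
    nlinarith
  have hne : S.Nonempty := by
    obtain ⟨u, hu, hux, hun⟩ := hsur x hx hDx f hf
    have hfn : 0 < ‖f‖ := norm_pos_iff.2 hf0
    obtain ⟨β, hβ⟩ : ∃ β : ℝ, β = -dj x (u (u x)) := ⟨_, rfl⟩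
    have h1 := hge x hx hDx u hu
    rw [← hβ, hux] at h1
    have hβ0 : 0 < β := lt_of_lt_of_le (by positivity) h1
    have hsβ : 0 < Real.sqrt β := Real.sqrt_pos.2 hβ0
    have hsβ2 : Real.sqrt β * Real.sqrt β = β := Real.mul_self_sqrt hβ0.le
    have h2 : Real.sqrt c₁ * ‖f‖ ≤ Real.sqrt β := by
      have h2 := Real.sqrt_le_sqrt h1
      rwa [Real.sqrt_mul hc₁.le, Real.sqrt_sq hfn.le] at h2
    have h3 : ‖u‖ ≤ M * Real.sqrt β := by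
      have h3 : C * ‖f‖ = C / Real.sqrt c₁ * (Real.sqrt c₁ * ‖f‖) := by
        field_simp
      have h4 : C / Real.sqrt c₁ * (Real.sqrt c₁ * ‖f‖) ≤ C / Real.sqrt c₁ * Real.sqrt β :=
        mul_le_mul_of_nonneg_left h2 (div_pos hC hs0).le
      rw [hM]
      nlinarith
    refine ⟨-φ (((Real.sqrt β)⁻¹ • u) (((Real.sqrt β)⁻¹ • u) x)), ?_⟩
    rw [hS]
    refine ⟨(Real.sqrt β)⁻¹ • u, lo_smul hu _, ?_, ?_, rfl⟩
    · have h4 : -dj x (((Real.sqrt β)⁻¹ • u) (((Real.sqrt β)⁻¹ • u) x)) =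
          (Real.sqrt β)⁻¹ * (Real.sqrt β)⁻¹ * (-dj x (u (u x))) := by
        simp only [smul_apply, map_smul, smul_eq_mul]
        ring
      rw [h4, ← hβ, ← mul_inv, hsβ2, inv_mul_cancel₀ hβ0.ne']
    · rw [norm_smul, norm_inv, Real.norm_eq_abs, abs_of_pos hsβ, inv_mul_le_iff₀ hsβ]
      linarith
  have hbdd : BddAbove S := ⟨M ^ 2, fun a ha => (le_abs_self a).trans (hbd a ha)⟩
  obtain ⟨lam, hlamdef⟩ : ∃ lam : ℝ, lam = sSup S := ⟨_, rfl⟩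
  have hlamM : |lam| ≤ M ^ 2 := by
    rw [abs_le]
    constructor
    · obtain ⟨a, ha⟩ := hne
      have h1 := le_csSup hbdd ha
      have h2 := (abs_le.1 (hbd a ha)).1
      rw [hlamdef]
      linarith
    · rw [hlamdef]
      exact csSup_le hne fun a ha => (le_abs_self a).trans (hbd a ha)
  have hlam : ∀ u ∈ Lo D, -dj x (u (u x)) = 1 → ‖u‖ ≤ M → -φ (u (u x)) ≤ lam := by
    intro u hu h1 h2
    rw [hlamdef]
    refine le_csSup hbdd ?_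
    rw [hS]
    exact ⟨u, hu, h1, h2, rfl⟩
  obtain ⟨a, haS, hal⟩ := exists_lt_of_lt_csSup hne
    (show lam - s ^ 2 < sSup S by
      rw [← hlamdef]
      have : 0 < s ^ 2 := by positivity
      linarith)
  rw [hS] at haS
  obtain ⟨u, hu, hBu, hun, rfl⟩ := haS
  have htwo : ∀ w ∈ Lo D, ‖w‖ ≤ M + 1 →
      -φ (w (w x)) ≤ lam * (-dj x (w (w x))) + (M + 1) ^ 3 * s ^ 2 := fun w hw hwn =>
    pen_two hN hD hC hc₁ hM (by positivity) hx hDx (hsur x hx hDx) (hge x hx hDx) hsm hlam hw hwn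
  have hthree : ∀ v ∈ Lo D, ‖v‖ ≤ 1 →
      |φ (v (u x)) - lam * dj x (v (u x))| ≤ C₃ * s := fun v hv hvn => by
    rw [hC₃]
    exact pen_three hM1 hspos hsle1 rfl hx hφn hsm hlamM htwo hu hun hBu hal.le hv hvn
  have hfin := pen_four hN hD hC₁ hc₂ hx hDx (hle x hx hDx) hstar hφn hφD hφx hu hBu hthree
  have h1 : C₃ * s ≤ c₂ / (2 * Real.sqrt C₁) / 2 := by
    have h2 : C₃ * s ≤ C₃ * κ := mul_le_mul_of_nonneg_left hsleκ hC₃0.le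
    have h3 : C₃ * κ = c₂ / (2 * Real.sqrt C₁) / 2 := by
      rw [hκ]
      field_simp
    linarith
  have h2 : 0 < c₂ / (2 * Real.sqrt C₁) := by positivity
  linarith

end Pool.Agent.Helper61.RO
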