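import Pool.Agent.Helper61.RO.RSupport

/-!
# RO-15  Good and positive vectors

Real version of `HP/GoodMax.lean` (no phases).
* `rgood_norming`: `K = D D' - D' D` is skew (`Sk.br`), `ρ` is norming for `r`: `ρ (K r) = 0` (`Sk.apply_norming`).
* `rgood_max`: `K = br D D'`, `D, D' ∈ 𝓛 i k`, kills `x` in the block `j` (`kills`); `rx s K * W * rx (-s) K ∈ 𝓛 i j` (`RFrame.conj_mem`), norm `≤ 1`
  (`Sk.norm_conj_le`), `rx (-s) K x = x` (`rx_apply_of_ker`). So `s ↦ ρ (rx s K (W x))` is maximal at `0`; its derivative is `ρ (K (W x)) = 0`.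
* `rpos_max`: `D ∈ 𝓛 i k` kills `x`. `E s = (1/2) (rx s D W rx (-s) D + rx (-s) D W rx s D) ∈ 𝓛 i j` (`even_mem`), norm `≤ 1`,
  `E s x = (1/2) (rx s D + rx (-s) D) (W x) = W x + (s²/2) D D W x + O(s³)` (`rx_taylor_two` for `s`, `- s`). So
  `(s²/2) ρ (D D W x) + O(s³) ≤ 0`; divide by `s²`, `s → 0`.
-/

set_option autoImplicit false

open Filter Topology

namespace Pool.Agent.Helper61.RO

universe u

variable {E : Type u} [NormedAddCommGroup E] [NormedSpace ℝ E] [CompleteSpace E]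
  {p : Fin 3 → (E →L[ℝ] E)} {𝓛 : Fin 3 → Fin 3 → Set (E →L[ℝ] E)} {i j k : Fin 3}
  {D D' W : E →L[ℝ] E} {x y z r : E} {ρ : StrongDual ℝ E}

omit [CompleteSpace E] in
theorem RGood.add {𝓛 : Set (E →L[ℝ] E)} {ζ ζ' : E} (h : RGood 𝓛 ρ ζ) (h' : RGood 𝓛 ρ ζ') :
    RGood 𝓛 ρ (ζ + ζ') := by
  intro D hD D' hD'
  simp only [map_add, h D hD D' hD', h' D hD D' hD']

omit [CompleteSpace E] in
theorem RGood.smul {𝓛 : Set (E →L[ℝ] E)} {ζ : E} (h : RGood 𝓛 ρ ζ) (t : ℝ) :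
    RGood 𝓛 ρ (t • ζ) := by
  intro D hD D' hD'
  simp only [map_smul, h D hD D' hD']

theorem rgood_norming (hF : RFrame p 𝓛) (hik : i ≠ k) (hρ : RNorming ρ r) :
    RGood (𝓛 i k) ρ r := by
  intro D hD D' hD'
  have h1 := (Sk.br ((hF.link i k hik).sk D hD) ((hF.link i k hik).sk D' hD')).apply_norming hρ
  have h2 : (br D D') r = D (D' r) - D' (D r) := rfl
  rw [h2, map_sub] at h1
  linarith

/-- the derivative at `0` of a real function with a maximum at `0` -/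
private theorem rgm_deriv (ρ : StrongDual ℝ E) (K : E →L[ℝ] E) (z : E)
    (h : ∀ s : ℝ, ρ (rx s K z) ≤ ρ z) : ρ (K z) = 0 := by
  set L : (E →L[ℝ] E) →L[ℝ] ℝ :=
    ρ.comp (ContinuousLinearMap.apply ℝ E z) with hLdef
  have hL : ∀ T : E →L[ℝ] E, L T = ρ (T z) := fun T => rfl
  have hd := L.hasFDerivAt.comp_hasDerivAt (0 : ℝ) (rx_hasDerivAt K 0)
  rw [rx_zero, mul_one, hL] at hd
  refine IsLocalMax.hasDerivAt_eq_zero ?_ hd
  refine Filter.Eventually.of_forall fun t => ?_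
  change L (rx t K) ≤ L (rx 0 K)
  rw [hL, hL, rx_zero]
  exact h t

theorem rgood_max (hF : RFrame p 𝓛) (hij : i ≠ j) (hik : i ≠ k) (hjk : j ≠ k)
    (hx : p j x = x) (hW : RMaxTrip (𝓛 i j) ρ x W) : RGood (𝓛 i k) ρ (W x) := by
  intro D hD D' hD'
  have hK : Sk (br D D') := Sk.br ((hF.link i k hik).sk D hD) ((hF.link i k hik).sk D' hD')
  have hDx : D x = 0 := hF.kills hik hij.symm hjk hD hx
  have hDx' : D' x = 0 := hF.kills hik hij.symm hjk hD' hx
  have hKx : (br D D') x = 0 := by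
    have h2 : (br D D') x = D (D' x) - D' (D x) := rfl
    rw [h2, hDx, hDx', map_zero, map_zero, sub_zero]
  have h1 : ρ ((br D D') (W x)) = 0 := by
    apply rgm_deriv
    intro s
    have hm := hW.max _ (hF.conj_mem hij hik hjk hD hD' hW.mem s)
      ((hK.norm_conj_le s W).trans hW.norm_le)
    have e : (rx s (br D D') * W * rx (-s) (br D D')) x = rx s (br D D') (W x) := by
      change rx s (br D D') (W (rx (-s) (br D D') x)) = _
      rw [rx_apply_of_ker hKx]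
    rwa [e] at hm
  have h2 : (br D D') (W x) = D (D' (W x)) - D' (D (W x)) := rfl
  rw [h2, map_sub] at h1
  linarith

theorem rpos_max (hF : RFrame p 𝓛) (hij : i ≠ j) (hik : i ≠ k) (hjk : j ≠ k)
    (hx : p j x = x) (hW : RMaxTrip (𝓛 i j) ρ x W) : RPos (𝓛 i k) ρ (W x) := by
  intro D hD
  have hDx : D x = 0 := hF.kills hik hij.symm hjk hD hx
  have hDs : Sk D := (hF.link i k hik).sk D hD
  obtain ⟨M, hM⟩ : ∃ M : ℝ, M = ‖D‖ ^ 3 * Real.exp ‖D‖ := ⟨_, rfl⟩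
  have hM0 : 0 ≤ M := by rw [hM]; positivity
  -- remainders
  have hR : ∀ t : ℝ, |t| ≤ 1 → ‖rx t D - 1 - t • D - (t ^ 2 / 2) • (D * D)‖ ≤ |t| ^ 3 * M := by
    intro t ht
    refine (rx_taylor_two D t).trans ?_
    rw [hM, mul_assoc]
    apply mul_le_mul_of_nonneg_left _ (by positivity)
    apply mul_le_mul_of_nonneg_left _ (by positivity)
    apply Real.exp_le_exp.mpr
    have := norm_nonneg D
    nlinarith
  have key : ∀ s : ℝ, 0 < s → s ≤ 1 → ρ (D (D (W x))) ≤ 2 * (s * (M * (‖ρ‖ * ‖W x‖))) := by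
    intro s hs0 hs1
    have hmem := hF.even_mem hij hik hjk hD hW.mem s
    have hnorm : ‖(1 / 2 : ℝ) • (rx s D * W * rx (-s) D + rx (-s) D * W * rx s D)‖ ≤ 1 := by
      have n1 := (hDs.norm_conj_le s W).trans hW.norm_le
      have n2 := (hDs.norm_conj_le (-s) W).trans hW.norm_le
      rw [neg_neg] at n2
      rw [norm_smul]
      have n3 := norm_add_le (rx s D * W * rx (-s) D) (rx (-s) D * W * rx s D)
      have n4 : ‖(1 / 2 : ℝ)‖ = 1 / 2 := by norm_num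
      rw [n4]
      linarith
    have h1 := hW.max _ hmem hnorm
    have habs : |s| ≤ 1 := by rw [abs_of_pos hs0]; exact hs1
    have habs' : |-s| ≤ 1 := by rw [abs_neg]; exact habs
    obtain ⟨R1, hR1⟩ : ∃ R1 : E →L[ℝ] E,
      R1 = rx s D - 1 - s • D - (s ^ 2 / 2) • (D * D) := ⟨_, rfl⟩
    obtain ⟨R2, hR2⟩ : ∃ R2 : E →L[ℝ] E,
      R2 = rx (-s) D - 1 - (-s) • D - ((-s) ^ 2 / 2) • (D * D) := ⟨_, rfl⟩
    have n1 : ‖R1‖ ≤ s ^ 3 * M := by
      have := hR s habs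
      rw [← hR1, abs_of_pos hs0] at this
      exact this
    have n2 : ‖R2‖ ≤ s ^ 3 * M := by
      have := hR (-s) habs'
      rw [← hR2, abs_neg, abs_of_pos hs0] at this
      exact this
    have e1 : rx s D (W x) = W x + s • D (W x) + (s ^ 2 / 2) • D (D (W x)) + R1 (W x) := by
      have : rx s D = 1 + s • D + (s ^ 2 / 2) • (D * D) + R1 := by
        rw [hR1]; abel
      rw [this]
      rfl
    have e2 : rx (-s) D (W x) = W x - s • D (W x) + (s ^ 2 / 2) • D (D (W x)) + R2 (W x) := by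
      have : rx (-s) D = 1 - s • D + (s ^ 2 / 2) • (D * D) + R2 := by
        rw [hR2, neg_sq, neg_smul]; abel
      rw [this]
      rfl
    have e3 : ((1 / 2 : ℝ) • (rx s D * W * rx (-s) D + rx (-s) D * W * rx s D)) x =
        W x + (s ^ 2 / 2) • D (D (W x)) + (1 / 2 : ℝ) • (R1 (W x) + R2 (W x)) := by
      change (1 / 2 : ℝ) • (rx s D (W (rx (-s) D x)) + rx (-s) D (W (rx s D x))) = _
      rw [rx_apply_of_ker hDx, rx_apply_of_ker hDx, e1, e2]
      module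
    rw [e3] at h1
    simp only [map_add, map_smul, smul_eq_mul] at h1
    have hb : ∀ R : E →L[ℝ] E, ‖R‖ ≤ s ^ 3 * M → -(s ^ 3 * M * (‖ρ‖ * ‖W x‖)) ≤ ρ (R (W x)) := by
      intro R hRn
      have h3 : ‖ρ (R (W x))‖ ≤ s ^ 3 * M * (‖ρ‖ * ‖W x‖) := by
        calc ‖ρ (R (W x))‖ ≤ ‖ρ‖ * ‖R (W x)‖ := ρ.le_opNorm _
          _ ≤ ‖ρ‖ * (‖R‖ * ‖W x‖) := mul_le_mul_of_nonneg_left (R.le_opNorm _) (norm_nonneg _)
          _ ≤ ‖ρ‖ * (s ^ 3 * M * ‖W x‖) := mul_le_mul_of_nonneg_left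
              (mul_le_mul_of_nonneg_right hRn (norm_nonneg _)) (norm_nonneg _)
          _ = s ^ 3 * M * (‖ρ‖ * ‖W x‖) := by ring
      rw [Real.norm_eq_abs] at h3
      have h4 := neg_abs_le (ρ (R (W x)))
      linarith
    have b1 := hb R1 n1
    have b2 := hb R2 n2
    have h6 : s ^ 2 * ρ (D (D (W x))) ≤ s ^ 2 * (2 * (s * (M * (‖ρ‖ * ‖W x‖)))) := by
      nlinarith
    exact le_of_mul_le_mul_left h6 (by positivity)
  by_contra hc
  push Not at hc
  obtain ⟨c, hc'⟩ : ∃ c : ℝ, c = ρ (D (D (W x))) := ⟨_, rfl⟩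
  rw [← hc'] at hc key
  set N : ℝ := M * (‖ρ‖ * ‖W x‖) with hN
  have hN0 : 0 ≤ N := by positivity
  have h1 := key (min 1 (c / (4 * (N + 1)))) (lt_min one_pos (by positivity)) (min_le_left _ _)
  have h2 : min 1 (c / (4 * (N + 1))) ≤ c / (4 * (N + 1)) := min_le_right _ _
  have h3 : min 1 (c / (4 * (N + 1))) * N ≤ c / (4 * (N + 1)) * (N + 1) := by
    apply mul_le_mul h2 (by linarith) hN0 (by positivity)
  have h4 : c / (4 * (N + 1)) * (N + 1) = c / 4 := by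
    field_simp
  linarith

end Pool.Agent.Helper61.RO
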