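import Pool.Agent.Helper61.RO.RFrameApi

/-!
# RO-16  The algebra of words and the ideal lemma

Real version of `HP/Ideal.lean` (copy the proofs; `RAlg.smul` has a real scalar, no conjugation).
* `ridealt`: induction over `RAlg`, for all `D`. `gen D₁ D₂` (`a = D₁ D₂`, `b = D₂ D₁`): `X = br D₂ D ∈ 𝓛 j k`, `D' = br D₁ X ∈ 𝓛 i k`.
  For `z` in the block `k`: `D₂ z = 0 = D₁ z`, so `X z = D₂ D z`, `D' z = D₁ D₂ D z`. For `w` in the block `i`: `X w = 0`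
  (`D w` in the block `k` is killed by `D₂`, `D₂ w` in the block `j` is killed by `D`), `D' w = - X (D₁ w) = D D₂ D₁ w`.
-/

set_option autoImplicit false

open Filter Topology

namespace Pool.Agent.Helper61.RO

universe u

variable {E : Type u} [NormedAddCommGroup E] [NormedSpace ℝ E]
  {p : Fin 3 → (E →L[ℝ] E)} {𝓛 : Fin 3 → Fin 3 → Set (E →L[ℝ] E)} {i j k : Fin 3}
  {a b D : E →L[ℝ] E} {w v : E}

theorem RAlg.symm {𝓛 : Set (E →L[ℝ] E)} (h : RAlg 𝓛 a b) : RAlg 𝓛 b a := by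
  induction h with
  | one => exact RAlg.one
  | gen D D' hD hD' => exact RAlg.gen D' D hD' hD
  | add a b a' b' _ _ ih ih' => exact RAlg.add b a b' a' ih ih'
  | smul t a b _ ih => exact RAlg.smul t b a ih
  | mul a b a' b' _ _ ih ih' => exact RAlg.mul b' a' b a ih' ih

theorem RAlg.neg {𝓛 : Set (E →L[ℝ] E)} (h : RAlg 𝓛 a b) : RAlg 𝓛 (-a) (-b) := by
  have h1 := RAlg.smul (-1) a b h
  rwa [neg_one_smul, neg_one_smul] at h1

theorem RAlg.sub {𝓛 : Set (E →L[ℝ] E)} {a' b' : E →L[ℝ] E} (h : RAlg 𝓛 a b) (h' : RAlg 𝓛 a' b') :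
    RAlg 𝓛 (a - a') (b - b') := by
  rw [sub_eq_add_neg, sub_eq_add_neg]
  exact RAlg.add _ _ _ _ h h'.neg

theorem RAlg.maps (hF : RFrame p 𝓛) (hij : i ≠ j) (h : RAlg (𝓛 i j) a b) (hw : p i w = w) :
    p i (a w) = a w := by
  induction h generalizing w with
  | one => exact hw
  | gen D D' hD hD' =>
    change p i (D (D' w)) = D (D' w)
    exact hF.map hij hD (hF.map' hij hD' hw)
  | add a b a' b' _ _ ih ih' =>
    change p i (a w + a' w) = a w + a' w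
    rw [map_add, ih hw, ih' hw]
  | smul t a b _ ih =>
    change p i (t • a w) = t • a w
    rw [map_smul, ih hw]
  | mul a b a' b' _ _ ih ih' => exact ih (ih' hw)

theorem RAlg.dense (hF : RFrame p 𝓛) (hij : i ≠ j) (hA : ∃ v, p j v = v ∧ v ≠ 0)
    (hw : p i w = w) (hw0 : w ≠ 0) (hv : p i v = v) {ε : ℝ} (hε : 0 < ε) :
    ∃ a b : E →L[ℝ] E, RAlg (𝓛 i j) a b ∧ ‖a w - v‖ < ε := by
  obtain ⟨a0, ha0, hne⟩ := hA
  obtain ⟨D', hD', h1⟩ := hF.dense j i hij.symm w hw0 hw a0 ha0 ‖a0‖ (norm_pos_iff.2 hne)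
  rw [hF.symm] at hD'
  have h2 : D' w ≠ 0 := by
    intro h0
    rw [h0, zero_sub, norm_neg] at h1
    exact lt_irrefl _ h1
  obtain ⟨D, hD, h3⟩ := hF.dense i j hij (D' w) h2 (hF.map' hij hD' hw) v hv ε hε
  exact ⟨D * D', D' * D, RAlg.gen D D' hD hD', h3⟩

theorem RAlg.eq_zero_of_orbit (hF : RFrame p 𝓛) (hij : i ≠ j) (hA : ∃ v, p j v = v ∧ v ≠ 0)
    (hw : p i w = w) (hw0 : w ≠ 0) {ρ : StrongDual ℝ E}
    (h : ∀ a b : E →L[ℝ] E, RAlg (𝓛 i j) a b → ρ (a w) = 0) (hv : p i v = v) : ρ v = 0 := by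
  by_contra hne
  have hpos : 0 < ‖ρ v‖ := norm_pos_iff.2 hne
  have hρ : 0 < ‖ρ‖ + 1 := by positivity
  obtain ⟨a, b, hab, h1⟩ := RAlg.dense hF hij hA hw hw0 hv (div_pos hpos hρ)
  have h2 : ρ v = -ρ (a w - v) := by
    rw [map_sub, h a b hab, zero_sub, neg_neg]
  have h3 : ‖ρ v‖ ≤ ‖ρ‖ * ‖a w - v‖ := by
    rw [h2, norm_neg]
    exact ρ.le_opNorm _
  have h4 : ‖ρ‖ * ‖a w - v‖ ≤ ‖ρ‖ * (‖ρ v‖ / (‖ρ‖ + 1)) :=
    mul_le_mul_of_nonneg_left h1.le (norm_nonneg _)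
  have h5 : ‖ρ‖ * (‖ρ v‖ / (‖ρ‖ + 1)) < ‖ρ v‖ := by
    rw [← mul_div_assoc, div_lt_iff₀ hρ]
    nlinarith
  linarith

theorem rideal (hF : RFrame p 𝓛) (hij : i ≠ j) (hik : i ≠ k) (hjk : j ≠ k)
    (h : RAlg (𝓛 i j) a b) (hD : D ∈ 𝓛 i k) :
    ∃ D' ∈ 𝓛 i k, (∀ z, p k z = z → D' z = a (D z)) ∧ ∀ w, p i w = w → D' w = D (b w) := by
  have hL := hF.link i k hik
  induction h generalizing D with
  | one => exact ⟨D, hD, fun z _ => rfl, fun w _ => rfl⟩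
  | gen D1 D2 hD1 hD2 =>
    have hX : br D2 D ∈ 𝓛 j k := hF.brk_mem hij hik hjk hD2 hD
    have hD' : br D1 (br D2 D) ∈ 𝓛 i k :=
      hF.brk_mem hij.symm hjk hik (by rw [hF.symm]; exact hD1) hX
    refine ⟨_, hD', fun z hz => ?_, fun w hw => ?_⟩
    · have e1 : D1 z = 0 := hF.kills hij hik.symm hjk.symm hD1 hz
      have e2 : D2 z = 0 := hF.kills hij hik.symm hjk.symm hD2 hz
      change D1 (D2 (D z) - D (D2 z)) - (D2 (D (D1 z)) - D (D2 (D1 z))) = D1 (D2 (D z))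
      rw [e1, e2]
      simp only [map_zero, sub_zero]
    · have h1 : p k (D w) = D w := hF.map' hik hD hw
      have h2 : p j (D2 w) = D2 w := hF.map' hij hD2 hw
      have h3 : p j (D1 w) = D1 w := hF.map' hij hD1 hw
      have e1 : D2 (D w) = 0 := hF.kills hij hik.symm hjk.symm hD2 h1
      have e2 : D (D2 w) = 0 := hF.kills hik hij.symm hjk hD h2
      have e3 : D (D1 w) = 0 := hF.kills hik hij.symm hjk hD h3
      change D1 (D2 (D w) - D (D2 w)) - (D2 (D (D1 w)) - D (D2 (D1 w))) = D (D2 (D1 w))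
      rw [e1, e2, e3]
      simp only [map_zero, sub_zero, zero_sub, neg_neg]
  | add a b a' b' _ _ ih ih' =>
    obtain ⟨D1, hD1, h1, h1'⟩ := ih hD
    obtain ⟨D2, hD2, h2, h2'⟩ := ih' hD
    refine ⟨D1 + D2, hL.add D1 hD1 D2 hD2, fun z hz => ?_, fun w hw => ?_⟩
    · change D1 z + D2 z = a (D z) + a' (D z)
      rw [h1 z hz, h2 z hz]
    · change D1 w + D2 w = D (b w + b' w)
      rw [h1' w hw, h2' w hw, map_add]
  | smul t a b _ ih =>
    obtain ⟨D1, hD1, h1, h1'⟩ := ih hD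
    refine ⟨t • D1, hL.smul t D1 hD1, fun z hz => ?_, fun w hw => ?_⟩
    · change t • D1 z = t • a (D z)
      rw [h1 z hz]
    · change t • D1 w = D (t • b w)
      rw [h1' w hw, map_smul]
  | mul a b a' b' hab _ ih ih' =>
    obtain ⟨D1, hD1, h1, h1'⟩ := ih' hD
    obtain ⟨D2, hD2, h2, h2'⟩ := ih hD1
    refine ⟨D2, hD2, fun z hz => ?_, fun w hw => ?_⟩
    · change D2 z = a (a' (D z))
      rw [h2 z hz, h1 z hz]
    · have hbw : p i (b w) = b w := hab.symm.maps hF hij hw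
      change D2 w = D (b' (b w))
      rw [h2' w hw, h1' _ hbw]

end Pool.Agent.Helper61.RO
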