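import Pool.Agent.Helper61.RO.RGoodFix
import Pool.Agent.Helper61.RO.RIdeal
import Pool.Agent.Helper61.RO.RGood

/-!
# RO-18  Symmetric and positive functionals on the algebra

Real version of `HP/AlgHerm.lean` (copy the proofs).

PROOF of `ralg_herm`. Choose `z ≠ 0` in the block `k` and `V` a maximal tripotent of `𝓛 i k` at `(z, ρ)` (`exists_rmaxTrip`). `su V ζ = ζ` (`rgood_fix`), so
`V (V ζ) = - ζ`; `ρ (su V w) = ρ w` on the block `i` (`RMaxTrip.support`). `D' ∈ 𝓛 i k` from `rideal` for `(a, b)` and `D = V`: `D' z = a (V z)` on the block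
`k`, `D' w = V (b w)` on the block `i`. `V ζ` is in the block `k`, so `ρ (a ζ) = - ρ (a (V (V ζ))) = - ρ (D' (V ζ)) = - ρ (V (D' ζ))` (`RGood`)
`= - ρ (V (V (b ζ))) = ρ (su V (b ζ)) = ρ (b ζ)` (`b ζ` is in the block `i`: `RAlg.symm`, `RAlg.maps`).

PROOF of `ralg_pos`. If `a y = 0` the number is `0`. Otherwise there is a tripotent `V` of `𝓛 k i = 𝓛 i k` with `su V (a y) = a y`
(`exists_rtrip_fix` with the blocks `i` (of `a y`) and `k`). `D'` from `rideal` for `(b, a)` and `D = V`: `D' (D' y) = b (V (V (a y))) = - b (a y)`, so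
`RPos` gives `ρ (b (a y)) ≥ 0`.
-/

set_option autoImplicit false

open Filter Topology

namespace Pool.Agent.Helper61.RO

universe u

variable {E : Type u} [NormedAddCommGroup E] [NormedSpace ℝ E] [CompleteSpace E]
  {p : Fin 3 → (E →L[ℝ] E)} {𝓛 : Fin 3 → Fin 3 → Set (E →L[ℝ] E)} {i j k : Fin 3}
  {a b : E →L[ℝ] E} {y ζ : E} {ρ : StrongDual ℝ E}

theorem ralg_herm (hN : RNice E) (hF : RFrame p 𝓛) (hij : i ≠ j) (hik : i ≠ k) (hjk : j ≠ k)
    (hk : ∃ z, p k z = z ∧ z ≠ 0) (hρ : ∃ b, p i b = b ∧ ρ b ≠ 0) (hζ : p i ζ = ζ)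
    (hG : RGood (𝓛 i k) ρ ζ) (hab : RAlg (𝓛 i j) a b) : ρ (a ζ) = ρ (b ζ) := by
  obtain ⟨z, hz, hz0⟩ := hk
  obtain ⟨V, hV⟩ := exists_rmaxTrip hN (hF.link i k hik) ρ z
  have hfix : su V ζ = ζ := rgood_fix hN hF hik hρ hz hz0 hV hζ hG
  have hsu : ∀ w, su V w = -(V (V w)) := fun w => rfl
  have hVV : V (V ζ) = -ζ := by
    rw [hsu] at hfix
    rw [← neg_eq_iff_eq_neg]
    exact hfix
  have hsupp := (RMaxTrip.support hN hF hik hV hz hz0 hρ).2
  obtain ⟨D', hD', h1, h2⟩ := rideal hF hij hik hjk hab hV.mem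
  have hVζ : p k (V ζ) = V ζ := hF.map' hik hV.mem hζ
  have hbζ : p i (b ζ) = b ζ := RAlg.maps hF hij hab.symm hζ
  have h3 : D' (V ζ) = -(a ζ) := by rw [h1 _ hVζ, hVV, map_neg]
  have h4 := hG D' hD' V hV.mem
  rw [h3, h2 ζ hζ, map_neg] at h4
  have h5 := hsupp _ hbζ
  rw [hsu, map_neg] at h5
  linarith

theorem ralg_pos (hN : RNice E) (hF : RFrame p 𝓛) (hij : i ≠ j) (hik : i ≠ k) (hjk : j ≠ k)
    (hk : ∃ z, p k z = z ∧ z ≠ 0) (hy : p i y = y) (hP : RPos (𝓛 i k) ρ y)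
    (hab : RAlg (𝓛 i j) a b) : 0 ≤ ρ (b (a y)) := by
  by_cases h0 : a y = 0
  · rw [h0, map_zero, map_zero]
  have hay : p i (a y) = a y := RAlg.maps hF hij hab hy
  obtain ⟨V, hV, hfix⟩ := exists_rtrip_fix hN hF hik.symm hk hay h0
  have hVm : V ∈ 𝓛 i k := by
    rw [hF.symm i k]
    exact hV.mem
  obtain ⟨D', hD', h1, h2⟩ := rideal hF hij hik hjk hab.symm hVm
  have hVa : p k (V (a y)) = V (a y) := hF.map' hik hVm hay
  have hsu : ∀ w, su V w = -(V (V w)) := fun w => rfl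
  have h3 : D' (D' y) = -(b (a y)) := by
    rw [hsu] at hfix
    have h4 : V (V (a y)) = -(a y) := by
      rw [← neg_eq_iff_eq_neg]
      exact hfix
    rw [h2 y hy, h1 _ hVa, h4, map_neg]
  have h4 := hP D' hD'
  rw [h3, map_neg] at h4
  linarith

end Pool.Agent.Helper61.RO
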