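import Pool.Agent.Helper61.RO.LinkCx

/-!
# RO-13  Basic properties of real frames

The blocks are `{y | p i y = y}`, `i : Fin 3`.

PROOFS. `D ∈ 𝓛 i j`: `D = p i * D * p j + p j * D * p i` (`off`).
* `block_zero`: `p j y = p j (p i y) = 0`. `kills`: `z` in the block `k`: `p i z = 0 = p j z`.
* `map`: `p i (D x) = p i (p i D p j x + p j D p i x) = p i (D x)...`: for `x` in the block `j`: `D x = p i (D x)` since `p i x = 0`, `p j x = x`.
* `map_sq`: two applications, `𝓛 i j = 𝓛 j i` (`symm`).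
* `brk'`: `br D D' ∈ 𝓛 i k` for `D ∈ 𝓛 j i` etc. by `symm`.
* `ad_mem`: `K = br D D'`, `D, D' ∈ 𝓛 i k`; `br K W = br D (br D' W) - br D' (br D W)` (Jacobi), `br D' W ∈ 𝓛 k j` (up to sign), `br D (..) ∈ 𝓛 i j`.
* `conj_mem`: `conj_mem_of_ad` with `ad_mem`. `even_mem`: `even_mem_of_ad`; `br D (br D W) ∈ 𝓛 i j`.
* `decomp`: `y = p 0 y + p 1 y + p 2 y` (`sum`), written for arbitrary distinct `i, j, k`.
-/

set_option autoImplicit false

open Filter Topology

namespace Pool.Agent.Helper61.RO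

universe u

variable {E : Type u} [NormedAddCommGroup E] [NormedSpace ℝ E]
  {p : Fin 3 → (E →L[ℝ] E)} {𝓛 : Fin 3 → Fin 3 → Set (E →L[ℝ] E)} {i j k : Fin 3}
  {D D' W : E →L[ℝ] E} {x y z : E}

theorem RFrame.idem_apply (hF : RFrame p 𝓛) (y : E) : p i (p i y) = p i y := by
  have h := hF.idem i
  exact DFunLike.congr_fun h y

theorem RFrame.block_zero (hF : RFrame p 𝓛) (hij : i ≠ j) (hy : p i y = y) : p j y = 0 := by
  have h : p j (p i y) = 0 := DFunLike.congr_fun (hF.orth j i hij.symm) y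
  rwa [hy] at h

theorem RFrame.kills (hF : RFrame p 𝓛) (hij : i ≠ j) (hki : k ≠ i) (hkj : k ≠ j)
    (hD : D ∈ 𝓛 i j) (hz : p k z = z) : D z = 0 := by
  have h1 : D z = p i (D (p j z)) + p j (D (p i z)) :=
    DFunLike.congr_fun (hF.off i j hij D hD) z
  rw [h1, hF.block_zero hkj hz, hF.block_zero hki hz, map_zero, map_zero, map_zero, add_zero]

theorem RFrame.map (hF : RFrame p 𝓛) (hij : i ≠ j) (hD : D ∈ 𝓛 i j) (hx : p j x = x) :
    p i (D x) = D x := by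
  have h1 : D x = p i (D (p j x)) + p j (D (p i x)) :=
    DFunLike.congr_fun (hF.off i j hij D hD) x
  rw [hF.block_zero hij.symm hx, hx, map_zero, map_zero, add_zero] at h1
  exact h1.symm

theorem RFrame.map' (hF : RFrame p 𝓛) (hij : i ≠ j) (hD : D ∈ 𝓛 i j) (hx : p i x = x) :
    p j (D x) = D x := by
  have h1 : D x = p i (D (p j x)) + p j (D (p i x)) :=
    DFunLike.congr_fun (hF.off i j hij D hD) x
  rw [hF.block_zero hij hx, hx, map_zero, map_zero, zero_add] at h1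
  exact h1.symm

theorem RFrame.decomp (hF : RFrame p 𝓛) (hij : i ≠ j) (hik : i ≠ k) (hjk : j ≠ k) (y : E) :
    y = p i y + p j y + p k y := by
  have h : p 0 y + p 1 y + p 2 y = y := DFunLike.congr_fun hF.sum y
  have h2 : p i y + p j y + p k y = p 0 y + p 1 y + p 2 y := by
    fin_cases i <;> fin_cases j <;> fin_cases k <;>
      first
        | exact absurd rfl hij
        | exact absurd rfl hik
        | exact absurd rfl hjk
        | rfl
        | (simp only [Fin.zero_eta, Fin.mk_one, Fin.reduceFinMk]; abel)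
  rw [h2, h]

theorem RFrame.brk_mem (hF : RFrame p 𝓛) (hij : i ≠ j) (hik : i ≠ k) (hjk : j ≠ k)
    (hD : D ∈ 𝓛 i j) (hD' : D' ∈ 𝓛 i k) : br D D' ∈ 𝓛 j k := by
  exact hF.brk j i k hij.symm hik hjk D (hF.symm i j ▸ hD) D' hD'

theorem RFrame.ad_mem (hF : RFrame p 𝓛) (hij : i ≠ j) (hik : i ≠ k) (hjk : j ≠ k)
    (hD : D ∈ 𝓛 i k) (hD' : D' ∈ 𝓛 i k) (hW : W ∈ 𝓛 i j) : br (br D D') W ∈ 𝓛 i j := by
  have h1 : br (br D D') W = br D (br D' W) - br D' (br D W) := by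
    unfold br
    noncomm_ring
  rw [h1]
  exact (hF.link i j hij).sub
    (hF.brk i k j hik hjk.symm hij D hD _ (hF.brk_mem hik hij hjk.symm hD' hW))
    (hF.brk i k j hik hjk.symm hij D' hD' _ (hF.brk_mem hik hij hjk.symm hD hW))

theorem RFrame.conj_mem [CompleteSpace E] (hF : RFrame p 𝓛) (hij : i ≠ j) (hik : i ≠ k)
    (hjk : j ≠ k) (hD : D ∈ 𝓛 i k) (hD' : D' ∈ 𝓛 i k) (hW : W ∈ 𝓛 i j) (s : ℝ) :
    rx s (br D D') * W * rx (-s) (br D D') ∈ 𝓛 i j := by
  exact conj_mem_of_ad (hF.link i j hij)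
    (fun Z hZ => hF.ad_mem hij hik hjk hD hD' hZ) hW s

theorem RFrame.even_mem [CompleteSpace E] (hF : RFrame p 𝓛) (hij : i ≠ j) (hik : i ≠ k)
    (hjk : j ≠ k) (hD : D ∈ 𝓛 i k) (hW : W ∈ 𝓛 i j) (s : ℝ) :
    (1 / 2 : ℝ) • (rx s D * W * rx (-s) D + rx (-s) D * W * rx s D) ∈ 𝓛 i j := by
  refine (hF.link i j hij).smul _ _ (even_mem_of_ad (hF.link i j hij) (fun Z hZ => ?_) hW s)
  exact hF.brk i k j hik hjk.symm hij D hD _ (hF.brk_mem hik hij hjk.symm hD hZ)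

end Pool.Agent.Helper61.RO
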