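import Pool.Agent.Helper61.RO.RSupport

/-!
# RO-17  Maximal tripotents fix good vectors

Real version of `HP/GoodFix.lean` (copy the proof).

`e = su W`, `q = 1 - e`. By `RMaxTrip.support` (for the blocks `k` (of `z`) and `i`; `W ∈ 𝓛 i k`): `e z = z`, `ρ (q b) = 0` for `b` in the block `i`.
(1) `q D q ζ = 0` for all `D ∈ 𝓛 i k`: `D₀ = q D q ∈ 𝓛 i k` (`peirce_zero`). For all `D' ∈ 𝓛 i k`: `D' ζ` is in the block `k`,
`ρ (D₀ (D' ζ)) = ρ (q (D (q (D' ζ)))) = 0`, so by `RGood` `ρ (D' (D₀ ζ)) = 0`. `D₀ ζ` is in the block `k`; if it were nonzero the `D' (D₀ ζ)` would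
be dense in the block `i` and `ρ = 0` on it.
(2) Suppose `q ζ ≠ 0` (in the block `i`). The `D (q ζ)` are dense in the block `k`, so by (1) `q = 0` on the block `k`. `D₁ = e D q + q D e ∈ 𝓛 i k`
(`peirce_one`). For all `D'`: `q (D' ζ) = 0`, `ρ (D₁ (D' ζ)) = ρ (q (D (e (D' ζ)))) = 0`. By `RGood` `ρ (D' (D₁ ζ)) = 0` for all `D'`, so `D₁ ζ = 0`;
`D₁ ζ = e D q ζ + q (D e ζ) = e D q ζ`. With (1): `D q ζ = 0` for all `D`; but these vectors are dense in the block `k ∋ z ≠ 0`. Contradiction.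
-/

set_option autoImplicit false

open Filter Topology

namespace Pool.Agent.Helper61.RO

universe u

variable {E : Type u} [NormedAddCommGroup E] [NormedSpace ℝ E] [CompleteSpace E]
  {p : Fin 3 → (E →L[ℝ] E)} {𝓛 : Fin 3 → Fin 3 → Set (E →L[ℝ] E)} {i j k : Fin 3}
  {W : E →L[ℝ] E} {z ζ : E} {ρ : StrongDual ℝ E}

theorem rgood_fix (hN : RNice E) (hF : RFrame p 𝓛) (hik : i ≠ k)
    (hρ : ∃ b, p i b = b ∧ ρ b ≠ 0) (hz : p k z = z) (hz0 : z ≠ 0)
    (hW : RMaxTrip (𝓛 i k) ρ z W) (hζ : p i ζ = ζ) (hG : RGood (𝓛 i k) ρ ζ) :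
    su W ζ = ζ := by
  have hL := hF.link i k hik
  obtain ⟨hsz, hsρ⟩ := hW.support hN hF hik hz hz0 hρ
  have hT : RTrip (𝓛 i k) W := hW.toRTrip
  have heI0 : ∀ y, p i y = y → p i (su W y) = su W y := fun y hy => hF.su_map' hik hT.mem hy
  have heK0 : ∀ y, p k y = y → p k (su W y) = su W y := fun y hy => hF.su_map hik hT.mem hy
  obtain ⟨e, hedef⟩ : ∃ e, e = su W := ⟨_, rfl⟩
  rw [← hedef] at hsz hsρ heI0 heK0 ⊢
  have hp : ∀ y, (1 - e) y = y - e y := fun y => rfl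
  have hpI : ∀ y, p i y = y → p i ((1 - e) y) = (1 - e) y := fun y hy => by
    rw [hp, map_sub, hy, heI0 y hy]
  have hpK : ∀ y, p k y = y → p k ((1 - e) y) = (1 - e) y := fun y hy => by
    rw [hp, map_sub, hy, heK0 y hy]
  have hρp : ∀ y, p i y = y → ρ ((1 - e) y) = 0 := fun y hy => by
    rw [hp, map_sub, hsρ y hy, sub_self]
  -- vectors of the second block annihilated by the functional
  have hzero : ∀ u, p k u = u → (∀ D' ∈ 𝓛 i k, ρ (D' u) = 0) → u = 0 := by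
    intro u hu h
    by_contra hu0
    obtain ⟨b, hb, hb0⟩ := hρ
    exact hb0 (eq_zero_of_rdense hF hik hu hu0 h b hb)
  -- transfer through the good functional
  have hgood : ∀ D0 ∈ 𝓛 i k, (∀ y, p k y = y → ρ (D0 y) = 0) → D0 ζ = 0 := by
    intro D0 hD0 h
    refine hzero _ (hF.map' hik hD0 hζ) fun D' hD' => ?_
    rw [← hG D0 hD0 D' hD']
    exact h _ (hF.map' hik hD' hζ)
  -- step (1)
  have step1 : ∀ D ∈ 𝓛 i k, (1 - e) (D ((1 - e) ζ)) = 0 := by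
    intro D hD
    have hD0 := hL.peirce_zero hT hD
    rw [← hedef] at hD0
    have h1 := hgood _ hD0 fun y hy => ?_
    · exact h1
    · change ρ ((1 - e) (D ((1 - e) y))) = 0
      exact hρp _ (hF.map hik hD (hpK y hy))
  by_contra hne
  have hpz : (1 - e) ζ ≠ 0 := by
    intro h
    rw [hp, sub_eq_zero] at h
    exact hne h.symm
  have hpzI := hpI ζ hζ
  have hd' : ∀ y, p k y = y → ∀ ε : ℝ, 0 < ε → ∃ D ∈ 𝓛 i k, ‖D ((1 - e) ζ) - y‖ < ε := by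
    intro y hy ε hε
    obtain ⟨D, hD, hlt⟩ := hF.dense k i hik.symm ((1 - e) ζ) hpz hpzI y hy ε hε
    exact ⟨D, hF.symm i k ▸ hD, hlt⟩
  -- `1 - e` vanishes on the second block
  have hpk0 : ∀ b, p k b = b → (1 - e) b = 0 := by
    intro b hb
    by_contra hb0
    have hpos : 0 < ‖(1 - e) b‖ := norm_pos_iff.mpr hb0
    have hn0 : 0 ≤ ‖(1 - e : E →L[ℝ] E)‖ := norm_nonneg _
    obtain ⟨D, hD, hlt⟩ := hd' b hb
      (‖(1 - e) b‖ / (‖(1 - e : E →L[ℝ] E)‖ + 1)) (by positivity)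
    have h1 : (1 - e) b = (1 - e) (b - D ((1 - e) ζ)) := by
      rw [map_sub, step1 D hD, sub_zero]
    have h2 : ‖(1 - e) b‖ ≤ ‖(1 - e : E →L[ℝ] E)‖ * ‖b - D ((1 - e) ζ)‖ := by
      conv_lhs => rw [h1]
      exact (1 - e : E →L[ℝ] E).le_opNorm _
    rw [norm_sub_rev] at hlt
    have h3 : ‖(1 - e : E →L[ℝ] E)‖ * ‖b - D ((1 - e) ζ)‖ ≤
        ‖(1 - e : E →L[ℝ] E)‖ * (‖(1 - e) b‖ / (‖(1 - e : E →L[ℝ] E)‖ + 1)) :=
      mul_le_mul_of_nonneg_left hlt.le hn0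
    have h4 : ‖(1 - e : E →L[ℝ] E)‖ * (‖(1 - e) b‖ / (‖(1 - e : E →L[ℝ] E)‖ + 1)) <
        ‖(1 - e) b‖ := by
      rw [← mul_div_assoc, div_lt_iff₀ (by positivity)]
      nlinarith
    linarith
  -- all elements of the link kill `(1 - e) ζ`
  have hkill : ∀ D ∈ 𝓛 i k, D ((1 - e) ζ) = 0 := by
    intro D hD
    have hD1 := hL.peirce_one hT hD
    rw [← hedef] at hD1
    have h1 := hgood _ hD1 fun y hy => ?_
    · have h2 : e (D ((1 - e) ζ)) + (1 - e) (D (e ζ)) = 0 := h1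
      rw [hpk0 _ (hF.map' hik hD (heI0 ζ hζ)), add_zero] at h2
      have h3 := step1 D hD
      rw [hp, h2, sub_zero] at h3
      exact h3
    · change ρ (e (D ((1 - e) y)) + (1 - e) (D (e y))) = 0
      rw [hpk0 y hy, map_zero, map_zero, zero_add]
      exact hρp _ (hF.map hik hD (heK0 y hy))
  obtain ⟨D, hD, hlt⟩ := hd' z hz ‖z‖ (norm_pos_iff.mpr hz0)
  rw [hkill D hD, zero_sub, norm_neg] at hlt
  exact lt_irrefl _ hlt

end Pool.Agent.Helper61.RO
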