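import Pool.Agent.Helper61.RO.RIdeal

/-!
# RO-20  The algebraic part of the key theorem

Real version of `HP/KeyAlg.lean` (copy the proof; all numbers are real, there are no conjugations, `t` in (e) is real).

Notation: `(u, v) ∈ RAlg`, `u η = y`, `v y = η`. `m' = ρ y > 0`.
(b) `ρ (c η) = ρ (u (c y))` for every pair `(c, c')`: `ρ (c' η) = ρ (c' v y) = ρ (u c y)` (symmetry at `y`, pair `(c' v, u c)`), `ρ (c' η) = ρ (c η)`.
(c) `ρ (u u y) = ρ (u η) = m'`, `ρ (v v y) = ρ (u u y) = m'`, `u v y = u η = y`.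
(d) `d = u - v`, adjoint `v - u`: `(v - u)(u - v) y = v u y - v v y - u u y + u v y`, so `ρ (..) = ρ (v u y) - m' ≤ 0` by `hineq`; by positivity it is `0`.
(e) Cauchy-Schwarz: for every pair `(c, c')`: `ρ (c' d y) = 0`: positivity of `(d + t c, d' + t c')` for all real `t`:
`0 ≤ 2 t ρ (c' d y) + t² ρ (c' c y)`. So `ρ` vanishes on the orbit of `d y`, and `d y = 0` (`RAlg.eq_zero_of_orbit`), i.e. `u y = v y = η`.
(f) `ρ (c d η) = ρ (u c d y) = 0` by (b), so `d η = 0`, i.e. `v η = u η = y`.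
(g) `ρ (c y) = ρ (u c η)`: `ρ (c' y) = ρ (c' v η) = ρ (u c η)` (symmetry at `η`) and `ρ (c' y) = ρ (c y)`.
(h) `ρ' = ρ - ρ ∘ u` satisfies `ρ' (c (η + y)) = 0` for all `c`. If `η + y ≠ 0`, `ρ' = 0` on the block, so `0 = ρ η = ρ (u η) = ρ y > 0`. If `η + y = 0`, then
`ρ y = - ρ η = 0`. Both are contradictions.
-/

set_option autoImplicit false

open Filter Topology

namespace Pool.Agent.Helper61.RO

universe u

variable {E : Type u} [NormedAddCommGroup E] [NormedSpace ℝ E]
  {p : Fin 3 → (E →L[ℝ] E)} {𝓛 : Fin 3 → Fin 3 → Set (E →L[ℝ] E)} {i j k : Fin 3}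

theorem rkey_alg (hF : RFrame p 𝓛) (hij : i ≠ j) (hA : ∃ v, p j v = v ∧ v ≠ 0)
    {ρ : StrongDual ℝ E} {η y : E} (hη : p i η = η) (hy : p i y = y)
    {u v : E →L[ℝ] E} (huv : RAlg (𝓛 i j) u v) (huη : u η = y) (hvy : v y = η) (hρη : ρ η = 0)
    (hρy : 0 < ρ y)
    (hermη : ∀ a b : E →L[ℝ] E, RAlg (𝓛 i j) a b → ρ (a η) = ρ (b η))
    (hermy : ∀ a b : E →L[ℝ] E, RAlg (𝓛 i j) a b → ρ (a y) = ρ (b y))
    (hpos : ∀ a b : E →L[ℝ] E, RAlg (𝓛 i j) a b → 0 ≤ ρ (b (a y)))
    (hineq : ρ (v (u y)) ≤ ρ y) : False := by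
  have hvu : RAlg (𝓛 i j) v u := huv.symm
  -- (b)
  have hb : ∀ c cs : E →L[ℝ] E, RAlg (𝓛 i j) c cs → ρ (c η) = ρ (u (c y)) := by
    intro c cs hc
    have h1 : ρ (c η) = ρ (cs η) := hermη c cs hc
    have h2 : ρ ((cs * v) y) = ρ ((u * c) y) :=
      hermy (cs * v) (u * c) (RAlg.mul cs c v u hc.symm hvu)
    have h3 : (cs * v) y = cs η := by
      change cs (v y) = cs η
      rw [hvy]
    rw [h3] at h2
    rw [h1, h2]
    rfl
  -- (c)
  have huuy : ρ (u (u y)) = ρ y := by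
    rw [← hb u v huv, huη]
  have hvvy : ρ (v (v y)) = ρ y := by
    have h1 : ρ ((v * v) y) = ρ ((u * u) y) :=
      hermy (v * v) (u * u) (RAlg.mul v u v u hvu hvu)
    have h2 : (u * u) y = u (u y) := rfl
    have h3 : (v * v) y = v (v y) := rfl
    rw [h2, h3, huuy] at h1
    exact h1
  have huvy : u (v y) = y := by rw [hvy, huη]
  -- (d)
  have hA1 : RAlg (𝓛 i j) (u - v) (v - u) := huv.sub hvu
  have hdd0 : ρ ((v - u) ((u - v) y)) = 0 := by
    have h1 := hpos (u - v) (v - u) hA1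
    have h2 : (v - u) ((u - v) y) = v (u y) - v (v y) - u (u y) + y := by
      change v (u y - v y) - u (u y - v y) = _
      rw [map_sub, map_sub, huvy]
      abel
    have h3 : ρ ((v - u) ((u - v) y)) = ρ (v (u y)) - ρ y := by
      rw [h2, map_add, map_sub, map_sub, huuy, hvvy]
      ring
    linarith
  -- (e)
  have he : ∀ c cs : E →L[ℝ] E, RAlg (𝓛 i j) c cs → ρ (cs ((u - v) y)) = 0 := by
    intro c cs hc
    have hK0 : 0 ≤ ρ (cs (c y)) := hpos c cs hc
    have hcross : ρ ((v - u) (c y)) = ρ (cs ((u - v) y)) :=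
      hermy ((v - u) * c) (cs * (u - v)) (RAlg.mul _ _ c cs hA1.symm hc)
    have hmain : ∀ t : ℝ, 0 ≤ 2 * t * ρ (cs ((u - v) y)) + t ^ 2 * ρ (cs (c y)) := by
      intro t
      have h1 := hpos ((u - v) + t • c) ((v - u) + t • cs)
        (RAlg.add _ _ _ _ hA1 (RAlg.smul t c cs hc))
      have h2 : ρ (((v - u) + t • cs) (((u - v) + t • c) y)) =
          ρ ((v - u) ((u - v) y)) + t * ρ ((v - u) (c y)) + t * ρ (cs ((u - v) y)) +
            t * t * ρ (cs (c y)) := by
        change ρ ((v - u) ((u - v) y + t • c y) + t • cs ((u - v) y + t • c y)) = _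
        simp only [map_add, map_smul, smul_eq_mul, smul_add]
        ring
      rw [h2, hcross, hdd0] at h1
      linarith
    have h0 : 0 < ρ (cs (c y)) + 1 := by linarith
    have h1 := hmain (-(ρ (cs ((u - v) y)) / (ρ (cs (c y)) + 1)))
    by_contra hne
    have h2 : 0 < ρ (cs ((u - v) y)) ^ 2 := by positivity
    have h3 : 2 * -(ρ (cs ((u - v) y)) / (ρ (cs (c y)) + 1)) * ρ (cs ((u - v) y)) +
        (-(ρ (cs ((u - v) y)) / (ρ (cs (c y)) + 1))) ^ 2 * ρ (cs (c y)) =
        -(ρ (cs ((u - v) y)) ^ 2 * (ρ (cs (c y)) + 2) / (ρ (cs (c y)) + 1) ^ 2) := by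
      field_simp
      ring
    rw [h3] at h1
    have h4 : 0 < ρ (cs ((u - v) y)) ^ 2 * (ρ (cs (c y)) + 2) / (ρ (cs (c y)) + 1) ^ 2 := by
      positivity
    linarith
  -- (f)
  have hdy : (u - v) y = 0 := by
    by_contra hne
    have := RAlg.eq_zero_of_orbit hF hij hA (hA1.maps hF hij hy) hne (ρ := ρ)
      (fun a b hab => he b a hab.symm) hy
    exact hρy.ne' this
  have huy : u y = η := by
    have h1 : u y - v y = 0 := hdy
    rw [hvy] at h1
    exact sub_eq_zero.1 h1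
  have hdη : (u - v) η = 0 := by
    by_contra hne
    have := RAlg.eq_zero_of_orbit hF hij hA (hA1.maps hF hij hη) hne (ρ := ρ)
      (fun a b hab => by
        have h1 := hb (a * (u - v)) ((v - u) * b) (RAlg.mul a b _ _ hab hA1)
        have h2 : (a * (u - v)) y = 0 := by
          change a ((u - v) y) = 0
          rw [hdy, map_zero]
        rw [h2, map_zero, map_zero] at h1
        exact h1) hy
    exact hρy.ne' this
  have hvη : v η = y := by
    have h1 : u η - v η = 0 := hdη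
    rw [huη] at h1
    exact (sub_eq_zero.1 h1).symm
  -- (g)
  have hg : ∀ c cs : E →L[ℝ] E, RAlg (𝓛 i j) c cs → ρ (c y) = ρ (u (c η)) := by
    intro c cs hc
    have h1 : ρ (c y) = ρ (cs y) := hermy c cs hc
    have h2 : ρ ((cs * v) η) = ρ ((u * c) η) :=
      hermη (cs * v) (u * c) (RAlg.mul cs c v u hc.symm hvu)
    have h3 : (cs * v) η = cs y := by
      change cs (v η) = cs y
      rw [hvη]
    rw [h3] at h2
    rw [h1, h2]
    rfl
  -- (h)
  by_cases hsum : η + y = 0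
  · have h1 : ρ (η + y) = 0 := by rw [hsum, map_zero]
    rw [map_add, hρη, zero_add] at h1
    exact hρy.ne' h1
  · have hs : p i (η + y) = η + y := by rw [map_add, hη, hy]
    have h1 := RAlg.eq_zero_of_orbit hF hij hA hs hsum
      (ρ := ρ - ρ.comp u) (fun a b hab => by
        have h2 := hb a b hab
        have h3 := hg a b hab
        simp only [ContinuousLinearMap.sub_apply, ContinuousLinearMap.comp_apply, map_add]
        rw [h2, h3]
        ring) hη
    simp only [ContinuousLinearMap.sub_apply, ContinuousLinearMap.comp_apply] at h1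
    rw [hρη, huη, zero_sub, neg_eq_zero] at h1
    exact hρy.ne' h1

end Pool.Agent.Helper61.RO
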