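import Pool.Agent.Helper61.RO.RMax
import Pool.Agent.Helper61.RO.RFrameApi
import Pool.Agent.Helper61.RO.DjApi

/-!
# RO-14  The support theorem in a real frame

Real version of `HP/Support.lean` (copy the proofs). `𝓛 = 𝓛 i j`, blocks `j` (of `x`) and `i`.

* `eq_zero_of_rdense`: if `f (D a) = 0` for all `D ∈ 𝓛 i j`, `a ≠ 0` in the block `j`, then `f = 0` on the block `i` (density).
* `RMaxTrip.support`: (i) if `z = x - su W x ≠ 0` (it is in the block `j`), then `ρ ((1 - e) (D z)) = 0` for all `D` (`RMaxTrip.zero`: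
  `D_0 x = (1 - e) D z`), so `ρ ((1 - e) b) = 0` on the block `i` by density; `RMaxTrip.one`: `D_1 x = e D z + (1 - e) D (e x)`, `D (e x)` in the
  block `i`, so `ρ (e D z) = 0`, `ρ (e b) = 0`: `ρ = 0` on the block `i`, contradiction. (ii) `e x = x`, `D_1 x = (1 - e) D x`.
* `RMaxTrip.pos`: by density there is `D ∈ 𝓛 i j` with `ρ (D x) > 0`; scale it to norm `≤ 1`.
* `rfix_of_norming`: `‖e r‖ ≤ ‖r‖`, `‖e r + r‖ ≥ ρ (e r + r) = 2 ‖r‖`: strict convexity (`rotund_of_nice`).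
* `exists_rtrip_fix`: `ρ` a norming functional of some `b ≠ 0` of the block `i`, `exists_rmaxTrip`, `support`.
-/

set_option autoImplicit false

open Filter Topology

namespace Pool.Agent.Helper61.RO

universe u

variable {E : Type u} [NormedAddCommGroup E] [NormedSpace ℝ E] [CompleteSpace E]
  {p : Fin 3 → (E →L[ℝ] E)} {𝓛 : Fin 3 → Fin 3 → Set (E →L[ℝ] E)} {i j k : Fin 3}
  {D D' W : E →L[ℝ] E} {x y z : E} {ρ : StrongDual ℝ E}

omit [CompleteSpace E] in
theorem eq_zero_of_rdense (hF : RFrame p 𝓛) (hij : i ≠ j) {f : StrongDual ℝ E} {a : E}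
    (ha : p j a = a) (ha0 : a ≠ 0) (hf : ∀ D ∈ 𝓛 i j, f (D a) = 0) (b : E) (hb : p i b = b) :
    f b = 0 := by
  by_contra hc
  have hpos : 0 < |f b| := abs_pos.2 hc
  have hn : 0 < ‖f‖ + 1 := by positivity
  obtain ⟨D, hD, hDb⟩ := hF.dense i j hij a ha0 ha b hb (|f b| / (‖f‖ + 1)) (div_pos hpos hn)
  have h1 : f b = f (b - D a) := by
    rw [map_sub, hf D hD, sub_zero]
  have h2 : |f b| ≤ ‖f‖ * ‖b - D a‖ := by
    have h := f.le_opNorm (b - D a)
    rw [← h1, Real.norm_eq_abs] at h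
    exact h
  have h3 : ‖b - D a‖ < |f b| / (‖f‖ + 1) := by rw [norm_sub_rev]; exact hDb
  have h4 : ‖b - D a‖ * (‖f‖ + 1) < |f b| := (lt_div_iff₀ hn).1 h3
  have h5 : 0 ≤ ‖b - D a‖ := norm_nonneg _
  nlinarith

omit [CompleteSpace E] in
private lemma su_apply' (W : E →L[ℝ] E) (x : E) : su W x = -(W (W x)) := rfl

/-- the support of a tripotent preserves the blocks -/
private lemma su_map_aux {E : Type u} [NormedAddCommGroup E] [NormedSpace ℝ E]
    {p : Fin 3 → (E →L[ℝ] E)} {𝓛 : Fin 3 → Fin 3 → Set (E →L[ℝ] E)} {i j : Fin 3}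
    {W : E →L[ℝ] E} {x : E} (hF : RFrame p 𝓛) (hij : i ≠ j) (hW : W ∈ 𝓛 i j)
    (hx : p j x = x) : p j (su W x) = su W x := by
  have h1 : p i (W x) = W x := hF.map hij hW hx
  have h2 : p j (W (W x)) = W (W x) := hF.map' hij hW h1
  rw [su_apply', map_neg, h2]

theorem RMaxTrip.support (hN : RNice E) (hF : RFrame p 𝓛) (hij : i ≠ j)
    (hW : RMaxTrip (𝓛 i j) ρ x W) (hx : p j x = x) (hx0 : x ≠ 0) (hρ : ∃ b, p i b = b ∧ ρ b ≠ 0) :
    su W x = x ∧ ∀ b, p i b = b → ρ (su W b) = ρ b := by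
  have hL := hF.link i j hij
  have hex : p j (su W x) = su W x := su_map_aux hF hij hW.mem hx
  have hfix : su W x = x := by
    by_contra hne
    have hz : p j (x - su W x) = x - su W x := by rw [map_sub, hx, hex]
    have hz0 : x - su W x ≠ 0 := by
      intro h
      exact hne (sub_eq_zero.1 h).symm
    have h0 : ∀ b, p i b = b → ρ (b - su W b) = 0 := by
      intro b hb
      have key : ∀ D ∈ 𝓛 i j, (ρ.comp (1 - su W)) (D (x - su W x)) = 0 := by
        intro D hD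
        have h3 := hW.zero hN hL hD
        have h4 : ((1 - su W) * D * (1 - su W)) x =
            (D (x - su W x)) - su W (D (x - su W x)) := rfl
        rw [h4] at h3
        exact h3
      have h5 := eq_zero_of_rdense hF hij (f := ρ.comp (1 - su W)) hz hz0 key b hb
      exact h5
    have h1 : ∀ b, p i b = b → ρ (su W b) = 0 := by
      intro b hb
      refine eq_zero_of_rdense hF hij (f := ρ.comp (su W)) hz hz0 (fun D hD => ?_) b hb
      have h3 := hW.one hN hL hD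
      have h4 : (su W * D * (1 - su W) + (1 - su W) * D * su W) x =
          su W (D (x - su W x)) + (D (su W x) - su W (D (su W x))) := rfl
      rw [h4, map_add, h0 _ (hF.map hij hD hex), add_zero] at h3
      exact h3
    obtain ⟨b, hb, hb0⟩ := hρ
    apply hb0
    have h2 := h0 b hb
    rw [map_sub, h1 b hb, sub_zero] at h2
    exact h2
  refine ⟨hfix, ?_⟩
  intro b hb
  have h1 : ρ (b - su W b) = 0 := by
    refine eq_zero_of_rdense hF hij (f := ρ.comp (1 - su W)) hx hx0 (fun D hD => ?_) b hb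
    have h3 := hW.one hN hL hD
    have h4 : (su W * D * (1 - su W) + (1 - su W) * D * su W) x =
        su W (D (x - su W x)) + (D (su W x) - su W (D (su W x))) := rfl
    rw [h4, hfix, sub_self, map_zero, map_zero, zero_add] at h3
    exact h3
  rw [map_sub, sub_eq_zero] at h1
  exact h1.symm

theorem RMaxTrip.pos (hF : RFrame p 𝓛) (hij : i ≠ j)
    (hW : RMaxTrip (𝓛 i j) ρ x W) (hx : p j x = x) (hx0 : x ≠ 0) (hρ : ∃ b, p i b = b ∧ ρ b ≠ 0) :
    0 < ρ (W x) := by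
  have hL := hF.link i j hij
  by_contra hc
  push Not at hc
  obtain ⟨b, hb, hb0⟩ := hρ
  apply hb0
  refine eq_zero_of_rdense hF hij hx hx0 (fun D hD => ?_) b hb
  have key : ∀ D' ∈ 𝓛 i j, ρ (D' x) ≤ 0 := by
    intro D' hD'
    have hn : (0 : ℝ) < 1 + ‖D'‖ := by positivity
    have h1 := hW.max _ (hL.smul (1 + ‖D'‖)⁻¹ D' hD') (by
      rw [norm_smul, Real.norm_eq_abs, abs_of_pos (inv_pos.2 hn), inv_mul_le_iff₀ hn]
      linarith)
    have h1' : (1 + ‖D'‖)⁻¹ * ρ (D' x) ≤ ρ (W x) := by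
      have e : ρ (((1 + ‖D'‖)⁻¹ • D') x) = (1 + ‖D'‖)⁻¹ * ρ (D' x) := by
        rw [_root_.smul_apply, map_smul, smul_eq_mul]
      rw [← e]
      exact h1
    by_contra h2
    push Not at h2
    have h3 := mul_pos (inv_pos.2 hn) h2
    linarith
  have k1 := key D hD
  have k2 := key ((-1 : ℝ) • D) (hL.smul (-1) D hD)
  have e : ρ (((-1 : ℝ) • D) x) = -ρ (D x) := by
    rw [_root_.smul_apply, map_smul, smul_eq_mul, neg_one_mul]
  rw [e] at k2
  linarith

theorem rfix_of_norming (hN : RNice E) {e : E →L[ℝ] E} (he : ‖e‖ ≤ 1) {r : E}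
    (hρ : RNorming ρ r) (h : ρ (e r) = ρ r) : e r = r := by
  rcases eq_or_ne r 0 with hr | hr
  · rw [hr, map_zero]
  have hr' : 0 < ‖r‖ := norm_pos_iff.2 hr
  have h1 : ‖e r‖ ≤ ‖r‖ := by
    have := e.le_of_opNorm_le he r
    rwa [one_mul] at this
  have h2 : 2 * ‖r‖ ≤ ‖e r + r‖ := by
    have h3 : ρ (e r + r) ≤ ‖e r + r‖ := by
      have h4 := ρ.le_of_opNorm_le hρ.1 (e r + r)
      rw [one_mul, Real.norm_eq_abs] at h4
      exact (le_abs_self _).trans h4
    rw [map_add, h, hρ.2] at h3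
    linarith
  have h3 : ‖e r + r‖ ≤ ‖e r‖ + ‖r‖ := norm_add_le _ _
  have h4 : ‖e r‖ = ‖r‖ := by linarith
  have h5 : ‖e r + r‖ = 2 * ‖r‖ := by linarith
  have hne : (‖r‖ : ℝ) ≠ 0 := hr'.ne'
  have hci : ‖(‖r‖⁻¹ : ℝ)‖ = ‖r‖⁻¹ := by
    rw [Real.norm_eq_abs, abs_of_pos (inv_pos.2 hr')]
  have h6 := rotund_of_nice hN (x := (‖r‖⁻¹ : ℝ) • e r) (y := (‖r‖⁻¹ : ℝ) • r)
    (by rw [norm_smul, hci, h4, inv_mul_cancel₀ hne])
    (by rw [norm_smul, hci, inv_mul_cancel₀ hne])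
    (by rw [← smul_add, norm_smul, hci, h5]; field_simp)
  exact smul_right_injective E (inv_ne_zero hne) h6

theorem exists_rtrip_fix (hN : RNice E) (hF : RFrame p 𝓛) (hij : i ≠ j)
    (hB : ∃ b, p i b = b ∧ b ≠ 0) (hx : p j x = x) (hx0 : x ≠ 0) :
    ∃ W, RTrip (𝓛 i j) W ∧ su W x = x := by
  obtain ⟨b, hb, hb0⟩ := hB
  obtain ⟨W, hW⟩ := exists_rmaxTrip hN (hF.link i j hij) (dj b) x
  refine ⟨W, hW.toRTrip, (hW.support hN hF hij hx hx0 ⟨b, hb, ?_⟩).1⟩
  rw [dj_self]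
  exact (norm_pos_iff.2 hb0).ne'

/-- the support of a tripotent preserves the blocks -/
theorem RFrame.su_map (hF : RFrame p 𝓛) (hij : i ≠ j) (hW : W ∈ 𝓛 i j) (hx : p j x = x) :
    p j (su W x) = su W x :=
  su_map_aux hF hij hW hx

theorem RFrame.su_map' (hF : RFrame p 𝓛) (hij : i ≠ j) (hW : W ∈ 𝓛 i j) (hx : p i x = x) :
    p i (su W x) = su W x := by
  rw [hF.symm i j] at hW
  exact su_map_aux hF hij.symm hW hx

end Pool.Agent.Helper61.RO
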