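import Pool.Agent.Helper61.RO.RIdeal
import Pool.Agent.Helper61.RO.RSupport

/-!
# RO-19  The key inequality

Real version of `HP/KeyIneq.lean` (copy the proof). `W`, `W'` tripotents of `𝓛 i j`, `e = su W`, `e' = su W'`.

PROOF. `ρ y = ρ (e y) = - ρ (W (W y))`, so `ρ y - ρ (W W' W' W y) = - ρ (W W y) + ρ (W e' W y) = - ρ (W q)`, `q = W y - e' (W y)` in the block `j`, `e' q = 0`.
If `q = 0` we are done. Otherwise let `V ∈ 𝓛 k j` be a tripotent with `su V q = q` (`exists_rtrip_fix`). `X = W V - V W ∈ 𝓛 i k`,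
`X' = W' V - V W' ∈ 𝓛 i k` (`brk`), `D'` the operator of `rideal` for `(- W W', - W' W)` (`RAlg.gen`, `RAlg.neg`) and `D = X'`. `S = X - D' ∈ 𝓛 i k`.
On `y` in the block `i`: `V y = 0`, `X y = - V W y`; `D' y = X' (- W' W y) = V W' W' W y = - V e' W y`. So `S y = - V q` in the block `k`.
On `z` in the block `k`: `W z = 0 = W' z`, `X z = W V z`, `D' z = - W W' (X' z) = - W W' W' V z = W e' V z`, so `S z = W (V z - e' (V z))`.
`S (S y) = - W (V V q - e' V V q) = W (q - e' q) = W q`. By `RPos`: `ρ (W q) ≤ 0`, which is the claim.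
-/

set_option autoImplicit false

open Filter Topology

namespace Pool.Agent.Helper61.RO

universe u

variable {E : Type u} [NormedAddCommGroup E] [NormedSpace ℝ E] [CompleteSpace E]
  {p : Fin 3 → (E →L[ℝ] E)} {𝓛 : Fin 3 → Fin 3 → Set (E →L[ℝ] E)} {i j k : Fin 3}
  {W W' : E →L[ℝ] E} {y : E} {ρ : StrongDual ℝ E}

theorem rkey_ineq (hN : RNice E) (hF : RFrame p 𝓛) (hij : i ≠ j) (hik : i ≠ k) (hjk : j ≠ k)
    (hk : ∃ z, p k z = z ∧ z ≠ 0) (hW : RTrip (𝓛 i j) W) (hW' : RTrip (𝓛 i j) W')
    (he : ∀ b, p i b = b → ρ (su W b) = ρ b) (hy : p i y = y) (hP : RPos (𝓛 i k) ρ y) :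
    ρ (W (W' (W' (W y)))) ≤ ρ y := by
  have hcube : ∀ x, W' (W' (W' x)) = -(W' x) := fun x => by
    have h := congrArg (fun T : E →L[ℝ] E => T x) hW'.cube
    simpa using h
  have hρy : ρ (W (W y)) = -ρ y := by
    have h := he y hy
    have h2 : su W y = -(W (W y)) := by simp [su]
    rw [h2, map_neg] at h
    rw [← h, neg_neg]
  have hWy : p j (W y) = W y := hF.map' hij hW.mem hy
  have hW'Wy : p i (W' (W y)) = W' (W y) := hF.map hij hW'.mem hWy
  have hW'W'Wy : p j (W' (W' (W y))) = W' (W' (W y)) := hF.map' hij hW'.mem hW'Wy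
  set q : E := W y + W' (W' (W y)) with hqdef
  have hq : p j q = q := by
    rw [hqdef, map_add, hWy, hW'W'Wy]
  have hW'q : W' (W' q) = 0 := by
    rw [hqdef]
    simp only [map_add]
    rw [hcube (W' (W y)), add_neg_cancel]
  have hmain : ρ (W q) ≤ 0 := by
    by_cases hq0 : q = 0
    · rw [hq0]
      simp
    · obtain ⟨V, hV, hVq⟩ := exists_rtrip_fix hN hF hjk.symm hk hq hq0
      have hVmem : V ∈ 𝓛 j k := by
        rw [hF.symm]
        exact hV.mem
      have hVVq : V (V q) = -q := by
        have h2 : su V q = -(V (V q)) := by simp [su]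
        rw [h2] at hVq
        rw [← hVq, neg_neg, hVq]
      have hX : W * V - V * W ∈ 𝓛 i k := hF.brk i j k hij hjk hik W hW.mem V hVmem
      have hX' : W' * V - V * W' ∈ 𝓛 i k := hF.brk i j k hij hjk hik W' hW'.mem V hVmem
      have hAlg : RAlg (𝓛 i j) (-(W * W')) (-(W' * W)) :=
        (RAlg.gen W W' hW.mem hW'.mem).neg
      obtain ⟨D', hD', h1, h2⟩ := rideal hF hij hik hjk hAlg hX'
      have hS : W * V - V * W - D' ∈ 𝓛 i k := by
        have h3 := (hF.link i k hik).add _ hX _ ((hF.link i k hik).smul (-1) _ hD')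
        rwa [neg_one_smul, ← sub_eq_add_neg] at h3
      have hPos := hP _ hS
      have hVy : V y = 0 := hF.kills hjk hij hik hVmem hy
      have hVW'Wy : V (W' (W y)) = 0 := hF.kills hjk hij hik hVmem hW'Wy
      have hSy : (W * V - V * W - D') y = -(V q) := by
        have e1 := h2 y hy
        simp only [ContinuousLinearMap.sub_apply, ContinuousLinearMap.mul_apply, e1, map_neg,
          ContinuousLinearMap.neg_apply, hVy, hVW'Wy, map_zero,
          hqdef, map_add]
        abel
      have hVq' : p k (V q) = V q := hF.map' hjk hVmem hq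
      have hSS : (W * V - V * W - D') ((W * V - V * W - D') y) = W q := by
        rw [hSy, map_neg]
        have e1 := h1 (V q) hVq'
        have e2 : W (V q) = 0 := hF.kills hij hik.symm hjk.symm hW.mem hVq'
        have e3 : W' (V q) = 0 := hF.kills hij hik.symm hjk.symm hW'.mem hVq'
        simp only [ContinuousLinearMap.sub_apply, ContinuousLinearMap.mul_apply, e1, map_neg,
          ContinuousLinearMap.neg_apply, e2, e3, map_zero, hVVq, map_sub,
          sub_zero, neg_zero, hW'q, zero_sub, neg_neg]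
      rw [hSS] at hPos
      exact hPos
  have e : ρ (W q) = -ρ y + ρ (W (W' (W' (W y)))) := by
    rw [hqdef, map_add, map_add, hρy]
  rw [e] at hmain
  linarith

end Pool.Agent.Helper61.RO
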