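import Pool.Agent.Helper61.RO.RAlgHerm
import Pool.Agent.Helper61.RO.RKeyIneq
import Pool.Agent.Helper61.RO.RKeyAlg

/-!
# RO-21  The key theorem

Real version of `HP/Key.lean` (copy the proof).

PROOF. `ρ = dj r`, `ρ r = 1`. `W` a maximal tripotent of `𝓛 i j` at `(x, ρ)`, `e = su W`: `e x = x`, `ρ (e b) = ρ b` on the block `i`; `e r = r` (`rfix_of_norming`).
`ξ = W x` in the block `i`, norm `1` (`RTrip.norm_apply`), `e ξ = ξ`; `m = ρ ξ > 0` (`RMaxTrip.pos`). Suppose `η₀ = ξ - m r ≠ 0`; `η = η₀ / ‖η₀‖`, `e η = η`, `ρ η = 0`.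
`x' = - W η` in the block `j`, norm `1`, `W x' = e η = η`. `W'` a maximal tripotent at `(x', ρ)`, `e' x' = x'`, `y = W' x'` in the block `i`, `ρ y > 0`.
`u = - (W' * W)`, `v = - (W * W')`: `RAlg u v`. `u η = W' x' = y`, `v y = - W W' W' x' = W x' = η`. Good vectors for `𝓛 i k`: `ξ` (`rgood_max`), `r`
(`rgood_norming`), `η`; `y` (`rgood_max`, `rpos_max`). By `ralg_herm`, `ralg_pos`, `rkey_ineq` the hypotheses of `rkey_alg` hold: contradiction. So
`ξ = m r`, `m = ‖ξ‖ = 1`, `W x = r`. `W (W x) = - x` follows from `su W x = x`.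
-/

set_option autoImplicit false

open Filter Topology

namespace Pool.Agent.Helper61.RO

universe u

variable {E : Type u} [NormedAddCommGroup E] [NormedSpace ℝ E] [CompleteSpace E]
  {p : Fin 3 → (E →L[ℝ] E)} {𝓛 : Fin 3 → Fin 3 → Set (E →L[ℝ] E)} {i j k : Fin 3} {x r : E}

theorem rkey (hN : RNice E) (hF : RFrame p 𝓛) (hij : i ≠ j) (hik : i ≠ k) (hjk : j ≠ k)
    (hk : ∃ z, p k z = z ∧ z ≠ 0) (hx : p j x = x) (hr : p i r = r) (hx1 : ‖x‖ = 1)
    (hr1 : ‖r‖ = 1) : ∃ W : E →L[ℝ] E, RTrip (𝓛 i j) W ∧ W x = r ∧ W r = -x := by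
  obtain ⟨ρ, hρ⟩ : ∃ ρ : StrongDual ℝ E, RNorming ρ r := ⟨dj r, rnorming_dj r⟩
  have hρr : ρ r = 1 := by rw [hρ.2, hr1]
  have hρB : ∃ b, p i b = b ∧ ρ b ≠ 0 := ⟨r, hr, by rw [hρr]; exact one_ne_zero⟩
  have hx0 : x ≠ 0 := by
    rintro rfl
    rw [norm_zero] at hx1
    exact zero_ne_one hx1
  have hsu : ∀ (V : E →L[ℝ] E) (z : E), su V z = -(V (V z)) := by
    intro V z
    rfl
  have hWW : ∀ (V : E →L[ℝ] E) (z : E), su V z = z → V (V z) = -z := by
    intro V z h
    rw [hsu] at h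
    rw [← neg_neg (V (V z)), h]
  obtain ⟨W, hW⟩ := exists_rmaxTrip hN (hF.link i j hij) ρ x
  obtain ⟨hex, hρe⟩ := hW.support hN hF hij hx hx0 hρB
  have hWt : RTrip (𝓛 i j) W := hW.toRTrip
  have her : su W r = r := rfix_of_norming hN hWt.norm_su_le hρ (hρe r hr)
  have hξB : p i (W x) = W x := hF.map hij hWt.mem hx
  have hξ1 : ‖W x‖ = 1 := by rw [hWt.norm_apply hex, hx1]
  have hpos : 0 < ρ (W x) := hW.pos hF hij hx hx0 hρB
  obtain ⟨m, hm⟩ : ∃ m : ℝ, m = ρ (W x) := ⟨_, rfl⟩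
  have hρξ : ρ (W x) = m := hm.symm
  rw [← hm] at hpos
  have hmain : W x = r := by
    by_cases h0 : W x - m • r = 0
    · have h1 : W x = m • r := sub_eq_zero.mp h0
      have h2 : m = 1 := by
        have h3 := hξ1
        rw [h1, norm_smul, hr1, mul_one, Real.norm_eq_abs, abs_of_pos hpos] at h3
        exact h3
      rw [h1, h2, one_smul]
    · exfalso
      obtain ⟨η₀, hη₀⟩ : ∃ η₀ : E, η₀ = W x - m • r := ⟨_, rfl⟩
      rw [← hη₀] at h0
      have hn0 : ‖η₀‖ ≠ 0 := norm_ne_zero_iff.mpr h0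
      obtain ⟨η, hη⟩ : ∃ η : E, η = ‖η₀‖⁻¹ • η₀ := ⟨_, rfl⟩
      have hη1 : ‖η‖ = 1 := by
        rw [hη, norm_smul, norm_inv, norm_norm, inv_mul_cancel₀ hn0]
      have hη0 : η ≠ 0 := by
        intro h
        rw [h, norm_zero] at hη1
        exact zero_ne_one hη1
      have hη₀B : p i η₀ = η₀ := by
        rw [hη₀, map_sub, map_smul, hξB, hr]
      have hηB : p i η = η := by
        rw [hη, map_smul, hη₀B]
      have heξ : su W (W x) = W x := by
        have h1 := congrArg (fun A : E →L[ℝ] E => A x) hWt.su_mul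
        exact h1
      have heη : su W η = η := by
        rw [hη, map_smul, hη₀, map_sub, map_smul, her, heξ]
      have hρη : ρ η = 0 := by
        rw [hη, map_smul, hη₀, map_sub, map_smul, hρξ, hρr, smul_eq_mul, smul_eq_mul, mul_one,
          sub_self, mul_zero]
      obtain ⟨x', hx'⟩ : ∃ x' : E, x' = -(W η) := ⟨_, rfl⟩
      have hx'A : p j x' = x' := by
        rw [hx', map_neg, hF.map' hij hWt.mem hηB]
      have hx'1 : ‖x'‖ = 1 := by rw [hx', norm_neg, hWt.norm_apply heη, hη1]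
      have hx'0 : x' ≠ 0 := by
        intro h
        rw [h, norm_zero] at hx'1
        exact zero_ne_one hx'1
      have hWx' : W x' = η := by
        rw [hx', map_neg, hWW W η heη, neg_neg]
      obtain ⟨W', hW'⟩ := exists_rmaxTrip hN (hF.link i j hij) ρ x'
      obtain ⟨he'x, -⟩ := hW'.support hN hF hij hx'A hx'0 hρB
      have hW't : RTrip (𝓛 i j) W' := hW'.toRTrip
      obtain ⟨y, hy⟩ : ∃ y : E, y = W' x' := ⟨_, rfl⟩
      have hyB : p i y = y := by
        rw [hy]
        exact hF.map hij hW't.mem hx'A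
      have hypos : 0 < ρ y := by
        rw [hy]
        exact hW'.pos hF hij hx'A hx'0 hρB
      obtain ⟨u, hu⟩ : ∃ u : E →L[ℝ] E, u = -(W' * W) := ⟨_, rfl⟩
      obtain ⟨v, hv⟩ : ∃ v : E →L[ℝ] E, v = -(W * W') := ⟨_, rfl⟩
      have hua : ∀ z : E, u z = -(W' (W z)) := by
        intro z
        rw [hu]
        rfl
      have hva : ∀ z : E, v z = -(W (W' z)) := by
        intro z
        rw [hv]
        rfl
      have huv : RAlg (𝓛 i j) u v := by
        rw [hu, hv]
        exact (RAlg.gen W' W hW't.mem hWt.mem).neg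
      have huη : u η = y := by
        rw [hua, hy, hx', map_neg]
      have hvy : v y = η := by
        rw [hva, hy, hWW W' x' he'x, map_neg, neg_neg, hWx']
      have hGξ : RGood (𝓛 i k) ρ (W x) := rgood_max hF hij hik hjk hx hW
      have hGr : RGood (𝓛 i k) ρ r := rgood_norming hF hik hρ
      have hGη : RGood (𝓛 i k) ρ η := by
        have h1 : η = ‖η₀‖⁻¹ • (W x + (-m) • r) := by
          rw [hη, hη₀, neg_smul, sub_eq_add_neg]
        rw [h1]
        exact (hGξ.add (hGr.smul _)).smul _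
      have hGy : RGood (𝓛 i k) ρ y := by
        rw [hy]
        exact rgood_max hF hij hik hjk hx'A hW'
      have hPy : RPos (𝓛 i k) ρ y := by
        rw [hy]
        exact rpos_max hF hij hik hjk hx'A hW'
      have hineq : ρ (v (u y)) ≤ ρ y := by
        have h1 := rkey_ineq hN hF hij hik hjk hk hWt hW't hρe hyB hPy
        have h2 : v (u y) = W (W' (W' (W y))) := by
          rw [hva, hua, map_neg W', map_neg W, neg_neg]
        rw [h2]
        exact h1
      exact rkey_alg hF hij ⟨x, hx, hx0⟩ hηB hyB huv huη hvy hρη hypos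
        (fun a b hab => ralg_herm hN hF hij hik hjk hk hρB hηB hGη hab)
        (fun a b hab => ralg_herm hN hF hij hik hjk hk hρB hyB hGy hab)
        (fun a b hab => ralg_pos hN hF hij hik hjk hk hyB hPy hab) hineq
  refine ⟨W, hWt, hmain, ?_⟩
  rw [← hmain]
  exact hWW W x hex

end Pool.Agent.Helper61.RO
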