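import Pool.Agent.Helper61.RO.Defs
import Pool.Agent.Helper60.Rosenthal.Main
import Pool.Agent.Helper59.Rotation.Rotund

/-!
# RO-96  Separable transitive spaces without `ℓ¹`

PROOF. `convex`, `smooth`: `Helper60.Rosenthal.uniform_of_transitive` (`UConvex`, `USmooth` unfold to the same statements; the hypothesis is used as `fun h => hl1 h.embedding`, see `HP/NiceOf.lean`). `refl`: `surjective_of_uconvex` exactly as in `HP/NiceOf.lean` (`hsurj`): for `F` there is `x` with
`inclusionInDoubleDualLi ℝ x = F`.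
-/

set_option autoImplicit false

open Filter Topology

namespace Pool.Agent.Helper61.RO

universe u

variable {E : Type u} [NormedAddCommGroup E] [NormedSpace ℝ E] [CompleteSpace E]

theorem rnice_of_transitive [TopologicalSpace.SeparableSpace E] (htr : RTrans E)
    (hl1 : ¬ ∃ (J : lp (fun _ : ℕ => ℝ) 1 →L[ℝ] E) (c : ℝ), 0 < c ∧ ∀ a, c * ‖a‖ ≤ ‖J a‖) :
    RNice E := by
  have hU := Helper60.Rosenthal.uniform_of_transitive htr fun h => hl1 h.embedding
  have hUCD : Helper60.Rosenthal.UConvex (StrongDual ℝ E) :=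
    Helper60.Rosenthal.uconvex_dual hU.2
  have hsurj : Function.Surjective (NormedSpace.inclusionInDoubleDualLi ℝ (E := E)) :=
    Helper60.Rosenthal.surjective_of_uconvex hUCD
      (NormedSpace.inclusionInDoubleDualLi ℝ (E := E)) (by
      intro f c hc
      by_cases hc0 : c < 0
      · exact ⟨0, by simp, by simpa using hc0⟩
      · obtain ⟨x, hx, hfx⟩ := Helper60.Rosenthal.exists_unit_lt f (not_lt.mp hc0) hc
        exact ⟨x, hx.le, hfx⟩)
  refine ⟨fun F => ?_, hU.1, hU.2⟩
  obtain ⟨x, hx⟩ := hsurj F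
  refine ⟨x, fun φ => ?_⟩
  rw [← hx]
  rfl

end Pool.Agent.Helper61.RO
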