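import Pool.Agent.Helper61.RO.Structure
import Pool.Agent.Helper61.RO.AlphaMain
import Pool.Agent.Helper61.RO.CMain
import Pool.Agent.Helper61.RO.RNiceOf
import Pool.Agent.Helper61.RO.RFin
import Pool.Agent.Helper61.RO.Classify

/-!
# RO-99  The main theorem

PROOF. `rnice_of_transitive`; if `E` is finite-dimensional, `par_of_fin`; otherwise `structure_thm` and `par_of_alpha` or `par_of_ext`.
-/

set_option autoImplicit false

open Filter Topology

namespace Pool.Agent.Helper61.RO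

universe u

variable {E : Type u} [NormedAddCommGroup E] [NormedSpace ℝ E] [CompleteSpace E]
  [TopologicalSpace.SeparableSpace E] {D : E →L[ℝ] E}

theorem ro_main (htr : RTrans E)
    (hl1 : ¬ ∃ (J : lp (fun _ : ℕ => ℝ) 1 →L[ℝ] E) (c : ℝ), 0 < c ∧ ∀ a, c * ‖a‖ ≤ ‖J a‖)
    (hsk : Sk D) (hns : ∀ s : ℝ, D * D ≠ s • (1 : E →L[ℝ] E)) (x y : E) :
    ‖x + y‖ ^ 2 + ‖x - y‖ ^ 2 = 2 * (‖x‖ ^ 2 + ‖y‖ ^ 2) := by
  have hN := rnice_of_transitive htr hl1
  by_cases hfin : FiniteDimensional ℝ E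
  · exact par_of_fin htr x y
  · rcases structure_thm hN htr hfin hsk hns with ⟨D₁, D₂, h⟩ | ⟨a, b, c, h, hE, hK⟩
    · exact par_of_alpha hN htr h x y
    · exact par_of_ext hN htr h hE hK x y

end Pool.Agent.Helper61.RO
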