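import Pool.Agent.Helper61.RO.LinkCx
import Pool.Agent.Helper61.HO.WOptim
import Pool.Agent.Helper61.HO.WSupport

/-!
# RO-12  Maximal tripotents of real links

PROOFS.
* `exists_rmaxTrip`: copy the proof of `WLink.exists_maxTrip` (`HO/WMax.lean`) with real operators: it uses the niceness of the space only
  through ultralimits (here `exists_rulim`, `RULim...`), and `WLink.optim`, `WLink.tendsto_pow` for the weak link `hL.wlink hN` in `Cx E`, applied to
  `cx D`, `ev ρ`, `io x` (`(ev ρ (cx D (io x))).re = ρ (D x)` by `cx_io`, `ev_io`; an element of norm `≤ 1` of the weak link is `cx D'`, `‖D'‖ ≤ 1`, `norm_cx`).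
* `RTrip.cx`, `RMaxTrip.cx`: by definition, `norm_cx`, `cx_mul`.
* `RMaxTrip.zero`, `one`: `MaxTrip.w_zero`, `w_one` (they do not need niceness) for `RMaxTrip.cx`; `cx (su W) = supp (cx W)`.
-/

set_option autoImplicit false

open Filter Topology

namespace Pool.Agent.Helper61.RO

universe u

variable {E : Type u} [NormedAddCommGroup E] [NormedSpace ℝ E] [CompleteSpace E]
  {𝓛 : Set (E →L[ℝ] E)} {ρ : StrongDual ℝ E} {x : E} {W D : E →L[ℝ] E}

omit [CompleteSpace E] in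
private theorem re_ev_cx (ρ : StrongDual ℝ E) (D : E →L[ℝ] E) (x : E) :
    (ev ρ (cx D (io x))).re = ρ (D x) := by
  rw [cx_io, ev_io, Complex.ofReal_re]

omit [CompleteSpace E] in
private theorem norm_sq_le' {A : E →L[ℝ] E} (h : ‖A‖ ≤ 1) : ‖A * A‖ ≤ 1 :=
  calc ‖A * A‖ ≤ ‖A‖ * ‖A‖ := norm_mul_le _ _
    _ ≤ 1 * 1 := mul_le_mul h h (norm_nonneg _) zero_le_one
    _ = 1 := one_mul _

omit [CompleteSpace E] in
private theorem rulim_norm_le (hN : RNice E) {D : ℕ → E →L[ℝ] E} {L : E →L[ℝ] E} (h : RULim D L)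
    {C : ℝ} (hD : ∀ n, ‖D n‖ ≤ C) : ‖L‖ ≤ C := by
  obtain ⟨L', h1, h2⟩ := exists_rulim hN D C hD
  rw [h.unique h2]
  exact h1

omit [CompleteSpace E] in
private theorem rulim_congr {D D' : ℕ → E →L[ℝ] E} {L : E →L[ℝ] E} (h : RULim D L)
    (h' : Tendsto (fun n => ‖D' n - D n‖) atTop (𝓝 0)) : RULim D' L := by
  have h1 : Tendsto (fun n => D' n - D n) atTop (𝓝 0) := tendsto_zero_iff_norm_tendsto_zero.2 h'
  have h2 := h.add (rulim_of_tendsto h1)
  rw [add_zero] at h2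
  intro x φ
  refine (h2 x φ).congr fun n => ?_
  have e : D n + (D' n - D n) = D' n := add_sub_cancel _ _
  exact congrArg (fun A : E →L[ℝ] E => φ (A x)) e

omit [CompleteSpace E] in
private theorem rulim_eq {D : ℕ → E →L[ℝ] E} {L : E →L[ℝ] E} (h : RULim D L)
    (ρ : StrongDual ℝ E) (x : E) {m : ℝ} (hm : Tendsto (fun n => ρ (D n x)) atTop (𝓝 m)) :
    ρ (L x) = m :=
  tendsto_nhds_unique (h x ρ) (hm.mono_left Nat.hyperfilter_le_atTop)

omit [CompleteSpace E] in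
private theorem sq_mul_mem' (hL : RLink 𝓛) {X : E →L[ℝ] E} (hD : D ∈ 𝓛) (hX : X ∈ 𝓛)
    (h : D * X = X * D) : D * D * X ∈ 𝓛 := by
  have e : D * D * X = D * X * D := by
    calc D * D * X = D * (D * X) := mul_assoc _ _ _
      _ = D * (X * D) := by rw [h]
      _ = D * X * D := (mul_assoc _ _ _).symm
  rw [e]
  exact hL.tri D hD X hX

private theorem optim' (hN : RNice E) (hL : RLink 𝓛) (hD : D ∈ 𝓛) (hD1 : ‖D‖ ≤ 1)
    (ρ : StrongDual ℝ E) (x : E) (hmax : ∀ D' ∈ 𝓛, ‖D'‖ ≤ 1 → ρ (D' x) ≤ ρ (D x)) (j : ℕ) :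
    ρ ((D * (-(D * D)) ^ j * (1 + D * D)) x) = 0 := by
  have h := (hL.wlink hN).optim (D := cx D) ⟨D, hD, rfl⟩ (by rw [norm_cx]; exact hD1) (ev ρ) (io x)
    (by
      rintro _ ⟨D', hD', rfl⟩ h1
      rw [norm_cx] at h1
      rw [re_ev_cx, re_ev_cx]
      exact hmax D' hD' h1) j
  have e : cx D * (-(cx D * cx D)) ^ j * (1 + cx D * cx D) =
      cx (D * (-(D * D)) ^ j * (1 + D * D)) := by
    rw [cx_mul, cx_mul, cx_pow, cx_neg, cx_mul, cx_add, cx_one, cx_mul]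
  rw [e, re_ev_cx] at h
  exact h

private theorem tendsto_pow' (hN : RNice E) (hL : RLink 𝓛) (hD : D ∈ 𝓛) (hD1 : ‖D‖ ≤ 1)
    {T : E →L[ℝ] E} (hT : T = -(D * D)) :
    Tendsto (fun n : ℕ => ‖T ^ n * (1 - T)‖) atTop (𝓝 0) := by
  have hT' : cx T = -(cx D * cx D) := by rw [hT, cx_neg, cx_mul]
  obtain ⟨R, hR, hS⟩ := (hL.wlink hN).tendsto_pow (S := cx T) (D := cx D) ⟨D, hD, rfl⟩
    (by rw [norm_cx]; exact hD1) hT'
  refine (HP.tendsto_pow_mul_one_sub R (cx T) hR hS).congr (fun n => ?_)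
  have e : cx T ^ n * (1 - cx T) = cx (T ^ n * (1 - T)) := by
    rw [cx_mul, cx_pow, cx_sub, cx_one]
  rw [e, norm_cx]

theorem exists_rmaxTrip (hN : RNice E) (hL : RLink 𝓛) (ρ : StrongDual ℝ E) (x : E) :
    ∃ W : E →L[ℝ] E, RMaxTrip 𝓛 ρ x W := by
  set A : Set ℝ := {r | ∃ D ∈ 𝓛, ‖D‖ ≤ 1 ∧ ρ (D x) = r} with hA
  have hne : A.Nonempty := ⟨_, 0, hL.zero, by simp, rfl⟩
  have hbd : BddAbove A := by
    refine ⟨‖ρ‖ * ‖x‖, ?_⟩
    rintro r ⟨D, _, hD1, rfl⟩
    calc ρ (D x) ≤ ‖ρ (D x)‖ := Real.le_norm_self _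
      _ ≤ ‖ρ‖ * ‖D x‖ := ρ.le_opNorm _
      _ ≤ ‖ρ‖ * ‖x‖ := by
          apply mul_le_mul_of_nonneg_left _ (norm_nonneg _)
          calc ‖D x‖ ≤ ‖D‖ * ‖x‖ := D.le_opNorm _
            _ ≤ 1 * ‖x‖ := mul_le_mul_of_nonneg_right hD1 (norm_nonneg _)
            _ = ‖x‖ := one_mul _
  obtain ⟨u, -, hu, huA⟩ := exists_seq_tendsto_sSup hne hbd
  choose Dn hDn hDn1 hDnu using huA
  obtain ⟨D, hD1, hDlim⟩ := exists_rulim hN Dn 1 hDn1
  have hD : D ∈ 𝓛 := hL.ulim Dn D hDn hDlim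
  have hval : ρ (D x) = sSup A := by
    apply rulim_eq hDlim ρ x
    have : (fun n => ρ (Dn n x)) = u := by
      funext n
      exact hDnu n
    rw [this]
    exact hu
  have hmax : ∀ D' ∈ 𝓛, ‖D'‖ ≤ 1 → ρ (D' x) ≤ ρ (D x) := by
    intro D' hD' hD'1
    rw [hval]
    exact le_csSup hbd ⟨D', hD', hD'1, rfl⟩
  set T : E →L[ℝ] E := -(D * D) with hT
  have hT1 : ‖T‖ ≤ 1 := by
    rw [hT, norm_neg]
    exact norm_sq_le' hD1
  have hTn : ∀ j : ℕ, ‖T ^ j‖ ≤ 1 := by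
    intro j
    induction j with
    | zero =>
      rw [pow_zero]
      exact ContinuousLinearMap.norm_id_le
    | succ j ih =>
      rw [pow_succ]
      calc ‖T ^ j * T‖ ≤ ‖T ^ j‖ * ‖T‖ := norm_mul_le _ _
        _ ≤ 1 * 1 := mul_le_mul ih hT1 (norm_nonneg _) zero_le_one
        _ = 1 := one_mul _
  have hcomm : Commute D T := by
    change D * T = T * D
    rw [hT]
    simp only [mul_neg, neg_mul, mul_assoc]
  have hcj : ∀ j : ℕ, D * T ^ j = T ^ j * D := fun j => hcomm.pow_right j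
  have hmem : ∀ j : ℕ, D * T ^ j ∈ 𝓛 := by
    intro j
    induction j with
    | zero => rw [pow_zero, mul_one]; exact hD
    | succ j ih =>
      have h1 : D * (D * T ^ j) = D * T ^ j * D := by
        rw [mul_assoc D (T ^ j) D, ← hcj j]
      have h2 := hL.neg (sq_mul_mem' hL hD ih h1)
      have h3 : D * T ^ (j + 1) = -(D * D * (D * T ^ j)) := by
        rw [pow_succ', ← mul_assoc D T, hcomm.eq, mul_assoc T D, hT]
        simp only [neg_mul]
      rw [h3]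
      exact h2
  have hnorm : ∀ j : ℕ, ‖D * T ^ j‖ ≤ 1 := by
    intro j
    calc ‖D * T ^ j‖ ≤ ‖D‖ * ‖T ^ j‖ := norm_mul_le _ _
      _ ≤ 1 * 1 := mul_le_mul hD1 (hTn j) (norm_nonneg _) zero_le_one
      _ = 1 := one_mul _
  have hconst : ∀ j : ℕ, ρ ((D * T ^ j) x) = sSup A := by
    intro j
    induction j with
    | zero => rw [pow_zero, mul_one]; exact hval
    | succ j ih =>
      have h1 := optim' hN hL hD hD1 ρ x hmax j
      rw [← hT] at h1
      have h2 : D * T ^ j * (1 + D * D) = D * T ^ j - D * T ^ (j + 1) := by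
        rw [pow_succ, mul_add, mul_one, hT]
        simp only [mul_neg, sub_neg_eq_add, mul_assoc]
      rw [h2, ContinuousLinearMap.sub_apply, map_sub, ih] at h1
      linarith
  obtain ⟨e, he1, he⟩ := exists_rulim hN (fun j => T ^ j) 1 hTn
  have hdiff : Tendsto (fun n : ℕ => ‖T ^ (n + 1) - T ^ n‖) atTop (𝓝 0) := by
    have h1 := tendsto_pow' hN hL hD hD1 hT
    refine h1.congr (fun n => ?_)
    rw [mul_sub, mul_one, ← pow_succ, norm_sub_rev]
  have hshift : RULim (fun n => T ^ (n + 1)) e := rulim_congr he hdiff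
  have hTe : T * e = e := by
    have h1 := he.mul_left T
    have h2 : (fun n => T * T ^ n) = fun n => T ^ (n + 1) := by
      funext n
      rw [pow_succ']
    rw [h2] at h1
    exact h1.unique hshift
  have hTje : ∀ j : ℕ, T ^ j * e = e := by
    intro j
    induction j with
    | zero => rw [pow_zero, one_mul]
    | succ j ih => rw [pow_succ, mul_assoc, hTe, ih]
  have hee : e * e = e := by
    have h1 := he.mul_right e
    have h2 : (fun n => T ^ n * e) = fun _ => e := funext hTje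
    rw [h2] at h1
    exact h1.unique (RULim.const e)
  have hWlim : RULim (fun j => D * T ^ j) (D * e) := he.mul_left D
  have hDe : D * e = e * D := by
    have h1 := he.mul_right D
    have h2 : (fun n => T ^ n * D) = fun n => D * T ^ n := by
      funext n
      exact (hcj n).symm
    rw [h2] at h1
    exact hWlim.unique h1
  have hWW : D * e * (D * e) = -e := by
    have h1 : D * e * (D * e) = D * D * e := by
      calc D * e * (D * e) = D * (e * D) * e := by simp only [mul_assoc]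
        _ = D * (D * e) * e := by rw [← hDe]
        _ = D * D * (e * e) := by simp only [mul_assoc]
        _ = D * D * e := by rw [hee]
    rw [h1, ← neg_neg (D * D), ← hT, neg_mul, hTe]
  refine ⟨D * e, ⟨⟨hL.ulim _ _ hmem hWlim, rulim_norm_le hN hWlim hnorm, ?_⟩, ?_⟩⟩
  · rw [hWW]
    calc -e * (D * e) = -(e * D * e) := by simp only [neg_mul, mul_assoc]
      _ = -(D * e * e) := by rw [← hDe]
      _ = -(D * (e * e)) := by rw [mul_assoc]
      _ = -(D * e) := by rw [hee]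
  · intro D' hD' hD'1
    have h1 : ρ ((D * e) x) = sSup A := by
      apply rulim_eq hWlim ρ x
      have h2 : (fun n => ρ ((D * T ^ n) x)) = fun _ => sSup A := funext hconst
      rw [h2]
      exact tendsto_const_nhds
    rw [h1]
    exact le_csSup hbd ⟨D', hD', hD'1, rfl⟩

theorem cx_su (W : E →L[ℝ] E) : cx (su W) = HP.supp (cx W) := by
  rw [su, HP.supp, cx_neg, cx_mul]

theorem RTrip.cx (hW : RTrip 𝓛 W) : HP.Trip {A : Cx E →L[ℂ] Cx E | ∃ D ∈ 𝓛, A = RO.cx D} (RO.cx W) := by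
  refine ⟨⟨W, hW.mem, rfl⟩, ?_, ?_⟩
  · rw [norm_cx]
    exact hW.norm_le
  · rw [← cx_mul, ← cx_mul, hW.cube, cx_neg]

theorem RMaxTrip.cx (hW : RMaxTrip 𝓛 ρ x W) :
    HP.MaxTrip {A : Cx E →L[ℂ] Cx E | ∃ D ∈ 𝓛, A = RO.cx D} (ev ρ) (io x) (RO.cx W) := by
  refine ⟨hW.toRTrip.cx, ?_⟩
  rintro _ ⟨D, hD, rfl⟩ h1
  rw [norm_cx] at h1
  rw [re_ev_cx, re_ev_cx]
  exact hW.max D hD h1

theorem RMaxTrip.zero (hN : RNice E) (hL : RLink 𝓛) (hW : RMaxTrip 𝓛 ρ x W) (hD : D ∈ 𝓛) :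
    ρ (((1 - su W) * D * (1 - su W)) x) = 0 := by
  have h := hW.cx.w_zero (hL.wlink hN) (D := RO.cx D) ⟨D, hD, rfl⟩
  have e : (1 - HP.supp (RO.cx W)) * RO.cx D * (1 - HP.supp (RO.cx W)) =
      RO.cx ((1 - su W) * D * (1 - su W)) := by
    rw [cx_mul, cx_mul, cx_sub, cx_one, cx_su]
  rw [e, re_ev_cx] at h
  exact h

theorem RMaxTrip.one (hN : RNice E) (hL : RLink 𝓛) (hW : RMaxTrip 𝓛 ρ x W) (hD : D ∈ 𝓛) :
    ρ ((su W * D * (1 - su W) + (1 - su W) * D * su W) x) = 0 := by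
  have h := hW.cx.w_one (hL.wlink hN) (D := RO.cx D) ⟨D, hD, rfl⟩
  have e : HP.supp (RO.cx W) * RO.cx D * (1 - HP.supp (RO.cx W)) +
      (1 - HP.supp (RO.cx W)) * RO.cx D * HP.supp (RO.cx W) =
      RO.cx (su W * D * (1 - su W) + (1 - su W) * D * su W) := by
    rw [cx_add, cx_mul, cx_mul, cx_mul, cx_mul, cx_sub, cx_one, cx_su]
  rw [e, re_ev_cx] at h
  exact h

/-! ### Peirce decomposition -/

omit [CompleteSpace E] in
theorem RTrip.su_idem (hW : RTrip 𝓛 W) : su W * su W = su W := by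
  have h := hW.cube
  rw [su]
  calc -(W * W) * -(W * W) = W * W * W * W := by noncomm_ring
    _ = -W * W := by rw [h]
    _ = -(W * W) := neg_mul _ _

omit [CompleteSpace E] in
theorem RTrip.su_mul (hW : RTrip 𝓛 W) : su W * W = W := by
  have h := hW.cube
  rw [su, neg_mul, h, neg_neg]

omit [CompleteSpace E] in
theorem RTrip.mul_su (hW : RTrip 𝓛 W) : W * su W = W := by
  have h := hW.cube
  rw [su, mul_neg, ← mul_assoc, h, neg_neg]

omit [CompleteSpace E] in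
theorem RTrip.norm_su_le (hW : RTrip 𝓛 W) : ‖su W‖ ≤ 1 := by
  rw [su, norm_neg]
  calc ‖W * W‖ ≤ ‖W‖ * ‖W‖ := norm_mul_le _ _
    _ ≤ 1 * 1 := mul_le_mul hW.norm_le hW.norm_le (norm_nonneg _) zero_le_one
    _ = 1 := one_mul _

omit [CompleteSpace E] in
theorem RTrip.norm_apply (hW : RTrip 𝓛 W) {y : E} (hy : su W y = y) : ‖W y‖ = ‖y‖ := by
  have h1 : ∀ z : E, ‖W z‖ ≤ ‖z‖ := fun z =>
    calc ‖W z‖ ≤ ‖W‖ * ‖z‖ := W.le_opNorm _
      _ ≤ 1 * ‖z‖ := mul_le_mul_of_nonneg_right hW.norm_le (norm_nonneg _)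
      _ = ‖z‖ := one_mul _
  refine le_antisymm (h1 y) ?_
  have h2 : -(W (W y)) = y := hy
  calc ‖y‖ = ‖W (W y)‖ := by
        conv_lhs => rw [← h2]
        rw [norm_neg]
    _ ≤ ‖W y‖ := h1 _

omit [CompleteSpace E] in
private theorem peirce_two' (hL : RLink 𝓛) (hW : RTrip 𝓛 W) (hD : D ∈ 𝓛) :
    su W * D * su W ∈ 𝓛 := by
  have h := hL.tri W hW.mem _ (hL.tri W hW.mem D hD)
  have e : su W * D * su W = W * (W * D * W) * W := by
    rw [su]
    noncomm_ring
  rw [e]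
  exact h

omit [CompleteSpace E] in
private theorem peirce_sum' (hL : RLink 𝓛) (hW : RTrip 𝓛 W) (hD : D ∈ 𝓛) :
    su W * D + D * su W ∈ 𝓛 := by
  have h := hL.neg (hL.pol hW.mem hW.mem hD)
  have e : su W * D + D * su W = -(W * W * D + D * W * W) := by
    rw [su]
    noncomm_ring
  rw [e]
  exact h

omit [CompleteSpace E] in
theorem RLink.peirce_zero (hL : RLink 𝓛) (hW : RTrip 𝓛 W) (hD : D ∈ 𝓛) :
    (1 - su W) * D * (1 - su W) ∈ 𝓛 := by
  have h := hL.add _ (hL.sub hD (peirce_sum' hL hW hD)) _ (peirce_two' hL hW hD)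
  have e : (1 - su W) * D * (1 - su W) =
      D - (su W * D + D * su W) + su W * D * su W := by
    noncomm_ring
  rw [e]
  exact h

omit [CompleteSpace E] in
theorem RLink.peirce_one (hL : RLink 𝓛) (hW : RTrip 𝓛 W) (hD : D ∈ 𝓛) :
    su W * D * (1 - su W) + (1 - su W) * D * su W ∈ 𝓛 := by
  have h := hL.sub (hL.sub (peirce_sum' hL hW hD) (peirce_two' hL hW hD)) (peirce_two' hL hW hD)
  have e : su W * D * (1 - su W) + (1 - su W) * D * su W =
      su W * D + D * su W - su W * D * su W - su W * D * su W := by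
    noncomm_ring
  rw [e]
  exact h

end Pool.Agent.Helper61.RO
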