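import Pool.Agent.Helper61.RO.YTwo

/-!
# RO-69  If the weight space 2 is not a line

PROOF. `𝔅` from `isAb_y2` (it contains `w`), `{x, y, z} = (1/2) lie (lie x y') z` (`y'` the star of `y`), for `x, z ∈ 𝔅` symmetric in `x` and `z` (`lie x z = 0` by `IsAb.comm`, Jacobi), in `𝔅`. For `k ∈ 𝔅`: `{w, w, k} = (1/2) lie S k = k`. Let `a ∈ 𝔅`, `a ∉ ℂ w`
(hypothesis), star `a'`. Put `q a = {w, a, w}`; `q (i a) = - i q a` (the star of `i a` is `- i a'`).
For real `t` let `b = w + t a`, `b' = w' + t a'`: `{b, b, b} = w + t (2 a + q a) + t² (...) + t³ {a, a, a}` (expand; `{w, w, a} = {a, w, w} = a`).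
Suppose that for all small `t > 0` there is `λ` with `{b, b, b} = λ b`. Let `f` be a continuous functional with `f w = 0`, and `g` with `g w = 1`, `g a = 0`: `g` gives `λ = 1 + O(t)`; `f`: `t f (2 a + q a) + O(t²) = λ t f a`, so `f (a + q a) = 0`. So `a + q a ∈ ℂ w`
(Hahn-Banach; `ℂ w` is closed). If this holds for `a` and for `i a`: `a + q a ∈ ℂ w`, `i a - i q a ∈ ℂ w`, so `a ∈ ℂ w`, contradiction. So (replacing `a` by `i a`) there are arbitrarily small `t > 0` with `{b, b, b} ∉ ℂ b`.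
For small `t`: `Lop b b' k - k = (1/2) lie (lie b b' - lie w w') k` for `k ∈ 𝔅`, and `‖lie b b' - lie w w'‖ → 0` (`t → 0`), so `‖Lop b b' k - k‖ ≤ (1/2) ‖k‖`. (`Lop b b' = (1/2) adL (lie b b')`.)
-/

set_option autoImplicit false

open Filter Topology

namespace Pool.Agent.Helper61.RO

universe u

/-- The first order part of the eigenvalue equation. -/
private theorem h45_limit {V : Type*} [NormedAddCommGroup V] [NormedSpace ℂ V] {w a q X Y : V}
    (hw : w ≠ 0) (h : ∀ᶠ t : ℝ in 𝓝[>] (0 : ℝ), ∃ z : ℂ,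
      (2 : ℂ) • w + (t : ℂ) • q + ((t : ℂ) ^ 2) • X + ((t : ℂ) ^ 3) • Y =
        z • (w + (t : ℂ) • a)) : ∃ z : ℂ, q - (2 : ℂ) • a = z • w := by
  obtain ⟨g, _, hg⟩ := exists_dual_vector ℂ w (norm_ne_zero_iff.2 hw)
  have hw0 : ((‖w‖ : ℝ) : ℂ) ≠ 0 := by
    exact_mod_cast norm_ne_zero_iff.2 hw
  obtain ⟨g₀, hg₀⟩ : ∃ g₀ : StrongDual ℂ V, g₀ w = 1 := by
    refine ⟨((‖w‖ : ℝ) : ℂ)⁻¹ • g, ?_⟩
    change ((‖w‖ : ℝ) : ℂ)⁻¹ • g w = 1
    rw [hg, smul_eq_mul]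
    exact inv_mul_cancel₀ hw0
  obtain ⟨P, hP⟩ : ∃ P : V →L[ℂ] V, ∀ x, P x = x - g₀ x • w :=
    ⟨ContinuousLinearMap.id ℂ V - g₀.smulRight w, fun x => rfl⟩
  have hPw : P w = 0 := by rw [hP, hg₀, one_smul, sub_self]
  have hc : Tendsto (fun t : ℝ => (t : ℂ)) (𝓝[>] 0) (𝓝 0) := by
    have h1 : Tendsto (fun t : ℝ => (t : ℂ)) (𝓝 0) (𝓝 ((0 : ℝ) : ℂ)) :=
      Complex.continuous_ofReal.tendsto 0
    rw [Complex.ofReal_zero] at h1
    exact h1.mono_left nhdsWithin_le_nhds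
  have hc2 : Tendsto (fun t : ℝ => (t : ℂ) ^ 2) (𝓝[>] 0) (𝓝 0) := by
    have h1 := hc.pow 2
    rwa [zero_pow two_ne_zero] at h1
  have hc3 : Tendsto (fun t : ℝ => (t : ℂ) ^ 3) (𝓝[>] 0) (𝓝 0) := by
    have h1 := hc.pow 3
    rwa [zero_pow three_ne_zero] at h1
  have hden : Tendsto (fun t : ℝ => 1 + (t : ℂ) * g₀ a) (𝓝[>] 0) (𝓝 1) := by
    have h1 := (tendsto_const_nhds (x := (1 : ℂ))).add (hc.mul_const (g₀ a))
    rwa [zero_mul, add_zero] at h1
  have hnum : Tendsto (fun t : ℝ => 2 + (t : ℂ) * g₀ q + (t : ℂ) ^ 2 * g₀ X + (t : ℂ) ^ 3 * g₀ Y)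
      (𝓝[>] 0) (𝓝 2) := by
    have h1 := (((tendsto_const_nhds (x := (2 : ℂ))).add (hc.mul_const (g₀ q))).add
      (hc2.mul_const (g₀ X))).add (hc3.mul_const (g₀ Y))
    simpa using h1
  have hζ := hnum.div hden one_ne_zero
  rw [div_one] at hζ
  have hR := hζ.smul_const (P a)
  have hL : Tendsto (fun t : ℝ => P q + (t : ℂ) • P X + ((t : ℂ) ^ 2) • P Y) (𝓝[>] 0)
      (𝓝 (P q)) := by
    have h1 := ((tendsto_const_nhds (x := P q)).add (hc.smul_const (P X))).add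
      (hc2.smul_const (P Y))
    simpa using h1
  have hden0 : ∀ᶠ t : ℝ in 𝓝[>] (0 : ℝ), 1 + (t : ℂ) * g₀ a ≠ 0 :=
    hden.eventually_ne one_ne_zero
  have heq : ∀ᶠ t : ℝ in 𝓝[>] (0 : ℝ), P q + (t : ℂ) • P X + ((t : ℂ) ^ 2) • P Y =
      ((2 + (t : ℂ) * g₀ q + (t : ℂ) ^ 2 * g₀ X + (t : ℂ) ^ 3 * g₀ Y) /
        (1 + (t : ℂ) * g₀ a)) • P a := by
    filter_upwards [h, hden0, self_mem_nhdsWithin] with t ht hd ht0
    obtain ⟨z, hz⟩ := ht
    have ht1 : (t : ℂ) ≠ 0 := by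
      exact_mod_cast (ne_of_gt ht0)
    have h1 := congrArg g₀ hz
    simp only [map_add, map_smul, hg₀, smul_eq_mul, mul_one] at h1
    have h2 := congrArg P hz
    simp only [map_add, map_smul, hPw, smul_zero, zero_add] at h2
    rw [h1, mul_div_assoc, div_self hd, mul_one]
    have h3 : (t : ℂ) • (P q + (t : ℂ) • P X + ((t : ℂ) ^ 2) • P Y) = (t : ℂ) • (z • P a) := by
      rw [smul_comm (t : ℂ) z, ← h2]
      module
    exact smul_right_injective V ht1 h3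
  have hPq : P q = (2 : ℂ) • P a := tendsto_nhds_unique (hL.congr' heq) hR
  rw [hP, hP] at hPq
  refine ⟨g₀ q - 2 * g₀ a, ?_⟩
  have h1 : q = (2 : ℂ) • (a - g₀ a • w) + g₀ q • w := by
    rw [← hPq]
    abel
  calc q - (2 : ℂ) • a = ((2 : ℂ) • (a - g₀ a • w) + g₀ q • w) - (2 : ℂ) • a := by rw [← h1]
    _ = (g₀ q - 2 * g₀ a) • w := by module

variable {E : Type u} [NormedAddCommGroup E] [NormedSpace ℝ E] [CompleteSpace E]
  {𝔠 : Set (E →L[ℝ] E)} {w w' : Cx E →L[ℂ] Cx E} {M : ℕ} {p : ℤ → Cx E →L[ℂ] Cx E}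

private theorem h45_norm_lie (A B : Cx E →L[ℂ] Cx E) : ‖HP.lie A B‖ ≤ 2 * ‖A‖ * ‖B‖ := by
  unfold HP.lie
  refine (norm_sub_le _ _).trans ?_
  have h1 := norm_mul_le A B
  have h2 := norm_mul_le B A
  linarith

/-- The expansion of the triple product. -/
private theorem h45_expand {a a' : Cx E →L[ℂ] Cx E} (hwa : w * a = a * w)
    (hw : HP.lie (HP.lie w w') w = (2 : ℂ) • w) (ha : HP.lie (HP.lie w w') a = (2 : ℂ) • a)
    (t : ℂ) : HP.lie (HP.lie (w + t • a) (w' + t • a')) (w + t • a) =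
      (2 : ℂ) • w + t • ((4 : ℂ) • a + HP.lie (HP.lie w a') w) +
        (t ^ 2) • (HP.lie (HP.lie a a') w + HP.lie (HP.lie a w') a + HP.lie (HP.lie w a') a) +
        (t ^ 3) • HP.lie (HP.lie a a') a := by
  have hsym : HP.lie (HP.lie a w') w = HP.lie (HP.lie w w') a := by
    have hwa' : ∀ x, w * (a * x) = a * (w * x) := by
      intro x
      rw [← mul_assoc, hwa, mul_assoc]
    unfold HP.lie
    simp only [sub_mul, mul_sub, mul_assoc, hwa, hwa']
    abel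
  have h1 : HP.lie (HP.lie (w + t • a) (w' + t • a')) (w + t • a) =
      HP.lie (HP.lie w w') w + t • (HP.lie (HP.lie a w') w + HP.lie (HP.lie w a') w +
        HP.lie (HP.lie w w') a) +
        (t ^ 2) • (HP.lie (HP.lie a a') w + HP.lie (HP.lie a w') a + HP.lie (HP.lie w a') a) +
        (t ^ 3) • HP.lie (HP.lie a a') a := by
    unfold HP.lie
    simp only [mul_add, add_mul, mul_sub, sub_mul, smul_mul_assoc, mul_smul_comm, mul_assoc,
      smul_add, smul_sub, smul_smul]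
    module
  rw [h1, hsym, hw, ha]
  module

theorem exists_rank_two (hN : RNice E) (h𝔠 : RLie 𝔠) (h : TT 𝔠 w w') (hs : Spec w w' M p)
    (hne : ¬ CExt 𝔠 w w') :
    ∃ b b' : Cx E →L[ℂ] Cx E, HP.Pr (hc 𝔠) b b' ∧ HP.lie (HP.lie w w') b = (2 : ℂ) • b ∧
      (∀ k l, HP.Pr (hc 𝔠) k l → HP.lie (HP.lie w w') k = (2 : ℂ) • k →
        ‖HP.Lop b b' k - k‖ ≤ 1 / 2 * ‖k‖) ∧
      ∀ z : ℂ, HP.lie (HP.lie b b') b ≠ z • b := by
  have hh := hlie_hc hN h𝔠
  obtain ⟨𝔅, hAb, hmem⟩ := isAb_y2 hN h𝔠 h hs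
  have hwB : w ∈ 𝔅 := (hmem w).2 ⟨⟨w', h.pr⟩, h.tri⟩
  -- if the eigenvalue equation fails for arbitrarily small parameters we are done
  have main : ∀ a a' : Cx E →L[ℂ] Cx E, HP.Pr (hc 𝔠) a a' →
      HP.lie (HP.lie w w') a = (2 : ℂ) • a →
      (¬ ∀ᶠ t : ℝ in 𝓝[>] (0 : ℝ), ∃ z : ℂ, HP.lie (HP.lie (w + (t : ℂ) • a) (w' + (t : ℂ) • a'))
        (w + (t : ℂ) • a) = z • (w + (t : ℂ) • a)) →
      ∃ b b' : Cx E →L[ℂ] Cx E, HP.Pr (hc 𝔠) b b' ∧ HP.lie (HP.lie w w') b = (2 : ℂ) • b ∧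
        (∀ k l, HP.Pr (hc 𝔠) k l → HP.lie (HP.lie w w') k = (2 : ℂ) • k →
          ‖HP.Lop b b' k - k‖ ≤ 1 / 2 * ‖k‖) ∧
        ∀ z : ℂ, HP.lie (HP.lie b b') b ≠ z • b := by
    intro a a' hpr ha hnev
    have hcont : Continuous (fun t : ℝ => HP.lie (w + (t : ℂ) • a) (w' + (t : ℂ) • a') -
        HP.lie w w') := by
      have hc : Continuous (fun t : ℝ => (t : ℂ)) := Complex.continuous_ofReal
      have h1 : Continuous (fun t : ℝ => w + (t : ℂ) • a) :=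
        continuous_const.add (hc.smul continuous_const)
      have h2 : Continuous (fun t : ℝ => w' + (t : ℂ) • a') :=
        continuous_const.add (hc.smul continuous_const)
      unfold HP.lie
      exact ((h1.mul h2).sub (h2.mul h1)).sub continuous_const
    have hev : ∀ᶠ t : ℝ in 𝓝[>] (0 : ℝ), ‖HP.lie (w + (t : ℂ) • a) (w' + (t : ℂ) • a') -
        HP.lie w w'‖ < 1 / 2 := by
      have h1 := (hcont.norm.tendsto 0).mono_left
        (nhdsWithin_le_nhds : 𝓝[>] (0 : ℝ) ≤ 𝓝 0)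
      have h2 : ‖HP.lie (w + ((0 : ℝ) : ℂ) • a) (w' + ((0 : ℝ) : ℂ) • a') - HP.lie w w'‖ = 0 := by
        rw [Complex.ofReal_zero, zero_smul, zero_smul, add_zero, add_zero, sub_self, norm_zero]
      rw [h2] at h1
      exact h1.eventually_lt_const (by norm_num)
    obtain ⟨t, ht1, ht2⟩ := ((Filter.not_eventually.1 hnev).and_eventually hev).exists
    refine ⟨w + (t : ℂ) • a, w' + (t : ℂ) • a', ?_, ?_, ?_, ?_⟩
    · have h1 := HP.Pr.smul hh hpr (t : ℂ)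
      rw [Complex.conj_ofReal] at h1
      exact HP.Pr.add hh h.pr h1
    · have h1 : HP.lie (HP.lie w w') (w + (t : ℂ) • a) =
          HP.lie (HP.lie w w') w + (t : ℂ) • HP.lie (HP.lie w w') a := by
        unfold HP.lie
        simp only [mul_add, add_mul, smul_mul_assoc, mul_smul_comm, smul_sub]
        abel
      rw [h1, h.tri, ha]
      module
    · intro k l _ hk
      have h1 : HP.Lop (w + (t : ℂ) • a) (w' + (t : ℂ) • a') k - k = (1 / 2 : ℂ) •
          HP.lie (HP.lie (w + (t : ℂ) • a) (w' + (t : ℂ) • a') - HP.lie w w') k := by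
        have h2 : HP.Lop (w + (t : ℂ) • a) (w' + (t : ℂ) • a') k = (1 / 2 : ℂ) •
            HP.lie (HP.lie (w + (t : ℂ) • a) (w' + (t : ℂ) • a')) k := by
          unfold HP.Lop
          rw [ContinuousLinearMap.smul_apply, HP.adL_apply]
        have h3 : ∀ A B : Cx E →L[ℂ] Cx E, HP.lie (A - B) k = HP.lie A k - HP.lie B k := by
          intro A B
          unfold HP.lie
          rw [sub_mul, mul_sub]
          abel
        rw [h2, h3, hk]
        module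
      rw [h1, norm_smul]
      have h2 := h45_norm_lie
        (HP.lie (w + (t : ℂ) • a) (w' + (t : ℂ) • a') - HP.lie w w') k
      have h3 : ‖(1 / 2 : ℂ)‖ = 1 / 2 := by norm_num
      have h4 := mul_le_mul_of_nonneg_right ht2.le (norm_nonneg k)
      rw [h3]
      linarith
    · intro z hz
      exact ht1 ⟨z, hz⟩
  -- otherwise the first order part is a multiple of `w`
  have key : ∀ a a' : Cx E →L[ℂ] Cx E, HP.Pr (hc 𝔠) a a' →
      HP.lie (HP.lie w w') a = (2 : ℂ) • a →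
      (∀ᶠ t : ℝ in 𝓝[>] (0 : ℝ), ∃ z : ℂ, HP.lie (HP.lie (w + (t : ℂ) • a) (w' + (t : ℂ) • a'))
        (w + (t : ℂ) • a) = z • (w + (t : ℂ) • a)) →
      ∃ z : ℂ, (2 : ℂ) • a + HP.lie (HP.lie w a') w = z • w := by
    intro a a' hpr ha hev
    have haB : a ∈ 𝔅 := (hmem a).2 ⟨⟨a', hpr⟩, ha⟩
    have hwa := hAb.comm w hwB a haB
    obtain ⟨z, hz⟩ := h45_limit (w := w) (a := a)
      (q := (4 : ℂ) • a + HP.lie (HP.lie w a') w)
      (X := HP.lie (HP.lie a a') w + HP.lie (HP.lie a w') a + HP.lie (HP.lie w a') a)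
      (Y := HP.lie (HP.lie a a') a) h.ne (by
        filter_upwards [hev] with t ht
        obtain ⟨z, hz⟩ := ht
        exact ⟨z, by rw [← hz, h45_expand hwa h.tri ha]⟩)
    refine ⟨z, ?_⟩
    rw [← hz]
    module
  unfold CExt at hne
  push Not at hne
  obtain ⟨a, a', hpr, ha, hnot⟩ := hne
  by_cases h1 : ∀ᶠ t : ℝ in 𝓝[>] (0 : ℝ), ∃ z : ℂ,
      HP.lie (HP.lie (w + (t : ℂ) • a) (w' + (t : ℂ) • a')) (w + (t : ℂ) • a) =
        z • (w + (t : ℂ) • a)
  swap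
  · exact main a a' hpr ha h1
  have hpr2 : HP.Pr (hc 𝔠) (Complex.I • a) (-Complex.I • a') := by
    have h2 := HP.Pr.smul hh hpr Complex.I
    rwa [Complex.conj_I] at h2
  have ha2 : HP.lie (HP.lie w w') (Complex.I • a) = (2 : ℂ) • (Complex.I • a) := by
    have h2 : HP.lie (HP.lie w w') (Complex.I • a) = Complex.I • HP.lie (HP.lie w w') a := by
      unfold HP.lie
      simp only [smul_mul_assoc, mul_smul_comm, smul_sub]
    rw [h2, ha, smul_comm]
  by_cases h2 : ∀ᶠ t : ℝ in 𝓝[>] (0 : ℝ), ∃ z : ℂ,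
      HP.lie (HP.lie (w + (t : ℂ) • (Complex.I • a)) (w' + (t : ℂ) • (-Complex.I • a')))
        (w + (t : ℂ) • (Complex.I • a)) = z • (w + (t : ℂ) • (Complex.I • a))
  swap
  · exact main _ _ hpr2 ha2 h2
  exfalso
  obtain ⟨z₁, hz₁⟩ := key a a' hpr ha h1
  obtain ⟨z₂, hz₂⟩ := key _ _ hpr2 ha2 h2
  have h3 : HP.lie (HP.lie w (-Complex.I • a')) w = -(Complex.I • HP.lie (HP.lie w a') w) := by
    unfold HP.lie
    simp only [smul_mul_assoc, mul_smul_comm, smul_sub, sub_mul, mul_sub, neg_smul, mul_neg,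
      neg_mul]
    abel
  rw [h3] at hz₂
  have h4 : (2 : ℂ) • a - HP.lie (HP.lie w a') w = (-Complex.I * z₂) • w := by
    have h5 := congrArg (fun x => (-Complex.I) • x) hz₂
    simp only [smul_add, smul_neg, smul_smul] at h5
    have h6 : -Complex.I * (2 * Complex.I) = 2 := by
      linear_combination (-2 : ℂ) * Complex.I_mul_I
    have h7 : -Complex.I * Complex.I = 1 := by
      linear_combination (-1 : ℂ) * Complex.I_mul_I
    rw [h6, h7, one_smul, ← sub_eq_add_neg] at h5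
    exact h5
  refine hnot ((z₁ + -Complex.I * z₂) / 4) ?_
  have h5 : (4 : ℂ) • a = (z₁ + -Complex.I * z₂) • w := by
    rw [add_smul, ← hz₁, ← h4]
    module
  have h6 : a = (1 / 4 : ℂ) • ((4 : ℂ) • a) := by module
  rw [h6, h5, smul_smul]
  congr 1
  ring

end Pool.Agent.Helper61.RO
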