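import Pool.Agent.Helper61.RO.Newton

/-!
# RO-42  Rigidity of cubs

PROOF. `C₁` from `newton_step`, `ε₀ = 1 / (4 C₁)` (`≤ 1`). Recursion: `D 0 = D'`, `u k` from `newton_step` for `D`, `D k`, `D (k+1) = rx (-1) (u k) * D k * rx 1 (u k)`, which is again a
`Cub3` (`Sk.conj_rx`, conjugation), `V 0 = 1`, `V (k+1) = rx (-1) (u k) * V k`, `V' (k+1) = V' k * rx 1 (u k)` (the inverse). By induction
`‖D k - D‖ ≤ 4^(-k) ‖D' - D‖` and, for `D y = 0`, `‖D k y‖ ≤ 4^(-k) ‖D' y‖`. `‖V (k+1) - V k‖ ≤ ‖rx (-1) (u k) - 1‖ ≤ ‖u k‖ ≤ C₁ 4^(-k)` (`Sk.rx_sub_le`), so `V k` and `V' k`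
converge in norm to `V`, `V'` with `V V' = 1 = V' V`, isometric: a `LinearIsometryEquiv`. `V k D' V' k = D k → D`, so `V D' V⁻¹ = D`. For `D y = 0`: `e k = ‖V k y - y‖`:
`e (k+1) ≤ e k + ‖rx (-1) (u k) (V k y) - V k y‖ ≤ e k + ‖u k (V k y)‖ ≤ e k + ‖u k y‖ + ‖u k‖ e k ≤ (1 + 4^(-k) / 4) e k + C₁ 4^(-k) ‖D' y‖`; by induction
`e k ≤ 4 C₁ (1 - 2^(-k)) ‖D' y‖`. So `‖V y - y‖ ≤ 4 C₁ ‖D' y‖`.
-/

set_option autoImplicit false

open Filter Topology

namespace Pool.Agent.Helper61.RO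

universe u

variable {E : Type u} [NormedAddCommGroup E] [NormedSpace ℝ E] [CompleteSpace E]

omit [CompleteSpace E] in
private theorem r42_conj {R R' X : E →L[ℝ] E} (h : R' * R = 1) (hX : Cub3 X)
    (hs : Sk (R * X * R')) : Cub3 (R * X * R') := by
  refine ⟨hs, ?_, ?_⟩
  · have h1 : R * X * R' * (R * X * R') * (R * X * R') =
        R * X * (R' * R) * X * (R' * R) * X * R' := by noncomm_ring
    rw [h1, h, mul_one, mul_one, mul_assoc R X X, mul_assoc R (X * X) X, hX.cube, mul_neg, neg_mul]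
  · intro h0
    apply hX.ne
    have h1 : R' * (R * X * R') * R = (R' * R) * X * (R' * R) := by noncomm_ring
    rw [h0, h, mul_zero, zero_mul, one_mul, mul_one] at h1
    exact h1.symm

theorem rigidity : ∃ ε₀ C : ℝ, 0 < ε₀ ∧ 0 < C ∧ ∀ D D' : E →L[ℝ] E, Cub3 D → Cub3 D' →
    ‖D' - D‖ ≤ ε₀ → ∃ V : E ≃ₗᵢ[ℝ] E, cj V D' = D ∧ ∀ y, D y = 0 → ‖V y - y‖ ≤ C * ‖D' y‖ := by
  obtain ⟨C₁, hC₁, hstep⟩ := newton_step (E := E)
  have hC0 : 0 < C₁ := by linarith
  refine ⟨1 / (4 * C₁), 4 * C₁, by positivity, by positivity, ?_⟩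
  intro D D' hD hD' hδ
  have hδC : C₁ * ‖D' - D‖ ≤ 1 / 4 := by
    have h1 := mul_le_mul_of_nonneg_left hδ hC0.le
    have h2 : C₁ * (1 / (4 * C₁)) = 1 / 4 := by field_simp
    rwa [h2] at h1
  have hδ0 : 0 ≤ ‖D' - D‖ := norm_nonneg _
  have hδ1 : ‖D' - D‖ ≤ 1 := by nlinarith
  -- the choice of the Newton steps
  have hst : ∀ X : E →L[ℝ] E, ∃ u : E →L[ℝ] E, Cub3 X → ‖X - D‖ ≤ 1 →
      (Sk u ∧ ‖u‖ ≤ C₁ * ‖X - D‖ ∧ ‖rx (-1) u * X * rx 1 u - D‖ ≤ C₁ * ‖X - D‖ ^ 2 ∧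
        ∀ y, D y = 0 → ‖u y‖ ≤ C₁ * ‖X y‖ ∧
          ‖(rx (-1) u * X * rx 1 u) y‖ ≤ C₁ * ‖X - D‖ * ‖X y‖) := by
    intro X
    by_cases h : Cub3 X ∧ ‖X - D‖ ≤ 1
    · obtain ⟨u, hu⟩ := hstep D X hD h.1 h.2
      exact ⟨u, fun _ _ => hu⟩
    · exact ⟨0, fun h1 h2 => absurd ⟨h1, h2⟩ h⟩
  choose g hg using hst
  obtain ⟨X, hX0, hXs⟩ : ∃ X : ℕ → E →L[ℝ] E, X 0 = D' ∧
      ∀ k, X (k + 1) = rx (-1) (g (X k)) * X k * rx 1 (g (X k)) :=
    ⟨fun k => Nat.rec D' (fun _ Y => rx (-1) (g Y) * Y * rx 1 (g Y)) k, rfl, fun _ => rfl⟩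
  obtain ⟨V, hV0, hVs⟩ : ∃ V : ℕ → E →L[ℝ] E, V 0 = 1 ∧
      ∀ k, V (k + 1) = rx (-1) (g (X k)) * V k :=
    ⟨fun k => Nat.rec 1 (fun n W => rx (-1) (g (X n)) * W) k, rfl, fun _ => rfl⟩
  obtain ⟨V', hV'0, hV's⟩ : ∃ V' : ℕ → E →L[ℝ] E, V' 0 = 1 ∧
      ∀ k, V' (k + 1) = V' k * rx 1 (g (X k)) :=
    ⟨fun k => Nat.rec 1 (fun n W => W * rx 1 (g (X n))) k, rfl, fun _ => rfl⟩
  have ht0 : ∀ k : ℕ, (0 : ℝ) < (1 / 4 : ℝ) ^ k := fun k => by positivity
  have ht1 : ∀ k : ℕ, (1 / 4 : ℝ) ^ k ≤ 1 := fun k => pow_le_one₀ (by norm_num) (by norm_num)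
  have key : ∀ k, Cub3 (X k) ∧ ‖X k - D‖ ≤ (1 / 4 : ℝ) ^ k * ‖D' - D‖ := by
    intro k
    induction k with
    | zero =>
      rw [hX0, pow_zero, one_mul]
      exact ⟨hD', le_rfl⟩
    | succ k ih =>
      obtain ⟨h1, h2⟩ := ih
      have h3 : ‖X k - D‖ ≤ 1 := by
        have := ht1 k
        nlinarith [ht0 k]
      obtain ⟨h4, h5, h6, -⟩ := hg (X k) h1 h3
      rw [hXs]
      refine ⟨?_, h6.trans ?_⟩
      · apply r42_conj _ h1
        · have h7 := h1.sk.conj_rx h4 (-1)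
          rwa [neg_neg] at h7
        · exact rx_mul_neg 1 _
      · have h8 : ‖X k - D‖ ^ 2 ≤ ((1 / 4 : ℝ) ^ k * ‖D' - D‖) ^ 2 :=
          pow_le_pow_left₀ (norm_nonneg _) h2 2
        have h9 : C₁ * ‖D' - D‖ * (1 / 4 : ℝ) ^ k ≤ 1 / 4 := by
          have := mul_le_mul hδC (ht1 k) (ht0 k).le (by norm_num)
          linarith
        calc C₁ * ‖X k - D‖ ^ 2 ≤ C₁ * ((1 / 4 : ℝ) ^ k * ‖D' - D‖) ^ 2 :=
              mul_le_mul_of_nonneg_left h8 hC0.le
          _ = (C₁ * ‖D' - D‖ * (1 / 4 : ℝ) ^ k) * ((1 / 4 : ℝ) ^ k * ‖D' - D‖) := by ring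
          _ ≤ (1 / 4) * ((1 / 4 : ℝ) ^ k * ‖D' - D‖) :=
              mul_le_mul_of_nonneg_right h9 (mul_nonneg (ht0 k).le hδ0)
          _ = (1 / 4 : ℝ) ^ (k + 1) * ‖D' - D‖ := by ring
  have hle : ∀ k, ‖X k - D‖ ≤ 1 := by
    intro k
    have := ht1 k
    nlinarith [ht0 k, (key k).2]
  have hu : ∀ k, Sk (g (X k)) := fun k => (hg (X k) (key k).1 (hle k)).1
  have hun : ∀ k, ‖g (X k)‖ ≤ 1 / 4 * (1 / 4 : ℝ) ^ k := by
    intro k
    have h1 := (hg (X k) (key k).1 (hle k)).2.1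
    calc ‖g (X k)‖ ≤ C₁ * ‖X k - D‖ := h1
      _ ≤ C₁ * ((1 / 4 : ℝ) ^ k * ‖D' - D‖) := mul_le_mul_of_nonneg_left (key k).2 hC0.le
      _ = C₁ * ‖D' - D‖ * (1 / 4 : ℝ) ^ k := by ring
      _ ≤ 1 / 4 * (1 / 4 : ℝ) ^ k := mul_le_mul_of_nonneg_right hδC (ht0 k).le
  have hVn : ∀ k x, ‖V k x‖ = ‖x‖ := by
    intro k
    induction k with
    | zero =>
      intro x
      rw [hV0]
      rfl
    | succ k ih =>
      intro x
      rw [hVs]
      change ‖rx (-1) (g (X k)) (V k x)‖ = ‖x‖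
      rw [(hu k).norm_rx, ih]
  have hV'n : ∀ k x, ‖V' k x‖ = ‖x‖ := by
    intro k
    induction k with
    | zero =>
      intro x
      rw [hV'0]
      rfl
    | succ k ih =>
      intro x
      rw [hV's]
      change ‖V' k (rx 1 (g (X k)) x)‖ = ‖x‖
      rw [ih, (hu k).norm_rx]
  have hVV' : ∀ k, V k * V' k = 1 := by
    intro k
    induction k with
    | zero => rw [hV0, hV'0, mul_one]
    | succ k ih =>
      rw [hVs, hV's, mul_assoc, ← mul_assoc (V k), ih, one_mul]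
      exact rx_neg_mul 1 _
  have hV'V : ∀ k, V' k * V k = 1 := by
    intro k
    induction k with
    | zero => rw [hV0, hV'0, mul_one]
    | succ k ih =>
      rw [hVs, hV's, mul_assoc, ← mul_assoc (rx 1 _), rx_mul_neg, one_mul, ih]
  have hconj : ∀ k, V k * D' * V' k = X k := by
    intro k
    induction k with
    | zero => rw [hV0, hV'0, hX0, mul_one, one_mul]
    | succ k ih =>
      have h1 : rx (-1) (g (X k)) * V k * D' * (V' k * rx 1 (g (X k))) =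
          rx (-1) (g (X k)) * (V k * D' * V' k) * rx 1 (g (X k)) := by noncomm_ring
      rw [hVs, hV's, h1, ih, hXs]
  have hdV : ∀ k, dist (V k) (V (k + 1)) ≤ 1 / 4 * (1 / 4 : ℝ) ^ k := by
    intro k
    rw [dist_comm, dist_eq_norm]
    refine (ContinuousLinearMap.opNorm_le_bound _ (norm_nonneg (g (X k))) fun x => ?_).trans (hun k)
    rw [hVs]
    change ‖rx (-1) (g (X k)) (V k x) - V k x‖ ≤ _
    have h1 := (hu k).rx_sub_le (-1) (V k x)
    rw [abs_neg, abs_one, one_mul] at h1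
    refine h1.trans ?_
    have h2 := (g (X k)).le_opNorm (V k x)
    rwa [hVn] at h2
  have hdV' : ∀ k, dist (V' k) (V' (k + 1)) ≤ 1 / 4 * (1 / 4 : ℝ) ^ k := by
    intro k
    rw [dist_comm, dist_eq_norm]
    refine (ContinuousLinearMap.opNorm_le_bound _ (norm_nonneg (g (X k))) fun x => ?_).trans (hun k)
    rw [hV's]
    change ‖V' k (rx 1 (g (X k)) x) - V' k x‖ ≤ _
    rw [← map_sub, hV'n]
    have h1 := (hu k).rx_sub_le 1 x
    rw [abs_one, one_mul] at h1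
    exact h1.trans ((g (X k)).le_opNorm x)
  obtain ⟨W, hW⟩ := cauchySeq_tendsto_of_complete
    (cauchySeq_of_le_geometric (1 / 4) (1 / 4) (by norm_num) hdV)
  obtain ⟨W', hW'⟩ := cauchySeq_tendsto_of_complete
    (cauchySeq_of_le_geometric (1 / 4) (1 / 4) (by norm_num) hdV')
  have hXlim : Tendsto X atTop (𝓝 D) := by
    rw [tendsto_iff_norm_sub_tendsto_zero]
    have h1 : Tendsto (fun k : ℕ => (1 / 4 : ℝ) ^ k * ‖D' - D‖) atTop (𝓝 0) := by
      have h2 := (tendsto_pow_atTop_nhds_zero_of_lt_one (r := (1 / 4 : ℝ)) (by norm_num)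
        (by norm_num)).mul_const ‖D' - D‖
      rwa [zero_mul] at h2
    exact squeeze_zero (fun k => norm_nonneg _) (fun k => (key k).2) h1
  have hWW' : W * W' = 1 := by
    have h1 := hW.mul hW'
    simp only [hVV'] at h1
    exact tendsto_nhds_unique h1 tendsto_const_nhds
  have hW'W : W' * W = 1 := by
    have h1 := hW'.mul hW
    simp only [hV'V] at h1
    exact tendsto_nhds_unique h1 tendsto_const_nhds
  have hWD : W * D' * W' = D := by
    have h1 := (hW.mul_const D').mul hW'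
    simp only [hconj] at h1
    exact tendsto_nhds_unique h1 hXlim
  have hWx : ∀ x, Tendsto (fun k => V k x) atTop (𝓝 (W x)) := by
    intro x
    exact ((ContinuousLinearMap.apply ℝ E x).continuous.tendsto W).comp hW
  have hWn : ∀ x, ‖W x‖ = ‖x‖ := by
    intro x
    have h1 := (hWx x).norm
    simp only [hVn] at h1
    exact tendsto_nhds_unique h1 tendsto_const_nhds
  refine ⟨{ toLinearEquiv := LinearEquiv.ofLinearMap (W : E →ₗ[ℝ] E) (W' : E →ₗ[ℝ] E)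
              (LinearMap.ext fun x => DFunLike.congr_fun hWW' x)
              (LinearMap.ext fun x => DFunLike.congr_fun hW'W x)
            norm_map' := hWn }, ?_, ?_⟩
  · ext x
    rw [cj_apply]
    exact DFunLike.congr_fun hWD x
  · intro y hy
    change ‖W y - y‖ ≤ 4 * C₁ * ‖D' y‖
    have hM : 0 ≤ ‖D' y‖ := norm_nonneg _
    -- the values of `X k` at `y`
    have hXy : ∀ k, ‖X k y‖ ≤ (1 / 4 : ℝ) ^ k * ‖D' y‖ := by
      intro k
      induction k with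
      | zero => rw [hX0, pow_zero, one_mul]
      | succ k ih =>
        have h1 := ((hg (X k) (key k).1 (hle k)).2.2.2 y hy).2
        rw [← hXs] at h1
        refine h1.trans ?_
        have h9 : C₁ * ‖X k - D‖ ≤ 1 / 4 := by
          have h2 : C₁ * ‖X k - D‖ ≤ C₁ * ‖D' - D‖ := by
            refine mul_le_mul_of_nonneg_left ((key k).2.trans ?_) hC0.le
            exact mul_le_of_le_one_left hδ0 (ht1 k)
          linarith
        calc C₁ * ‖X k - D‖ * ‖X k y‖ ≤ 1 / 4 * ((1 / 4 : ℝ) ^ k * ‖D' y‖) :=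
              mul_le_mul h9 ih (norm_nonneg _) (by norm_num)
          _ = (1 / 4 : ℝ) ^ (k + 1) * ‖D' y‖ := by ring
    have hek : ∀ k, ‖V k y - y‖ ≤ 4 * C₁ * (1 - (1 / 2 : ℝ) ^ k) * ‖D' y‖ := by
      intro k
      induction k with
      | zero =>
        rw [hV0, pow_zero, sub_self, mul_zero, zero_mul]
        change ‖y - y‖ ≤ 0
        rw [sub_self, norm_zero]
      | succ k ih =>
        have h1 : ‖V (k + 1) y - V k y‖ ≤ ‖g (X k) (V k y)‖ := by
          rw [hVs]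
          have h2 := (hu k).rx_sub_le (-1) (V k y)
          rw [abs_neg, abs_one, one_mul] at h2
          exact h2
        have h2 : ‖g (X k) (V k y)‖ ≤ ‖g (X k) y‖ + ‖g (X k)‖ * ‖V k y - y‖ := by
          have h3 : g (X k) (V k y) = g (X k) y + g (X k) (V k y - y) := by
            rw [map_sub]
            abel
          rw [h3]
          exact (norm_add_le _ _).trans (add_le_add_right ((g (X k)).le_opNorm _) _)
        have h3 : ‖g (X k) y‖ ≤ C₁ * ((1 / 4 : ℝ) ^ k * ‖D' y‖) :=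
          ((hg (X k) (key k).1 (hle k)).2.2.2 y hy).1.trans
            (mul_le_mul_of_nonneg_left (hXy k) hC0.le)
        have h4 : ‖V (k + 1) y - y‖ ≤ ‖V (k + 1) y - V k y‖ + ‖V k y - y‖ := by
          have h5 : V (k + 1) y - y = (V (k + 1) y - V k y) + (V k y - y) := by abel
          rw [h5]
          exact norm_add_le _ _
        set q : ℝ := (1 / 2 : ℝ) ^ k with hq
        have hq0 : 0 < q := by positivity
        have hq1 : q ≤ 1 := pow_le_one₀ (by norm_num) (by norm_num)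
        have hqq : (1 / 4 : ℝ) ^ k = q * q := by
          rw [hq, ← mul_pow]
          norm_num
        have hqs : (1 / 2 : ℝ) ^ (k + 1) = q / 2 := by
          rw [pow_succ, ← hq]
          ring
        have h6 := hun k
        rw [hqq] at h6 h3
        rw [hqs]
        have h7 : ‖g (X k)‖ * ‖V k y - y‖ ≤ 1 / 4 * (q * q) * (4 * C₁ * (1 - q) * ‖D' y‖) :=
          mul_le_mul h6 ih (norm_nonneg _) (by positivity)
        have h8 : ‖V (k + 1) y - y‖ ≤ C₁ * (q * q * ‖D' y‖) +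
            1 / 4 * (q * q) * (4 * C₁ * (1 - q) * ‖D' y‖) + 4 * C₁ * (1 - q) * ‖D' y‖ := by
          linarith
        refine h8.trans ?_
        have h9 : 4 * C₁ * (1 - q / 2) * ‖D' y‖ - (C₁ * (q * q * ‖D' y‖) +
            1 / 4 * (q * q) * (4 * C₁ * (1 - q) * ‖D' y‖) + 4 * C₁ * (1 - q) * ‖D' y‖) =
            C₁ * ‖D' y‖ * (q * (2 * (1 - q) + q * q)) := by ring
        have h10 : 0 ≤ C₁ * ‖D' y‖ * (q * (2 * (1 - q) + q * q)) := by
          have h11 : 0 ≤ 1 - q := by linarith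
          positivity
        linarith
    have hlim := ((hWx y).sub_const y).norm
    refine le_of_tendsto hlim (Eventually.of_forall fun k => (hek k).trans ?_)
    have h1 : 4 * C₁ * (1 - (1 / 2 : ℝ) ^ k) ≤ 4 * C₁ := by
      have h2 : (0 : ℝ) ≤ (1 / 2 : ℝ) ^ k := by positivity
      nlinarith
    exact mul_le_mul_of_nonneg_right h1 hM

end Pool.Agent.Helper61.RO
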