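import Pool.Agent.Helper61.RO.TTApi

/-!
# RO-65  The weights of a tripotent on the space

`S = lie w w'`.
PROOFS (compare `HO/Weights.lean`).
* `exists_spec`: as in `exists_weights`: a grading `Grad S N p`, both signs occur and the largest `m` with `p m ≠ 0` or `p (-m) ≠ 0` has both `p m ≠ 0` and `p (-m) ≠ 0` (CLAIM of `exists_weights`). `M = m`; `Grad S M p` (restrict the
  sums, `supp`).
* `raise`: (CLAIM) if `x ≠ 0`, `S x = j x`, `w' x = 0`, then for all `m` with ... `w'^m w^m x = m! ∏_(i<m) (-j - i) x`: `sl2_raise` for `(w', w, -S)` and the operator `y ↦ φ y • x`. If `j > 0` the factor is never `0`, contradiction to `w^n = 0`: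
  so `w' x ≠ 0` for every `x ≠ 0` with `S x = j x`, `j > 0`; in the same way `w x ≠ 0` for `j < 0`. `S (w' x) = (j - 2) w' x`.
* `even`: go down from `j` by steps of `2` (with `w'` if `j > 0`, with `w` if `j < 0`) until `0`. `odd`: the same until `1` or `-1`; and from `1` one step down to `-1` (and conversely).
* `pow_ne`: `x ≠ 0` with `S x = - M x`; `w' x = 0` (no weight `- M - 2`), `w'^M w^M x = (M!)² x ≠ 0`.
* `ker`: `p 0 ≠ 0`: `z ≠ 0` with `S z = 0`, `z = io x + i io y` (`exists_re_im`), `0 = cx a z = io (a x) + i io (a y)`, so `a x = 0 = a y` (`re_im_unique`), and `x ≠ 0` or `y ≠ 0`. Conversely `S (io x) = 0`.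
* `real`: `j : ℤ`, `p j ≠ 0`: `z ≠ 0`, `S z = j z`, `z = io x + i io y`: `cx a z = i j z`: `a x = - j y`, `a y = j x`, so `a (a x) = - j² x`, `a (a y) = - j² y`; if `x = 0` take `y`.
* `real_apply`: if `a (a x) = - j² x`, then `S (S (io x)) = j² io x`, so `p k (io x) = 0` for `k ≠ ± j` (`k² ≠ j²`; apply `p k` and `eig'`).
-/

set_option autoImplicit false

open Filter Topology Polynomial

namespace Pool.Agent.Helper61.RO

universe u

variable {E : Type u} [NormedAddCommGroup E] [NormedSpace ℝ E] [CompleteSpace E]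
  {𝔠 : Set (E →L[ℝ] E)} {w w' : Cx E →L[ℂ] Cx E} {M : ℕ} {p : ℤ → Cx E →L[ℂ] Cx E}
  {a b c : E →L[ℝ] E}

/-! ### `sl₂` on vectors -/

omit [CompleteSpace E] in
private theorem se_apply {A B C : Cx E →L[ℂ] Cx E} {c : ℂ} (h : A * B - B * A = c • C) (x : Cx E) :
    A (B x) = B (A x) + c • C x := by
  have h1 := congrArg (fun T : Cx E →L[ℂ] Cx E => T x) h
  change A (B x) - B (A x) = c • C x at h1
  rw [← h1]
  abel

/-- relations of a triple -/
private structure Sl (e f h : Cx E →L[ℂ] Cx E) : Prop where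
  he : h * e - e * h = (2 : ℂ) • e
  hf : h * f - f * h = -((2 : ℂ) • f)
  hef : e * f - f * e = h

omit [CompleteSpace E] in
private theorem Sl.neg {e f h : Cx E →L[ℂ] Cx E} (hs : Sl e f h) : Sl f e (-h) where
  he := by
    rw [neg_mul, mul_neg, ← neg_sub', hs.hf, neg_neg]
  hf := by
    rw [neg_mul, mul_neg, ← neg_sub', hs.he]
  hef := by
    rw [← hs.hef]
    abel

omit [CompleteSpace E] in
private theorem Sl.up {e f h : Cx E →L[ℂ] Cx E} (hs : Sl e f h) {x : Cx E} {c : ℂ}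
    (hx : h x = c • x) : h (e x) = (c + 2) • e x := by
  rw [se_apply hs.he x, hx, map_smul, ← add_smul]

omit [CompleteSpace E] in
private theorem Sl.down {e f h : Cx E →L[ℂ] Cx E} (hs : Sl e f h) {x : Cx E} {c : ℂ}
    (hx : h x = c • x) : h (f x) = (c - 2) • f x := by
  have h1 : h * f - f * h = (-2 : ℂ) • f := by rw [hs.hf, neg_smul]
  rw [se_apply h1 x, hx, map_smul, ← add_smul, sub_eq_add_neg]

omit [CompleteSpace E] in
private theorem Sl.pow_down {e f h : Cx E →L[ℂ] Cx E} (hs : Sl e f h) {x : Cx E} {c : ℂ}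
    (hx : h x = c • x) (m : ℕ) : h ((f ^ m) x) = (c - 2 * m) • (f ^ m) x := by
  induction m with
  | zero =>
    rw [pow_zero]
    change h x = _ • x
    rw [hx]
    congr 1
    push_cast
    ring
  | succ m ih =>
    have h1 : (f ^ (m + 1)) x = f ((f ^ m) x) := by rw [pow_succ']; rfl
    rw [h1, hs.down ih]
    congr 1
    push_cast
    ring

omit [CompleteSpace E] in
private theorem Sl.raise {e f h : Cx E →L[ℂ] Cx E} (hs : Sl e f h) {x : Cx E} {c : ℂ}
    (hx : h x = c • x) (hex : e x = 0) (m : ℕ) :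
    e ((f ^ (m + 1)) x) = (((m : ℂ) + 1) * (c - m)) • (f ^ m) x := by
  have hef1 : e * f - f * e = (1 : ℂ) • h := by rw [hs.hef, one_smul]
  induction m with
  | zero =>
    rw [zero_add, pow_one, pow_zero]
    change e (f x) = _ • x
    rw [se_apply hef1 x, hex, map_zero, zero_add, one_smul, hx]
    congr 1
    push_cast
    ring
  | succ m ih =>
    have h1 : (f ^ (m + 1 + 1)) x = f ((f ^ (m + 1)) x) := by rw [pow_succ']; rfl
    have h2 : (f ^ (m + 1)) x = f ((f ^ m) x) := by rw [pow_succ']; rfl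
    rw [h1, se_apply hef1, ih, map_smul, ← h2, one_smul, hs.pow_down hx (m + 1), ← add_smul]
    congr 1
    push_cast
    ring

omit [CompleteSpace E] in
/-- a vector of negative weight is not killed by `e` -/
private theorem Sl.ne_of_neg {e f h : Cx E →L[ℂ] Cx E} (hs : Sl e f h) {n : ℕ} (hn : f ^ n = 0)
    {x : Cx E} {j : ℤ} (hj : j < 0) (hx : h x = (j : ℂ) • x) (hx0 : x ≠ 0) : e x ≠ 0 := by
  intro hex
  have key : ∀ m : ℕ, (f ^ m) x ≠ 0 := by
    intro m
    induction m with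
    | zero => rw [pow_zero]; exact hx0
    | succ m ih =>
      intro h0
      have h1 := hs.raise hx hex m
      rw [h0, map_zero] at h1
      rcases smul_eq_zero.1 h1.symm with h2 | h2
      · rcases mul_eq_zero.1 h2 with h3 | h3
        · have h4 : ((m + 1 : ℕ) : ℂ) = 0 := by push_cast; exact h3
          exact absurd (Nat.cast_eq_zero.1 h4) (by omega)
        · have h4 : ((j - (m : ℤ) : ℤ) : ℂ) = 0 := by push_cast; exact h3
          have h5 := Int.cast_eq_zero.1 h4
          omega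
      · exact ih h2
  apply key n
  rw [hn]
  rfl

omit [CompleteSpace E] in
/-- a vector of weight `M` killed by `e` -/
private theorem Sl.pow_ne {e f h : Cx E →L[ℂ] Cx E} (hs : Sl e f h) {x : Cx E} {M : ℕ}
    (hx : h x = (M : ℂ) • x) (hex : e x = 0) (hx0 : x ≠ 0) (m : ℕ) (hm : m ≤ M) :
    (f ^ m) x ≠ 0 := by
  induction m with
  | zero => rw [pow_zero]; exact hx0
  | succ m ih =>
    intro h0
    have h1 := hs.raise hx hex m
    rw [h0, map_zero] at h1
    rcases smul_eq_zero.1 h1.symm with h2 | h2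
    · rcases mul_eq_zero.1 h2 with h3 | h3
      · have h4 : ((m + 1 : ℕ) : ℂ) = 0 := by push_cast; exact h3
        exact absurd (Nat.cast_eq_zero.1 h4) (by omega)
      · have h4 : ((M : ℂ)) = (m : ℂ) := sub_eq_zero.1 h3
        have h5 := Nat.cast_injective h4
        omega
    · exact ih (by omega) h2

omit [CompleteSpace E] in
private theorem se_vec {S : Cx E →L[ℂ] Cx E} {N : ℕ} (hG : HP.Grad S N p) (j : ℤ) :
    p j ≠ 0 ↔ ∃ x : Cx E, S x = (j : ℂ) • x ∧ x ≠ 0 := by
  constructor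
  · intro h
    obtain ⟨y, hy⟩ : ∃ y, p j y ≠ 0 := by
      by_contra hne
      push Not at hne
      exact h (ContinuousLinearMap.ext hne)
    refine ⟨p j y, ?_, hy⟩
    rw [← hG.fix_iff]
    exact congrArg (fun T : Cx E →L[ℂ] Cx E => T y) (hG.idem j)
  · rintro ⟨x, hx, hx0⟩ h0
    rw [← hG.fix_iff, h0] at hx
    exact hx0 hx.symm

private theorem se_sl (hN : RNice E) (h𝔠 : RLie 𝔠) (h : TT 𝔠 w w') : Sl w w' (HP.lie w w') where
  he := h.tri
  hf := h.star hN h𝔠
  hef := rfl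

omit [CompleteSpace E] in
/-- the largest weight -/
private theorem se_top {S : Cx E →L[ℂ] Cx E} {N : ℕ} {e f : Cx E →L[ℂ] Cx E}
    (hG : HP.Grad S N p) (hs : Sl e f S) {M : ℕ} (hM : ∀ j : ℤ, (M : ℤ) < |j| → p j = 0)
    (hp : p (M : ℤ) ≠ 0) : p (-(M : ℤ)) ≠ 0 := by
  obtain ⟨x, hx, hx0⟩ := (se_vec hG _).1 hp
  have hx' : S x = (M : ℂ) • x := by rw [hx]; push_cast; rfl
  have h1 : e x = 0 := by
    by_contra hne
    have h2 := hs.up hx'
    have h3 : p ((M : ℤ) + 2) ≠ 0 := by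
      rw [se_vec hG]
      refine ⟨e x, ?_, hne⟩
      rw [h2]
      push_cast
      rfl
    exact h3 (hM _ (by rw [abs_of_nonneg (by omega)]; omega))
  rw [se_vec hG]
  refine ⟨(f ^ M) x, ?_, hs.pow_ne hx' h1 hx0 M le_rfl⟩
  rw [hs.pow_down hx' M]
  congr 1
  push_cast
  ring

omit [CompleteSpace E] in
private theorem se_gneg {S : Cx E →L[ℂ] Cx E} {N : ℕ} (hG : HP.Grad S N p) :
    HP.Grad (-S) N (fun j => p (-j)) where
  herm := by
    have h1 := (HP.Herm.zero (E := Cx E)).sub hG.herm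
    rwa [zero_sub] at h1
  supp := fun j hj => hG.supp _ (by rwa [abs_neg])
  orth := fun j k hjk => hG.orth _ _ (fun h => hjk (neg_injective h))
  idem := fun j => hG.idem _
  sum := by
    rw [← hG.sum]
    refine Finset.sum_bij' (fun j _ => -j) (fun j _ => -j) ?_ ?_ ?_ ?_ ?_
    · intro j hj
      rw [Finset.mem_Icc] at hj ⊢
      omega
    · intro j hj
      rw [Finset.mem_Icc] at hj ⊢
      omega
    · intro j _
      exact neg_neg j
    · intro j _
      exact neg_neg j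
    · intro j _
      rfl
  eig := by
    intro j
    rw [neg_mul, hG.eig, ← neg_smul]
    congr 1
    push_cast
    ring
  eig' := by
    intro j
    rw [mul_neg, hG.eig', ← neg_smul]
    congr 1
    push_cast
    ring

theorem exists_spec (hN : RNice E) (h𝔠 : RLie 𝔠) (h : TT 𝔠 w w') :
    ∃ (M : ℕ) (p : ℤ → Cx E →L[ℂ] Cx E), Spec w w' M p := by
  classical
  have hh : HP.HLie (hc 𝔠) := hlie_hc hN h𝔠
  set S := HP.lie w w' with hS
  have hs : Sl w w' S := se_sl hN h𝔠 h
  obtain ⟨n, hn1, hn2⟩ := h.pow hN h𝔠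
  have h5 := HP.sl2_poly hs.he hs.hf hs.hef hn1 hn2
  set s : Multiset ℤ := (Finset.range n ×ˢ Finset.range n).val.map
    (fun x : ℕ × ℕ => (x.2 : ℤ) - 2 * (x.1 : ℤ)) with hsdef
  have h6 : aeval S ((s.map fun j : ℤ => (X - C (j : ℂ) : ℂ[X])).prod) = 0 := by
    rw [← h5]
    congr 1
    rw [hsdef, Multiset.map_map]
    change ∏ x ∈ Finset.range n ×ˢ Finset.range n, _ = _
    rw [Finset.prod_product]
    rfl
  have hherm : HP.Herm S := hh.herm S (h.mem hN h𝔠).1
  obtain ⟨N, p, hG⟩ := HP.exists_grad hherm _ (HP.herm_squarefree' hherm s h6)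
  have hne : ∃ j : ℤ, j ≠ 0 ∧ p j ≠ 0 := by
    by_contra hcon
    push Not at hcon
    have h7 : S = 0 := by
      calc S = S * 1 := (mul_one _).symm
        _ = ∑ j ∈ Finset.Icc (-(N : ℤ)) (N : ℤ), S * p j := by rw [← hG.sum, Finset.mul_sum]
        _ = 0 := by
          refine Finset.sum_eq_zero fun j _ => ?_
          rw [hG.eig]
          by_cases hj : j = 0
          · rw [hj, Int.cast_zero, zero_smul]
          · rw [hcon j hj, smul_zero]
    have he := hs.he
    rw [h7, zero_mul, mul_zero, sub_zero] at he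
    rcases smul_eq_zero.1 he.symm with h8 | h8
    · exact two_ne_zero h8
    · exact h.ne h8
  obtain ⟨j0, hj0, hpj0⟩ := hne
  -- the largest absolute value of a weight
  set Q : ℕ → Prop := fun m => p (m : ℤ) ≠ 0 ∨ p (-(m : ℤ)) ≠ 0 with hQ
  have hQN : ∀ m, Q m → m ≤ N := by
    intro m hm
    by_contra hlt
    have h1 : (N : ℤ) < |(m : ℤ)| := by
      rw [abs_of_nonneg (by omega)]
      omega
    rcases hm with hm | hm
    · exact hm (hG.supp _ h1)
    · exact hm (hG.supp _ (by rwa [abs_neg]))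
  have hQ0 : Q j0.natAbs := by
    rcases Int.natAbs_eq j0 with h1 | h1
    · left; rwa [← h1]
    · right; rwa [← h1]
  set M := Nat.findGreatest Q N with hM
  have hQM : Q M := Nat.findGreatest_spec (hQN _ hQ0) hQ0
  have hM0 : 0 < M := lt_of_lt_of_le (Int.natAbs_pos.2 hj0)
    (Nat.le_findGreatest (hQN _ hQ0) hQ0)
  have hMs : ∀ j : ℤ, (M : ℤ) < |j| → p j = 0 := by
    intro j hj
    by_contra hpj
    have h1 : Q j.natAbs := by
      rcases Int.natAbs_eq j with h1 | h1
      · left; rwa [← h1]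
      · right; rwa [← h1]
    have h2 := Nat.le_findGreatest (hQN _ h1) h1
    rw [Int.abs_eq_natAbs] at hj
    omega
  have hboth : p (M : ℤ) ≠ 0 ∧ p (-(M : ℤ)) ≠ 0 := by
    rcases hQM with h1 | h1
    · exact ⟨h1, se_top hG hs hMs h1⟩
    · refine ⟨?_, h1⟩
      have h2 := se_top (se_gneg hG) hs.neg (M := M) (fun j hj => hMs _ (by rwa [abs_neg])) h1
      change p (-(-(M : ℤ))) ≠ 0 at h2
      rwa [neg_neg] at h2
  refine ⟨M, p, ?_, hM0, hboth.1, hboth.2⟩
  exact
    { herm := hG.herm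
      supp := hMs
      orth := hG.orth
      idem := hG.idem
      sum := by
        rw [← hG.sum]
        apply Finset.sum_subset
        · intro j hj
          rw [Finset.mem_Icc] at hj ⊢
          have := hQN M hQM
          omega
        · intro j _ hj
          apply hMs
          rw [Finset.mem_Icc] at hj
          rw [lt_abs]
          omega
      eig := hG.eig
      eig' := hG.eig' }

private theorem se_down (hN : RNice E) (h𝔠 : RLie 𝔠) (h : TT 𝔠 w w') (hs : Spec w w' M p) {j : ℤ}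
    (hj : 0 < j) (hpj : p j ≠ 0) : p (j - 2) ≠ 0 := by
  obtain ⟨n, hn1, hn2⟩ := h.pow hN h𝔠
  have hsl := se_sl hN h𝔠 h
  obtain ⟨x, hx, hx0⟩ := (se_vec hs.grad _).1 hpj
  rw [se_vec hs.grad]
  refine ⟨w' x, ?_, ?_⟩
  · rw [hsl.down hx]
    push_cast
    rfl
  · apply hsl.neg.ne_of_neg hn1 (j := -j) (by omega) _ hx0
    rw [neg_apply, hx, ← neg_smul]
    push_cast
    rfl

private theorem se_up (hN : RNice E) (h𝔠 : RLie 𝔠) (h : TT 𝔠 w w') (hs : Spec w w' M p) {j : ℤ}
    (hj : j < 0) (hpj : p j ≠ 0) : p (j + 2) ≠ 0 := by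
  obtain ⟨n, hn1, hn2⟩ := h.pow hN h𝔠
  have hsl := se_sl hN h𝔠 h
  obtain ⟨x, hx, hx0⟩ := (se_vec hs.grad _).1 hpj
  rw [se_vec hs.grad]
  refine ⟨w x, ?_, hsl.ne_of_neg hn2 hj hx hx0⟩
  rw [hsl.up hx]
  push_cast
  rfl

theorem Spec.even (hN : RNice E) (h𝔠 : RLie 𝔠) (h : TT 𝔠 w w') (hs : Spec w w' M p) {j : ℤ}
    (hj : Even j) (hpj : p j ≠ 0) : p 0 ≠ 0 := by
  induction hk : j.natAbs using Nat.strong_induction_on generalizing j with
  | _ k ih =>
    obtain ⟨r, hr⟩ := hj
    rcases lt_trichotomy j 0 with h1 | h1 | h1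
    · exact ih (j + 2).natAbs (by omega) ⟨r + 1, by omega⟩ (se_up hN h𝔠 h hs h1 hpj) rfl
    · rwa [h1] at hpj
    · exact ih (j - 2).natAbs (by omega) ⟨r - 1, by omega⟩ (se_down hN h𝔠 h hs h1 hpj) rfl

theorem Spec.odd (hN : RNice E) (h𝔠 : RLie 𝔠) (h : TT 𝔠 w w') (hs : Spec w w' M p) {j : ℤ}
    (hj : Odd j) (hpj : p j ≠ 0) : p 1 ≠ 0 ∧ p (-1) ≠ 0 := by
  induction hk : j.natAbs using Nat.strong_induction_on generalizing j with
  | _ k ih =>
    obtain ⟨r, hr⟩ := hj
    rcases lt_trichotomy j 0 with h1 | h1 | h1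
    · have h2 := se_up hN h𝔠 h hs h1 hpj
      by_cases h3 : j = -1
      · rw [h3] at h2 hpj
        exact ⟨h2, hpj⟩
      · exact ih (j + 2).natAbs (by omega) ⟨r + 1, by omega⟩ h2 rfl
    · omega
    · have h2 := se_down hN h𝔠 h hs h1 hpj
      by_cases h3 : j = 1
      · rw [h3] at h2 hpj
        exact ⟨hpj, h2⟩
      · exact ih (j - 2).natAbs (by omega) ⟨r - 1, by omega⟩ h2 rfl

theorem Spec.pow_ne (hN : RNice E) (h𝔠 : RLie 𝔠) (h : TT 𝔠 w w') (hs : Spec w w' M p) :
    w ^ M ≠ 0 := by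
  have hsl := (se_sl hN h𝔠 h).neg
  obtain ⟨x, hx, hx0⟩ := (se_vec hs.grad _).1 hs.bot
  have hx' : (-(HP.lie w w')) x = (M : ℂ) • x := by
    rw [neg_apply, hx, ← neg_smul]
    push_cast
    rw [neg_neg]
  have h1 : w' x = 0 := by
    by_contra hne
    have h2 := (se_sl hN h𝔠 h).down hx
    have h3 : p (-(M : ℤ) - 2) ≠ 0 := by
      rw [se_vec hs.grad]
      refine ⟨w' x, ?_, hne⟩
      rw [h2]
      push_cast
      rfl
    exact h3 (hs.grad.supp _ (by rw [abs_of_nonpos (by omega)]; omega))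
  intro h0
  apply hsl.pow_ne hx' h1 hx0 M le_rfl
  rw [h0]
  rfl

omit [CompleteSpace E] in
private theorem se_S (ht : Tri w w' a b c) (z : Cx E) :
    HP.lie w w' z = -(Complex.I • cx a z) := by
  rw [ht.ea, smul_apply, smul_smul, Complex.I_mul_I, neg_smul, one_smul, neg_neg]

omit [CompleteSpace E] in
private theorem se_cx (a : E →L[ℝ] E) (x y : E) :
    cx a (io x + Complex.I • io y) = io (a x) + Complex.I • io (a y) := by
  rw [map_add, map_smul, cx_io, cx_io]

theorem Spec.ker (hN : RNice E) (hs : Spec w w' M p) (ht : Tri w w' a b c) :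
    p 0 ≠ 0 ↔ ∃ x, a x = 0 ∧ x ≠ 0 := by
  rw [se_vec hs.grad]
  constructor
  · rintro ⟨z, hz, hz0⟩
    obtain ⟨x, y, rfl⟩ := exists_re_im hN z
    have h1 : cx a (io x + Complex.I • io y) = 0 := by
      rw [ht.ea, smul_apply, hz]
      simp
    rw [se_cx] at h1
    have h2 : io (a x) + Complex.I • io (a y) = io (0 : E) + Complex.I • io (0 : E) := by
      rw [h1, io_zero, smul_zero, add_zero]
    obtain ⟨h3, h4⟩ := re_im_unique h2
    by_cases hx : x = 0
    · refine ⟨y, h4, fun hy => hz0 ?_⟩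
      rw [hx, hy, io_zero, smul_zero, add_zero]
    · exact ⟨x, h3, hx⟩
  · rintro ⟨x, hx, hx0⟩
    refine ⟨io x, ?_, fun h0 => hx0 ?_⟩
    · rw [se_S ht, cx_io, hx, io_zero]
      simp
    · apply io_inj
      rw [h0, io_zero]

theorem Spec.real (hN : RNice E) (hs : Spec w w' M p) (ht : Tri w w' a b c) {j : ℤ}
    (hj : p j ≠ 0) : ∃ x, a (a x) = -((j : ℝ) ^ 2 • x) ∧ x ≠ 0 := by
  obtain ⟨z, hz, hz0⟩ := (se_vec hs.grad _).1 hj
  obtain ⟨x, y, rfl⟩ := exists_re_im hN z
  have h1 : cx a (io x + Complex.I • io y) =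
      io (-((j : ℝ) • y)) + Complex.I • io ((j : ℝ) • x) := by
    rw [ht.ea, smul_apply, hz, io_neg, io_smul, io_smul]
    rw [smul_add, smul_add, smul_smul, smul_smul, smul_smul, smul_smul]
    have e1 : Complex.I * (j : ℂ) * Complex.I = -(((j : ℝ) : ℂ)) := by
      push_cast
      linear_combination (j : ℂ) * Complex.I_mul_I
    have e2 : Complex.I * (j : ℂ) = Complex.I * (((j : ℝ) : ℂ)) := by push_cast; rfl
    rw [e1, e2, neg_smul]
    abel
  rw [se_cx] at h1
  obtain ⟨h3, h4⟩ := re_im_unique h1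
  by_cases hx : x = 0
  · refine ⟨y, ?_, fun hy => hz0 ?_⟩
    · rw [h4, map_smul, h3, smul_neg, smul_smul, pow_two]
    · rw [hx, hy, io_zero, smul_zero, add_zero]
  · refine ⟨x, ?_, hx⟩
    rw [h3, map_neg, map_smul, h4, smul_smul, pow_two]

theorem Spec.real_apply (hs : Spec w w' M p) (ht : Tri w w' a b c) {j k : ℤ} {x : E}
    (hx : a (a x) = -((j : ℝ) ^ 2 • x)) (h1 : k ≠ j) (h2 : k ≠ -j) : p k (io x) = 0 := by
  have h3 : HP.lie w w' (HP.lie w w' (io x)) = ((j : ℂ) ^ 2) • io x := by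
    rw [se_S ht (io x), map_neg, map_smul, se_S ht, cx_io, cx_io, hx, io_neg, io_smul]
    simp only [smul_neg, neg_neg, smul_smul]
    rw [← neg_smul]
    congr 1
    push_cast
    linear_combination (-(j : ℂ) ^ 2) * Complex.I_mul_I
  have h4 : ∀ z, p k (HP.lie w w' z) = (k : ℂ) • p k z := fun z =>
    congrArg (fun T : Cx E →L[ℂ] Cx E => T z) (hs.grad.eig' k)
  have h5 : p k (HP.lie w w' (HP.lie w w' (io x))) = ((k : ℂ) ^ 2) • p k (io x) := by
    rw [h4, h4, smul_smul, pow_two]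
  rw [h3, map_smul] at h5
  have h6 : (((k : ℂ) ^ 2) - (j : ℂ) ^ 2) • p k (io x) = 0 := by
    rw [sub_smul, ← h5, sub_self]
  rcases smul_eq_zero.1 h6 with h7 | h7
  · exfalso
    have h8 : (((k - j) * (k + j) : ℤ) : ℂ) = 0 := by
      push_cast
      linear_combination h7
    rcases mul_eq_zero.1 (Int.cast_eq_zero.1 h8) with h9 | h9
    · omega
    · omega
  · exact h7

end Pool.Agent.Helper61.RO
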