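import Pool.Agent.Helper61.HO.ExistsPT
import Pool.Agent.Helper61.HO.Growth

/-!
# RO-70  Two disjoint parts of the odd calculus

PROOF. `L = Lop b b'` is hermitian (`herm_Lop`), `L b = (1/2) lie (lie b b') b`. For all `n`: `‖(L - 1)^n b‖ ≤ (1/2)^n ‖b‖` (`b ∈ 𝔅`, `L` maps `𝔅` to `𝔅`: `IsAb.Lop_mem`), so `SpIn L (1/2) (3/2) b` (`SpIn.of_growth` with `s = 1`, `r = 1/2`). `b ≠ 0` (hypothesis with `z = 0`).
Let `β₀ = inf {β | SpIn L (1/2) β b}`, `α₀ = sup {α | SpIn L α (3/2) b}` (as in `exists_two_tests`, `HO/NonComm.lean`). If `β₀ ≤ α₀`, then `b` is in the spectral subspaces of `[α₀ - η, α₀ + η]` for all `η > 0`, so `SpIn L α₀ α₀ b` and `L b = α₀ b` (`scalar_of_SpIn`):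
contradiction. So `α₀ < β₀`; `m = (α₀ + β₀) / 2`, `η = (β₀ - α₀) / 8`; `1/2 ≤ α₀ < m - 2 η`. By the definition of `β₀` some test `f` vanishing near `[1/2, m + η]` has `Phi L f b ≠ 0`; `Test.split`: `f = f₁ + f₂`, `f₁ x = 0` for `x ≥ 1/2 - δ`, `f₂ x = 0` for `x ≤ m + η + δ`;
`Phi L f₁ b = 0` (as `f₁ - ` multiplied by a cutoff near `[1/2, 3/2]` is `0`: `Phi_eq_of_near`), so `Phi L f₂ b ≠ 0`, and the real or the imaginary part `r` of `f₂` has `Phi L r b ≠ 0`. `F t = √t r t` (for `t > 0`; `r` vanishes for `t ≤ m`), `PT F`, `F t / √t = r t`: `YF b b' F = Phi L r b ≠ 0`.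
In the same way there is a test `k` vanishing near `[m - η, 3/2]` with `Phi L k b ≠ 0`; take its part vanishing for `x ≥ m - η`, multiply it by a cutoff which is `1` near `[1/2, 3/2]` and `0` for `x ≤ 1/4` (`Phi_mul`, `Phi_eq_self`), take the real or imaginary part: `G`.
-/

set_option autoImplicit false

open Filter Topology

namespace Pool.Agent.Helper61.HP

universe u

variable {E : Type u} [NormedAddCommGroup E] [NormedSpace ℂ E] [CompleteSpace E]
  {𝔥 : Set (E →L[ℂ] E)} {h b b' : E →L[ℂ] E} {ε : ℝ} {𝔅 : Submodule ℂ (E →L[ℂ] E)}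

/-- the norm of the powers of `L - 1` -/
private theorem t70_pow {F : Type*} [NormedAddCommGroup F] [NormedSpace ℂ F] (A : F →L[ℂ] F)
    (𝔅 : Submodule ℂ F) (hmem : ∀ k ∈ 𝔅, A k ∈ 𝔅)
    (hnear : ∀ k ∈ 𝔅, ‖A k - k‖ ≤ 1 / 2 * ‖k‖) {b : F} (hb : b ∈ 𝔅) (n : ℕ) :
    ((A - ((1 : ℝ) : ℂ) • (1 : F →L[ℂ] F)) ^ n) b ∈ 𝔅 ∧
      ‖((A - ((1 : ℝ) : ℂ) • (1 : F →L[ℂ] F)) ^ n) b‖ ≤ ‖b‖ * (1 / 2) ^ n := by
  induction n with
  | zero =>
    rw [pow_zero, pow_zero, mul_one]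
    exact ⟨hb, le_rfl⟩
  | succ n ih =>
    set v := ((A - ((1 : ℝ) : ℂ) • (1 : F →L[ℂ] F)) ^ n) b with hv
    have h1 : ((A - ((1 : ℝ) : ℂ) • (1 : F →L[ℂ] F)) ^ (n + 1)) b = A v - v := by
      rw [pow_succ']
      change A v - ((1 : ℝ) : ℂ) • v = A v - v
      rw [Complex.ofReal_one, one_smul]
    rw [h1]
    refine ⟨𝔅.sub_mem (hmem v ih.1) ih.1, (hnear v ih.1).trans ?_⟩
    rw [pow_succ]
    have := ih.2
    nlinarith [this]

/-- two disjoint test functions which do not kill a vector which is not an eigenvector -/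
private theorem t70_two {F : Type u} [NormedAddCommGroup F] [NormedSpace ℂ F] [CompleteSpace F]
    {A : F →L[ℂ] F} (hA : Herm A) {a c : ℝ} {y : F} (hy0 : y ≠ 0) (hy : SpIn A a c y)
    (hns : ∀ s : ℝ, A y ≠ (s : ℂ) • y) :
    ∃ (m η : ℝ) (f k : ℝ → ℂ), 0 < η ∧ a + 2 * η < m ∧ Test f ∧ Test k ∧
      (∀ x, x ≤ m + η → f x = 0) ∧ (∀ x, m - η ≤ x → k x = 0) ∧ Phi A f y ≠ 0 ∧
        Phi A k y ≠ 0 := by
  classical
  have hac : a ≤ c := by
    by_contra hlt
    push Not at hlt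
    exact hy0 (SpIn.empty hy hA hlt)
  set Sb : Set ℝ := {β | SpIn A a β y} with hSb
  set Sa : Set ℝ := {α | SpIn A α c y} with hSa
  have hbM : c ∈ Sb := hy
  have haM : a ∈ Sa := hy
  have hSb_lb : ∀ β ∈ Sb, a ≤ β := by
    intro β hβ
    by_contra hlt
    push Not at hlt
    exact hy0 (SpIn.empty hβ hA hlt)
  have hSa_ub : ∀ α ∈ Sa, α ≤ c := by
    intro α hα
    by_contra hlt
    push Not at hlt
    exact hy0 (SpIn.empty hα hA hlt)
  have hbb : BddBelow Sb := ⟨a, fun β hβ => hSb_lb β hβ⟩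
  have hba : BddAbove Sa := ⟨c, fun α hα => hSa_ub α hα⟩
  set b0 : ℝ := sInf Sb with hb0
  set a0 : ℝ := sSup Sa with ha0
  have hb0M : b0 ≤ c := csInf_le hbb hbM
  have hb0M' : a ≤ b0 := le_csInf ⟨c, hbM⟩ hSb_lb
  have ha0M : a0 ≤ c := csSup_le ⟨a, haM⟩ hSa_ub
  have ha0M' : a ≤ a0 := le_csSup hba haM
  have hPb : ∀ t : ℝ, b0 < t → SpIn A a t y := by
    intro t ht
    obtain ⟨β, hβ, hlt⟩ := exists_lt_of_csInf_lt ⟨c, hbM⟩ ht
    exact SpIn.mono hβ le_rfl hlt.le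
  have hPa : ∀ t : ℝ, t < a0 → SpIn A t c y := by
    intro t ht
    obtain ⟨α, hα, hlt⟩ := exists_lt_of_lt_csSup ⟨a, haM⟩ ht
    exact SpIn.mono hα hlt.le le_rfl
  -- the scalar case is excluded
  have hlt : a0 < b0 := by
    by_contra hle
    push Not at hle
    obtain ⟨C, hC0, hC⟩ := exists_spec_const.{u}
    have hsp : ∀ ε : ℝ, 0 < ε → SpIn A (a0 - ε) (a0 + ε) y := by
      intro ε hε
      have h1 := hPb (b0 + ε) (by linarith)
      have h2 := hPa (a0 - ε) (by linarith)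
      have h3 : a0 - ε ≤ b0 + ε := by
        by_contra hgt
        push Not at hgt
        exact hy0 (SpIn.disjoint h1 h2 hA hgt)
      have h4 := SpIn.inter h1 h2 hA (by
        refine max_le (le_min ?_ ?_) (le_min ?_ ?_)
        · linarith
        · linarith
        · exact h3
        · linarith)
      exact h4.mono (le_max_right _ _) ((min_le_left _ _).trans (by linarith))
    refine hns a0 ?_
    have h5 : ∀ ε : ℝ, 0 < ε → ‖A y - (a0 : ℂ) • y‖ ≤ C * ε * ‖y‖ := fun ε hε =>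
      hC F A a0 ε y hA hε.le (hsp ε hε)
    have hlim : Tendsto (fun ρ : ℝ => C * ρ * ‖y‖) (𝓝[>] 0) (𝓝 (C * 0 * ‖y‖)) := by
      have hc : Continuous fun ρ : ℝ => C * ρ * ‖y‖ := by fun_prop
      exact (hc.tendsto 0).mono_left nhdsWithin_le_nhds
    have h6 : ‖A y - (a0 : ℂ) • y‖ ≤ C * 0 * ‖y‖ := by
      refine ge_of_tendsto hlim ?_
      filter_upwards [self_mem_nhdsWithin] with ρ hρ
      exact h5 ρ hρ
    rw [mul_zero, zero_mul] at h6
    exact sub_eq_zero.1 (norm_le_zero_iff.1 h6)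
  set m : ℝ := (a0 + b0) / 2 with hm
  set η : ℝ := (b0 - a0) / 8 with hη
  have hη0 : 0 < η := by rw [hη]; linarith
  have hmb : m + η < b0 := by rw [hm, hη]; linarith
  have hma : a0 < m - η := by rw [hm, hη]; linarith
  have hma2 : a + 2 * η < m := by rw [hm, hη]; linarith
  have hn1 : ¬ SpIn A a (m + η) y := by
    intro h
    have h1 : b0 ≤ m + η := csInf_le hbb h
    linarith
  have hn2 : ¬ SpIn A (m - η) c y := by
    intro h
    have h1 : m - η ≤ a0 := le_csSup hba h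
    linarith
  have hy' := hn1
  have hz' := hn2
  unfold SpIn at hy' hz'
  push Not at hy' hz'
  obtain ⟨f, hf, hfv, hfy⟩ := hy'
  obtain ⟨k, hk, hkv, hkz⟩ := hz'
  obtain ⟨δ, f₁, f₂, hδ, hf₁, hf₂, hfs, hf₁0, hf₂0⟩ := hf.split hfv (by linarith)
  obtain ⟨δ', k₁, k₂, hδ', hk₁, hk₂, hks, hk₁0, hk₂0⟩ := hk.split hkv (by linarith)
  refine ⟨m, η, f₂, k₁, hη0, hma2, hf₂, hk₁, fun x hx => hf₂0 x (by linarith),
    fun x hx => hk₁0 x (by linarith), ?_, ?_⟩
  · have h1 : Phi A f = Phi A f₁ + Phi A f₂ := by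
      rw [← Phi_add hA hf₁ hf₂]
      congr 1
      funext x
      exact hfs x
    have h2 : Phi A f₁ y = 0 := by
      refine hy f₁ hf₁ ?_
      intro x hx
      filter_upwards [eventually_gt_nhds (show a - δ < x by linarith [hx.1])] with w hw
      exact hf₁0 w hw.le
    rw [h1, _root_.add_apply, h2, zero_add] at hfy
    exact hfy
  · have h1 : Phi A k = Phi A k₁ + Phi A k₂ := by
      rw [← Phi_add hA hk₁ hk₂]
      congr 1
      funext x
      exact hks x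
    have h2 : Phi A k₂ y = 0 := by
      refine hy k₂ hk₂ ?_
      intro x hx
      filter_upwards [eventually_lt_nhds (show x < c + δ' by linarith [hx.2])] with w hw
      exact hk₂0 w hw.le
    rw [h1, _root_.add_apply, h2, add_zero] at hkz
    exact hkz

/-- from a test function to the odd calculus -/
private theorem t70_yf (hL : Herm (Lop b b')) {f : ℝ → ℂ} (hf : Test f) {δ : ℝ} (hδ : 0 < δ)
    (hf0 : ∀ x, x ≤ δ → f x = 0) (hne : Phi (Lop b b') f b ≠ 0) :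
    ∃ F : ℝ → ℝ, PT F ∧ (∀ t, F t ≠ 0 → f t ≠ 0) ∧ YF b b' F ≠ 0 := by
  by_contra hcon
  push Not at hcon
  apply hne
  have key : ∀ (r : ℝ → ℝ), ContDiff ℝ (⊤ : ℕ∞) r → HasCompactSupport r →
      (∀ x, f x = 0 → r x = 0) → Phi (Lop b b') (fun t => ((r t : ℝ) : ℂ)) b = 0 := by
    intro r hr hrc hrf
    have hr0 : ∀ x, x ≤ δ → r x = 0 := fun x hx => hrf x (hf0 x hx)
    have hsq : ContDiff ℝ (⊤ : ℕ∞) (fun t => Real.sqrt t * r t) := by
      rw [contDiff_iff_contDiffAt]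
      intro x
      rcases lt_or_ge 0 x with hx | hx
      · exact (Real.contDiffAt_sqrt hx.ne').mul hr.contDiffAt
      · have he : (fun t => Real.sqrt t * r t) =ᶠ[𝓝 x] fun _ => 0 := by
          filter_upwards [Iio_mem_nhds (lt_of_le_of_lt hx hδ)] with t ht
          rw [hr0 t (le_of_lt ht), mul_zero]
        exact contDiffAt_const.congr_of_eventuallyEq he
    have hPT : PT (fun t => Real.sqrt t * r t) :=
      ⟨hsq, hrc.mul_left, δ, hδ, fun t ht => by
        change Real.sqrt t * r t = 0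
        rw [hr0 t ht, mul_zero]⟩
    have h1 := hcon _ hPT (fun t ht h0 => ht (by rw [hrf t h0, mul_zero]))
    unfold YF at h1
    have h2 : (fun t : ℝ => ((Real.sqrt t * r t / Real.sqrt t : ℝ) : ℂ)) =
        fun t => ((r t : ℝ) : ℂ) := by
      funext t
      rcases lt_or_ge 0 t with ht | ht
      · congr 1
        have := (Real.sqrt_pos.2 ht).ne'
        field_simp
      · rw [hr0 t (by linarith), mul_zero, zero_div]
    rwa [h2] at h1
  have hre : ContDiff ℝ (⊤ : ℕ∞) (fun x => (f x).re) := Complex.reCLM.contDiff.comp hf.1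
  have him : ContDiff ℝ (⊤ : ℕ∞) (fun x => (f x).im) := Complex.imCLM.contDiff.comp hf.1
  have hrec : HasCompactSupport (fun x => (f x).re) := hf.2.comp_left (g := Complex.re) rfl
  have himc : HasCompactSupport (fun x => (f x).im) := hf.2.comp_left (g := Complex.im) rfl
  have e2 := key _ hre hrec (fun x hx => by rw [hx]; rfl)
  have e3 := key _ him himc (fun x hx => by rw [hx]; rfl)
  have tre : Test (fun x => (((f x).re : ℝ) : ℂ)) :=
    ⟨Complex.ofRealCLM.contDiff.comp hre, hrec.comp_left (g := fun r : ℝ => (r : ℂ)) (by simp)⟩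
  have tim : Test (fun x => (((f x).im : ℝ) : ℂ)) :=
    ⟨Complex.ofRealCLM.contDiff.comp him, himc.comp_left (g := fun r : ℝ => (r : ℂ)) (by simp)⟩
  have hf2 : f = fun x => (((f x).re : ℝ) : ℂ) + Complex.I * (((f x).im : ℝ) : ℂ) := by
    funext x
    rw [mul_comm]
    exact (Complex.re_add_im (f x)).symm
  rw [hf2, Phi_add hL tre (tim.smul Complex.I), Phi_smul hL tim, _root_.add_apply,
    _root_.smul_apply, e2, e3, smul_zero, add_zero]

theorem exists_two_pt (hh : HLie 𝔥) (hB : IsAb 𝔥 h ε 𝔅) (hb : b ∈ 𝔅) (hbb : Pr 𝔥 b b')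
    (hnear : ∀ k ∈ 𝔅, ‖Lop b b' k - k‖ ≤ 1 / 2 * ‖k‖) (hns : ∀ z : ℂ, lie (lie b b') b ≠ z • b) :
    ∃ (m η : ℝ) (F G : ℝ → ℝ), 0 < η ∧ 2 * η < m ∧ PT F ∧ PT G ∧ (∀ t, F t ≠ 0 → m + η ≤ t) ∧
      (∀ t, G t ≠ 0 → t ≤ m - η) ∧ YF b b' F ≠ 0 ∧ YF b b' G ≠ 0 := by
  have hL := herm_Lop hh hbb
  have hb0 : b ≠ 0 := by
    intro h0
    apply hns 0
    unfold lie
    rw [h0, smul_zero, mul_zero, zero_mul, sub_zero]
  have hsp : SpIn (Lop b b') (1 - 1 / 2) (1 + 1 / 2) b := by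
    refine SpIn.of_growth hL (by norm_num) ?_
    intro r' hr'
    refine ⟨‖b‖, fun n => ?_⟩
    refine (t70_pow (Lop b b') 𝔅 (fun k hk => hB.Lop_mem hb hbb hk) hnear hb n).2.trans ?_
    exact mul_le_mul_of_nonneg_left (pow_le_pow_left₀ (by norm_num) hr'.le n) (norm_nonneg _)
  have hns' : ∀ s : ℝ, Lop b b' b ≠ (s : ℂ) • b := by
    intro s hs
    apply hns (2 * (s : ℂ))
    rw [Lop_apply] at hs
    rw [mul_smul, ← hs, smul_smul]
    norm_num
  obtain ⟨m, η, f, k, hη, hm, hf, hk, hf0, hk0, hfb, hkb⟩ := t70_two hL hb0 hsp hns'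
  obtain ⟨F, hF, hFf, hFy⟩ := t70_yf hL hf (δ := m + η) (by linarith) hf0 hfb
  obtain ⟨χ, -, -, hχ, -, -, hχ1, hχ0, -⟩ :=
    exists_cutoff (1 / 2) (3 / 2) (δ := 1 / 8) (by norm_num)
  have hk' : Test (fun x => (χ x : ℂ) * k x) := hχ.mul hk
  have hkb' : Phi (Lop b b') (fun x => (χ x : ℂ) * k x) b ≠ 0 := by
    have h1 : Phi (Lop b b') (fun x => (χ x : ℂ) * k x) b = Phi (Lop b b') k b := by
      refine Phi_eq_of_near hL hsp hk' hk ?_
      intro x hx
      have h2 : (1 / 2 : ℝ) - 1 / 8 < x := by linarith [hx.1]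
      have h3 : x < (3 / 2 : ℝ) + 1 / 8 := by linarith [hx.2]
      filter_upwards [eventually_gt_nhds h2, eventually_lt_nhds h3] with z hz1 hz2
      rw [hχ1 z hz1.le hz2.le, Complex.ofReal_one, one_mul]
    rw [h1]
    exact hkb
  obtain ⟨G, hG, hGk, hGy⟩ := t70_yf hL hk' (δ := 1 / 4) (by norm_num) (fun x hx => by
    rw [hχ0 x (by linarith), Complex.ofReal_zero, zero_mul]) hkb'
  refine ⟨m, η, F, G, hη, by linarith, hF, hG, ?_, ?_, hFy, hGy⟩
  · intro t ht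
    by_contra hlt
    push Not at hlt
    exact hFf t ht (hf0 t hlt.le)
  · intro t ht
    by_contra hlt
    push Not at hlt
    apply hGk t ht
    rw [hk0 t hlt.le, mul_zero]

end Pool.Agent.Helper61.HP
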