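import Pool.Agent.Helper61.RO.RankOne
import Pool.Agent.Helper61.RO.TwoPT
import Pool.Agent.Helper61.RO.OrthTrip
import Pool.Agent.Helper61.RO.TripPT
import Pool.Agent.Helper61.RO.SpecEx

/-!
# RO-72  Splitting of a tripotent

`S = lie w w'`. PROOF.
(1) `𝔅` from `isAb_y2` (`ε = 0`, `h = (1/2) S`), `b`, `b'` from `exists_rank_two` (`b ∈ 𝔅`), `exists_two_pt`: `m, η, F, G`. `F t ≠ 0` implies `m + η ≤ t ≤ R` (compact support; `R > m + η`), `G t ≠ 0` implies `δ ≤ t ≤ m - η`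
(`PT G`; `δ < m - η` because `G ≠ 0`, as `YF b b' G ≠ 0`). `exists_trip_pt` for `F` (`α = m + η / 2`, `α' = m + η`, `β' = R`, `β = R + 1`) and for `G` (`α = δ / 2`, `α' = δ`, `β' = m - η`, `β = m - η / 2`): sequences `F_i`, `G_i` in `PT` with
`F_i t * G_j t = 0` for all `t`, and `e, e₁` (ultralimits of `YF b b' F_i`, `YF' b b' F_i`), `f, f₁` (of `YF b b' G_i`, `YF' b b' G_i`).
(2) `lie S e = 2 e` (and for `f`): `YF b b' F_i ∈ 𝔅` (`YF_mem`), so `lie S (YF F_i) = 2 YF F_i`, and multiplication by `S` is compatible with ultralimits (`IsULim.mul_left`, `mul_right`, `IsULim.unique`). So `e, f ∈ 𝔅` (characterisation of `𝔅`), and `lie e f = 0` (`IsAb.comm`).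
(3) `triple_YF`: `lie (lie (YF F_i) (YF' G_j)) (YF K) = 2 YF (F_i G_j K) = 0` for `K = F_k` or `K = G_k` (`YF b b' 0 = 0`), and the same with `F` and `G` exchanged. Let `k → ∞`, then `j → ∞`, then `i → ∞` along the ultrafilter:
`lie (lie e f₁) e = 0`, `lie (lie e f₁) f = 0`, `lie (lie f e₁) e = 0`, `lie (lie f e₁) f = 0`. `orth_trip`: `lie e f₁ = 0 = lie f e₁`. So `Orth`.
(4) CLAIM: if `Pr (hc 𝔠) g g₁` and `lie S g = 2 g` then `lie g (lie g (lie g k)) = 0` for `Pr k l`: `k = ∑ wt M p d k` (`Grad.sum_wt`), `wt M p d k` has a star (`Pr.wt`) and is `0` for `|d| > 2` (`TT.weight`); for `|d| ≤ 2` the operator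
`lie g (lie g (lie g (wt M p d k)))` has a star and weight `d + 6 > 2` for `ad S` (Jacobi), so it is `0` (`TT.weight`).
So `TT 𝔠 e e₁`, `TT 𝔠 f f₁`. `TT 𝔠 (e + f) (e₁ + f₁)`: `ne`: if `f = - e` then `f₁ = - e₁` (`Pr.unique`) and `lie e e₁ = - lie e f₁ = 0`, so `2 e = 0`. `tri`: expand; `lie (lie e e₁) f = 0` and `lie (lie f f₁) e = 0` by Jacobi, `lie e f₁ = 0 = lie f e₁`.
-/

set_option autoImplicit false

open Filter Topology

namespace Pool.Agent.Helper61.RO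

universe u

variable {E : Type u} [NormedAddCommGroup E] [NormedSpace ℝ E] [CompleteSpace E]
  {𝔠 : Set (E →L[ℝ] E)} {w w' : Cx E →L[ℂ] Cx E} {M : ℕ} {p : ℤ → Cx E →L[ℂ] Cx E}

omit [CompleteSpace E] in
private theorem s72_left {D : ℕ → Cx E →L[ℂ] Cx E} {L : Cx E →L[ℂ] Cx E} (h : HP.IsULim D L)
    (A : Cx E →L[ℂ] Cx E) : HP.IsULim (fun n => HP.lie A (D n)) (HP.lie A L) := by
  have h1 := (h.mul_left A).add (h.mul_right A).neg
  have h2 : (fun n => HP.lie A (D n)) = fun n => A * D n + -(D n * A) := by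
    funext n
    unfold HP.lie
    rw [sub_eq_add_neg]
  have h3 : HP.lie A L = A * L + -(L * A) := by
    unfold HP.lie
    rw [sub_eq_add_neg]
  rw [h2, h3]
  exact h1

omit [CompleteSpace E] in
private theorem s72_right {D : ℕ → Cx E →L[ℂ] Cx E} {L : Cx E →L[ℂ] Cx E} (h : HP.IsULim D L)
    (A : Cx E →L[ℂ] Cx E) : HP.IsULim (fun n => HP.lie (D n) A) (HP.lie L A) := by
  have h1 := (h.mul_right A).add (h.mul_left A).neg
  have h2 : (fun n => HP.lie (D n) A) = fun n => D n * A + -(A * D n) := by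
    funext n
    unfold HP.lie
    rw [sub_eq_add_neg]
  have h3 : HP.lie L A = L * A + -(A * L) := by
    unfold HP.lie
    rw [sub_eq_add_neg]
  rw [h2, h3]
  exact h1

omit [CompleteSpace E] in
/-- triple limits -/
private theorem s72_lim {A B C : ℕ → Cx E →L[ℂ] Cx E} {a b c : Cx E →L[ℂ] Cx E}
    (hA : HP.IsULim A a) (hB : HP.IsULim B b) (hC : HP.IsULim C c)
    (h : ∀ i j k, HP.lie (HP.lie (A i) (B j)) (C k) = 0) : HP.lie (HP.lie a b) c = 0 := by
  have h1 : ∀ i j, HP.lie (HP.lie (A i) (B j)) c = 0 := by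
    intro i j
    have h2 := s72_left hC (HP.lie (A i) (B j))
    simp only [h] at h2
    exact h2.unique (HP.isULim_const 0)
  have h2 : ∀ i, HP.lie (HP.lie (A i) b) c = 0 := by
    intro i
    have h3 := s72_right (s72_left hB (A i)) c
    simp only [h1] at h3
    exact h3.unique (HP.isULim_const 0)
  have h3 := s72_right (s72_right hA b) c
  simp only [h2] at h3
  exact h3.unique (HP.isULim_const 0)

omit [CompleteSpace E] in
/-- weights add -/
private theorem s72_up {S g x : Cx E →L[ℂ] Cx E} {c : ℂ} (hg : HP.lie S g = (2 : ℂ) • g)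
    (hx : HP.lie S x = c • x) : HP.lie S (HP.lie g x) = (c + 2) • HP.lie g x := by
  have h1 : HP.lie S (HP.lie g x) = HP.lie (HP.lie S g) x + HP.lie g (HP.lie S x) := by
    unfold HP.lie
    noncomm_ring
  rw [h1, hg, hx]
  unfold HP.lie
  simp only [smul_mul_assoc, mul_smul_comm]
  module

/-- elements of weight two are ad-nilpotent of order three -/
private theorem s72_nil (hN : RNice E) (h𝔠 : RLie 𝔠) (h : TT 𝔠 w w') (hs : Spec w w' M p)
    {g g₁ : Cx E →L[ℂ] Cx E} (hg : HP.Pr (hc 𝔠) g g₁)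
    (hg2 : HP.lie (HP.lie w w') g = (2 : ℂ) • g) (k l : Cx E →L[ℂ] Cx E)
    (hk : HP.Pr (hc 𝔠) k l) : HP.lie g (HP.lie g (HP.lie g k)) = 0 := by
  have hh := hlie_hc hN h𝔠
  have hS := (h.mem hN h𝔠).1
  have hz : ∀ d : ℤ, HP.lie g (HP.lie g (HP.lie g (HP.wt M p d k))) = 0 := by
    intro d
    have h1 := HP.Pr.wt hh hs.grad hS hk d
    have h2 : HP.lie (HP.lie w w') (HP.wt M p d k) = (d : ℂ) • HP.wt M p d k :=
      hs.grad.wt_lie d k
    by_cases h3 : 2 < |d|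
    · rw [h.weight hN h𝔠 h1 h2 h3]
      unfold HP.lie
      simp
    · have h4 := HP.Pr.lie hh hg (HP.Pr.lie hh hg (HP.Pr.lie hh hg h1))
      have h5 := s72_up hg2 (s72_up hg2 (s72_up hg2 h2))
      have h6 : ((d : ℂ) + 2 + 2 + 2) = ((d + 6 : ℤ) : ℂ) := by
        push_cast
        ring
      rw [h6] at h5
      refine h.weight hN h𝔠 h4 h5 ?_
      have h7 := abs_le.1 (not_lt.1 h3)
      rw [lt_abs]
      left
      omega
  have h1 : HP.lie g (HP.lie g (HP.lie g k)) =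
      HP.adL g (HP.adL g (HP.adL g k)) := by
    rw [HP.adL_apply, HP.adL_apply, HP.adL_apply]
  rw [h1]
  conv_lhs => rw [← hs.grad.sum_wt k]
  rw [map_sum, map_sum, map_sum]
  refine Finset.sum_eq_zero fun d _ => ?_
  rw [HP.adL_apply, HP.adL_apply, HP.adL_apply]
  exact hz d

/-- the ultralimit of elements of weight two has weight two -/
private theorem s72_two {D : ℕ → Cx E →L[ℂ] Cx E} {L S : Cx E →L[ℂ] Cx E} (h : HP.IsULim D L)
    (hD : ∀ n, HP.lie S (D n) = (2 : ℂ) • D n) : HP.lie S L = (2 : ℂ) • L := by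
  have h1 := s72_left h S
  simp only [hD] at h1
  exact h1.unique (h.smul 2)

theorem exists_split (hN : RNice E) (h𝔠 : RLie 𝔠) (h : TT 𝔠 w w') (hs : Spec w w' M p)
    (hne : ¬ CExt 𝔠 w w') :
    ∃ e e₁ f f₁ : Cx E →L[ℂ] Cx E, TT 𝔠 e e₁ ∧ TT 𝔠 f f₁ ∧ TT 𝔠 (e + f) (e₁ + f₁) ∧
      HP.lie (HP.lie w w') e = (2 : ℂ) • e ∧ HP.lie (HP.lie w w') f = (2 : ℂ) • f ∧
      Orth e e₁ f f₁ := by
  have hh := hlie_hc hN h𝔠
  obtain ⟨𝔅, hAb, hmem⟩ := isAb_y2 hN h𝔠 h hs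
  obtain ⟨b, b', hpr, hb2, hnear, hns⟩ := exists_rank_two hN h𝔠 h hs hne
  have hb : b ∈ 𝔅 := (hmem b).2 ⟨⟨b', hpr⟩, hb2⟩
  obtain ⟨m, η, F, G, hη, hmη, hF, hG, hFs, hGs, hF0, hG0⟩ :=
    HP.exists_two_pt hh hAb hb hpr (fun k hk => by
      obtain ⟨⟨l, hl⟩, hk2⟩ := (hmem k).1 hk
      exact hnear k l hl hk2) hns
  -- the supports
  obtain ⟨R, hR1, hR2⟩ : ∃ R : ℝ, m + η < R ∧ ∀ t, F t ≠ 0 → t ≤ R := by
    obtain ⟨R, hR⟩ := hF.2.1.isCompact.isBounded.subset_closedBall 0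
    refine ⟨max R (m + η + 1), lt_of_lt_of_le (by linarith) (le_max_right _ _), ?_⟩
    intro t ht
    have h1 := hR (subset_tsupport _ (Function.mem_support.2 ht))
    rw [mem_closedBall_zero_iff, Real.norm_eq_abs] at h1
    exact (le_abs_self t).trans (h1.trans (le_max_left _ _))
  obtain ⟨δ, hδ0, hδ1, hδ2⟩ : ∃ δ : ℝ, 0 < δ ∧ δ < m - η ∧ ∀ t, G t ≠ 0 → δ ≤ t := by
    obtain ⟨δ, hδ, hδG⟩ := hG.2.2
    refine ⟨min δ ((m - η) / 2), lt_min hδ (by linarith),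
      lt_of_le_of_lt (min_le_right _ _) (by linarith), ?_⟩
    intro t ht
    by_contra hlt
    exact ht (hδG t ((not_le.1 hlt).le.trans (min_le_left _ _)))
  obtain ⟨Fi, e, e₁, hFi, hFis, hFe, hFe₁, hpe, he0, hte⟩ :=
    exists_trip_pt hN hh hAb le_rfl (by norm_num) hb hpr hF hF0 (α := m + η / 2) (β := R + 1)
      (α' := m + η) (β' := R) (by linarith) (by linarith) (by linarith) hR1
      (fun t ht => ⟨hFs t ht, hR2 t ht⟩)
  obtain ⟨Gi, f, f₁, hGi, hGis, hGf, hGf₁, hpf, hf0, htf⟩ :=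
    exists_trip_pt hN hh hAb le_rfl (by norm_num) hb hpr hG hG0 (α := δ / 2) (β := m - η / 2)
      (α' := δ) (β' := m - η) (by linarith) (by linarith) (by linarith) hδ1
      (fun t ht => ⟨hδ2 t ht, hGs t ht⟩)
  have hdisj : ∀ i j t, Fi i t * Gi j t = 0 := by
    intro i j t
    by_contra hcon
    have h1 := (hFis i t (left_ne_zero_of_mul hcon)).1
    have h2 := (hGis j t (right_ne_zero_of_mul hcon)).2
    linarith
  -- weights
  have hYw : ∀ {K : ℝ → ℝ}, HP.PT K → HP.lie (HP.lie w w') (HP.YF b b' K) =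
      (2 : ℂ) • HP.YF b b' K := by
    intro K hK
    exact ((hmem _).1 (HP.YF_mem hh hAb hb hpr hK)).2
  have he2 : HP.lie (HP.lie w w') e = (2 : ℂ) • e := s72_two hFe fun n => hYw (hFi n)
  have hf2 : HP.lie (HP.lie w w') f = (2 : ℂ) • f := s72_two hGf fun n => hYw (hGi n)
  have heB : e ∈ 𝔅 := (hmem e).2 ⟨⟨e₁, hpe⟩, he2⟩
  have hfB : f ∈ 𝔅 := (hmem f).2 ⟨⟨f₁, hpf⟩, hf2⟩
  have hef : HP.lie e f = 0 := by
    unfold HP.lie
    rw [hAb.comm e heB f hfB, sub_self]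
  -- the mixed triple products
  have hzero : ∀ {A B K : ℝ → ℝ}, HP.PT A → HP.PT B → HP.PT K → (∀ t, A t * B t = 0) →
      HP.lie (HP.lie (HP.YF b b' A) (HP.YF' b b' B)) (HP.YF b b' K) = 0 := by
    intro A B K hA hB hK hAB
    rw [HP.triple_YF hh hAb hb hpr hA hB hK]
    have h1 : (fun t => A t * B t * K t) = fun t => 0 * K t := by
      funext t
      rw [hAB t]
    rw [h1, HP.YF_smul hh hpr hK 0]
    simp
  have hdisj' : ∀ i j t, Gi i t * Fi j t = 0 := fun i j t => by rw [mul_comm]; exact hdisj j i t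
  obtain ⟨hef₁, hfe₁⟩ := HP.orth_trip hh hpe hpf hte htf
    (s72_lim hFe hGf₁ hFe fun i j k => hzero (hFi i) (hGi j) (hFi k) (hdisj i j))
    (s72_lim hFe hGf₁ hGf fun i j k => hzero (hFi i) (hGi j) (hGi k) (hdisj i j))
    (s72_lim hGf hFe₁ hFe fun i j k => hzero (hGi i) (hFi j) (hFi k) (hdisj' i j))
    (s72_lim hGf hFe₁ hGf fun i j k => hzero (hGi i) (hFi j) (hGi k) (hdisj' i j))
  have hTe : TT 𝔠 e e₁ := ⟨hpe, he0, hte, s72_nil hN h𝔠 h hs hpe he2⟩
  have hTf : TT 𝔠 f f₁ := ⟨hpf, hf0, htf, s72_nil hN h𝔠 h hs hpf hf2⟩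
  have hpef : HP.Pr (hc 𝔠) (e + f) (e₁ + f₁) := HP.Pr.add hh hpe hpf
  have hef2 : HP.lie (HP.lie w w') (e + f) = (2 : ℂ) • (e + f) := by
    have h1 : HP.lie (HP.lie w w') (e + f) =
        HP.lie (HP.lie w w') e + HP.lie (HP.lie w w') f := by
      unfold HP.lie
      noncomm_ring
    rw [h1, he2, hf2, smul_add]
  refine ⟨e, e₁, f, f₁, hTe, hTf, ⟨hpef, ?_, ?_, s72_nil hN h𝔠 h hs hpef hef2⟩, he2, hf2,
    ⟨hef, hef₁, hfe₁⟩⟩
  · intro h0
    have h1 : f = -e := (neg_eq_of_add_eq_zero_right h0).symm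
    have h2 : HP.lie e e₁ = 0 := by
      have h3 : HP.lie e e₁ = -HP.lie f e₁ := by
        rw [h1]
        unfold HP.lie
        noncomm_ring
      rw [h3, hfe₁, neg_zero]
    rw [h2] at hte
    have h4 : (2 : ℂ) • e = 0 := by
      rw [← hte]
      unfold HP.lie
      simp
    rcases smul_eq_zero.1 h4 with h5 | h5
    · exact two_ne_zero h5
    · exact he0 h5
  · have h1 : HP.lie (HP.lie (e + f) (e₁ + f₁)) (e + f) =
        HP.lie (HP.lie e e₁) e + HP.lie (HP.lie f f₁) f +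
        (HP.lie (HP.lie e f₁) (e + f) + HP.lie (HP.lie f e₁) (e + f)) +
        (-HP.lie e (HP.lie f e₁) - HP.lie e₁ (HP.lie e f)) +
        (-HP.lie f (HP.lie e f₁) + HP.lie f₁ (HP.lie e f)) := by
      unfold HP.lie
      noncomm_ring
    have h2 : ∀ X : Cx E →L[ℂ] Cx E, HP.lie X 0 = 0 := by
      intro X
      unfold HP.lie
      simp
    have h3 : ∀ X : Cx E →L[ℂ] Cx E, HP.lie 0 X = 0 := by
      intro X
      unfold HP.lie
      simp
    rw [h1, hte, htf, hef₁, hfe₁, hef]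
    simp only [h2, h3, neg_zero, add_zero, sub_zero, smul_add]

end Pool.Agent.Helper61.RO
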