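import Mathlib

/-!
# Definitions used in the statement of `MP_cc72b1_an.IsometryLieAlgebra`
-/

set_option autoImplicit false

namespace Pool.Agent.Helper61.RO

universe u

/-- the surjective linear isometries of `E` act transitively on the unit sphere -/
def TransitiveNorm (E : Type u) [NormedAddCommGroup E] [NormedSpace ℝ E] : Prop :=
  ∀ x y : E, ‖x‖ = 1 → ‖y‖ = 1 → ∃ T : E ≃ₗᵢ[ℝ] E, T x = y

/-- the real Banach space `E` contains an isomorphic copy of the real sequence space `ℓ¹` -/
def ContainsEllOne (E : Type u) [NormedAddCommGroup E] [NormedSpace ℝ E] : Prop :=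
  ∃ (J : lp (fun _ : ℕ => ℝ) 1 →L[ℝ] E) (c : ℝ), 0 < c ∧ ∀ a, c * ‖a‖ ≤ ‖J a‖

/-- the bounded operator `D` is the generator of a norm continuous one-parameter group of
isometries: all the operators `exp (t D)`, `t` real, preserve the norm -/
def IsometryGenerator {E : Type u} [NormedAddCommGroup E] [NormedSpace ℝ E]
    (D : E →L[ℝ] E) : Prop :=
  ∀ (t : ℝ) (x : E), ‖NormedSpace.exp (t • D) x‖ = ‖x‖

/-- `E` is linearly isometric to a real Hilbert space -/
def IsometricToHilbert (E : Type u) [NormedAddCommGroup E] [NormedSpace ℝ E] : Prop :=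
  ∃ (H : Type u) (_ : NormedAddCommGroup H) (_ : InnerProductSpace ℝ H) (_ : CompleteSpace H),
    Nonempty (E ≃ₗᵢ[ℝ] H)

end Pool.Agent.Helper61.RO
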