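import Pool.Agent.Helper61.RO.FullAb
import Pool.Agent.Helper61.RO.FullNab

/-!
# RO-95  The structure theorem

PROOF. `gg E` is not abelian: `exists_conj_noncomm` for `D` (`cj T D` is skew). `min_one` for `𝔠 = gg E` (`rlie_gg hN`; `hT`, `hC` trivial). Third alternative: `Dec0 a b c` (`dec_full`). If the skew operators commuting with `Mm a b c` commute with each other, `fin_of_abelian` gives a contradiction; otherwise `out_of_nonabelian`.
-/

set_option autoImplicit false

open Filter Topology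

namespace Pool.Agent.Helper61.RO

universe u

variable {E : Type u} [NormedAddCommGroup E] [NormedSpace ℝ E] [CompleteSpace E]
  [TopologicalSpace.SeparableSpace E] {D : E →L[ℝ] E}

theorem structure_thm (hN : RNice E) (htr : RTrans E) (hinf : ¬ FiniteDimensional ℝ E)
    (hsk : Sk D) (hns : ∀ s : ℝ, D * D ≠ s • (1 : E →L[ℝ] E)) : OutA E ∨ OutC E := by
  obtain ⟨T, hT⟩ := exists_conj_noncomm htr hsk hns
  rcases min_one hN htr hinf (rlie_gg hN) (fun _ _ h => h) (fun _ _ _ h => h)
    ⟨cj T D, hsk.cj T, D, hsk, hT⟩ with h | h | ⟨w, w', p, a, b, c, h1, h2, h3, h4, _, _, _, h5, h6, h7⟩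
  · exact Or.inl h
  · exact Or.inr h
  · have hD : Dec0 a b c := dec_full hN h1 h2 h3 h4 h7
    by_cases hab : ∀ C : E →L[ℝ] E, Sk C → (∀ X ∈ Mm a b c, X * C = C * X) → ∀ C' : E →L[ℝ] E,
        Sk C' → (∀ X ∈ Mm a b c, X * C' = C' * X) → C * C' = C' * C
    · exact absurd (fin_of_abelian hN htr h5 h6 hD h7 hsk hns hab) hinf
    · push Not at hab
      obtain ⟨C, hC1, hC2, C', hC3, hC4, hC5⟩ := hab
      exact out_of_nonabelian hN htr hinf h5 hD h7 ⟨C, hC1, hC2, C', hC3, hC4, hC5⟩

end Pool.Agent.Helper61.RO
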