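import Pool.Agent.Helper61.RO.CentLocal
import Pool.Agent.Helper61.RO.LoApi

/-!
# RO-45  Surjectivity of `u ↦ u x`

PROOF of `sur_point` (one unit vector `x` with `D x = 0`). `n, v, η` from `Rig D` for `1/4`; `δ₀` from `rmicro` for `x`, `v`, `η`; `t = min (δ₀ / 4) (1/4)`. Let `f' ≠ 0` with `D (D f') = - f'`; scale to
`‖f'‖ = 1`; `f = - D f'`, so `D f = f'`, `‖f‖ = 1` (`Cub3.norm_apply`). `s = ‖x + t f‖ ≥ 1 - t > 0`, `y = (x + t f) / s`, `‖y - x‖ ≤ 2 t / s·..< δ₀`. `η' = t / 16`. `T` with `‖T x - y‖ < η'`; `D' = cj T D`,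
`‖D' - D‖ < 1/4`, `δ = D' - D`. `‖D' y‖ ≤ η'`, so `‖D' (x + t f)‖ ≤ 2 η'`, i.e. `‖δ x + t D f + t δ f‖ ≤ 2 η'`. `u` = the part (`lo_part`) of `B = - (1/t) δ`: `u x = p (B x)`,
`‖u‖ ≤ 1 / (4 t)`, `‖u x - D f‖ = ‖p (- δ x / t - D f)‖ ≤ ‖δ f‖ + 2 η' / t ≤ 1/4 + 1/8` (`‖p z‖ ≤ ‖z‖`). So `exact_of_approx` applies with `M = 1 / (4 t)`.

PROOF of `sur`. `x₀` a unit vector of the kernel, `C₀` from `sur_point` for `x₀`. Let `x` be a unit vector of the kernel. `V` from `cent_trans`: `cj V D = D`, `‖V x₀ - x‖ < η = 1 / (2 C₀ + 1)`. For `f` in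
the block: `u' ∈ Lo D` with `u' x₀ = V⁻¹ f` (in the block, `V` commutes with `D`), `‖u'‖ ≤ C₀ ‖f‖`; `u = cj V u' ∈ Lo D`, `u (V x₀) = f`, `‖u x - f‖ ≤ C₀ ‖f‖ η ≤ ‖f‖ / 2`. `exact_of_approx`.
-/

set_option autoImplicit false

open Filter Topology

namespace Pool.Agent.Helper61.RO

universe u

variable {E : Type u} [NormedAddCommGroup E] [NormedSpace ℝ E] [CompleteSpace E]
  [TopologicalSpace.SeparableSpace E] {D : E →L[ℝ] E} {x : E}

private theorem sur_unit (htr : RTrans E) (hD : Cub3 D) (hR : Rig D) (hx : ‖x‖ = 1)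
    (hDx : D x = 0) :
    ∃ M : ℝ, 0 < M ∧ ∀ g, D (D g) = -g → ‖g‖ = 1 → ∃ u ∈ Lo D, ‖u‖ ≤ M ∧ ‖u x - g‖ ≤ 1 / 2 := by
  obtain ⟨n, v, η, hη, hRig⟩ := hR (1 / 4) (by norm_num)
  obtain ⟨δ₀, hδ₀, hm⟩ := rmicro htr hx v hη
  obtain ⟨t, ht0, ht1, ht2⟩ : ∃ t : ℝ, 0 < t ∧ t ≤ 1 / 4 ∧ t ≤ δ₀ / 4 :=
    ⟨min (δ₀ / 4) (1 / 4), lt_min (by linarith) (by norm_num), min_le_right _ _, min_le_left _ _⟩
  refine ⟨1 / (4 * t), by positivity, fun g hg hg1 => ?_⟩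
  obtain ⟨f, hf1, hfg⟩ : ∃ f : E, ‖f‖ = 1 ∧ D f = g := by
    refine ⟨-(D g), ?_, ?_⟩
    · rw [norm_neg, hD.norm_apply hg, hg1]
    · rw [map_neg, hg, neg_neg]
  have hn : ‖x + t • f‖ ≤ 1 + t := by
    calc ‖x + t • f‖ ≤ ‖x‖ + ‖t • f‖ := norm_add_le _ _
      _ = 1 + t := by rw [hx, norm_smul, hf1, Real.norm_eq_abs, abs_of_pos ht0, mul_one]
  have hn' : 1 - t ≤ ‖x + t • f‖ := by
    have h1 : ‖x‖ ≤ ‖x + t • f‖ + ‖t • f‖ := by
      calc ‖x‖ = ‖(x + t • f) - t • f‖ := by rw [add_sub_cancel_right]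
        _ ≤ ‖x + t • f‖ + ‖t • f‖ := norm_sub_le _ _
    rw [hx, norm_smul, hf1, Real.norm_eq_abs, abs_of_pos ht0, mul_one] at h1
    linarith
  obtain ⟨s, hs⟩ : ∃ s : ℝ, s = ‖x + t • f‖ := ⟨_, rfl⟩
  rw [← hs] at hn hn'
  have hs0 : 0 < s := by linarith
  obtain ⟨y, hy⟩ : ∃ y : E, y = s⁻¹ • (x + t • f) := ⟨_, rfl⟩
  have hsy : s • y = x + t • f := by rw [hy, smul_smul, mul_inv_cancel₀ hs0.ne', one_smul]
  have hy1 : ‖y‖ = 1 := by
    rw [hy, norm_smul, ← hs, norm_inv, Real.norm_eq_abs, abs_of_pos hs0,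
      inv_mul_cancel₀ hs0.ne']
  have hyx : ‖y - x‖ < δ₀ := by
    have h1 : s • (y - x) = (1 - s) • x + t • f := by
      rw [smul_sub, hsy, sub_smul, one_smul]
      abel
    have h2 : s * ‖y - x‖ ≤ 2 * t := by
      calc s * ‖y - x‖ = ‖s • (y - x)‖ := by
            rw [norm_smul, Real.norm_eq_abs, abs_of_pos hs0]
        _ = ‖(1 - s) • x + t • f‖ := by rw [h1]
        _ ≤ ‖(1 - s) • x‖ + ‖t • f‖ := norm_add_le _ _
        _ = |1 - s| + t := by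
            rw [norm_smul, norm_smul, hx, hf1, Real.norm_eq_abs, Real.norm_eq_abs,
              abs_of_pos ht0, mul_one, mul_one]
        _ ≤ t + t := by
            have h3 : |1 - s| ≤ t := abs_le.2 ⟨by linarith, by linarith⟩
            linarith
        _ = 2 * t := by ring
    have h3 : (3 / 4) * ‖y - x‖ ≤ s * ‖y - x‖ :=
      mul_le_mul_of_nonneg_right (by linarith) (norm_nonneg _)
    linarith
  obtain ⟨T, hTx, hTv⟩ := hm y hy1 hyx (t / 16) (by positivity)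
  have hδ : ‖cj T D - D‖ < 1 / 4 := hRig T hTv
  have hDy : ‖cj T D y‖ ≤ t / 16 := by
    have h1 : cj T D (T x) = 0 := by
      rw [cj_apply, T.symm_apply_apply, hDx, map_zero]
    have h2 : cj T D y = cj T D (y - T x) := by rw [map_sub, h1, sub_zero]
    rw [h2]
    calc ‖cj T D (y - T x)‖ ≤ ‖cj T D‖ * ‖y - T x‖ := ContinuousLinearMap.le_opNorm _ _
      _ ≤ 1 * ‖y - T x‖ := mul_le_mul_of_nonneg_right (hD.cj T).norm_le (norm_nonneg _)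
      _ ≤ t / 16 := by
          rw [one_mul, norm_sub_rev]
          exact hTx.le
  have hDw : ‖cj T D (x + t • f)‖ ≤ t / 8 := by
    rw [← hsy, map_smul, norm_smul, Real.norm_eq_abs, abs_of_pos hs0]
    calc s * ‖cj T D y‖ ≤ 2 * (t / 16) :=
          mul_le_mul (by linarith) hDy (norm_nonneg _) (by norm_num)
      _ = t / 8 := by ring
  have hSk : Sk ((-(1 / t)) • (cj T D - D)) := ((hD.cj T).sk.sub hD.sk).smul _
  obtain ⟨u, hu, hun, hux, -⟩ := lo_part hD hSk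
  have hnB : ‖(-(1 / t)) • (cj T D - D)‖ ≤ 1 / (4 * t) := by
    rw [norm_smul, norm_neg, Real.norm_eq_abs, abs_of_pos (by positivity)]
    calc 1 / t * ‖cj T D - D‖ ≤ 1 / t * (1 / 4) :=
          mul_le_mul_of_nonneg_left hδ.le (by positivity)
      _ = 1 / (4 * t) := by
          field_simp
  refine ⟨u, hu, hun.trans hnB, ?_⟩
  have h1 : ((-(1 / t)) • (cj T D - D)) x - g =
      (-(1 / t)) • (cj T D (x + t • f)) + (cj T D - D) f := by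
    have h2 : cj T D (x + t • f) = (cj T D - D) x + t • g + t • (cj T D - D) f := by
      rw [map_add, map_smul, sub_apply, sub_apply, hDx, hfg, sub_zero, smul_sub]
      abel
    rw [h2, smul_apply, smul_add, smul_add, smul_smul, smul_smul]
    have h3 : -(1 / t) * t = -1 := by
      field_simp
    rw [h3]
    simp only [neg_smul, one_smul]
    abel
  have h4 : u x - g = -(D (D (((-(1 / t)) • (cj T D - D)) x - g))) := by
    rw [hux x hDx, map_sub, map_sub, hg]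
    abel
  have h5 : ‖u x - g‖ ≤ ‖((-(1 / t)) • (cj T D - D)) x - g‖ := by
    rw [h4, norm_neg]
    exact (hD.norm_proj_le _).1
  have h6 : ‖(cj T D - D) f‖ ≤ 1 / 4 := by
    calc ‖(cj T D - D) f‖ ≤ ‖cj T D - D‖ * ‖f‖ := ContinuousLinearMap.le_opNorm _ _
      _ ≤ 1 / 4 := by
          rw [hf1, mul_one]
          exact hδ.le
  have h7 : ‖(-(1 / t)) • (cj T D (x + t • f))‖ ≤ 1 / 8 := by
    rw [norm_smul, norm_neg, Real.norm_eq_abs, abs_of_pos (by positivity)]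
    calc 1 / t * ‖cj T D (x + t • f)‖ ≤ 1 / t * (t / 8) :=
          mul_le_mul_of_nonneg_left hDw (by positivity)
      _ = 1 / 8 := by
          field_simp
  calc ‖u x - g‖ ≤ ‖((-(1 / t)) • (cj T D - D)) x - g‖ := h5
    _ = ‖(-(1 / t)) • (cj T D (x + t • f)) + (cj T D - D) f‖ := by rw [h1]
    _ ≤ ‖(-(1 / t)) • (cj T D (x + t • f))‖ + ‖(cj T D - D) f‖ := norm_add_le _ _
    _ ≤ 1 / 8 + 1 / 4 := add_le_add h7 h6
    _ ≤ 1 / 2 := by norm_num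

theorem sur_point (hN : RNice E) (htr : RTrans E) (hD : Cub3 D) (hR : Rig D) (hx : ‖x‖ = 1)
    (hDx : D x = 0) :
    ∃ C : ℝ, 0 < C ∧ ∀ f, D (D f) = -f → ∃ u ∈ Lo D, u x = f ∧ ‖u‖ ≤ C * ‖f‖ := by
  obtain ⟨M, hM, h⟩ := sur_unit htr hD hR hx hDx
  refine ⟨2 * M, by positivity, fun f hf => ?_⟩
  refine exact_of_approx hN hD hDx (M := M) (fun f' hf' => ?_) hf
  by_cases h0 : f' = 0
  · refine ⟨0, lo_zero, ?_, ?_⟩
    · rw [h0, norm_zero, norm_zero, mul_zero]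
    · rw [h0, norm_zero, zero_apply, sub_zero, norm_zero, zero_div]
  have hp : 0 < ‖f'‖ := norm_pos_iff.2 h0
  obtain ⟨u, hu, hun, hux⟩ := h (‖f'‖⁻¹ • f') (by rw [map_smul, map_smul, hf', smul_neg])
    (by rw [norm_smul, norm_inv, norm_norm, inv_mul_cancel₀ hp.ne'])
  refine ⟨‖f'‖ • u, lo_smul hu _, ?_, ?_⟩
  · rw [norm_smul, norm_norm, mul_comm]
    exact mul_le_mul_of_nonneg_right hun hp.le
  · have h1 : (‖f'‖ • u) x - f' = ‖f'‖ • (u x - ‖f'‖⁻¹ • f') := by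
      rw [smul_apply, smul_sub, smul_smul, mul_inv_cancel₀ hp.ne', one_smul]
    rw [h1, norm_smul, norm_norm]
    calc ‖f'‖ * ‖u x - ‖f'‖⁻¹ • f'‖ ≤ ‖f'‖ * (1 / 2) :=
          mul_le_mul_of_nonneg_left hux hp.le
      _ = ‖f'‖ / 2 := by ring

theorem sur (hN : RNice E) (htr : RTrans E) (hD : Cub3 D) (hR : Rig D)
    (hK : ∃ x, D x = 0 ∧ x ≠ 0) :
    ∃ C : ℝ, 0 < C ∧ ∀ x, ‖x‖ = 1 → D x = 0 → ∀ f, D (D f) = -f →
      ∃ u ∈ Lo D, u x = f ∧ ‖u‖ ≤ C * ‖f‖ := by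
  obtain ⟨x₁, hDx₁, hne⟩ := hK
  obtain ⟨x₀, hx₀, hDx₀⟩ : ∃ x₀ : E, ‖x₀‖ = 1 ∧ D x₀ = 0 := by
    refine ⟨‖x₁‖⁻¹ • x₁, ?_, by rw [map_smul, hDx₁, smul_zero]⟩
    rw [norm_smul, norm_inv, norm_norm, inv_mul_cancel₀ (norm_pos_iff.2 hne).ne']
  obtain ⟨C, hC, h⟩ := sur_point hN htr hD hR hx₀ hDx₀
  refine ⟨2 * C, by positivity, fun x hx hDx f hf => ?_⟩
  obtain ⟨V, hV, hVx⟩ := cent_trans htr hD hR hx₀ hDx₀ hx hDx (η := 1 / (2 * C + 1))
    (by positivity)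
  have hcomm : ∀ z, D (V.symm z) = V.symm (D z) := by
    intro z
    have h1 : cj V D z = D z := by rw [hV]
    rw [cj_apply] at h1
    rw [← h1, V.symm_apply_apply]
  refine exact_of_approx hN hD hDx (M := C) (fun f' hf' => ?_) hf
  obtain ⟨u', hu', hux', hun'⟩ := h (V.symm f') (by rw [hcomm, hcomm, hf', map_neg])
  rw [V.symm.norm_map] at hun'
  have hnu : ‖cj V u'‖ ≤ C * ‖f'‖ := by rw [norm_cj]; exact hun'
  refine ⟨cj V u', lo_cj hV hu', hnu, ?_⟩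
  have h2 : cj V u' (V x₀) = f' := by
    rw [cj_apply, V.symm_apply_apply, hux', V.apply_symm_apply]
  have h3 : cj V u' x - f' = -(cj V u' (V x₀ - x)) := by
    rw [map_sub, h2]
    abel
  rw [h3, norm_neg]
  calc ‖cj V u' (V x₀ - x)‖ ≤ ‖cj V u'‖ * ‖V x₀ - x‖ := ContinuousLinearMap.le_opNorm _ _
    _ ≤ (C * ‖f'‖) * (1 / (2 * C + 1)) :=
        mul_le_mul hnu hVx.le (norm_nonneg _) (by positivity)
    _ = ‖f'‖ * (C / (2 * C + 1)) := by ring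
    _ ≤ ‖f'‖ * (1 / 2) := by
        refine mul_le_mul_of_nonneg_left ?_ (norm_nonneg _)
        rw [div_le_div_iff₀ (by positivity) (by norm_num)]
        linarith
    _ = ‖f'‖ / 2 := by ring

end Pool.Agent.Helper61.RO
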