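import Pool.Agent.Helper61.RO.DefsS
import Pool.Agent.Helper61.RO.HLieOf
import Pool.Agent.Helper61.HO.Weights

/-!
# RO-64  Tripotents: basic relations

`hh : HLie (hc 𝔠)` from `hlie_hc`. `S = lie w w'`.
PROOFS.
* `mem`: `Pr.lie` and `Pr.symm`, `Pr.self`. `star`: the star of `lie S w = 2 w` is `lie w' S = 2 w'`. `nil'`: the star of `lie w (lie w (lie w k)) = 0`, for `k` replaced by its star (`Pr.lie`, `Pr.unique`,
  `Pr.zero`; signs).
* `pow`: `pow_eq_zero_of_ad` (`HO/Sl2.lean`) for `w` and `w'` (a common exponent).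
* `weight`: let `lie S k = d k`, `d > 2` (the case `d < - 2` is symmetric, with `w'` and `nil'`, or by taking the star of `k`). The operators `e = adL w`, `f = adL w'`, `h = adL S` of the ring `(Cx E →L Cx E) →L (Cx E →L Cx E)` satisfy
  `h e - e h = 2 e`, `h f - f h = - 2 f`, `e f - f e = h` (Jacobi). `e³ k = 0`. Let `v` be the last nonzero one of `k, e k, e² k` (if `k ≠ 0`): `e v = 0`, `h v = μ v`, `μ = d + 2 i ≥ 3`, `v` has a star, `f³ v = 0` (`nil'`).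
  `sl2_raise` (`m = 3`; for the element `X ↦ φ X • v` of the ring, `φ` a functional with `φ v = 1`): `0 = e³ f³ v = 3! μ (μ - 1) (μ - 2) v ≠ 0`. Contradiction.
* `tri`: `pr_hc`: `w = i cx P - cx Q`, `w' = i cx P + cx Q`, `P, Q ∈ 𝔠`. `b = 2 Q`, `c = 2 P`, `a = (1/2) [b, c] = 2 [Q, P]`: `lie w w' = 2 i [cx P, cx Q]`, so `i lie w w' = - 2 cx [P, Q] = cx a`. The bracket relations from
  `lie S w = 2 w`, `lie S w' = - 2 w'` (`cx_inj` after computing in `Cx E`: `cx (br a b) = i (lie S w' - lie S w) = - 2 i (w' + w) = 2 cx c`, etc.). `a ≠ 0`: otherwise `S = 0` and `2 w = 0`.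
* `tri_unique`: `cx_inj`.
-/

set_option autoImplicit false

open Filter Topology

namespace Pool.Agent.Helper61.RO

universe u

variable {E : Type u} [NormedAddCommGroup E] [NormedSpace ℝ E] [CompleteSpace E]
  {𝔠 : Set (E →L[ℝ] E)} {w w' k l : Cx E →L[ℂ] Cx E}

/-! ### Algebra -/

private theorem tt_lie_anti {F : Type*} [NormedAddCommGroup F] [NormedSpace ℂ F] (A B : F →L[ℂ] F) :
    HP.lie A B = -HP.lie B A := by
  unfold HP.lie
  abel

private theorem tt_lie_add {F : Type*} [NormedAddCommGroup F] [NormedSpace ℂ F]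
    (A B C : F →L[ℂ] F) : HP.lie A (B + C) = HP.lie A B + HP.lie A C := by
  unfold HP.lie
  noncomm_ring

private theorem tt_lie_smul {F : Type*} [NormedAddCommGroup F] [NormedSpace ℂ F] (A B : F →L[ℂ] F)
    (c : ℂ) : HP.lie A (c • B) = c • HP.lie A B := by
  unfold HP.lie
  rw [mul_smul_comm, smul_mul_assoc, smul_sub]

private theorem tt_smul_lie {F : Type*} [NormedAddCommGroup F] [NormedSpace ℂ F] (A B : F →L[ℂ] F)
    (c : ℂ) : HP.lie (c • A) B = c • HP.lie A B := by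
  unfold HP.lie
  rw [mul_smul_comm, smul_mul_assoc, smul_sub]

private theorem tt_lie_zero {F : Type*} [NormedAddCommGroup F] [NormedSpace ℂ F] (A : F →L[ℂ] F) :
    HP.lie A 0 = 0 := by
  unfold HP.lie
  rw [mul_zero, zero_mul, sub_zero]

private theorem tt_jacobi {F : Type*} [NormedAddCommGroup F] [NormedSpace ℂ F]
    (A B C : F →L[ℂ] F) :
    HP.lie A (HP.lie B C) = HP.lie (HP.lie A B) C + HP.lie B (HP.lie A C) := by
  unfold HP.lie
  noncomm_ring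

/-- highest weight vectors killed by `f³` -/
private theorem tt_high {F : Type*} [NormedAddCommGroup F] [NormedSpace ℂ F] {e f v : F →L[ℂ] F}
    {μ : ℂ} (hf : HP.lie (HP.lie e f) f = -((2 : ℂ) • f)) (hev : HP.lie e v = 0)
    (hv : HP.lie (HP.lie e f) v = μ • v) (h3 : HP.lie f (HP.lie f (HP.lie f v)) = 0)
    (m0 : μ ≠ 0) (m1 : μ ≠ 1) (m2 : μ ≠ 2) : v = 0 := by
  set h := HP.lie e f with hh
  have hS : ∀ X, HP.lie h (HP.lie f X) = -((2 : ℂ) • HP.lie f X) + HP.lie f (HP.lie h X) := by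
    intro X
    rw [tt_jacobi h f X, hf, ← neg_smul, tt_smul_lie, neg_smul]
  have hE : ∀ X, HP.lie e (HP.lie f X) = HP.lie h X + HP.lie f (HP.lie e X) := by
    intro X
    rw [tt_jacobi e f X, ← hh]
  set v1 := HP.lie f v with hv1
  set v2 := HP.lie f v1 with hv2
  have hS1 : HP.lie h v1 = (μ - 2) • v1 := by
    rw [hv1, hS, hv, tt_lie_smul, ← hv1]
    module
  have hS2 : HP.lie h v2 = (μ - 4) • v2 := by
    rw [hv2, hS, hS1, tt_lie_smul, ← hv2]
    module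
  have hE1 : HP.lie e v1 = μ • v := by
    rw [hv1, hE, hev, tt_lie_zero, add_zero, hv]
  have hE2 : HP.lie e v2 = (2 * (μ - 1)) • v1 := by
    rw [hv2, hE, hS1, hE1, tt_lie_smul, ← hv1]
    module
  have hE3 : HP.lie e (HP.lie f v2) = (3 * (μ - 2)) • v2 := by
    rw [hE, hS2, hE2, tt_lie_smul, ← hv2]
    module
  rw [h3, tt_lie_zero] at hE3
  have z2 : v2 = 0 := by
    rcases smul_eq_zero.1 hE3.symm with h0 | h0
    · exact absurd h0 (mul_ne_zero (by norm_num) (sub_ne_zero.2 m2))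
    · exact h0
  rw [z2, tt_lie_zero] at hE2
  have z1 : v1 = 0 := by
    rcases smul_eq_zero.1 hE2.symm with h0 | h0
    · exact absurd h0 (mul_ne_zero (by norm_num) (sub_ne_zero.2 m1))
    · exact h0
  rw [z1, tt_lie_zero] at hE1
  rcases smul_eq_zero.1 hE1.symm with h0 | h0
  · exact absurd h0 m0
  · exact h0

/-- eigenvectors of weight at least `3` -/
private theorem tt_weight {F : Type*} [NormedAddCommGroup F] [NormedSpace ℂ F]
    {e f : F →L[ℂ] F} (P : (F →L[ℂ] F) → Prop)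
    (hP : ∀ X, P X → P (HP.lie e X))
    (he : HP.lie (HP.lie e f) e = (2 : ℂ) • e)
    (hf : HP.lie (HP.lie e f) f = -((2 : ℂ) • f))
    (h3e : ∀ X, P X → HP.lie e (HP.lie e (HP.lie e X)) = 0)
    (h3f : ∀ X, P X → HP.lie f (HP.lie f (HP.lie f X)) = 0)
    {k : F →L[ℂ] F} (hk : P k) {d : ℤ} (hd : HP.lie (HP.lie e f) k = (d : ℂ) • k)
    (h2 : 2 < d) : k = 0 := by
  set h := HP.lie e f with hh
  have hS : ∀ (X : F →L[ℂ] F) (c : ℤ), HP.lie h X = (c : ℂ) • X →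
      HP.lie h (HP.lie e X) = ((c + 2 : ℤ) : ℂ) • HP.lie e X := by
    intro X c hX
    rw [tt_jacobi h e X, he, tt_smul_lie, hX, tt_lie_smul]
    push_cast
    module
  have hd1 := hS k d hd
  have hd2 := hS _ _ hd1
  have z2 : HP.lie e (HP.lie e k) = 0 :=
    tt_high (μ := ((d + 2 + 2 : ℤ) : ℂ)) hf (h3e k hk) hd2 (h3f _ (hP _ (hP _ hk)))
      (by exact_mod_cast (by omega : d + 2 + 2 ≠ 0)) (by exact_mod_cast (by omega : d + 2 + 2 ≠ 1))
      (by exact_mod_cast (by omega : d + 2 + 2 ≠ 2))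
  have z1 : HP.lie e k = 0 :=
    tt_high (μ := ((d + 2 : ℤ) : ℂ)) hf z2 hd1 (h3f _ (hP _ hk))
      (by exact_mod_cast (by omega : d + 2 ≠ 0)) (by exact_mod_cast (by omega : d + 2 ≠ 1))
      (by exact_mod_cast (by omega : d + 2 ≠ 2))
  exact tt_high (μ := (d : ℂ)) hf z1 hd (h3f _ hk)
    (by exact_mod_cast (by omega : d ≠ 0)) (by exact_mod_cast (by omega : d ≠ 1))
    (by exact_mod_cast (by omega : d ≠ 2))

theorem TT.mem (hN : RNice E) (h𝔠 : RLie 𝔠) (h : TT 𝔠 w w') :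
    HP.lie w w' ∈ hc 𝔠 ∧ HP.Pr (hc 𝔠) (HP.lie w w') (HP.lie w w') := by
  have hh := hlie_hc hN h𝔠
  have h1 : HP.Pr (hc 𝔠) (HP.lie w w') (HP.lie w w') := HP.Pr.lie hh h.pr (h.pr.symm hh)
  exact ⟨h1.self hh, h1⟩

theorem TT.star (hN : RNice E) (h𝔠 : RLie 𝔠) (h : TT 𝔠 w w') :
    HP.lie (HP.lie w w') w' = -((2 : ℂ) • w') := by
  have hh := hlie_hc hN h𝔠
  have h1 : HP.Pr (hc 𝔠) (HP.lie (HP.lie w w') w) (HP.lie w' (HP.lie w w')) :=
    HP.Pr.lie hh (h.mem hN h𝔠).2 h.pr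
  rw [h.tri] at h1
  have h2 := HP.Pr.smul hh h.pr (2 : ℂ)
  have h3 := h1.unique hh h2
  have h4 : (starRingEnd ℂ) (2 : ℂ) = 2 := by
    rw [show (2 : ℂ) = ((2 : ℝ) : ℂ) by norm_num, Complex.conj_ofReal]
  rw [h4] at h3
  rw [tt_lie_anti, h3]

theorem TT.nil' (hN : RNice E) (h𝔠 : RLie 𝔠) (h : TT 𝔠 w w') (hk : HP.Pr (hc 𝔠) k l) :
    HP.lie w' (HP.lie w' (HP.lie w' k)) = 0 := by
  have hh := hlie_hc hN h𝔠
  have h0 := h.nil l k (hk.symm hh)
  have h1 := HP.Pr.lie hh h.pr (hk.symm hh)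
  have h2 := HP.Pr.lie hh h.pr h1
  have h3 := HP.Pr.lie hh h.pr h2
  rw [h0] at h3
  have h4 := h3.unique hh (HP.Pr.zero hh)
  rw [tt_lie_anti w' k, tt_lie_anti w', tt_lie_anti w'] 
  have h5 : HP.lie (HP.lie (-HP.lie k w') w') w' = -HP.lie (HP.lie (HP.lie k w') w') w' := by
    unfold HP.lie
    noncomm_ring
  have h6 : HP.lie (-HP.lie (-HP.lie k w') w') w' = HP.lie (HP.lie (HP.lie k w') w') w' := by
    unfold HP.lie
    noncomm_ring
  rw [h6, h4, neg_zero]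

theorem TT.pow (hN : RNice E) (h𝔠 : RLie 𝔠) (h : TT 𝔠 w w') : ∃ n : ℕ, w ^ n = 0 ∧ w' ^ n = 0 := by
  obtain ⟨n, hn⟩ := HP.pow_eq_zero_of_ad (S := HP.lie w w') (w := w) (c := (2 : ℂ)) (by norm_num)
    h.tri
  have h1 : HP.lie w w' * w' - w' * HP.lie w w' = (-2 : ℂ) • w' := by
    rw [neg_smul]
    exact h.star hN h𝔠
  obtain ⟨m, hm⟩ := HP.pow_eq_zero_of_ad (S := HP.lie w w') (w := w') (c := (-2 : ℂ)) (by norm_num)
    h1
  exact ⟨n + m, by rw [pow_add, hn, zero_mul], by rw [pow_add, hm, mul_zero]⟩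

theorem TT.weight (hN : RNice E) (h𝔠 : RLie 𝔠) (h : TT 𝔠 w w') (hk : HP.Pr (hc 𝔠) k l) {d : ℤ}
    (hd : HP.lie (HP.lie w w') k = (d : ℂ) • k) (h2 : 2 < |d|) : k = 0 := by
  have hh := hlie_hc hN h𝔠
  have hs := h.star hN h𝔠
  rcases lt_abs.1 h2 with h2' | h2'
  · refine tt_weight (e := w) (f := w') (fun X => ∃ Y, HP.Pr (hc 𝔠) X Y) ?_ h.tri hs ?_ ?_ ⟨l, hk⟩ hd h2'
    · rintro X ⟨Y, hXY⟩
      exact ⟨_, HP.Pr.lie hh h.pr hXY⟩
    · rintro X ⟨Y, hXY⟩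
      exact h.nil X Y hXY
    · rintro X ⟨Y, hXY⟩
      exact h.nil' hN h𝔠 hXY
  · have hneg : HP.lie w' w = -HP.lie w w' := tt_lie_anti _ _
    have hn : ∀ X : Cx E →L[ℂ] Cx E, HP.lie (-HP.lie w w') X = -HP.lie (HP.lie w w') X := by
      intro X
      unfold HP.lie
      noncomm_ring
    refine tt_weight (e := w') (f := w) (fun X => ∃ Y, HP.Pr (hc 𝔠) X Y) ?_ ?_ ?_ ?_ ?_ ⟨l, hk⟩
      (d := -d) ?_ h2'
    · rintro X ⟨Y, hXY⟩
      exact ⟨_, HP.Pr.lie hh (h.pr.symm hh) hXY⟩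
    · rw [hneg, hn, hs, neg_neg]
    · rw [hneg, hn, h.tri]
    · rintro X ⟨Y, hXY⟩
      exact h.nil' hN h𝔠 hXY
    · rintro X ⟨Y, hXY⟩
      exact h.nil X Y hXY
    · rw [hneg, hn, hd]
      push_cast
      rw [neg_smul]

private theorem tri_su2 (hN : RNice E) (h𝔠 : RLie 𝔠) (h : TT 𝔠 w w') {a b c : E →L[ℝ] E}
    (ht : Tri w w' a b c) (ha : a ∈ 𝔠) (hb : b ∈ 𝔠) (hc : c ∈ 𝔠) : Su2 a b c := by
  have hs := h.star hN h𝔠
  have htr := h.tri
  set S := HP.lie w w' with hS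
  have hw : S * w - w * S = (2 : ℂ) • w := htr
  have hw' : S * w' - w' * S = -((2 : ℂ) • w') := hs
  have hww : w * w' - w' * w = S := hS.symm
  refine ⟨h𝔠.sk a ha, h𝔠.sk b hb, h𝔠.sk c hc, ?_, ?_, ?_, ?_⟩
  · apply cx_inj
    rw [cx_smul, br, cx_sub, cx_mul, cx_mul, ht.ea, ht.eb, ht.ec]
    have e : (Complex.I • S) * (w' - w) - (w' - w) * (Complex.I • S)
        = Complex.I • ((S * w' - w' * S) - (S * w - w * S)) := by
      rw [smul_mul_assoc, mul_smul_comm, ← smul_sub]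
      congr 1
      noncomm_ring
    rw [e, hw, hw']
    push_cast
    module
  · apply cx_inj
    rw [cx_smul, br, cx_sub, cx_mul, cx_mul, ht.ea, ht.eb, ht.ec]
    have e : (w' - w) * -(Complex.I • (w + w')) - -(Complex.I • (w + w')) * (w' - w)
        = (2 : ℂ) • (Complex.I • (w * w' - w' * w)) := by
      rw [mul_neg, neg_mul, smul_mul_assoc, mul_smul_comm, two_smul, ← smul_neg, ← smul_neg,
        ← smul_sub, ← smul_add]
      congr 1
      noncomm_ring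
    rw [e, hww]
    push_cast
    rfl
  · apply cx_inj
    rw [cx_smul, br, cx_sub, cx_mul, cx_mul, ht.ea, ht.eb, ht.ec]
    have e : -(Complex.I • (w + w')) * (Complex.I • S) - (Complex.I • S) * -(Complex.I • (w + w'))
        = -((S * w - w * S) + (S * w' - w' * S)) := by
      rw [mul_neg, neg_mul, smul_mul_assoc, smul_mul_assoc, mul_smul_comm, mul_smul_comm, smul_smul,
        smul_smul, Complex.I_mul_I, neg_smul, one_smul, neg_smul, one_smul]
      noncomm_ring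
    rw [e, hw, hw']
    push_cast
    module
  · rintro rfl
    have h1 := ht.ea
    rw [cx_zero] at h1
    have h2 : S = 0 := by
      rcases smul_eq_zero.1 h1.symm with h3 | h3
      · exact absurd h3 Complex.I_ne_zero
      · exact h3
    rw [h2, zero_mul, mul_zero, sub_zero] at hw
    rcases smul_eq_zero.1 hw.symm with h3 | h3
    · norm_num at h3
    · exact h.ne h3

theorem TT.exists_tri (hN : RNice E) (h𝔠 : RLie 𝔠) (h : TT 𝔠 w w') :
    ∃ a ∈ 𝔠, ∃ b ∈ 𝔠, ∃ c ∈ 𝔠, Tri w w' a b c ∧ Su2 a b c := by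
  obtain ⟨P, hP, Q, hQ, hw, hw'⟩ := pr_hc.1 h.pr
  have ha : (2 : ℝ) • br Q P ∈ 𝔠 := h𝔠.smul _ _ (h𝔠.br Q hQ P hP)
  have hb : (2 : ℝ) • Q ∈ 𝔠 := h𝔠.smul _ _ hQ
  have hc : (2 : ℝ) • P ∈ 𝔠 := h𝔠.smul _ _ hP
  have ht : Tri w w' ((2 : ℝ) • br Q P) ((2 : ℝ) • Q) ((2 : ℝ) • P) := by
    refine ⟨?_, ?_, ?_⟩
    · rw [cx_smul, br, cx_sub, cx_mul, cx_mul, HP.lie, hw, hw']
      have e : (Complex.I • cx P - cx Q) * (Complex.I • cx P + cx Q)
          - (Complex.I • cx P + cx Q) * (Complex.I • cx P - cx Q)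
          = (2 : ℂ) • (Complex.I • (cx P * cx Q - cx Q * cx P)) := by
        simp only [sub_mul, mul_add, add_mul, mul_sub, smul_mul_assoc, mul_smul_comm]
        module
      rw [e, smul_comm Complex.I (2 : ℂ), smul_smul Complex.I Complex.I, Complex.I_mul_I]
      push_cast
      module
    · rw [cx_smul, hw, hw']
      push_cast
      module
    · rw [cx_smul, hw, hw']
      have e : Complex.I • cx P - cx Q + (Complex.I • cx P + cx Q) = (2 : ℂ) • (Complex.I • cx P) := by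
        module
      rw [e, smul_comm Complex.I (2 : ℂ), smul_smul Complex.I Complex.I, Complex.I_mul_I]
      push_cast
      module
  exact ⟨_, ha, _, hb, _, hc, ht, tri_su2 hN h𝔠 h ht ha hb hc⟩

omit [CompleteSpace E] in
theorem Tri.unique {a b c a' b' c' : E →L[ℝ] E} (h : Tri w w' a b c) (h' : Tri w w' a' b' c') :
    a = a' ∧ b = b' ∧ c = c' :=
  ⟨cx_inj (h.ea.trans h'.ea.symm), cx_inj (h.eb.trans h'.eb.symm), cx_inj (h.ec.trans h'.ec.symm)⟩

theorem TT.su2 (hN : RNice E) (h𝔠 : RLie 𝔠) (h : TT 𝔠 w w') {a b c : E →L[ℝ] E}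
    (ht : Tri w w' a b c) : Su2 a b c ∧ a ∈ 𝔠 ∧ b ∈ 𝔠 ∧ c ∈ 𝔠 := by
  obtain ⟨a', ha, b', hb, c', hc, ht', hs⟩ := h.exists_tri hN h𝔠
  obtain ⟨rfl, rfl, rfl⟩ := ht.unique ht'
  exact ⟨hs, ha, hb, hc⟩

end Pool.Agent.Helper61.RO
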