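import Pool.Agent.Helper61.RO.TTApi
import Pool.Agent.Helper61.HO.PrPhi

/-!
# RO-68  The weight space 2 is an abelian triple system

PROOF. `𝔅 = {k | (∃ l, Pr (hc 𝔠) k l) ∧ lie S k = 2 k}`, `S = lie w w'`, is a complex subspace, closed (`exists_ysub`: the operators with a star are a closed subspace `Y`). `IsAb (hc 𝔠) (S/2) 0 𝔅`:
* `mem`: `S / 2 ∈ hc 𝔠` (`TT.mem`, real multiple). `pr`: clear. `near`: `lie (S/2) k - k = 0`.
* `comm`: `lie k k'` has a star and `lie S (lie k k') = 4 lie k k'` (Jacobi), so it is `0` (`TT.weight`).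
* `tri`: `x, z ∈ 𝔅`, `Pr y y'`. Let `Grad S M p` (`exists_grad`/`exists_spec` of the grading; here only a grading of `S` is needed) and decompose `y' = ∑ wt M p d y'` (`Grad.sum_wt`); `wt M p d y'` has a star (`Pr.wt`) and weight `d`
  (`Grad.wt_lie`). `lie (lie x (wt d y')) z` has a star and weight `4 + d`, so it is `0` unless `4 + d ≤ 2`; and `wt d y' = 0` unless `|d| ≤ 2`. So only `d = - 2` remains: `lie (lie x y') z` has weight `2`.
-/

set_option autoImplicit false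

open Filter Topology

namespace Pool.Agent.Helper61.RO

universe u

section algebra

variable {F : Type*} [NormedAddCommGroup F] [NormedSpace ℂ F]

private theorem y68_add (A B C : F →L[ℂ] F) : HP.lie A (B + C) = HP.lie A B + HP.lie A C := by
  unfold HP.lie
  noncomm_ring

private theorem y68_smul (A B : F →L[ℂ] F) (c : ℂ) : HP.lie A (c • B) = c • HP.lie A B := by
  unfold HP.lie
  rw [mul_smul_comm, smul_mul_assoc, smul_sub]

private theorem y68_smul' (A B : F →L[ℂ] F) (c : ℂ) : HP.lie (c • A) B = c • HP.lie A B := by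
  unfold HP.lie
  rw [mul_smul_comm, smul_mul_assoc, smul_sub]

private theorem y68_jacobi (A B C : F →L[ℂ] F) :
    HP.lie A (HP.lie B C) = HP.lie (HP.lie A B) C + HP.lie B (HP.lie A C) := by
  unfold HP.lie
  noncomm_ring

private theorem y68_zero (A : F →L[ℂ] F) : HP.lie A 0 = 0 := by
  unfold HP.lie
  rw [mul_zero, zero_mul, sub_zero]

private theorem y68_zero' (A : F →L[ℂ] F) : HP.lie 0 A = 0 := by
  unfold HP.lie
  rw [mul_zero, zero_mul, sub_zero]

private theorem y68_sum {ι : Type*} (s : Finset ι) (f : ι → F →L[ℂ] F) (x z : F →L[ℂ] F) :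
    HP.lie (HP.lie x (∑ d ∈ s, f d)) z = ∑ d ∈ s, HP.lie (HP.lie x (f d)) z := by
  unfold HP.lie
  simp only [Finset.mul_sum, Finset.sum_mul, ← Finset.sum_sub_distrib]

/-- weights add -/
private theorem y68_wt {S x k : F →L[ℂ] F} {a b : ℂ} (hx : HP.lie S x = a • x)
    (hk : HP.lie S k = b • k) : HP.lie S (HP.lie x k) = (a + b) • HP.lie x k := by
  rw [y68_jacobi, hx, hk, y68_smul, y68_smul', ← add_smul]

end algebra

variable {E : Type u} [NormedAddCommGroup E] [NormedSpace ℝ E] [CompleteSpace E]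
  {𝔠 : Set (E →L[ℝ] E)} {w w' : Cx E →L[ℂ] Cx E} {M : ℕ} {p : ℤ → Cx E →L[ℂ] Cx E}

theorem isAb_y2 (hN : RNice E) (h𝔠 : RLie 𝔠) (h : TT 𝔠 w w') (hs : Spec w w' M p) :
    ∃ 𝔅 : Submodule ℂ (Cx E →L[ℂ] Cx E),
      HP.IsAb (hc 𝔠) ((1 / 2 : ℂ) • HP.lie w w') 0 𝔅 ∧
        ∀ k, k ∈ 𝔅 ↔ (∃ l, HP.Pr (hc 𝔠) k l) ∧ HP.lie (HP.lie w w') k = (2 : ℂ) • k := by
  have hh := hlie_hc hN h𝔠
  obtain ⟨Y, hYc, hYm⟩ := HP.exists_ysub hh
  set S := HP.lie w w' with hS
  let 𝔅 : Submodule ℂ (Cx E →L[ℂ] Cx E) :=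
    { carrier := {k | k ∈ Y ∧ HP.lie S k = (2 : ℂ) • k}
      add_mem' := by
        rintro a b ⟨ha, ha'⟩ ⟨hb, hb'⟩
        exact ⟨Y.add_mem ha hb, by rw [y68_add, ha', hb', smul_add]⟩
      zero_mem' := ⟨Y.zero_mem, by rw [y68_zero, smul_zero]⟩
      smul_mem' := by
        rintro c a ⟨ha, ha'⟩
        exact ⟨Y.smul_mem c ha, by rw [y68_smul, ha', smul_comm]⟩ }
  have hmem : ∀ k, k ∈ 𝔅 ↔ (∃ l, HP.Pr (hc 𝔠) k l) ∧ HP.lie S k = (2 : ℂ) • k := by
    intro k
    change (k ∈ Y ∧ HP.lie S k = (2 : ℂ) • k) ↔ _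
    rw [hYm]
  refine ⟨𝔅, ⟨?_, ?_, ?_, ?_, ?_, ?_⟩, hmem⟩
  · have h1 := hh.smul (1 / 2) S (h.mem hN h𝔠).1
    have h2 : (((1 / 2 : ℝ)) : ℂ) = (1 / 2 : ℂ) := by push_cast; ring
    rwa [h2] at h1
  · have h1 : IsClosed {k : Cx E →L[ℂ] Cx E | HP.lie S k = (2 : ℂ) • k} := by
      refine isClosed_eq ?_ (continuous_const_smul _)
      unfold HP.lie
      exact (continuous_const.mul continuous_id).sub (continuous_id.mul continuous_const)
    exact hYc.inter h1
  · intro K hK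
    exact ((hmem K).1 hK).1
  · intro K hK K' hK'
    obtain ⟨⟨L, hL⟩, h1⟩ := (hmem K).1 hK
    obtain ⟨⟨L', hL'⟩, h2⟩ := (hmem K').1 hK'
    have h3 : HP.lie S (HP.lie K K') = ((4 : ℤ) : ℂ) • HP.lie K K' := by
      rw [y68_wt h1 h2]
      norm_num
    have h4 := h.weight hN h𝔠 (HP.Pr.lie hh hL hL') h3 (by norm_num)
    exact sub_eq_zero.1 h4
  · intro x hx y y' hy z hz
    obtain ⟨⟨x', hx'⟩, hx2⟩ := (hmem x).1 hx
    obtain ⟨⟨z', hz'⟩, hz2⟩ := (hmem z).1 hz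
    have hG := hs.grad
    rw [← hG.sum_wt y', y68_sum]
    refine 𝔅.sum_mem fun d _ => ?_
    have hp := HP.Pr.wt hh hG (h.mem hN h𝔠).1 (hy.symm hh) d
    have hw : HP.lie S (HP.wt M p d y') = (d : ℂ) • HP.wt M p d y' := hG.wt_lie d y'
    by_cases hd : 2 < |d|
    · have h0 : HP.wt M p d y' = 0 := h.weight hN h𝔠 hp hw hd
      rw [h0, y68_zero, y68_zero']
      exact 𝔅.zero_mem
    · have h1 := HP.Pr.lie hh (HP.Pr.lie hh hx' hp) hz'
      have h2 := y68_wt (y68_wt hx2 hw) hz2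
      have h3 : (2 : ℂ) + (d : ℂ) + 2 = ((4 + d : ℤ) : ℂ) := by push_cast; ring
      rw [h3] at h2
      rw [not_lt, abs_le] at hd
      by_cases hd2 : d = -2
      · rw [hmem]
        refine ⟨⟨_, h1⟩, ?_⟩
        rw [h2, hd2]
        norm_num
      · have h4 := h.weight hN h𝔠 h1 h2 (by
          have h5 : 3 ≤ 4 + d := by omega
          exact lt_of_lt_of_le (by omega) (le_abs_self _))
        rw [h4]
        exact 𝔅.zero_mem
  · intro K hK
    have h1 : HP.lie ((1 / 2 : ℂ) • S) K - K = 0 := by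
      rw [y68_smul', ((hmem K).1 hK).2, smul_smul]
      norm_num
    rw [h1, norm_zero, zero_mul]

end Pool.Agent.Helper61.RO
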